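import Pool.Agent.Zk18.Dg4

/-!
# Points on polynomially parametrised plane curves, II
-/

set_option autoImplicit false

namespace Pool.Agent.Zk18.Dg

open MvPolynomial

section

variable {K Ω : Type} [Field K] [IsAlgClosed K] [Field Ω] [IsAlgClosed Ω] [Algebra K Ω]

/-- a polynomial curve over `K` with the same relations as the point `y` -/
theorem exists_special (y : Fin 2 → Ω) (i : Fin 2)
    (hi : AlgebraicIndependent K fun j : Fin 1 => y (i.succAbove j))
    (P : MvPolynomial (Fin 2) K) (hP : P ≠ 0) (hPy : aeval y P = 0) (c : Fin 2 → Polynomial Ω)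
    (hc : ∀ l, (c l).coeff 0 = y l) (hcP : aeval c P = 0) (hne : ∃ l, c l ≠ Polynomial.C (y l)) :
    ∃ f : Fin 2 → Polynomial K, (f (i.succAbove 0)).natDegree ≠ 0 ∧
      ∀ F : MvPolynomial (Fin 2) K, aeval f F = 0 ↔ aeval y F = 0 := by
  classical
  have hca := coord_nonconstant y i hi P hP c hc hcP hne
  obtain ⟨n, hn0, hn⟩ : ∃ n, n ≠ 0 ∧ (c (i.succAbove 0)).coeff n ≠ 0 := by
    by_contra hno
    push Not at hno
    apply hca
    ext n
    rw [Polynomial.coeff_C]
    split_ifs with h
    · rw [h, hc]
    · exact hno n h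
  let T : Set Ω := ⋃ l, ((c l).coeffs : Set Ω)
  have hT : T.Finite := Set.finite_iUnion fun l => Finset.finite_toSet _
  let R := Algebra.adjoin K T
  have hft : Algebra.FiniteType K R := by
    rw [← Subalgebra.fg_iff_finiteType]
    exact ⟨hT.toFinset, by rw [Set.Finite.coe_toFinset]⟩
  have hcoef : ∀ l n, (c l).coeff n ∈ R := by
    intro l n
    by_cases h : (c l).coeff n = 0
    · rw [h]; exact Subalgebra.zero_mem _
    · apply Algebra.subset_adjoin
      exact Set.mem_iUnion.mpr ⟨l, Polynomial.coeff_mem_coeffs h⟩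
  have hlift : ∀ l, ∃ d : Polynomial R, d.map (algebraMap R Ω) = c l := by
    intro l
    rw [← Polynomial.mem_lifts, Polynomial.lifts_iff_coeff_lifts]
    intro n
    exact ⟨⟨_, hcoef l n⟩, rfl⟩
  choose d hd using hlift
  obtain ⟨s, hs⟩ := exists_point (K := K) (R := R) ((d (i.succAbove 0)).coeff n) (by
    intro h
    apply hn
    rw [← hd, Polynomial.coeff_map, h, map_zero])
  let f : Fin 2 → Polynomial K := fun l => (d l).map (s : R →+* K)
  have hfn : (f (i.succAbove 0)).coeff n ≠ 0 := by
    simp only [f, Polynomial.coeff_map]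
    exact hs
  have hfdeg : (f (i.succAbove 0)).natDegree ≠ 0 := by
    intro h
    apply hfn
    rw [Polynomial.eq_C_of_natDegree_eq_zero h, Polynomial.coeff_C, if_neg hn0]
  have htrans : ∀ F : MvPolynomial (Fin 2) K, aeval y F = 0 → aeval f F = 0 := by
    intro F hF
    have h1 := curve_transfer y i hi F P hP hF c hc hcP
    have h2 : (Polynomial.mapAlgHom R.val) (aeval d F) = aeval c F := by
      rw [MvPolynomial.comp_aeval_apply]
      congr 2
      funext l
      rw [← hd l]
      rfl
    have h3 : aeval d F = 0 := by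
      rw [h1] at h2
      have h4 : Function.Injective (Polynomial.mapAlgHom R.val) :=
        Polynomial.map_injective _ Subtype.val_injective
      exact h4 (h2.trans (map_zero _).symm)
    have h5 : (Polynomial.mapAlgHom s) (aeval d F) = aeval f F := by
      rw [MvPolynomial.comp_aeval_apply]
      rfl
    rw [← h5, h3, map_zero]
  refine ⟨f, hfdeg, fun F => ⟨fun hF => ?_, htrans F⟩⟩
  -- the converse
  by_contra hFy
  let B := Algebra.adjoin K (Set.range fun j : Fin 1 => y (i.succAbove j))
  let S := Subalgebra.algebraicClosure B Ω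
  have hyS : ∀ l, y l ∈ S := by
    intro l
    rcases Fin.eq_self_or_eq_succAbove i l with rfl | ⟨j, rfl⟩
    · exact alg_of_rel y l hi P hP hPy
    · exact isAlgebraic_algebraMap (A := Ω)
        (⟨y (i.succAbove j), Algebra.subset_adjoin ⟨j, rfl⟩⟩ : B)
  let yS : Fin 2 → S := fun l => ⟨y l, hyS l⟩
  have hFS : aeval y F ∈ S := by
    have h4 : (aeval y : MvPolynomial (Fin 2) K →ₐ[K] Ω) =
        (S.val.restrictScalars K).comp (aeval yS) := by
      apply MvPolynomial.algHom_ext
      intro l
      simp [yS]
    rw [h4]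
    exact (aeval yS F : S).2
  have hFalg : IsAlgebraic B (aeval y F) := hFS
  obtain ⟨q, hq0, hq⟩ := hFalg.exists_nonzero_coeff_and_aeval_eq_zero
    (mem_nonZeroDivisors_of_ne_zero hFy)
  have hg : ∀ b : B, ∃ g : MvPolynomial (Fin 1) K,
      aeval (fun j : Fin 1 => y (i.succAbove j)) g = (b : Ω) := by
    intro b
    have h5 : (b : Ω) ∈ Algebra.adjoin K (Set.range fun j : Fin 1 => y (i.succAbove j)) := b.2
    rw [Algebra.adjoin_range_eq_range_aeval] at h5
    exact h5
  choose g hg using hg
  let ρ : MvPolynomial (Fin 1) K →ₐ[K] MvPolynomial (Fin 2) K := rename i.succAbove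
  let H : MvPolynomial (Fin 2) K := ∑ m ∈ q.support, ρ (g (q.coeff m)) * F ^ m
  have hH : ∀ {E : Type} [CommRing E] [Algebra K E] (x : Fin 2 → E), aeval x H =
      ∑ m ∈ q.support, aeval (fun j : Fin 1 => x (i.succAbove j)) (g (q.coeff m)) *
        (aeval x F) ^ m := by
    intro E _ _ x
    simp only [H, map_sum, map_mul, map_pow, ρ, aeval_rename]
    rfl
  have hHy : aeval y H = 0 := by
    rw [hH]
    rw [Polynomial.aeval_def, Polynomial.eval₂_eq_sum, Polynomial.sum] at hq
    rw [← hq]
    refine Finset.sum_congr rfl fun m _ => ?_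
    rw [hg]
    rfl
  have hHf := htrans H hHy
  rw [hH, hF] at hHf
  rw [Finset.sum_eq_single 0] at hHf
  · rw [pow_zero, mul_one] at hHf
    have htr : AlgebraicIndependent K (fun j : Fin 1 => f (i.succAbove j)) := by
      rw [algebraicIndependent_unique_type_iff]
      have h6 : (default : Fin 1) = 0 := rfl
      rw [h6]
      apply Polynomial.transcendental _ hfdeg
      apply mem_nonZeroDivisors_of_ne_zero
      rw [ne_eq, Polynomial.leadingCoeff_eq_zero]
      intro h5
      rw [h5] at hfdeg
      exact hfdeg Polynomial.natDegree_zero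
    have h7 : g (q.coeff 0) = 0 := htr (hHf.trans (map_zero _).symm)
    have h8 := hg (q.coeff 0)
    rw [h7, map_zero] at h8
    exact hq0 (Subtype.ext h8.symm)
  · intro m _ hm
    rw [zero_pow hm, mul_zero]
  · intro h0
    rw [Polynomial.notMem_support_iff] at h0
    exact absurd h0 hq0

/-- **The point is a value of the parametrisation.** -/
theorem polynomial_pair (y : Fin 2 → Ω) (i : Fin 2)
    (hi : AlgebraicIndependent K fun j : Fin 1 => y (i.succAbove j))
    (P : MvPolynomial (Fin 2) K) (hP : P ≠ 0) (hPy : aeval y P = 0) (c : Fin 2 → Polynomial Ω)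
    (hc : ∀ l, (c l).coeff 0 = y l) (hcP : aeval c P = 0) (hne : ∃ l, c l ≠ Polynomial.C (y l)) :
    ∃ (f : Fin 2 → Polynomial K) (t : Ω), ∀ l, y l = Polynomial.aeval t (f l) := by
  classical
  obtain ⟨f, hfdeg, hf⟩ := exists_special y i hi P hP hPy c hc hcP hne
  let I : Ideal (MvPolynomial (Fin 2) K) :=
    RingHom.ker (aeval y : MvPolynomial (Fin 2) K →ₐ[K] Ω)
  have hIp : I.IsPrime := RingHom.ker_isPrime _
  let Q := MvPolynomial (Fin 2) K ⧸ I
  let φ : Q →ₐ[K] Ω := Ideal.Quotient.liftₐ I (aeval y) (fun F hF => hF)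
  let ψ : Q →ₐ[K] Polynomial K := Ideal.Quotient.liftₐ I (aeval f) (fun F hF => (hf F).mpr hF)
  have hφinj : Function.Injective φ := by
    rw [injective_iff_map_eq_zero]
    intro x
    obtain ⟨F, rfl⟩ := Ideal.Quotient.mk_surjective x
    intro hF
    rw [Ideal.Quotient.eq_zero_iff_mem]
    exact hF
  have hψinj : Function.Injective ψ := by
    rw [injective_iff_map_eq_zero]
    intro x
    obtain ⟨F, rfl⟩ := Ideal.Quotient.mk_surjective x
    intro hF
    rw [Ideal.Quotient.eq_zero_iff_mem]
    exact (hf F).mp hF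
  letI := φ.toRingHom.toAlgebra
  letI := ψ.toRingHom.toAlgebra
  have htf1 : Module.IsTorsionFree Q Ω := Module.isTorsionFree_iff_algebraMap_injective.mpr hφinj
  have htf2 : Module.IsTorsionFree Q (Polynomial K) :=
    Module.isTorsionFree_iff_algebraMap_injective.mpr hψinj
  have hmk : ∀ F : MvPolynomial (Fin 2) K,
      algebraMap Q (Polynomial K) (Ideal.Quotient.mk I F) = aeval f F := fun F => rfl
  have hmk' : ∀ F : MvPolynomial (Fin 2) K,
      algebraMap Q Ω (Ideal.Quotient.mk I F) = aeval y F := fun F => rfl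
  have hX : IsAlgebraic Q (Polynomial.X : Polynomial K) := by
    let a := i.succAbove (0 : Fin 1)
    let κ : K →+* Q := (Ideal.Quotient.mk I).comp (C : K →+* MvPolynomial (Fin 2) K)
    refine ⟨(f a).map κ - Polynomial.C (Ideal.Quotient.mk I (X a)), ?_, ?_⟩
    · intro h0
      apply hfdeg
      have h1 : (f a).map κ = Polynomial.C (Ideal.Quotient.mk I (X a)) := sub_eq_zero.mp h0
      have h2 : Function.Injective κ := by
        intro x x' hxx
        have h3 := congrArg (fun q : Q => algebraMap Q (Polynomial K) q) hxx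
        simp only [κ, RingHom.comp_apply] at h3
        rw [hmk, hmk, aeval_C, aeval_C] at h3
        exact Polynomial.C_injective h3
      have h4 := congrArg Polynomial.natDegree h1
      rw [Polynomial.natDegree_map_eq_of_injective h2, Polynomial.natDegree_C] at h4
      exact h4
    · rw [map_sub, Polynomial.aeval_C, hmk, aeval_X, Polynomial.aeval_def, Polynomial.eval₂_map]
      have h2 : (algebraMap Q (Polynomial K)).comp κ = Polynomial.C := by
        ext1 x
        simp only [κ, RingHom.comp_apply]
        rw [hmk, aeval_C]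
        rfl
      rw [h2, Polynomial.eval₂_C_X, sub_self]
  have halg : Algebra.IsAlgebraic Q (Polynomial K) := by
    refine ⟨fun p => ?_⟩
    induction p using Polynomial.induction_on' with
    | add p q hp hq => exact hp.add hq
    | monomial n a =>
      rw [← Polynomial.C_mul_X_pow_eq_monomial]
      refine IsAlgebraic.mul ?_ (hX.pow n)
      have h1 : (Polynomial.C a : Polynomial K) =
          algebraMap Q (Polynomial K) (Ideal.Quotient.mk I (C a)) := by
        rw [hmk, aeval_C]; rfl
      rw [h1]
      exact isAlgebraic_algebraMap _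
  let θ : Polynomial K →ₐ[Q] Ω := IsAlgClosed.lift
  refine ⟨f, θ Polynomial.X, fun l => ?_⟩
  have h1 : θ (f l) = y l := by
    have h2 : f l = algebraMap Q (Polynomial K) (Ideal.Quotient.mk I (X l)) := by
      rw [hmk, aeval_X]
    rw [h2, AlgHom.commutes, hmk', aeval_X]
  rw [← h1]
  have h3 : (θ : Polynomial K →+* Ω) = (Polynomial.aeval (θ Polynomial.X) :
      Polynomial K →ₐ[K] Ω).toRingHom := by
    apply Polynomial.ringHom_ext
    · intro a
      have h4 : (Polynomial.C a : Polynomial K) =
          algebraMap Q (Polynomial K) (Ideal.Quotient.mk I (C a)) := by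
        rw [hmk, aeval_C]; rfl
      have h5 : θ (Polynomial.C a) = algebraMap K Ω a := by
        rw [h4, AlgHom.commutes, hmk', aeval_C]
      change θ (Polynomial.C a) = Polynomial.aeval (θ Polynomial.X) (Polynomial.C a)
      rw [h5, Polynomial.aeval_C]
    · change θ Polynomial.X = Polynomial.aeval (θ Polynomial.X) Polynomial.X
      rw [Polynomial.aeval_X]
  exact congrArg (fun φ : Polynomial K →+* Ω => φ (f l)) h3

end

end Pool.Agent.Zk18.Dg
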