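import Pool.Agent.Zk18.Dg2

/-!
# All relations of a generic point have the same polynomial curves
-/

set_option autoImplicit false

namespace Pool.Agent.Zk18.Dg

open MvPolynomial

variable {K Ω : Type} [Field K] [Field Ω] [Algebra K Ω]

/-- a polynomial curve through a point of transcendence degree `k` on one hypersurface lies on all
hypersurfaces through the point -/
theorem curve_transfer {k : ℕ} (y : Fin (k + 1) → Ω) (i : Fin (k + 1))
    (hi : AlgebraicIndependent K fun j => y (i.succAbove j))
    (P Q : MvPolynomial (Fin (k + 1)) K) (hQ : Q ≠ 0) (hPy : aeval y P = 0)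
    (c : Fin (k + 1) → Polynomial Ω) (hc : ∀ l, (c l).coeff 0 = y l) (hcQ : aeval c Q = 0) :
    aeval c P = 0 := by
  classical
  let ev : Polynomial Ω →ₐ[K] Ω := (Polynomial.aeval (0 : Ω)).restrictScalars K
  have hev : ∀ p : Polynomial Ω, ev p = p.coeff 0 := by
    intro p
    have h1 : ev p = Polynomial.aeval (0 : Ω) p := rfl
    rw [h1, Polynomial.coeff_zero_eq_aeval_zero]
  let cj : Fin k → Polynomial Ω := fun j => c (i.succAbove j)
  have hcj : AlgebraicIndependent K cj := by
    refine AlgebraicIndependent.of_comp ev ?_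
    have h1 : (ev ∘ cj) = fun j => y (i.succAbove j) := by
      funext j
      rw [Function.comp_apply, hev]
      exact hc _
    rw [h1]
    exact hi
  have halg := alg_of_rel c i hcj Q hQ hcQ
  let B := Algebra.adjoin K (Set.range cj)
  let S := Subalgebra.algebraicClosure B (Polynomial Ω)
  have hcS : ∀ l, c l ∈ S := by
    intro l
    rcases Fin.eq_self_or_eq_succAbove i l with rfl | ⟨j, rfl⟩
    · exact halg
    · exact isAlgebraic_algebraMap (A := Polynomial Ω)
        (⟨cj j, Algebra.subset_adjoin ⟨j, rfl⟩⟩ : B)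
  let cS : Fin (k + 1) → S := fun l => ⟨c l, hcS l⟩
  have hfS : aeval c P ∈ S := by
    have h4 : (aeval c : MvPolynomial (Fin (k + 1)) K →ₐ[K] Polynomial Ω) =
        (S.val.restrictScalars K).comp (aeval cS) := by
      apply MvPolynomial.algHom_ext
      intro l
      simp [cS]
    rw [h4]
    exact (aeval cS P : S).2
  by_contra hf0
  have hfalg : IsAlgebraic B (aeval c P) := hfS
  obtain ⟨q, hq0, hq⟩ := hfalg.exists_nonzero_coeff_and_aeval_eq_zero
    (mem_nonZeroDivisors_of_ne_zero hf0)
  have hevf : ev (aeval c P) = 0 := by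
    rw [MvPolynomial.comp_aeval_apply]
    have h1 : (fun l => ev (c l)) = y := by
      funext l
      rw [hev]
      exact hc l
    rw [h1]
    exact hPy
  have h2 := congrArg ev hq
  rw [map_zero, Polynomial.aeval_def] at h2
  have h3 : ev (Polynomial.eval₂ (algebraMap B (Polynomial Ω)) (aeval c P) q) =
      Polynomial.eval₂ (ev.toRingHom.comp (algebraMap B (Polynomial Ω))) (ev (aeval c P)) q :=
    Polynomial.hom_eval₂ q (algebraMap B (Polynomial Ω)) ev.toRingHom (aeval c P)
  rw [h3, hevf, Polynomial.eval₂_at_zero] at h2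
  have h4 : ev ((q.coeff 0 : B) : Polynomial Ω) = 0 := h2
  obtain ⟨g, hg⟩ : ∃ g : MvPolynomial (Fin k) K, aeval cj g = ((q.coeff 0 : B) : Polynomial Ω) := by
    have h5 : ((q.coeff 0 : B) : Polynomial Ω) ∈ Algebra.adjoin K (Set.range cj) :=
      (q.coeff 0 : B).2
    rw [Algebra.adjoin_range_eq_range_aeval] at h5
    exact h5
  rw [← hg, MvPolynomial.comp_aeval_apply] at h4
  have h6 : (fun j => ev (cj j)) = fun j => y (i.succAbove j) := by
    funext j
    rw [hev]
    exact hc _
  rw [h6] at h4
  have h7 : g = 0 := hi (h4.trans (map_zero _).symm)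
  rw [h7, map_zero] at hg
  exact hq0 (Subtype.ext hg.symm)

end Pool.Agent.Zk18.Dg
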