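import Mathlib

/-!
# Birational Laurent points

`R` is an algebra over an algebraically closed field `K` without nonconstant polynomial points. If it
has a nonconstant Laurent point, then it has a birational one.
-/

set_option autoImplicit false

namespace Pool.Agent.Zk18

open Polynomial
open scoped LaurentPolynomial IntermediateField

variable {K : Type*} [Field K]

/-- Laurent polynomials as rational functions -/
noncomputable def iL : K[T;T⁻¹] →ₐ[K] RatFunc K :=
  { LaurentPolynomial.eval₂ (algebraMap K (RatFunc K)) (Units.mk0 RatFunc.X RatFunc.X_ne_zero) with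
    commutes' := fun k => by
      change LaurentPolynomial.eval₂ _ _ (algebraMap K K[T;T⁻¹] k) = _
      have : algebraMap K K[T;T⁻¹] k = LaurentPolynomial.C k := rfl
      rw [this, LaurentPolynomial.eval₂_C] }

theorem iL_toLaurent (p : K[X]) : iL (Polynomial.toLaurent p) = algebraMap K[X] (RatFunc K) p := by
  change LaurentPolynomial.eval₂ _ _ (Polynomial.toLaurent p) = _
  rw [LaurentPolynomial.eval₂_toLaurent]
  change Polynomial.eval₂ (algebraMap K (RatFunc K)) RatFunc.X p = _
  rw [← aeval_def]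
  exact RatFunc.aeval_X_left_eq_algebraMap p

theorem iL_T (n : ℤ) : iL (LaurentPolynomial.T n : K[T;T⁻¹]) = (RatFunc.X : RatFunc K) ^ n := by
  change LaurentPolynomial.eval₂ _ _ (LaurentPolynomial.T n) = _
  rw [LaurentPolynomial.eval₂_T, Units.val_zpow_eq_zpow_val]
  rfl

theorem iL_exists (γ : K[T;T⁻¹]) : ∃ (n : ℕ) (p : K[X]),
    γ = Polynomial.toLaurent p * LaurentPolynomial.T (-(n : ℤ)) := by
  obtain ⟨n, p, h⟩ := LaurentPolynomial.exists_T_pow γ
  refine ⟨n, p, ?_⟩
  rw [h, mul_assoc, ← LaurentPolynomial.T_add, add_neg_cancel, LaurentPolynomial.T_zero, mul_one]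

theorem iL_injective : Function.Injective (iL : K[T;T⁻¹] →ₐ[K] RatFunc K) := by
  rw [injective_iff_map_eq_zero]
  intro γ h
  obtain ⟨n, p, rfl⟩ := iL_exists γ
  rw [map_mul, iL_toLaurent, iL_T, mul_eq_zero] at h
  rcases h with h | h
  · have h1 : p = 0 := (map_eq_zero_iff _ (IsFractionRing.injective K[X] (RatFunc K))).mp h
    rw [h1, map_zero, zero_mul]
  · exact absurd h (zpow_ne_zero _ RatFunc.X_ne_zero)

/-- evaluation of Laurent polynomials -/
noncomputable def evU (x : Kˣ) : K[T;T⁻¹] →ₐ[K] K :=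
  { LaurentPolynomial.eval₂ (RingHom.id K) x with
    commutes' := fun k => by
      change LaurentPolynomial.eval₂ _ _ (algebraMap K K[T;T⁻¹] k) = _
      have : algebraMap K K[T;T⁻¹] k = LaurentPolynomial.C k := rfl
      rw [this, LaurentPolynomial.eval₂_C]
      rfl }

theorem evU_T (x : Kˣ) (n : ℤ) : evU x (LaurentPolynomial.T n) = ((x ^ n : Kˣ) : K) := by
  change LaurentPolynomial.eval₂ _ _ (LaurentPolynomial.T n) = _
  rw [LaurentPolynomial.eval₂_T]

theorem evU_toLaurent (x : Kˣ) (p : K[X]) : evU x (Polynomial.toLaurent p) = p.eval (x : K) := by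
  change LaurentPolynomial.eval₂ _ _ (Polynomial.toLaurent p) = _
  rw [LaurentPolynomial.eval₂_toLaurent]
  rfl

theorem evU_C (x : Kˣ) (k : K) : evU x (LaurentPolynomial.C k) = k := by
  change LaurentPolynomial.eval₂ _ _ (LaurentPolynomial.C k) = _
  rw [LaurentPolynomial.eval₂_C]
  rfl

theorem eq_monomial [IsAlgClosed K] (p : K[X]) (hp : p ≠ 0) (h : ∀ x : K, x ≠ 0 → p.eval x ≠ 0) :
    ∃ (c : K) (m : ℕ), c ≠ 0 ∧ p = C c * X ^ m := by
  have h1 : p.roots = Multiset.replicate p.roots.card 0 := by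
    rw [Multiset.eq_replicate]
    refine ⟨rfl, fun x hx => ?_⟩
    by_contra hx0
    rw [mem_roots hp] at hx
    exact h x hx0 hx
  refine ⟨p.leadingCoeff, p.roots.card, leadingCoeff_ne_zero.mpr hp, ?_⟩
  conv_lhs => rw [(IsAlgClosed.splits p).eq_prod_roots]
  rw [h1]
  simp

theorem laurent_unit [IsAlgClosed K] (γ : K[T;T⁻¹]) (h0 : γ ≠ 0) (h : ∀ x : Kˣ, evU x γ ≠ 0) :
    ∃ (c : K) (n : ℤ), c ≠ 0 ∧ γ = LaurentPolynomial.C c * LaurentPolynomial.T n := by
  obtain ⟨n, p, rfl⟩ := iL_exists γ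
  have hp : p ≠ 0 := by
    rintro rfl
    rw [map_zero, zero_mul] at h0
    exact h0 rfl
  obtain ⟨c, m, hc, rfl⟩ := eq_monomial p hp (by
    intro x hx hpx
    apply h (Units.mk0 x hx)
    rw [map_mul, evU_toLaurent, Units.val_mk0, hpx, zero_mul])
  refine ⟨c, m - n, hc, ?_⟩
  rw [map_mul, Polynomial.toLaurent_C, map_pow, Polynomial.toLaurent_X, LaurentPolynomial.T_pow,
    mul_assoc, ← LaurentPolynomial.T_add]
  congr 2
  ring

/-- homogenised polynomial -/
noncomputable def hom (a b : K[X]) (N : ℕ) (P : K[X]) : K[X] :=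
  ∑ i ∈ Finset.range (N + 1), C (P.coeff i) * a ^ i * b ^ (N - i)

theorem hom_algebraMap (a b : K[X]) (hb : b ≠ 0) (N : ℕ) (P : K[X]) (hP : P.natDegree ≤ N) :
    algebraMap K[X] (RatFunc K) (hom a b N P) = algebraMap K[X] (RatFunc K) b ^ N *
      aeval (algebraMap K[X] (RatFunc K) a / algebraMap K[X] (RatFunc K) b) P := by
  have hb' : algebraMap K[X] (RatFunc K) b ≠ 0 := by
    rw [Ne, map_eq_zero_iff _ (IsFractionRing.injective K[X] (RatFunc K))]
    exact hb
  rw [hom, map_sum, aeval_eq_sum_range' (Nat.lt_succ_of_le hP), Finset.mul_sum]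
  apply Finset.sum_congr rfl
  intro i hi
  have hi' : i ≤ N := Nat.lt_succ_iff.mp (Finset.mem_range.mp hi)
  rw [map_mul, map_mul, map_pow, map_pow, div_pow, Algebra.smul_def]
  have h1 : algebraMap K[X] (RatFunc K) b ^ N = algebraMap K[X] (RatFunc K) b ^ (N - i) *
      algebraMap K[X] (RatFunc K) b ^ i := by
    rw [← pow_add, Nat.sub_add_cancel hi']
  have h2 : algebraMap K[X] (RatFunc K) (C (P.coeff i)) = algebraMap K (RatFunc K) (P.coeff i) := by
    rw [← Polynomial.algebraMap_eq, ← IsScalarTower.algebraMap_apply]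
  rw [h1, h2]
  field_simp

theorem hom_eval_of_ne (a b : K[X]) (N : ℕ) (P : K[X]) (hP : P.natDegree ≤ N) (t : K)
    (hb : b.eval t ≠ 0) : (hom a b N P).eval t = b.eval t ^ N * P.eval (a.eval t / b.eval t) := by
  rw [hom, eval_finsetSum, eval_eq_sum_range' (Nat.lt_succ_of_le hP), Finset.mul_sum]
  apply Finset.sum_congr rfl
  intro i hi
  have hi' : i ≤ N := Nat.lt_succ_iff.mp (Finset.mem_range.mp hi)
  rw [eval_mul, eval_mul, eval_pow, eval_pow, eval_C, div_pow]
  have h1 : b.eval t ^ N = b.eval t ^ (N - i) * b.eval t ^ i := by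
    rw [← pow_add, Nat.sub_add_cancel hi']
  rw [h1]
  field_simp

theorem hom_eval_of_eq (a b : K[X]) (N : ℕ) (P : K[X]) (t : K)
    (hb : b.eval t = 0) : (hom a b N P).eval t = P.coeff N * a.eval t ^ N := by
  rw [hom, eval_finsetSum, Finset.sum_eq_single N]
  · simp
  · intro i hi hne
    have hi' : i ≤ N := Nat.lt_succ_iff.mp (Finset.mem_range.mp hi)
    rw [eval_mul, eval_pow, hb, zero_pow (by omega), mul_zero]
  · intro h
    exact absurd (Finset.mem_range.mpr (Nat.lt_succ_self N)) h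


/-- **Key property of the poles.** `h = P(a/b) / Q(a/b)` for a Laurent polynomial `h`. -/
theorem pole_identity (a b P Q : K[X]) (hb : b ≠ 0) (h : K[T;T⁻¹])
    (hh : iL h * aeval (algebraMap K[X] (RatFunc K) a / algebraMap K[X] (RatFunc K) b) Q =
      aeval (algebraMap K[X] (RatFunc K) a / algebraMap K[X] (RatFunc K) b) P) (N : ℕ)
    (hP : P.natDegree ≤ N) (hQ : Q.natDegree ≤ N) (t : K) (ht : t ≠ 0)
    (h0 : (hom a b N Q).eval t = 0) : (hom a b N P).eval t = 0 := by
  obtain ⟨n, H, rfl⟩ := iL_exists h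
  have h1 : hom a b N P * X ^ n = H * hom a b N Q := by
    apply IsFractionRing.injective K[X] (RatFunc K)
    rw [map_mul, map_mul, hom_algebraMap a b hb N P hP, hom_algebraMap a b hb N Q hQ, ← hh,
      map_mul, iL_toLaurent, iL_T, map_pow, RatFunc.algebraMap_X, zpow_neg, zpow_natCast]
    have : (RatFunc.X : RatFunc K) ^ n ≠ 0 := pow_ne_zero _ RatFunc.X_ne_zero
    field_simp
  have h2 := congrArg (eval t) h1
  rw [eval_mul, eval_mul, eval_pow, eval_X, h0, mul_zero] at h2
  exact (mul_eq_zero.mp h2).resolve_right (pow_ne_zero _ ht)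

theorem coprime_eval {a b : K[X]} (h : IsCoprime a b) (t : K) (hb : b.eval t = 0) :
    a.eval t ≠ 0 := by
  intro ha
  obtain ⟨u, v, huv⟩ := h
  have := congrArg (eval t) huv
  rw [eval_add, eval_mul, eval_mul, ha, hb, mul_zero, mul_zero, add_zero, eval_one] at this
  exact zero_ne_one this

/-- **First step**: a generator which is a Laurent polynomial. -/
theorem exists_generator [IsAlgClosed K] (E : IntermediateField K (RatFunc K)) (h : K[T;T⁻¹])
    (hE : iL h ∈ E) (hh : h ∉ Set.range (algebraMap K K[T;T⁻¹])) :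
    ∃ γ : K[T;T⁻¹], iL γ ∈ E ∧ E = IntermediateField.adjoin K {iL γ} := by
  classical
  have hEne : E ≠ ⊥ := by
    intro hbot
    rw [hbot, IntermediateField.mem_bot] at hE
    obtain ⟨k, hk⟩ := hE
    apply hh
    refine ⟨k, iL_injective ?_⟩
    rw [← hk]
    exact iL.commutes k
  set g₀ := RatFunc.Luroth.generator E with hg₀
  have hEg : E = IntermediateField.adjoin K {g₀} := RatFunc.Luroth.eq_adjoin_generator
  have hg₀tr : Transcendental K g₀ := RatFunc.Luroth.transcendental_generator hEne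
  set a := g₀.num with ha
  set b := g₀.denom with hb
  have hab : IsCoprime a b := g₀.isCoprime_num_denom
  have hb0 : b ≠ 0 := g₀.denom_ne_zero
  have hdiv : algebraMap K[X] (RatFunc K) a / algebraMap K[X] (RatFunc K) b = g₀ :=
    g₀.num_div_denom
  -- the function `u`
  set u := (RatFunc.Luroth.algEquiv hEne).symm ⟨iL h, hE⟩ with hu
  have hu1 : iL h = aeval g₀ u.num / aeval g₀ u.denom := by
    have h1 := RatFunc.Luroth.algEquiv_apply hEne u
    rw [hu, AlgEquiv.apply_symm_apply] at h1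
    exact h1
  have hden : aeval g₀ u.denom ≠ 0 := by
    intro h1
    exact u.denom_ne_zero ((transcendental_iff.mp hg₀tr) _ h1)
  have hu2 : iL h * aeval g₀ u.denom = aeval g₀ u.num := by
    rw [hu1, div_mul_cancel₀ _ hden]
  have hcop : IsCoprime u.num u.denom := u.isCoprime_num_denom
  by_cases hdeg : u.denom.natDegree < u.num.natDegree
  · -- pole at infinity
    have hbr : ∀ t : K, t ≠ 0 → b.eval t ≠ 0 := by
      intro t ht hbt
      have hat := coprime_eval hab t hbt
      have h1 := pole_identity a b u.num u.denom hb0 h (by rw [hdiv]; exact hu2)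
        u.num.natDegree le_rfl hdeg.le t ht (by
          rw [hom_eval_of_eq a b _ _ t hbt, coeff_eq_zero_of_natDegree_lt hdeg, zero_mul])
      rw [hom_eval_of_eq a b _ _ t hbt, mul_eq_zero] at h1
      rcases h1 with h1 | h1
      · have h2 : u.num = 0 := by
          rw [← leadingCoeff_eq_zero]; exact h1
        rw [h2, natDegree_zero] at hdeg
        exact absurd hdeg (Nat.not_lt_zero _)
      · exact pow_ne_zero _ hat h1
    obtain ⟨c, m, hc, hbm⟩ := eq_monomial b hb0 hbr
    have hγ : iL (Polynomial.toLaurent a * (LaurentPolynomial.T (-(m : ℤ)) *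
        algebraMap K K[T;T⁻¹] c⁻¹)) = g₀ := by
      rw [map_mul, map_mul, iL_toLaurent, iL_T, iL.commutes, ← hdiv, hbm, map_mul, map_pow,
        RatFunc.algebraMap_X, zpow_neg, zpow_natCast, map_inv₀]
      have h1 : algebraMap K[X] (RatFunc K) (C c) = algebraMap K (RatFunc K) c := by
        rw [← Polynomial.algebraMap_eq, ← IsScalarTower.algebraMap_apply]
      rw [h1, div_eq_mul_inv, mul_inv]
      ring
    refine ⟨Polynomial.toLaurent a * (LaurentPolynomial.T (-(m : ℤ)) *
        algebraMap K K[T;T⁻¹] c⁻¹), ?_, ?_⟩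
    · rw [hγ]; exact RatFunc.Luroth.generator_mem
    · rw [hγ]; exact hEg
  · -- finite pole
    push Not at hdeg
    have hdd : u.denom.natDegree ≠ 0 := by
      intro h0
      rw [h0, Nat.le_zero] at hdeg
      apply hh
      rw [natDegree_eq_zero] at h0 hdeg
      obtain ⟨x, hx⟩ := h0
      obtain ⟨y, hy⟩ := hdeg
      refine ⟨y / x, iL_injective ?_⟩
      rw [hu1, ← hx, ← hy, aeval_C, aeval_C, iL.commutes, map_div₀]
    obtain ⟨z₁, hz₁⟩ := IsAlgClosed.exists_root u.denom (by
      rw [degree_eq_natDegree u.denom_ne_zero]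
      exact_mod_cast hdd)
    have hz₁' : u.denom.eval z₁ = 0 := hz₁
    set d := a - C z₁ * b with hd
    have hdr : ∀ t : K, t ≠ 0 → d.eval t ≠ 0 := by
      intro t ht hdt
      have h2 : a.eval t = z₁ * b.eval t := by
        rw [hd, eval_sub, eval_mul, eval_C, sub_eq_zero] at hdt
        exact hdt
      have hbt : b.eval t ≠ 0 := by
        intro hbt
        rw [hbt, mul_zero] at h2
        exact coprime_eval hab t hbt h2
      have h3 : a.eval t / b.eval t = z₁ := by rw [h2, mul_div_cancel_right₀ _ hbt]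
      have h1 := pole_identity a b u.num u.denom hb0 h (by rw [hdiv]; exact hu2)
        u.denom.natDegree hdeg le_rfl t ht (by
          rw [hom_eval_of_ne a b _ _ le_rfl t hbt, h3, hz₁', mul_zero])
      rw [hom_eval_of_ne a b _ _ hdeg t hbt, h3, mul_eq_zero] at h1
      rcases h1 with h1 | h1
      · exact pow_ne_zero _ hbt h1
      · exact coprime_eval hcop z₁ hz₁' h1
    have hg₀z : g₀ - algebraMap K (RatFunc K) z₁ ≠ 0 := by
      intro h1
      apply hg₀tr
      rw [sub_eq_zero] at h1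
      rw [h1]
      exact isAlgebraic_algebraMap z₁
    have hCz : ∀ c : K, algebraMap K[X] (RatFunc K) (C c) = algebraMap K (RatFunc K) c := by
      intro c
      rw [← Polynomial.algebraMap_eq, ← IsScalarTower.algebraMap_apply]
    have hb' : algebraMap K[X] (RatFunc K) b ≠ 0 := by
      rw [Ne, map_eq_zero_iff _ (IsFractionRing.injective K[X] (RatFunc K))]
      exact hb0
    have hdalg : algebraMap K[X] (RatFunc K) d =
        (g₀ - algebraMap K (RatFunc K) z₁) * algebraMap K[X] (RatFunc K) b := by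
      rw [hd, map_sub, map_mul, hCz, ← hdiv]
      field_simp
    have hd0 : d ≠ 0 := by
      intro h1
      rw [h1, map_zero] at hdalg
      exact (mul_ne_zero hg₀z hb') hdalg.symm
    obtain ⟨c, m, hc, hdm⟩ := eq_monomial d hd0 hdr
    have hγ : iL (Polynomial.toLaurent b * (LaurentPolynomial.T (-(m : ℤ)) *
        algebraMap K K[T;T⁻¹] c⁻¹)) = (g₀ - algebraMap K (RatFunc K) z₁)⁻¹ := by
      have h1 : (g₀ - algebraMap K (RatFunc K) z₁)⁻¹ =
          algebraMap K[X] (RatFunc K) b / algebraMap K[X] (RatFunc K) d := by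
        rw [hdalg]
        field_simp
      rw [h1, map_mul, map_mul, iL_toLaurent, iL_T, iL.commutes, hdm, map_mul, map_pow,
        RatFunc.algebraMap_X, zpow_neg, zpow_natCast, map_inv₀, hCz, div_eq_mul_inv, mul_inv]
      ring
    have hg₀E : g₀ ∈ E := RatFunc.Luroth.generator_mem
    have hmem : (g₀ - algebraMap K (RatFunc K) z₁)⁻¹ ∈ E :=
      E.inv_mem (E.sub_mem hg₀E (E.algebraMap_mem z₁))
    refine ⟨Polynomial.toLaurent b * (LaurentPolynomial.T (-(m : ℤ)) *
        algebraMap K K[T;T⁻¹] c⁻¹), ?_, ?_⟩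
    · rw [hγ]; exact hmem
    · rw [hγ]
      apply le_antisymm
      · conv_lhs => rw [hEg]
        rw [IntermediateField.adjoin_simple_le_iff]
        have h1 := (IntermediateField.adjoin K {(g₀ - algebraMap K (RatFunc K) z₁)⁻¹}).inv_mem
          (IntermediateField.mem_adjoin_simple_self K (g₀ - algebraMap K (RatFunc K) z₁)⁻¹)
        rw [inv_inv] at h1
        have h2 := (IntermediateField.adjoin K {(g₀ - algebraMap K (RatFunc K) z₁)⁻¹}).add_mem h1
          ((IntermediateField.adjoin K {(g₀ - algebraMap K (RatFunc K) z₁)⁻¹}).algebraMap_mem z₁)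
        rwa [sub_add_cancel] at h2
      · rw [IntermediateField.adjoin_simple_le_iff]
        exact hmem

theorem factor {R B : Type*} [CommRing R] [Algebra K R] [CommRing B] [Algebra K B]
    (ψ : R →ₐ[K] RatFunc K) (ι : B →ₐ[K] RatFunc K) (hι : Function.Injective ι)
    (h : ∀ r, ∃ b, ι b = ψ r) : ∃ φ : R →ₐ[K] B, ∀ r, ι (φ r) = ψ r := by
  let e := AlgEquiv.ofInjective ι hι
  have hr : ∀ r, ψ r ∈ ι.range := fun r => (AlgHom.mem_range ι).mpr (h r)
  refine ⟨(e.symm : ι.range →ₐ[K] B).comp (ψ.codRestrict ι.range hr), fun r => ?_⟩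
  have h1 : (e (e.symm ((ψ.codRestrict ι.range hr) r)) : RatFunc K) = ψ r := by
    rw [AlgEquiv.apply_symm_apply]
    rfl
  exact h1

theorem not_const_transcendental [IsAlgClosed K] (γ : K[T;T⁻¹])
    (h : γ ∉ Set.range (algebraMap K K[T;T⁻¹])) : Transcendental K (iL γ) := by
  intro hal
  have h1 : IsIntegral K (iL γ) := hal.isIntegral
  have h2 := IsAlgClosed.degree_eq_one_of_irreducible K (minpoly.irreducible h1)
  obtain ⟨k, hk⟩ := minpoly.mem_range_of_degree_eq_one K _ h2
  apply h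
  exact ⟨k, iL_injective (by rw [iL.commutes, hk])⟩

/-- the rational functions in a generator -/
theorem step [IsAlgClosed K] {R : Type*} [CommRing R] [Algebra K R] (f : R →ₐ[K] K[T;T⁻¹])
    (γ : K[T;T⁻¹]) (hγ : Transcendental K (iL γ))
    (hE : ∀ r, iL (f r) ∈ IntermediateField.adjoin K {iL γ}) :
    ∃ (σ : RatFunc K →ₐ[K] RatFunc K) (ψ : R →ₐ[K] RatFunc K), σ RatFunc.X = iL γ ∧
      (∀ r, σ (ψ r) = iL (f r)) ∧ ∀ r (x : Kˣ), (ψ r).denom.eval (evU x γ) ≠ 0 := by
  let e := RatFunc.algEquivOfTranscendental (iL γ) hγ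
  let σ : RatFunc K →ₐ[K] RatFunc K :=
    (IntermediateField.adjoin K {iL γ}).val.comp (e : RatFunc K →ₐ[K] _)
  have hσ : ∀ u, σ u = aeval (iL γ) u.num / aeval (iL γ) u.denom := fun u => by
    have := RatFunc.algEquivOfTranscendental_apply (iL γ) hγ u
    exact this
  have hσX : σ RatFunc.X = iL γ := RatFunc.algEquivOfTranscendental_X (iL γ) hγ
  let φ : R →ₐ[K] IntermediateField.adjoin K {iL γ} :=
    AlgHom.codRestrict (iL.comp f) (IntermediateField.adjoin K {iL γ}).toSubalgebra hE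
  let ψ : R →ₐ[K] RatFunc K := (e.symm : _ →ₐ[K] RatFunc K).comp φ
  have hψ : ∀ r, σ (ψ r) = iL (f r) := fun r => by
    change ((e (e.symm (φ r)) : IntermediateField.adjoin K {iL γ}) : RatFunc K) = _
    rw [AlgEquiv.apply_symm_apply]
    rfl
  refine ⟨σ, ψ, hσX, hψ, fun r x hx => ?_⟩
  set u := ψ r with hu
  have hden : aeval (iL γ) u.denom ≠ 0 := by
    intro h1
    exact u.denom_ne_zero ((transcendental_iff.mp hγ) _ h1)
  have h1 : iL (f r) * aeval (iL γ) u.denom = aeval (iL γ) u.num := by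
    rw [← hψ r, hσ, div_mul_cancel₀ _ hden]
  have h2 : f r * aeval γ u.denom = aeval γ u.num := by
    apply iL_injective
    rw [map_mul, ← aeval_algHom_apply, ← aeval_algHom_apply]
    exact h1
  have h3 := congrArg (evU x) h2
  rw [map_mul, ← aeval_algHom_apply, ← aeval_algHom_apply, coe_aeval_eq_eval,
    hx, mul_zero] at h3
  exact coprime_eval u.isCoprime_num_denom _ hx h3.symm

theorem aeval_sub_const (γ : K[T;T⁻¹]) (z : K) :
    IntermediateField.adjoin K {iL (γ - algebraMap K K[T;T⁻¹] z)} =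
      IntermediateField.adjoin K {iL γ} := by
  apply le_antisymm
  · rw [IntermediateField.adjoin_simple_le_iff, map_sub, iL.commutes]
    exact (IntermediateField.adjoin K {iL γ}).sub_mem
      (IntermediateField.mem_adjoin_simple_self K _)
      ((IntermediateField.adjoin K {iL γ}).algebraMap_mem z)
  · rw [IntermediateField.adjoin_simple_le_iff]
    have h1 := IntermediateField.mem_adjoin_simple_self K (iL (γ - algebraMap K K[T;T⁻¹] z))
    have h2 := (IntermediateField.adjoin K {iL (γ - algebraMap K K[T;T⁻¹] z)}).add_mem h1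
      ((IntermediateField.adjoin K {iL (γ - algebraMap K K[T;T⁻¹] z)}).algebraMap_mem z)
    have h3 : iL (γ - algebraMap K K[T;T⁻¹] z) + algebraMap K (RatFunc K) z = iL γ := by
      rw [map_sub, iL.commutes, sub_add_cancel]
    rwa [h3] at h2

theorem exists_zpow [IsAlgClosed K] (n : ℤ) (hn : n ≠ 0) (y : K) (hy : y ≠ 0) :
    ∃ x : Kˣ, ((x ^ n : Kˣ) : K) = y := by
  obtain ⟨z, hz⟩ := IsAlgClosed.exists_pow_nat_eq y (Int.natAbs_pos.mpr hn)
  have hz0 : z ≠ 0 := by
    rintro rfl
    rw [zero_pow (Int.natAbs_ne_zero.mpr hn)] at hz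
    exact hy hz.symm
  rcases le_or_gt 0 n with h | h
  · refine ⟨Units.mk0 z hz0, ?_⟩
    rw [Units.val_zpow_eq_zpow_val, Units.val_mk0, ← hz, ← zpow_natCast, Int.natAbs_of_nonneg h]
  · refine ⟨(Units.mk0 z hz0)⁻¹, ?_⟩
    rw [Units.val_zpow_eq_zpow_val, Units.val_inv_eq_inv_val, Units.val_mk0, ← hz, ← zpow_natCast,
      inv_zpow', Int.ofNat_natAbs_of_nonpos h.le]

/-- **Birational Laurent points.** -/
theorem birational [IsAlgClosed K] {R : Type*} [CommRing R] [Algebra K R] (f : R →ₐ[K] K[T;T⁻¹])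
    (ω : R) (hω : f ω ∉ Set.range (algebraMap K K[T;T⁻¹]))
    (H1 : ∀ φ : R →ₐ[K] K[X], φ ω ∈ Set.range (algebraMap K K[X])) :
    ∃ f' : R →ₐ[K] K[T;T⁻¹], f' ω ∉ Set.range (algebraMap K K[T;T⁻¹]) ∧
      (∀ r, f r = 0 ↔ f' r = 0) ∧ ∃ p q : R, f' q ≠ 0 ∧ f' p = LaurentPolynomial.T 1 * f' q := by
  classical
  set S : Set (RatFunc K) := Set.range (fun r => iL (f r)) with hS
  obtain ⟨γ, -, hγE⟩ := exists_generator (IntermediateField.adjoin K S) (f ω)
    (IntermediateField.subset_adjoin K S ⟨ω, rfl⟩) hω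
  have hmem : ∀ r, iL (f r) ∈ IntermediateField.adjoin K {iL γ} := by
    intro r
    rw [← hγE]
    exact IntermediateField.subset_adjoin K S ⟨r, rfl⟩
  have hγc : γ ∉ Set.range (algebraMap K K[T;T⁻¹]) := by
    rintro ⟨k, rfl⟩
    have h1 := hmem ω
    rw [iL.commutes, IntermediateField.adjoin_simple_eq_bot_iff.mpr
      ((⊥ : IntermediateField K (RatFunc K)).algebraMap_mem k), IntermediateField.mem_bot] at h1
    obtain ⟨x, hx⟩ := h1
    apply hω
    exact ⟨x, iL_injective (by rw [iL.commutes, hx])⟩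
  have hγt := not_const_transcendental γ hγc
  obtain ⟨σ, ψ, hσX, hσψ, hden⟩ := step f γ hγt hmem
  -- some denominator has a root
  have hex : ∃ (r : R) (z : K), (ψ r).denom.eval z = 0 := by
    by_contra hno
    push Not at hno
    have h1 : ∀ r, ∃ b : K[X], IsScalarTower.toAlgHom K K[X] (RatFunc K) b = ψ r := by
      intro r
      refine ⟨(ψ r).num, ?_⟩
      have h2 : (ψ r).denom.natDegree = 0 := by
        by_contra h3
        obtain ⟨z, hz⟩ := IsAlgClosed.exists_root (ψ r).denom (by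
          rw [degree_eq_natDegree (ψ r).denom_ne_zero]
          exact_mod_cast h3)
        exact hno r z hz
      have h3 : (ψ r).denom = 1 :=
        (ψ r).monic_denom.natDegree_eq_zero.mp h2
      have h4 := (ψ r).num_div_denom
      rw [h3, map_one, div_one] at h4
      exact h4
    obtain ⟨φ, hφ⟩ := factor ψ (IsScalarTower.toAlgHom K K[X] (RatFunc K))
      (IsFractionRing.injective K[X] (RatFunc K)) h1
    obtain ⟨k, hk⟩ := H1 φ
    apply hω
    refine ⟨k, iL_injective ?_⟩
    rw [iL.commutes, ← hσψ, ← hφ, ← hk, AlgHom.commutes, AlgHom.commutes]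
  obtain ⟨r₀, z₀, hz₀⟩ := hex
  set γ' := γ - algebraMap K K[T;T⁻¹] z₀ with hγ'
  have hγ'c : γ' ∉ Set.range (algebraMap K K[T;T⁻¹]) := by
    rintro ⟨k, hk⟩
    apply hγc
    refine ⟨k + z₀, ?_⟩
    rw [map_add, hk, hγ', sub_add_cancel]
  have hγ'0 : γ' ≠ 0 := by
    intro h
    exact hγ'c ⟨0, by rw [map_zero, h]⟩
  obtain ⟨c, n, hc, hcn⟩ := laurent_unit γ' hγ'0 (by
    intro x hx
    rw [hγ', map_sub, AlgHom.commutes, sub_eq_zero] at hx
    have := hden r₀ x
    rw [hx] at this
    exact this hz₀)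
  have hn : n ≠ 0 := by
    rintro rfl
    apply hγ'c
    rw [hcn, LaurentPolynomial.T_zero, mul_one]
    exact ⟨c, rfl⟩
  have hγ't := not_const_transcendental γ' hγ'c
  obtain ⟨σ', ψ', hσ'X, hσ'ψ, hden'⟩ := step f γ' hγ't (by
    intro r
    rw [hγ', aeval_sub_const]
    exact hmem r)
  have hlau : ∀ r, ∃ b : K[T;T⁻¹], iL b = ψ' r := by
    intro r
    obtain ⟨d, m, hd, hdm⟩ := eq_monomial (ψ' r).denom (ψ' r).denom_ne_zero (by
      intro y hy hy2
      obtain ⟨x, hx⟩ := exists_zpow n hn (y / c) (div_ne_zero hy hc)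
      apply hden' r x
      rw [hcn, map_mul, evU_C, evU_T, hx, mul_div_cancel₀ _ hc]
      exact hy2)
    refine ⟨Polynomial.toLaurent (ψ' r).num * (LaurentPolynomial.T (-(m : ℤ)) *
      algebraMap K K[T;T⁻¹] d⁻¹), ?_⟩
    have h1 : algebraMap K[X] (RatFunc K) (C d) = algebraMap K (RatFunc K) d := by
      rw [← Polynomial.algebraMap_eq, ← IsScalarTower.algebraMap_apply]
    rw [map_mul, map_mul, iL_toLaurent, iL_T, iL.commutes]
    conv_rhs => rw [← (ψ' r).num_div_denom]
    rw [hdm, map_mul, map_pow, RatFunc.algebraMap_X, zpow_neg, zpow_natCast, map_inv₀, h1,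
      div_eq_mul_inv, mul_inv]
    ring
  obtain ⟨f', hf'⟩ := factor ψ' iL iL_injective hlau
  have hσ'inj : Function.Injective σ' := σ'.toRingHom.injective
  refine ⟨f', ?_, ?_, ?_⟩
  · rintro ⟨k, hk⟩
    apply hω
    refine ⟨k, iL_injective ?_⟩
    rw [iL.commutes, ← hσ'ψ, ← hf', ← hk, iL.commutes, AlgHom.commutes]
  · intro r
    rw [← map_eq_zero_iff iL iL_injective, ← hσ'ψ, map_eq_zero_iff σ' hσ'inj, ← hf',
      map_eq_zero_iff iL iL_injective]
  · have h1 : iL γ' ∈ IntermediateField.adjoin K S := by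
      rw [hγE, ← aeval_sub_const γ z₀]
      exact IntermediateField.mem_adjoin_simple_self K _
    rw [IntermediateField.mem_adjoin_iff_div] at h1
    have h2 : (Algebra.adjoin K S : Set (RatFunc K)) = S := by
      have h3 : S = ((iL.comp f).range : Set (RatFunc K)) := by
        rw [hS]
        ext x
        simp
      rw [h3, Algebra.adjoin_eq]
    obtain ⟨a, ha, b, hb, hab⟩ := h1
    have ha' : a ∈ (Algebra.adjoin K S : Set (RatFunc K)) := ha
    have hb' : b ∈ (Algebra.adjoin K S : Set (RatFunc K)) := hb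
    rw [h2] at ha' hb'
    obtain ⟨p, hp⟩ := ha'
    obtain ⟨q, hq⟩ := hb'
    have hne : iL γ' ≠ 0 := by
      rw [Ne, map_eq_zero_iff iL iL_injective]
      exact hγ'0
    have hb0 : b ≠ 0 := by
      rintro rfl
      rw [div_zero] at hab
      exact hne hab
    refine ⟨p, q, ?_, ?_⟩
    · intro h0
      apply hb0
      rw [← hq]
      change iL (f q) = 0
      rw [← hσ'ψ, ← hf', h0, map_zero, map_zero]
    · apply iL_injective
      apply hσ'inj
      rw [map_mul iL, map_mul σ', hf', hf', hσ'ψ, hσ'ψ, iL_T, zpow_one, hσ'X]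
      have h4 : iL (f p) = a := hp
      have h5 : iL (f q) = b := hq
      rw [h4, h5, hab, div_mul_cancel₀ _ hb0]

end Pool.Agent.Zk18
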