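import Mathlib

/-!
# Embeddings of countable fields into large algebraically closed fields
-/

set_option autoImplicit false

namespace Pool.Agent.Zk18

open Cardinal

/-- A countable field extension `E` of `K` has an embedding over `K` into every uncountable
algebraically closed field extension `M` of `K` with a given value at a transcendental element. -/
theorem exists_embedding {K E M : Type} [Field K] [Countable K] [Field E] [Countable E]
    [Algebra K E] [Field M] [Algebra K M] [IsAlgClosed M] [Uncountable M] (z : E) (w : M)
    (hz : Transcendental K z) (hw : Transcendental K w) : ∃ φ : E →ₐ[K] M, φ z = w := by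
  classical
  have hz' : AlgebraicIndepOn K id ({z} : Set E) := by
    have := (algebraicIndependent_unique_type_iff (ι := ({z} : Set E)) (R := K)
      (x := fun i => (i : E))).mpr (by simpa using hz)
    exact this
  have hw' : AlgebraicIndepOn K id ({w} : Set M) := by
    have := (algebraicIndependent_unique_type_iff (ι := ({w} : Set M)) (R := K)
      (x := fun i => (i : M))).mpr (by simpa using hw)
    exact this
  obtain ⟨B, hzB, hB⟩ := exists_isTranscendenceBasis_superset hz'
  obtain ⟨T, hwT, hT⟩ := exists_isTranscendenceBasis_superset hw'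
  have hzB' : z ∈ B := hzB rfl
  have hwT' : w ∈ T := hwT rfl
  -- `T` is uncountable
  have hTunc : ¬ T.Countable := by
    intro hc
    have hc' : Countable T := hc
    have := hT.isAlgebraic
    have h1 : Countable (Algebra.adjoin K (Set.range ((↑) : T → M))) := by
      let f := hT.1.aevalEquiv
      have h2 : Countable (MvPolynomial T K) := by
        rw [← mk_le_aleph0_iff]
        refine (MvPolynomial.cardinalMk_le_max_lift (σ := T) (R := K)).trans ?_
        simp only [lift_id, max_le_iff, le_refl, and_true]
        exact ⟨mk_le_aleph0_iff.mpr inferInstance, mk_le_aleph0_iff.mpr inferInstance⟩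
      exact f.symm.injective.countable
    have h3 := Algebra.IsAlgebraic.cardinalMk_le_max
      (Algebra.adjoin K (Set.range ((↑) : T → M))) M
    have h4 : #M ≤ ℵ₀ := by
      refine h3.trans ?_
      simp only [max_le_iff, le_refl, and_true]
      exact mk_le_aleph0_iff.mpr h1
    exact not_countable (mk_le_aleph0_iff.mp h4)
  -- an injection `B → T` with `z ↦ w`
  have hTinf : (T \ {w}).Infinite := by
    intro hfin
    apply hTunc
    have : T ⊆ (T \ {w}) ∪ {w} := by
      intro x hx
      by_cases h : x = w
      · right; exact h
      · left; exact ⟨hx, h⟩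
    exact (hfin.countable.union (Set.countable_singleton w)).mono this
  obtain ⟨g⟩ : Nonempty ((B \ {z} : Set E) ↪ (T \ {w} : Set M)) := by
    rw [← Cardinal.le_def]
    calc #(B \ {z} : Set E) ≤ ℵ₀ := mk_le_aleph0_iff.mpr inferInstance
      _ ≤ #(T \ {w} : Set M) := by
        have := hTinf.to_subtype
        exact aleph0_le_mk _
  let i : B → M := fun b => if h : (b : E) = z then w else (g ⟨b, b.2, h⟩ : M)
  have hi : Function.Injective (fun b : B => (⟨i b, by
      by_cases h : (b : E) = z
      · simp only [i, dif_pos h]; exact hwT'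
      · simp only [i, dif_neg h]; exact (g ⟨b, b.2, h⟩).2.1⟩ : T)) := by
    intro b b' hbb
    have hbb' : i b = i b' := congrArg Subtype.val hbb
    by_cases h : (b : E) = z
    · by_cases h' : (b' : E) = z
      · exact Subtype.ext (h.trans h'.symm)
      · exfalso
        simp only [i, dif_pos h, dif_neg h'] at hbb'
        exact (g ⟨b', b'.2, h'⟩).2.2 hbb'.symm
    · by_cases h' : (b' : E) = z
      · exfalso
        simp only [i, dif_pos h', dif_neg h] at hbb'
        exact (g ⟨b, b.2, h⟩).2.2 hbb'
      · simp only [i, dif_neg h, dif_neg h'] at hbb'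
        have h1 := g.injective (Subtype.ext hbb')
        have h2 : (b : E) = b' := congrArg (fun x : (B \ {z} : Set E) => (x : E)) h1
        exact Subtype.ext h2
  have hind : AlgebraicIndependent K i := by
    have := hT.1.comp _ hi
    exact this
  -- the structure of an algebra over the polynomial ring
  let R := Algebra.adjoin K (Set.range ((↑) : B → E))
  have hRalg : Algebra.IsAlgebraic R E := hB.isAlgebraic
  let ψ : R →ₐ[K] M := (MvPolynomial.aeval i).comp hB.1.aevalEquiv.symm.toAlgHom
  have hψinj : Function.Injective ψ := by
    intro a b hab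
    have h1 : MvPolynomial.aeval i (hB.1.aevalEquiv.symm a) =
      MvPolynomial.aeval i (hB.1.aevalEquiv.symm b) := hab
    exact hB.1.aevalEquiv.symm.injective (hind h1)
  let : Algebra R M := ψ.toRingHom.toAlgebra
  have : IsScalarTower K R M := IsScalarTower.of_algebraMap_eq fun k => (ψ.commutes k).symm
  have : FaithfulSMul R M := (faithfulSMul_iff_algebraMap_injective R M).mpr hψinj
  have : Module.IsTorsionFree R E := inferInstance
  let Φ : E →ₐ[R] M := IsAlgClosed.lift
  refine ⟨Φ.restrictScalars K, ?_⟩
  have hzR : z ∈ R := Algebra.subset_adjoin ⟨⟨z, hzB'⟩, rfl⟩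
  have h1 : Φ (algebraMap R E ⟨z, hzR⟩) = algebraMap R M ⟨z, hzR⟩ := Φ.commutes _
  have h2 : (⟨z, hzR⟩ : R) = hB.1.aevalEquiv (MvPolynomial.X ⟨z, hzB'⟩) := by
    apply Subtype.ext
    simp
  change Φ z = w
  have h3 : algebraMap R M ⟨z, hzR⟩ = w := by
    change MvPolynomial.aeval i (hB.1.aevalEquiv.symm ⟨z, hzR⟩) = w
    rw [h2, AlgEquiv.symm_apply_apply, MvPolynomial.aeval_X]
    simp [i]
  rw [← h3, ← h1]
  rfl

end Pool.Agent.Zk18
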