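import Mathlib

/-!
# Hahn series: coefficientwise maps, residues, evaluation of Laurent series
-/

set_option autoImplicit false

attribute [-instance] HahnSeries.powerSeriesAlgebra

namespace Pool.Agent.Zk18

open HahnSeries

section basic

variable {R S : Type*} [CommRing R] [CommRing S]

/-- coefficientwise application of a ring homomorphism -/
noncomputable def mapR (f : R →+* S) : HahnSeries ℚ R →+* HahnSeries ℚ S where
  toFun x := x.map f
  map_one' := by
    ext q
    simp only [HahnSeries.map_coeff, HahnSeries.coeff_one]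
    split_ifs <;> simp
  map_mul' x y := HahnSeries.map_mul (f : R →ₙ+* S)
  map_zero' := by ext; simp
  map_add' x y := by ext; simp

@[simp] theorem mapR_coeff (f : R →+* S) (x : HahnSeries ℚ R) (q : ℚ) :
    (mapR f x).coeff q = f (x.coeff q) := rfl

theorem mapR_C (f : R →+* S) (r : R) : mapR f (C r) = C (f r) := by
  ext q
  simp only [mapR_coeff, C_apply, coeff_single]
  split_ifs <;> simp

theorem mapR_single (f : R →+* S) (a : ℚ) (r : R) : mapR f (single a r) = single a (f r) := by
  ext q
  simp only [mapR_coeff, coeff_single]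
  split_ifs <;> simp

theorem le_orderTop_iff {x : HahnSeries ℚ R} {q : WithTop ℚ} :
    q ≤ x.orderTop ↔ ∀ p : ℚ, (p : WithTop ℚ) < q → x.coeff p = 0 := by
  constructor
  · intro h p hp
    exact coeff_eq_zero_of_lt_orderTop (hp.trans_le h)
  · intro h
    by_contra hcon
    push Not at hcon
    have hx : x ≠ 0 := by
      rintro rfl
      rw [orderTop_zero] at hcon
      exact absurd hcon (not_lt.mpr le_top)
    obtain ⟨p, hp⟩ := WithTop.ne_top_iff_exists.mp (orderTop_ne_top.mpr hx)
    rw [← hp] at hcon
    exact coeff_orderTop_ne hp.symm (h p hcon)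

theorem lt_orderTop_iff {x : HahnSeries ℚ R} {q : ℚ} :
    (q : WithTop ℚ) < x.orderTop ↔ ∀ p : ℚ, p ≤ q → x.coeff p = 0 := by
  constructor
  · intro h p hp
    exact coeff_eq_zero_of_lt_orderTop ((WithTop.coe_le_coe.mpr hp).trans_lt h)
  · intro h
    by_contra hcon
    push Not at hcon
    have hx : x ≠ 0 := by
      rintro rfl
      rw [orderTop_zero, top_le_iff] at hcon
      exact WithTop.coe_ne_top hcon
    obtain ⟨p, hp⟩ := WithTop.ne_top_iff_exists.mp (orderTop_ne_top.mpr hx)
    rw [← hp] at hcon
    exact coeff_orderTop_ne hp.symm (h p (WithTop.coe_le_coe.mp hcon))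

theorem orderTop_mapR {f : R →+* S} (hf : Function.Injective f) (x : HahnSeries ℚ R) :
    (mapR f x).orderTop = x.orderTop := by
  apply le_antisymm
  · rw [le_orderTop_iff]
    intro p hp
    have := coeff_eq_zero_of_lt_orderTop hp
    rw [mapR_coeff] at this
    exact (map_eq_zero_iff f hf).mp this
  · rw [le_orderTop_iff]
    intro p hp
    rw [mapR_coeff, coeff_eq_zero_of_lt_orderTop hp, map_zero]

theorem orderTop_sum {ι : Type*} (s : Finset ι) (f : ι → HahnSeries ℚ R) (q : WithTop ℚ)
    (h : ∀ i ∈ s, q ≤ (f i).orderTop) : q ≤ (∑ i ∈ s, f i).orderTop := by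
  classical
  induction s using Finset.induction_on with
  | empty => simp
  | insert a s ha ih =>
    rw [Finset.sum_insert ha]
    refine le_trans (le_min (h a (Finset.mem_insert_self _ _)) ?_) min_orderTop_le_orderTop_add
    exact ih fun i hi => h i (Finset.mem_insert_of_mem hi)

theorem orderTop_mul_le {x y : HahnSeries ℚ R} {a b : WithTop ℚ} (ha : a ≤ x.orderTop)
    (hb : b ≤ y.orderTop) : a + b ≤ (x * y).orderTop :=
  (add_le_add ha hb).trans orderTop_add_le_mul

theorem orderTop_pow_nonneg {x : HahnSeries ℚ R} (hx : 0 ≤ x.orderTop) (n : ℕ) :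
    0 ≤ (x ^ n).orderTop := by
  induction n with
  | zero =>
    rw [pow_zero]
    rw [le_orderTop_iff]
    intro p hp
    rw [coeff_one, if_neg]
    intro h
    rw [h] at hp
    exact lt_irrefl _ hp
  | succ n ih =>
    rw [pow_succ]
    have := orderTop_mul_le ih hx
    rwa [add_zero] at this

theorem orderTop_C_nonneg (r : R) : 0 ≤ (C r : HahnSeries ℚ R).orderTop := by
  rw [C_apply]
  exact orderTop_single_le

theorem coeff_zero_mul {x y : HahnSeries ℚ R} (hx : 0 ≤ x.orderTop) (hy : 0 ≤ y.orderTop) :
    (x * y).coeff 0 = x.coeff 0 * y.coeff 0 := by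
  have h1 : ∀ z : HahnSeries ℚ R, 0 ≤ z.orderTop → 0 < (z - C (z.coeff 0)).orderTop := by
    intro z hz
    have : ((0 : ℚ) : WithTop ℚ) < (z - C (z.coeff 0)).orderTop := by
      rw [lt_orderTop_iff]
      intro p hp
      rw [coeff_sub, C_apply, coeff_single]
      rcases hp.eq_or_lt with rfl | hp'
      · simp
      · rw [if_neg hp'.ne, sub_zero]
        exact coeff_eq_zero_of_lt_orderTop ((WithTop.coe_lt_coe.mpr hp').trans_le hz)
    exact this
  have h2 : x * y = C (x.coeff 0) * C (y.coeff 0) + ((x - C (x.coeff 0)) * y +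
      C (x.coeff 0) * (y - C (y.coeff 0))) := by ring
  have h3 : 0 < ((x - C (x.coeff 0)) * y + C (x.coeff 0) * (y - C (y.coeff 0))).orderTop := by
    refine lt_of_lt_of_le (lt_min ?_ ?_) min_orderTop_le_orderTop_add
    · have := orderTop_mul_le (le_refl (x - C (x.coeff 0)).orderTop) hy
      rw [add_zero] at this
      exact (h1 x hx).trans_le this
    · have := orderTop_mul_le (orderTop_C_nonneg (x.coeff 0)) (le_refl (y - C (y.coeff 0)).orderTop)
      rw [zero_add] at this
      exact (h1 y hy).trans_le this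
  rw [h2, coeff_add, coeff_eq_zero_of_lt_orderTop h3, add_zero, ← map_mul, C_apply, coeff_single,
    if_pos rfl]

end basic

section alg

variable (K : Type*) {R : Type*} [Field K] [CommRing R] [Algebra K R]

/-- Hahn series without terms of negative order -/
def Ov (R : Type*) [CommRing R] [Algebra K R] : Subalgebra K (HahnSeries ℚ R) where
  carrier := {x | 0 ≤ x.orderTop}
  mul_mem' := by
    intro a b ha hb
    have := orderTop_mul_le ha hb
    rwa [add_zero] at this
  add_mem' := by
    intro a b ha hb
    have h1 : (0 : WithTop ℚ) ≤ min a.orderTop b.orderTop := le_min ha hb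
    exact le_trans h1 min_orderTop_le_orderTop_add
  algebraMap_mem' := by
    intro k
    rw [HahnSeries.algebraMap_apply]
    exact orderTop_C_nonneg _

theorem mem_Ov {x : HahnSeries ℚ R} : x ∈ Ov K R ↔ 0 ≤ x.orderTop := Iff.rfl

/-- the residue -/
noncomputable def resO : Ov K R →ₐ[K] R where
  toFun x := (x : HahnSeries ℚ R).coeff 0
  map_one' := by
    rw [OneMemClass.coe_one, coeff_one, if_pos rfl]
  map_mul' x y := by
    rw [MulMemClass.coe_mul]
    exact coeff_zero_mul x.2 y.2
  map_zero' := by simp
  map_add' x y := by simp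
  commutes' k := by
    have : ((algebraMap K (Ov K R) k : Ov K R) : HahnSeries ℚ R) = C (algebraMap K R k) := by
      rw [← HahnSeries.algebraMap_apply]
      rfl
    rw [this, C_apply, coeff_single, if_pos rfl]

theorem resO_apply (x : Ov K R) : resO K x = (x : HahnSeries ℚ R).coeff 0 := rfl

/-- Integral elements over a subalgebra of `Ov` are in `Ov`. -/
theorem mem_Ov_of_isIntegral [IsDomain R] {A : Type*} [CommRing A] (f : A →+* HahnSeries ℚ R)
    (hf : ∀ a, 0 ≤ (f a).orderTop) {x : HahnSeries ℚ R} (hx : f.IsIntegralElem x) :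
    0 ≤ x.orderTop := by
  obtain ⟨p, hp, hpx⟩ := hx
  by_contra hcon
  push Not at hcon
  have hx0 : x ≠ 0 := by
    rintro rfl
    rw [orderTop_zero] at hcon
    exact absurd hcon (not_lt.mpr le_top)
  obtain ⟨q, hq⟩ := WithTop.ne_top_iff_exists.mp (orderTop_ne_top.mpr hx0)
  rw [← hq] at hcon
  have hq0 : q < 0 := by exact_mod_cast hcon
  have hpow : ∀ n : ℕ, (x ^ n).orderTop = ((n * q : ℚ) : WithTop ℚ) := by
    intro n
    induction n with
    | zero => simp
    | succ n ih =>
      rw [pow_succ, orderTop_mul, ih, ← hq, ← WithTop.coe_add]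
      congr 1
      push_cast
      ring
  rw [Polynomial.eval₂_eq_sum_range, Finset.sum_range_succ, hp.coeff_natDegree, map_one,
    one_mul] at hpx
  have h1 : (x ^ p.natDegree) = -∑ i ∈ Finset.range p.natDegree, f (p.coeff i) * x ^ i := by
    linear_combination hpx
  have h2 : (((p.natDegree : ℚ) - 1) * q : ℚ) ≤ (x ^ p.natDegree).orderTop := by
    rw [h1, orderTop_neg]
    apply orderTop_sum
    intro i hi
    rw [Finset.mem_range] at hi
    have h3 := orderTop_mul_le (hf (p.coeff i)) (le_refl (x ^ i).orderTop)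
    rw [zero_add, hpow] at h3
    refine le_trans ?_ h3
    rw [WithTop.coe_le_coe]
    have h4 : (i : ℚ) ≤ (p.natDegree : ℚ) - 1 := by
      have : (i : ℚ) + 1 ≤ p.natDegree := by exact_mod_cast hi
      linarith
    exact mul_le_mul_of_nonpos_right h4 hq0.le
  rw [hpow, WithTop.coe_le_coe] at h2
  nlinarith

end alg

end Pool.Agent.Zk18
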