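import Mathlib

/-!
# Roots of maximal valuation, rescaling of polynomials
-/

set_option autoImplicit false

namespace Pool.Agent.Zk18

open Polynomial

variable {F : Type*} [Field F] (v : AddValuation F (WithTop ℚ))

theorem val_exists {x : F} (hx : x ≠ 0) : ∃ q : ℚ, v x = (q : WithTop ℚ) := by
  have h : v x ≠ ⊤ := by
    rw [ne_eq, v.top_iff]
    exact hx
  obtain ⟨q, hq⟩ := WithTop.ne_top_iff_exists.mp h
  exact ⟨q, hq.symm⟩

theorem val_pow {x : F} {q : ℚ} (hx : v x = (q : WithTop ℚ)) (n : ℕ) :
    v (x ^ n) = ((n * q : ℚ) : WithTop ℚ) := by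
  induction n with
  | zero => simp
  | succ n ih =>
    rw [pow_succ, v.map_mul, ih, hx, ← WithTop.coe_add]
    congr 1
    push_cast
    ring

theorem val_sum {ι : Type*} (s : Finset ι) (f : ι → F) (q : WithTop ℚ)
    (h : ∀ i ∈ s, q ≤ v (f i)) : q ≤ v (∑ i ∈ s, f i) := by
  classical
  induction s using Finset.induction_on with
  | empty => simp
  | insert a s ha ih =>
    rw [Finset.sum_insert ha]
    have h1 : q ≤ min (v (f a)) (v (∑ i ∈ s, f i)) :=
      le_min (h a (Finset.mem_insert_self _ _)) (ih fun i hi => h i (Finset.mem_insert_of_mem hi))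
    exact h1.trans (v.map_add _ _)

theorem val_sum_lt {ι : Type*} (s : Finset ι) (f : ι → F) (q : WithTop ℚ) (hq : q ≠ ⊤)
    (h : ∀ i ∈ s, q < v (f i)) : q < v (∑ i ∈ s, f i) := by
  classical
  induction s using Finset.induction_on with
  | empty => simpa using lt_top_iff_ne_top.mpr hq
  | insert a s ha ih =>
    rw [Finset.sum_insert ha]
    have h1 : q < min (v (f a)) (v (∑ i ∈ s, f i)) :=
      lt_min (h a (Finset.mem_insert_self _ _)) (ih fun i hi => h i (Finset.mem_insert_of_mem hi))
    exact h1.trans_le (v.map_add _ _)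

theorem val_neg_one : v (-1 : F) = 0 := by
  rw [v.map_neg, v.map_one]

theorem val_int (n : ℤ) : 0 ≤ v (n : F) := by
  have h : ∀ m : ℕ, 0 ≤ v (m : F) := by
    intro m
    induction m with
    | zero => simp
    | succ m ih =>
      push_cast
      have h1 : 0 ≤ min (v (m : F)) (v (1 : F)) := le_min ih (by rw [v.map_one])
      exact h1.trans (v.map_add _ _)
  rcases n.eq_nat_or_neg with ⟨m, rfl | rfl⟩
  · exact_mod_cast h m
  · push_cast
    rw [v.map_neg]
    exact h m

/-- coefficients of a product of linear factors with integral coefficients -/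
theorem prod_integral (s : Multiset F) (f : F → F) (hf : ∀ a ∈ s, 0 ≤ v (f a)) (j : ℕ) :
    0 ≤ v (((s.map fun a => (1 : F[X]) - C (f a) * X).prod).coeff j) := by
  induction s using Multiset.induction_on generalizing j with
  | empty =>
    simp only [Multiset.map_zero, Multiset.prod_zero, coeff_one]
    split_ifs
    · rw [v.map_one]
    · rw [v.map_zero]; exact le_top
  | cons a s ih =>
    rw [Multiset.map_cons, Multiset.prod_cons, sub_mul, one_mul, coeff_sub, mul_assoc, coeff_C_mul]
    have ih' := ih fun b hb => hf b (Multiset.mem_cons_of_mem hb)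
    have h1 : 0 ≤ v (f a * (X * (s.map fun a => (1 : F[X]) - C (f a) * X).prod).coeff j) := by
      rw [v.map_mul]
      have h2 : 0 ≤ v ((X * (s.map fun a => (1 : F[X]) - C (f a) * X).prod).coeff j) := by
        cases j with
        | zero => rw [coeff_X_mul_zero, v.map_zero]; exact le_top
        | succ j => rw [coeff_X_mul]; exact ih' j
      exact add_nonneg (hf a (Multiset.mem_cons_self _ _)) h2
    exact (le_min (ih' j) h1).trans (v.map_sub _ _)

/-- **A root of maximal valuation.** -/
theorem exists_root_max [IsAlgClosed F] (G : F[X]) (h0 : G.coeff 0 ≠ 0) (hd : 0 < G.natDegree) :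
    ∃ c : F, c ≠ 0 ∧ G.eval c = 0 ∧ ∀ j, v (G.coeff 0) ≤ v (G.coeff j * c ^ j) := by
  classical
  have hG0 : G ≠ 0 := by rintro rfl; simp at h0
  have hs : G.roots.toFinset.Nonempty := by
    obtain ⟨c, hc⟩ := IsAlgClosed.exists_root G (by
      rw [degree_eq_natDegree hG0]
      exact_mod_cast hd.ne')
    exact ⟨c, by rw [Multiset.mem_toFinset, mem_roots hG0]; exact hc⟩
  obtain ⟨c, hc, hmax⟩ := Finset.exists_max_image _ (fun x => v x) hs
  rw [Multiset.mem_toFinset, mem_roots hG0] at hc
  have hne : ∀ a ∈ G.roots, a ≠ 0 := by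
    intro a ha h
    rw [mem_roots hG0, h, IsRoot.def, ← coeff_zero_eq_eval_zero] at ha
    exact h0 ha
  have hc0 : c ≠ 0 := by
    rintro rfl
    rw [IsRoot.def, ← coeff_zero_eq_eval_zero] at hc
    exact h0 hc
  refine ⟨c, hc0, hc, ?_⟩
  have hsplit : G = C G.leadingCoeff * (G.roots.map fun a => X - C a).prod :=
    (IsAlgClosed.splits G).eq_prod_roots
  have hq : ∀ a ∈ G.roots, 0 ≤ v (c * a⁻¹) := by
    intro a ha
    have h1 := hmax a (Multiset.mem_toFinset.mpr ha)
    have ha0 := hne a ha
    have h2 : v (c * a⁻¹) + v a = v c := by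
      rw [← v.map_mul, mul_assoc, inv_mul_cancel₀ ha0, mul_one]
    obtain ⟨qa, hqa⟩ := val_exists v ha0
    obtain ⟨qc, hqc⟩ := val_exists v hc0
    obtain ⟨q, hq⟩ := val_exists v (mul_ne_zero hc0 (inv_ne_zero ha0))
    rw [hq, hqa, hqc, ← WithTop.coe_add, WithTop.coe_eq_coe] at h2
    simp only [hqa, hqc, WithTop.coe_le_coe] at h1
    rw [hq, ← WithTop.coe_zero, WithTop.coe_le_coe]
    linarith
  -- substitution
  have hcomp : G.comp (C c * X) = C (G.coeff 0) *
      (G.roots.map fun a => (1 : F[X]) - C (c * a⁻¹) * X).prod := by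
    have h1 : G.comp (C c * X) = C G.leadingCoeff *
        (G.roots.map fun a => C c * X - C a).prod := by
      conv_lhs => rw [hsplit]
      rw [mul_comp, C_comp, multiset_prod_comp, Multiset.map_map]
      congr 3
      funext a
      simp
    have h2 : G.coeff 0 = G.leadingCoeff * (G.roots.map fun a => -a).prod := by
      conv_lhs => rw [hsplit]
      rw [coeff_zero_eq_eval_zero, eval_mul, eval_C, eval_multiset_prod, Multiset.map_map]
      congr 3
      funext a
      simp
    have h3 : ∀ s : Multiset F, (∀ a ∈ s, a ≠ 0) → (s.map fun a => C c * X - C a).prod =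
        C ((s.map fun a => -a).prod) * (s.map fun a => (1 : F[X]) - C (c * a⁻¹) * X).prod := by
      intro s
      induction s using Multiset.induction_on with
      | empty => intro _; simp
      | cons a s ih =>
        intro hs
        have ha := hs a (Multiset.mem_cons_self _ _)
        simp only [Multiset.map_cons, Multiset.prod_cons]
        rw [ih fun b hb => hs b (Multiset.mem_cons_of_mem hb), C_mul]
        have h4 : (C c * X - C a : F[X]) = C (-a) * (1 - C (c * a⁻¹) * X) := by
          rw [mul_sub, mul_one, ← mul_assoc, ← C_mul]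
          have : -a * (c * a⁻¹) = -c := by field_simp
          rw [this]
          simp only [C_neg]
          ring
        rw [h4]
        ring
    rw [h1, h3 _ hne, h2, C_mul]
    ring
  intro j
  have h4 : G.coeff j * c ^ j = G.coeff 0 *
      ((G.roots.map fun a => (1 : F[X]) - C (c * a⁻¹) * X).prod).coeff j := by
    rw [← coeff_C_mul, ← hcomp, comp_C_mul_X_coeff]
  rw [h4, v.map_mul]
  have h5 := prod_integral v G.roots (fun a => c * a⁻¹) hq j
  calc v (G.coeff 0) = v (G.coeff 0) + 0 := (add_zero _).symm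
    _ ≤ _ := by gcongr

/-- **Rescaling.** -/
theorem exists_scale (hsurj : ∀ q : ℚ, ∃ s : F, v s = (q : WithTop ℚ)) (A : F[X])
    (hA0 : A.coeff 0 = 0) (hA : ∃ k, v (A.coeff k) ≤ 0) :
    ∃ ε : F, 0 ≤ v ε ∧ (∀ k, 0 ≤ v (A.coeff k * ε ^ k)) ∧ ∃ k, v (A.coeff k * ε ^ k) = 0 := by
  classical
  obtain ⟨k₀, hk₀⟩ := hA
  have hk₀' : k₀ ∈ A.support := by
    rw [mem_support_iff]
    intro h
    rw [h, v.map_zero] at hk₀
    exact absurd hk₀ (by simp)
  have hr : ∀ k ∈ A.support, ∃ q : ℚ, v (A.coeff k) = (q : WithTop ℚ) := fun k hk =>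
    val_exists v (mem_support_iff.mp hk)
  let r : ℕ → ℚ := fun k => if hk : k ∈ A.support then (hr k hk).choose else 0
  have hr' : ∀ k ∈ A.support, v (A.coeff k) = ((r k : ℚ) : WithTop ℚ) := by
    intro k hk
    simp only [r, dif_pos hk]
    exact (hr k hk).choose_spec
  have hpos : ∀ k ∈ A.support, (0 : ℚ) < k := by
    intro k hk
    rcases Nat.eq_zero_or_pos k with h | h
    · exfalso
      rw [h, mem_support_iff] at hk
      exact hk hA0
    · exact_mod_cast h
  obtain ⟨k₁, hk₁, hmax⟩ := Finset.exists_max_image A.support (fun k => -(r k) / k) ⟨k₀, hk₀'⟩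
  obtain ⟨ε, hε⟩ := hsurj (-(r k₁) / k₁)
  have hval : ∀ k ∈ A.support, v (A.coeff k * ε ^ k) =
      ((r k + k * (-(r k₁) / k₁) : ℚ) : WithTop ℚ) := by
    intro k hk
    rw [v.map_mul, hr' k hk, val_pow v hε, ← WithTop.coe_add]
  refine ⟨ε, ?_, ?_, k₁, ?_⟩
  · rw [hε, ← WithTop.coe_zero, WithTop.coe_le_coe]
    refine le_trans ?_ (hmax k₀ hk₀')
    rw [hr' k₀ hk₀', ← WithTop.coe_zero, WithTop.coe_le_coe] at hk₀
    have := hpos k₀ hk₀'
    apply div_nonneg _ this.le
    linarith
  · intro k
    by_cases hk : k ∈ A.support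
    · rw [hval k hk, ← WithTop.coe_zero, WithTop.coe_le_coe]
      have h1 := hmax k hk
      have h2 := hpos k hk
      rw [div_le_iff₀ h2] at h1
      linarith
    · rw [mem_support_iff, not_not] at hk
      rw [hk, zero_mul, v.map_zero]
      exact le_top
  · rw [hval k₁ hk₁, ← WithTop.coe_zero, WithTop.coe_eq_coe]
    have := hpos k₁ hk₁
    field_simp
    ring

/-- Substituting `1 + X`: if some coefficient of `G (c Y)` has valuation `≤ 0`, then so does some
coefficient of `G (c (1 + X))`. -/
theorem exists_coeff_le (H : F[X]) (a : ℕ) (ha : v (H.coeff a) ≤ 0) :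
    ∃ k, v ((H.comp (1 + X)).coeff k) ≤ 0 := by
  by_contra hcon
  push Not at hcon
  have h1 : H = (H.comp (1 + X)).comp (X - 1) := by
    rw [comp_assoc]
    simp
  have h2 : 0 < v (H.coeff a) := by
    rw [h1, comp_eq_sum_left, sum_def, finsetSum_coeff]
    apply val_sum_lt v _ _ _ (by simp)
    intro k _
    rw [coeff_C_mul, v.map_mul]
    have h3 : 0 ≤ v (((X - 1 : F[X]) ^ k).coeff a) := by
      have : (X - 1 : F[X]) ^ k = ((X - 1 : ℤ[X]) ^ k).map (Int.castRingHom F) := by simp
      rw [this, coeff_map]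
      exact val_int v _
    calc (0 : WithTop ℚ) < v ((H.comp (1 + X)).coeff k) := hcon k
      _ = v ((H.comp (1 + X)).coeff k) + 0 := (add_zero _).symm
      _ ≤ _ := by gcongr
  exact absurd ha (not_le.mpr h2)

end Pool.Agent.Zk18
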