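import Pool.Agent.Helper165.P1.Pui
import Pool.Agent.Zk18.Emb
import Pool.Agent.Zk18.Hs
import Pool.Agent.Zk18.Rt

/-!
# The field of Puiseux series: embeddings with prescribed values
-/

set_option autoImplicit false

attribute [-instance] HahnSeries.powerSeriesAlgebra

namespace Pool.Agent.Zk18

open HahnSeries Pool.Agent.Helper165.P1

section inst

variable {K : Type*} [Field K]

theorem C_mem_Pui (k : K) : (C k : HQ K) ∈ Pui K := by
  refine ⟨1, one_pos, C k, ?_⟩
  unfold eHom
  exact embDomainRingHom_C

noncomputable instance : Algebra K (Pui K) :=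
  ((C : K →+* HQ K).codRestrict (Pui K) C_mem_Pui).toAlgebra

theorem coe_algebraMap_Pui (k : K) : ((algebraMap K (Pui K) k : Pui K) : HQ K) = C k := rfl

theorem single_mem_Pui (q : ℚ) (k : K) : (single q k : HQ K) ∈ Pui K := by
  refine ⟨q.den, q.den_pos, single q.num k, ?_⟩
  unfold eHom
  rw [embDomainRingHom_apply, embDomain_single]
  have h1 : divHom q.den q.num = q := Rat.num_div_den q
  change single (divHom q.den q.num) k = single q k
  rw [h1]

variable (K) in
/-- the valuation of the field of Puiseux series -/
noncomputable def vP : AddValuation (Pui K) (WithTop ℚ) := (addVal ℚ K).comap (Pui K).subtype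

theorem vP_apply (x : Pui K) : vP K x = ((x : Pui K) : HQ K).orderTop := by
  change addVal ℚ K ((x : Pui K) : HQ K) = _
  exact addVal_apply

theorem vP_surj (q : ℚ) : ∃ s : Pui K, vP K s = (q : WithTop ℚ) := by
  refine ⟨⟨single q 1, single_mem_Pui q 1⟩, ?_⟩
  rw [vP_apply]
  exact orderTop_single one_ne_zero

theorem vP_algebraMap_nonneg (k : K) : 0 ≤ vP K (algebraMap K (Pui K) k) := by
  rw [vP_apply, coe_algebraMap_Pui]
  exact orderTop_C_nonneg k

/-- the residue `t ^ 0` coefficient removed -/
theorem vP_sub_coeff (x : Pui K) (hx : 0 ≤ vP K x) :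
    0 < vP K (x - algebraMap K (Pui K) (((x : Pui K) : HQ K).coeff 0)) := by
  rw [vP_apply] at hx ⊢
  have : ((0 : ℚ) : WithTop ℚ) <
      ((x - algebraMap K (Pui K) (((x : Pui K) : HQ K).coeff 0) : Pui K) : HQ K).orderTop := by
    rw [lt_orderTop_iff]
    intro p hp
    rw [Subfield.coe_sub, coe_algebraMap_Pui, coeff_sub, C_apply, coeff_single]
    rcases hp.eq_or_lt with rfl | hp'
    · simp
    · rw [if_neg hp'.ne, sub_zero]
      exact coeff_eq_zero_of_lt_orderTop ((WithTop.coe_lt_coe.mpr hp').trans_le hx)
  exact this

end inst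

section arcs

variable {K : Type} [Field K]

instance : Uncountable (Pui K) := by
  classical
  rw [← not_countable_iff]
  intro hc
  let f : Set ℕ → Pui K := fun s => ⟨eHom 1 one_pos (ofPowerSeries ℤ K
    (PowerSeries.mk fun n => if n ∈ s then 1 else 0)), eHom_mem _ _ _⟩
  have hf : Function.Injective f := by
    intro s s' h
    have h1 : eHom 1 one_pos (ofPowerSeries ℤ K (PowerSeries.mk fun n => if n ∈ s then (1 : K) else 0))
      = eHom 1 one_pos (ofPowerSeries ℤ K (PowerSeries.mk fun n => if n ∈ s' then (1 : K) else 0)) :=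
      congrArg Subtype.val h
    have h2 := (eHom (E := K) 1 one_pos).injective h1
    have h3 := ofPowerSeries_injective h2
    ext n
    have h4 := congrArg (PowerSeries.coeff n) h3
    rw [PowerSeries.coeff_mk, PowerSeries.coeff_mk] at h4
    by_cases h5 : n ∈ s <;> by_cases h6 : n ∈ s' <;> simp_all
  have h1 : Countable (Set ℕ) := hf.countable
  obtain ⟨g, hg⟩ := exists_injective_nat (Set ℕ)
  exact Function.cantor_injective g hg

/-- the element `t ^ (-1)` -/
noncomputable def tinv : Pui K := ⟨single (-1) 1, single_mem_Pui (-1) 1⟩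

theorem tinv_transcendental : Transcendental K (tinv : Pui K) := by
  rw [transcendental_iff]
  intro p hp
  have h1 : ∀ n : ℕ, ((tinv ^ n : Pui K) : HQ K) = single (-(n : ℚ)) 1 := by
    intro n
    rw [SubmonoidClass.coe_pow]
    change (single (-1 : ℚ) (1 : K)) ^ n = _
    rw [single_pow, one_pow]
    congr 1
    simp
  have h2 : ((Polynomial.aeval (tinv : Pui K) p : Pui K) : HQ K) =
      ∑ n ∈ Finset.range (p.natDegree + 1), single (-(n : ℚ)) (p.coeff n) := by
    rw [Polynomial.aeval_eq_sum_range, AddSubmonoidClass.coe_finsetSum]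
    apply Finset.sum_congr rfl
    intro n _
    rw [Algebra.smul_def, Subfield.coe_mul, coe_algebraMap_Pui, h1, C_mul_eq_smul]
    ext q
    simp [coeff_single]
  rw [hp] at h2
  ext n
  rw [Polynomial.coeff_zero]
  by_cases hn : n < p.natDegree + 1
  · have h3 := congrArg (fun x : HQ K => x.coeff (-(n : ℚ))) h2
    simp only [Subfield.coe_zero, coeff_zero, coeff_sum] at h3
    rw [Finset.sum_eq_single n] at h3
    · rw [coeff_single, if_pos rfl] at h3
      exact h3.symm
    · intro m _ hm
      rw [coeff_single, if_neg]
      intro h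
      apply hm
      have : (n : ℚ) = m := by linarith
      exact_mod_cast this.symm
    · intro h
      exact absurd (Finset.mem_range.mpr hn) h
  · exact Polynomial.coeff_eq_zero_of_natDegree_lt (by omega)

variable [IsAlgClosed K]

theorem transcendental_of_not_mem {E : Type} [Field E] [Algebra K E] {z : E}
    (hz : z ∉ Set.range (algebraMap K E)) : Transcendental K z := by
  intro h
  apply hz
  have h1 : IsIntegral K z := h.isIntegral
  have h2 := IsAlgClosed.degree_eq_one_of_irreducible K (minpoly.irreducible h1)
  exact minpoly.mem_range_of_degree_eq_one K z h2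

/-- **Arcs.** A countable field extension of a countable algebraically closed field has an embedding
into the field of Puiseux series under which a given nonconstant element has a pole. -/
theorem arc [Countable K] [CharZero K] {E : Type} [Field E] [Countable E] [Algebra K E] (z : E)
    (hz : z ∉ Set.range (algebraMap K E)) :
    ∃ θ : E →ₐ[K] Pui K, θ z = tinv :=
  exists_embedding z tinv (transcendental_of_not_mem hz) tinv_transcendental

omit [IsAlgClosed K] in
theorem vP_tinv : vP K (tinv : Pui K) = ((-1 : ℚ) : WithTop ℚ) := by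
  rw [vP_apply]
  exact orderTop_single one_ne_zero

omit [IsAlgClosed K] in
/-- The image of a finitely generated algebra is contained in a field of Laurent series. -/
theorem exists_laurent {A : Type*} [CommRing A] [Algebra K A] [Algebra.FiniteType K A]
    (φ : A →ₐ[K] Pui K) : ∃ (m : ℕ) (hm : 0 < m) (φ₀ : A →+* HahnSeries ℤ K),
      (∀ x, eHom m hm (φ₀ x) = ((φ x : Pui K) : HQ K)) ∧
      ∀ k, φ₀ (algebraMap K A k) = C k := by
  classical
  obtain ⟨S, hS⟩ := Algebra.FiniteType.out (R := K) (A := A)
  obtain ⟨m, hm, h⟩ := exists_common (S.image φ)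
  have hC : ∀ k : K, (eHom (E := K) m hm) (C k) = C k := by
    intro k
    unfold eHom
    exact embDomainRingHom_C
  let B : Subalgebra K A :=
    { carrier := {x | ((φ x : Pui K) : HQ K) ∈ (eHom (E := K) m hm).range}
      mul_mem' := by
        intro a b ha hb
        have h1 : ((φ (a * b) : Pui K) : HQ K) = ((φ a : Pui K) : HQ K) * ((φ b : Pui K) : HQ K) := by
          rw [map_mul, Subfield.coe_mul]
        rw [Set.mem_ofPred_eq, h1]
        exact Subring.mul_mem _ ha hb
      add_mem' := by
        intro a b ha hb
        have h1 : ((φ (a + b) : Pui K) : HQ K) = ((φ a : Pui K) : HQ K) + ((φ b : Pui K) : HQ K) := by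
          rw [map_add, Subfield.coe_add]
        rw [Set.mem_ofPred_eq, h1]
        exact Subring.add_mem _ ha hb
      algebraMap_mem' := by
        intro k
        rw [Set.mem_ofPred_eq, φ.commutes, coe_algebraMap_Pui]
        exact ⟨C k, hC k⟩ }
  have hB : B = ⊤ := by
    rw [eq_top_iff, ← hS, Algebra.adjoin_le_iff]
    intro s hs
    exact h (φ s) (Finset.mem_image_of_mem _ hs)
  have hall : ∀ x : A, ((φ x : Pui K) : HQ K) ∈ (eHom (E := K) m hm).range := by
    intro x
    have : x ∈ B := by rw [hB]; trivial
    exact this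
  have hinj : Function.Injective (eHom (E := K) m hm) := (eHom (E := K) m hm).injective
  let f : A →+* (eHom (E := K) m hm).range :=
    ((Pui K).subtype.comp (φ : A →+* Pui K)).codRestrict _ hall
  let e : HahnSeries ℤ K ≃+* (eHom (E := K) m hm).range :=
    RingEquiv.ofBijective (eHom (E := K) m hm).rangeRestrict
      ⟨fun a b hab => hinj (congrArg Subtype.val hab), (eHom (E := K) m hm).rangeRestrict_surjective⟩
  refine ⟨m, hm, (e.symm : _ →+* HahnSeries ℤ K).comp f, ?_, ?_⟩
  · intro x
    have h1 : e (e.symm (f x)) = f x := e.apply_symm_apply _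
    have h2 := congrArg Subtype.val h1
    exact h2
  · intro k
    apply hinj
    have h1 : e (e.symm (f (algebraMap K A k))) = f (algebraMap K A k) := e.apply_symm_apply _
    have h2 := congrArg Subtype.val h1
    have h3 : ((f (algebraMap K A k) : (eHom (E := K) m hm).range) : HQ K) = C k := by
      change ((φ (algebraMap K A k) : Pui K) : HQ K) = _
      rw [φ.commutes, coe_algebraMap_Pui]
    rw [hC]
    exact h2.trans h3

end arcs

end Pool.Agent.Zk18
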