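import Mathlib

/-!
# The number of isolated zeros of polynomials of bounded degree

Let `K` be an algebraically closed field and let `F` be a set of polynomials in `N` variables of
degree at most `D`. Then at most `D ^ N` of the common zeros of `F` are isolated.
-/

set_option autoImplicit false

namespace Pool.Agent.Zk18.Bez

open MvPolynomial

section points

variable {K : Type*} [Field K] {ι : Type*}

/-- the maximal ideal of a point -/
noncomputable def mI (p : ι → K) : Ideal (MvPolynomial ι K) := RingHom.ker (eval p)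

instance (p : ι → K) : (mI p).IsPrime := RingHom.ker_isPrime _

theorem mem_mI (p : ι → K) (F : MvPolynomial ι K) : F ∈ mI p ↔ eval p F = 0 := RingHom.mem_ker

theorem sub_mem_of {R : Type*} [CommRing R] (p : ι → R) (P : Ideal (MvPolynomial ι R))
    (h : ∀ i, X i - C (p i) ∈ P) (F : MvPolynomial ι R) : F - C (eval p F) ∈ P := by
  induction F using MvPolynomial.induction_on with
  | C a => rw [eval_C, sub_self]; exact P.zero_mem
  | add F G hF hG =>
    rw [map_add, map_add]
    have : F + G - (C (eval p F) + C (eval p G)) = (F - C (eval p F)) + (G - C (eval p G)) := by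
      ring
    rw [this]
    exact P.add_mem hF hG
  | mul_X F i hF =>
    rw [map_mul, map_mul, eval_X]
    have : F * X i - C (eval p F) * C (p i) = F * (X i - C (p i)) +
        C (p i) * (F - C (eval p F)) := by ring
    rw [this]
    exact P.add_mem (P.mul_mem_left _ (h i)) (P.mul_mem_left _ hF)

theorem mI_le_of (p : ι → K) (P : Ideal (MvPolynomial ι K)) (h : ∀ i, X i - C (p i) ∈ P) :
    mI p ≤ P := by
  intro F hF
  rw [mem_mI] at hF
  have := sub_mem_of p P h F
  rwa [hF, C_0, sub_zero] at this

/-- At an isolated zero. -/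
theorem isolated_prime [IsAlgClosed K] [Finite ι] (F : Set (MvPolynomial ι K)) (p : ι → K)
    (g : MvPolynomial ι K) (hg : eval p g ≠ 0)
    (hiso : ∀ x, (∀ f ∈ F, eval x f = 0) → eval x g ≠ 0 → x = p)
    (P : Ideal (MvPolynomial ι K)) (hP : P.IsPrime) (hF : F ⊆ P) (hle : P ≤ mI p) : P = mI p := by
  apply le_antisymm hle
  apply mI_le_of
  intro i
  have h1 : g * (X i - C (p i)) ∈ (Ideal.span F).radical := by
    rw [← vanishingIdeal_zeroLocus_eq_radical (K := K), mem_vanishingIdeal_iff]
    intro x hx
    rw [mem_zeroLocus_iff] at hx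
    rw [map_mul]
    by_cases hgx : aeval x g = 0
    · rw [hgx, zero_mul]
    · have h2 : x = p := by
        apply hiso x _ hgx
        intro f hf
        exact hx f (Ideal.subset_span hf)
      rw [h2]
      simp
  have h2 : (Ideal.span F).radical ≤ P := by
    rw [hP.radical_le_iff, Ideal.span_le]
    exact hF
  rcases hP.mem_or_mem (h2 h1) with h3 | h3
  · exact absurd ((mem_mI p g).mp (hle h3)) hg
  · exact h3

/-- lower bound for the height -/
theorem height_point {R : Type*} [CommRing R] [IsDomain R] [Fintype ι] [DecidableEq ι]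
    (p : ι → R) (s : Finset ι) :
    ∃ P : Ideal (MvPolynomial ι R), P.IsPrime ∧ (s.card : ℕ∞) ≤ P.height ∧
      P = RingHom.ker (aeval (fun i => if i ∈ s then C (p i) else X i) :
        MvPolynomial ι R →ₐ[R] MvPolynomial ι R) := by
  induction s using Finset.induction_on with
  | empty =>
    exact ⟨_, RingHom.ker_isPrime _, by simp, rfl⟩
  | insert a s ha ih =>
    obtain ⟨P, hP, hPh, hPe⟩ := ih
    refine ⟨_, RingHom.ker_isPrime _, ?_, rfl⟩
    set Q := RingHom.ker (aeval (fun i => if i ∈ insert a s then C (p i) else X i) :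
        MvPolynomial ι R →ₐ[R] MvPolynomial ι R) with hQ
    have hQp : Q.IsPrime := RingHom.ker_isPrime _
    have hlt : P < Q := by
      refine lt_of_le_of_ne ?_ ?_
      · intro F hF
        rw [hPe, RingHom.mem_ker] at hF
        rw [hQ, RingHom.mem_ker]
        have h1 : (aeval (fun i => if i ∈ insert a s then C (p i) else X i) :
            MvPolynomial ι R →ₐ[R] MvPolynomial ι R) =
            (aeval (fun i => if i = a then C (p i) else X i)).comp
              (aeval (fun i => if i ∈ s then C (p i) else X i)) := by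
          ext i
          simp only [aeval_X, AlgHom.comp_apply]
          by_cases hi : i ∈ s
          · rw [if_pos hi, if_pos (Finset.mem_insert_of_mem hi)]
            simp
          · rw [if_neg hi, aeval_X]
            by_cases hia : i = a
            · rw [if_pos hia, if_pos (by rw [hia]; exact Finset.mem_insert_self a s)]
            · rw [if_neg hia, if_neg (by
                rw [Finset.mem_insert, not_or]; exact ⟨hia, hi⟩)]
        rw [h1, AlgHom.comp_apply, hF, map_zero]
      · intro heq
        have h1 : X a - C (p a) ∈ Q := by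
          rw [hQ, RingHom.mem_ker]
          simp
        rw [← heq, hPe, RingHom.mem_ker] at h1
        simp only [map_sub, aeval_X, if_neg ha, algHom_C, algebraMap_eq] at h1
        have h2 := congrArg (fun F => eval (fun _ => p a + 1) F) h1
        simp at h2
    have h1 := Ideal.height_add_one_le_of_lt_of_isPrime hlt
    rw [Finset.card_insert_of_notMem ha]
    push_cast
    exact (add_le_add_left hPh 1).trans h1

theorem exists_avoid {E J : Type*} [AddCommGroup E] [Module K E] [Infinite K] [Finite J]
    (W : Submodule K E) (P : J → Submodule K E) (h : ∀ j, ∃ w ∈ W, w ∉ P j) :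
    ∃ w ∈ W, ∀ j, w ∉ P j := by
  by_contra hno
  push Not at hno
  have h1 : ⋃ j, (((P j).comap W.subtype : Submodule K W) : Set W) = Set.univ := by
    rw [Set.eq_univ_iff_forall]
    intro w
    obtain ⟨j, hj⟩ := hno w w.2
    rw [Set.mem_iUnion]
    exact ⟨j, hj⟩
  obtain ⟨j, hj⟩ := Subspace.exists_eq_top_of_iUnion_eq_univ h1
  obtain ⟨w, hw, hwP⟩ := h j
  apply hwP
  have h2 : (⟨w, hw⟩ : W) ∈ (P j).comap W.subtype := by
    rw [hj]
    exact Submodule.mem_top
  exact h2

theorem cuts [Infinite K] [Finite ι] (F : Set (MvPolynomial ι K)) (T : Set (ι → K))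
    (hiso : ∀ p ∈ T, ∀ P : Ideal (MvPolynomial ι K), P.IsPrime → F ⊆ P → P ≤ mI p → P = mI p)
    (n : ℕ) : ∃ g : Fin n → MvPolynomial ι K, (∀ i, g i ∈ Submodule.span K F) ∧
      ∀ p ∈ T, ∀ P ∈ (Ideal.span (Set.range g)).minimalPrimes, P ≤ mI p →
        (n : ℕ∞) ≤ P.height ∨ P = mI p := by
  classical
  induction n with
  | zero =>
    exact ⟨Fin.elim0, fun i => i.elim0, fun p _ P _ _ => Or.inl (by simp)⟩
  | succ n ih =>
    obtain ⟨g, hg, hgP⟩ := ih
    let J := {P : Ideal (MvPolynomial ι K) // P ∈ (Ideal.span (Set.range g)).minimalPrimes ∧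
      ¬ F ⊆ P}
    have hfin : Finite J := by
      have h1 := Ideal.finite_minimalPrimes_of_isNoetherianRing (MvPolynomial ι K)
        (Ideal.span (Set.range g))
      exact (h1.subset (fun P hP => hP.1) : {P : Ideal (MvPolynomial ι K) |
        P ∈ (Ideal.span (Set.range g)).minimalPrimes ∧ ¬ F ⊆ P}.Finite).to_subtype
    obtain ⟨w, hw, hwP⟩ := exists_avoid (Submodule.span K F)
      (fun P : J => P.1.restrictScalars K) (by
        rintro ⟨P, hP, hFP⟩
        rw [Set.not_subset] at hFP
        obtain ⟨f, hf, hfP⟩ := hFP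
        exact ⟨f, Submodule.subset_span hf, hfP⟩)
    refine ⟨Fin.snoc g w, ?_, ?_⟩
    · intro i
      refine Fin.lastCases ?_ (fun i => ?_) i
      · rw [Fin.snoc_last]; exact hw
      · rw [Fin.snoc_castSucc]; exact hg i
    · intro p hp P' hP' hle
      have hP'p : P'.IsPrime := hP'.isPrime
      have hsub : Ideal.span (Set.range g) ≤ P' := by
        rw [Ideal.span_le]
        rintro _ ⟨i, rfl⟩
        have h1 : Fin.snoc (α := fun _ => MvPolynomial ι K) g w (Fin.castSucc i) ∈
            Ideal.span (Set.range (Fin.snoc (α := fun _ => MvPolynomial ι K) g w)) :=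
          Ideal.subset_span ⟨_, rfl⟩
        rw [Fin.snoc_castSucc] at h1
        exact hP'.le h1
      have hwP' : w ∈ P' := by
        have h1 : Fin.snoc (α := fun _ => MvPolynomial ι K) g w (Fin.last n) ∈
            Ideal.span (Set.range (Fin.snoc (α := fun _ => MvPolynomial ι K) g w)) :=
          Ideal.subset_span ⟨_, rfl⟩
        rw [Fin.snoc_last] at h1
        exact hP'.le h1
      obtain ⟨P, hP, hPP'⟩ := Ideal.exists_minimalPrimes_le hsub
      have hPp : P.IsPrime := hP.isPrime
      by_cases hFP : F ⊆ P
      · right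
        have h1 := hiso p hp P hPp hFP (hPP'.trans hle)
        exact le_antisymm hle (h1 ▸ hPP')
      · have hw' : w ∉ P := hwP ⟨P, hP, hFP⟩
        have hlt : P < P' := lt_of_le_of_ne hPP' (fun h => hw' (h ▸ hwP'))
        rcases hgP p hp P hP (hPP'.trans hle) with h1 | h1
        · left
          have h2 := Ideal.height_add_one_le_of_lt_of_isPrime hlt
          push_cast
          exact (add_le_add_left h1 1).trans h2
        · exfalso
          rw [h1] at hlt
          exact absurd hlt (not_lt_of_ge hle)

theorem cut_final [Infinite K] [Fintype ι] (F : Set (MvPolynomial ι K)) (T : Set (ι → K))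
    (hiso : ∀ p ∈ T, ∀ P : Ideal (MvPolynomial ι K), P.IsPrime → F ⊆ P → P ≤ mI p → P = mI p) :
    ∃ g : Fin (Fintype.card ι) → MvPolynomial ι K, (∀ i, g i ∈ Submodule.span K F) ∧
      ∀ p ∈ T, ∀ P : Ideal (MvPolynomial ι K), P.IsPrime → (∀ i, g i ∈ P) → P ≤ mI p →
        P = mI p := by
  obtain ⟨g, hg, hgP⟩ := cuts F T hiso (Fintype.card ι)
  refine ⟨g, hg, fun p hp P hP hgm hle => ?_⟩
  have hsub : Ideal.span (Set.range g) ≤ P := by
    rw [Ideal.span_le]
    rintro _ ⟨i, rfl⟩
    exact hgm i
  obtain ⟨Q, hQ, hQP⟩ := Ideal.exists_minimalPrimes_le hsub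
  have hQp : Q.IsPrime := hQ.isPrime
  rcases hgP p hp Q hQ (hQP.trans hle) with h1 | h1
  · by_contra hne
    have hlt : Q < mI p := lt_of_le_of_lt hQP (lt_of_le_of_ne hle hne)
    have h2 := Ideal.height_add_one_le_of_lt_of_isPrime hlt
    have h3 : (((mI p).height : ℕ∞) : WithBot ℕ∞) ≤ (Fintype.card ι : ℕ) := by
      refine (Ideal.height_le_ringKrullDim_of_ne_top Ideal.IsPrime.ne_top').trans ?_
      rw [MvPolynomial.ringKrullDim_of_isNoetherianRing, ringKrullDim_eq_zero_of_field,
        Nat.card_eq_fintype_card, zero_add]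
    have h4 : (mI p).height ≤ (Fintype.card ι : ℕ∞) := by exact_mod_cast h3
    have h5 : (Fintype.card ι : ℕ∞) + 1 ≤ Fintype.card ι :=
      ((add_le_add_left h1 1).trans h2).trans h4
    have h6 : Fintype.card ι + 1 ≤ Fintype.card ι := by exact_mod_cast h5
    omega
  · exact le_antisymm hle (h1 ▸ hQP)

end points

section pert

variable {K : Type*} [Field K] {ι : Type*}

/-- polynomials with coefficients not depending on the parameter -/
noncomputable def cst : MvPolynomial ι K →+* MvPolynomial ι (Polynomial K) :=
  MvPolynomial.map Polynomial.C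

/-- the parameter -/
noncomputable def par : MvPolynomial ι (Polynomial K) := C Polynomial.X

/-- the perturbed equations -/
noncomputable def G (g : ι → MvPolynomial ι K) (D : ℕ) (i : ι) :
    MvPolynomial ι (Polynomial K) := cst (g i) - par * X i ^ D

/-- evaluation at `t = 0` -/
noncomputable def ev0 (p : ι → K) : MvPolynomial ι (Polynomial K) →+* K :=
  (Polynomial.evalRingHom 0).comp (eval (fun i => Polynomial.C (p i)))

theorem ev0_cst (p : ι → K) (F : MvPolynomial ι K) : ev0 p (cst F) = eval p F := by
  have h : (ev0 p).comp cst = (eval p : MvPolynomial ι K →+* K) := by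
    apply MvPolynomial.ringHom_ext
    · intro r
      simp [ev0, cst]
    · intro i
      simp [ev0, cst]
  exact congrArg (fun φ : MvPolynomial ι K →+* K => φ F) h

theorem ev0_C (p : ι → K) (r : Polynomial K) : ev0 p (C r) = r.eval 0 := by
  simp [ev0]

theorem ev0_par (p : ι → K) : ev0 p par = 0 := by
  rw [par, ev0_C, Polynomial.eval_X]

theorem exists_q [Fintype ι] (g : ι → MvPolynomial ι K) (D : ℕ) (p : ι → K)
    (hg : ∀ i, g i ∈ mI p)
    (hP : ∀ P : Ideal (MvPolynomial ι K), P.IsPrime → (∀ i, g i ∈ P) → P ≤ mI p → P = mI p) :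
    ∃ q : Ideal (MvPolynomial ι (Polynomial K)), q.IsPrime ∧ (∀ i, G g D i ∈ q) ∧
      q ≤ RingHom.ker (ev0 p) ∧ par ∉ q := by
  classical
  set M := RingHom.ker (ev0 p) with hM
  have hMp : M.IsPrime := RingHom.ker_isPrime _
  have hGM : Ideal.span (Set.range (G g D)) ≤ M := by
    rw [Ideal.span_le]
    rintro _ ⟨i, rfl⟩
    change G g D i ∈ M
    rw [hM, RingHom.mem_ker, G, map_sub, map_mul, ev0_cst, ev0_par, zero_mul, sub_zero]
    exact (mem_mI p (g i)).mp (hg i)
  obtain ⟨q, hq, hqM⟩ := Ideal.exists_minimalPrimes_le hGM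
  have hqp : q.IsPrime := hq.isPrime
  refine ⟨q, hqp, fun i => hq.le (Ideal.subset_span ⟨i, rfl⟩), hqM, fun ht => ?_⟩
  -- height of `q`
  have hqh : q.height ≤ (Fintype.card ι : ℕ∞) := by
    have h1 : q ∈ (Ideal.span ((Finset.univ.image (G g D) :
        Finset (MvPolynomial ι (Polynomial K))) : Set (MvPolynomial ι (Polynomial K)))).minimalPrimes := by
      rw [Finset.coe_image, Finset.coe_univ, Set.image_univ]
      exact hq
    refine (Ideal.height_le_card_of_mem_minimalPrimes_span_finset h1).trans ?_
    exact_mod_cast Finset.card_image_le.trans (by rw [Finset.card_univ])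
  -- height of `M`
  have hMh : (Fintype.card ι : ℕ∞) + 1 ≤ M.height := by
    obtain ⟨P, hPp, hPh, hPe⟩ := height_point (R := Polynomial K)
      (fun i => Polynomial.C (p i)) (Finset.univ : Finset ι)
    have h2 : ∀ F, ev0 p F = ev0 p (aeval (fun i => if i ∈ (Finset.univ : Finset ι) then
        C (Polynomial.C (p i)) else X i : ι → MvPolynomial ι (Polynomial K)) F) := by
      intro F
      have h3 : ev0 p = (ev0 p).comp (aeval (fun i => if i ∈ (Finset.univ : Finset ι) then
        C (Polynomial.C (p i)) else X i : ι → MvPolynomial ι (Polynomial K))).toRingHom := by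
        apply MvPolynomial.ringHom_ext
        · intro r
          simp [ev0]
        · intro i
          simp [ev0]
      exact congrArg (fun φ : MvPolynomial ι (Polynomial K) →+* K => φ F) h3
    have hlt : P < M := by
      refine lt_of_le_of_ne ?_ ?_
      · intro F hF
        rw [hPe, RingHom.mem_ker] at hF
        rw [hM, RingHom.mem_ker, h2 F]
        have h4 : (aeval (fun i => if i ∈ (Finset.univ : Finset ι) then
          C (Polynomial.C (p i)) else X i : ι → MvPolynomial ι (Polynomial K))) F = 0 := hF
        rw [h4, map_zero]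
      · intro heq
        have h4 : (par : MvPolynomial ι (Polynomial K)) ∈ M := by
          rw [hM, RingHom.mem_ker, ev0_par]
        rw [← heq, hPe, RingHom.mem_ker, par] at h4
        simp at h4
    have h1 := Ideal.height_add_one_le_of_lt_of_isPrime hlt
    rw [Finset.card_univ] at hPh
    exact (add_le_add_left hPh 1).trans h1
  -- `q = M`
  have hcomap : (q.comap cst : Ideal (MvPolynomial ι K)) = mI p := by
    apply hP _ (Ideal.comap_isPrime _ _)
    · intro i
      rw [Ideal.mem_comap]
      have h1 : G g D i + par * X i ^ D ∈ q :=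
        q.add_mem (hq.le (Ideal.subset_span ⟨i, rfl⟩)) (q.mul_mem_right _ ht)
      rwa [G, sub_add_cancel] at h1
    · intro F hF
      rw [mem_mI, ← ev0_cst]
      exact hqM hF
  have hle : M ≤ q := by
    intro F hF
    have h1 : ∀ i, X i - C (Polynomial.C (p i)) ∈ q := by
      intro i
      have h2 : (X i - C (p i) : MvPolynomial ι K) ∈ mI p := by
        rw [mem_mI]
        simp
      rw [← hcomap, Ideal.mem_comap] at h2
      simpa [cst] using h2
    have h2 := sub_mem_of (fun i => Polynomial.C (p i)) q h1 F
    have h3 : (eval (fun i => Polynomial.C (p i)) F).coeff 0 = 0 := by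
      rw [Polynomial.coeff_zero_eq_eval_zero]
      exact hF
    rw [← Polynomial.X_dvd_iff] at h3
    obtain ⟨r, hr⟩ := h3
    have h4 : C (eval (fun i => Polynomial.C (p i)) F) ∈ q := by
      rw [hr, C_mul]
      exact q.mul_mem_right _ ht
    have h5 := q.add_mem h2 h4
    rwa [sub_add_cancel] at h5
  have h1 := hMh.trans ((Ideal.height_mono hle).trans hqh)
  have h2 : Fintype.card ι + 1 ≤ Fintype.card ι := by exact_mod_cast h1
  omega

theorem C_notMem (q : Ideal (MvPolynomial ι (Polynomial K))) (hq : q.IsPrime) (p : ι → K)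
    (hqM : q ≤ RingHom.ker (ev0 p)) (ht : par ∉ q) (n : ℕ) :
    ∀ r : Polynomial K, r ≠ 0 → r.natDegree ≤ n → C r ∉ q := by
  induction n with
  | zero =>
    intro r hr hn hmem
    have h1 := hqM hmem
    rw [RingHom.mem_ker, ev0_C] at h1
    rw [Polynomial.eq_C_of_natDegree_le_zero hn, Polynomial.eval_C] at h1
    apply hr
    rw [Polynomial.eq_C_of_natDegree_le_zero hn, h1, Polynomial.C_0]
  | succ n ih =>
    intro r hr hn hmem
    have h1 := hqM hmem
    rw [RingHom.mem_ker, ev0_C, ← Polynomial.coeff_zero_eq_eval_zero, ← Polynomial.X_dvd_iff] at h1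
    obtain ⟨r', rfl⟩ := h1
    have hr' : r' ≠ 0 := by
      rintro rfl
      rw [mul_zero] at hr
      exact hr rfl
    rw [C_mul] at hmem
    rcases hq.mem_or_mem hmem with h2 | h2
    · exact ht h2
    · refine ih r' hr' ?_ h2
      rw [Polynomial.natDegree_X_mul hr'] at hn
      omega

end pert

section span

variable {K : Type*} [Field K] {ι : Type*}

open Classical in
/-- multiplication by the parameter, modulo the equations and the reduced monomials -/
noncomputable def phi (g : ι → MvPolynomial ι K) (D : ℕ) :
    MvPolynomial ι K →ₗ[K] MvPolynomial ι K :=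
  (basisMonomials ι K).constr K (fun b : ι →₀ ℕ => if h : ∃ i, D ≤ b i then
    monomial (b - Finsupp.single h.choose D) 1 * g h.choose else 0)

theorem phi_neg (g : ι → MvPolynomial ι K) (D : ℕ) (b : ι →₀ ℕ) (h : ¬ ∃ i, D ≤ b i) :
    phi g D (monomial b 1) = 0 := by
  classical
  have h1 := (basisMonomials ι K).constr_basis K (fun b : ι →₀ ℕ =>
    if h : ∃ i, D ≤ b i then monomial (b - Finsupp.single h.choose D) 1 * g h.choose else 0) b
  rw [coe_basisMonomials] at h1
  rw [phi, h1, dif_neg h]

theorem phi_pos (g : ι → MvPolynomial ι K) (D : ℕ) (b : ι →₀ ℕ) (h : ∃ i, D ≤ b i) :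
    ∃ i, D ≤ b i ∧
      phi g D (monomial b 1) = monomial (b - Finsupp.single i D) 1 * g i := by
  classical
  have h1 := (basisMonomials ι K).constr_basis K (fun b : ι →₀ ℕ =>
    if h : ∃ i, D ≤ b i then monomial (b - Finsupp.single h.choose D) 1 * g h.choose else 0) b
  rw [coe_basisMonomials] at h1
  refine ⟨h.choose, h.choose_spec, ?_⟩
  rw [phi, h1, dif_pos h]

/-- the equations and the reduced monomials -/
noncomputable def N0 (g : ι → MvPolynomial ι K) (D : ℕ) :
    Submodule (Polynomial K) (MvPolynomial ι (Polynomial K)) :=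
  (Ideal.span (Set.range (G g D))).restrictScalars (Polynomial K) ⊔
    Submodule.span (Polynomial K)
      {m | ∃ u : ι →₀ ℕ, (∀ i, u i < D) ∧ m = monomial u 1}

theorem C_mul_mem (g : ι → MvPolynomial ι K) (D : ℕ) (r : Polynomial K)
    {F : MvPolynomial ι (Polynomial K)} (hF : F ∈ N0 g D) : C r * F ∈ N0 g D := by
  rw [← smul_eq_C_mul]
  exact Submodule.smul_mem _ r hF

theorem cst_C (a : K) : (cst (C a) : MvPolynomial ι (Polynomial K)) = C (Polynomial.C a) := by
  simp [cst]

theorem step (g : ι → MvPolynomial ι K) (D : ℕ) (F : MvPolynomial ι K) :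
    par * cst F - cst (phi g D F) ∈ N0 g D := by
  induction F using MvPolynomial.induction_on' with
  | add p q hp hq =>
    have : par * cst (p + q) - cst (phi g D (p + q)) =
        (par * cst p - cst (phi g D p)) + (par * cst q - cst (phi g D q)) := by
      rw [map_add, map_add, map_add]
      ring
    rw [this]
    exact Submodule.add_mem _ hp hq
  | monomial u a =>
    have h1 : (monomial u a : MvPolynomial ι K) = C a * monomial u 1 := by
      rw [C_mul_monomial, mul_one]
    have h2 : phi g D (C a * monomial u 1) = C a * phi g D (monomial u 1) := by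
      rw [← smul_eq_C_mul, ← smul_eq_C_mul, map_smul]
    rw [h1, h2, map_mul, map_mul, cst_C]
    have h3 : par * (C (Polynomial.C a) * cst (monomial u 1)) -
        C (Polynomial.C a) * cst (phi g D (monomial u 1)) =
        C (Polynomial.C a) * (par * cst (monomial u 1) - cst (phi g D (monomial u 1))) := by ring
    rw [h3]
    apply C_mul_mem
    by_cases h : ∃ i, D ≤ u i
    · obtain ⟨i, hi, hphi⟩ := phi_pos g D u h
      rw [hphi]
      have h4 : (monomial u 1 : MvPolynomial ι K) =
          monomial (u - Finsupp.single i D) 1 * X i ^ D := by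
        rw [X_pow_eq_monomial, monomial_mul, mul_one, tsub_add_cancel_of_le]
        rw [Finsupp.single_le_iff]
        exact hi
      have h5 : par * cst (monomial u 1) - cst (monomial (u - Finsupp.single i D) 1 * g i) =
          - (cst (monomial (u - Finsupp.single i D) 1) * G g D i) := by
        rw [h4, map_mul, map_mul, map_pow, G]
        have h6 : (cst (X i) : MvPolynomial ι (Polynomial K)) = X i := by simp [cst]
        rw [h6]
        ring
      rw [h5]
      apply Submodule.neg_mem
      apply Submodule.mem_sup_left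
      exact Ideal.mul_mem_left _ _ (Ideal.subset_span ⟨i, rfl⟩)
    · rw [phi_neg g D u h, map_zero, sub_zero]
      have h6 : (cst (monomial u 1) : MvPolynomial ι (Polynomial K)) = monomial u 1 := by
        simp [cst]
      rw [h6, par]
      apply C_mul_mem
      apply Submodule.mem_sup_right
      apply Submodule.subset_span
      push Not at h
      exact ⟨u, h, rfl⟩

theorem step_pow (g : ι → MvPolynomial ι K) (D n : ℕ) : ∀ F : MvPolynomial ι K,
    C (Polynomial.X ^ n) * cst F - cst (((phi g D) ^ n) F) ∈ N0 g D := by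
  induction n with
  | zero =>
    intro F
    simp
  | succ n ih =>
    intro F
    have h1 : C (Polynomial.X ^ (n + 1)) * cst F - cst (((phi g D) ^ (n + 1)) F) =
        C (Polynomial.X ^ n) * (par * cst F - cst (phi g D F)) +
          (C (Polynomial.X ^ n) * cst (phi g D F) - cst (((phi g D) ^ n) (phi g D F))) := by
      rw [pow_succ, pow_succ, Module.End.mul_apply, C_mul, par]
      ring
    rw [h1]
    exact Submodule.add_mem _ (C_mul_mem g D _ (step g D F)) (ih _)

theorem step_poly (g : ι → MvPolynomial ι K) (D : ℕ) (r : Polynomial K)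
    (F : MvPolynomial ι K) :
    C r * cst F - cst ((Polynomial.aeval (phi g D) r) F) ∈ N0 g D := by
  induction r using Polynomial.induction_on' with
  | add p q hp hq =>
    have : C (p + q) * cst F - cst ((Polynomial.aeval (phi g D) (p + q)) F) =
        (C p * cst F - cst ((Polynomial.aeval (phi g D) p) F)) +
          (C q * cst F - cst ((Polynomial.aeval (phi g D) q) F)) := by
      rw [map_add, map_add, LinearMap.add_apply, map_add]
      ring
    rw [this]
    exact Submodule.add_mem _ hp hq
  | monomial n a =>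
    have h1 : C (Polynomial.monomial n a) * cst F -
        cst ((Polynomial.aeval (phi g D) (Polynomial.monomial n a)) F) =
        C (Polynomial.C a) * (C (Polynomial.X ^ n) * cst F - cst (((phi g D) ^ n) F)) := by
      rw [Polynomial.aeval_monomial, ← Polynomial.C_mul_X_pow_eq_monomial, C_mul,
        Module.End.mul_apply, Module.algebraMap_end_apply, smul_eq_C_mul, map_mul, cst_C]
      ring
    rw [h1]
    exact C_mul_mem g D _ (step_pow g D n F)

theorem phi_degree [Finite ι] (g : ι → MvPolynomial ι K) (D : ℕ)
    (hg : ∀ i, (g i).totalDegree ≤ D) (k : ℕ) (F : MvPolynomial ι K) (hF : F.totalDegree ≤ k) :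
    (phi g D F).totalDegree ≤ k := by
  classical
  have h1 : F = ∑ u ∈ F.support, F.coeff u • monomial u 1 := by
    conv_lhs => rw [F.as_sum]
    apply Finset.sum_congr rfl
    intro u _
    rw [smul_monomial, smul_eq_mul, mul_one]
  have h2 : phi g D F = ∑ u ∈ F.support, F.coeff u • phi g D (monomial u 1) := by
    conv_lhs => rw [h1]
    rw [map_sum]
    apply Finset.sum_congr rfl
    intro u _
    rw [map_smul]
  rw [h2]
  apply totalDegree_finsetSum_le
  intro u hu
  refine (totalDegree_smul_le _ _).trans ?_
  by_cases h : ∃ i, D ≤ u i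
  · obtain ⟨i, hi, hphi⟩ := phi_pos g D u h
    rw [hphi]
    refine (totalDegree_mul _ _).trans ?_
    rw [totalDegree_monomial _ one_ne_zero]
    have h3 := (le_totalDegree hu).trans hF
    have h4 : ((u - Finsupp.single i D).sum fun _ e => e) + D = u.sum fun _ e => e := by
      have h5 : u = (u - Finsupp.single i D) + Finsupp.single i D := by
        rw [tsub_add_cancel_of_le]
        rw [Finsupp.single_le_iff]
        exact hi
      conv_rhs => rw [h5]
      rw [Finsupp.sum_add_index' (fun _ => rfl) (fun _ _ _ => rfl), Finsupp.sum_single_index rfl]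
    have h6 := hg i
    omega
  · rw [phi_neg g D u h, totalDegree_zero]
    exact Nat.zero_le _

theorem exists_kill [Finite ι] (g : ι → MvPolynomial ι K) (D : ℕ)
    (hg : ∀ i, (g i).totalDegree ≤ D) (k : ℕ) :
    ∃ r : Polynomial K, r ≠ 0 ∧ ∀ F : MvPolynomial ι K, F.totalDegree ≤ k →
      C r * cst F ∈ N0 g D := by
  let W := restrictTotalDegree ι K k
  have hW : ∀ F ∈ W, phi g D F ∈ W := by
    intro F hF
    rw [mem_restrictTotalDegree] at hF ⊢
    exact phi_degree g D hg k F hF
  let ψ : Module.End K W := (phi g D).restrict hW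
  refine ⟨ψ.charpoly, ψ.charpoly_monic.ne_zero, fun F hF => ?_⟩
  have h1 : ∀ (r : Polynomial K) (w : W),
      (((Polynomial.aeval ψ r) w : W) : MvPolynomial ι K) = (Polynomial.aeval (phi g D) r) w := by
    intro r
    induction r using Polynomial.induction_on' with
    | add p q hp hq =>
      intro w
      rw [map_add, map_add, LinearMap.add_apply, LinearMap.add_apply, Submodule.coe_add, hp, hq]
    | monomial n a =>
      intro w
      rw [Polynomial.aeval_monomial, Polynomial.aeval_monomial, Module.End.mul_apply,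
        Module.End.mul_apply, Module.algebraMap_end_apply, Module.algebraMap_end_apply,
        Submodule.coe_smul]
      congr 1
      induction n generalizing w with
      | zero => rfl
      | succ n ih =>
        rw [pow_succ, pow_succ, Module.End.mul_apply, Module.End.mul_apply, ih]
        rfl
  have h2 := step_poly g D ψ.charpoly F
  have h3 : (Polynomial.aeval (phi g D) ψ.charpoly) F = 0 := by
    have h4 := h1 ψ.charpoly ⟨F, (mem_restrictTotalDegree _ _ _).mpr hF⟩
    rw [LinearMap.aeval_self_charpoly] at h4
    exact h4.symm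
  rwa [h3, map_zero, sub_zero] at h2

end span

section count

variable {K : Type*} [Field K] {ι : Type*}

theorem interpolation (T : Finset (ι → K)) : ∃ h : (ι → K) → MvPolynomial ι K,
    ∀ p ∈ T, ∀ p' ∈ T, (p' = p → eval p' (h p) = 1) ∧ (p' ≠ p → eval p' (h p) = 0) := by
  classical
  have hne : ∀ p p' : ι → K, p' ≠ p → ∃ i, p' i ≠ p i := fun p p' h => Function.ne_iff.mp h
  let e : (ι → K) → (ι → K) → MvPolynomial ι K := fun p p' =>
    if h : p' ≠ p then C (p (hne p p' h).choose - p' (hne p p' h).choose)⁻¹ *
      (X (hne p p' h).choose - C (p' (hne p p' h).choose)) else 1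
  refine ⟨fun p => ∏ p' ∈ T.erase p, e p p', fun p hp p' hp' => ⟨?_, ?_⟩⟩
  · rintro rfl
    rw [map_prod]
    apply Finset.prod_eq_one
    intro x hx
    have hxp : x ≠ p' := Finset.ne_of_mem_erase hx
    simp only [e]
    rw [dif_pos hxp, map_mul, eval_C, map_sub, eval_X, eval_C, inv_mul_cancel₀]
    exact sub_ne_zero.mpr (hne p' x hxp).choose_spec.symm
  · intro hpp'
    rw [map_prod]
    apply Finset.prod_eq_zero (Finset.mem_erase.mpr ⟨hpp', hp'⟩)
    simp only [e]
    rw [dif_pos hpp', map_mul, eval_C, map_sub, eval_X, eval_C, sub_self, mul_zero]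

/-- **The number of isolated zeros.** -/
theorem bezout [IsAlgClosed K] [Fintype ι] (D : ℕ) (F : Set (MvPolynomial ι K))
    (hF : ∀ f ∈ F, f.totalDegree ≤ D) (T : Finset (ι → K))
    (hT : ∀ p ∈ T, (∀ f ∈ F, eval p f = 0) ∧ ∃ g, eval p g ≠ 0 ∧
      ∀ x, (∀ f ∈ F, eval x f = 0) → eval x g ≠ 0 → x = p) :
    T.card ≤ D ^ Fintype.card ι := by
  classical
  have hinf : Infinite K := IsAlgClosed.instInfinite
  have hiso : ∀ p ∈ (T : Set (ι → K)), ∀ P : Ideal (MvPolynomial ι K), P.IsPrime → F ⊆ P →
      P ≤ mI p → P = mI p := by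
    intro p hp P hP hFP hle
    obtain ⟨-, g, hg, hgx⟩ := hT p hp
    exact isolated_prime F p g hg hgx P hP hFP hle
  obtain ⟨g₀, hg₀, hg₀P⟩ := cut_final F (T : Set (ι → K)) hiso
  let g : ι → MvPolynomial ι K := fun i => g₀ (Fintype.equivFin ι i)
  have hgspan : ∀ i, g i ∈ Submodule.span K F := fun i => hg₀ _
  have hgdeg : ∀ i, (g i).totalDegree ≤ D := by
    intro i
    have h1 : Submodule.span K F ≤ restrictTotalDegree ι K D := by
      rw [Submodule.span_le]
      intro f hf
      exact (mem_restrictTotalDegree _ _ _).mpr (hF f hf)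
    exact (mem_restrictTotalDegree _ _ _).mp (h1 (hgspan i))
  have hgP : ∀ p ∈ T, ∀ P : Ideal (MvPolynomial ι K), P.IsPrime → (∀ i, g i ∈ P) → P ≤ mI p →
      P = mI p := by
    intro p hp P hP hgm hle
    apply hg₀P p hp P hP _ hle
    intro j
    have := hgm ((Fintype.equivFin ι).symm j)
    simpa [g] using this
  have hgm : ∀ p ∈ T, ∀ i, g i ∈ mI p := by
    intro p hp i
    have h1 : Submodule.span K F ≤ (mI p).restrictScalars K := by
      rw [Submodule.span_le]
      intro f hf
      exact (mem_mI p f).mpr ((hT p hp).1 f hf)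
    exact h1 (hgspan i)
  obtain ⟨h, hh⟩ := interpolation T
  obtain ⟨r, hr0, hr⟩ := exists_kill g D hgdeg (T.sup (fun p => (h p).totalDegree))
  -- decomposition
  have hdec : ∀ p : T, ∃ (j : MvPolynomial ι (Polynomial K)) (c : (ι → Fin D) → Polynomial K),
      j ∈ Ideal.span (Set.range (G g D)) ∧
      C r * cst (h p) = j + ∑ a : ι → Fin D, C (c a) *
        monomial (Finsupp.equivFunOnFinite.symm (fun i => (a i : ℕ))) 1 := by
    intro p
    have h1 := hr (h p) (Finset.le_sup (f := fun p => (h p).totalDegree) p.2)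
    rw [N0, Submodule.mem_sup] at h1
    obtain ⟨j, hj, s, hs, hjs⟩ := h1
    have h2 : {m | ∃ u : ι →₀ ℕ, (∀ i, u i < D) ∧ m = monomial u 1} ⊆
        Set.range (fun a : ι → Fin D => (monomial (Finsupp.equivFunOnFinite.symm
          (fun i => (a i : ℕ))) 1 : MvPolynomial ι (Polynomial K))) := by
      rintro m ⟨u, hu, rfl⟩
      refine ⟨fun i => ⟨u i, hu i⟩, ?_⟩
      have h3 : (Finsupp.equivFunOnFinite.symm (fun i => u i) : ι →₀ ℕ) = u := by
        ext i
        rfl
      simp only
      rw [h3]
    obtain ⟨c, hc⟩ := (Submodule.mem_span_range_iff_exists_fun _).mp (Submodule.span_mono h2 hs)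
    refine ⟨j, c, hj, ?_⟩
    rw [← hjs, ← hc]
    congr 1
    apply Finset.sum_congr rfl
    intro a _
    rw [smul_eq_C_mul]
  choose j c hj hjc using hdec
  let L : (T → Polynomial K) →ₗ[Polynomial K] ((ι → Fin D) → Polynomial K) :=
    { toFun := fun v a => ∑ p, v p * c p a
      map_add' := by
        intro v w
        funext a
        simp only [Pi.add_apply, add_mul, Finset.sum_add_distrib]
      map_smul' := by
        intro b v
        funext a
        simp only [Pi.smul_apply, smul_eq_mul, RingHom.id_apply, Finset.mul_sum, mul_assoc] }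
  have hL : ∀ v a, L v a = ∑ p, v p * c p a := fun _ _ => rfl
  -- divisibility
  have hdvd : ∀ v, L v = 0 → ∀ p, Polynomial.X ∣ v p := by
    intro v hv p₀
    have hsum : C r * ∑ p : T, C (v p) * cst (h p) = ∑ p : T, C (v p) * j p := by
      have h1 : C r * ∑ p : T, C (v p) * cst (h p) =
          ∑ p : T, C (v p) * (C r * cst (h (p : ι → K))) := by
        rw [Finset.mul_sum]
        apply Finset.sum_congr rfl
        intro p _
        ring
      rw [h1]
      simp only [hjc, mul_add, Finset.sum_add_distrib]
      have h2 : ∑ p : T, C (v p) * ∑ a : ι → Fin D, C (c p a) *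
          (monomial (Finsupp.equivFunOnFinite.symm (fun i => (a i : ℕ))) 1 :
            MvPolynomial ι (Polynomial K)) = 0 := by
        simp only [Finset.mul_sum]
        rw [Finset.sum_comm]
        apply Finset.sum_eq_zero
        intro a _
        have h3 : ∑ p, v p * c p a = 0 := by
          rw [← hL, hv]
          rfl
        have h4 : ∑ p : T, C (v p) * (C (c p a) *
            (monomial (Finsupp.equivFunOnFinite.symm (fun i => (a i : ℕ))) 1 :
              MvPolynomial ι (Polynomial K))) = C (∑ p, v p * c p a) *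
            monomial (Finsupp.equivFunOnFinite.symm (fun i => (a i : ℕ))) 1 := by
          rw [map_sum, Finset.sum_mul]
          apply Finset.sum_congr rfl
          intro p _
          rw [C_mul]
          ring
        rw [h4, h3, C_0, zero_mul]
      rw [h2, add_zero]
    obtain ⟨q, hqp, hGq, hqM, hpar⟩ := exists_q g D (p₀ : ι → K) (hgm p₀ p₀.2) (hgP p₀ p₀.2)
    have hJq : Ideal.span (Set.range (G g D)) ≤ q := by
      rw [Ideal.span_le]
      rintro _ ⟨i, rfl⟩
      exact hGq i
    have h1 : C r * ∑ p : T, C (v p) * cst (h p) ∈ q := by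
      rw [hsum]
      exact Ideal.sum_mem _ fun p _ => q.mul_mem_left _ (hJq (hj p))
    have h2 : ∑ p : T, C (v p) * cst (h (p : ι → K)) ∈ q :=
      (hqp.mem_or_mem h1).resolve_left (C_notMem q hqp p₀ hqM hpar r.natDegree r hr0 le_rfl)
    have h3 := hqM h2
    rw [RingHom.mem_ker, map_sum, Finset.sum_eq_single p₀] at h3
    · rw [map_mul, ev0_C, ev0_cst, ((hh p₀ p₀.2) p₀ p₀.2).1 rfl, mul_one,
        ← Polynomial.coeff_zero_eq_eval_zero] at h3
      exact Polynomial.X_dvd_iff.mpr h3
    · intro p _ hp
      have h4 : (p₀ : ι → K) ≠ p := fun h => hp (Subtype.ext h.symm)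
      rw [map_mul, ev0_cst, ((hh p p.2) p₀ p₀.2).2 h4, mul_zero]
    · intro h4
      exact absurd (Finset.mem_univ _) h4
  have hdvdn : ∀ n : ℕ, ∀ v, L v = 0 → ∀ p, Polynomial.X ^ n ∣ v p := by
    intro n
    induction n with
    | zero =>
      intro v _ p
      rw [pow_zero]
      exact one_dvd _
    | succ n ih =>
      intro v hv p
      choose v' hv' using hdvd v hv
      have h1 : v = (Polynomial.X : Polynomial K) • v' := by
        funext p
        rw [Pi.smul_apply, smul_eq_mul]
        exact hv' p
      have h2 : L v' = 0 := by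
        rw [h1, map_smul] at hv
        exact (smul_eq_zero.mp hv).resolve_left Polynomial.X_ne_zero
      rw [hv' p, pow_succ, mul_comm]
      exact mul_dvd_mul_left _ (ih v' h2 p)
  have hinj : Function.Injective L := by
    rw [← LinearMap.ker_eq_bot, LinearMap.ker_eq_bot']
    intro v hv
    funext p
    apply Polynomial.eq_zero_of_dvd_of_natDegree_lt (hdvdn ((v p).natDegree + 1) v hv p)
    rw [Polynomial.natDegree_X_pow]
    exact Nat.lt_succ_self _
  have hcard := card_le_of_injective (Polynomial K) L hinj
  rw [Fintype.card_coe, Fintype.card_fun, Fintype.card_fin] at hcard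
  exact hcard

end count

end Pool.Agent.Zk18.Bez
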