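import Pool.Agent.Zk18.Orb

/-!
# Counting orbits and isolated points
-/

set_option autoImplicit false

attribute [-instance] HahnSeries.powerSeriesAlgebra

namespace Pool.Agent.Zk18

open MvPolynomial
open scoped LaurentPolynomial

section count

variable {K : Type*} [Field K] {ι : Type*}

/-- the points of a Laurent curve -/
noncomputable def pt (X : ι → K[T;T⁻¹]) (s : Kˣ) : ι → K := fun p => evU s (X p)

/-- poles at zero and at infinity -/
def TwoSided (X : ι → K[T;T⁻¹]) : Prop :=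
  (∃ i, ∃ e : ℤ, e < 0 ∧ (X i).coeff e ≠ 0) ∧ ∃ i, ∃ e : ℤ, 0 < e ∧ (X i).coeff e ≠ 0

theorem eval_pt (X : ι → K[T;T⁻¹]) (s : Kˣ) (g : MvPolynomial ι K) :
    eval (pt X s) g = evU s (aeval X g) := by
  have h1 := MvPolynomial.comp_aeval_apply (R := K) X (evU s) g
  rw [h1, ← MvPolynomial.coe_aeval_eq_eval]
  rfl

theorem finite_roots (z : K[T;T⁻¹]) (hz : z ≠ 0) : {s : Kˣ | evU s z = 0}.Finite := by
  obtain ⟨n, p, rfl⟩ := iL_exists z
  have hp : p ≠ 0 := by
    rintro rfl
    rw [map_zero, zero_mul] at hz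
    exact hz rfl
  have h1 : {x : K | p.eval x = 0}.Finite := Polynomial.finite_setOfPred_isRoot hp
  refine (h1.preimage (f := fun s : Kˣ => (s : K)) (Units.val_injective.injOn)).subset ?_
  intro s hs
  have h2 : evU s (Polynomial.toLaurent p * LaurentPolynomial.T (-(n : ℤ))) = 0 := hs
  rw [map_mul, evU_T, evU_toLaurent, mul_eq_zero] at h2
  rcases h2 with h2 | h2
  · exact h2
  · exact absurd h2 (Units.ne_zero _)

theorem coeff_algebraMap (a : K) (e : ℤ) (he : e ≠ 0) :
    (algebraMap K K[T;T⁻¹] a).coeff e = 0 := by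
  have h4 : algebraMap K K[T;T⁻¹] a = AddMonoidAlgebra.single 0 a := by
    rw [LaurentPolynomial.single_eq_C_mul_T, LaurentPolynomial.T_zero, mul_one]
    rfl
  rw [h4, AddMonoidAlgebra.coeff_single, Finsupp.single_apply, if_neg (Ne.symm he)]

theorem coeff_algebraMap_zero (a : K) : (algebraMap K K[T;T⁻¹] a).coeff 0 = a := by
  have h4 : algebraMap K K[T;T⁻¹] a = AddMonoidAlgebra.single 0 a := by
    rw [LaurentPolynomial.single_eq_C_mul_T, LaurentPolynomial.T_zero, mul_one]
    rfl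
  rw [h4, AddMonoidAlgebra.coeff_single, Finsupp.single_apply, if_pos rfl]

variable [IsAlgClosed K]

theorem closed_sep (X : ι → K[T;T⁻¹]) (hX : TwoSided X) (x : ι → K)
    (hx : x ∉ Set.range (pt X)) : ∃ g : MvPolynomial ι K, aeval X g = 0 ∧ eval x g ≠ 0 := by
  by_contra hno
  push Not at hno
  obtain ⟨s, hs⟩ := closed_image X hX.1 hX.2 x hno
  exact hx ⟨s, funext fun i => (hs i).symm⟩

theorem inter_finite (X X' : ι → K[T;T⁻¹]) (hX' : TwoSided X')
    (h : ∃ s, pt X s ∉ Set.range (pt X')) : {s : Kˣ | pt X s ∈ Set.range (pt X')}.Finite := by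
  obtain ⟨s₀, hs₀⟩ := h
  obtain ⟨g, hg, hg0⟩ := closed_sep X' hX' _ hs₀
  rw [eval_pt] at hg0
  have h1 : aeval X g ≠ 0 := by
    intro h
    rw [h, map_zero] at hg0
    exact hg0 rfl
  refine (finite_roots _ h1).subset ?_
  rintro s ⟨s', hs'⟩
  rw [Set.mem_ofPred_eq, ← eval_pt, ← hs', eval_pt, hg, map_zero]

omit [IsAlgClosed K] in
theorem sep_finite (R : Finset (ι → K)) (q : ι → K) (hq : q ∉ R) :
    ∃ g : MvPolynomial ι K, eval q g ≠ 0 ∧ ∀ x ∈ R, eval x g = 0 := by
  classical
  have h1 : ∀ x : ι → K, ∃ g : MvPolynomial ι K, x ≠ q → eval q g ≠ 0 ∧ eval x g = 0 := by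
    intro x
    by_cases hx : x = q
    · exact ⟨0, fun h => absurd hx h⟩
    · obtain ⟨i, hi⟩ := Function.ne_iff.mp hx
      refine ⟨X i - C (x i), fun _ => ⟨?_, ?_⟩⟩
      · rw [map_sub, eval_X, eval_C, sub_ne_zero]
        exact fun h => hi h.symm
      · rw [map_sub, eval_X, eval_C, sub_self]
  choose g hg using h1
  refine ⟨∏ x ∈ R, g x, ?_, fun x hx => ?_⟩
  · rw [map_prod, Finset.prod_ne_zero_iff]
    intro x hx
    exact (hg x (fun h => hq (h ▸ hx))).1
  · rw [map_prod]
    exact Finset.prod_eq_zero hx (hg x (fun h => hq (h ▸ hx))).2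

/-- separation of a point from closed curves and points -/
theorem sep_all {J : Type*} (B : Finset J) (X : J → ι → K[T;T⁻¹]) (hX : ∀ a, TwoSided (X a))
    (I : Set ι) (R : Finset (ι → K)) (q : ι → K) (hqI : ∃ p ∈ I, q p ≠ 0) (hqR : q ∉ R)
    (hqB : ∀ a ∈ B, q ∉ Set.range (pt (X a))) :
    ∃ g : MvPolynomial ι K, eval q g ≠ 0 ∧ ∀ x, eval x g ≠ 0 →
      (∃ p ∈ I, x p ≠ 0) ∧ x ∉ R ∧ ∀ a ∈ B, x ∉ Set.range (pt (X a)) := by
  classical
  obtain ⟨p, hpI, hp⟩ := hqI
  obtain ⟨gR, hgR, hgR'⟩ := sep_finite R q hqR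
  have h1 : ∀ a, ∃ g : MvPolynomial ι K, a ∈ B → aeval (X a) g = 0 ∧ eval q g ≠ 0 := by
    intro a
    by_cases ha : a ∈ B
    · obtain ⟨g, hg⟩ := closed_sep (X a) (hX a) q (hqB a ha)
      exact ⟨g, fun _ => hg⟩
    · exact ⟨0, fun h => absurd h ha⟩
  choose g hg using h1
  refine ⟨MvPolynomial.X p * gR * ∏ a ∈ B, g a, ?_, fun x hx => ?_⟩
  · rw [map_mul, map_mul, eval_X, map_prod]
    refine mul_ne_zero (mul_ne_zero hp hgR) ?_
    rw [Finset.prod_ne_zero_iff]
    exact fun a ha => (hg a ha).2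
  · rw [map_mul, map_mul, eval_X, map_prod] at hx
    have h2 := left_ne_zero_of_mul hx
    refine ⟨⟨p, hpI, left_ne_zero_of_mul h2⟩, fun hxR => ?_, fun a ha => ?_⟩
    · exact right_ne_zero_of_mul h2 (hgR' x hxR)
    · rintro ⟨s, rfl⟩
      have h3 := Finset.prod_ne_zero_iff.mp (right_ne_zero_of_mul hx) a ha
      rw [eval_pt, (hg a ha).1, map_zero] at h3
      exact h3 rfl

/-- the number of the isolated points -/
theorem count_points [Fintype ι] (D : ℕ) (F : Set (MvPolynomial ι K))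
    (hF : ∀ f ∈ F, f.totalDegree ≤ D) (I : Set ι) {J : Type*} [Fintype J]
    (X : J → ι → K[T;T⁻¹]) (hX : ∀ a, TwoSided (X a)) (E : Finset (ι → K))
    (hE : ∀ x ∈ E, (∀ f ∈ F, eval x f = 0) ∧ ∃ p ∈ I, x p ≠ 0)
    (hEX : ∀ x ∈ E, ∀ a, x ∉ Set.range (pt (X a)))
    (hcov : ∀ x, (∀ f ∈ F, eval x f = 0) → (∃ p ∈ I, x p ≠ 0) →
      x ∈ E ∨ ∃ a, x ∈ Set.range (pt (X a))) :
    E.card ≤ D ^ Fintype.card ι := by
  classical
  refine Bez.bezout D F hF E fun q hq => ⟨(hE q hq).1, ?_⟩
  obtain ⟨g, hg, hgx⟩ := sep_all Finset.univ X hX I (E.erase q) q (hE q hq).2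
    (Finset.notMem_erase _ _) (fun a _ => hEX q hq a)
  refine ⟨g, hg, fun x hx hxg => ?_⟩
  obtain ⟨h1, h2, h3⟩ := hgx x hxg
  rcases hcov x hx h1 with h4 | ⟨a, ha⟩
  · by_contra hne
    exact h2 (Finset.mem_erase.mpr ⟨hne, h4⟩)
  · exact absurd ha (h3 a (Finset.mem_univ a))

/-- the number of the curves -/
theorem count_curves [Fintype ι] (D : ℕ) (hD : 1 ≤ D) (F : Set (MvPolynomial ι K))
    (hF : ∀ f ∈ F, f.totalDegree ≤ D) (I : Set ι) {J : Type*} [Fintype J]
    (X : J → ι → K[T;T⁻¹]) (hX : ∀ a, TwoSided (X a)) (E : Finset (ι → K))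
    (hXF : ∀ a s, (∀ f ∈ F, eval (pt (X a) s) f = 0) ∧ ∃ p ∈ I, pt (X a) s p ≠ 0)
    (hEX : ∀ x ∈ E, ∀ a, x ∉ Set.range (pt (X a)))
    (hcov : ∀ x, (∀ f ∈ F, eval x f = 0) → (∃ p ∈ I, x p ≠ 0) →
      x ∈ E ∨ ∃ a, x ∈ Set.range (pt (X a)))
    (hne : ∀ a b, a ≠ b → ∃ s, pt (X a) s ∉ Set.range (pt (X b))) :
    Fintype.card J ≤ D ^ Fintype.card ι := by
  classical
  have hinf : Infinite K := IsAlgClosed.instInfinite
  -- the linear form
  let lam : (ι → K) → (ι → K[T;T⁻¹]) → K[T;T⁻¹] := fun c Y => ∑ p, c p • Y p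
  have hlin : ∃ c ∈ (⊤ : Submodule K (ι → K)), ∀ a : J, c ∉
      ((1 : Submodule K K[T;T⁻¹]).comap
        (∑ p, (LinearMap.toSpanSingleton K K[T;T⁻¹] (X a p)).comp (LinearMap.proj p) :
          (ι → K) →ₗ[K] K[T;T⁻¹]) : Submodule K (ι → K)) := by
    apply Bez.exists_avoid
    intro a
    obtain ⟨⟨p, e, he, hpe⟩, -⟩ := hX a
    refine ⟨Pi.single p 1, Submodule.mem_top, fun h => ?_⟩
    rw [Submodule.mem_comap, LinearMap.sum_apply, Finset.sum_eq_single p] at h
    · simp only [LinearMap.comp_apply, LinearMap.proj_apply, Pi.single_eq_same,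
        LinearMap.toSpanSingleton_apply, one_smul] at h
      obtain ⟨k, hk⟩ := Submodule.mem_one.mp h
      apply hpe
      rw [← hk]
      exact coeff_algebraMap k e he.ne
    · intro p' _ hp'
      simp only [LinearMap.comp_apply, LinearMap.proj_apply, Pi.single_eq_of_ne hp',
        LinearMap.toSpanSingleton_apply, zero_smul]
    · intro h
      exact absurd (Finset.mem_univ p) h
  obtain ⟨c, -, hc⟩ := hlin
  let γ : J → K[T;T⁻¹] := fun a => ∑ p, c p • X a p
  have hγ : ∀ a, γ a ∉ Set.range (algebraMap K K[T;T⁻¹]) := by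
    rintro a ⟨k, hk⟩
    apply hc a
    rw [Submodule.mem_comap, LinearMap.sum_apply]
    simp only [LinearMap.comp_apply, LinearMap.proj_apply, LinearMap.toSpanSingleton_apply]
    exact Submodule.mem_one.mpr ⟨k, hk⟩
  let lin : MvPolynomial ι K := ∑ p, C (c p) * MvPolynomial.X p
  have hlineval : ∀ x : ι → K, eval x lin = ∑ p, c p * x p := by
    intro x
    simp only [lin, map_sum, map_mul, eval_C, eval_X]
  have hlinγ : ∀ a, aeval (X a) lin = γ a := by
    intro a
    simp only [lin, map_sum, map_mul, aeval_C, aeval_X, γ]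
    apply Finset.sum_congr rfl
    intro p _
    rw [Algebra.smul_def]
  -- the bad values
  let bad : Set K := (⋃ a : J, {(γ a).coeff 0}) ∪
    ⋃ a : J, ⋃ b : J, (fun s : Kˣ => evU s (γ a)) '' {s : Kˣ | a ≠ b ∧
      pt (X a) s ∈ Set.range (pt (X b))}
  have hbad : bad.Finite := by
    apply Set.Finite.union
    · exact Set.finite_iUnion fun a => Set.finite_singleton _
    · refine Set.finite_iUnion fun a => Set.finite_iUnion fun b => ?_
      apply Set.Finite.image
      by_cases hab : a = b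
      · refine Set.Finite.subset (Set.finite_empty) ?_
        rintro s ⟨h, -⟩
        exact absurd hab h
      · exact (inter_finite (X a) (X b) (hX b) (hne a b hab)).subset fun s hs => hs.2
  obtain ⟨z, hz⟩ := hbad.infinite_compl.nonempty
  -- the points
  have hroot : ∀ a, ∃ s : Kˣ, evU s (γ a) = z := by
    intro a
    by_contra hno
    push Not at hno
    have h1 : γ a - algebraMap K K[T;T⁻¹] z ≠ 0 := by
      intro h
      exact hγ a ⟨z, (sub_eq_zero.mp h).symm⟩
    obtain ⟨u, n, hu, hun⟩ := laurent_unit _ h1 (by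
      intro s hs
      rw [map_sub, AlgHom.commutes, sub_eq_zero] at hs
      exact hno s hs)
    have hn : n ≠ 0 := by
      rintro rfl
      rw [LaurentPolynomial.T_zero, mul_one] at hun
      apply hγ a
      refine ⟨u + z, ?_⟩
      rw [map_add]
      exact (sub_eq_iff_eq_add.mp hun).symm
    have h2 : γ a = AddMonoidAlgebra.single n u + algebraMap K K[T;T⁻¹] z := by
      rw [LaurentPolynomial.single_eq_C_mul_T]
      exact sub_eq_iff_eq_add.mp hun
    have h3 : (γ a).coeff 0 = z := by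
      rw [h2, AddMonoidAlgebra.coeff_add, Finsupp.add_apply, AddMonoidAlgebra.coeff_single,
        Finsupp.single_apply, if_neg hn, zero_add, coeff_algebraMap_zero]
    apply hz
    left
    rw [Set.mem_iUnion]
    exact ⟨a, h3.symm⟩
  choose s hs using hroot
  let q : J → ι → K := fun a => pt (X a) (s a)
  have hqlin : ∀ a, eval (q a) lin = z := by
    intro a
    rw [eval_pt, hlinγ, hs]
  have hqb : ∀ a b, a ≠ b → q a ∉ Set.range (pt (X b)) := by
    intro a b hab hmem
    apply hz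
    right
    rw [Set.mem_iUnion]
    refine ⟨a, ?_⟩
    rw [Set.mem_iUnion]
    exact ⟨b, s a, ⟨hab, hmem⟩, hs a⟩
  have hqinj : Function.Injective q := by
    intro a b hab
    by_contra hne'
    exact hqb a b hne' (hab ▸ ⟨s b, rfl⟩)
  -- Bezout
  have hdeg : ∀ f ∈ insert (lin - C z) F, f.totalDegree ≤ D := by
    intro f hf
    rcases Set.mem_insert_iff.mp hf with rfl | hf
    · refine (totalDegree_sub _ _).trans (max_le ?_ ?_)
      · refine (totalDegree_finsetSum _ _).trans (Finset.sup_le fun p _ => ?_)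
        refine (totalDegree_mul _ _).trans ?_
        rw [totalDegree_C, totalDegree_X]
        omega
      · rw [totalDegree_C]
        omega
    · exact hF f hf
  have key := Bez.bezout D (insert (lin - C z) F) hdeg (Finset.univ.image q) (by
    intro q' hq'
    obtain ⟨a, -, rfl⟩ := Finset.mem_image.mp hq'
    have hzero : ∀ x : ι → K, (∀ f ∈ insert (lin - C z) F, eval x f = 0) ↔
        eval x lin = z ∧ ∀ f ∈ F, eval x f = 0 := by
      intro x
      constructor
      · intro h
        refine ⟨?_, fun f hf => h f (Set.mem_insert_of_mem _ hf)⟩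
        have := h _ (Set.mem_insert _ _)
        rw [map_sub, eval_C, sub_eq_zero] at this
        exact this
      · rintro ⟨h1, h2⟩ f hf
        rcases Set.mem_insert_iff.mp hf with rfl | hf
        · rw [map_sub, eval_C, h1, sub_self]
        · exact h2 f hf
    refine ⟨(hzero _).mpr ⟨hqlin a, (hXF a (s a)).1⟩, ?_⟩
    -- the other points of the curve in the hyperplane
    have hfin : {t : Kˣ | evU t (γ a) = z}.Finite := by
      have h1 : γ a - algebraMap K K[T;T⁻¹] z ≠ 0 := by
        intro h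
        exact hγ a ⟨z, (sub_eq_zero.mp h).symm⟩
      refine (finite_roots _ h1).subset ?_
      intro t ht
      rw [Set.mem_ofPred_eq, map_sub, AlgHom.commutes, sub_eq_zero]
      exact ht
    let R : Finset (ι → K) := (hfin.toFinset.image (pt (X a))).erase (q a) ∪ E
    obtain ⟨g, hg, hgx⟩ := sep_all (Finset.univ.erase a) X hX I R (q a) (hXF a (s a)).2 (by
      intro h
      rcases Finset.mem_union.mp h with h | h
      · exact Finset.notMem_erase _ _ h
      · exact hEX _ h a ⟨s a, rfl⟩) (by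
      intro b hb
      exact hqb a b (Finset.ne_of_mem_erase hb).symm)
    refine ⟨g, hg, fun x hx hxg => ?_⟩
    obtain ⟨h1, h2, h3⟩ := hgx x hxg
    obtain ⟨h4, h5⟩ := (hzero x).mp hx
    rcases hcov x h5 h1 with h6 | ⟨b, hb⟩
    · exact absurd (Finset.mem_union_right _ h6) h2
    · by_cases hba : b = a
      · subst hba
        obtain ⟨t, rfl⟩ := hb
        by_contra hne'
        apply h2
        apply Finset.mem_union_left
        rw [Finset.mem_erase]
        refine ⟨hne', Finset.mem_image.mpr ⟨t, ?_, rfl⟩⟩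
        rw [Set.Finite.mem_toFinset, Set.mem_ofPred_eq, ← hlinγ, ← eval_pt]
        exact h4
      · exact absurd hb (h3 b (Finset.mem_erase.mpr ⟨hba, Finset.mem_univ b⟩)))
  rwa [Finset.card_image_of_injective _ hqinj, Finset.card_univ] at key

end count

/-- countably many sets which contain infinitely many points of every infinite subset of `Y`:
finitely many of them cover `Y` up to a finite set. -/
theorem finite_cover {α I : Type*} [Countable I] (Y : Set α) (O : I → Set α)
    (h : ∀ S ⊆ Y, S.Infinite → ∃ i, (S ∩ O i).Infinite) :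
    ∃ F : Finset I, (Y \ ⋃ i ∈ F, O i).Finite := by
  classical
  rcases isEmpty_or_nonempty I with hI | hI
  · refine ⟨∅, ?_⟩
    by_contra hinf
    have h1 : Y.Infinite := by
      intro hY
      exact hinf (hY.subset Set.sdiff_subset)
    obtain ⟨i, -⟩ := h Y subset_rfl h1
    exact hI.elim i
  obtain ⟨f, hf⟩ := exists_surjective_nat I
  by_contra hno
  push Not at hno
  -- a sequence
  have h2 : ∃ u : ℕ → α, (∀ n, u n ∈ Y) ∧ (∀ n k, k < n → u n ∉ O (f k)) ∧
      ∀ n k, k < n → u k ≠ u n := by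
    obtain ⟨v, hv1, hv2⟩ := exists_seq_of_forall_finset_exists
      (fun x : ℕ × α => x.2 ∈ Y ∧ ∀ k < x.1, x.2 ∉ O (f k))
      (fun x y => x.1 < y.1 ∧ x.2 ≠ y.2) (by
        intro s hs
        obtain ⟨m, hm⟩ : ∃ m : ℕ, ∀ x ∈ s, x.1 < m := by
          refine ⟨s.sup Prod.fst + 1, fun x hx => ?_⟩
          exact Nat.lt_succ_of_le (Finset.le_sup (f := Prod.fst) hx)
        have h3 : (Y \ ⋃ i ∈ (Finset.range m).image f, O i).Infinite :=
          hno ((Finset.range m).image f)
        obtain ⟨y, hy, hys⟩ := h3.exists_notMem_finset (s.image Prod.snd)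
        refine ⟨(m, y), ⟨hy.1, fun k hk hyk => hy.2 ?_⟩, fun x hx => ⟨hm x hx, ?_⟩⟩
        · rw [Set.mem_iUnion₂]
          exact ⟨f k, Finset.mem_image.mpr ⟨k, Finset.mem_range.mpr hk, rfl⟩, hyk⟩
        · intro hxy
          apply hys
          have hxy' : x.2 = y := hxy
          rw [← hxy']
          exact Finset.mem_image.mpr ⟨x, hx, rfl⟩)
    have hmono : ∀ n, n ≤ (v n).1 := by
      intro n
      induction n with
      | zero => exact Nat.zero_le _
      | succ n ih => exact Nat.succ_le_of_lt (lt_of_le_of_lt ih (hv2 n (n + 1) (Nat.lt_succ_self n)).1)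
    refine ⟨fun n => (v n).2, fun n => (hv1 n).1, fun n k hk => ?_, fun n k hk => (hv2 k n hk).2⟩
    exact (hv1 n).2 k (lt_of_lt_of_le hk (hmono n))
  obtain ⟨u, hu1, hu2, hu3⟩ := h2
  have huinj : Function.Injective u := by
    intro a b hab
    rcases lt_trichotomy a b with h | h | h
    · exact absurd hab (hu3 b a h)
    · exact h
    · exact absurd hab.symm (hu3 a b h)
  obtain ⟨i, hi⟩ := h (Set.range u) (by rintro _ ⟨n, rfl⟩; exact hu1 n)
    (Set.infinite_range_of_injective huinj)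
  obtain ⟨k, rfl⟩ := hf i
  apply hi
  refine ((Finset.range (k + 1)).image u).finite_toSet.subset ?_
  rintro _ ⟨⟨n, rfl⟩, hn⟩
  rw [Finset.mem_coe, Finset.mem_image]
  refine ⟨n, ?_, rfl⟩
  rw [Finset.mem_range]
  by_contra hlt
  exact hu2 n k (by omega) hn

end Pool.Agent.Zk18
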