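import Pool.Agent.Zk18.Fd8
import Pool.Agent.Zk18.Bez
import Pool.Agent.Zk18.Str

/-!
# The number of the irreducible components
-/

set_option autoImplicit false
set_option linter.unusedSectionVars false

attribute [-instance] HahnSeries.powerSeriesAlgebra

namespace Pool.Agent.Zk18.Cmp

open Pool.Agent.Zk18 Pool.Agent.Zk18.Md Pool.Agent.Zk18.Fd Pool.Agent.Zk18.Bez

/-- a maximal algebraically independent subset -/
theorem exists_max {K E ι : Type} [Field K] [Field E] [Algebra K E] [Fintype ι] [DecidableEq ι]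
    (x : ι → E) :
    ∃ S : Finset ι, AlgebraicIndepOn K x (S : Set ι) ∧ ∀ t, x t ∈ KK K (x '' (S : Set ι)) := by
  classical
  obtain ⟨S, hS, hmax⟩ := Finset.exists_max_image
    ((Finset.univ : Finset (Finset ι)).filter fun S : Finset ι =>
      AlgebraicIndepOn K x (S : Set ι)) (fun S : Finset ι => S.card) ⟨∅, by
      rw [Finset.mem_filter]
      refine ⟨Finset.mem_univ _, ?_⟩
      rw [Finset.coe_empty]
      exact algebraicIndependent_empty_type⟩
  rw [Finset.mem_filter] at hS
  refine ⟨S, hS.2, fun t => ?_⟩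
  by_cases ht : t ∈ S
  · exact mem_KK_of_mem ⟨t, ht, rfl⟩
  · rw [mem_KK, AlgebraicIndependent.matroid_closure_eq, SetLike.mem_coe,
      Subalgebra.mem_algebraicClosure]
    by_contra hno
    have h1 : AlgebraicIndepOn K x (insert t (S : Set ι)) := by
      rw [AlgebraicIndepOn.insert_iff (by simpa using ht)]
      exact ⟨hS.2, hno⟩
    have h2 := hmax (insert t S) (by
      rw [Finset.mem_filter, Finset.coe_insert]
      exact ⟨Finset.mem_univ _, h1⟩)
    rw [Finset.card_insert_of_notMem ht] at h2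
    omega

/-- an algebraic relation -/
theorem exists_relation' {K E σ : Type} [Field K] [Field E] [Algebra K E] (y : σ → E) (z : E)
    (hz : z ∈ KK K (Set.range y)) :
    ∃ P : Polynomial (MvPolynomial σ K),
      P.map ((MvPolynomial.aeval y : MvPolynomial σ K →ₐ[K] E) : MvPolynomial σ K →+* E) ≠ 0 ∧
      (P.map ((MvPolynomial.aeval y : MvPolynomial σ K →ₐ[K] E) :
        MvPolynomial σ K →+* E)).eval z = 0 := by
  classical
  rw [mem_KK, AlgebraicIndependent.matroid_closure_eq, SetLike.mem_coe,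
    Subalgebra.mem_algebraicClosure] at hz
  obtain ⟨p, hp, hpz⟩ := hz
  have hsurj : ∀ a : Algebra.adjoin K (Set.range y), ∃ q : MvPolynomial σ K,
      MvPolynomial.aeval y q = (a : E) := by
    intro a
    have h0 : ∀ x : E, x ∈ Algebra.adjoin K (Set.range y) →
        ∃ q : MvPolynomial σ K, MvPolynomial.aeval y q = x := by
      intro x hx
      rw [Algebra.adjoin_range_eq_range_aeval] at hx
      exact hx
    exact h0 _ a.2
  choose q hq using hsurj
  let P : Polynomial (MvPolynomial σ K) :=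
    ∑ k ∈ Finset.range (p.natDegree + 1), Polynomial.monomial k (q (p.coeff k))
  have hP : P.map ((MvPolynomial.aeval y : MvPolynomial σ K →ₐ[K] E) :
      MvPolynomial σ K →+* E) = p.map (algebraMap (Algebra.adjoin K (Set.range y)) E) := by
    have h1 : p = ∑ k ∈ Finset.range (p.natDegree + 1), Polynomial.monomial k (p.coeff k) :=
      p.as_sum_range
    conv_rhs => rw [h1]
    rw [Polynomial.map_sum, Polynomial.map_sum]
    apply Finset.sum_congr rfl
    intro k _
    rw [Polynomial.map_monomial, Polynomial.map_monomial]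
    congr 1
    exact hq _
  refine ⟨P, ?_, ?_⟩
  · rw [hP, Ne, Polynomial.map_eq_zero_iff]
    · exact hp
    · exact Subtype.val_injective
  · rw [hP, Polynomial.eval_map_algebraMap]
    exact hpz

/-- an element with a relation over the valuation ring whose leading coefficient is a unit -/
theorem mem_of_relation {E : Type} [Field E] (O : ValuationSubring E) (p : Polynomial O)
    (hu : IsUnit p.leadingCoeff) (α : E) (h : Polynomial.aeval α p = 0) : α ∈ O := by
  classical
  obtain ⟨u, hu⟩ := hu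
  let p' : Polynomial O := Polynomial.C ((u⁻¹ : Oˣ) : O) * p
  have hp' : p'.Monic := by
    rw [Polynomial.Monic, Polynomial.leadingCoeff_mul, Polynomial.leadingCoeff_C, ← hu,
      Units.inv_mul]
  have h1 : IsIntegral O α := ⟨p', hp', by
    rw [← Polynomial.aeval_def, map_mul, h, mul_zero]⟩
  obtain ⟨y, hy⟩ := IsIntegrallyClosed.isIntegral_iff.mp h1
  rw [← hy]
  exact y.2

section

variable {K ι : Type} [Field K] [IsAlgClosed K] [Fintype ι] [DecidableEq ι]

/-- the value of a polynomial in the parameters and one more variable -/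
noncomputable def spu {σ : Type} (u : σ → K) (q : Polynomial (MvPolynomial σ K)) : Polynomial K :=
  q.map (MvPolynomial.eval u)

/-- **A point over `u`.** -/
theorem exists_point {E : Type} [Field E] [Algebra K E] (x : ι → E) (S : Finset ι)
    (hS : AlgebraicIndepOn K x (S : Set ι))
    (q : ι → Polynomial (MvPolynomial (S : Set ι) K))
    (hq0 : ∀ t, q t ≠ 0)
    (hq : ∀ t, ((q t).map ((MvPolynomial.aeval (fun s : (S : Set ι) => x s) :
      MvPolynomial (S : Set ι) K →ₐ[K] E) : MvPolynomial (S : Set ι) K →+* E)).eval (x t) = 0)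
    (f : MvPolynomial ι K) (hf : MvPolynomial.aeval x f ≠ 0)
    (r : Polynomial (MvPolynomial (S : Set ι) K)) (hr0 : r ≠ 0)
    (hr : (r.map ((MvPolynomial.aeval (fun s : (S : Set ι) => x s) :
      MvPolynomial (S : Set ι) K →ₐ[K] E) : MvPolynomial (S : Set ι) K →+* E)).eval
        (MvPolynomial.aeval x f)⁻¹ = 0)
    (u : ((S : Set ι) : Type) → K) (hqu : ∀ t, MvPolynomial.eval u (q t).leadingCoeff ≠ 0)
    (hru : MvPolynomial.eval u r.leadingCoeff ≠ 0) :
    ∃ p : ι → K, (∀ s : (S : Set ι), p s = u s) ∧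
      (∀ g : MvPolynomial ι K, MvPolynomial.aeval x g = 0 → MvPolynomial.eval p g = 0) ∧
      MvPolynomial.eval p f ≠ 0 := by
  classical
  let B := MvPolynomial (S : Set ι) K
  let ψ : B →+* E := ((MvPolynomial.aeval (fun s : (S : Set ι) => x s) :
      MvPolynomial (S : Set ι) K →ₐ[K] E) : MvPolynomial (S : Set ι) K →+* E)
  have hψ : Function.Injective ψ := hS
  let 𝔪 : Ideal B := RingHom.ker (MvPolynomial.eval u)
  have h𝔪 : 𝔪.IsPrime := RingHom.ker_isPrime _
  have hunit : ∀ z : 𝔪.primeCompl, IsUnit (ψ z) := by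
    intro z
    apply IsUnit.mk0
    intro h0
    apply z.2
    have h1 : (z : B) = 0 := hψ (h0.trans (map_zero ψ).symm)
    rw [h1]
    exact 𝔪.zero_mem
  let ψl : Localization.AtPrime 𝔪 →+* E := IsLocalization.lift hunit
  have hψl : ∀ z, ψl (algebraMap _ _ z) = ψ z := fun z => IsLocalization.lift_eq hunit z
  obtain ⟨O, hO, hloc⟩ := IsLocalRing.exists_factor_valuationRing ψl
  let ρ : B →+* O := (ψl.codRestrict O.toSubring hO).comp (algebraMap _ _)
  have hρ : ∀ z, ((ρ z : O) : E) = ψ z := fun z => hψl z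
  have hρu : ∀ z, MvPolynomial.eval u z ≠ 0 → IsUnit (ρ z) := by
    intro z hz
    have h1 : IsUnit (algebraMap B (Localization.AtPrime 𝔪) z) :=
      (IsLocalization.AtPrime.isUnit_to_map_iff (Localization.AtPrime 𝔪) 𝔪 z).mpr hz
    exact h1.map (ψl.codRestrict O.toSubring hO)
  have hρ𝔪 : ∀ z, MvPolynomial.eval u z = 0 → IsLocalRing.residue O (ρ z) = 0 := by
    intro z hz
    rw [IsLocalRing.residue_eq_zero_iff, IsLocalRing.mem_maximalIdeal, mem_nonunits_iff]
    intro hu
    have h1 : IsUnit (algebraMap B (Localization.AtPrime 𝔪) z) := hloc.map_nonunit _ hu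
    have h2 := (IsLocalization.AtPrime.isUnit_to_map_iff (Localization.AtPrime 𝔪) 𝔪 z).mp h1
    exact h2 hz
  let κ := IsLocalRing.ResidueField O
  let ρK : K →+* κ := (IsLocalRing.residue O).comp (ρ.comp MvPolynomial.C)
  let _ : Algebra K κ := ρK.toAlgebra
  have hres : ∀ z, IsLocalRing.residue O (ρ z) = algebraMap K κ (MvPolynomial.eval u z) := by
    intro z
    have h1 := hρ𝔪 (z - MvPolynomial.C (MvPolynomial.eval u z)) (by
      rw [map_sub, MvPolynomial.eval_C, sub_self])
    rw [map_sub, map_sub, sub_eq_zero] at h1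
    exact h1
  -- relations give integrality
  have hint : ∀ (α : E) (q : Polynomial B), q ≠ 0 → (q.map ψ).eval α = 0 →
      MvPolynomial.eval u q.leadingCoeff ≠ 0 → α ∈ O := by
    intro α q hq0 hq hqu
    have h1 : (q.map ρ).leadingCoeff = ρ q.leadingCoeff := by
      apply Polynomial.leadingCoeff_map_of_leadingCoeff_ne_zero
      exact (hρu _ hqu).ne_zero
    refine mem_of_relation O (q.map ρ) (by
      rw [h1]
      exact hρu _ hqu) α ?_
    rw [Polynomial.aeval_def, ← hq, Polynomial.eval₂_map, Polynomial.eval_map]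
    congr 1
    ext z
    · exact hρ _
    · exact hρ _
  have hxO : ∀ t, x t ∈ O := fun t => hint _ _ (hq0 t) (hq t) (hqu t)
  have hfO : (MvPolynomial.aeval x f)⁻¹ ∈ O := hint _ _ hr0 hr hru
  let xO : ι → O := fun t => ⟨x t, hxO t⟩
  -- the residues
  have hξ : ∀ t, ∃ c : K, algebraMap K κ c = IsLocalRing.residue O (xO t) := by
    intro t
    by_contra hno
    have htr : Transcendental K (IsLocalRing.residue O (xO t)) := transcendental_of_not_mem
      (fun ⟨c, hc⟩ => hno ⟨c, hc⟩)
    rw [transcendental_iff] at htr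
    have h1 := htr ((q t).map (MvPolynomial.eval u)) (by
      rw [Polynomial.aeval_def, Polynomial.eval₂_map]
      have h2 : Polynomial.eval₂ ρ (xO t) (q t) = 0 := by
        apply Subtype.ext
        have h3 := Polynomial.hom_eval₂ (q t) ρ O.subtype (xO t)
        refine Eq.trans h3 ?_
        have h4 := hq t
        rw [Polynomial.eval_map] at h4
        refine Eq.trans ?_ h4
        congr 1
        ext z
        · exact hρ _
        · exact hρ _
      have h3 := congrArg (IsLocalRing.residue O) h2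
      rw [map_zero, Polynomial.hom_eval₂] at h3
      rw [← h3]
      congr 1
      ext z
      · exact (hres _).symm
      · exact (hres _).symm)
    have h2 := congrArg (fun p => Polynomial.coeff p (q t).natDegree) h1
    simp only [Polynomial.coeff_map, Polynomial.coeff_zero] at h2
    exact hqu t h2
  choose p hp using hξ
  have hval : ∀ g : MvPolynomial ι K, ∃ gO : O, (gO : E) = MvPolynomial.aeval x g ∧
      IsLocalRing.residue O gO = algebraMap K κ (MvPolynomial.eval p g) := by
    intro g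
    refine ⟨MvPolynomial.eval₂ (ρ.comp MvPolynomial.C) xO g, ?_, ?_⟩
    · have h1 := MvPolynomial.eval₂_comp_left O.subtype (ρ.comp MvPolynomial.C) xO g
      refine Eq.trans h1 ?_
      rw [MvPolynomial.aeval_def]
      congr 1
      ext c
      have h2 := hρ (MvPolynomial.C c)
      refine Eq.trans h2 ?_
      change MvPolynomial.aeval _ _ = _
      rw [MvPolynomial.aeval_C]
    · rw [MvPolynomial.eval₂_comp_left]
      have h2 := MvPolynomial.eval₂_comp_left (algebraMap K κ) (RingHom.id K) p g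
      rw [MvPolynomial.eval, MvPolynomial.coe_eval₂Hom, h2]
      congr 1
      funext t
      exact (hp t).symm
  refine ⟨p, fun s => ?_, fun g hg => ?_, ?_⟩
  · apply (algebraMap K κ).injective
    rw [hp]
    have h1 : xO s = ρ (MvPolynomial.X s) := by
      apply Subtype.ext
      rw [hρ]
      change x s = MvPolynomial.aeval _ _
      rw [MvPolynomial.aeval_X]
    rw [h1, hres, MvPolynomial.eval_X]
  · obtain ⟨gO, h1, h2⟩ := hval g
    have h3 : gO = 0 := Subtype.ext (h1.trans hg)
    rw [h3, map_zero] at h2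
    exact (map_eq_zero_iff _ (algebraMap K κ).injective).mp h2.symm
  · intro h0
    obtain ⟨gO, h1, h2⟩ := hval f
    rw [h0, map_zero] at h2
    have h3 : gO * ⟨_, hfO⟩ = 1 := by
      apply Subtype.ext
      change (gO : E) * (MvPolynomial.aeval x f)⁻¹ = 1
      rw [h1, mul_inv_cancel₀ hf]
    have h4 := congrArg (IsLocalRing.residue O) h3
    rw [map_mul, h2, zero_mul, map_one] at h4
    exact zero_ne_one h4

/-- a common nonzero value -/
theorem exists_value {σ : Type} [Infinite K] {J : Type*} (B : Finset J)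
    (h : J → MvPolynomial σ K) (hh : ∀ a ∈ B, h a ≠ 0) :
    ∃ u : σ → K, ∀ a ∈ B, MvPolynomial.eval u (h a) ≠ 0 := by
  classical
  have h1 : ∏ a ∈ B, h a ≠ 0 := Finset.prod_ne_zero_iff.mpr hh
  by_contra hno
  push Not at hno
  apply h1
  apply MvPolynomial.funext
  intro u
  obtain ⟨a, ha, hau⟩ := hno u
  rw [map_prod, map_zero]
  exact Finset.prod_eq_zero ha hau

/-- the data of a prime ideal -/
theorem exists_data (𝔭 : Ideal (MvPolynomial ι K)) (h𝔭 : 𝔭.IsPrime) (f : MvPolynomial ι K)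
    (hf : f ∉ 𝔭) :
    ∃ (S : Finset ι) (q : ι → Polynomial (MvPolynomial (S : Set ι) K))
      (h : MvPolynomial (S : Set ι) K), h ≠ 0 ∧
      (∀ t, q t ≠ 0) ∧
      (∀ t (p : ι → K), (∀ g ∈ 𝔭, MvPolynomial.eval p g = 0) →
        ((q t).map (MvPolynomial.eval (fun s : (S : Set ι) => p s))).eval (p t) = 0) ∧
      (∀ u : ((S : Set ι) : Type) → K, MvPolynomial.eval u h ≠ 0 →
        (∀ t, MvPolynomial.eval u (q t).leadingCoeff ≠ 0) ∧
        ∃ p : ι → K, (∀ s : (S : Set ι), p s = u s) ∧
          (∀ g ∈ 𝔭, MvPolynomial.eval p g = 0) ∧ MvPolynomial.eval p f ≠ 0) := by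
  classical
  let R := MvPolynomial ι K
  let A := R ⧸ 𝔭
  let E := FractionRing A
  let x : ι → E := fun t => algebraMap A E (Ideal.Quotient.mk 𝔭 (MvPolynomial.X t))
  have hx : ∀ g : R, MvPolynomial.aeval x g = algebraMap A E (Ideal.Quotient.mk 𝔭 g) := by
    intro g
    have h1 : (MvPolynomial.aeval x : R →ₐ[K] E) =
        (IsScalarTower.toAlgHom K A E).comp (Ideal.Quotient.mkₐ K 𝔭) := by
      apply MvPolynomial.algHom_ext
      intro t
      rw [MvPolynomial.aeval_X]
      rfl
    rw [h1]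
    rfl
  have hx0 : ∀ g : R, MvPolynomial.aeval x g = 0 ↔ g ∈ 𝔭 := by
    intro g
    rw [hx, map_eq_zero_iff _ (IsFractionRing.injective A E), Ideal.Quotient.eq_zero_iff_mem]
  obtain ⟨S, hS, hmax⟩ := exists_max (K := K) x
  have hall : ∀ g : R, MvPolynomial.aeval x g ∈ KK K (x '' (S : Set ι)) := by
    intro g
    have h1 : MvPolynomial.aeval x g ∈ Algebra.adjoin K (Set.range x) := by
      rw [Algebra.adjoin_range_eq_range_aeval]
      exact ⟨g, rfl⟩
    have h2 : Algebra.adjoin K (Set.range x) ≤ (KK K (x '' (S : Set ι))).toSubalgebra := by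
      rw [Algebra.adjoin_le_iff]
      rintro _ ⟨t, rfl⟩
      exact hmax t
    exact h2 h1
  have hrange : x '' (S : Set ι) = Set.range (fun s : (S : Set ι) => x s) := by
    ext z
    constructor
    · rintro ⟨s, hs, rfl⟩
      exact ⟨⟨s, hs⟩, rfl⟩
    · rintro ⟨s, rfl⟩
      exact ⟨s, s.2, rfl⟩
  rw [hrange] at hmax hall
  have h1 := fun t => exists_relation' (K := K) (fun s : (S : Set ι) => x s) (x t) (hmax t)
  choose q hq0 hq using h1
  obtain ⟨r, hr0, hr⟩ := exists_relation' (K := K) (fun s : (S : Set ι) => x s)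
    (MvPolynomial.aeval x f)⁻¹ (IntermediateField.inv_mem _ (hall f))
  have hq0' : ∀ t, q t ≠ 0 := by
    intro t h0
    apply hq0 t
    rw [h0, Polynomial.map_zero]
  have hr0' : r ≠ 0 := by
    intro h0
    apply hr0
    rw [h0, Polynomial.map_zero]
  refine ⟨S, q, (∏ t, (q t).leadingCoeff) * r.leadingCoeff, ?_, hq0', ?_, ?_⟩
  · refine mul_ne_zero (Finset.prod_ne_zero_iff.mpr fun t _ => ?_) ?_
    · exact Polynomial.leadingCoeff_ne_zero.mpr (hq0' t)
    · exact Polynomial.leadingCoeff_ne_zero.mpr hr0'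
  · intro t p hp
    let g : R := (q t).eval₂ ((MvPolynomial.rename (fun s : (S : Set ι) => (s : ι)) :
      MvPolynomial (S : Set ι) K →ₐ[K] R) : MvPolynomial (S : Set ι) K →+* R) (MvPolynomial.X t)
    have hg : g ∈ 𝔭 := by
      rw [← hx0]
      have h2 := Polynomial.hom_eval₂ (q t) ((MvPolynomial.rename (fun s : (S : Set ι) => (s : ι)) :
        MvPolynomial (S : Set ι) K →ₐ[K] R) : MvPolynomial (S : Set ι) K →+* R)
        ((MvPolynomial.aeval x : R →ₐ[K] E) : R →+* E) (MvPolynomial.X t)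
      refine Eq.trans h2 ?_
      have h3 := hq t
      rw [Polynomial.eval_map] at h3
      refine Eq.trans ?_ h3
      congr 1
      · apply MvPolynomial.ringHom_ext
        · intro c
          rw [RingHom.comp_apply]
          change MvPolynomial.aeval x (MvPolynomial.rename _ (MvPolynomial.C c)) =
            MvPolynomial.aeval _ (MvPolynomial.C c)
          rw [MvPolynomial.rename_C, MvPolynomial.aeval_C, MvPolynomial.aeval_C]
        · intro s
          rw [RingHom.comp_apply]
          change MvPolynomial.aeval x (MvPolynomial.rename _ (MvPolynomial.X s)) =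
            MvPolynomial.aeval _ (MvPolynomial.X s)
          rw [MvPolynomial.rename_X, MvPolynomial.aeval_X, MvPolynomial.aeval_X]
      · exact MvPolynomial.aeval_X x t
    have h2 := hp g hg
    have h3 := Polynomial.hom_eval₂ (q t) ((MvPolynomial.rename (fun s : (S : Set ι) => (s : ι)) :
        MvPolynomial (S : Set ι) K →ₐ[K] R) : MvPolynomial (S : Set ι) K →+* R)
        (MvPolynomial.eval p) (MvPolynomial.X t)
    rw [Polynomial.eval_map]
    refine Eq.trans ?_ (h3.symm.trans h2)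
    congr 1
    · apply MvPolynomial.ringHom_ext
      · intro c
        rw [RingHom.comp_apply]
        change MvPolynomial.eval _ (MvPolynomial.C c) =
          MvPolynomial.eval p (MvPolynomial.rename _ (MvPolynomial.C c))
        rw [MvPolynomial.rename_C, MvPolynomial.eval_C, MvPolynomial.eval_C]
      · intro s
        rw [RingHom.comp_apply]
        change MvPolynomial.eval _ (MvPolynomial.X s) =
          MvPolynomial.eval p (MvPolynomial.rename _ (MvPolynomial.X s))
        rw [MvPolynomial.rename_X, MvPolynomial.eval_X, MvPolynomial.eval_X]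
    · exact (MvPolynomial.eval_X t).symm
  · intro u hu
    rw [map_mul, map_prod] at hu
    have hu1 : ∀ t, MvPolynomial.eval u (q t).leadingCoeff ≠ 0 := fun t =>
      (Finset.prod_ne_zero_iff.mp (left_ne_zero_of_mul hu)) t (Finset.mem_univ t)
    refine ⟨hu1, ?_⟩
    obtain ⟨p, hp1, hp2, hp3⟩ := exists_point x S hS q hq0' hq f (fun h0 => hf ((hx0 f).mp h0))
      r hr0' hr u hu1 (right_ne_zero_of_mul hu)
    exact ⟨p, hp1, fun g hg => hp2 g ((hx0 g).mpr hg), hp3⟩

/-- **The number of the irreducible components.** -/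
theorem count_minimalPrimes (D : ℕ) (hD : 1 ≤ D) (F : Set (MvPolynomial ι K))
    (hF : ∀ f ∈ F, f.totalDegree ≤ D) (Q : Finset (Ideal (MvPolynomial ι K)))
    (hQ : ∀ 𝔭 ∈ Q, 𝔭 ∈ (Ideal.span F).minimalPrimes) :
    Q.card ≤ (2 * D) ^ Fintype.card ι := by
  classical
  have hinf : Infinite K := IsAlgClosed.instInfinite
  have hfin : (Ideal.span F).minimalPrimes.Finite :=
    Ideal.finite_minimalPrimes_of_isNoetherianRing _ _
  have hprime : ∀ 𝔭 ∈ Q, 𝔭.IsPrime := fun 𝔭 h => (hQ 𝔭 h).1.1
  -- separation of the components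
  have hsep : ∀ 𝔭 : Ideal (MvPolynomial ι K), ∃ f : MvPolynomial ι K, 𝔭 ∈ Q → f ∉ 𝔭 ∧
      ∀ 𝔭' ∈ (Ideal.span F).minimalPrimes, 𝔭' ≠ 𝔭 → f ∈ 𝔭' := by
    intro 𝔭
    by_cases h𝔭 : 𝔭 ∈ Q
    · have hp := hprime 𝔭 h𝔭
      have h1 : ∀ 𝔭' : Ideal (MvPolynomial ι K), ∃ g : MvPolynomial ι K,
          𝔭' ∈ (Ideal.span F).minimalPrimes → 𝔭' ≠ 𝔭 → g ∈ 𝔭' ∧ g ∉ 𝔭 := by
        intro 𝔭'
        by_cases h : 𝔭' ∈ (Ideal.span F).minimalPrimes ∧ 𝔭' ≠ 𝔭
        · have h2 : ¬ 𝔭' ≤ 𝔭 := by
            intro hle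
            exact h.2 (le_antisymm hle ((hQ 𝔭 h𝔭).2 h.1.1 hle))
          obtain ⟨g, hg1, hg2⟩ := SetLike.not_le_iff_exists.mp h2
          exact ⟨g, fun _ _ => ⟨hg1, hg2⟩⟩
        · exact ⟨0, fun h1 h2 => absurd ⟨h1, h2⟩ h⟩
      choose g hg using h1
      refine ⟨∏ 𝔭' ∈ hfin.toFinset.erase 𝔭, g 𝔭', fun _ => ⟨?_, ?_⟩⟩
      · intro hmem
        obtain ⟨𝔭', h2, h3⟩ := (Ideal.IsPrime.prod_mem_iff (p := 𝔭)).mp hmem
        rw [Finset.mem_erase, Set.Finite.mem_toFinset] at h2
        exact (hg 𝔭' h2.2 h2.1).2 h3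
      · intro 𝔭' h2 h3
        exact Ideal.mem_of_dvd _ (Finset.dvd_prod_of_mem g (Finset.mem_erase.mpr
          ⟨h3, hfin.mem_toFinset.mpr h2⟩)) (hg 𝔭' h2 h3).1
    · exact ⟨0, fun h => absurd h h𝔭⟩
  choose f hf using hsep
  have hdata : ∀ 𝔭 : Ideal (MvPolynomial ι K), ∃ (S : Finset ι)
      (q : ι → Polynomial (MvPolynomial (S : Set ι) K)) (h : MvPolynomial (S : Set ι) K),
      𝔭 ∈ Q → h ≠ 0 ∧ (∀ t, q t ≠ 0) ∧
      (∀ t (p : ι → K), (∀ g ∈ 𝔭, MvPolynomial.eval p g = 0) →
        ((q t).map (MvPolynomial.eval (fun s : (S : Set ι) => p s))).eval (p t) = 0) ∧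
      (∀ u : ((S : Set ι) : Type) → K, MvPolynomial.eval u h ≠ 0 →
        (∀ t, MvPolynomial.eval u (q t).leadingCoeff ≠ 0) ∧
        ∃ p : ι → K, (∀ s : (S : Set ι), p s = u s) ∧
          (∀ g ∈ 𝔭, MvPolynomial.eval p g = 0) ∧ MvPolynomial.eval p (f 𝔭) ≠ 0) := by
    intro 𝔭
    by_cases h𝔭 : 𝔭 ∈ Q
    · obtain ⟨S, q, h, h1⟩ := exists_data 𝔭 (hprime 𝔭 h𝔭) (f 𝔭) (hf 𝔭 h𝔭).1
      exact ⟨S, q, h, fun _ => h1⟩
    · exact ⟨∅, fun _ => 0, 0, fun h => absurd h h𝔭⟩
  choose S q h hqh using hdata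
  -- the components with given `S`
  have hone : ∀ T : Finset ι, (Q.filter fun 𝔭 => S 𝔭 = T).card ≤ D ^ Fintype.card ι := by
    intro T
    -- the value of the parameters
    obtain ⟨u, hu⟩ : ∃ u : ((T : Set ι) : Type) → K, ∀ 𝔭 (hT : S 𝔭 = T), 𝔭 ∈ Q →
        MvPolynomial.eval (fun s : (S 𝔭 : Set ι) => u ⟨s, by
          have := s.2
          rw [← hT]
          exact this⟩) (h 𝔭) ≠ 0 := by
      obtain ⟨u, hu⟩ := exists_value (σ := ι) (Q.filter fun 𝔭 => S 𝔭 = T)
        (fun 𝔭 => MvPolynomial.rename (fun s : (S 𝔭 : Set ι) => (s : ι)) (h 𝔭)) (by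
          intro 𝔭 h𝔭 h0
          rw [Finset.mem_filter] at h𝔭
          apply (hqh 𝔭 h𝔭.1).1
          apply MvPolynomial.rename_injective _ Subtype.val_injective
          rw [h0, map_zero])
      refine ⟨fun s => u s, fun 𝔭 hT h𝔭 => ?_⟩
      have h1 := hu 𝔭 (Finset.mem_filter.mpr ⟨h𝔭, hT⟩)
      rw [MvPolynomial.eval_rename] at h1
      exact h1
    have hpt : ∀ 𝔭 : Ideal (MvPolynomial ι K), ∃ p : ι → K, 𝔭 ∈ Q → S 𝔭 = T →
        (∀ s : (T : Set ι), p s = u s) ∧ (∀ g ∈ 𝔭, MvPolynomial.eval p g = 0) ∧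
        MvPolynomial.eval p (f 𝔭) ≠ 0 := by
      intro 𝔭
      by_cases h𝔭 : 𝔭 ∈ Q ∧ S 𝔭 = T
      · obtain ⟨p, hp1, hp2, hp3⟩ := ((hqh 𝔭 h𝔭.1).2.2.2 _ (hu 𝔭 h𝔭.2 h𝔭.1)).2
        refine ⟨p, fun _ _ => ⟨fun s => ?_, hp2, hp3⟩⟩
        exact hp1 ⟨s, by
          have := s.2
          rw [h𝔭.2]
          exact this⟩
      · exact ⟨0, fun h1 h2 => absurd ⟨h1, h2⟩ h𝔭⟩
    choose p hp using hpt
    have hinj : Set.InjOn p ((Q.filter fun 𝔭 => S 𝔭 = T : Finset _) : Set _) := by
      intro 𝔭 h𝔭 𝔭' h𝔭' heq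
      rw [Finset.mem_coe, Finset.mem_filter] at h𝔭 h𝔭'
      by_contra hne
      have h1 := (hf 𝔭 h𝔭.1).2 𝔭' (hQ 𝔭' h𝔭'.1) (fun h => hne h.symm)
      have h2 := (hp 𝔭' h𝔭'.1 h𝔭'.2).2.1 _ h1
      rw [← heq] at h2
      exact (hp 𝔭 h𝔭.1 h𝔭.2).2.2 h2
    rw [← Finset.card_image_of_injOn hinj]
    let F' : Set (MvPolynomial ι K) := F ∪ Set.range fun s : (T : Set ι) =>
      (MvPolynomial.X (s : ι) - MvPolynomial.C (u s) : MvPolynomial ι K)
    apply bezout D F'
    · rintro g (hg | ⟨s, rfl⟩)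
      · exact hF g hg
      · refine le_trans ?_ hD
        refine (MvPolynomial.totalDegree_sub _ _).trans (max_le ?_ ?_)
        · rw [MvPolynomial.totalDegree_X]
        · rw [MvPolynomial.totalDegree_C]
          exact Nat.zero_le _
    · intro p' hp'
      rw [Finset.mem_image] at hp'
      obtain ⟨𝔭, h𝔭, rfl⟩ := hp'
      rw [Finset.mem_filter] at h𝔭
      obtain ⟨hp1, hp2, hp3⟩ := hp 𝔭 h𝔭.1 h𝔭.2
      refine ⟨?_, ?_⟩
      · rintro g (hg | ⟨s, rfl⟩)
        · exact hp2 g ((hQ 𝔭 h𝔭.1).1.2 (Ideal.subset_span hg))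
        · rw [map_sub, MvPolynomial.eval_X, MvPolynomial.eval_C, hp1, sub_self]
      · -- the fibre is finite
        have hmemV : ∀ y : ι → K, (∀ g ∈ F', MvPolynomial.eval y g = 0) →
            MvPolynomial.eval y (f 𝔭) ≠ 0 → (∀ g ∈ 𝔭, MvPolynomial.eval y g = 0) := by
          intro y hy hyf
          have hle : Ideal.span F ≤ mI y := by
            rw [Ideal.span_le]
            intro g hg
            exact (mem_mI _ _).mpr (hy g (Or.inl hg))
          have hyp : (mI y).IsPrime := RingHom.ker_isPrime _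
          obtain ⟨𝔭', h𝔭', hle'⟩ := Ideal.exists_minimalPrimes_le hle
          have h1 : 𝔭' = 𝔭 := by
            by_contra hne
            exact hyf ((mem_mI _ _).mp (hle' ((hf 𝔭 h𝔭.1).2 𝔭' h𝔭' hne)))
          intro g hg
          rw [← h1] at hg
          exact (mem_mI _ _).mp (hle' hg)
        have hfinY : {y : ι → K | (∀ g ∈ F', MvPolynomial.eval y g = 0) ∧
            MvPolynomial.eval y (f 𝔭) ≠ 0}.Finite := by
          have h1 : {y : ι → K | (∀ g ∈ F', MvPolynomial.eval y g = 0) ∧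
              MvPolynomial.eval y (f 𝔭) ≠ 0} ⊆ Set.pi Set.univ (fun t =>
                (((q 𝔭 t).map (MvPolynomial.eval (fun s : (S 𝔭 : Set ι) => u ⟨s, by
                  have := s.2
                  rw [← h𝔭.2]
                  exact this⟩))).roots.toFinset : Set K)) := by
            rintro y ⟨hy1, hy2⟩ t -
            rw [Finset.mem_coe, Multiset.mem_toFinset, Polynomial.mem_roots']
            refine ⟨?_, ?_⟩
            · intro h0
              have h2 := congrArg (fun p => Polynomial.coeff p (q 𝔭 t).natDegree) h0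
              simp only [Polynomial.coeff_map, Polynomial.coeff_zero] at h2
              exact ((hqh 𝔭 h𝔭.1).2.2.2 _ (hu 𝔭 h𝔭.2 h𝔭.1)).1 t h2
            · have h2 := (hqh 𝔭 h𝔭.1).2.2.1 t y (hmemV y hy1 hy2)
              rw [Polynomial.IsRoot.def, ← h2]
              congr 3
              funext s
              have h3 : (s : ι) ∈ T := by
                have := s.2
                rw [← h𝔭.2]
                exact this
              have h4 := hy1 _ (Or.inr ⟨⟨s, h3⟩, rfl⟩)
              rw [map_sub, MvPolynomial.eval_X, MvPolynomial.eval_C, sub_eq_zero] at h4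
              exact h4.symm
          exact (Set.Finite.pi' fun t => Finset.finite_toSet _).subset (by
            intro y hy t
            exact h1 hy t (Set.mem_univ t))
        obtain ⟨g, hg1, hg2⟩ := sep_finite (hfinY.toFinset.erase (p 𝔭)) (p 𝔭)
          (Finset.notMem_erase _ _)
        refine ⟨f 𝔭 * g, ?_, ?_⟩
        · rw [map_mul]
          exact mul_ne_zero hp3 hg1
        · intro y hy hyg
          rw [map_mul] at hyg
          by_contra hne
          apply right_ne_zero_of_mul hyg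
          apply hg2
          rw [Finset.mem_erase, Set.Finite.mem_toFinset]
          exact ⟨hne, hy, left_ne_zero_of_mul hyg⟩
  calc Q.card = ∑ T : Finset ι, (Q.filter fun 𝔭 => S 𝔭 = T).card :=
        Finset.card_eq_sum_card_fiberwise (fun _ _ => Finset.mem_coe.mpr (Finset.mem_univ _))
    _ ≤ ∑ _T : Finset ι, D ^ Fintype.card ι := Finset.sum_le_sum fun T _ => hone T
    _ = (2 * D) ^ Fintype.card ι := by
        rw [Finset.sum_const, Finset.card_univ, Fintype.card_finset, smul_eq_mul, mul_pow]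

end

end Pool.Agent.Zk18.Cmp
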