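import Pool.Agent.Zk18.Lur

/-!
# The conductor of a birational Laurent point
-/

set_option autoImplicit false

namespace Pool.Agent.Zk18

open Polynomial
open scoped LaurentPolynomial IntermediateField

variable {K : Type*} [Field K]

/-- a relation giving integrality -/
theorem isIntegral_of_rel {C : Type*} [CommRing C] [Nontrivial C] [Algebra K C] (B : Subalgebra K C) {h x : C}
    (hB : h ∈ B) (p : K[X]) (n : ℕ) (hn : n < p.natDegree) (hp : aeval x p = h * x ^ n) :
    IsIntegral B x := by
  have hlc : p.leadingCoeff ≠ 0 := by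
    rw [Ne, leadingCoeff_eq_zero]
    rintro rfl
    simp at hn
  set p' : K[X] := Polynomial.C p.leadingCoeff⁻¹ * p with hp'
  have hmon : p'.Monic := by
    rw [hp', mul_comm]
    exact monic_mul_leadingCoeff_inv (fun h => hlc (by rw [h, leadingCoeff_zero]))
  have hdeg : p'.natDegree = p.natDegree := natDegree_C_mul (inv_ne_zero hlc)
  refine ⟨p'.map (algebraMap K B) -
    Polynomial.C (p.leadingCoeff⁻¹ • ⟨h, hB⟩ : B) * Polynomial.X ^ n, ?_, ?_⟩
  · apply (hmon.map (algebraMap K B)).sub_of_left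
    refine (degree_C_mul_X_pow_le n _).trans_lt ?_
    rw [hmon.degree_map, degree_eq_natDegree hmon.ne_zero, hdeg]
    exact_mod_cast hn
  · rw [← aeval_def, map_sub, aeval_map_algebraMap, hp', map_mul, aeval_C, hp, map_mul, aeval_C,
      map_pow, aeval_X]
    change algebraMap K C p.leadingCoeff⁻¹ * (h * x ^ n) - (p.leadingCoeff⁻¹ • h) * x ^ n = 0
    rw [Algebra.smul_def]
    ring

theorem exists_rel (h : K[T;T⁻¹])
    (hn : LaurentPolynomial.invert h ∉ Set.range (Polynomial.toLaurent (R := K))) :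
    ∃ (p : K[X]) (n : ℕ), n < p.natDegree ∧
      Polynomial.toLaurent p = h * LaurentPolynomial.T 1 ^ n := by
  obtain ⟨n, p, rfl⟩ := iL_exists h
  refine ⟨p, n, ?_, ?_⟩
  · by_contra hle
    push Not at hle
    apply hn
    refine ⟨p.reverse * Polynomial.X ^ (n - p.natDegree), ?_⟩
    rw [map_mul, LaurentPolynomial.toLaurent_reverse, map_pow, Polynomial.toLaurent_X,
      LaurentPolynomial.T_pow, map_mul, LaurentPolynomial.invert_T, mul_assoc,
      ← LaurentPolynomial.T_add]
    congr 2
    push_cast [Nat.cast_sub hle]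
    ring
  · rw [LaurentPolynomial.T_pow, mul_assoc, ← LaurentPolynomial.T_add]
    simp

theorem toLaurent_eq_aeval (p : K[X]) :
    Polynomial.toLaurent p = aeval (LaurentPolynomial.T 1 : K[T;T⁻¹]) p := by
  have h1 : (Polynomial.toLaurentAlg : K[X] →ₐ[K] K[T;T⁻¹]) = aeval (LaurentPolynomial.T 1) := by
    ext
    simp
  have h2 := congrArg (fun φ : K[X] →ₐ[K] K[T;T⁻¹] => φ p) h1
  exact h2

theorem isIntegral_T (B : Subalgebra K K[T;T⁻¹]) {h : K[T;T⁻¹]} (hB : h ∈ B)
    (hn : LaurentPolynomial.invert h ∉ Set.range (Polynomial.toLaurent (R := K)))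
    (hp : h ∉ Set.range (Polynomial.toLaurent (R := K))) :
    IsIntegral B (LaurentPolynomial.T 1 : K[T;T⁻¹]) ∧
    IsIntegral B (LaurentPolynomial.T (-1) : K[T;T⁻¹]) := by
  constructor
  · obtain ⟨p, n, hlt, hpn⟩ := exists_rel h hn
    exact isIntegral_of_rel B hB p n hlt (by rw [← toLaurent_eq_aeval, hpn])
  · obtain ⟨p, n, hlt, hpn⟩ := exists_rel (LaurentPolynomial.invert h) (by
      rwa [LaurentPolynomial.involutive_invert h])
    refine isIntegral_of_rel B hB p n hlt ?_
    have h1 := congrArg (LaurentPolynomial.invert (R := K)) hpn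
    rw [map_mul, LaurentPolynomial.involutive_invert h, map_pow, LaurentPolynomial.invert_T,
      toLaurent_eq_aeval] at h1
    rw [← h1]
    have h2 := aeval_algHom_apply (LaurentPolynomial.invert : K[T;T⁻¹] ≃ₐ[K] K[T;T⁻¹])
      (LaurentPolynomial.T 1) p
    rw [LaurentPolynomial.invert_T] at h2
    exact h2

/-- `K[T;T⁻¹]` is a finite module over a large subalgebra. -/
theorem finite_laurent (B : Subalgebra K K[T;T⁻¹]) {h : K[T;T⁻¹]} (hB : h ∈ B)
    (hn : LaurentPolynomial.invert h ∉ Set.range (Polynomial.toLaurent (R := K)))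
    (hp : h ∉ Set.range (Polynomial.toLaurent (R := K))) : Module.Finite B K[T;T⁻¹] := by
  obtain ⟨h1, h2⟩ := isIntegral_T B hB hn hp
  have : Algebra.FiniteType K K[T;T⁻¹] :=
    inferInstanceAs (Algebra.FiniteType K (AddMonoidAlgebra K ℤ))
  have : Algebra.FiniteType B K[T;T⁻¹] := Algebra.FiniteType.of_restrictScalars_finiteType K B _
  have : Algebra.IsIntegral B K[T;T⁻¹] := by
    constructor
    intro x
    have hT : ∀ n : ℤ, IsIntegral B (LaurentPolynomial.T n : K[T;T⁻¹]) := by
      intro n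
      rcases le_total 0 n with hn | hn
      · obtain ⟨k, rfl⟩ := Int.eq_ofNat_of_zero_le hn
        have := h1.pow k
        rw [LaurentPolynomial.T_pow, mul_one] at this
        exact this
      · obtain ⟨k, hk⟩ := Int.eq_ofNat_of_zero_le (neg_nonneg.mpr hn)
        have := h2.pow k
        rw [LaurentPolynomial.T_pow] at this
        have h3 : n = (k : ℤ) * -1 := by rw [← hk]; ring
        rw [h3]
        exact this
    induction x using LaurentPolynomial.induction_on' with
    | add p q hp hq => exact hp.add hq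
    | C_mul_T n a =>
      refine IsIntegral.mul ?_ (hT n)
      exact isIntegral_algebraMap (R := B) (x := algebraMap K B a)
  exact Algebra.IsIntegral.finite

/-- **The conductor.** -/
theorem conductor {R : Type*} [CommRing R] [Algebra K R] (f : R →ₐ[K] K[T;T⁻¹]) (ω : R)
    (hn : LaurentPolynomial.invert (f ω) ∉ Set.range (Polynomial.toLaurent (R := K)))
    (hp : f ω ∉ Set.range (Polynomial.toLaurent (R := K)))
    (p q : R) (hq : f q ≠ 0) (hpq : f p = LaurentPolynomial.T 1 * f q) :
    ∃ s : ℤ → R, f (s 0) ≠ 0 ∧ ∀ k, f (s k) = LaurentPolynomial.T k * f (s 0) := by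
  classical
  have hfin := finite_laurent f.range (h := f ω) ⟨ω, rfl⟩ hn hp
  have hT : ∀ n : ℤ, f p = LaurentPolynomial.T 1 * f q := fun _ => hpq
  -- every element is multiplied into the image
  have hall : ∀ c : K[T;T⁻¹], ∃ (N : ℕ) (r : R), f r = f (p * q) ^ N * c := by
    intro c
    induction c using LaurentPolynomial.induction_on' with
    | add c d hc hd =>
      obtain ⟨N, r, hr⟩ := hc
      obtain ⟨M, r', hr'⟩ := hd
      refine ⟨N + M, (p * q) ^ M * r + (p * q) ^ N * r', ?_⟩
      rw [map_add, map_mul f ((p * q) ^ M), map_mul f ((p * q) ^ N), hr, hr', map_pow, map_pow]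
      ring
    | C_mul_T n a =>
      rcases le_total 0 n with hn | hn
      · obtain ⟨k, rfl⟩ := Int.eq_ofNat_of_zero_le hn
        refine ⟨k, algebraMap K R a * (p ^ k * p ^ k), ?_⟩
        have h1 : (LaurentPolynomial.T (k : ℤ) : K[T;T⁻¹]) = LaurentPolynomial.T 1 ^ k := by
          rw [LaurentPolynomial.T_pow, mul_one]
        have h2 : (LaurentPolynomial.C a : K[T;T⁻¹]) = algebraMap K K[T;T⁻¹] a := rfl
        rw [h1, h2]
        simp only [map_mul, map_pow, AlgHom.commutes, hpq, mul_pow]
        ring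
      · obtain ⟨k, hk⟩ := Int.eq_ofNat_of_zero_le (neg_nonneg.mpr hn)
        obtain rfl : n = -(k : ℤ) := by rw [← hk]; ring
        refine ⟨k, algebraMap K R a * (q ^ k * q ^ k), ?_⟩
        have h1 : (LaurentPolynomial.T 1 ^ k * LaurentPolynomial.T (-(k : ℤ)) : K[T;T⁻¹]) = 1 := by
          rw [LaurentPolynomial.T_pow, ← LaurentPolynomial.T_add, mul_one, add_neg_cancel,
            LaurentPolynomial.T_zero]
        have h2 : (LaurentPolynomial.C a : K[T;T⁻¹]) = algebraMap K K[T;T⁻¹] a := rfl
        rw [h2]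
        simp only [map_mul, map_pow, AlgHom.commutes, hpq, mul_pow]
        calc algebraMap K K[T;T⁻¹] a * (f q ^ k * f q ^ k)
            = algebraMap K K[T;T⁻¹] a * (f q ^ k * f q ^ k) *
              (LaurentPolynomial.T 1 ^ k * LaurentPolynomial.T (-(k : ℤ))) := by
              rw [h1, mul_one]
          _ = _ := by ring
  -- uniformly
  obtain ⟨G, hG⟩ := hfin.fg_top
  choose N r hr using hall
  set M := ∑ c ∈ G, N c with hM
  have hunif : ∀ c : K[T;T⁻¹], ∃ r : R, f r = f (p * q) ^ M * c := by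
    intro c
    have hc : c ∈ Submodule.span f.range (G : Set K[T;T⁻¹]) := by
      rw [hG]; exact Submodule.mem_top
    induction hc using Submodule.span_induction with
    | mem c hc =>
      have hle : N c ≤ M := Finset.single_le_sum (f := fun c => N c) (fun _ _ => Nat.zero_le _) hc
      refine ⟨(p * q) ^ (M - N c) * r c, ?_⟩
      rw [map_mul f ((p * q) ^ (M - N c)), map_pow, hr c, ← mul_assoc, ← pow_add,
        Nat.sub_add_cancel hle]
    | zero => exact ⟨0, by rw [map_zero, mul_zero]⟩
    | add c d _ _ hc hd =>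
      obtain ⟨a, ha⟩ := hc
      obtain ⟨b, hb⟩ := hd
      exact ⟨a + b, by rw [map_add, ha, hb, mul_add]⟩
    | smul x c _ hc =>
      obtain ⟨a, ha⟩ := hc
      obtain ⟨x, y, hy⟩ := x
      refine ⟨y * a, ?_⟩
      rw [map_mul, ha]
      have h1 : f y = x := hy
      rw [h1]
      change x * (f (p * q) ^ M * c) = f (p * q) ^ M * (x * c)
      ring
  choose s hs using fun k : ℤ => hunif (LaurentPolynomial.T k)
  have hs0 : f (s 0) = f (p * q) ^ M := by
    rw [hs 0, LaurentPolynomial.T_zero, mul_one]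
  have hnz : ∀ x : K[T;T⁻¹], (LaurentPolynomial.T 1 : K[T;T⁻¹]) * x ≠ 0 ↔ x ≠ 0 := by
    intro x
    rw [not_iff_not]
    exact (LaurentPolynomial.isUnit_T 1).mul_right_eq_zero
  refine ⟨s, ?_, fun k => ?_⟩
  · rw [hs0]
    apply pow_ne_zero
    rw [map_mul]
    apply mul_ne_zero _ hq
    rw [hpq]
    exact (hnz _).mpr hq
  · rw [hs k, hs0, mul_comm]

end Pool.Agent.Zk18
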