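import Pool.Agent.Zk18.Red
import Pool.Agent.Zk18.Bez

/-!
# Counting the points
-/

set_option autoImplicit false

attribute [-instance] HahnSeries.powerSeriesAlgebra

namespace Pool.Agent.Zk18.Md

open MvPolynomial

section subspaces

variable {K : Type*} [Field K]

theorem exists_mu [Infinite K] {J : Type*} [Finite J] (k : ℕ) :
    ∀ {W : Type*} [AddCommGroup W] [Module K W] [FiniteDimensional K W]
      (Λ : J → Submodule K W), (∀ p, Module.finrank K (Λ p) = k) →
      ∃ μ : W →ₗ[K] (Fin k → K), ∀ p, ∀ x ∈ Λ p, μ x = 0 → x = 0 := by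
  induction k with
  | zero =>
    intro W _ _ _ Λ hΛ
    refine ⟨0, fun p x hx _ => ?_⟩
    have h1 := Submodule.finrank_eq_zero.mp (hΛ p)
    rw [h1] at hx
    exact (Submodule.mem_bot K).mp hx
  | succ k ih =>
    intro W _ _ _ Λ hΛ
    obtain ⟨lam, -, hlam⟩ := Bez.exists_avoid (K := K) (⊤ : Submodule K (Module.Dual K W))
      (fun p => (Λ p).dualAnnihilator) (by
        intro p
        have h1 : Λ p ≠ ⊥ := by
          intro h
          have := hΛ p
          rw [h, finrank_bot] at this
          omega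
        obtain ⟨x, hx, hx0⟩ := Submodule.exists_mem_ne_zero_of_ne_bot h1
        obtain ⟨f, hf⟩ := Module.Projective.exists_dual_ne_zero K hx0
        refine ⟨f, Submodule.mem_top, fun h => hf ?_⟩
        exact (Submodule.mem_dualAnnihilator f).mp h x hx)
    have hrank : ∀ p, Module.finrank K ((Λ p) ⊓ (LinearMap.ker lam) : Submodule K W) = k := by
      intro p
      let f : Λ p →ₗ[K] K := lam.domRestrict (Λ p)
      have h1 : LinearMap.range f = ⊤ := by
        have h2 : ∃ x ∈ Λ p, lam x ≠ 0 := by
          by_contra hno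
          push Not at hno
          exact hlam p ((Submodule.mem_dualAnnihilator lam).mpr hno)
        obtain ⟨x, hx, hx0⟩ := h2
        rw [LinearMap.range_eq_top]
        intro c
        refine ⟨(c / lam x) • ⟨x, hx⟩, ?_⟩
        rw [map_smul]
        change (c / lam x) * lam x = c
        field_simp
      have h3 := LinearMap.finrank_range_add_finrank_ker f
      rw [h1, finrank_top, Module.finrank_self, hΛ p] at h3
      have h4 : (Λ p ⊓ LinearMap.ker lam : Submodule K W) = (LinearMap.ker f).map (Λ p).subtype := by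
        ext x
        rw [Submodule.mem_inf, Submodule.mem_map]
        constructor
        · rintro ⟨hx, hx'⟩
          exact ⟨⟨x, hx⟩, hx', rfl⟩
        · rintro ⟨y, hy, rfl⟩
          exact ⟨y.2, hy⟩
      rw [h4, Submodule.finrank_map_subtype_eq]
      omega
    obtain ⟨μ, hμ⟩ := ih (fun p => (Λ p) ⊓ (LinearMap.ker lam)) hrank
    let F : Fin (k + 1) → (W →ₗ[K] K) := Fin.cons lam (fun i => (LinearMap.proj i).comp μ)
    refine ⟨LinearMap.pi F, fun p x hx h0 => ?_⟩
    have h1 : lam x = 0 := congrFun h0 0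
    have h2 : μ x = 0 := by
      funext i
      have := congrFun h0 i.succ
      exact this
    exact hμ p x ⟨hx, h1⟩ h2

/-- the number of the subspaces of a given dimension in an algebraic set -/
theorem count_subspaces [IsAlgClosed K] {ι : Type*} [Fintype ι] (D : ℕ) (hD : 1 ≤ D)
    (Fs : Set (MvPolynomial ι K)) (hFs : ∀ f ∈ Fs, f.totalDegree ≤ D)
    (Mn : Set (MvPolynomial ι K)) {J : Type*} [Finite J]
    (Λ : J → Submodule K (ι → K)) (hdisj : ∀ p p', p ≠ p' → ∀ x, x ∈ Λ p → x ∈ Λ p' → x = 0)
    (hzero : ∀ p, ∀ x ∈ Λ p, ∀ f ∈ Fs, eval x f = 0)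
    (hMn : ∀ p, ∀ x ∈ Λ p, x ≠ 0 → ∃ g ∈ Mn, eval x g ≠ 0)
    (hcov : ∀ x, (∀ f ∈ Fs, eval x f = 0) → (∃ g ∈ Mn, eval x g ≠ 0) → ∃ p, x ∈ Λ p)
    (k : ℕ) (hk : 1 ≤ k) (T : Finset J) (hT : ∀ p ∈ T, Module.finrank K (Λ p) = k) :
    T.card ≤ D ^ Fintype.card ι := by
  classical
  have hinf : Infinite K := IsAlgClosed.instInfinite
  obtain ⟨μ, hμ⟩ := exists_mu k (fun p : T => Λ p) (fun p => hT p p.2)
  let e : Fin k → K := fun _ => 1
  have he : e ≠ 0 := by
    intro h
    have := congrFun h ⟨0, hk⟩
    exact one_ne_zero this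
  have hq : ∀ p : T, ∃ q ∈ Λ p, μ q = e := by
    intro p
    let f : Λ (p : J) →ₗ[K] (Fin k → K) := μ.domRestrict (Λ p)
    have hinj : Function.Injective f := by
      rw [injective_iff_map_eq_zero]
      intro x hx
      exact Subtype.ext (hμ p x x.2 hx)
    have hsurj : Function.Surjective f := by
      rw [← LinearMap.injective_iff_surjective_of_finrank_eq_finrank]
      · exact hinj
      · rw [hT p p.2, Module.finrank_fin_fun]
    obtain ⟨q, hq⟩ := hsurj e
    exact ⟨q, q.2, hq⟩
  choose q hqΛ hqe using hq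
  have hq0 : ∀ p, q p ≠ 0 := by
    intro p h
    apply he
    rw [← hqe p, h, map_zero]
  have hqinj : Function.Injective q := by
    intro p p' h
    by_contra hne
    apply hq0 p
    exact hdisj p p' (fun h' => hne (Subtype.ext h')) (q p) (hqΛ p) (h ▸ hqΛ p')
  -- the linear equations
  let lin : Fin k → MvPolynomial ι K := fun i =>
    (∑ j, C (μ (Pi.single j 1) i) * X j) - C (e i)
  have hlin : ∀ i x, eval x (lin i) = μ x i - e i := by
    intro i x
    simp only [lin, map_sub, map_sum, map_mul, eval_C, eval_X]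
    congr 1
    have h1 : x = ∑ j, x j • (Pi.single j 1 : ι → K) := by
      funext j
      simp [Finset.sum_apply, Pi.single_apply]
    conv_rhs => rw [h1]
    rw [map_sum, Finset.sum_apply]
    apply Finset.sum_congr rfl
    intro j _
    rw [map_smul, Pi.smul_apply, smul_eq_mul, mul_comm]
  have hdeg : ∀ f ∈ Fs ∪ Set.range lin, f.totalDegree ≤ D := by
    rintro f (hf | ⟨i, rfl⟩)
    · exact hFs f hf
    · refine (totalDegree_sub _ _).trans (max_le ?_ ?_)
      · refine (totalDegree_finsetSum _ _).trans (Finset.sup_le fun p _ => ?_)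
        refine (totalDegree_mul _ _).trans ?_
        rw [totalDegree_C, totalDegree_X]
        omega
      · rw [totalDegree_C]
        omega
  have hzl : ∀ x : ι → K, (∀ f ∈ Fs ∪ Set.range lin, eval x f = 0) ↔
      (∀ f ∈ Fs, eval x f = 0) ∧ μ x = e := by
    intro x
    constructor
    · intro h
      refine ⟨fun f hf => h f (Or.inl hf), funext fun i => ?_⟩
      have := h (lin i) (Or.inr ⟨i, rfl⟩)
      rw [hlin, sub_eq_zero] at this
      exact this
    · rintro ⟨h1, h2⟩ f (hf | ⟨i, rfl⟩)
      · exact h1 f hf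
      · rw [hlin, h2, sub_self]
  have hJ : Fintype J := Fintype.ofFinite J
  have key := Bez.bezout D (Fs ∪ Set.range lin) hdeg (Finset.univ.image q) (by
    intro q' hq'
    obtain ⟨p, -, rfl⟩ := Finset.mem_image.mp hq'
    refine ⟨(hzl _).mpr ⟨hzero p _ (hqΛ p), hqe p⟩, ?_⟩
    obtain ⟨g₀, hg₀, hg₀q⟩ := hMn p (q p) (hqΛ p) (hq0 p)
    have h1 : ∀ p' : J, ∃ g : MvPolynomial ι K, p' ≠ p → (∀ x ∈ Λ p', eval x g = 0) ∧
        eval (q p) g ≠ 0 := by
      intro p'
      by_cases hp' : p' = p
      · exact ⟨0, fun h => absurd hp' h⟩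
      · have h2 : q p ∉ Λ p' := by
          intro h
          exact hq0 p (hdisj p' p hp' _ h (hqΛ p))
        obtain ⟨f, hf0, hf⟩ := Submodule.exists_dual_map_eq_bot_of_notMem h2 inferInstance
        refine ⟨∑ j, C (f (Pi.single j 1)) * X j, fun _ => ?_⟩
        have h3 : ∀ x : ι → K, eval x (∑ j, C (f (Pi.single j 1)) * X j) = f x := by
          intro x
          simp only [map_sum, map_mul, eval_C, eval_X]
          have h1 : x = ∑ j, x j • (Pi.single j 1 : ι → K) := by
            funext j
            simp [Finset.sum_apply, Pi.single_apply]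
          conv_rhs => rw [h1]
          rw [map_sum]
          apply Finset.sum_congr rfl
          intro j _
          rw [map_smul, smul_eq_mul, mul_comm]
        refine ⟨fun x hx => ?_, ?_⟩
        · rw [h3]
          have h4 : f x ∈ (Λ p').map f := ⟨x, hx, rfl⟩
          rw [hf] at h4
          exact (Submodule.mem_bot K).mp h4
        · rw [h3]
          exact hf0
    choose g hg using h1
    refine ⟨g₀ * ∏ p' ∈ Finset.univ.erase (p : J), g p', ?_, fun x hx hxg => ?_⟩
    · rw [map_mul, map_prod]
      refine mul_ne_zero hg₀q ?_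
      rw [Finset.prod_ne_zero_iff]
      intro p' hp'
      exact (hg p' (Finset.ne_of_mem_erase hp')).2
    · rw [map_mul, map_prod] at hxg
      obtain ⟨h2, h3⟩ := (hzl x).mp hx
      obtain ⟨p', hp'⟩ := hcov x h2 ⟨g₀, hg₀, left_ne_zero_of_mul hxg⟩
      have h4 : p' = p := by
        by_contra hne
        have h5 := Finset.prod_ne_zero_iff.mp (right_ne_zero_of_mul hxg) p'
          (Finset.mem_erase.mpr ⟨hne, Finset.mem_univ p'⟩)
        exact h5 ((hg p' hne).1 x hp')
      subst h4
      have h5 : x - q p = 0 := by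
        apply hμ p
        · exact (Λ p).sub_mem hp' (hqΛ p)
        · rw [map_sub, h3, hqe, sub_self]
      exact sub_eq_zero.mp h5)
  rwa [Finset.card_image_of_injective _ hqinj, Finset.card_univ, Fintype.card_coe] at key

end subspaces

end Pool.Agent.Zk18.Md
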