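import Pool.Agent.Zk18.Crv

/-!
# The core theorem
-/

set_option autoImplicit false

attribute [-instance] HahnSeries.powerSeriesAlgebra

namespace Pool.Agent.Zk18

open HahnSeries Pool.Agent.Helper165.P1 TensorProduct
open scoped LaurentPolynomial

section pre

variable {K : Type} [Field K]

/-- evaluation of Laurent polynomials at a nonzero element of a field extension -/
noncomputable def evF {E : Type*} [Field E] [Algebra K E] (g : E) (hg : g ≠ 0) :
    K[T;T⁻¹] →ₐ[K] E :=
  { LaurentPolynomial.eval₂ (algebraMap K E) (Units.mk0 g hg) with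
    commutes' := fun k => by
      change LaurentPolynomial.eval₂ _ _ (algebraMap K K[T;T⁻¹] k) = _
      have : algebraMap K K[T;T⁻¹] k = LaurentPolynomial.C k := rfl
      rw [this, LaurentPolynomial.eval₂_C] }

theorem evF_T {E : Type*} [Field E] [Algebra K E] (g : E) (hg : g ≠ 0) (n : ℤ) :
    evF g hg (LaurentPolynomial.T n : K[T;T⁻¹]) = g ^ n := by
  change LaurentPolynomial.eval₂ _ _ (LaurentPolynomial.T n) = _
  rw [LaurentPolynomial.eval₂_T, Units.val_zpow_eq_zpow_val]
  rfl

theorem laurent_eq_sum (h : K[T;T⁻¹]) :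
    h = ∑ k ∈ h.coeff.support, algebraMap K K[T;T⁻¹] (h.coeff k) * LaurentPolynomial.T k := by
  have h1 : h = ∑ k ∈ h.coeff.support, AddMonoidAlgebra.single k (h.coeff k) := by
    ext n
    rw [AddMonoidAlgebra.coeff_sum, Finsupp.finsetSum_apply]
    simp only [AddMonoidAlgebra.coeff_single, Finsupp.single_apply]
    rw [Finset.sum_ite_eq']
    split_ifs with h
    · rfl
    · exact Finsupp.notMem_support_iff.mp h
  conv_lhs => rw [h1]
  apply Finset.sum_congr rfl
  intro k _
  rw [LaurentPolynomial.single_eq_C_mul_T]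
  rfl

theorem evF_eq_sum {E : Type*} [Field E] [Algebra K E] (g : E) (hg : g ≠ 0) (h : K[T;T⁻¹]) :
    evF g hg h = ∑ k ∈ h.coeff.support, algebraMap K E (h.coeff k) * g ^ k := by
  conv_lhs => rw [laurent_eq_sum h]
  rw [map_sum]
  apply Finset.sum_congr rfl
  intro k _
  rw [map_mul, AlgHom.commutes, evF_T]

theorem evF_injective {E : Type*} [Field E] [Algebra K E] (g : E) (hg : g ≠ 0)
    (htr : Transcendental K g) : Function.Injective (evF g hg : K[T;T⁻¹] →ₐ[K] E) := by
  rw [injective_iff_map_eq_zero]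
  intro γ h
  obtain ⟨n, p, rfl⟩ := iL_exists γ
  rw [map_mul, evF_T, mul_eq_zero] at h
  rcases h with h | h
  · have h1 : Polynomial.aeval g p = 0 := by
      rw [← h, toLaurent_eq_aeval, ← Polynomial.aeval_algHom_apply, evF_T, zpow_one]
    have h2 : p = 0 := (transcendental_iff.mp htr) p h1
    rw [h2, map_zero, zero_mul]
  · exact absurd h (zpow_ne_zero _ hg)

theorem linearIndependent_zpow {E : Type*} [Field E] [Algebra K E] (g : E)
    (htr : Transcendental K g) : LinearIndependent K (fun k : ℤ => g ^ k) := by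
  have hg : g ≠ 0 := by
    rintro rfl
    exact htr isAlgebraic_zero
  have h1 : LinearIndependent K (fun k : ℤ => (LaurentPolynomial.T k : K[T;T⁻¹])) := by
    rw [linearIndependent_iff']
    intro s c hc i hi
    have h2 := congrArg (fun z : K[T;T⁻¹] => z.coeff i) hc
    rw [AddMonoidAlgebra.coeff_sum, Finsupp.finsetSum_apply] at h2
    have h3 : ∀ k ∈ s, (c k • (LaurentPolynomial.T k : K[T;T⁻¹])).coeff i =
        if k = i then c i else 0 := by
      intro k _
      have h4 : (c k • (LaurentPolynomial.T k : K[T;T⁻¹])) = AddMonoidAlgebra.single k (c k) := by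
        rw [LaurentPolynomial.single_eq_C_mul_T, Algebra.smul_def]
        rfl
      rw [h4, AddMonoidAlgebra.coeff_single, Finsupp.single_apply]
      split_ifs with h
      · rw [h]
      · rfl
    rw [Finset.sum_congr rfl h3, Finset.sum_ite_eq', if_pos hi] at h2
    exact h2
  have h2 := h1.map' (evF g hg : K[T;T⁻¹] →ₐ[K] E).toLinearMap
    (LinearMap.ker_eq_bot.mpr (evF_injective g hg htr))
  have h3 : (fun k : ℤ => g ^ k) =
      ((evF g hg : K[T;T⁻¹] →ₐ[K] E).toLinearMap ∘ fun k => LaurentPolynomial.T k) := by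
    funext k
    exact (evF_T g hg k).symm
  rw [h3]
  exact h2

/-- coordinates in a tensor product -/
theorem extract {E L : Type} [AddCommGroup E] [Module K E] [Field L] [Algebra K L]
    (v : ℤ → E) (hv : LinearIndependent K v) {N : ℕ} (b : Fin N → L) (x : Fin N → E)
    (s : Finset ℤ) (c : ℤ → L) (h : ∑ j, x j ⊗ₜ[K] b j = ∑ k ∈ s, v k ⊗ₜ[K] c k) (k : ℤ)
    (hk : k ∈ s) : c k ∈ Submodule.span K (Set.range b) := by
  classical
  let φ : Submodule.span K (Set.range v) →ₗ[K] K := (Finsupp.lapply k).comp hv.repr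
  obtain ⟨l, hl⟩ := LinearMap.exists_extend φ
  have hlv : ∀ i, l (v i) = if i = k then 1 else 0 := by
    intro i
    have h1 : l (v i) = φ ⟨v i, Submodule.subset_span ⟨i, rfl⟩⟩ := by
      rw [← hl]; rfl
    rw [h1]
    change hv.repr ⟨v i, _⟩ k = _
    rw [hv.repr_eq_single i _ rfl, Finsupp.single_apply]
  have h2 := congrArg (fun z => TensorProduct.lid K L (LinearMap.rTensor L l z)) h
  simp only [map_sum, LinearMap.rTensor_tmul, TensorProduct.lid_tmul, hlv, ite_smul, one_smul,
    zero_smul] at h2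
  rw [Finset.sum_ite_eq', if_pos hk] at h2
  rw [← h2]
  exact Submodule.sum_mem _ fun j _ => Submodule.smul_mem _ _ (Submodule.subset_span ⟨j, rfl⟩)

theorem exists_functional {E L : Type} [AddCommGroup E] [Module K E] [Field L] [Algebra K L]
    (z : E ⊗[K] L) (hz : z ≠ 0) :
    ∃ μ : L →ₗ[K] K, TensorProduct.rid K E (LinearMap.lTensor E μ z) ≠ 0 := by
  classical
  let β := Module.Basis.ofVectorSpace K L
  obtain ⟨c, rfl⟩ := (TensorProduct.equivFinsuppOfBasisRight β).symm.surjective z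
  have hc : c ≠ 0 := by
    rintro rfl
    rw [map_zero] at hz
    exact hz rfl
  obtain ⟨m, hm⟩ := Finsupp.ne_iff.mp hc
  refine ⟨β.coord m, ?_⟩
  rw [TensorProduct.equivFinsuppOfBasisRight_symm_apply, Finsupp.sum, map_sum, map_sum]
  simp only [LinearMap.lTensor_tmul, TensorProduct.rid_tmul, Module.Basis.coord_apply,
    Module.Basis.repr_self]
  rw [Finset.sum_eq_single m]
  · rw [Finsupp.single_eq_same, one_smul]
    exact hm
  · intro m' _ hne
    rw [Finsupp.single_apply, if_neg hne, zero_smul]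
  · intro h
    exact absurd (Finsupp.notMem_support_iff.mp h) hm

end pre

section main

variable {K A L : Type} [Field K] [Countable K] [IsAlgClosed K] [CharZero K]
  [CommRing A] [IsDomain A] [Countable A] [Algebra K A] [Algebra.FiniteType K A]
  [Field L] [Algebra K L]

omit [Countable A] [Countable K] [IsAlgClosed K] [CharZero K] [IsDomain A]
  [Algebra.FiniteType K A] in
/-- the inclusion of a tensor product in a field of Laurent series -/
theorem exists_incl (φ₀ : A →+* HahnSeries ℤ K) (hφ₀ : ∀ k, φ₀ (algebraMap K A k) = C k)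
    (hinj : Function.Injective φ₀) :
    ∃ Ψ : A ⊗[K] L →ₐ[K] HahnSeries ℤ K ⊗[K] L, Function.Injective Ψ ∧
      ∀ a l, Ψ (a ⊗ₜ l) = φ₀ a ⊗ₜ l := by
  let f1 : A →ₐ[K] HahnSeries ℤ K :=
    { φ₀ with
      commutes' := by
        intro k
        change φ₀ (algebraMap K A k) = _
        rw [hφ₀, HahnSeries.algebraMap_apply]
        rfl }
  refine ⟨Algebra.TensorProduct.map f1 (AlgHom.id K L), ?_, fun a l => ?_⟩
  · have h1 := Module.Flat.rTensor_preserves_injective_linearMap (M := L) f1.toLinearMap hinj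
    exact h1
  · rw [Algebra.TensorProduct.map_tmul]
    rfl

/-- **The core theorem.** -/
theorem core [Countable L] {N : ℕ} (b : Fin (N + 1) → L) (hb : LinearIndependent K b)
    (hb0 : b 0 = 1) (x : Fin 2 → Fin (N + 1) → A) (P : MvPolynomial (Fin 2) K) (hP : P ≠ 0)
    (H1 : ∀ f : Fin 2 → Polynomial K, MvPolynomial.aeval f P = 0 →
      ∀ i, f i ∈ Set.range (algebraMap K (Polynomial K)))
    (hx : MvPolynomial.aeval (fun i => ∑ j, x i j ⊗ₜ[K] b j : Fin 2 → A ⊗[K] L) P = 0)
    (h1 : ∃ i j, j ≠ 0 ∧ x i j ≠ 0) (h2 : ∃ i j, x i j ∉ Set.range (algebraMap K A)) :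
    ∃ f : Fin 2 → K[T;T⁻¹], MvPolynomial.aeval f P = 0 ∧
      (∃ i, f i ∉ Set.range (algebraMap K K[T;T⁻¹])) ∧
      ∃ τ : L, τ ∉ Set.range (algebraMap K L) ∧
        (∀ i k, (f i).coeff k ≠ 0 → τ ^ k ∈ Submodule.span K (Set.range b)) ∧
        ∃ (a a' : A) (M : ℕ), a ≠ 0 ∧ a' ≠ 0 ∧
          (∀ i, ∀ k ∈ (f i).coeff.support, k.natAbs ≤ M) ∧
          ∀ i, ∑ j, (a ^ M * a' ^ M * x i j) ⊗ₜ[K] b j =
            ∑ k ∈ (f i).coeff.support, (a ^ (M + k).toNat * a' ^ (M - k).toNat) ⊗ₜ[K]
              ((f i).coeff k • τ ^ k) := by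
  classical
  set y : Fin 2 → A ⊗[K] L := fun i => ∑ j, x i j ⊗ₜ[K] b j with hy
  -- the ring
  let R : Subalgebra K (A ⊗[K] L) := (MvPolynomial.aeval y : MvPolynomial (Fin 2) K →ₐ[K] _).range
  have hyR : ∀ i, y i ∈ R := fun i => ⟨MvPolynomial.X i, MvPolynomial.aeval_X y i⟩
  let X : Fin 2 → R := fun i => ⟨y i, hyR i⟩
  have hXval : ∀ q : MvPolynomial (Fin 2) K,
      ((MvPolynomial.aeval X q : R) : A ⊗[K] L) = MvPolynomial.aeval y q := by
    intro q
    have h3 : (R.val.comp (MvPolynomial.aeval X)) = MvPolynomial.aeval y := by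
      ext i
      simp [X]
    exact congrArg (fun φ : MvPolynomial (Fin 2) K →ₐ[K] A ⊗[K] L => φ q) h3
  have hXP : MvPolynomial.aeval X P = 0 := by
    apply Subtype.ext
    rw [hXval, hx]
    rfl
  have hXsurj : ∀ r : R, ∃ q : MvPolynomial (Fin 2) K, MvPolynomial.aeval X q = r := by
    rintro ⟨r, q, hq⟩
    exact ⟨q, Subtype.ext ((hXval q).trans hq)⟩
  -- the arc
  obtain ⟨i₀, j₀, hj₀, hx₀⟩ := h1
  obtain ⟨i₁, j₁, hx₁⟩ := h2
  have hcE : Countable (FractionRing A) := by
    have : Function.Surjective (fun p : A × (nonZeroDivisors A) =>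
        IsLocalization.mk' (FractionRing A) p.1 p.2) := by
      intro z
      obtain ⟨a, s, h⟩ := IsLocalization.exists_mk'_eq (nonZeroDivisors A) z
      exact ⟨(a, s), h⟩
    exact this.countable
  have hz : algebraMap A (FractionRing A) (x i₁ j₁) ∉
      Set.range (algebraMap K (FractionRing A)) := by
    rintro ⟨k, hk⟩
    apply hx₁
    refine ⟨k, ?_⟩
    apply IsFractionRing.injective A (FractionRing A)
    rw [← hk, ← IsScalarTower.algebraMap_apply]
  obtain ⟨θA, -⟩ := arc _ hz
  obtain ⟨m, hm, φ₀, hφ₀, hφ₀C⟩ := exists_laurent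
    (θA.comp (IsScalarTower.toAlgHom K A (FractionRing A)))
  have hφinj : Function.Injective φ₀ := by
    intro a a' h
    have h3 := congrArg (eHom (E := K) m hm) h
    rw [hφ₀, hφ₀] at h3
    have h4 := θA.toRingHom.injective (Subtype.ext h3)
    exact IsFractionRing.injective A (FractionRing A) h4
  obtain ⟨Ψ, hΨinj, hΨ⟩ := exists_incl (L := L) φ₀ hφ₀C hφinj
  let G : R →ₐ[K] HahnSeries ℤ L := ((J K L).comp Ψ).comp R.val
  have hGinj : Function.Injective G :=
    J_injective.comp (hΨinj.comp Subtype.val_injective)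
  have hRdom : IsDomain R := hGinj.isDomain G.toRingHom
  have hKinf : Infinite K := IsAlgClosed.instInfinite
  -- the projection
  obtain ⟨l, hl1, hl2, hl3⟩ := exists_good P hP (x 0 j₀) (x 1 j₀) (x 0 j₁) (x 1 j₁)
    (by
      by_contra hno
      push Not at hno
      fin_cases i₀
      · exact hx₀ hno.1
      · exact hx₀ hno.2)
    (by
      by_contra hno
      push Not at hno
      fin_cases i₁
      · exact hx₁ hno.1
      · exact hx₁ hno.2)
  let ω : R := X 0 + l • X 1
  have hX2 : (![X 0, X 1] : Fin 2 → R) = X := by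
    funext i
    fin_cases i <;> rfl
  have hint1 : IsIntegral (Algebra.adjoin K {ω}) (X 1) :=
    isIntegral_of_topf P (X 0) (X 1) (by rw [hX2]; exact hXP) l hl1
  have hint0 : IsIntegral (Algebra.adjoin K {ω}) (X 0) := by
    have h3 : X 0 = ω - algebraMap K R l * X 1 := by
      simp only [ω, Algebra.smul_def]
      ring
    rw [h3]
    refine IsIntegral.sub ?_ (IsIntegral.mul ?_ hint1)
    · exact isIntegral_algebraMap (R := Algebra.adjoin K {ω})
        (x := ⟨ω, Algebra.self_mem_adjoin_singleton K ω⟩)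
    · exact isIntegral_algebraMap (R := Algebra.adjoin K {ω})
        (x := algebraMap K (Algebra.adjoin K {ω}) l)
  have hR : ∀ r : R, IsIntegral (Algebra.adjoin K {ω}) r := by
    intro r
    obtain ⟨q, rfl⟩ := hXsurj r
    induction q using MvPolynomial.induction_on with
    | C a =>
      rw [MvPolynomial.aeval_C]
      exact isIntegral_algebraMap (R := Algebra.adjoin K {ω})
        (x := algebraMap K (Algebra.adjoin K {ω}) a)
    | add p q hp hq => rw [map_add]; exact hp.add hq
    | mul_X p i hp =>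
      rw [map_mul, MvPolynomial.aeval_X]
      refine hp.mul ?_
      fin_cases i
      · exact hint0
      · exact hint1
  -- the Laurent point
  have hωval : R.val ω = ∑ j, (x 0 j + l • x 1 j) ⊗ₜ[K] b j := by
    change y 0 + l • y 1 = _
    simp only [hy]
    rw [Finset.smul_sum, ← Finset.sum_add_distrib]
    apply Finset.sum_congr rfl
    intro j _
    rw [TensorProduct.add_tmul, TensorProduct.smul_tmul']
  obtain ⟨f, hf, -⟩ := exists_laurent_point R.val ω hR b hb hb0 (fun j => x 0 j + l • x 1 j)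
    hωval ⟨j₀, hj₀, hl2⟩ ⟨j₁, hl3⟩
  have H1' : ∀ φ : R →ₐ[K] Polynomial K, φ ω ∈ Set.range (algebraMap K (Polynomial K)) := by
    intro φ
    have h3 : MvPolynomial.aeval (fun i => φ (X i)) P = 0 := by
      rw [← MvPolynomial.comp_aeval_apply, hXP, map_zero]
    obtain ⟨k0, hk0⟩ := H1 _ h3 0
    obtain ⟨k1, hk1⟩ := H1 _ h3 1
    refine ⟨k0 + l * k1, ?_⟩
    rw [map_add, map_mul, hk0, hk1]
    simp only [ω, map_add, Algebra.smul_def, map_mul, AlgHom.commutes]
  obtain ⟨f', hf'ω, -, p, q, hq, hpq⟩ := birational f ω hf H1'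
  -- injectivity
  have hf'inj : Function.Injective f' := by
    rw [injective_iff_map_eq_zero]
    intro r hr
    have hint : Algebra.IsIntegral (Algebra.adjoin K {ω}) R := ⟨hR⟩
    have hbot : RingHom.ker f'.toRingHom = ⊥ := by
      apply Ideal.eq_bot_of_comap_eq_bot (R := Algebra.adjoin K {ω})
      rw [eq_bot_iff]
      intro z hz
      rw [Ideal.mem_comap, RingHom.mem_ker] at hz
      obtain ⟨z, hzm⟩ := z
      rw [Algebra.adjoin_singleton_eq_range_aeval] at hzm
      obtain ⟨u, hu⟩ := hzm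
      have h3 : Polynomial.aeval (f' ω) u = 0 := by
        rw [Polynomial.aeval_algHom_apply]
        change f' z = 0 at hz
        rw [← hz, ← hu]
        rfl
      have h4 : Polynomial.aeval (iL (f' ω)) u = 0 := by
        rw [Polynomial.aeval_algHom_apply, h3, map_zero]
      have h5 := (transcendental_iff.mp (not_const_transcendental _ hf'ω)) u h4
      have h6 : z = 0 := by
        rw [← hu, h5]
        exact map_zero _
      rw [Ideal.mem_bot]
      exact Subtype.ext h6
    have h3 : r ∈ RingHom.ker f'.toRingHom := hr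
    rw [hbot] at h3
    exact h3
  -- the conductor
  have hnT := not_toLaurent f' ω hR H1' hf'ω
  have hnT' : LaurentPolynomial.invert (f' ω) ∉ Set.range (Polynomial.toLaurent (R := K)) := by
    refine not_toLaurent ((LaurentPolynomial.invert (R := K) : K[T;T⁻¹] →ₐ[K] K[T;T⁻¹]).comp f')
      ω hR H1' ?_
    rintro ⟨k, hk⟩
    apply hf'ω
    refine ⟨k, ?_⟩
    have h3 := congrArg (LaurentPolynomial.invert (R := K)) hk
    rw [AlgEquiv.commutes] at h3
    rw [h3]
    exact LaurentPolynomial.involutive_invert _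
  obtain ⟨s, hs0, hs⟩ := conductor f' ω hnT' hnT p q hq hpq
  -- the element `g`
  have hs0' : s 0 ≠ 0 := by
    rintro h
    rw [h, map_zero] at hs0
    exact hs0 rfl
  have hs1' : s 1 ≠ 0 := by
    intro h
    have h3 := hs 1
    rw [h, map_zero] at h3
    exact hs0 ((LaurentPolynomial.isUnit_T 1).mul_right_eq_zero.mp h3.symm)
  have hG0 : G (s 0) ≠ 0 := fun h => hs0' (hGinj (by rw [h, map_zero]))
  have hG1 : G (s 1) ≠ 0 := fun h => hs1' (hGinj (by rw [h, map_zero]))
  set g : HahnSeries ℤ L := G (s 1) / G (s 0) with hg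
  have hg0 : g ≠ 0 := div_ne_zero hG1 hG0
  have hgs : ∀ k : ℤ, G (s k) = g ^ k * G (s 0) := by
    intro k
    rcases le_total 0 k with hk | hk
    · obtain ⟨n, rfl⟩ := Int.eq_ofNat_of_zero_le hk
      have h3 : s n * s 0 ^ n = s 1 ^ n * s 0 := by
        apply hf'inj
        rw [map_mul, map_mul, map_pow, map_pow, hs n, hs 1, mul_pow, LaurentPolynomial.T_pow,
          mul_one]
        ring
      have h4 := congrArg G h3
      rw [map_mul, map_mul, map_pow, map_pow] at h4
      have h5 : (G (s 0)) ^ n ≠ 0 := pow_ne_zero _ hG0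
      apply mul_right_cancel₀ h5
      change G (s n) * G (s 0) ^ n = g ^ (n : ℤ) * G (s 0) * G (s 0) ^ n
      rw [h4, hg, zpow_natCast, div_pow]
      field_simp
    · obtain ⟨n, hn⟩ := Int.eq_ofNat_of_zero_le (neg_nonneg.mpr hk)
      obtain rfl : k = -(n : ℤ) := by rw [← hn]; ring
      have h3 : s (-(n : ℤ)) * s 1 ^ n = s 0 ^ n * s 0 := by
        apply hf'inj
        rw [map_mul, map_mul, map_pow, map_pow, hs (-(n : ℤ)), hs 1, mul_pow,
          LaurentPolynomial.T_pow, mul_one]
        calc LaurentPolynomial.T (-(n : ℤ)) * f' (s 0) * (LaurentPolynomial.T n * f' (s 0) ^ n)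
            = (LaurentPolynomial.T (-(n : ℤ)) * LaurentPolynomial.T n) *
              (f' (s 0) ^ n * f' (s 0)) := by ring
          _ = f' (s 0) ^ n * f' (s 0) := by
            rw [← LaurentPolynomial.T_add, neg_add_cancel, LaurentPolynomial.T_zero, one_mul]
      have h4 := congrArg G h3
      rw [map_mul, map_mul, map_pow, map_pow] at h4
      have h5 : (G (s 1)) ^ n ≠ 0 := pow_ne_zero _ hG1
      apply mul_right_cancel₀ h5
      rw [h4, hg, zpow_neg, zpow_natCast, div_pow]
      field_simp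
  obtain ⟨τ, κ, hτ0, hκ0, hgτ⟩ := ros g hg0 (Ψ (s 0)) hG0 (fun k => ⟨Ψ (s k), hgs k⟩)
  -- the parametrisation
  have hpar : ∀ r : R, G r = evF g hg0 (f' r) := by
    intro r
    have h3 : r * s 0 = ∑ k ∈ (f' r).coeff.support, algebraMap K R ((f' r).coeff k) * s k := by
      apply hf'inj
      rw [map_mul, map_sum]
      conv_lhs => rw [laurent_eq_sum (f' r)]
      rw [Finset.sum_mul]
      apply Finset.sum_congr rfl
      intro k _
      rw [map_mul, AlgHom.commutes, hs k, mul_assoc]
    have h4 := congrArg G h3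
    rw [map_mul, map_sum] at h4
    apply mul_right_cancel₀ hG0
    rw [h4, evF_eq_sum, Finset.sum_mul]
    apply Finset.sum_congr rfl
    intro k _
    rw [map_mul, AlgHom.commutes, hgs k, mul_assoc]
  have hmC : ∀ k : K, (mapZ (C k) : HahnSeries ℤ L) = algebraMap K (HahnSeries ℤ L) k := by
    intro k
    rw [mapZ_C, HahnSeries.algebraMap_apply]
  -- comparison of coefficients
  have hcomp : ∀ i, ∑ j, φ₀ (x i j) ⊗ₜ[K] b j =
      ∑ k ∈ (f' (X i)).coeff.support, (κ ^ k) ⊗ₜ[K] (((f' (X i)).coeff k) • τ ^ k) := by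
    intro i
    apply J_injective
    have h3 : J K L (∑ j, φ₀ (x i j) ⊗ₜ[K] b j) = G (X i) := by
      change _ = J K L (Ψ (y i))
      simp only [hy]
      rw [map_sum Ψ]
      congr 1
      apply Finset.sum_congr rfl
      intro j _
      rw [hΨ]
    rw [h3, hpar, evF_eq_sum, map_sum]
    apply Finset.sum_congr rfl
    intro k _
    rw [J_tmul, hgτ, mul_zpow, Algebra.smul_def, map_mul, HahnSeries.algebraMap_apply,
      map_zpow₀, map_zpow₀]
    ring
  -- the function `κ` on `Spec A`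
  have hΨs : Ψ (s 1 : A ⊗[K] L) = (κ ⊗ₜ[K] τ) * Ψ (s 0 : A ⊗[K] L) := by
    apply J_injective
    rw [map_mul, J_tmul, ← hgτ]
    have h3 := hgs 1
    rw [zpow_one] at h3
    exact h3
  have hz0 : ((1 : A) ⊗ₜ[K] τ) * (s 0 : A ⊗[K] L) ≠ 0 := by
    intro h
    have h3 : ((1 : A) ⊗ₜ[K] τ⁻¹) * (((1 : A) ⊗ₜ[K] τ) * (s 0 : A ⊗[K] L)) = (s 0 : A ⊗[K] L) := by
      rw [← mul_assoc, Algebra.TensorProduct.tmul_mul_tmul, mul_one, inv_mul_cancel₀ hτ0,
        ← Algebra.TensorProduct.one_def, one_mul]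
    rw [h, mul_zero] at h3
    exact hs0' (Subtype.ext h3.symm)
  obtain ⟨μ, hμ⟩ := exists_functional _ hz0
  have hμφ : ∀ z : A ⊗[K] L, φ₀ (TensorProduct.rid K A (LinearMap.lTensor A μ z)) =
      TensorProduct.rid K (HahnSeries ℤ K) (LinearMap.lTensor (HahnSeries ℤ K) μ (Ψ z)) := by
    intro z
    induction z using TensorProduct.induction_on with
    | zero => simp only [map_zero]
    | add z z' h h' => simp only [map_add, h, h']
    | tmul a l =>
      rw [hΨ, LinearMap.lTensor_tmul, TensorProduct.rid_tmul, LinearMap.lTensor_tmul,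
        TensorProduct.rid_tmul, Algebra.smul_def, map_mul, hφ₀C, Algebra.smul_def,
        HahnSeries.algebraMap_apply]
      rfl
  have hμκ : ∀ w : HahnSeries ℤ K ⊗[K] L,
      TensorProduct.rid K (HahnSeries ℤ K) (LinearMap.lTensor (HahnSeries ℤ K) μ
        ((κ ⊗ₜ[K] (1 : L)) * w)) =
      κ * TensorProduct.rid K (HahnSeries ℤ K) (LinearMap.lTensor (HahnSeries ℤ K) μ w) := by
    intro w
    induction w using TensorProduct.induction_on with
    | zero => simp only [map_zero, mul_zero]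
    | add z z' h h' => simp only [map_add, mul_add, h, h']
    | tmul a l =>
      rw [Algebra.TensorProduct.tmul_mul_tmul, one_mul, LinearMap.lTensor_tmul,
        TensorProduct.rid_tmul, LinearMap.lTensor_tmul, TensorProduct.rid_tmul,
        mul_smul_comm]
  set a' : A := TensorProduct.rid K A (LinearMap.lTensor A μ
    (((1 : A) ⊗ₜ[K] τ) * (s 0 : A ⊗[K] L))) with ha'
  set a : A := TensorProduct.rid K A (LinearMap.lTensor A μ (s 1 : A ⊗[K] L)) with ha
  have haκ : φ₀ a = κ * φ₀ a' := by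
    have h3 : Ψ (((1 : A) ⊗ₜ[K] τ) * (s 0 : A ⊗[K] L)) =
        ((1 : HahnSeries ℤ K) ⊗ₜ[K] τ) * Ψ (s 0 : A ⊗[K] L) := by
      rw [map_mul Ψ, hΨ, map_one]
    rw [ha, ha', hμφ, hμφ, hΨs, h3, ← hμκ, ← mul_assoc,
      Algebra.TensorProduct.tmul_mul_tmul, mul_one, one_mul]
  have ha0 : a ≠ 0 := by
    intro h
    rw [h, map_zero] at haκ
    have h3 : φ₀ a' ≠ 0 := fun h4 => hμ (hφinj (by rw [map_zero]; exact h4))
    exact (mul_ne_zero hκ0 h3) haκ.symm
  refine ⟨fun i => f' (X i), ?_, ?_, τ, ?_, ?_, a, a',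
    ∑ i, ∑ k ∈ (f' (X i)).coeff.support, k.natAbs, ha0, hμ, ?_, ?_⟩
  · rw [← MvPolynomial.comp_aeval_apply, hXP, map_zero]
  · by_contra hno
    push Not at hno
    obtain ⟨k0, hk0⟩ := hno 0
    obtain ⟨k1, hk1⟩ := hno 1
    apply hf'ω
    refine ⟨k0 + l * k1, ?_⟩
    rw [map_add, map_mul, hk0, hk1]
    simp only [ω, map_add, Algebra.smul_def, map_mul, AlgHom.commutes]
  · rintro ⟨t, rfl⟩
    apply hx₀
    apply hφinj
    rw [map_zero]
    ext n
    set z : HahnSeries ℤ K := ∑ k ∈ (f' (X i₀)).coeff.support,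
      C ((f' (X i₀)).coeff k * t ^ k) * κ ^ k with hzdef
    have h3 : ∑ j, φ₀ (x i₀ j) ⊗ₜ[K] b j = z ⊗ₜ[K] b 0 := by
      rw [hcomp, hzdef, TensorProduct.sum_tmul]
      apply Finset.sum_congr rfl
      intro k _
      have h7 : ((f' (X i₀)).coeff k) • (algebraMap K L t) ^ k =
          algebraMap K L ((f' (X i₀)).coeff k * t ^ k) := by
        rw [← map_zpow₀, Algebra.smul_def, ← map_mul]
      rw [hb0, h7]
      have h6 : C ((f' (X i₀)).coeff k * t ^ k) * κ ^ k =
          ((f' (X i₀)).coeff k * t ^ k) • κ ^ k := by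
        rw [Algebra.smul_def, HahnSeries.algebraMap_apply]
        rfl
      rw [h6, TensorProduct.smul_tmul, Algebra.smul_def, mul_one]
    have h4 := congrArg (fun z => (J K L z).coeff n) h3
    simp only [map_sum, HahnSeries.coeff_sum, J_tmul_coeff] at h4
    have h5 : ∑ j, ((φ₀ (x i₀ j)).coeff n - if j = 0 then z.coeff n else 0) • b j = 0 := by
      simp only [sub_smul, Finset.sum_sub_distrib, ite_smul, zero_smul]
      rw [Finset.sum_ite_eq' Finset.univ, if_pos (Finset.mem_univ _), h4, sub_self]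
    have h6 := (Fintype.linearIndependent_iff.mp hb) _ h5 j₀
    rw [if_neg hj₀, sub_zero] at h6
    rw [h6]
    rfl
  · have hκ : κ ∉ Set.range (algebraMap K (HahnSeries ℤ K)) := by
      rintro ⟨t, ht⟩
      apply hx₁
      refine ⟨(φ₀ (x i₁ j₁)).coeff 0, hφinj ?_⟩
      rw [hφ₀C]
      ext n
      rw [C_apply, coeff_single]
      split_ifs with hn
      · rw [hn]
      · have h3 : ∑ j, φ₀ (x i₁ j) ⊗ₜ[K] b j = (1 : HahnSeries ℤ K) ⊗ₜ[K]
            (∑ k ∈ (f' (X i₁)).coeff.support, ((f' (X i₁)).coeff k * t ^ k) • τ ^ k) := by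
          rw [hcomp, TensorProduct.tmul_sum]
          apply Finset.sum_congr rfl
          intro k _
          rw [← ht, ← map_zpow₀, Algebra.algebraMap_eq_smul_one, TensorProduct.smul_tmul,
            smul_smul, mul_comm]
        have h4 := congrArg (fun z => (J K L z).coeff n) h3
        simp only [map_sum, HahnSeries.coeff_sum, J_tmul_coeff, HahnSeries.coeff_one] at h4
        rw [if_neg hn, zero_smul] at h4
        exact ((Fintype.linearIndependent_iff.mp hb) _ h4 j₁).symm
    have hκt : Transcendental K κ := transcendental_of_not_mem hκ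
    intro i k hk
    have h3 := extract (fun k : ℤ => κ ^ k) (linearIndependent_zpow κ hκt) b
      (fun j => φ₀ (x i j)) (f' (X i)).coeff.support (fun k => (f' (X i)).coeff k • τ ^ k)
      (hcomp i) k (Finsupp.mem_support_iff.mpr hk)
    have h4 := Submodule.smul_mem _ ((f' (X i)).coeff k)⁻¹ h3
    simp only [smul_smul] at h4
    rwa [inv_mul_cancel₀ hk, one_smul] at h4
  · intro i k hk
    exact (Finset.single_le_sum (f := fun k : ℤ => k.natAbs) (fun _ _ => Nat.zero_le _) hk).trans
      (Finset.single_le_sum (f := fun i => ∑ k ∈ (f' (X i)).coeff.support, k.natAbs)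
        (fun _ _ => Nat.zero_le _) (Finset.mem_univ i))
  · intro i
    set M : ℕ := ∑ i, ∑ k ∈ (f' (X i)).coeff.support, k.natAbs with hM
    apply hΨinj
    rw [map_sum, map_sum]
    simp only [hΨ, map_mul, map_pow, haκ]
    have h3 : ∀ (c : HahnSeries ℤ K) (x : HahnSeries ℤ K) (l : L),
        (c * x) ⊗ₜ[K] l = (c ⊗ₜ[K] (1 : L)) * (x ⊗ₜ[K] l) := by
      intro c x l
      rw [Algebra.TensorProduct.tmul_mul_tmul, one_mul]
    have h4 : ∑ j, ((κ * φ₀ a') ^ M * φ₀ a' ^ M * φ₀ (x i j)) ⊗ₜ[K] b j =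
        (((κ * φ₀ a') ^ M * φ₀ a' ^ M) ⊗ₜ[K] (1 : L)) * ∑ j, φ₀ (x i j) ⊗ₜ[K] b j := by
      rw [Finset.mul_sum]
      apply Finset.sum_congr rfl
      intro j _
      rw [h3]
    rw [h4, hcomp, Finset.mul_sum]
    apply Finset.sum_congr rfl
    intro k hk
    rw [← h3]
    congr 1
    have hkM : k.natAbs ≤ M :=
      (Finset.single_le_sum (f := fun k : ℤ => k.natAbs) (fun _ _ => Nat.zero_le _) hk).trans
        (Finset.single_le_sum (f := fun i => ∑ k ∈ (f' (X i)).coeff.support, k.natAbs)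
          (fun _ _ => Nat.zero_le _) (Finset.mem_univ i))
    have h5 : ((M + k).toNat : ℤ) = M + k := Int.toNat_of_nonneg (by omega)
    have h6 : ((M - k).toNat : ℤ) = M - k := Int.toNat_of_nonneg (by omega)
    have hφa' : φ₀ a' ≠ 0 := fun h4 => hμ (hφinj (by rw [map_zero]; exact h4))
    have h7 : φ₀ a' ^ ((M + k).toNat) * φ₀ a' ^ ((M - k).toNat) = φ₀ a' ^ M * φ₀ a' ^ M := by
      rw [← _root_.pow_add, ← _root_.pow_add]
      congr 1
      omega
    have h8 : κ ^ ((M + k).toNat) = κ ^ M * κ ^ k := by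
      rw [← zpow_natCast, h5, zpow_add₀ hκ0, zpow_natCast]
    rw [mul_pow, mul_pow, h8]
    calc κ ^ M * φ₀ a' ^ M * φ₀ a' ^ M * κ ^ k = κ ^ M * κ ^ k * (φ₀ a' ^ M * φ₀ a' ^ M) := by ring
      _ = κ ^ M * κ ^ k * (φ₀ a' ^ ((M + k).toNat) * φ₀ a' ^ ((M - k).toNat)) := by rw [h7]
      _ = _ := by ring

end main

end Pool.Agent.Zk18
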