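import Pool.Agent.Zk18.Tw

/-!
# Units of products

If all powers of a Laurent series `g` over `L` have a common denominator in `K((π)) L`, then `g` is the
product of a Laurent series over `K` and an element of `L`.
-/

set_option autoImplicit false

attribute [-instance] HahnSeries.powerSeriesAlgebra

namespace Pool.Agent.Zk18

open HahnSeries Pool.Agent.Helper165.P1 TensorProduct
open scoped LaurentPolynomial

theorem le_of_forall_nat {α β c d : ℚ} (h : ∀ k : ℕ, c + k * α ≤ k * β + d) : α ≤ β := by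
  by_contra hcon
  push Not at hcon
  obtain ⟨k, hk⟩ := exists_nat_gt ((d - c) / (α - β))
  have h1 := h k
  rw [div_lt_iff₀ (by linarith)] at hk
  linarith

section

variable {K L : Type} [Field K] [Field L] [Algebra K L] (θ : L →ₐ[K] Pui K) (r : ℚ) (hr : 0 < r)

/-- the valuation of the value at a point of small absolute value -/
noncomputable def VQ (y : HahnSeries ℤ L) : ℚ :=
  r * y.order + (vP K (θ y.leadingCoeff)).untopD 0

/-- the valuation of the value -/
noncomputable def eQ (z : HahnSeries ℤ K ⊗[K] L) : ℚ := ((evT θ r hr z).orderTop).untopD 0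

theorem vP_theta {l : L} (hl : l ≠ 0) :
    vP K (θ l) = (((vP K (θ l)).untopD 0 : ℚ) : WithTop ℚ) := by
  obtain ⟨q, hq⟩ := val_exists (vP K) (fun h => hl ((map_eq_zero θ).mp h))
  rw [hq]
  rfl

theorem VQ_mul {y y' : HahnSeries ℤ L} (hy : y ≠ 0) (hy' : y' ≠ 0) :
    VQ θ r (y * y') = VQ θ r y + VQ θ r y' := by
  unfold VQ
  rw [order_mul hy hy', leadingCoeff_mul, map_mul, (vP K).map_mul]
  have h1 := vP_theta θ (leadingCoeff_ne_zero.mpr hy)
  have h2 := vP_theta θ (leadingCoeff_ne_zero.mpr hy')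
  rw [h1, h2, ← WithTop.coe_add]
  simp only [WithTop.untopD_coe]
  push_cast
  ring

theorem VQ_one : VQ θ r (1 : HahnSeries ℤ L) = 0 := by
  have h := VQ_mul θ r (one_ne_zero (α := HahnSeries ℤ L)) one_ne_zero
  rw [mul_one] at h
  linarith

theorem VQ_pow {y : HahnSeries ℤ L} (hy : y ≠ 0) (k : ℕ) : VQ θ r (y ^ k) = k * VQ θ r y := by
  induction k with
  | zero => rw [pow_zero, VQ_one]; simp
  | succ k ih =>
    rw [pow_succ, VQ_mul θ r (pow_ne_zero _ hy) hy, ih]
    push_cast
    ring

theorem eQ_le {z : HahnSeries ℤ K ⊗[K] L} (hz : J K L z ≠ 0) : eQ θ r hr z ≤ VQ θ r (J K L z) ∧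
    (evT θ r hr z).orderTop = ((eQ θ r hr z : ℚ) : WithTop ℚ) := by
  have h1 := evT_orderTop_le θ r hr (J K L z).order z
  have h2 : (J K L z).coeff (J K L z).order = (J K L z).leadingCoeff := (leadingCoeff_eq).symm
  rw [h2, vP_theta θ (leadingCoeff_ne_zero.mpr hz), ← WithTop.coe_add] at h1
  have h3 : (evT θ r hr z).orderTop ≠ ⊤ := by
    intro h
    rw [h, top_le_iff] at h1
    exact WithTop.coe_ne_top h1
  obtain ⟨q, hq⟩ := WithTop.ne_top_iff_exists.mp h3
  have h4 : eQ θ r hr z = q := by
    unfold eQ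
    rw [← hq]
    rfl
  refine ⟨?_, by rw [h4, hq]⟩
  rw [h4]
  rw [← hq, WithTop.coe_le_coe] at h1
  exact h1

theorem eQ_mul {z z' : HahnSeries ℤ K ⊗[K] L} (hz : J K L z ≠ 0) (hz' : J K L z' ≠ 0) :
    eQ θ r hr (z * z') = eQ θ r hr z + eQ θ r hr z' := by
  have h1 := (eQ_le θ r hr hz).2
  have h2 := (eQ_le θ r hr hz').2
  have h3 : J K L (z * z') ≠ 0 := by
    rw [map_mul]; exact mul_ne_zero hz hz'
  have h4 := (eQ_le θ r hr h3).2
  rw [map_mul, orderTop_mul, h1, h2, ← WithTop.coe_add, WithTop.coe_eq_coe] at h4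
  exact h4.symm

theorem eQ_pow {z : HahnSeries ℤ K ⊗[K] L} (hz : J K L z ≠ 0) (k : ℕ) :
    eQ θ r hr (z ^ k) = k * eQ θ r hr z := by
  have h1 : eQ θ r hr (1 : HahnSeries ℤ K ⊗[K] L) = 0 := by
    have h1 : J K L (1 : HahnSeries ℤ K ⊗[K] L) ≠ 0 := by
      rw [map_one]; exact one_ne_zero
    have h := eQ_mul θ r hr h1 h1
    rw [mul_one] at h
    linarith
  induction k with
  | zero => rw [pow_zero, h1]; simp
  | succ k ih =>
    have h2 : J K L (z ^ k) ≠ 0 := by
      rw [map_pow]; exact pow_ne_zero _ hz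
    rw [pow_succ, eQ_mul θ r hr h2 hz, ih]
    push_cast
    ring

end

/-- **Units of products.** -/
theorem ros {K L : Type} [Field K] [Countable K] [IsAlgClosed K] [CharZero K] [Field L]
    [Countable L] [Algebra K L] (g : HahnSeries ℤ L) (hg : g ≠ 0)
    (s : HahnSeries ℤ K ⊗[K] L) (hs : J K L s ≠ 0)
    (hz : ∀ k : ℤ, ∃ z : HahnSeries ℤ K ⊗[K] L, J K L z = g ^ k * J K L s) :
    ∃ (τ : L) (κ : HahnSeries ℤ K), τ ≠ 0 ∧ κ ≠ 0 ∧ g = mapZ κ * C τ := by
  classical
  set k₀ := g.order with hk₀
  set τ := g.coeff k₀ with hτ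
  have hτ0 : τ ≠ 0 := by
    rw [hτ, hk₀, ← leadingCoeff_eq]
    exact leadingCoeff_ne_zero.mpr hg
  let c : ℤ → K := fun j => if h : g.coeff j / τ ∈ Set.range (algebraMap K L) then h.choose else 0
  have hc : ∀ j, g.coeff j / τ ∈ Set.range (algebraMap K L) →
      algebraMap K L (c j) * τ = g.coeff j := by
    intro j h
    simp only [c, dif_pos h]
    rw [h.choose_spec, div_mul_cancel₀ _ hτ0]
  have hc0 : ∀ j, c j ≠ 0 → g.coeff j ≠ 0 := by
    intro j h h0
    apply h
    by_cases h1 : g.coeff j / τ ∈ Set.range (algebraMap K L)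
    · have h2 := hc j h1
      rw [h0] at h2
      have h3 := (mul_eq_zero.mp h2).resolve_right hτ0
      exact (map_eq_zero _).mp h3
    · simp only [c, dif_neg h1]
  have hclaim : ∀ j, g.coeff j / τ ∈ Set.range (algebraMap K L) := by
    by_contra hcon
    push Not at hcon
    obtain ⟨n, hn, hmin⟩ := Int.exists_least_of_bdd
      (P := fun j => g.coeff j / τ ∉ Set.range (algebraMap K L)) ⟨k₀, by
        intro j hj
        by_contra hlt
        push Not at hlt
        apply hj
        rw [coeff_eq_zero_of_lt_order hlt, zero_div]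
        exact ⟨0, map_zero _⟩⟩ hcon
    have hgn : g.coeff n ≠ 0 := by
      intro h
      apply hn
      rw [h, zero_div]
      exact ⟨0, map_zero _⟩
    have hk₀n : k₀ < n := by
      rcases lt_trichotomy n k₀ with h | h | h
      · exact absurd (coeff_eq_zero_of_lt_order h) hgn
      · exfalso
        apply hn
        rw [h, ← hτ, div_self hτ0]
        exact ⟨1, map_one _⟩
      · exact h
    have hlt : ∀ j < n, g.coeff j / τ ∈ Set.range (algebraMap K L) := by
      intro j hj
      by_contra h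
      have := hmin j h
      omega
    -- the part of `g` which is a product
    let κ : HahnSeries ℤ K :=
      { coeff := fun j => if j < n then c j else 0
        isPWO_support' := g.isPWO_support.mono (by
          intro j hj
          have h1 : (if j < n then c j else 0) ≠ 0 := hj
          split_ifs at h1 with h2
          · exact hc0 j h1
          · exact absurd rfl h1) }
    have hκc : ∀ j, κ.coeff j = if j < n then c j else 0 := fun j => rfl
    set h : HahnSeries ℤ L := J K L (κ ⊗ₜ[K] τ) with hh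
    have hhc : ∀ j, h.coeff j = if j < n then g.coeff j else 0 := by
      intro j
      rw [hh, J_tmul_coeff, hκc]
      split_ifs with h1
      · rw [Algebra.smul_def, hc j (hlt j h1)]
      · rw [zero_smul]
    have hgh : ∀ j, (g - h).coeff j = if j < n then 0 else g.coeff j := by
      intro j
      rw [coeff_sub, hhc]
      split_ifs <;> simp
    have hghn : (g - h).coeff n = g.coeff n := by rw [hgh, if_neg (lt_irrefl n)]
    have hgh0 : g - h ≠ 0 := by
      intro h0
      rw [h0, HahnSeries.coeff_zero] at hghn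
      exact hgn hghn.symm
    have hord : (g - h).order = n := by
      have h1 : (g - h).orderTop = (n : WithTop ℤ) := by
        apply orderTop_eq_of_le
        · rw [mem_support, hghn]; exact hgn
        · intro j hj
          rw [mem_support, hgh] at hj
          by_contra hlt'
          push Not at hlt'
          rw [if_pos hlt'] at hj
          exact hj rfl
      have h2 := order_eq_orderTop_of_ne_zero hgh0
      rw [h1] at h2
      exact_mod_cast h2
    -- parameters
    obtain ⟨θ, hθ⟩ := arc (g.coeff n / τ) hn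
    have hnk : (0 : ℚ) < n - k₀ := by
      have : (k₀ : ℚ) < n := by exact_mod_cast hk₀n
      linarith
    set r : ℚ := 1 / (2 * (n - k₀)) with hrdef
    have hr : 0 < r := by positivity
    have hr1 : r * (n - k₀) = 1 / 2 := by
      rw [hrdef]
      field_simp
    have hval : vP K (θ (g.coeff n)) = ((((vP K (θ τ)).untopD 0 : ℚ) - 1 : ℚ) : WithTop ℚ) := by
      have h1 : θ (g.coeff n) = tinv * θ τ := by
        rw [← hθ, ← map_mul, div_mul_cancel₀ _ hτ0]
      rw [h1, (vP K).map_mul, vP_tinv]
      conv_lhs => rw [vP_theta θ hτ0]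
      rw [← WithTop.coe_add]
      congr 1
      ring
    -- the elements
    choose z hzJ using hz
    have hz0 : J K L (z 0) = J K L s := by rw [hzJ, zpow_zero, one_mul]
    have hz1 : J K L (z 1) = g * J K L s := by rw [hzJ, zpow_one]
    have hzne : ∀ k, J K L (z k) ≠ 0 := by
      intro k
      rw [hzJ]
      exact mul_ne_zero (zpow_ne_zero _ hg) hs
    have hup : eQ θ r hr (z 1) - eQ θ r hr (z 0) ≤ VQ θ r g := by
      apply le_of_forall_nat (c := eQ θ r hr (z 0)) (d := VQ θ r (J K L s))
      intro k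
      have h1 : z k * z 0 ^ k = z 1 ^ k * z 0 := by
        apply J_injective
        rw [map_mul, map_mul, map_pow, map_pow, hzJ, hz0, hz1, zpow_natCast]
        ring
      have h2 := congrArg (eQ θ r hr) h1
      rw [eQ_mul θ r hr (hzne k) (by rw [map_pow]; exact pow_ne_zero _ (hzne 0)),
        eQ_mul θ r hr (by rw [map_pow]; exact pow_ne_zero _ (hzne 1)) (hzne 0),
        eQ_pow θ r hr (hzne 0), eQ_pow θ r hr (hzne 1)] at h2
      have h3 := (eQ_le θ r hr (hzne k)).1
      rw [hzJ, zpow_natCast, VQ_mul θ r (pow_ne_zero _ hg) hs, VQ_pow θ r hg] at h3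
      have h4 : (k : ℚ) * (eQ θ r hr (z 1) - eQ θ r hr (z 0)) =
        k * eQ θ r hr (z 1) - k * eQ θ r hr (z 0) := by ring
      linarith
    have hlow : VQ θ r g ≤ eQ θ r hr (z 1) - eQ θ r hr (z 0) := by
      apply le_of_forall_nat (c := eQ θ r hr (z 0)) (d := VQ θ r (J K L s))
      intro k
      have h1 : z (-(k : ℤ)) * z 1 ^ k = z 0 ^ k * z 0 := by
        apply J_injective
        rw [map_mul, map_mul, map_pow, map_pow, hzJ, hz0, hz1, zpow_neg, zpow_natCast, mul_pow]
        have : g ^ k ≠ 0 := pow_ne_zero _ hg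
        field_simp
      have h2 := congrArg (eQ θ r hr) h1
      rw [eQ_mul θ r hr (hzne _) (by rw [map_pow]; exact pow_ne_zero _ (hzne 1)),
        eQ_mul θ r hr (by rw [map_pow]; exact pow_ne_zero _ (hzne 0)) (hzne 0),
        eQ_pow θ r hr (hzne 0), eQ_pow θ r hr (hzne 1)] at h2
      have h3 := (eQ_le θ r hr (hzne (-(k : ℤ)))).1
      have h5 : VQ θ r (J K L (z (-(k : ℤ)))) + k * VQ θ r g = VQ θ r (J K L s) := by
        rw [← VQ_pow θ r hg, ← VQ_mul θ r (hzne _) (pow_ne_zero _ hg), hzJ, zpow_neg, zpow_natCast]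
        congr 1
        have : g ^ k ≠ 0 := pow_ne_zero _ hg
        field_simp
      have h4 : (k : ℚ) * (eQ θ r hr (z 1) - eQ θ r hr (z 0)) =
        k * eQ θ r hr (z 1) - k * eQ θ r hr (z 0) := by ring
      linarith
    have hex : ∀ (k : ℕ) (i : ℤ), ∃ y : HahnSeries ℤ K ⊗[K] L,
        J K L y = g ^ i * (g - h) ^ k * J K L s := by
      intro k
      induction k with
      | zero =>
        intro i
        exact ⟨z i, by rw [hzJ, pow_zero, mul_one]⟩
      | succ k ih =>
        intro i
        obtain ⟨y₁, hy₁⟩ := ih (i + 1)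
        obtain ⟨y₂, hy₂⟩ := ih i
        refine ⟨y₁ - (κ ⊗ₜ[K] τ) * y₂, ?_⟩
        rw [map_sub, map_mul, hy₁, hy₂, zpow_add_one₀ hg, ← hh]
        ring
    choose y hy using fun k => hex k 0
    have hy' : ∀ k, J K L (y k) = (g - h) ^ k * J K L s := by
      intro k
      rw [hy, zpow_zero, one_mul]
    have hyne : ∀ k, J K L (y k) ≠ 0 := by
      intro k
      rw [hy']
      exact mul_ne_zero (pow_ne_zero _ hgh0) hs
    have hup2 : eQ θ r hr (y 1) - eQ θ r hr (z 0) ≤ VQ θ r (g - h) := by
      apply le_of_forall_nat (c := eQ θ r hr (z 0)) (d := VQ θ r (J K L s))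
      intro k
      have h1 : y k * z 0 ^ k = y 1 ^ k * z 0 := by
        apply J_injective
        rw [map_mul, map_mul, map_pow, map_pow, hy', hz0, hy', pow_one, mul_pow]
        ring
      have h2 := congrArg (eQ θ r hr) h1
      rw [eQ_mul θ r hr (hyne k) (by rw [map_pow]; exact pow_ne_zero _ (hzne 0)),
        eQ_mul θ r hr (by rw [map_pow]; exact pow_ne_zero _ (hyne 1)) (hzne 0),
        eQ_pow θ r hr (hzne 0), eQ_pow θ r hr (hyne 1)] at h2
      have h3 := (eQ_le θ r hr (hyne k)).1
      rw [hy', VQ_mul θ r (pow_ne_zero _ hgh0) hs, VQ_pow θ r hgh0] at h3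
      have h4 : (k : ℚ) * (eQ θ r hr (y 1) - eQ θ r hr (z 0)) =
        k * eQ θ r hr (y 1) - k * eQ θ r hr (z 0) := by ring
      linarith
    have hV1 : VQ θ r g = r * k₀ + (vP K (θ τ)).untopD 0 := by
      unfold VQ
      rw [← hk₀, leadingCoeff_eq]
    have hV2 : VQ θ r (g - h) = r * n + ((vP K (θ τ)).untopD 0 - 1) := by
      unfold VQ
      rw [leadingCoeff_eq, hord, hghn, hval]
      rfl
    have hlow2 : VQ θ r g + eQ θ r hr (z 0) ≤ eQ θ r hr (y 1) := by
      have h1 : y 1 = z 1 - (κ ⊗ₜ[K] τ) * z 0 := by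
        apply J_injective
        rw [map_sub, map_mul, hy', hz0, hz1, pow_one, ← hh]
        ring
      have h2 := (eQ_le θ r hr (hyne 1)).2
      have h3 := (eQ_le θ r hr (hzne 1)).2
      have h4 := (eQ_le θ r hr (hzne 0)).2
      have h5 : ((VQ θ r g : ℚ) : WithTop ℚ) ≤ (evT θ r hr (κ ⊗ₜ[K] τ)).orderTop := by
        rw [evT_tmul, orderTop_mul, orderTop_iot, hV1, WithTop.coe_add, vP_theta θ hτ0]
        apply add_le_add _ le_rfl
        apply evr_orderTop
        intro j hj
        rw [hκc]
        split_ifs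
        · by_contra hcj
          exact hc0 j hcj (coeff_eq_zero_of_lt_order hj)
        · rfl
      have h6 : ((VQ θ r g + eQ θ r hr (z 0) : ℚ) : WithTop ℚ) ≤ (evT θ r hr (y 1)).orderTop := by
        rw [h1, map_sub]
        have h7 : ((VQ θ r g + eQ θ r hr (z 0) : ℚ) : WithTop ℚ) ≤
            min (evT θ r hr (z 1)).orderTop
              (evT θ r hr ((κ ⊗ₜ[K] τ) * z 0)).orderTop := by
          apply le_min
          · rw [h3, WithTop.coe_le_coe]
            linarith
          · rw [map_mul, orderTop_mul, h4, WithTop.coe_add]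
            exact add_le_add h5 le_rfl
        exact h7.trans min_orderTop_le_orderTop_sub
      rw [h2, WithTop.coe_le_coe] at h6
      exact h6
    have : r * n - r * k₀ = 1 / 2 := by rw [← hr1]; ring
    linarith
  -- conclusion
  let κ : HahnSeries ℤ K :=
    { coeff := fun j => c j
      isPWO_support' := g.isPWO_support.mono fun j hj => hc0 j hj }
  have hκ : g = mapZ κ * C τ := by
    ext j
    rw [C_apply, coeff_mul_single_zero, mapZ_coeff]
    exact (hc j (hclaim j)).symm
  refine ⟨τ, κ, hτ0, ?_, hκ⟩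
  intro h
  rw [h, map_zero, zero_mul] at hκ
  exact hg hκ

end Pool.Agent.Zk18
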