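import Pool.Agent.Zk18.Cnd
import Pool.Agent.Zk18.Ros

/-!
# Plane curves
-/

set_option autoImplicit false

attribute [-instance] HahnSeries.powerSeriesAlgebra

namespace Pool.Agent.Zk18

open HahnSeries Pool.Agent.Helper165.P1 TensorProduct
open scoped LaurentPolynomial

section a

variable {K : Type*} [Field K]

theorem not_toLaurent {R : Type*} [CommRing R] [Algebra K R] (f : R →ₐ[K] K[T;T⁻¹]) (ω : R)
    (hR : ∀ r : R, IsIntegral (Algebra.adjoin K {ω}) r)
    (H1 : ∀ φ : R →ₐ[K] Polynomial K, φ ω ∈ Set.range (algebraMap K (Polynomial K)))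
    (hω : f ω ∉ Set.range (algebraMap K K[T;T⁻¹])) :
    f ω ∉ Set.range (Polynomial.toLaurent (R := K)) := by
  rintro ⟨p, hp⟩
  have hinj : Function.Injective (IsScalarTower.toAlgHom K (Polynomial K) (RatFunc K)) :=
    IsFractionRing.injective (Polynomial K) (RatFunc K)
  have h1 : ∀ z : Algebra.adjoin K {ω}, ∃ b : Polynomial K,
      IsScalarTower.toAlgHom K (Polynomial K) (RatFunc K) b =
        ((iL.comp f).comp (Algebra.adjoin K {ω}).val) z := by
    intro z
    have h2 : Algebra.adjoin K {ω} ≤
        (IsScalarTower.toAlgHom K (Polynomial K) (RatFunc K)).range.comap (iL.comp f) := by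
      rw [Algebra.adjoin_le_iff, Set.singleton_subset_iff]
      refine ⟨p, ?_⟩
      change algebraMap (Polynomial K) (RatFunc K) p = iL (f ω)
      rw [← hp, iL_toLaurent]
    exact h2 z.2
  obtain ⟨φ, hφ⟩ := factor _ _ hinj h1
  have h3 : ∀ r, IsIntegral (Polynomial K) (iL (f r)) := by
    intro r
    refine IsIntegral.map_of_comp_eq (R := ↥(Algebra.adjoin K ({ω} : Set R))) (T := Polynomial K)
      φ.toRingHom (iL.comp f).toRingHom ?_ (hR r)
    ext z
    exact hφ z
  have h4 : ∀ r, ∃ b : Polynomial K, IsScalarTower.toAlgHom K (Polynomial K) (RatFunc K) b =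
      (iL.comp f) r := fun r => IsIntegrallyClosed.isIntegral_iff.mp (h3 r)
  obtain ⟨φ', hφ'⟩ := factor _ _ hinj h4
  obtain ⟨k, hk⟩ := H1 φ'
  apply hω
  refine ⟨k, iL_injective ?_⟩
  have h5 := hφ' ω
  rw [← hk, AlgHom.commutes] at h5
  rw [iL.commutes]
  exact h5

/-- the top form -/
noncomputable def topf (P : MvPolynomial (Fin 2) K) : Polynomial K :=
  ∑ m ∈ P.support, if m 0 + m 1 = P.totalDegree then
    Polynomial.C (P.coeff m) * (-Polynomial.X) ^ (m 0) else 0

theorem topf_ne_zero (P : MvPolynomial (Fin 2) K) (hP : P ≠ 0) : topf P ≠ 0 := by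
  classical
  obtain ⟨m, hm, hmd⟩ : ∃ m ∈ P.support, m.degree = P.totalDegree := by
    have hne : P.support.Nonempty := MvPolynomial.support_nonempty.mpr hP
    obtain ⟨m, hm, h⟩ := Finset.exists_mem_eq_sup P.support hne (fun m => m.degree)
    refine ⟨m, hm, ?_⟩
    rw [← h]
    rfl
  have hdeg : ∀ m : Fin 2 →₀ ℕ, m.degree = m 0 + m 1 := by
    intro m
    rw [Finsupp.degree_eq_sum, Fin.sum_univ_two]
  intro h
  have h1 := congrArg (fun p => Polynomial.coeff p (m 0)) h
  simp only [Polynomial.coeff_zero] at h1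
  rw [topf, Polynomial.finsetSum_coeff, Finset.sum_eq_single m] at h1
  · rw [if_pos (by rw [← hdeg, hmd]), Polynomial.coeff_C_mul, neg_pow, ← Polynomial.C_1,
      ← Polynomial.C_neg, ← Polynomial.C_pow, Polynomial.coeff_C_mul, Polynomial.coeff_X_pow,
      if_pos rfl, mul_one, mul_eq_zero] at h1
    rcases h1 with h1 | h1
    · exact (MvPolynomial.mem_support_iff.mp hm) h1
    · exact pow_ne_zero _ (neg_ne_zero.mpr one_ne_zero) h1
  · intro m' hm' hne
    split_ifs with h2
    · rw [Polynomial.coeff_C_mul, neg_pow, ← Polynomial.C_1,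
        ← Polynomial.C_neg, ← Polynomial.C_pow, Polynomial.coeff_C_mul, Polynomial.coeff_X_pow,
        if_neg, mul_zero, mul_zero]
      intro h3
      apply hne
      ext i
      fin_cases i
      · exact h3.symm
      · have h4 := hdeg m
        rw [hmd] at h4
        change m' 1 = m 1
        omega
    · exact Polynomial.coeff_zero _
  · intro h2
    exact absurd hm h2

theorem isIntegral_of_topf {C : Type*} [CommRing C] [Nontrivial C] [Algebra K C]
    (P : MvPolynomial (Fin 2) K) (X Y : C) (hP : MvPolynomial.aeval ![X, Y] P = 0) (l : K)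
    (hl : (topf P).eval l ≠ 0) : IsIntegral (Algebra.adjoin K {X + l • Y}) Y := by
  classical
  set ω := X + l • Y with hω
  let B := Algebra.adjoin K {ω}
  let w : B := ⟨ω, Algebra.self_mem_adjoin_singleton K ω⟩
  let q : Polynomial B := Polynomial.C w - Polynomial.C (algebraMap K B l) * Polynomial.X
  have hq : q.natDegree ≤ 1 := by
    refine (Polynomial.natDegree_sub_le _ _).trans ?_
    rw [Polynomial.natDegree_C]
    exact max_le (Nat.zero_le _) ((Polynomial.natDegree_C_mul_le _ _).trans Polynomial.natDegree_X_le)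
  have hq1 : q.coeff 1 = -algebraMap K B l := by
    simp [q, Polynomial.coeff_C]
  have hdeg : ∀ m : Fin 2 →₀ ℕ, m.degree = m 0 + m 1 := by
    intro m
    rw [Finsupp.degree_eq_sum, Fin.sum_univ_two]
  let Q : Polynomial B := ∑ m ∈ P.support,
    Polynomial.C (algebraMap K B (P.coeff m)) * (q ^ (m 0) * Polynomial.X ^ (m 1))
  have hQd : Q.natDegree ≤ P.totalDegree := by
    apply Polynomial.natDegree_sum_le_of_forall_le
    intro m hm
    refine (Polynomial.natDegree_C_mul_le _ _).trans ?_
    refine (Polynomial.natDegree_mul_le).trans ?_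
    rw [Polynomial.natDegree_X_pow]
    have h1 : (q ^ (m 0)).natDegree ≤ m 0 * 1 := Polynomial.natDegree_pow_le_of_le _ hq
    have h2 := MvPolynomial.le_totalDegree hm
    have h3 := hdeg m
    have h4 : (m.sum fun _ e => e) = m.degree := rfl
    omega
  have hQc : Q.coeff P.totalDegree = algebraMap K B ((topf P).eval l) := by
    rw [Polynomial.finsetSum_coeff, topf, Polynomial.eval_finsetSum, map_sum]
    apply Finset.sum_congr rfl
    intro m hm
    have h2 := MvPolynomial.le_totalDegree hm
    have h3 := hdeg m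
    have h4 : (m.sum fun _ e => e) = m.degree := rfl
    rw [Polynomial.coeff_C_mul, Polynomial.coeff_mul_X_pow', if_pos (by omega)]
    split_ifs with h
    · have h5 : P.totalDegree - m 1 = m 0 * 1 := by omega
      rw [h5, Polynomial.coeff_pow_of_natDegree_le hq, hq1]
      simp
    · have h6 : (q ^ (m 0)).coeff (P.totalDegree - m 1) = 0 := by
        apply Polynomial.coeff_eq_zero_of_natDegree_lt
        refine (Polynomial.natDegree_pow_le_of_le _ hq).trans_lt ?_
        omega
      rw [Polynomial.eval_zero, h6, mul_zero, map_zero (algebraMap K B)]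
  have hQY : Polynomial.aeval Y Q = 0 := by
    have h1 : Polynomial.aeval Y q = X := by
      simp only [q, map_sub, map_mul, Polynomial.aeval_C, Polynomial.aeval_X]
      change ω - algebraMap K C l * Y = X
      rw [hω, Algebra.smul_def]
      ring
    rw [← hP, map_sum, MvPolynomial.aeval_def, MvPolynomial.eval₂_eq']
    apply Finset.sum_congr rfl
    intro m _
    rw [map_mul, map_mul, map_pow, map_pow, h1, Polynomial.aeval_X, Polynomial.aeval_C,
      Fin.prod_univ_two]
    rfl
  refine ⟨Polynomial.C (algebraMap K B ((topf P).eval l)⁻¹) * Q, ?_, ?_⟩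
  · apply Polynomial.monic_of_natDegree_le_of_coeff_eq_one P.totalDegree
    · exact (Polynomial.natDegree_C_mul_le _ _).trans hQd
    · rw [Polynomial.coeff_C_mul, hQc, ← map_mul, inv_mul_cancel₀ hl, map_one]
  · rw [← Polynomial.aeval_def, map_mul, hQY, mul_zero]

/-- avoiding finitely many values -/
theorem exists_good {A : Type*} [CommRing A] [IsDomain A] [Algebra K A] [Infinite K]
    (P : MvPolynomial (Fin 2) K)
    (hP : P ≠ 0) (x x' y y' : A) (hx : x ≠ 0 ∨ x' ≠ 0)
    (hy : y ∉ Set.range (algebraMap K A) ∨ y' ∉ Set.range (algebraMap K A)) :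
    ∃ l : K, (topf P).eval l ≠ 0 ∧ x + l • x' ≠ 0 ∧ y + l • y' ∉ Set.range (algebraMap K A) := by
  have h1 : {l : K | (topf P).eval l = 0}.Finite := by
    have := Polynomial.finite_setOfPred_isRoot (topf_ne_zero P hP)
    exact this
  have h2 : {l : K | x + l • x' = 0}.Subsingleton := by
    intro l hl l' hl'
    by_contra hne
    have h3 : (l - l') • x' = 0 := by
      rw [sub_smul]
      have e1 : x + l • x' = 0 := hl
      have e2 : x + l' • x' = 0 := hl'
      calc l • x' - l' • x' = (x + l • x') - (x + l' • x') := by ring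
        _ = 0 := by rw [e1, e2, sub_zero]
    have h4 : x' = 0 := (smul_eq_zero.mp h3).resolve_left (sub_ne_zero.mpr hne)
    have h5 : x = 0 := by
      have e1 : x + l • x' = 0 := hl
      rwa [h4, smul_zero, add_zero] at e1
    rcases hx with hx | hx
    · exact hx h5
    · exact hx h4
  have h3 : {l : K | y + l • y' ∈ Set.range (algebraMap K A)}.Subsingleton := by
    rintro l ⟨a, ha⟩ l' ⟨a', ha'⟩
    by_contra hne
    have h3 : (l - l') • y' = algebraMap K A (a - a') := by
      rw [map_sub, ha, ha', sub_smul]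
      ring
    have h4 : y' = algebraMap K A ((l - l')⁻¹ * (a - a')) := by
      rw [map_mul, ← h3, ← Algebra.smul_def, smul_smul, inv_mul_cancel₀ (sub_ne_zero.mpr hne),
        one_smul]
    rcases hy with hy | hy
    · apply hy
      refine ⟨a - l * ((l - l')⁻¹ * (a - a')), ?_⟩
      rw [map_sub, map_mul, ← h4, ha, Algebra.smul_def]
      ring
    · exact hy ⟨_, h4.symm⟩
  obtain ⟨l, hl⟩ := ((h1.union (h2.finite.union h3.finite)).infinite_compl).nonempty
  rw [Set.mem_compl_iff, Set.mem_union, Set.mem_union, not_or, not_or] at hl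
  exact ⟨l, hl.1, hl.2.1, hl.2.2⟩

end a

end Pool.Agent.Zk18
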