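import Pool.Agent.Zk18.Str2
import Pool.Agent.N770.Six

/-!
# The structure theorem for finite dimensional spaces of complex numbers
-/

set_option autoImplicit false

attribute [-instance] HahnSeries.powerSeriesAlgebra

namespace Pool.Agent.Zk18.Cx

open MvPolynomial
open scoped LaurentPolynomial

theorem transc {τ : ℂ} (h : τ ∉ Set.range (algebraMap (algebraicClosure ℚ ℂ) ℂ)) :
    Transcendental (algebraicClosure ℚ ℂ) τ := by
  have : IsAlgClosed (algebraicClosure ℚ ℂ) := Pool.Agent.N770.isAlgClosed_QB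
  exact Pool.Agent.Zk18.transcendental_of_not_mem h

theorem notMem_range {τ : ℂ} : τ ∉ Set.range (algebraMap (algebraicClosure ℚ ℂ) ℂ) ↔
    Transcendental ℚ τ := by
  constructor
  · intro h hal
    exact h ⟨⟨τ, mem_algebraicClosure_iff.mpr hal⟩, rfl⟩
  · rintro h ⟨a, rfl⟩
    exact h (mem_algebraicClosure_iff.mp a.2)

instance countable_QB : Countable (algebraicClosure ℚ ℂ) := by
  have h1 : {x : ℂ | x ∈ algebraicClosure ℚ ℂ}.Countable := by
    refine (Algebraic.countable ℚ ℂ).mono ?_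
    intro x hx
    exact mem_algebraicClosure_iff.mp hx
  exact h1.to_subtype

/-- a basis which begins with `1` -/
theorem exists_basis (V : Submodule (algebraicClosure ℚ ℂ) ℂ) (h1V : (1 : ℂ) ∈ V)
    [FiniteDimensional (algebraicClosure ℚ ℂ) V] :
    ∃ m, m + 1 ≤ Module.finrank (algebraicClosure ℚ ℂ) V ∧ ∃ b : Fin (m + 1) → ℂ,
    LinearIndependent (algebraicClosure ℚ ℂ) b ∧ b 0 = 1 ∧
      Submodule.span (algebraicClosure ℚ ℂ) (Set.range b) = V := by
  classical
  have h1 : LinearIndepOn (algebraicClosure ℚ ℂ) id ({1} : Set ℂ) :=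
    LinearIndepOn.singleton one_ne_zero
  obtain ⟨B, hB, h1B, hspan, hli⟩ := exists_linearIndepOn_id_extension h1
    (t := (V : Set ℂ)) (Set.singleton_subset_iff.mpr h1V)
  have h1B' : (1 : ℂ) ∈ B := h1B (Set.mem_singleton 1)
  set B' : Set ℂ := B \ {1} with hB'
  have hins : insert 1 B' = B := by
    rw [hB', Set.insert_sdiff_singleton, Set.insert_eq_of_mem h1B']
  have hliV : LinearIndependent (algebraicClosure ℚ ℂ) (fun x : B => (⟨x, hB x.2⟩ : V)) := by
    apply LinearIndependent.of_comp V.subtype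
    exact hli
  have hfinB : Finite B := hliV.finite
  have hfin : B'.Finite := (Set.toFinite B).subset (by rw [hB']; exact Set.sdiff_subset)
  obtain ⟨F, hF⟩ := hfin.exists_finset_coe
  have hcard : F.card + 1 ≤ Module.finrank (algebraicClosure ℚ ℂ) V := by
    have hft : Fintype B := Fintype.ofFinite B
    have h2 := hliV.fintype_card_le_finrank
    refine le_trans ?_ h2
    have h1F : (1 : ℂ) ∉ F := by
      intro h
      have : (1 : ℂ) ∈ B' := by rw [← hF]; exact h
      exact this.2 rfl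
    rw [← Finset.card_insert_of_notMem h1F, ← Set.toFinset_card]
    apply Finset.card_le_card
    intro x hx
    rw [Set.mem_toFinset, ← hins]
    rcases Finset.mem_insert.mp hx with rfl | hx
    · exact Set.mem_insert _ _
    · apply Set.mem_insert_of_mem
      rw [← hF]
      exact hx
  let v : Fin F.card → ℂ := fun i => (F.equivFin.symm i : ℂ)
  have hv : Set.range v = B' := by
    rw [← hF]
    ext x
    constructor
    · rintro ⟨i, rfl⟩
      exact (F.equivFin.symm i).2
    · intro hx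
      exact ⟨F.equivFin ⟨x, hx⟩, by simp [v]⟩
  rw [← hins, linearIndepOn_id_insert (by rw [hB']; exact fun h => h.2 rfl)] at hli
  refine ⟨F.card, hcard, Fin.cons 1 v, ?_, rfl, ?_⟩
  · rw [linearIndependent_finCons]
    refine ⟨?_, ?_⟩
    · have h2 : LinearIndependent (algebraicClosure ℚ ℂ) (fun x : B' => (x : ℂ)) := hli.1
      have h3 : ∀ i, v i ∈ B' := fun i => by rw [← hv]; exact ⟨i, rfl⟩
      have h4 : Function.Injective (fun i => (⟨v i, h3 i⟩ : B')) := by
        intro i j hij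
        have h6 : (⟨v i, h3 i⟩ : B') = ⟨v j, h3 j⟩ := hij
        have h5 : v i = v j := Subtype.mk.inj h6
        exact F.equivFin.symm.injective (Subtype.ext h5)
      have h7 := h2.comp _ h4
      have h8 : ((fun x : B' => (x : ℂ)) ∘ fun i => (⟨v i, h3 i⟩ : B')) = v := rfl
      rw [h8] at h7
      exact h7
    · rw [hv]
      exact hli.2
  · rw [Fin.range_cons, hv, hins]
    apply le_antisymm
    · rw [Submodule.span_le]
      exact hB
    · exact hspan

/-- the value of a Laurent polynomial -/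
noncomputable def value (f : (algebraicClosure ℚ ℂ)[T;T⁻¹]) (x : ℂ) : ℂ :=
  ∑ e ∈ f.coeff.support, (f.coeff e : ℂ) * x ^ e

/-- the structure theorem for a space of complex numbers -/
theorem main (V : Submodule (algebraicClosure ℚ ℂ) ℂ) (h1V : (1 : ℂ) ∈ V)
    [FiniteDimensional (algebraicClosure ℚ ℂ) V] (M : ℕ)
    (hM : Module.finrank (algebraicClosure ℚ ℂ) V ≤ M)
    (P : MvPolynomial (Fin 2) (algebraicClosure ℚ ℂ)) (hP : P ≠ 0) (D : ℕ)
    (hD : P.totalDegree ≤ D)
    (H1 : ∀ f : Fin 2 → Polynomial (algebraicClosure ℚ ℂ), MvPolynomial.aeval f P = 0 →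
      ∀ i, f i ∈ Set.range (algebraMap (algebraicClosure ℚ ℂ) (Polynomial _))) :
    ∃ (E : Finset (Fin 2 → ℂ)) (Φ : Finset ((Fin 2 → (algebraicClosure ℚ ℂ)[T;T⁻¹]) × ℂ)),
      E.card ≤ D ^ (2 * M) ∧ Φ.card ≤ D ^ (2 * M) ∧
      (∀ p ∈ Φ, MvPolynomial.aeval p.1 P = 0 ∧ (∃ i, ∃ e : ℤ, e ≠ 0 ∧ (p.1 i).coeff e ≠ 0) ∧
        Transcendental ℚ p.2 ∧ ∀ i e, (p.1 i).coeff e ≠ 0 → p.2 ^ e ∈ V) ∧
      {y : Fin 2 → ℂ | (∀ i, y i ∈ V) ∧ MvPolynomial.aeval y P = 0 ∧
        ∃ i, Transcendental ℚ (y i)} =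
      (E : Set (Fin 2 → ℂ)) ∪ {y | ∃ p ∈ Φ, ∃ s : algebraicClosure ℚ ℂ, s ≠ 0 ∧
        ∀ i, y i = value (p.1 i) (s * p.2)} := by
  classical
  have hac : IsAlgClosed (algebraicClosure ℚ ℂ) := Pool.Agent.N770.isAlgClosed_QB
  obtain ⟨m, hm, b, hb, hb0, hbV⟩ := exists_basis V h1V
  let L : IntermediateField (algebraicClosure ℚ ℂ) ℂ :=
    IntermediateField.adjoin (algebraicClosure ℚ ℂ) (Set.range b)
  have hLc : Countable L := by
    rw [← Cardinal.mk_le_aleph0_iff]
    refine (IntermediateField.cardinalMk_adjoin_le _ _).trans ?_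
    refine max_le (max_le ?_ ?_) le_rfl
    · exact Cardinal.mk_le_aleph0_iff.mpr countable_QB
    · exact Cardinal.mk_le_aleph0_iff.mpr (Set.finite_range b).countable.to_subtype
  let b' : Fin (m + 1) → L := fun j => ⟨b j, IntermediateField.subset_adjoin _ _ ⟨j, rfl⟩⟩
  have hbb' : ∀ j, algebraMap L ℂ (b' j) = b j := fun j => rfl
  have hb' : LinearIndependent (algebraicClosure ℚ ℂ) b' := by
    apply LinearIndependent.of_comp L.val.toLinearMap
    exact hb
  have hb'0 : b' 0 = 1 := Subtype.ext hb0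
  obtain ⟨Φ, E, hΦ, hE, hΦv, hEv, hcov⟩ := structure_theorem b' hb' hb'0 P hP D hD H1
  have hvec : ∀ (x : Fin 2 × Fin (m + 1) → algebraicClosure ℚ ℂ) (i : Fin 2),
      algebraMap L ℂ (vec b' x i) = vec b x i := by
    intro x i
    simp only [vec, map_sum]
    apply Finset.sum_congr rfl
    intro j _
    rw [← hbb' j]
    rfl
  have hval : ∀ (f : (algebraicClosure ℚ ℂ)[T;T⁻¹]) (s : algebraicClosure ℚ ℂ) (τ : L),
      algebraMap L ℂ (val f (algebraMap (algebraicClosure ℚ ℂ) L s * τ)) =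
        value f (s * (τ : ℂ)) := by
    intro f s τ
    simp only [val, value, map_sum]
    apply Finset.sum_congr rfl
    intro e _
    rw [map_mul, map_zpow₀, map_mul]
    rfl
  have haeval : ∀ x : Fin 2 × Fin (m + 1) → algebraicClosure ℚ ℂ,
      algebraMap L ℂ (aeval (vec b' x) P) = aeval (vec b x) P := by
    intro x
    have h1 := MvPolynomial.comp_aeval_apply (R := algebraicClosure ℚ ℂ) (vec b' x) L.val P
    have h2 : (fun i => L.val (vec b' x i)) = vec b x := funext (hvec x)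
    rw [h2] at h1
    exact h1
  have hinjL : Function.Injective (algebraMap L ℂ) := (algebraMap L ℂ).injective
  have hD2 : ∀ c : ℕ, c ≤ D ^ (2 * (m + 1)) → c ≤ D ^ (2 * M) := by
    intro c hc
    rcases Nat.eq_zero_or_pos D with rfl | hpos
    · rw [zero_pow (by omega)] at hc
      exact hc.trans (Nat.zero_le _)
    · exact hc.trans (Nat.pow_le_pow_right hpos (by omega))
  have hvecinj : Function.Injective (vec b : (Fin 2 × Fin (m + 1) → algebraicClosure ℚ ℂ) → _) := by
    intro x y h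
    funext ⟨i, j⟩
    have h1 := congrFun h i
    simp only [vec] at h1
    have h2 := (Fintype.linearIndependent_iff.mp hb) (fun j => x (i, j) - y (i, j)) (by
      simp only [sub_smul, Finset.sum_sub_distrib, h1, sub_self]) j
    exact sub_eq_zero.mp h2
  -- membership in `V`
  have hVvec : ∀ y : Fin 2 → ℂ, (∀ i, y i ∈ V) ↔
      ∃ x : Fin 2 × Fin (m + 1) → algebraicClosure ℚ ℂ, y = vec b x := by
    intro y
    constructor
    · intro hy
      have h2 : ∀ i, ∃ d : Fin (m + 1) → algebraicClosure ℚ ℂ, ∑ j, d j • b j = y i := by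
        intro i
        have h3 := hy i
        rw [← hbV] at h3
        exact (Submodule.mem_span_range_iff_exists_fun _).mp h3
      choose d hd using h2
      exact ⟨fun q => d q.1 q.2, funext fun i => (hd i).symm⟩
    · rintro ⟨x, rfl⟩ i
      rw [← hbV]
      exact (Submodule.mem_span_range_iff_exists_fun _).mpr ⟨fun j => x (i, j), rfl⟩
  -- transcendence
  have htr : ∀ x : Fin 2 × Fin (m + 1) → algebraicClosure ℚ ℂ,
      (∃ i, Transcendental ℚ (vec b x i)) ↔
      ∃ q : Fin 2 × Fin (m + 1), q.2 ≠ 0 ∧ x q ≠ 0 := by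
    intro x
    constructor
    · rintro ⟨i, hi⟩
      by_contra hno
      push Not at hno
      apply notMem_range.mpr hi
      refine ⟨x (i, 0), ?_⟩
      rw [vec, Finset.sum_eq_single 0]
      · rw [hb0, Algebra.smul_def, mul_one]
      · intro j _ hj
        rw [hno (i, j) hj, zero_smul]
      · intro h4
        exact absurd (Finset.mem_univ _) h4
    · rintro ⟨⟨i, j⟩, hj, hx⟩
      refine ⟨i, notMem_range.mp ?_⟩
      rintro ⟨a, ha⟩
      have h1 := (Fintype.linearIndependent_iff.mp hb)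
        (fun j => x (i, j) - if j = 0 then a else 0) (by
          have h2 : ∑ j, x (i, j) • b j = algebraMap (algebraicClosure ℚ ℂ) ℂ a := ha.symm
          have h3 : ∑ j : Fin (m + 1), (if j = 0 then a else 0) • b j =
              algebraMap (algebraicClosure ℚ ℂ) ℂ a := by
            rw [Finset.sum_eq_single 0]
            · rw [if_pos rfl, hb0, Algebra.smul_def, mul_one]
            · intro j _ hj
              rw [if_neg hj, zero_smul]
            · intro h4
              exact absurd (Finset.mem_univ _) h4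
          simp only [sub_smul, Finset.sum_sub_distrib, h2, h3, sub_self]) j
      rw [if_neg hj, sub_zero] at h1
      exact hx h1
  have hsol : ∀ y : Fin 2 → ℂ, y ∈ {y : Fin 2 → ℂ | (∀ i, y i ∈ V) ∧ MvPolynomial.aeval y P = 0 ∧
        ∃ i, Transcendental ℚ (y i)} ↔ ∃ x : Fin 2 × Fin (m + 1) → algebraicClosure ℚ ℂ,
          y = vec b x ∧ aeval (vec b' x) P = 0 ∧
          ∃ q : Fin 2 × Fin (m + 1), q.2 ≠ 0 ∧ x q ≠ 0 := by
    intro y
    constructor
    · rintro ⟨h1, h2, h3⟩
      obtain ⟨x, rfl⟩ := (hVvec y).mp h1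
      refine ⟨x, rfl, ?_, (htr x).mp h3⟩
      apply hinjL
      rw [haeval, h2, map_zero]
    · rintro ⟨x, rfl, h2, h3⟩
      refine ⟨(hVvec _).mpr ⟨x, rfl⟩, ?_, (htr x).mpr h3⟩
      rw [← haeval, h2, map_zero]
  let Φ' : Finset ((Fin 2 → (algebraicClosure ℚ ℂ)[T;T⁻¹]) × ℂ) :=
    Φ.image (fun p => (p.1, algebraMap L ℂ p.2))
  refine ⟨E.image (vec b), Φ', ?_, ?_, ?_, ?_⟩
  · exact hD2 _ (Finset.card_image_le.trans hE)
  · exact hD2 _ (Finset.card_image_le.trans hΦ)
  · intro p hp
    obtain ⟨q, hq, rfl⟩ := Finset.mem_image.mp hp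
    obtain ⟨h1, ⟨i, h2⟩, h3, h4⟩ := hΦv q hq
    refine ⟨h1, ?_, ?_, ?_⟩
    · obtain ⟨e, he, he'⟩ := exists_coeff_ne _ h2
      exact ⟨i, e, he, he'⟩
    · rw [← notMem_range]
      rintro ⟨a, ha⟩
      apply h3
      exact ⟨a, hinjL ha⟩
    · intro i e he
      have h5 := h4 i e he
      obtain ⟨c, hc⟩ := (Submodule.mem_span_range_iff_exists_fun _).mp h5
      rw [← hbV]
      refine (Submodule.mem_span_range_iff_exists_fun _).mpr ⟨c, ?_⟩
      have h6 := congrArg (algebraMap L ℂ) hc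
      rw [map_sum, map_zpow₀] at h6
      rw [← h6]
      apply Finset.sum_congr rfl
      intro j _
      rw [← hbb' j]
      rfl
  · ext y
    rw [hsol]
    constructor
    · rintro ⟨x, rfl, h2, h3⟩
      rcases hcov x h2 h3 with h4 | ⟨p, hp, s, hs, h4⟩
      · left
        rw [Finset.mem_coe]
        exact Finset.mem_image.mpr ⟨x, h4, rfl⟩
      · right
        refine ⟨(p.1, algebraMap L ℂ p.2), Finset.mem_image.mpr ⟨p, hp, rfl⟩, s, hs, fun i => ?_⟩
        rw [← hvec, h4, hval]
        rfl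
    · rintro (hy | ⟨p', hp', s, hs, hy⟩)
      · rw [Finset.mem_coe] at hy
        obtain ⟨x, hx, rfl⟩ := Finset.mem_image.mp hy
        exact ⟨x, rfl, hEv x hx⟩
      · obtain ⟨p, hp, rfl⟩ := Finset.mem_image.mp hp'
        obtain ⟨X, -, hX2, hX3⟩ := exists_curve b' hb' hb'0 P H1 p (hΦv p hp)
        let u : (algebraicClosure ℚ ℂ)ˣ := Units.mk0 s hs
        obtain ⟨s', hs', h5⟩ := (hX2 (pt X u)).mp ⟨u, rfl⟩
        -- the parameter of the point
        obtain ⟨X', hX'⟩ : ∃ X' : Fin 2 × Fin (m + 1) → algebraicClosure ℚ ℂ,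
            (∀ i, vec b' X' i = val (p.1 i) (algebraMap _ L s * p.2)) := by
          obtain ⟨X₁, hX₁, -⟩ := exists_coords b' p.1 p.2 (by
            intro h
            exact (hΦv p hp).2.2.1 ⟨0, by rw [h, map_zero]⟩) (hΦv p hp).2.2.2
          exact ⟨pt X₁ u, fun i => hX₁ u i⟩
        have h6 : X' ∈ Set.range (pt X) := (hX2 X').mpr ⟨s, hs, hX'⟩
        obtain ⟨s₂, rfl⟩ := h6
        refine ⟨pt X s₂, ?_, hX3 s₂⟩
        funext i
        rw [hy i, ← hvec, hX', hval]
        rfl

end Pool.Agent.Zk18.Cx
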