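import Mathlib

/-!
# The growth of the powers of a finite-dimensional space
-/

set_option autoImplicit false

namespace Pool.Agent.Zk18.Dg

open MvPolynomial

section

variable {K Ω : Type} [Field K] [Field Ω] [Algebra K Ω]

/-- the combinations of `a` with polynomial coefficients of degree at most `N` in each variable -/
def TT {m r : ℕ} (g : MvPolynomial (Fin m) K →ₐ[K] Ω) (a : Fin r → Ω) (N : ℕ) : Submodule K Ω where
  carrier := {x | ∃ f : Fin r → MvPolynomial (Fin m) K, (∀ l i, (f l).degreeOf i ≤ N) ∧
    x = ∑ l, g (f l) * a l}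
  add_mem' := by
    rintro x y ⟨f, hf, rfl⟩ ⟨f', hf', rfl⟩
    refine ⟨fun l => f l + f' l, fun l i => ?_, ?_⟩
    · exact (degreeOf_add_le i _ _).trans (max_le (hf l i) (hf' l i))
    · rw [← Finset.sum_add_distrib]
      exact Finset.sum_congr rfl fun l _ => by rw [map_add, add_mul]
  zero_mem' := ⟨fun _ => 0, fun l i => by rw [degreeOf_zero]; exact Nat.zero_le _, by simp⟩
  smul_mem' := by
    rintro c x ⟨f, hf, rfl⟩
    refine ⟨fun l => C c * f l, fun l i => ?_, ?_⟩
    · refine (degreeOf_mul_le i _ _).trans ?_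
      rw [degreeOf_C, zero_add]
      exact hf l i
    · rw [Finset.smul_sum]
      refine Finset.sum_congr rfl fun l _ => ?_
      rw [map_mul, ← algebraMap_eq, AlgHom.commutes, Algebra.smul_def, mul_assoc]

theorem TT_mono {m r : ℕ} (g : MvPolynomial (Fin m) K →ₐ[K] Ω) (a : Fin r → Ω) {N N' : ℕ}
    (h : N ≤ N') : TT g a N ≤ TT g a N' := by
  rintro x ⟨f, hf, rfl⟩
  exact ⟨f, fun l i => (hf l i).trans h, rfl⟩

theorem TT_finrank {m r : ℕ} (g : MvPolynomial (Fin m) K →ₐ[K] Ω) (a : Fin r → Ω) (N : ℕ) :
    FiniteDimensional K (TT g a N) ∧ Module.finrank K (TT g a N) ≤ r * (N + 1) ^ m := by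
  classical
  let v : Fin r × (Fin m → Fin (N + 1)) → Ω := fun p => g (∏ i, X i ^ (p.2 i : ℕ)) * a p.1
  have hle : TT g a N ≤ Submodule.span K (Set.range v) := by
    rintro x ⟨f, hf, rfl⟩
    refine Submodule.sum_mem _ fun l _ => ?_
    rw [(f l).as_sum, map_sum, Finset.sum_mul]
    refine Submodule.sum_mem _ fun d hd => ?_
    have h1 : ∀ i, d i < N + 1 := fun i =>
      Nat.lt_succ_of_le ((degreeOf_le_iff.mp (hf l i)) d hd)
    have h2 : g (monomial d ((f l).coeff d)) * a l =
        ((f l).coeff d) • v (l, fun i => ⟨d i, h1 i⟩) := by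
      simp only [v]
      rw [monomial_eq, map_mul, ← algebraMap_eq, AlgHom.commutes, Algebra.smul_def, mul_assoc,
        Finsupp.prod_fintype _ _ (fun i => pow_zero _)]
    rw [h2]
    exact Submodule.smul_mem _ _ (Submodule.subset_span ⟨_, rfl⟩)
  have hfin : FiniteDimensional K (Submodule.span K (Set.range v)) :=
    FiniteDimensional.span_of_finite _ (Set.finite_range v)
  refine ⟨Submodule.finiteDimensional_of_le hle, (Submodule.finrank_mono hle).trans ?_⟩
  refine (finrank_range_le_card v).trans ?_
  rw [Fintype.card_prod, Fintype.card_fin, Fintype.card_fun, Fintype.card_fin, Fintype.card_fin]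

/-- **Growth.** -/
theorem growth (V : Submodule K Ω) (hV : FiniteDimensional K V) :
    ∃ (m C e : ℕ) (z : Fin m → Algebra.adjoin K (V : Set Ω)), IsTranscendenceBasis K z ∧
      ∀ s, Module.finrank K (V ^ s : Submodule K Ω) ≤ C * (e * (s + 1) + 1) ^ m := by
  classical
  let A := Algebra.adjoin K (V : Set Ω)
  have hfg : (V : Submodule K Ω).FG := Submodule.fg_iff_finiteDimensional V |>.mpr hV
  obtain ⟨S, hS⟩ := hfg
  have hA : A = Algebra.adjoin K (S : Set Ω) := by
    apply le_antisymm
    · apply Algebra.adjoin_le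
      rw [← hS]
      exact Algebra.span_le_adjoin K _
    · apply Algebra.adjoin_mono
      rw [← hS]
      exact Submodule.subset_span
  have hft : Algebra.FiniteType K A := by
    rw [← Subalgebra.fg_iff_finiteType]
    exact ⟨S, hA.symm⟩
  obtain ⟨m, g, hginj, hgfin⟩ := exists_finite_inj_algHom_of_fg K A
  -- generators
  letI := g.toRingHom.toAlgebra
  have hmf : Module.Finite (MvPolynomial (Fin m) K) A := hgfin
  obtain ⟨r, a, ha⟩ := Module.Finite.exists_fin (R := MvPolynomial (Fin m) K) (M := A)
  have hexp : ∀ x : A, ∃ f : Fin r → MvPolynomial (Fin m) K, x = ∑ l, g (f l) * a l := by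
    intro x
    have h1 : x ∈ Submodule.span (MvPolynomial (Fin m) K) (Set.range a) := by
      rw [ha]; trivial
    rw [Submodule.mem_span_range_iff_exists_fun] at h1
    obtain ⟨f, hf⟩ := h1
    refine ⟨f, ?_⟩
    rw [← hf]
    exact Finset.sum_congr rfl fun l _ => Algebra.smul_def _ _
  let b : S → A := fun s => ⟨s, by rw [hA]; exact Algebra.subset_adjoin s.2⟩
  choose f hf using fun p : S × Fin r => hexp (b p.1 * a p.2)
  obtain ⟨f₁, hf₁⟩ := hexp 1
  obtain ⟨e, he⟩ : ∃ e : ℕ, (∀ p l i, (f p l).degreeOf i ≤ e) ∧ ∀ l i, (f₁ l).degreeOf i ≤ e := by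
    refine ⟨(∑ p, ∑ l, ∑ i, (f p l).degreeOf i) + ∑ l, ∑ i, (f₁ l).degreeOf i, ?_, ?_⟩
    · intro p l i
      refine le_trans ?_ (Nat.le_add_right _ _)
      refine le_trans ?_ (Finset.single_le_sum (f := fun p => ∑ l, ∑ i, (f p l).degreeOf i)
        (fun _ _ => Nat.zero_le _) (Finset.mem_univ p))
      refine le_trans ?_ (Finset.single_le_sum (f := fun l => ∑ i, (f p l).degreeOf i)
        (fun _ _ => Nat.zero_le _) (Finset.mem_univ l))
      exact Finset.single_le_sum (f := fun i => (f p l).degreeOf i)
        (fun _ _ => Nat.zero_le _) (Finset.mem_univ i)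
    · intro l i
      refine le_trans ?_ (Nat.le_add_left _ _)
      refine le_trans ?_ (Finset.single_le_sum (f := fun l => ∑ i, (f₁ l).degreeOf i)
        (fun _ _ => Nat.zero_le _) (Finset.mem_univ l))
      exact Finset.single_le_sum (f := fun i => (f₁ l).degreeOf i)
        (fun _ _ => Nat.zero_le _) (Finset.mem_univ i)
  let g' : MvPolynomial (Fin m) K →ₐ[K] Ω := A.val.comp g
  let a' : Fin r → Ω := fun l => (a l : Ω)
  have hstep : ∀ s, (V ^ s : Submodule K Ω) ≤ TT g' a' (e * (s + 1)) := by
    intro s
    induction s with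
    | zero =>
      rw [pow_zero, Submodule.one_le, zero_add, mul_one]
      refine ⟨f₁, he.2, ?_⟩
      have h1 := congrArg (fun x : A => (x : Ω)) hf₁
      simpa [g', a'] using h1
    | succ s ih =>
      rw [pow_succ', Submodule.mul_le]
      intro v hv x hx
      obtain ⟨h, hh, hx⟩ := ih hx
      rw [← hS] at hv
      induction hv using Submodule.span_induction with
      | mem v hv =>
        refine ⟨fun l' => ∑ l, h l * f (⟨v, hv⟩, l) l', fun l' i => ?_, ?_⟩
        · refine (degreeOf_sum_le i _ _).trans ?_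
          refine Finset.sup_le fun l _ => ?_
          refine (degreeOf_mul_le i _ _).trans ?_
          have h1 := hh l i
          have h2 := he.1 (⟨v, hv⟩, l) l' i
          have h3 : e * (s + 1 + 1) = e * (s + 1) + e := by ring
          rw [h3]
          exact Nat.add_le_add h1 h2
        · rw [hx, Finset.mul_sum]
          have h1 : ∀ l, v * (g' (h l) * a' l) = ∑ l', g' (h l * f (⟨v, hv⟩, l) l') * a' l' := by
            intro l
            have h2 := congrArg (fun x : A => (x : Ω)) (hf (⟨v, hv⟩, l))
            have h3 : v * a' l = ∑ l', g' (f (⟨v, hv⟩, l) l') * a' l' := by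
              simpa [g', a', b] using h2
            calc v * (g' (h l) * a' l) = g' (h l) * (v * a' l) := by ring
              _ = g' (h l) * ∑ l', g' (f (⟨v, hv⟩, l) l') * a' l' := by rw [h3]
              _ = _ := by
                rw [Finset.mul_sum]
                exact Finset.sum_congr rfl fun l' _ => by rw [map_mul, mul_assoc]
          rw [Finset.sum_congr rfl fun l _ => h1 l, Finset.sum_comm]
          exact Finset.sum_congr rfl fun l' _ => by rw [map_sum, Finset.sum_mul]
      | zero => rw [zero_mul]; exact Submodule.zero_mem _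
      | add v w _ _ hv hw => rw [add_mul]; exact Submodule.add_mem _ hv hw
      | smul c v _ hv =>
        rw [smul_mul_assoc]
        exact Submodule.smul_mem _ _ hv
  refine ⟨m, r, e, fun i => g (X i), ?_, fun s => ?_⟩
  · have htow : IsScalarTower K (MvPolynomial (Fin m) K) A :=
      IsScalarTower.of_algebraMap_eq fun x => (g.commutes x).symm
    have halg : Algebra.IsAlgebraic (MvPolynomial (Fin m) K) A := inferInstance
    have hf : FaithfulSMul (MvPolynomial (Fin m) K) A := by
      rw [faithfulSMul_iff_algebraMap_injective]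
      exact hginj
    have h1 := (IsTranscendenceBasis.mvPolynomial (Fin m) K).algebraMap_comp (A := A)
    exact h1
  · obtain ⟨hfd, hfr⟩ := TT_finrank g' a' (e * (s + 1))
    exact (Submodule.finrank_mono (hstep s)).trans hfr

end

end Pool.Agent.Zk18.Dg
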