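import Pool.Agent.Zk18.Dg1

/-!
# The degrees of the relations between the elements of a finite-dimensional space are bounded
-/

set_option autoImplicit false

namespace Pool.Agent.Zk18.Dg

open MvPolynomial

/-- monomials with bounded exponents are linearly independent if there is no relation of bounded
degree -/
theorem linInd_of_no_relation {R A ι : Type} [CommRing R] [CommRing A] [Algebra R A] [Fintype ι]
    (w : ι → A) (s : ℕ)
    (h : ∀ P : MvPolynomial ι R, (∀ i, P.degreeOf i ≤ s) → aeval w P = 0 → P = 0) :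
    LinearIndependent R (fun β : ι → Fin (s + 1) => ∏ i, w i ^ (β i : ℕ)) := by
  classical
  rw [Fintype.linearIndependent_iff]
  intro c hc β
  let ex : (ι → Fin (s + 1)) → (ι →₀ ℕ) := fun β => Finsupp.equivFunOnFinite.symm fun i => (β i : ℕ)
  have hex : Function.Injective ex := by
    intro β β' hββ
    funext i
    have h1 := DFunLike.congr_fun hββ i
    exact Fin.ext h1
  let P : MvPolynomial ι R := ∑ β, monomial (ex β) (c β)
  have hP0 : P = 0 := by
    apply h
    · intro i
      refine (degreeOf_sum_le i _ _).trans (Finset.sup_le fun β _ => ?_)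
      by_cases hcβ : c β = 0
      · rw [hcβ, monomial_zero, degreeOf_zero]
        exact Nat.zero_le _
      · rw [degreeOf_monomial_eq _ _ hcβ]
        exact Nat.le_of_lt_succ (β i).2
    · simp only [P, map_sum, aeval_monomial]
      rw [← hc]
      refine Finset.sum_congr rfl fun β _ => ?_
      rw [Algebra.smul_def, Finsupp.prod_fintype _ _ (fun i => pow_zero _)]
      rfl
  have h1 : P.coeff (ex β) = c β := by
    simp only [P, coeff_sum, coeff_monomial]
    rw [Finset.sum_eq_single β]
    · rw [if_pos rfl]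
    · intro β' _ hne
      rw [if_neg fun h => hne (hex h)]
    · intro h
      exact absurd (Finset.mem_univ _) h
  rw [← h1, hP0, coeff_zero]

section

variable {K : Type} [Field K]

/-- a relation makes the last coordinate algebraic -/
theorem alg_of_rel {B : Type} [CommRing B] [IsDomain B] [Algebra K B] {k : ℕ} (y : Fin (k + 1) → B)
    (i : Fin (k + 1)) (hb : AlgebraicIndependent K fun j => y (i.succAbove j))
    (P : MvPolynomial (Fin (k + 1)) K) (hP : P ≠ 0) (hPy : aeval y P = 0) :
    IsAlgebraic (Algebra.adjoin K (Set.range fun j => y (i.succAbove j))) (y i) := by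
  by_contra hno
  have h1 := (hb.option_iff_transcendental (y i)).mpr hno
  have h2 : AlgebraicIndependent K y := by
    refine (algebraicIndependent_equiv' (finSuccEquiv' i).symm ?_).mp h1
    funext o
    cases o with
    | none => simp
    | some j => simp
  exact hP (h2 (hPy.trans (map_zero _).symm))

variable {Ω : Type} [Field Ω] [Algebra K Ω]

theorem prod_mem_pow {ι : Type} (V : Submodule K Ω) (x : ι → Ω)
    (hx : ∀ i, x i ∈ V) (α : ι → ℕ) (S : Finset ι) :
    ∏ i ∈ S, x i ^ α i ∈ V ^ (∑ i ∈ S, α i) := by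
  classical
  induction S using Finset.induction_on with
  | empty => simp
  | insert i S hi ih =>
    rw [Finset.prod_insert hi, Finset.sum_insert hi, pow_add]
    exact Submodule.mul_mem_mul (Submodule.pow_mem_pow V (hx i) _) ih

theorem pow_mono (V : Submodule K Ω) (h1 : (1 : Ω) ∈ V) {a b : ℕ} (h : a ≤ b) : V ^ a ≤ V ^ b := by
  obtain ⟨c, rfl⟩ := Nat.exists_eq_add_of_le h
  intro x hx
  rw [pow_add, ← mul_one x]
  exact Submodule.mul_mem_mul hx (by
    have h2 := Submodule.pow_mem_pow V h1 c
    rwa [one_pow] at h2)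

/-- **The degrees of the relations are bounded.** -/
theorem degree_bound (V : Submodule K Ω) (hV : FiniteDimensional K V) (h1 : (1 : Ω) ∈ V) (k : ℕ) :
    ∃ s₀ : ℕ, ∀ y : Fin (k + 1) → Ω, (∀ i, y i ∈ V) →
      (∃ i : Fin (k + 1), AlgebraicIndependent K fun j => y (i.succAbove j)) →
      (∃ P : MvPolynomial (Fin (k + 1)) K, P ≠ 0 ∧ aeval y P = 0) →
      ∃ P : MvPolynomial (Fin (k + 1)) K, P ≠ 0 ∧ (∀ i, P.degreeOf i ≤ s₀) ∧ aeval y P = 0 := by
  classical
  obtain ⟨m, C, e, z, hz, hgr⟩ := growth V hV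
  obtain ⟨s, hs⟩ : ∃ s, s = C * (e * (m + 2) + 1) ^ m := ⟨_, rfl⟩
  refine ⟨s, ?_⟩
  rintro y hyV ⟨i, hi⟩ ⟨P₀, hP₀, hP₀y⟩
  by_contra hno
  push Not at hno
  let A := Algebra.adjoin K (V : Set Ω)
  let y' : Fin (k + 1) → A := fun l => ⟨y l, Algebra.subset_adjoin (hyV l)⟩
  let b : Fin k → A := fun j => y' (i.succAbove j)
  have hb : AlgebraicIndependent K b := by
    refine AlgebraicIndependent.of_comp A.val ?_
    exact hi
  have hP₀y' : aeval y' P₀ = 0 := by
    have h2 : A.val (aeval y' P₀) = 0 := by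
      rw [MvPolynomial.comp_aeval_apply]
      exact hP₀y
    exact Subtype.val_injective h2
  have halg : IsAlgebraic (Algebra.adjoin K (Set.range b)) (y' i) := alg_of_rel y' i hb P₀ hP₀ hP₀y'
  let t : Set A := {x | (x : Ω) ∈ V}
  have ht : Algebra.adjoin K t = ⊤ := by
    rw [← Algebra.adjoin_adjoin_coe_preimage (R := K) (s := (V : Set Ω))]
    rfl
  have hbt : Set.range b ⊆ t := by
    rintro _ ⟨j, rfl⟩
    exact hyV _
  have hA : Algebra.IsAlgebraic (Algebra.adjoin K t) A := by
    rw [ht]
    refine ⟨fun x => ?_⟩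
    exact isAlgebraic_algebraMap (A := A) (⟨x, trivial⟩ : (⊤ : Subalgebra K A))
  obtain ⟨u, hbu, hut, hu⟩ := exists_isTranscendenceBasis_between (R := K) (Set.range b) t hbt hb.coe_range
  have hcard : Cardinal.mk u = (m : Cardinal) := by
    rw [hu.cardinalMk_eq hz, Cardinal.mk_fin]
  have hufin : Finite u := by
    rw [← Cardinal.mk_lt_aleph0_iff, hcard]
    exact Cardinal.natCast_lt_aleph0
  letI : Fintype u := Fintype.ofFinite u
  have hucard : Fintype.card u = m := by
    rw [Cardinal.mk_fintype] at hcard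
    exact_mod_cast hcard
  let T : Set u := {p | (p : A) ∈ Set.range b}
  have hTim : ((fun p : u => (p : A)) '' T) = Set.range b := by
    ext x
    constructor
    · rintro ⟨p, hp, rfl⟩
      exact hp
    · intro hx
      exact ⟨⟨x, hbu hx⟩, hx, rfl⟩
  have hT : Fintype.card T = k := by
    have h2 : Fintype.card T = Fintype.card (Fin k) := by
      symm
      apply Fintype.card_congr
      refine Equiv.ofBijective (fun j => ⟨⟨b j, hbu ⟨j, rfl⟩⟩, ⟨j, rfl⟩⟩) ⟨?_, ?_⟩
      · intro j j' hjj
        apply hb.injective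
        exact congrArg (fun p : T => ((p : u) : A)) hjj
      · rintro ⟨⟨p, hp⟩, ⟨j, hj⟩⟩
        exact ⟨j, by apply Subtype.ext; apply Subtype.ext; exact hj⟩
    rw [h2, Fintype.card_fin]
  have hTc : Fintype.card (Tᶜ : Set u) + k = m := by
    have h2 := Fintype.card_compl_set T
    have h3 := set_fintype_card_le_univ T
    omega
  have hind := (AlgebraicIndependent.iff_adjoin_image (R := K) (x := fun p : u => (p : A)) T).mp hu.1
  rw [hTim] at hind
  let w : (Tᶜ : Set u) → A := fun p => ((p : u) : A)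
  have hw : AlgebraicIndependent (Algebra.adjoin K (Set.range b)) w := hind.2
  let S := Subalgebra.algebraicClosure (Algebra.adjoin K (Set.range b)) A
  have hw' : AlgebraicIndependent S w := hw.subalgebraAlgebraicClosure
  have hyS : ∀ l, y' l ∈ S := by
    intro l
    rcases Fin.eq_self_or_eq_succAbove i l with rfl | ⟨j, rfl⟩
    · exact halg
    · exact isAlgebraic_algebraMap (A := A)
        (⟨b j, Algebra.subset_adjoin ⟨j, rfl⟩⟩ : Algebra.adjoin K (Set.range b))
  let yS : Fin (k + 1) → S := fun l => ⟨y' l, hyS l⟩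
  have hl1 : LinearIndependent K (fun α : Fin (k + 1) → Fin (s + 1) => ∏ l, yS l ^ (α l : ℕ)) := by
    apply linInd_of_no_relation
    intro P hP hPy
    by_contra hP0
    apply hno P hP0 hP
    have h2 : A.val (S.val (aeval yS P)) = 0 := by rw [hPy, map_zero, map_zero]
    have h3 : S.val (aeval yS P) = aeval y' P := by
      have h4 : (aeval y' : MvPolynomial (Fin (k + 1)) K →ₐ[K] A) =
          (S.val.restrictScalars K).comp (aeval yS) := by
        apply MvPolynomial.algHom_ext
        intro l
        simp [yS]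
      rw [h4]
      rfl
    rw [h3, MvPolynomial.comp_aeval_apply] at h2
    exact h2
  have hl2 : LinearIndependent S (fun β : (Tᶜ : Set u) → Fin (s + 1) => ∏ p, w p ^ (β p : ℕ)) :=
    linInd_of_no_relation (R := S) (A := A) w s
      (fun P _ hPw => hw' (hPw.trans (map_zero _).symm))
  have hl3 := linearIndependent_smul hl1 hl2
  let F : (Fin (k + 1) → Fin (s + 1)) × ((Tᶜ : Set u) → Fin (s + 1)) → Ω := fun p =>
    (∏ l, y l ^ (p.1 l : ℕ)) * ∏ q, ((w q : A) : Ω) ^ (p.2 q : ℕ)
  have hl4 : LinearIndependent K F := by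
    have h2 := hl3.map' A.val.toLinearMap (LinearMap.ker_eq_bot.mpr Subtype.val_injective)
    have h3 : F = A.val.toLinearMap ∘ fun p : (Fin (k + 1) → Fin (s + 1)) ×
        ((Tᶜ : Set u) → Fin (s + 1)) => (∏ l, yS l ^ (p.1 l : ℕ)) • ∏ q, w q ^ (p.2 q : ℕ) := by
      funext p
      simp only [F, Function.comp_apply, AlgHom.toLinearMap_apply, Algebra.smul_def, map_mul,
        map_prod, map_pow]
      rfl
    rw [h3]
    exact h2
  have hmem : ∀ p, F p ∈ V ^ ((m + 1) * s) := by
    intro p
    have h2 := prod_mem_pow V y hyV (fun l => (p.1 l : ℕ)) Finset.univ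
    have h3 := prod_mem_pow V (fun q => ((w q : A) : Ω)) (fun q => hut (q : u).2)
      (fun q => (p.2 q : ℕ)) Finset.univ
    have h4 := Submodule.mul_mem_mul h2 h3
    rw [← pow_add] at h4
    refine pow_mono V h1 ?_ h4
    have h5 : ∑ l, (p.1 l : ℕ) ≤ (k + 1) * s := by
      refine (Finset.sum_le_sum (g := fun _ => s) fun l _ => Nat.le_of_lt_succ (p.1 l).2).trans ?_
      rw [Finset.sum_const, Finset.card_univ, Fintype.card_fin, smul_eq_mul]
    have h6 : ∑ q, (p.2 q : ℕ) ≤ Fintype.card (Tᶜ : Set u) * s := by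
      refine (Finset.sum_le_sum (g := fun _ => s) fun l _ => Nat.le_of_lt_succ (p.2 l).2).trans ?_
      rw [Finset.sum_const, Finset.card_univ, smul_eq_mul]
    refine (Nat.add_le_add h5 h6).trans (le_of_eq ?_)
    rw [← Nat.add_mul, ← hTc]
    congr 1
    ring
  have hfd : FiniteDimensional K (V ^ ((m + 1) * s) : Submodule K Ω) := by
    have h2 : (V : Submodule K Ω).FG := (Submodule.fg_iff_finiteDimensional V).mpr hV
    exact (Submodule.fg_iff_finiteDimensional _).mp (h2.pow _)
  have hle : (s + 1) ^ (m + 1) ≤ C * (e * ((m + 1) * s + 1) + 1) ^ m := by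
    refine le_trans ?_ (hgr ((m + 1) * s))
    have h2 := finrank_span_eq_card hl4
    have h3 : Fintype.card ((Fin (k + 1) → Fin (s + 1)) × ((Tᶜ : Set u) → Fin (s + 1))) =
        (s + 1) ^ (m + 1) := by
      rw [Fintype.card_prod, Fintype.card_fun, Fintype.card_fun, Fintype.card_fin, Fintype.card_fin,
        ← pow_add, ← hTc]
      congr 1
      ring
    rw [h3] at h2
    rw [← h2]
    apply Submodule.finrank_mono
    rw [Submodule.span_le]
    rintro _ ⟨p, rfl⟩
    exact hmem p
  have hle2 : C * (e * ((m + 1) * s + 1) + 1) ^ m ≤ s * (s + 1) ^ m := by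
    have h2 : e * ((m + 1) * s + 1) + 1 ≤ (e * (m + 2) + 1) * (s + 1) := by nlinarith
    have h3 : C * (e * ((m + 1) * s + 1) + 1) ^ m ≤ C * ((e * (m + 2) + 1) * (s + 1)) ^ m :=
      Nat.mul_le_mul_left _ (Nat.pow_le_pow_left h2 m)
    rw [mul_pow, ← mul_assoc, ← hs] at h3
    exact h3
  have h5 := hle.trans hle2
  rw [pow_succ, mul_comm s] at h5
  have h6 : 0 < (s + 1) ^ m := Nat.pow_pos (Nat.succ_pos s)
  have h7 := Nat.le_of_mul_le_mul_left h5 h6
  omega

end

end Pool.Agent.Zk18.Dg
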