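import Pool.Agent.Zk18.Dg3

/-!
# Points on polynomially parametrised plane curves
-/

set_option autoImplicit false

namespace Pool.Agent.Zk18.Dg

open MvPolynomial

/-- points over an algebraically closed field -/
theorem exists_point {K R : Type} [Field K] [IsAlgClosed K] [CommRing R] [IsDomain R] [Algebra K R]
    [Algebra.FiniteType K R] (a : R) (ha : a ≠ 0) : ∃ s : R →ₐ[K] K, s a ≠ 0 := by
  let L := Localization.Away a
  have hinj : Function.Injective (algebraMap R L) :=
    IsLocalization.injective L (powers_le_nonZeroDivisors_of_noZeroDivisors ha)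
  have hL : Nontrivial L := hinj.nontrivial
  have hft : Algebra.FiniteType R L := IsLocalization.finiteType_of_monoid_fg (Submonoid.powers a) L
  have hft2 : Algebra.FiniteType K L := Algebra.FiniteType.trans (S := R) inferInstance hft
  obtain ⟨M, hM⟩ := Ideal.exists_maximal L
  let _ : Field (L ⧸ M) := Ideal.Quotient.field M
  have h1 : Algebra.FiniteType K (L ⧸ M) :=
    Algebra.FiniteType.of_surjective (Ideal.Quotient.mkₐ K M) (Ideal.Quotient.mkₐ_surjective K M)
  have h2 : Module.Finite K (L ⧸ M) := finite_of_finite_type_of_isJacobsonRing K (L ⧸ M)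
  have h3 : Algebra.IsIntegral K (L ⧸ M) := Algebra.IsIntegral.of_finite K (L ⧸ M)
  have h4 := IsAlgClosed.algebraMap_bijective_of_isIntegral (k := K) (K := L ⧸ M)
  let e : K ≃ₐ[K] (L ⧸ M) := AlgEquiv.ofBijective (Algebra.ofId K (L ⧸ M)) h4
  let s : R →ₐ[K] K := e.symm.toAlgHom.comp ((Ideal.Quotient.mkₐ K M).comp
    (IsScalarTower.toAlgHom K R L))
  refine ⟨s, ?_⟩
  have h5 : IsUnit (algebraMap R L a) := IsLocalization.Away.algebraMap_isUnit a
  have h6 : IsUnit (s a) := by
    have h7 := (h5.map (Ideal.Quotient.mkₐ K M)).map e.symm.toAlgHom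
    exact h7
  exact h6.ne_zero

section

variable {K Ω : Type} [Field K] [Field Ω] [Algebra K Ω]

/-- a nonconstant curve through a point with a transcendental coordinate is nonconstant in this
coordinate -/
theorem coord_nonconstant (y : Fin 2 → Ω) (i : Fin 2)
    (hi : AlgebraicIndependent K fun j : Fin 1 => y (i.succAbove j))
    (P : MvPolynomial (Fin 2) K) (hP : P ≠ 0) (c : Fin 2 → Polynomial Ω)
    (hc : ∀ l, (c l).coeff 0 = y l) (hcP : aeval c P = 0) (hne : ∃ l, c l ≠ Polynomial.C (y l)) :
    c (i.succAbove 0) ≠ Polynomial.C (y (i.succAbove 0)) := by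
  classical
  intro hconst
  have hne' : c i ≠ Polynomial.C (y i) := by
    obtain ⟨l, hl⟩ := hne
    rcases Fin.eq_self_or_eq_succAbove i l with rfl | ⟨j, rfl⟩
    · exact hl
    · have hj : j = 0 := Subsingleton.elim _ _
      rw [hj] at hl
      exact absurd hconst hl
  let ev : Polynomial Ω →ₐ[K] Ω := (Polynomial.aeval (0 : Ω)).restrictScalars K
  have hev : ∀ p : Polynomial Ω, ev p = p.coeff 0 := by
    intro p
    have h1 : ev p = Polynomial.aeval (0 : Ω) p := rfl
    rw [h1, Polynomial.coeff_zero_eq_aeval_zero]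
  let cj : Fin 1 → Polynomial Ω := fun j => c (i.succAbove j)
  have hcj : AlgebraicIndependent K cj := by
    refine AlgebraicIndependent.of_comp ev ?_
    have h1 : (ev ∘ cj) = fun j => y (i.succAbove j) := by
      funext j
      rw [Function.comp_apply, hev]
      exact hc _
    rw [h1]
    exact hi
  obtain ⟨q, hq0, hq⟩ := alg_of_rel c i hcj P hP hcP
  let B := Algebra.adjoin K (Set.range cj)
  have hB : ∀ b : B, (b : Polynomial Ω) = Polynomial.C (ev b) := by
    intro b
    have h1 : (b : Polynomial Ω) ∈ ((Polynomial.CAlgHom : Ω →ₐ[Ω] Polynomial Ω).restrictScalars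
        K).range := by
      have h2 : B ≤ ((Polynomial.CAlgHom : Ω →ₐ[Ω] Polynomial Ω).restrictScalars K).range := by
        apply Algebra.adjoin_le
        rintro _ ⟨j, rfl⟩
        have hj : j = 0 := Subsingleton.elim _ _
        refine ⟨y (i.succAbove 0), ?_⟩
        rw [hj]
        exact hconst.symm
      exact h2 b.2
    obtain ⟨w, hw⟩ := h1
    have h3 : Polynomial.C w = (b : Polynomial Ω) := hw
    rw [← h3, hev, Polynomial.coeff_C_zero]
  let φ : B →+* Ω := ev.toRingHom.comp (algebraMap B (Polynomial Ω))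
  have hφ : ∀ b : B, φ b = ev (b : Polynomial Ω) := fun _ => rfl
  have hφinj : Function.Injective φ := by
    intro b b' hbb
    apply Subtype.ext
    rw [hB b, hB b', ← hφ, ← hφ, hbb]
  have hcomp : (Polynomial.C : Ω →+* Polynomial Ω).comp φ = algebraMap B (Polynomial Ω) := by
    ext1 b
    exact (hB b).symm
  have h1 : Polynomial.aeval (c i) (q.map φ) = 0 := by
    rw [Polynomial.aeval_def, Polynomial.eval₂_map]
    have h2 : (algebraMap Ω (Polynomial Ω)).comp φ = algebraMap B (Polynomial Ω) := hcomp
    rw [h2]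
    exact hq
  have h2 : (q.map φ) ≠ 0 := (Polynomial.map_ne_zero_iff hφinj).mpr hq0
  have h3 : (c i).natDegree ≠ 0 := by
    intro h4
    apply hne'
    rw [Polynomial.eq_C_of_natDegree_eq_zero h4, hc]
  exact Polynomial.transcendental (c i) h3 (mem_nonZeroDivisors_of_ne_zero (by
    rw [ne_eq, Polynomial.leadingCoeff_eq_zero]
    intro h5
    rw [h5] at h3
    exact h3 Polynomial.natDegree_zero)) ⟨_, h2, h1⟩

end

end Pool.Agent.Zk18.Dg
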