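import Pool.Agent.Zk18.Hs

/-!
# Evaluation of Laurent series at Hahn series of positive order
-/

set_option autoImplicit false

attribute [-instance] HahnSeries.powerSeriesAlgebra

namespace Pool.Agent.Zk18

open HahnSeries

section ps

variable (K : Type*) {R : Type*} [Field K] [CommRing R] [Algebra K R]

/-- evaluation of power series over `K` -/
noncomputable def evP (x : HahnSeries ℚ R) : PowerSeries K →+* HahnSeries ℚ R :=
  (PowerSeries.heval x).toRingHom.comp (PowerSeries.map (algebraMap K R))

theorem evP_C (x : HahnSeries ℚ R) (k : K) :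
    evP K x (PowerSeries.C k) = C (algebraMap K R k) := by
  unfold evP
  rw [RingHom.comp_apply, PowerSeries.map_C]
  change PowerSeries.heval x (PowerSeries.C (algebraMap K R k)) = _
  rw [PowerSeries.heval_C, ← C_mul_eq_smul, mul_one]

theorem evP_X {x : HahnSeries ℚ R} (hx : 0 < x.orderTop) : evP K x PowerSeries.X = x := by
  unfold evP
  rw [RingHom.comp_apply, PowerSeries.map_X]
  exact PowerSeries.heval_X x hx

theorem orderTop_evP (x : HahnSeries ℚ R) (hx : 0 < x.orderTop) (p : PowerSeries K) :
    0 ≤ (evP K x p).orderTop := by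
  rw [le_orderTop_iff]
  intro q hq
  change (PowerSeries.heval x (PowerSeries.map (algebraMap K R) p)).coeff q = 0
  rw [PowerSeries.coeff_heval]
  apply finsum_eq_zero_of_forall_eq_zero
  intro n
  simp only [SummableFamily.coeff_apply, SummableFamily.smulFamily_toFun, coeff_smul, smul_eq_mul]
  rw [SummableFamily.powers_of_orderTop_pos hx]
  rw [coeff_eq_zero_of_lt_orderTop (hq.trans_le (orderTop_pow_nonneg hx.le n)), mul_zero]

end ps

section ls

variable (K : Type*) {R : Type*} [Field K] [CommRing R] [Algebra K R]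

/-- evaluation of Laurent series over `K` at a unit of positive order -/
noncomputable def evL (x : (HahnSeries ℚ R)ˣ) (hx : 0 < (x : HahnSeries ℚ R).orderTop) :
    HahnSeries ℤ K →+* HahnSeries ℚ R :=
  IsLocalization.lift (M := Submonoid.powers (PowerSeries.X : PowerSeries K))
    (S := LaurentSeries K) (g := evP K (x : HahnSeries ℚ R)) (by
      rintro ⟨_, n, rfl⟩
      rw [map_pow, evP_X K hx]
      exact (x ^ n).isUnit)

variable {x : (HahnSeries ℚ R)ˣ} (hx : 0 < (x : HahnSeries ℚ R).orderTop)

theorem evL_ofPowerSeries (p : PowerSeries K) :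
    evL K x hx (ofPowerSeries ℤ K p) = evP K (x : HahnSeries ℚ R) p := by
  unfold evL
  exact IsLocalization.lift_eq (M := Submonoid.powers (PowerSeries.X : PowerSeries K))
    (S := LaurentSeries K) _ p

theorem evL_C (k : K) : evL K x hx (C k) = C (algebraMap K R k) := by
  rw [← ofPowerSeries_C, evL_ofPowerSeries, evP_C]

theorem evL_single_one : evL K x hx (single 1 1) = x := by
  rw [← ofPowerSeries_X, evL_ofPowerSeries, evP_X K hx]

theorem evL_single (n : ℕ) : evL K x hx (single (n : ℤ) 1) = (x : HahnSeries ℚ R) ^ n := by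
  rw [← ofPowerSeries_X_pow, map_pow, ofPowerSeries_X, map_pow, evL_single_one]

/-- **Approximation.** -/
theorem evL_approx (y : HahnSeries ℤ K) (a : ℕ) (hy : ∀ n : ℤ, n < -(a : ℤ) → y.coeff n = 0)
    (M : ℕ) : ∃ ρ : HahnSeries ℚ R, 0 ≤ ρ.orderTop ∧
      (x : HahnSeries ℚ R) ^ a * evL K x hx y =
        ∑ j ∈ Finset.range M, C (algebraMap K R (y.coeff ((j : ℤ) - a))) *
          (x : HahnSeries ℚ R) ^ j + (x : HahnSeries ℚ R) ^ M * ρ := by
  set p : PowerSeries K := PowerSeries.mk (fun j => y.coeff ((j : ℤ) - a)) with hp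
  have h1 : single (a : ℤ) 1 * y = ofPowerSeries ℤ K p := by
    ext n
    rcases lt_or_ge n 0 with hn | hn
    · have h2 : (ofPowerSeries ℤ K p).coeff n = 0 := by
        rw [ofPowerSeries_apply]
        apply embDomain_of_notMem_range
        rintro ⟨m, hm⟩
        have : (m : ℤ) = n := hm
        omega
      rw [h2]
      have h3 : n = (a : ℤ) + (n - a) := by ring
      rw [h3, add_comm, coeff_single_mul_add, one_mul]
      apply hy
      omega
    · obtain ⟨m, rfl⟩ := Int.eq_ofNat_of_zero_le hn
      rw [ofPowerSeries_apply_coeff, hp, PowerSeries.coeff_mk]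
      have h3 : (m : ℤ) = (m : ℤ) - a + a := by ring
      rw [h3, coeff_single_mul_add, one_mul]
      congr 1
      ring
  refine ⟨evP K (x : HahnSeries ℚ R) (PowerSeries.mk fun i => PowerSeries.coeff (i + M) p),
    orderTop_evP K _ hx _, ?_⟩
  rw [← evL_single K hx a, ← map_mul, h1, evL_ofPowerSeries]
  conv_lhs => rw [p.eq_X_pow_mul_shift_add_trunc M]
  rw [map_add, map_mul, map_pow, evP_X K hx, add_comm]
  congr 1
  have h4 : ((p.trunc M : Polynomial K) : PowerSeries K) =
      ∑ j ∈ Finset.range M, PowerSeries.C (y.coeff ((j : ℤ) - a)) * PowerSeries.X ^ j := by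
    ext n
    rw [Polynomial.coeff_coe, PowerSeries.coeff_trunc, map_sum]
    simp only [PowerSeries.coeff_C_mul, PowerSeries.coeff_X_pow, mul_ite, mul_one, mul_zero]
    rw [Finset.sum_ite_eq]
    simp only [Finset.mem_range]
    split_ifs
    · rw [hp, PowerSeries.coeff_mk]
    · rfl
  rw [h4, map_sum]
  apply Finset.sum_congr rfl
  intro j _
  rw [map_mul, map_pow, evP_C, evP_X K hx]

end ls

end Pool.Agent.Zk18
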