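import Pool.Agent.Zk18.Arc
import Pool.Agent.Zk18.Ev

/-!
# Rescaling around a zero close to a pole
-/

set_option autoImplicit false

attribute [-instance] HahnSeries.powerSeriesAlgebra

namespace Pool.Agent.Zk18

open HahnSeries Pool.Agent.Helper165.P1 Polynomial
open scoped LaurentPolynomial

variable {K : Type} [Field K]

theorem lp_T_pow (n : ℕ) : (LaurentPolynomial.T 1 : K[T;T⁻¹]) ^ n = LaurentPolynomial.T n := by
  rw [LaurentPolynomial.T_pow, mul_one]

theorem aeval_T_injective :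
    Function.Injective (aeval (LaurentPolynomial.T 1 : K[T;T⁻¹]) : K[X] → K[T;T⁻¹]) := by
  rw [injective_iff_map_eq_zero]
  intro p hp
  have h1 : (aeval (LaurentPolynomial.T 1 : K[T;T⁻¹]) p) = Polynomial.toLaurent p := by
    have h2 : (aeval (LaurentPolynomial.T 1 : K[T;T⁻¹]) : K[X] →ₐ[K] K[T;T⁻¹]) =
        Polynomial.toLaurentAlg := by
      apply Polynomial.algHom_ext
      simp
    rw [h2]
    rfl
  rw [h1] at hp
  exact Polynomial.toLaurent_injective (by rw [hp, map_zero])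

/-- a transcendental element such that `1 + e η` is a unit -/
theorem exists_eta (e : K) : ∃ η : K[T;T⁻¹], IsUnit (1 + algebraMap K K[T;T⁻¹] e * η) ∧
    Function.Injective (aeval η : K[X] → K[T;T⁻¹]) := by
  by_cases he : e = 0
  · refine ⟨LaurentPolynomial.T 1, ?_, aeval_T_injective⟩
    rw [he, map_zero, zero_mul, add_zero]
    exact isUnit_one
  · refine ⟨algebraMap K K[T;T⁻¹] e⁻¹ * (LaurentPolynomial.T 1 - 1), ?_, ?_⟩
    · have h1 : 1 + algebraMap K K[T;T⁻¹] e * (algebraMap K K[T;T⁻¹] e⁻¹ *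
          (LaurentPolynomial.T 1 - 1)) = LaurentPolynomial.T 1 := by
        rw [← mul_assoc, ← map_mul, mul_inv_cancel₀ he, map_one]
        ring
      rw [h1]
      exact LaurentPolynomial.isUnit_T 1
    · rw [injective_iff_map_eq_zero]
      intro p hp
      have h1 : aeval (algebraMap K K[T;T⁻¹] e⁻¹ * (LaurentPolynomial.T 1 - 1)) p =
          aeval (LaurentPolynomial.T 1 : K[T;T⁻¹]) (p.comp (C e⁻¹ * (X - 1))) := by
        rw [aeval_comp]
        congr 1
        simp
      rw [h1] at hp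
      have h2 : p.comp (C e⁻¹ * (X - 1)) = 0 := aeval_T_injective (by rw [hp, map_zero])
      have h3 : p = (p.comp (C e⁻¹ * (X - 1))).comp (1 + C e * X) := by
        rw [comp_assoc]
        have : (C e⁻¹ * (X - 1) : K[X]).comp (1 + C e * X) = X := by
          simp only [mul_comp, C_comp, sub_comp, X_comp, one_comp]
          rw [add_sub_cancel_left, ← mul_assoc, ← C_mul, inv_mul_cancel₀ he, C_1, one_mul]
        rw [this, comp_X]
      rw [h3, h2, zero_comp]

/-- constants in Hahn series -/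
noncomputable abbrev iot : Pui K →+* HahnSeries ℚ K[T;T⁻¹] :=
  (mapR (algebraMap K K[T;T⁻¹])).comp (Pui K).subtype

theorem orderTop_iot (x : Pui K) : (iot x).orderTop = vP K x := by
  rw [vP_apply]
  exact orderTop_mapR (algebraMap K K[T;T⁻¹]).injective _

theorem iot_coeff (x : Pui K) (q : ℚ) :
    (iot x).coeff q = algebraMap K K[T;T⁻¹] (((x : Pui K) : HQ K).coeff q) := rfl

theorem iot_algebraMap (k : K) : iot (algebraMap K (Pui K) k) = HahnSeries.C (algebraMap K K[T;T⁻¹] k) := by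
  change mapR _ (((algebraMap K (Pui K) k : Pui K)) : HQ K) = _
  rw [coe_algebraMap_Pui, mapR_C]

theorem coeff_zero_pow {R : Type*} [CommRing R] {x : HahnSeries ℚ R} (hx : 0 ≤ x.orderTop) (n : ℕ) :
    (x ^ n).coeff 0 = x.coeff 0 ^ n := by
  induction n with
  | zero => rw [pow_zero, pow_zero, HahnSeries.coeff_one, if_pos rfl]
  | succ n ih => rw [pow_succ, coeff_zero_mul (orderTop_pow_nonneg hx n) hx, ih, pow_succ]

/-- **Rescaling around a zero close to a pole.** -/
theorem disc_point [IsAlgClosed K] [CharZero K] (g : ℕ → Pui K) (a j₀ : ℕ) (hj₀ : 1 ≤ j₀)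
    (hg0 : g 0 ≠ 0) (hga : vP K (g a) ≤ 0) (hlt : vP K (g j₀) < vP K (g 0)) (B : ℚ) :
    ∃ (M : ℕ) (x : (HahnSeries ℚ K[T;T⁻¹])ˣ), a < M ∧
      0 < (x : HahnSeries ℚ K[T;T⁻¹]).orderTop ∧
      ∀ y ρ : HahnSeries ℚ K[T;T⁻¹], ((-B : ℚ) : WithTop ℚ) ≤ ρ.orderTop →
        (x : HahnSeries ℚ K[T;T⁻¹]) ^ a * y = ∑ j ∈ Finset.range M, iot (g j) *
          (x : HahnSeries ℚ K[T;T⁻¹]) ^ j + (x : HahnSeries ℚ K[T;T⁻¹]) ^ M * ρ →
        0 ≤ y.orderTop ∧ y.coeff 0 ∉ Set.range (algebraMap K K[T;T⁻¹]) := by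
  classical
  obtain ⟨q₀, hq₀⟩ := val_exists (vP K) hg0
  have hgj : g j₀ ≠ 0 := by
    intro h
    rw [h, (vP K).map_zero] at hlt
    exact absurd hlt (not_lt.mpr le_top)
  obtain ⟨q₁, hq₁⟩ := val_exists (vP K) hgj
  have hq : q₁ < q₀ := by
    rw [hq₀, hq₁] at hlt
    exact WithTop.coe_lt_coe.mp hlt
  have hj₀' : (0 : ℚ) < j₀ := by exact_mod_cast hj₀
  set r := (q₀ - q₁) / j₀ with hr
  have hrpos : 0 < r := div_pos (by linarith) hj₀'
  -- the number of terms
  obtain ⟨M₀, hM₀⟩ := exists_nat_gt (B / r)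
  set M := M₀ + a + j₀ + 1 with hM
  have hMa : a < M := by omega
  have hMj : j₀ < M := by omega
  have hMB : B < ((M : ℚ) - a) * r := by
    have h1 : B < M₀ * r := (div_lt_iff₀ hrpos).mp hM₀
    have h2 : (M₀ : ℚ) ≤ (M : ℚ) - a := by
      rw [hM]; push_cast
      have : (0 : ℚ) ≤ j₀ := hj₀'.le
      linarith
    have h3 : (M₀ : ℚ) * r ≤ ((M : ℚ) - a) * r := by gcongr
    linarith
  -- the polynomial
  set G : (Pui K)[X] := ∑ j ∈ Finset.range M, C (g j) * X ^ j with hG
  have hGc : ∀ j < M, G.coeff j = g j := by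
    intro j hj
    rw [hG, finsetSum_coeff, Finset.sum_eq_single j]
    · rw [coeff_C_mul, coeff_X_pow, if_pos rfl, mul_one]
    · intro i _ hi
      rw [coeff_C_mul, coeff_X_pow, if_neg (Ne.symm hi), mul_zero]
    · intro h
      exact absurd (Finset.mem_range.mpr hj) h
  have hG0 : G.coeff 0 = g 0 := hGc 0 (by omega)
  have hGd : 0 < G.natDegree := by
    have : j₀ ≤ G.natDegree := le_natDegree_of_ne_zero (by rw [hGc j₀ hMj]; exact hgj)
    omega
  obtain ⟨c, hc0, hc, hmax⟩ := exists_root_max (vP K) G (by rw [hG0]; exact hg0) hGd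
  obtain ⟨rc, hrc⟩ := val_exists (vP K) hc0
  have hrc' : r ≤ rc := by
    have h1 := hmax j₀
    rw [hG0, hGc j₀ hMj, (vP K).map_mul, hq₀, hq₁, val_pow (vP K) hrc, ← WithTop.coe_add,
      WithTop.coe_le_coe] at h1
    rw [hr, div_le_iff₀ hj₀']
    linarith
  have hrcpos : 0 < rc := lt_of_lt_of_le hrpos hrc'
  -- the rescaled polynomial
  set H : (Pui K)[X] := C ((c ^ a)⁻¹) * G.comp (C c * X) with hH
  have hHa : H.coeff a = g a := by
    rw [hH, coeff_C_mul, comp_C_mul_X_coeff, hGc a hMa]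
    field_simp
  obtain ⟨ε, hε, hε1, hε2⟩ := exists_scale (vP K) vP_surj (H.comp (1 + X)) (by
    rw [coeff_zero_eq_eval_zero, eval_comp, hH]
    simp only [eval_add, eval_one, eval_X, add_zero, eval_mul, eval_C, eval_comp, mul_one]
    rw [hc, mul_zero]) (exists_coeff_le (vP K) H a (by rw [hHa]; exact hga))
  set A := H.comp (1 + X) with hA
  have hA0 : A.coeff 0 = 0 := by
    rw [hA, coeff_zero_eq_eval_zero, eval_comp, hH]
    simp only [eval_add, eval_one, eval_X, add_zero, eval_mul, eval_C, eval_comp, mul_one]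
    rw [hc, mul_zero]
  obtain ⟨η, hηu, hηi⟩ := exists_eta (((ε : Pui K) : HQ K).coeff 0)
  -- the unit `E`
  set E : HahnSeries ℚ K[T;T⁻¹] := 1 + iot ε * HahnSeries.C η with hE
  have hιε : 0 ≤ (iot ε).orderTop := by rw [orderTop_iot]; exact hε
  have hεη : 0 ≤ (iot ε * HahnSeries.C η).orderTop := by
    have := orderTop_mul_le hιε (orderTop_C_nonneg η)
    rwa [add_zero] at this
  have hone : (0 : WithTop ℚ) ≤ (1 : HahnSeries ℚ K[T;T⁻¹]).orderTop := by
    rw [orderTop_one]
  have hE0 : 0 ≤ E.orderTop := by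
    have h1 : (0 : WithTop ℚ) ≤ min (1 : HahnSeries ℚ K[T;T⁻¹]).orderTop
      (iot ε * HahnSeries.C η).orderTop := le_min hone hεη
    exact h1.trans min_orderTop_le_orderTop_add
  have hEc : E.coeff 0 = 1 + algebraMap K K[T;T⁻¹] (((ε : Pui K) : HQ K).coeff 0) * η := by
    rw [hE, HahnSeries.coeff_add, coeff_zero_mul hιε (orderTop_C_nonneg η), HahnSeries.coeff_one,
      if_pos rfl, iot_coeff, HahnSeries.C_apply, HahnSeries.coeff_single, if_pos rfl]
  have hEne : E.coeff 0 ≠ 0 := by rw [hEc]; exact hηu.ne_zero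
  have hEo : E.orderTop = 0 := le_antisymm (orderTop_le_of_coeff_ne_zero hEne) hE0
  have hEunit : IsUnit E := by
    rw [HahnSeries.isUnit_iff, HahnSeries.leadingCoeff_eq]
    have hE1 : E ≠ 0 := by
      intro h
      rw [h, HahnSeries.coeff_zero] at hEne
      exact hEne rfl
    have h1 : E.order = 0 := by
      have := order_eq_orderTop_of_ne_zero hE1
      rw [hEo] at this
      exact_mod_cast this
    rw [h1, hEc]
    exact hηu
  have hcu : IsUnit (iot c) := (IsUnit.mk0 c hc0).map iot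
  obtain ⟨x, hx⟩ : IsUnit (iot c * E) := hcu.mul hEunit
  have hxo : (x : HahnSeries ℚ K[T;T⁻¹]).orderTop = (rc : WithTop ℚ) := by
    rw [hx, orderTop_mul, orderTop_iot, hrc, hEo, add_zero]
  refine ⟨M, x, hMa, ?_, ?_⟩
  · rw [hxo]
    exact_mod_cast hrcpos
  intro y ρ hρ hy
  -- the main term
  set Θ : HahnSeries ℚ K[T;T⁻¹] := ∑ k ∈ Finset.range (A.natDegree + 1),
    iot (A.coeff k * ε ^ k) * HahnSeries.C (η ^ k) with hΘ
  have hmain : ∑ j ∈ Finset.range M, iot (g j) * (x : HahnSeries ℚ K[T;T⁻¹]) ^ j =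
      iot c ^ a * Θ := by
    have h1 : ∑ j ∈ Finset.range M, iot (g j) * (x : HahnSeries ℚ K[T;T⁻¹]) ^ j =
        eval₂ iot (x : HahnSeries ℚ K[T;T⁻¹]) G := by
      rw [hG, eval₂_finsetSum]
      apply Finset.sum_congr rfl
      intro j _
      rw [eval₂_mul, eval₂_C, eval₂_X_pow]
    have h2 : eval₂ iot (x : HahnSeries ℚ K[T;T⁻¹]) G = iot c ^ a * eval₂ iot E H := by
      rw [hH, eval₂_mul, eval₂_C, eval₂_comp, eval₂_mul, eval₂_C, eval₂_X, ← hx, ← mul_assoc,
        ← map_pow, ← map_mul, mul_inv_cancel₀ (pow_ne_zero _ hc0), map_one, one_mul]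
    have h3 : eval₂ iot E H = eval₂ iot (iot ε * HahnSeries.C η) A := by
      rw [hA, eval₂_comp, eval₂_add, eval₂_one, eval₂_X]
    have h4 : eval₂ iot (iot ε * HahnSeries.C η) A = Θ := by
      rw [eval₂_eq_sum_range, hΘ]
      apply Finset.sum_congr rfl
      intro k _
      rw [mul_pow, map_mul, map_pow, map_pow]
      ring
    rw [h1, h2, h3, h4]
  have hΘ0 : 0 ≤ Θ.orderTop := by
    apply orderTop_sum
    intro k _
    have h1 : 0 ≤ (iot (A.coeff k * ε ^ k)).orderTop := by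
      rw [orderTop_iot]; exact hε1 k
    have := orderTop_mul_le h1 (orderTop_C_nonneg (η ^ k))
    rwa [add_zero] at this
  set Bp : K[X] := ∑ k ∈ Finset.range (A.natDegree + 1),
    C (((A.coeff k * ε ^ k : Pui K) : HQ K).coeff 0) * X ^ k with hBp
  have hΘc : Θ.coeff 0 = aeval η Bp := by
    rw [hΘ, HahnSeries.coeff_sum, hBp, map_sum]
    apply Finset.sum_congr rfl
    intro k _
    have h1 : 0 ≤ (iot (A.coeff k * ε ^ k)).orderTop := by
      rw [orderTop_iot]; exact hε1 k
    rw [coeff_zero_mul h1 (orderTop_C_nonneg _), iot_coeff, HahnSeries.C_apply,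
      HahnSeries.coeff_single, if_pos rfl, map_mul, aeval_C, map_pow (aeval η), aeval_X]
  -- the error term
  set err : HahnSeries ℚ K[T;T⁻¹] := iot c ^ (M - a) * E ^ M * ρ with herr
  have hEpow : ∀ n : ℕ, (E ^ n).orderTop = 0 := by
    intro n
    induction n with
    | zero => rw [pow_zero, orderTop_one]
    | succ n ih => rw [pow_succ, orderTop_mul, ih, hEo, add_zero]
  have herr0 : 0 < err.orderTop := by
    rw [herr, orderTop_mul, orderTop_mul, hEpow, add_zero, ← map_pow, orderTop_iot,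
      val_pow (vP K) hrc]
    have h1 : (0 : WithTop ℚ) < (((((M - a : ℕ) : ℚ) * rc + (-B) : ℚ)) : WithTop ℚ) := by
      rw [← WithTop.coe_zero, WithTop.coe_lt_coe]
      rw [Nat.cast_sub hMa.le]
      have h2 : ((M : ℚ) - a) * r ≤ ((M : ℚ) - a) * rc := by
        have : (0 : ℚ) ≤ (M : ℚ) - a := by
          have : (a : ℚ) ≤ M := by exact_mod_cast hMa.le
          linarith
        gcongr
      linarith
    refine h1.trans_le ?_
    rw [WithTop.coe_add]
    exact add_le_add le_rfl hρ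
  have hkey : E ^ a * y = Θ + err := by
    have h1 : iot c ^ a * (E ^ a * y) = iot c ^ a * (Θ + err) := by
      have h2 : (x : HahnSeries ℚ K[T;T⁻¹]) ^ a * y = iot c ^ a * (E ^ a * y) := by
        rw [hx, mul_pow]; ring
      have h3 : (x : HahnSeries ℚ K[T;T⁻¹]) ^ M * ρ = iot c ^ a * err := by
        rw [herr, hx, mul_pow]
        have : iot c ^ M = iot c ^ a * iot c ^ (M - a) := by
          rw [← _root_.pow_add]
          congr 1
          omega
        rw [this]
        ring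
      rw [← h2, hy, hmain, h3, mul_add]
    exact (hcu.pow a).mul_left_cancel h1
  have hy0 : 0 ≤ y.orderTop := by
    have h1 : (E ^ a * y).orderTop = y.orderTop := by
      rw [orderTop_mul, hEpow, zero_add]
    rw [← h1, hkey]
    have h2 : (0 : WithTop ℚ) ≤ min Θ.orderTop err.orderTop := le_min hΘ0 herr0.le
    exact h2.trans min_orderTop_le_orderTop_add
  refine ⟨hy0, ?_⟩
  rintro ⟨κ, hκ⟩
  have h1 : (E ^ a * y).coeff 0 = (Θ + err).coeff 0 := by rw [hkey]
  rw [coeff_zero_mul (by rw [hEpow]) hy0, HahnSeries.coeff_add,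
    coeff_eq_zero_of_lt_orderTop herr0, add_zero, coeff_zero_pow hE0, hΘc, ← hκ, hEc] at h1
  have h2 : aeval η ((1 + Polynomial.C (((ε : Pui K) : HQ K).coeff 0) * X) ^ a *
      Polynomial.C κ) = aeval η Bp := by
    rw [← h1]
    simp
  have h3 := hηi h2
  have hBp0 : Bp.coeff 0 = 0 := by
    rw [hBp, finsetSum_coeff]
    apply Finset.sum_eq_zero
    intro k _
    rw [coeff_C_mul, coeff_X_pow]
    split_ifs with hk
    · rw [← hk, hA0]
      simp
    · rw [mul_zero]
  have hκ0 : κ = 0 := by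
    have h4 := congrArg (fun p : K[X] => p.coeff 0) h3
    simp only [hBp0] at h4
    rw [coeff_zero_eq_eval_zero] at h4
    simpa using h4
  rw [hκ0, map_zero, mul_zero] at h3
  obtain ⟨k, hk⟩ := hε2
  have hkA : k < A.natDegree + 1 := by
    by_contra hcon
    rw [coeff_eq_zero_of_natDegree_lt (by omega), zero_mul, (vP K).map_zero] at hk
    exact absurd hk (by simp)
  have h5 : Bp.coeff k = ((A.coeff k * ε ^ k : Pui K) : HQ K).coeff 0 := by
    rw [hBp, finsetSum_coeff, Finset.sum_eq_single k]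
    · rw [coeff_C_mul, coeff_X_pow, if_pos rfl, mul_one]
    · intro i _ hi
      rw [coeff_C_mul, coeff_X_pow, if_neg (Ne.symm hi), mul_zero]
    · intro h
      exact absurd (Finset.mem_range.mpr hkA) h
  rw [vP_apply] at hk
  have h6 : ((A.coeff k * ε ^ k : Pui K) : HQ K).coeff 0 ≠ 0 := coeff_orderTop_ne (g := (0 : ℚ)) hk
  rw [← h5, ← h3, Polynomial.coeff_zero] at h6
  exact h6 rfl

end Pool.Agent.Zk18
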