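import Mathlib

/-!
# The exponential of a derivation
-/

set_option autoImplicit false

namespace Pool.Agent.Zk18.Fd

open Finset PowerSeries

section

variable {Λ : Type*} [Field Λ] [CharZero Λ] (Δ : Λ →+ Λ)
  (hΔ : ∀ a b, Δ (a * b) = Δ a * b + a * Δ b)

include hΔ in
omit [CharZero Λ] in
theorem iter_mul (n : ℕ) (x y : Λ) : Δ^[n] (x * y) =
    ∑ ij ∈ antidiagonal n, n.choose ij.1 • (Δ^[ij.1] x * Δ^[ij.2] y) := by
  induction n with
  | zero => simp
  | succ n ih =>
    rw [Finset.sum_antidiagonal_choose_succ_nsmul (fun i j => Δ^[i] x * Δ^[j] y),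
      Function.iterate_succ_apply', ih, map_sum, ← Finset.sum_add_distrib]
    have hsymm : ∑ ij ∈ antidiagonal n, n.choose ij.2 • (Δ^[ij.1 + 1] x * Δ^[ij.2] y) =
        ∑ ij ∈ antidiagonal n, n.choose ij.1 • (Δ^[ij.1 + 1] x * Δ^[ij.2] y) := by
      apply Finset.sum_congr rfl
      rintro ⟨i, j⟩ hij
      rw [Finset.HasAntidiagonal.mem_antidiagonal] at hij
      simp only
      rw [Nat.choose_symm_of_eq_add hij.symm]
    rw [Finset.sum_add_distrib, hsymm, ← Finset.sum_add_distrib]
    apply Finset.sum_congr rfl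
    rintro ⟨i, j⟩ _
    simp only
    rw [map_nsmul, hΔ, Function.iterate_succ_apply' (f := Δ) (n := i) (x := x),
      Function.iterate_succ_apply' (f := Δ) (n := j) (x := y), ← nsmul_add, add_comm]

include hΔ in
omit [CharZero Λ] in
theorem map_one_zero : Δ 1 = 0 := by
  have h := hΔ 1 1
  rw [mul_one, mul_one, one_mul] at h
  have : Δ 1 + 0 = Δ 1 + Δ 1 := by rw [add_zero]; exact h
  exact (add_left_cancel this).symm

include hΔ in
omit [CharZero Λ] in
theorem iter_one (n : ℕ) (hn : n ≠ 0) : Δ^[n] 1 = 0 := by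
  obtain ⟨m, rfl⟩ := Nat.exists_eq_succ_of_ne_zero hn
  rw [Function.iterate_succ_apply, map_one_zero Δ hΔ]
  induction m with
  | zero => rfl
  | succ m ih => rw [Function.iterate_succ_apply', ih (Nat.succ_ne_zero _), map_zero]

/-- the exponential `x ↦ ∑ Δ^k x / k! X^k` of a derivation -/
noncomputable def expD : Λ →+* PowerSeries Λ where
  toFun x := PowerSeries.mk fun k => ((k.factorial : Λ))⁻¹ * Δ^[k] x
  map_one' := by
    ext k
    rw [coeff_mk, coeff_one]
    split_ifs with h
    · subst h; simp
    · rw [iter_one Δ hΔ k h, mul_zero]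
  map_mul' x y := by
    ext k
    rw [coeff_mk, coeff_mul, iter_mul Δ hΔ, Finset.mul_sum]
    apply Finset.sum_congr rfl
    rintro ⟨i, j⟩ hij
    rw [Finset.HasAntidiagonal.mem_antidiagonal] at hij
    subst hij
    simp only [coeff_mk, nsmul_eq_mul]
    have h1 : ((i + j).factorial : Λ) ≠ 0 := by exact_mod_cast (i + j).factorial_ne_zero
    have h2 : (i.factorial : Λ) ≠ 0 := by exact_mod_cast i.factorial_ne_zero
    have h3 : (j.factorial : Λ) ≠ 0 := by exact_mod_cast j.factorial_ne_zero
    have h4 : (((i + j).choose i : ℕ) : Λ) * (i.factorial * j.factorial) = (i + j).factorial := by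
      have := Nat.add_choose_mul_factorial_mul_factorial i j
      rw [← mul_assoc, Nat.choose_symm_add]
      exact_mod_cast this
    field_simp
    rw [← h4]
    ring
  map_zero' := by
    ext k
    rw [coeff_mk]
    have : Δ^[k] (0 : Λ) = 0 := by
      induction k with
      | zero => rfl
      | succ k ih => rw [Function.iterate_succ_apply', ih, map_zero]
    rw [this, mul_zero, map_zero]
  map_add' x y := by
    ext k
    rw [map_add, coeff_mk, coeff_mk, coeff_mk]
    have : Δ^[k] (x + y) = Δ^[k] x + Δ^[k] y := by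
      induction k with
      | zero => rfl
      | succ k ih => rw [Function.iterate_succ_apply', ih, map_add,
          Function.iterate_succ_apply', Function.iterate_succ_apply']
    rw [this, mul_add]

theorem coeff_expD (k : ℕ) (x : Λ) :
    coeff k (expD Δ hΔ x) = ((k.factorial : Λ))⁻¹ * Δ^[k] x := by
  rw [expD, RingHom.coe_mk, MonoidHom.coe_mk, OneHom.coe_mk, coeff_mk]

theorem expD_of_zero {x : Λ} (hx : Δ x = 0) : expD Δ hΔ x = PowerSeries.C x := by
  ext k
  rw [coeff_expD, coeff_C]
  split_ifs with h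
  · subst h; simp
  · obtain ⟨m, rfl⟩ := Nat.exists_eq_succ_of_ne_zero h
    rw [Function.iterate_succ_apply, hx]
    have : Δ^[m] (0 : Λ) = 0 := by
      induction m with
      | zero => rfl
      | succ k ih => rw [Function.iterate_succ_apply', ih (Nat.succ_ne_zero _), map_zero]
    rw [this, mul_zero]

end

end Pool.Agent.Zk18.Fd
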