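import Pool.Agent.Zk18.Fd9
import Pool.Agent.Zk18.Cx
import Mathlib.Analysis.Complex.Cardinality

/-!
# The number of the fields: complex numbers
-/

set_option autoImplicit false
set_option linter.unusedSectionVars false

attribute [-instance] HahnSeries.powerSeriesAlgebra

namespace Pool.Agent.Zk18.Fd

open Pool.Agent.Zk18 Pool.Agent.Zk18.Md

/-- the elements of the closure are the roots of the relations -/
theorem mem_KK_iff {K E σ : Type} [Field K] [Field E] [Algebra K E] (y : σ → E) (z : E) :
    z ∈ KK K (Set.range y) ↔ ∃ P : Polynomial (MvPolynomial σ K),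
      P.map ((MvPolynomial.aeval y : MvPolynomial σ K →ₐ[K] E) : MvPolynomial σ K →+* E) ≠ 0 ∧
      (P.map ((MvPolynomial.aeval y : MvPolynomial σ K →ₐ[K] E) :
        MvPolynomial σ K →+* E)).eval z = 0 := by
  constructor
  · exact Cmp.exists_relation' y z
  · rintro ⟨P, hP, hPz⟩
    let f : MvPolynomial σ K →+* KK K (Set.range y) :=
      ((MvPolynomial.aeval (fun i => (⟨y i, mem_KK_of_mem ⟨i, rfl⟩⟩ : KK K (Set.range y))) :
        MvPolynomial σ K →ₐ[K] KK K (Set.range y)) : MvPolynomial σ K →+* KK K (Set.range y))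
    rw [mem_KK, AlgebraicIndependent.matroid_closure_eq, SetLike.mem_coe,
      Subalgebra.mem_algebraicClosure]
    let g : MvPolynomial σ K →+* Algebra.adjoin K (Set.range y) :=
      ((MvPolynomial.aeval (fun i => (⟨y i, Algebra.subset_adjoin ⟨i, rfl⟩⟩ :
        Algebra.adjoin K (Set.range y))) : MvPolynomial σ K →ₐ[K] Algebra.adjoin K (Set.range y)) :
        MvPolynomial σ K →+* Algebra.adjoin K (Set.range y))
    have hg : ((algebraMap (Algebra.adjoin K (Set.range y)) E).comp g) =
        ((MvPolynomial.aeval y : MvPolynomial σ K →ₐ[K] E) : MvPolynomial σ K →+* E) := by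
      apply MvPolynomial.ringHom_ext
      · intro c
        change ((MvPolynomial.aeval _ (MvPolynomial.C c) : Algebra.adjoin K (Set.range y)) : E) =
          MvPolynomial.aeval y (MvPolynomial.C c)
        rw [MvPolynomial.aeval_C, MvPolynomial.aeval_C]
        rfl
      · intro i
        change ((MvPolynomial.aeval _ (MvPolynomial.X i) : Algebra.adjoin K (Set.range y)) : E) =
          MvPolynomial.aeval y (MvPolynomial.X i)
        rw [MvPolynomial.aeval_X, MvPolynomial.aeval_X]
    refine ⟨P.map g, ?_, ?_⟩
    · intro h0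
      apply hP
      rw [← hg, ← Polynomial.map_map, h0, Polynomial.map_zero]
    · rw [← Polynomial.eval_map_algebraMap, Polynomial.map_map, hg]
      exact hPz

/-- the closure in a subfield -/
theorem coe_mem_KK {K E σ : Type} [Field K] [Field E] [Algebra K E] (L : IntermediateField K E)
    (y : σ → L) (z : L) : (z : E) ∈ KK K (Set.range fun i => (y i : E)) ↔ z ∈ KK K (Set.range y) := by
  rw [mem_KK_iff, mem_KK_iff]
  have h1 : ((MvPolynomial.aeval (fun i => (y i : E)) : MvPolynomial σ K →ₐ[K] E) :
      MvPolynomial σ K →+* E) = (algebraMap L E).comp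
        ((MvPolynomial.aeval y : MvPolynomial σ K →ₐ[K] L) : MvPolynomial σ K →+* L) := by
    apply MvPolynomial.ringHom_ext
    · intro c
      change MvPolynomial.aeval _ (MvPolynomial.C c) = ((MvPolynomial.aeval y (MvPolynomial.C c) : L) : E)
      rw [MvPolynomial.aeval_C, MvPolynomial.aeval_C]
      rfl
    · intro i
      change MvPolynomial.aeval _ (MvPolynomial.X i) = ((MvPolynomial.aeval y (MvPolynomial.X i) : L) : E)
      rw [MvPolynomial.aeval_X, MvPolynomial.aeval_X]
  rw [h1]
  have h2 : ∀ P : Polynomial (MvPolynomial σ K),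
      (P.map ((algebraMap L E).comp ((MvPolynomial.aeval y : MvPolynomial σ K →ₐ[K] L) :
        MvPolynomial σ K →+* L)) ≠ 0 ∧
      (P.map ((algebraMap L E).comp ((MvPolynomial.aeval y : MvPolynomial σ K →ₐ[K] L) :
        MvPolynomial σ K →+* L))).eval (z : E) = 0) ↔
      (P.map ((MvPolynomial.aeval y : MvPolynomial σ K →ₐ[K] L) : MvPolynomial σ K →+* L) ≠ 0 ∧
      (P.map ((MvPolynomial.aeval y : MvPolynomial σ K →ₐ[K] L) :
        MvPolynomial σ K →+* L)).eval z = 0) := by
    intro P
    rw [← Polynomial.map_map, Ne, Polynomial.map_eq_zero_iff (algebraMap L E).injective]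
    have h3 : (z : E) = algebraMap L E z := rfl
    rw [h3, Polynomial.eval_map_apply, map_eq_zero_iff _ (algebraMap L E).injective]
  exact exists_congr h2

/-- the algebraic closure of `ℚ̄(y)` in `ℂ` -/
def Fld {m : ℕ} (y : Fin m → ℂ) : Set ℂ :=
  {x | IsAlgebraic (IntermediateField.adjoin (algebraicClosure ℚ ℂ) (Set.range y)) x}

theorem Fld_eq {m : ℕ} (y : Fin m → ℂ) : Fld y = (KK (algebraicClosure ℚ ℂ) (Set.range y) : Set ℂ) := by
  ext x
  change IsAlgebraic _ x ↔ x ∈ algebraicClosure (IntermediateField.adjoin (algebraicClosure ℚ ℂ)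
    (Set.range y)) ℂ
  rw [mem_algebraicClosure_iff]

/-- **The number of the fields.** -/
theorem encard_fields (V : Submodule (algebraicClosure ℚ ℂ) ℂ)
    (hV : FiniteDimensional (algebraicClosure ℚ ℂ) V) (M : ℕ)
    (hM : Module.finrank (algebraicClosure ℚ ℂ) V ≤ M) (k D : ℕ) :
    {E : Set ℂ | ∃ (y : Fin (k + 1) → ℂ) (P : MvPolynomial (Fin (k + 1)) (algebraicClosure ℚ ℂ)),
      (∀ i, y i ∈ V) ∧
      (∃ i : Fin (k + 1), AlgebraicIndependent (algebraicClosure ℚ ℂ) fun j => y (i.succAbove j)) ∧
      P ≠ 0 ∧ (∀ i, P.degreeOf i ≤ D) ∧ MvPolynomial.aeval y P = 0 ∧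
      (∀ c : Fin (k + 1) → Polynomial ℂ, (∀ i, (c i).coeff 0 = y i) →
        MvPolynomial.aeval c P = 0 → ∀ i, c i = Polynomial.C (y i)) ∧ E = Fld y}.encard ≤
      ((2 * ((k + 1) * D + 1)) ^ ((k + 1) * M + (D + 1) ^ (k + 1)) : ℕ) := by
  classical
  let K := algebraicClosure ℚ ℂ
  have hKa : IsAlgClosed K := (algebraicClosure.isAlgClosure ℚ ℂ).isAlgClosed
  have hKc : Countable K := Cx.countable_QB
  have hCu : Uncountable ℂ := by
    have h1 : ¬ (Set.univ : Set ℂ).Countable := not_countable_complex
    rw [Set.countable_univ_iff, not_countable_iff] at h1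
    exact h1
  obtain ⟨N, hN⟩ : ∃ N, N = Module.finrank K V := ⟨_, rfl⟩
  let B : Module.Basis (Fin N) K V := (Module.finBasisOfFinrankEq K V hN.symm)
  let L : IntermediateField K ℂ := KK K (Set.range fun j => (B j : ℂ))
  have hLc : Countable L := countable_KK _ (Set.countable_range _)
  let b : Fin N → L := fun j => ⟨B j, mem_KK_of_mem ⟨j, rfl⟩⟩
  have hcard : ∀ T : Finset (Set ℂ), (∀ E ∈ T, ∃ (y : Fin (k + 1) → ℂ)
      (P : MvPolynomial (Fin (k + 1)) K), (∀ i, y i ∈ V) ∧
      (∃ i : Fin (k + 1), AlgebraicIndependent K fun j => y (i.succAbove j)) ∧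
      P ≠ 0 ∧ (∀ i, P.degreeOf i ≤ D) ∧ MvPolynomial.aeval y P = 0 ∧
      (∀ c : Fin (k + 1) → Polynomial ℂ, (∀ i, (c i).coeff 0 = y i) →
        MvPolynomial.aeval c P = 0 → ∀ i, c i = Polynomial.C (y i)) ∧ E = Fld y) →
      T.card ≤ (2 * ((k + 1) * D + 1)) ^ ((k + 1) * M + (D + 1) ^ (k + 1)) := by
    intro T hT
    have h1 : ∀ E : Set ℂ, ∃ s : Set L, E ∈ T → (∃ z : Par k N D → K, GoodPt b z ∧
        s = (AlgebraicIndependent.matroid K L).closure (Set.range (pt b (xx z)))) ∧
        E = (fun x : L => (x : ℂ)) '' s := by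
      intro E
      by_cases hE : E ∈ T
      swap
      · exact ⟨∅, fun h => absurd h hE⟩
      obtain ⟨y, P, hyV, ⟨i₀, hi₀⟩, hP, hPD, hPy, hNC, hEy⟩ := hT E hE
      obtain ⟨c, hc⟩ := exists_UP P hPD
      have hrep : ∀ i, ∃ x : Fin N → K, (∑ j, x j • (B j : ℂ)) = y i := by
        intro i
        refine ⟨fun j => B.repr ⟨y i, hyV i⟩ j, ?_⟩
        have h2 := congrArg (fun v : V => (v : ℂ)) (B.sum_repr ⟨y i, hyV i⟩)
        simp only [Submodule.coe_sum, Submodule.coe_smul] at h2
        exact h2
      choose x hx using hrep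
      let z : Par k N D → K := Sum.elim (fun p => x p.1 p.2) c
      have hxx : xx z = x := rfl
      have hcc : cc z = c := rfl
      have hpt : ∀ i, ((pt b (xx z) i : L) : ℂ) = y i := by
        intro i
        rw [← hx i, pt, hxx]
        have h2 : ((∑ j, algebraMap K L (x i j) * b j : L) : ℂ) =
            ∑ j, ((algebraMap K L (x i j) * b j : L) : ℂ) := map_sum (L.val) _ _
        rw [h2]
        apply Finset.sum_congr rfl
        intro j _
        rw [Algebra.smul_def]
        rfl
      have hyeq : (fun i => ((pt b (xx z) i : L) : ℂ)) = y := funext hpt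
      refine ⟨_, fun _ => ⟨⟨z, ?_, rfl⟩, ?_⟩⟩
      · constructor
        · rw [hcc, ← hc]
          exact hP
        · rw [hcc, ← hc]
          apply Subtype.ext
          have h2 := MvPolynomial.aeval_algebraMap_apply (B := ℂ) (pt b (xx z)) P
          have h3 : ((MvPolynomial.aeval (pt b (xx z)) P : L) : ℂ) =
              MvPolynomial.aeval y P := by
            rw [← hyeq]
            exact h2.symm
          rw [h3, hPy]
          rfl
        · have h2 : AlgebraicIndependent K (fun j => pt b (xx z) (i₀.succAbove j)) := by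
            have h3 : (fun j => y (i₀.succAbove j)) =
                (L.val : L →ₐ[K] ℂ) ∘ (fun j => pt b (xx z) (i₀.succAbove j)) := by
              funext j
              exact (hpt _).symm
            rw [h3] at hi₀
            exact AlgebraicIndependent.of_comp _ hi₀
          have h3 : (AlgebraicIndependent.matroid K L).Indep
              (Set.range (fun j => pt b (xx z) (i₀.succAbove j))) := by
            rw [AlgebraicIndependent.matroid_indep_iff]
            exact AlgebraicIndependent.coe_range h2
          have h4 := h3.encard_le_eRk_of_subset (X := Set.range (pt b (xx z))) (by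
            rintro _ ⟨j, rfl⟩
            exact ⟨_, rfl⟩)
          refine le_trans (le_of_eq ?_) h4
          rw [← Set.image_univ, (h2.injective).encard_image, Set.encard_univ]
          simp
        · intro κ hκ hLκ hκc
          obtain ⟨j⟩ := exists_emb (L := L) (κ := κ) (M := ℂ)
          apply NC.of_embedding _ (j : κ →+* ℂ)
          intro cu hcu hcuP i r hr
          have hcu' : ∀ i, (cu i).coeff 0 = y i := by
            intro i
            rw [hcu]
            have h2 := j.commutes (pt b (xx z) i)
            refine Eq.trans h2 ?_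
            exact hpt i
          have h2 := hNC cu hcu' (by
            rw [hc, ← hcc, MvPolynomial.aeval_def, eval₂_UP]
            rw [eval₂_UP] at hcuP
            rw [← hcuP]
            apply Finset.sum_congr rfl
            intro d _
            congr 1
            simp only [RingHom.comp_apply]
            rw [Polynomial.algebraMap_apply]
            congr 1
            have h3 := j.commutes (algebraMap K L (cc z d))
            exact h3.symm) i
          rw [h2, Polynomial.coeff_C, if_neg hr]
      · rw [hEy, Fld_eq]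
        ext w
        constructor
        · intro hw
          have hw' : w ∈ KK K (Set.range y) := hw
          have hwL : w ∈ L := by
            have h2 : KK K (Set.range y) ≤ L := by
              apply KK_le
              rintro _ ⟨i, rfl⟩
              rw [← hpt i]
              exact (pt b (xx z) i).2
            exact h2 hw'
          refine ⟨⟨w, hwL⟩, ?_, rfl⟩
          rw [← hyeq] at hw'
          have h3 := (coe_mem_KK L (pt b (xx z)) ⟨w, hwL⟩).mp hw'
          rw [mem_KK] at h3
          exact h3
        · rintro ⟨w, hw, rfl⟩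
          have h3 : w ∈ KK K (Set.range (pt b (xx z))) := by
            rw [mem_KK]
            exact hw
          have h4 := (coe_mem_KK L (pt b (xx z)) w).mpr h3
          rw [hyeq] at h4
          exact h4
    choose s hs using h1
    have hinj : Set.InjOn s (T : Set (Set ℂ)) := by
      intro E hE E' hE' heq
      rw [(hs E hE).2, (hs E' hE').2, heq]
    rw [← Finset.card_image_of_injOn hinj]
    have h2 := card_fields (K := K) (k := k) (D := D) b (T.image s) (by
      intro t ht
      rw [Finset.mem_image] at ht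
      obtain ⟨E, hE, rfl⟩ := ht
      exact (hs E hE).1)
    refine h2.trans (Nat.pow_le_pow_right (by omega) ?_)
    have h3 : N ≤ M := hN ▸ hM
    exact Nat.add_le_add_right (Nat.mul_le_mul_left _ h3) _
  by_contra hcon
  rw [not_le] at hcon
  obtain ⟨t, ht, htc⟩ := Set.exists_subset_encard_eq (Order.add_one_le_of_lt hcon)
  have hfin : t.Finite := by
    rw [← Set.encard_lt_top_iff, htc]
    exact_mod_cast ENat.natCast_lt_top _
  have h5 := hcard hfin.toFinset (fun E hE => ht (hfin.mem_toFinset.mp hE))
  have h6 : (hfin.toFinset.card : ℕ∞) = t.encard := hfin.encard_eq_coe_toFinset_card.symm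
  rw [htc] at h6
  have h7 : hfin.toFinset.card = (2 * ((k + 1) * D + 1)) ^ ((k + 1) * M + (D + 1) ^ (k + 1)) + 1 := by
    exact_mod_cast h6
  omega

end Pool.Agent.Zk18.Fd
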