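import Pool.Agent.Zk18.Plc

/-!
# Derivations of fields of Hahn series
-/

set_option autoImplicit false

attribute [-instance] HahnSeries.powerSeriesAlgebra

namespace Pool.Agent.Zk18.Md

open HahnSeries Pool.Agent.Helper165.P1

section weighted

variable {R : Type*} [CommRing R]

/-- the coefficientwise application of additive maps -/
noncomputable def W (φ : ℚ → R →+ R) : HahnSeries ℚ R →+ HahnSeries ℚ R where
  toFun x :=
    { coeff := fun q => φ q (x.coeff q)
      isPWO_support' := x.isPWO_support.mono (by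
        intro q hq h
        rw [Function.mem_support] at hq
        apply hq
        rw [h, map_zero]) }
  map_zero' := by
    ext q
    simp
  map_add' x y := by
    ext q
    simp

@[simp] theorem W_coeff (φ : ℚ → R →+ R) (x : HahnSeries ℚ R) (q : ℚ) :
    (W φ x).coeff q = φ q (x.coeff q) := rfl

theorem W_support (φ : ℚ → R →+ R) (x : HahnSeries ℚ R) : (W φ x).support ⊆ x.support := by
  intro q hq
  rw [mem_support] at hq ⊢
  intro h
  apply hq
  rw [W_coeff, h, map_zero]

theorem le_orderTop_W (φ : ℚ → R →+ R) (x : HahnSeries ℚ R) : x.orderTop ≤ (W φ x).orderTop := by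
  rw [le_orderTop_iff]
  intro q hq
  rw [W_coeff, coeff_eq_zero_of_lt_orderTop hq, map_zero]

theorem W_mul (φ : ℚ → R →+ R)
    (hφ : ∀ i j a b, φ (i + j) (a * b) = φ i a * b + a * φ j b) (x y : HahnSeries ℚ R) :
    W φ (x * y) = W φ x * y + x * W φ y := by
  ext q
  rw [W_coeff, coeff_mul, map_sum, coeff_add,
    coeff_mul_left' x.isPWO_support (W_support φ x),
    coeff_mul_right' y.isPWO_support (W_support φ y), ← Finset.sum_add_distrib]
  apply Finset.sum_congr rfl
  intro ij hij
  rw [Finset.mem_antidiagonal] at hij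
  rw [← hij.2.2, hφ]
  simp

end weighted

section field

variable {E : Type*} [Field E]

/-- the Euler derivation `π d / dπ` -/
noncomputable def Eu : HahnSeries ℚ E →+ HahnSeries ℚ E :=
  W (fun q => AddMonoidHom.mulLeft (q : E))

theorem Eu_coeff (x : HahnSeries ℚ E) (q : ℚ) : (Eu x).coeff q = (q : E) * x.coeff q := rfl

theorem Eu_mul [CharZero E] (x y : HahnSeries ℚ E) : Eu (x * y) = Eu x * y + x * Eu y := by
  apply W_mul
  intro i j a b
  simp only [AddMonoidHom.coe_mulLeft, Rat.cast_add]
  ring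

theorem Eu_C (e : E) : Eu (C e) = 0 := by
  ext q
  rw [Eu_coeff, C_apply, coeff_single, coeff_zero]
  split_ifs with h
  · rw [h, Rat.cast_zero, zero_mul]
  · rw [mul_zero]

/-- the derivation which is `D` on the coefficients and maps `π` to the constant `c` -/
noncomputable def Dh (D : E →+ E) (c : E) : HahnSeries ℚ E →+ HahnSeries ℚ E :=
  W (fun _ => D) + (AddMonoidHom.mulLeft (C c * single (-1) 1)).comp Eu

theorem Dh_apply (D : E →+ E) (c : E) (x : HahnSeries ℚ E) :
    Dh D c x = W (fun _ => D) x + C c * single (-1) 1 * Eu x := rfl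

theorem Dh_coeff (D : E →+ E) (c : E) (x : HahnSeries ℚ E) (q : ℚ) :
    (Dh D c x).coeff q = D (x.coeff q) + c * ((q + 1 : ℚ) * x.coeff (q + 1)) := by
  have h1 : (single (-1 : ℚ) (1 : E) * Eu x).coeff q = (Eu x).coeff (q + 1) := by
    have h2 := coeff_single_mul_add (r := (1 : E)) (x := Eu x) (a := q + 1) (b := (-1 : ℚ))
    rw [one_mul] at h2
    rw [← h2]
    congr 1
    ring
  rw [Dh_apply, coeff_add, W_coeff, mul_assoc, C_mul_eq_smul, coeff_smul, h1, Eu_coeff, smul_eq_mul]

theorem Dh_mul [CharZero E] (D : E →+ E) (hD : ∀ a b, D (a * b) = D a * b + a * D b) (c : E)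
    (x y : HahnSeries ℚ E) : Dh D c (x * y) = Dh D c x * y + x * Dh D c y := by
  rw [Dh_apply, Dh_apply, Dh_apply, Eu_mul, W_mul _ (fun _ _ a b => hD a b)]
  ring

theorem Dh_C (D : E →+ E) (c e : E) : Dh D c (C e) = C (D e) := by
  rw [Dh_apply, Eu_C, mul_zero, add_zero]
  ext q
  rw [W_coeff, C_apply, C_apply, coeff_single, coeff_single]
  split_ifs with h
  · rfl
  · rw [map_zero]

theorem D_one (D : E →+ E) (hD : ∀ a b, D (a * b) = D a * b + a * D b) : D 1 = 0 := by
  have h := hD 1 1
  rw [mul_one, mul_one, one_mul] at h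
  exact left_eq_add.mp h

theorem Dh_single (D : E →+ E) (hD : ∀ a b, D (a * b) = D a * b + a * D b) (c : E) (m : ℚ) :
    Dh D c (single m 1) = single (m - 1) (c * m) := by
  ext q
  rw [Dh_coeff, coeff_single, coeff_single, coeff_single]
  by_cases h1 : q = m
  · rw [if_pos h1, D_one D hD, zero_add, if_neg (by rw [h1]; linarith), if_neg (by rw [h1]; linarith),
      mul_zero, mul_zero]
  · rw [if_neg h1, map_zero, zero_add]
    by_cases h2 : q = m - 1
    · rw [if_pos h2, if_pos (by rw [h2]; ring), h2, mul_one, sub_add_cancel]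
    · rw [if_neg h2, if_neg (by intro h; apply h2; linarith), mul_zero, mul_zero]

/-- without shift the derivation does not decrease the order -/
theorem le_orderTop_Dh (D : E →+ E) (x : HahnSeries ℚ E) :
    x.orderTop ≤ (Dh D 0 x).orderTop := by
  have h : Dh D 0 x = W (fun _ => D) x := by
    rw [Dh_apply, map_zero, zero_mul, zero_mul, add_zero]
  rw [h]
  exact le_orderTop_W _ x

/-- the series with exponents in `ℕ` -/
def Nn (E : Type*) [Field E] : Subalgebra E (HahnSeries ℚ E) where
  carrier := {x | ∀ q : ℚ, x.coeff q ≠ 0 → ∃ n : ℕ, q = n}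
  mul_mem' := by
    intro x y hx hy q hq
    rw [coeff_mul] at hq
    obtain ⟨ij, hij, hne⟩ := Finset.exists_ne_zero_of_sum_ne_zero hq
    rw [Finset.mem_antidiagonal] at hij
    obtain ⟨n, hn⟩ := hx _ (left_ne_zero_of_mul hne)
    obtain ⟨m, hm⟩ := hy _ (right_ne_zero_of_mul hne)
    refine ⟨n + m, ?_⟩
    rw [← hij.2.2, hn, hm]
    push_cast
    rfl
  add_mem' := by
    intro x y hx hy q hq
    rw [coeff_add] at hq
    by_cases h : x.coeff q = 0
    · rw [h, zero_add] at hq
      exact hy q hq
    · exact hx q h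
  algebraMap_mem' := by
    intro e q hq
    rw [HahnSeries.algebraMap_apply, C_apply, coeff_single] at hq
    split_ifs at hq with h
    · exact ⟨0, by rw [h, Nat.cast_zero]⟩
    · exact absurd rfl hq

theorem mem_Nn (x : HahnSeries ℚ E) : x ∈ Nn E ↔ ∀ q : ℚ, x.coeff q ≠ 0 → ∃ n : ℕ, q = n := Iff.rfl

theorem Nn_orderTop {x : HahnSeries ℚ E} (hx : x ∈ Nn E) : 0 ≤ x.orderTop := by
  rw [le_orderTop_iff]
  intro p hp
  by_contra h
  obtain ⟨n, rfl⟩ := hx p h
  have h1 : ((n : ℚ) : WithTop ℚ) < ((0 : ℚ) : WithTop ℚ) := hp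
  rw [WithTop.coe_lt_coe] at h1
  exact absurd h1 (not_lt.mpr (Nat.cast_nonneg n))

theorem Dh_mem_Nn (D : E →+ E) (c : E) {x : HahnSeries ℚ E} (hx : x ∈ Nn E) : Dh D c x ∈ Nn E := by
  intro q hq
  rw [Dh_coeff] at hq
  by_cases h : x.coeff q = 0
  · rw [h, map_zero, zero_add] at hq
    have h1 := right_ne_zero_of_mul hq
    obtain ⟨n, hn⟩ := hx _ (right_ne_zero_of_mul h1)
    have h2 := left_ne_zero_of_mul h1
    rcases Nat.eq_zero_or_pos n with rfl | hpos
    · rw [hn, Nat.cast_zero, Rat.cast_zero] at h2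
      exact absurd rfl h2
    · refine ⟨n - 1, ?_⟩
      rw [Nat.cast_sub hpos, ← hn]
      simp
  · exact hx q h

/-- the constants have exponents in `ℕ` -/
theorem mem_Nn_of_Dh [CharZero E] (D : E →+ E) (c : E) (hc : c ≠ 0) {x : HahnSeries ℚ E}
    (hx : Dh D c x = 0) : x ∈ Nn E := by
  by_contra hno
  rw [mem_Nn] at hno
  push Not at hno
  have hne : ({q | x.coeff q ≠ 0 ∧ ∀ n : ℕ, q ≠ n} : Set ℚ).Nonempty := hno
  have hpwo : ({q | x.coeff q ≠ 0 ∧ ∀ n : ℕ, q ≠ n} : Set ℚ).IsPWO :=
    x.isPWO_support.mono (fun q hq => hq.1)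
  have hwf := hpwo.isWF
  have hmem := hwf.min_mem hne
  set q₀ := hwf.min hne with hq₀
  have h1 := congrArg (fun z : HahnSeries ℚ E => z.coeff (q₀ - 1)) hx
  simp only [Dh_coeff, sub_add_cancel, coeff_zero] at h1
  have h2 : x.coeff (q₀ - 1) = 0 := by
    by_contra h3
    by_cases h4 : ∃ n : ℕ, q₀ - 1 = n
    · obtain ⟨n, hn⟩ := h4
      apply hmem.2 (n + 1)
      push_cast
      linarith
    · push Not at h4
      have h5 := hwf.not_lt_min hne (show q₀ - 1 ∈ {q | x.coeff q ≠ 0 ∧ ∀ n : ℕ, q ≠ n} from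
        ⟨h3, h4⟩)
      apply h5
      rw [← hq₀]
      linarith
  rw [h2, map_zero, zero_add] at h1
  rcases mul_eq_zero.mp h1 with h3 | h3
  · exact hc h3
  · rcases mul_eq_zero.mp h3 with h4 | h4
    · rw [Rat.cast_eq_zero] at h4
      exact hmem.2 0 (by rw [h4, Nat.cast_zero])
    · exact hmem.1 h4

end field

/-- uniqueness of the extensions of derivations -/
theorem twisted_zero {F M N : Type*} [Field F] [Field M] [Field N] [CharZero M] [Algebra F M]
    (j : M →+* N) (δ : M →+ N) (hδ : ∀ x y, δ (x * y) = δ x * j y + j x * δ y)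
    (h0 : ∀ a : F, δ (algebraMap F M a) = 0) (x : M) (hx : IsAlgebraic F x) : δ x = 0 := by
  have h1 : δ 1 = 0 := by rw [← map_one (algebraMap F M)]; exact h0 1
  have hpow : ∀ n : ℕ, δ (x ^ n) = (n : N) * j x ^ (n - 1) * δ x := by
    intro n
    induction n with
    | zero => rw [pow_zero, h1, Nat.cast_zero, zero_mul, zero_mul]
    | succ n ih =>
      rw [pow_succ, hδ, ih, map_pow]
      rcases Nat.eq_zero_or_pos n with rfl | hpos
      · simp
      · have h2 : j x ^ n = j x ^ (n - 1) * j x := by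
          rw [← pow_succ, Nat.sub_add_cancel hpos]
        rw [Nat.add_sub_cancel, h2]
        push_cast
        ring
  have hpoly : ∀ p : Polynomial F, δ (Polynomial.aeval x p) =
      j (Polynomial.aeval x (Polynomial.derivative p)) * δ x := by
    intro p
    induction p using Polynomial.induction_on' with
    | add p q hp hq => rw [map_add, map_add, hp, hq, map_add, map_add, map_add, add_mul]
    | monomial n a =>
      rw [Polynomial.aeval_monomial, hδ, h0, zero_mul, zero_add, hpow, Polynomial.derivative_monomial,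
        Polynomial.aeval_monomial, map_mul, map_mul, map_mul, map_natCast, map_natCast, map_pow]
      ring
  have hint : IsIntegral F x := hx.isIntegral
  have hch : CharZero F := (algebraMap F M).charZero
  have hsep := (minpoly.irreducible hint).separable
  have h2 := hpoly (minpoly F x)
  rw [minpoly.aeval, map_zero] at h2
  rcases mul_eq_zero.mp h2.symm with h3 | h3
  · exfalso
    have h4 := hsep.aeval_derivative_ne_zero (minpoly.aeval F x)
    exact h4 ((map_eq_zero j).mp h3)
  · exact h3

end Pool.Agent.Zk18.Md
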