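import Pool.Agent.Zk18.Fd1
import Pool.Agent.Zk18.Wd

/-!
# Poles produce polynomial curves
-/

set_option autoImplicit false

namespace Pool.Agent.Zk18.Fd

open HahnSeries TensorProduct

open Pool.Agent.Zk18 Pool.Agent.Zk18.Md

section

variable {M : Type} [Field M] [CharZero M]

instance charZero_hahn : CharZero (HahnSeries ℚ M) :=
  charZero_of_injective_ringHom (f := (C : M →+* HahnSeries ℚ M)) (RingHom.injective _)

/-- the inclusion -/
def inc (M : Type) [Field M] : Ov M M →+* HahnSeries ℚ M where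
  toFun x := x.1
  map_one' := rfl
  map_mul' _ _ := rfl
  map_zero' := rfl
  map_add' _ _ := rfl

/-- the residue -/
noncomputable def rs (M : Type) [Field M] : Ov M M →+* M :=
  ((resO M : Ov M M →ₐ[M] M) : Ov M M →+* M)

omit [CharZero M] in
theorem rs_apply (x : Ov M M) : rs M x = (x : HahnSeries ℚ M).coeff 0 := rfl

/-- the coefficientwise derivation -/
noncomputable def dl (δ : M →+ M) : HahnSeries ℚ M →+ HahnSeries ℚ M := W fun _ => δ

variable (δ : M →+ M) (hδ : ∀ a b, δ (a * b) = δ a * b + a * δ b)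

include hδ in
omit [CharZero M] in
theorem dl_mul (x y : HahnSeries ℚ M) : dl δ (x * y) = dl δ x * y + x * dl δ y :=
  W_mul _ (fun _ _ a b => hδ a b) x y

omit [CharZero M] in
theorem dl_single (q : ℚ) (a : M) : dl δ (single q a) = single q (δ a) := by
  ext t
  rw [dl, W_coeff, coeff_single, coeff_single]
  split_ifs
  · rfl
  · exact map_zero δ

omit [CharZero M] in
theorem dl_C (a : M) : dl δ (C a) = C (δ a) := dl_single δ 0 a

omit [CharZero M] in
theorem le_order_iter (x : HahnSeries ℚ M) (k : ℕ) : x.orderTop ≤ ((dl δ)^[k] x).orderTop := by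
  induction k with
  | zero => exact le_rfl
  | succ k ih =>
    rw [Function.iterate_succ_apply']
    exact ih.trans (le_orderTop_W _ _)

include hδ in
omit [CharZero M] in
theorem dl_s_pow (μ : ℚ) (k : ℕ) : dl δ ((single μ (1 : M)) ^ k) = 0 := by
  rw [single_pow, one_pow, dl_single, map_one_zero δ hδ, single_eq_zero]

/-- the derivation `s δ` -/
noncomputable def Ds (μ : ℚ) : HahnSeries ℚ M →+ HahnSeries ℚ M :=
  (AddMonoidHom.mulLeft (single μ (1 : M))).comp (dl δ)

omit [CharZero M] in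
theorem Ds_apply (μ : ℚ) (x : HahnSeries ℚ M) : Ds δ μ x = single μ (1 : M) * dl δ x := rfl

include hδ in
omit [CharZero M] in
theorem Ds_mul (μ : ℚ) (x y : HahnSeries ℚ M) : Ds δ μ (x * y) = Ds δ μ x * y + x * Ds δ μ y := by
  rw [Ds_apply, Ds_apply, Ds_apply, dl_mul δ hδ]
  ring

include hδ in
omit [CharZero M] in
theorem Ds_iter (μ : ℚ) (x : HahnSeries ℚ M) (k : ℕ) :
    (Ds δ μ)^[k] x = (single μ (1 : M)) ^ k * (dl δ)^[k] x := by
  induction k with
  | zero => simp
  | succ k ih =>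
    rw [Function.iterate_succ_apply', ih, Ds_apply, dl_mul δ hδ, dl_s_pow δ hδ, zero_mul, zero_add,
      Function.iterate_succ_apply' (f := dl δ), pow_succ]
    ring

end

section main

variable {K F L M : Type} [Field K] [Field F] [Field L] [Field M] [CharZero M]
  [Algebra K F] [Algebra K L] [Algebra F M] [Algebra K M] [IsScalarTower K F M]

/-- Poles produce polynomial curves. -/
theorem polynomial_curve {m N : ℕ} (δ : M →+ M) (hδ : ∀ a b, δ (a * b) = δ a * b + a * δ b)
    (hδK : ∀ k : K, δ (algebraMap K M k) = 0) (r : L →+* HahnSeries ℚ M)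
    (hr : ∀ k : K, r (algebraMap K L k) = C (algebraMap K M k)) (b : Fin N → L)
    (f : Fin m → Fin N → F) (y : Fin m → M)
    (hy : ∀ i, ∑ j, C (algebraMap F M (f i j)) * r (b j) = C (y i)) (i₀ : Fin m)
    (hpole : (∑ j, C (δ (algebraMap F M (f i₀ j))) * r (b j)).orderTop < 0) :
    ∃ c : Fin m → Polynomial M, (∀ i, (c i).coeff 0 = y i) ∧
      (∃ i, ∃ k, k ≠ 0 ∧ (c i).coeff k ≠ 0) ∧
      ∀ Q : MvPolynomial (Fin m) F,
        MvPolynomial.aeval (fun i => ∑ j, f i j ⊗ₜ[K] b j : Fin m → F ⊗[K] L) Q = 0 →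
        MvPolynomial.aeval c Q = 0 := by
  classical
  -- the coefficients
  obtain ⟨Y, hY⟩ : ∃ Y : Fin m → ℕ → HahnSeries ℚ M, Y = fun i k =>
    ((k.factorial : HahnSeries ℚ M))⁻¹ * ∑ j, C (algebraMap F M (f i j)) * (dl δ)^[k] (r (b j)) :=
    ⟨_, rfl⟩
  have hY0 : ∀ i, Y i 0 = C (y i) := by
    intro i
    rw [hY]
    simp only [Nat.factorial_zero, Nat.cast_one, inv_one, one_mul, Function.iterate_zero, id]
    exact hy i
  have hY1 : (Y i₀ 1).orderTop < 0 := by
    have h1 : Y i₀ 1 = C (δ (y i₀)) - ∑ j, C (δ (algebraMap F M (f i₀ j))) * r (b j) := by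
      rw [hY]
      simp only [Nat.factorial_one, Nat.cast_one, inv_one, one_mul, Function.iterate_one]
      rw [← dl_C, ← hy, map_sum, ← Finset.sum_sub_distrib]
      apply Finset.sum_congr rfl
      intro j _
      rw [dl_mul δ hδ, dl_C]
      ring
    by_contra hcon
    push Not at hcon
    have h2 : (∑ j, C (δ (algebraMap F M (f i₀ j))) * r (b j)) = C (δ (y i₀)) - Y i₀ 1 := by
      rw [h1]; ring
    have h3 : (0 : WithTop ℚ) ≤ (C (δ (y i₀)) - Y i₀ 1).orderTop :=
      (le_min (orderTop_C_nonneg _) hcon).trans min_orderTop_le_orderTop_sub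
    rw [← h2] at h3
    exact absurd hpole (not_lt.mpr h3)
  -- a lower bound for the orders
  obtain ⟨q₀, hq₀⟩ : ∃ q₀ : ℚ, ∀ i k, ((q₀ : ℚ) : WithTop ℚ) ≤ (Y i k).orderTop := by
    obtain ⟨q₀, hq₀⟩ : ∃ q₀ : ℚ, ∀ j, ((q₀ : ℚ) : WithTop ℚ) ≤ (r (b j)).orderTop := by
      have h1 : ∀ j, ∃ q : ℚ, ((q : ℚ) : WithTop ℚ) ≤ (r (b j)).orderTop := by
        intro j
        by_cases h : (r (b j)).orderTop = ⊤
        · exact ⟨0, by rw [h]; exact le_top⟩
        · obtain ⟨q, hq⟩ := WithTop.ne_top_iff_exists.mp h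
          exact ⟨q, hq.le⟩
      choose q hq using h1
      obtain ⟨q₀, hq₀⟩ : ∃ q₀ : ℚ, ∀ j, q₀ ≤ q j := by
        obtain ⟨q₀, hq₀⟩ := (Set.finite_range q).bddBelow
        exact ⟨q₀, fun j => hq₀ ⟨j, rfl⟩⟩
      exact ⟨q₀, fun j => le_trans (by exact_mod_cast hq₀ j) (hq j)⟩
    refine ⟨q₀, fun i k => ?_⟩
    have h2 : ((q₀ : ℚ) : WithTop ℚ) ≤
        (∑ j, C (algebraMap F M (f i j)) * (dl δ)^[k] (r (b j))).orderTop := by
      apply orderTop_sum
      intro j _
      have := orderTop_mul_le (orderTop_C_nonneg (algebraMap F M (f i j)))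
        ((hq₀ j).trans (le_order_iter δ (r (b j)) k))
      rwa [zero_add] at this
    rw [hY]
    have h3 : ((k.factorial : HahnSeries ℚ M))⁻¹ = C ((k.factorial : M)⁻¹) := by
      rw [map_inv₀, map_natCast]
    simp only
    rw [h3]
    have := orderTop_mul_le (orderTop_C_nonneg ((k.factorial : M)⁻¹)) h2
    rwa [zero_add] at this
  -- the maximal slope
  have hval : ∀ i k, (Y i k).orderTop < 0 → ∃ q : ℚ, (Y i k).orderTop = (q : WithTop ℚ) ∧ q < 0 := by
    intro i k h
    have h1 : (Y i k).orderTop ≠ ⊤ := fun h2 => by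
      rw [h2] at h
      exact absurd h (not_lt.mpr le_top)
    obtain ⟨q, hq⟩ := WithTop.ne_top_iff_exists.mp h1
    refine ⟨q, hq.symm, ?_⟩
    rw [← hq] at h
    exact_mod_cast h
  obtain ⟨v, hv⟩ : ∃ v : Fin m → ℕ → ℚ, ∀ i k, (Y i k).orderTop < 0 →
      (Y i k).orderTop = ((v i k : ℚ) : WithTop ℚ) ∧ v i k < 0 := by
    refine ⟨fun i k => if h : (Y i k).orderTop < 0 then (hval i k h).choose else 0, ?_⟩
    intro i k h
    simp only [dif_pos h]
    exact (hval i k h).choose_spec
  obtain ⟨K₀, hK₀⟩ := exists_nat_gt (-q₀ / (-v i₀ 1))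
  have hα : 0 < -v i₀ 1 := by linarith [(hv i₀ 1 hY1).2]
  obtain ⟨⟨i₁, k₁⟩, hmem, hmax⟩ := Finset.exists_max_image
    ((Finset.univ ×ˢ Finset.Icc 1 (K₀ + 1)).filter fun p : Fin m × ℕ => (Y p.1 p.2).orderTop < 0)
    (fun p => -v p.1 p.2 / (p.2 : ℚ)) ⟨(i₀, 1), by
      rw [Finset.mem_filter, Finset.mem_product, Finset.mem_Icc]
      exact ⟨⟨Finset.mem_univ _, le_rfl, by simp⟩, hY1⟩⟩
  rw [Finset.mem_filter, Finset.mem_product, Finset.mem_Icc] at hmem
  obtain ⟨⟨-, hk1, hk2⟩, hneg⟩ := hmem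
  simp only at hk1 hk2 hneg
  obtain ⟨μ, hμ⟩ : ∃ μ : ℚ, μ = -v i₁ k₁ / k₁ := ⟨_, rfl⟩
  have hk1' : (0 : ℚ) < k₁ := by exact_mod_cast hk1
  have hμα : -v i₀ 1 ≤ μ := by
    have h1 := hmax (i₀, 1) (by
      rw [Finset.mem_filter, Finset.mem_product, Finset.mem_Icc]
      exact ⟨⟨Finset.mem_univ _, le_rfl, by simp⟩, hY1⟩)
    simp only [Nat.cast_one, div_one] at h1
    rw [hμ]
    exact h1
  have hμ0 : 0 < μ := lt_of_lt_of_le hα hμα
  have hge : ∀ (i : Fin m) (k : ℕ), k ≠ 0 → ((-(k * μ) : ℚ) : WithTop ℚ) ≤ (Y i k).orderTop := by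
    intro i k hk
    by_cases h0 : (Y i k).orderTop < 0
    · obtain ⟨h1, h2⟩ := hv i k h0
      rw [h1, WithTop.coe_le_coe]
      have hkpos : (0 : ℚ) < k := by exact_mod_cast Nat.pos_of_ne_zero hk
      by_cases hkK : k ≤ K₀ + 1
      · have h3 := hmax (i, k) (by
          rw [Finset.mem_filter, Finset.mem_product, Finset.mem_Icc]
          exact ⟨⟨Finset.mem_univ _, Nat.one_le_iff_ne_zero.mpr hk, hkK⟩, h0⟩)
        simp only at h3
        rw [← hμ, div_le_iff₀ hkpos] at h3
        linarith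
      · push Not at hkK
        have h3 : q₀ ≤ v i k := by
          have := hq₀ i k
          rw [h1, WithTop.coe_le_coe] at this
          exact this
        have h4 : (K₀ : ℚ) + 1 < k := by exact_mod_cast hkK
        rw [div_lt_iff₀ hα] at hK₀
        nlinarith
    · push Not at h0
      refine le_trans ?_ h0
      have : -(k * μ : ℚ) ≤ 0 := by
        have : (0 : ℚ) ≤ k * μ := by positivity
        linarith
      exact_mod_cast this
  -- the scaled coefficients
  obtain ⟨s, hs⟩ : ∃ s : HahnSeries ℚ M, s = single μ 1 := ⟨_, rfl⟩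
  have hspow : ∀ k : ℕ, s ^ k = single ((k : ℚ) * μ) (1 : M) := by
    intro k
    rw [hs, single_pow, one_pow, nsmul_eq_mul]
  have hsord : ∀ k : ℕ, (s ^ k).orderTop = ((k * μ : ℚ) : WithTop ℚ) := by
    intro k
    rw [hspow]
    exact orderTop_single one_ne_zero
  have hint : ∀ i k, (0 : WithTop ℚ) ≤ (s ^ k * Y i k).orderTop := by
    intro i k
    by_cases hk : k = 0
    · subst hk
      rw [pow_zero, one_mul, hY0]
      exact orderTop_C_nonneg _
    · have h1 := orderTop_mul_le (hsord k).ge (hge i k hk)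
      refine le_trans ?_ h1
      rw [← WithTop.coe_add]
      have : (k : ℚ) * μ + -(k * μ) = 0 := by ring
      rw [this]
      rfl
  -- the homomorphism to the power series
  obtain ⟨Φ, hΦF, hΦL⟩ : ∃ Φ : F ⊗[K] L →+* PowerSeries (HahnSeries ℚ M),
      (∀ a : F, Φ (a ⊗ₜ 1) = PowerSeries.C (C (algebraMap F M a))) ∧
      ∀ l : L, Φ (1 ⊗ₜ l) = expD (Ds δ μ) (Ds_mul δ hδ μ) (r l) := by
    let _ : Algebra K (PowerSeries (HahnSeries ℚ M)) :=
      ((PowerSeries.C (R := HahnSeries ℚ M)).comp ((C : M →+* HahnSeries ℚ M).comp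
        (algebraMap K M))).toAlgebra
    let g : L →ₐ[K] PowerSeries (HahnSeries ℚ M) :=
      { toRingHom := (expD (Ds δ μ) (Ds_mul δ hδ μ)).comp r
        commutes' := fun k => by
          change expD (Ds δ μ) (Ds_mul δ hδ μ) (r (algebraMap K L k)) =
            PowerSeries.C (C (algebraMap K M k))
          rw [hr, expD_of_zero]
          rw [Ds_apply, dl_C, hδK, map_zero, mul_zero] }
    let h : F →ₐ[K] PowerSeries (HahnSeries ℚ M) :=
      { toRingHom := (PowerSeries.C (R := HahnSeries ℚ M)).comp ((C : M →+* HahnSeries ℚ M).comp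
          (algebraMap F M))
        commutes' := fun k => by
          change PowerSeries.C (C (algebraMap F M (algebraMap K F k))) =
            PowerSeries.C (C (algebraMap K M k))
          rw [← IsScalarTower.algebraMap_apply K F M] }
    refine ⟨(Algebra.TensorProduct.productMap h g).toRingHom, fun a => ?_, fun l => ?_⟩
    · change Algebra.TensorProduct.productMap h g (a ⊗ₜ 1) = _
      rw [Algebra.TensorProduct.productMap_apply_tmul, map_one, mul_one]
      rfl
    · change Algebra.TensorProduct.productMap h g (1 ⊗ₜ l) = _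
      rw [Algebra.TensorProduct.productMap_apply_tmul, map_one, one_mul]
      rfl
  have hΦY : ∀ i k, PowerSeries.coeff k (Φ (∑ j, f i j ⊗ₜ[K] b j)) = s ^ k * Y i k := by
    intro i k
    rw [map_sum, map_sum]
    have h1 : ∀ j, PowerSeries.coeff k (Φ (f i j ⊗ₜ[K] b j)) =
        C (algebraMap F M (f i j)) * (((k.factorial : HahnSeries ℚ M))⁻¹ *
          (s ^ k * (dl δ)^[k] (r (b j)))) := by
      intro j
      have h2 : f i j ⊗ₜ[K] b j = (f i j ⊗ₜ[K] (1 : L)) * ((1 : F) ⊗ₜ[K] b j) := by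
        rw [Algebra.TensorProduct.tmul_mul_tmul, mul_one, one_mul]
      rw [h2, map_mul, hΦF, hΦL, PowerSeries.coeff_C_mul, coeff_expD, Ds_iter δ hδ, hs]
    rw [Finset.sum_congr rfl (fun j _ => h1 j), hY]
    simp only
    rw [Finset.mul_sum, Finset.mul_sum]
    apply Finset.sum_congr rfl
    intro j _
    ring
  -- the integral power series
  obtain ⟨yt, hyt⟩ : ∃ yt : Fin m → PowerSeries (Ov M M),
      yt = fun i => PowerSeries.mk fun k => (⟨s ^ k * Y i k, hint i k⟩ : Ov M M) := ⟨_, rfl⟩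
  obtain ⟨φ, hφ⟩ : ∃ φ : F →+* PowerSeries (Ov M M), φ =
      (PowerSeries.C (R := Ov M M)).comp ((algebraMap M (Ov M M)).comp (algebraMap F M)) := ⟨_, rfl⟩
  have hfin : ∀ i, ∃ n₀ : ℕ, ∀ k, n₀ ≤ k → rs M (⟨s ^ k * Y i k, hint i k⟩ : Ov M M) = 0 := by
    intro i
    obtain ⟨n₀, hn₀⟩ := exists_nat_gt (-q₀ / μ)
    refine ⟨n₀, fun k hk => ?_⟩
    rw [rs_apply]
    apply coeff_eq_zero_of_lt_orderTop
    have h1 := orderTop_mul_le (hsord k).ge (hq₀ i k)
    refine lt_of_lt_of_le ?_ h1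
    rw [← WithTop.coe_add]
    have h2 : (0 : ℚ) < k * μ + q₀ := by
      rw [div_lt_iff₀ hμ0] at hn₀
      have h3 : (n₀ : ℚ) ≤ k := by exact_mod_cast hk
      nlinarith
    exact_mod_cast h2
  choose n₀ hn₀ using hfin
  obtain ⟨c, hc⟩ : ∃ c : Fin m → Polynomial M, ∀ i k, (c i).coeff k =
      rs M (⟨s ^ k * Y i k, hint i k⟩ : Ov M M) := by
    refine ⟨fun i => PowerSeries.trunc (n₀ i) (PowerSeries.map (rs M) (yt i)),
      fun i k => ?_⟩
    rw [PowerSeries.coeff_trunc, PowerSeries.coeff_map, hyt, PowerSeries.coeff_mk]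
    split_ifs with h
    · rfl
    · push Not at h
      exact (hn₀ i k h).symm
  refine ⟨c, fun i => ?_, ⟨i₁, k₁, by omega, ?_⟩, fun Q hQ => ?_⟩
  · rw [hc, rs_apply]
    simp only [pow_zero, one_mul]
    rw [hY0, C_apply, coeff_single, if_pos rfl]
  · rw [hc, rs_apply]
    simp only
    obtain ⟨h1, h2⟩ := hv i₁ k₁ hneg
    have h3 : (s ^ k₁ * Y i₁ k₁).orderTop = ((0 : ℚ) : WithTop ℚ) := by
      rw [orderTop_mul, hsord, h1, ← WithTop.coe_add]
      congr 1
      rw [hμ]
      field_simp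
      ring
    intro h4
    have h5 : s ^ k₁ * Y i₁ k₁ ≠ 0 := by
      intro h6
      rw [h6, orderTop_zero] at h3
      exact absurd h3 (by simp)
    exact coeff_orderTop_ne h3 h4
  · -- the equation
    have hι : Function.Injective (PowerSeries.map (inc M)) := by
      intro a a' h
      ext1 k
      have := congrArg (PowerSeries.coeff k) h
      rw [PowerSeries.coeff_map, PowerSeries.coeff_map] at this
      exact Subtype.ext this
    have h1 : MvPolynomial.eval₂ φ yt Q = 0 := by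
      apply hι
      rw [map_zero, MvPolynomial.eval₂_comp_left]
      have h2 : (PowerSeries.map (inc M)).comp φ =
          Φ.comp (algebraMap F (F ⊗[K] L)) := by
        ext1 a
        rw [RingHom.comp_apply, RingHom.comp_apply, Algebra.TensorProduct.algebraMap_apply, hφ,
          RingHom.comp_apply, RingHom.comp_apply, PowerSeries.map_C]
        exact (hΦF a).symm
      have h3 : (PowerSeries.map (inc M)) ∘ yt =
          Φ ∘ fun i => ∑ j, f i j ⊗ₜ[K] b j := by
        funext i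
        ext1 k
        rw [Function.comp_apply, Function.comp_apply, hΦY, PowerSeries.coeff_map, hyt,
          PowerSeries.coeff_mk]
        rfl
      rw [h2, h3, ← MvPolynomial.eval₂_comp_left]
      have h4 : MvPolynomial.eval₂ (algebraMap F (F ⊗[K] L))
          (fun i => ∑ j, f i j ⊗ₜ[K] b j) Q = 0 := hQ
      rw [h4, map_zero]
    have h5 : Function.Injective (Polynomial.coeToPowerSeries.ringHom (R := M)) :=
      Polynomial.coe_injective M
    apply h5
    rw [map_zero]
    have h6 := congrArg (PowerSeries.map (rs M)) h1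
    rw [map_zero, MvPolynomial.eval₂_comp_left] at h6
    rw [MvPolynomial.aeval_def, MvPolynomial.eval₂_comp_left, ← h6]
    congr 1
    · ext1 a
      rw [RingHom.comp_apply, RingHom.comp_apply, hφ, RingHom.comp_apply, RingHom.comp_apply,
        PowerSeries.map_C, Polynomial.coeToPowerSeries.ringHom_apply]
      rw [Polynomial.algebraMap_apply, Polynomial.coe_C]
      congr 1
      exact ((resO M : Ov M M →ₐ[M] M).commutes (algebraMap F M a)).symm
    · funext i
      ext1 k
      rw [Function.comp_apply, Function.comp_apply, Polynomial.coeToPowerSeries.ringHom_apply,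
        Polynomial.coeff_coe, hc, PowerSeries.coeff_map, hyt, PowerSeries.coeff_mk]

end main

end Pool.Agent.Zk18.Fd
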