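import Mathlib

/-!
# Extension of derivations
-/

set_option autoImplicit false

namespace Pool.Agent.Zk18.Fd

open IntermediateField

section

/-- dual numbers -/
def DN (M : Type) : Type := TrivSqZeroExt M M

noncomputable instance (M : Type) [Field M] : CommRing (DN M) :=
  inferInstanceAs (CommRing (TrivSqZeroExt M M))

/-- the projection -/
noncomputable def fstR (M : Type) [Field M] : DN M →+* M :=
  ((TrivSqZeroExt.fstHom M M M).toRingHom : TrivSqZeroExt M M →+* M)

/-- Derivations extend along formally smooth maps. -/
theorem lift_der {A M : Type} [CommRing A] [Field M] [Algebra A M] [Algebra.FormallySmooth A M]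
    (D : A →+ M) (hD : ∀ a b, D (a * b) = D a * algebraMap A M b + algebraMap A M a * D b) :
    ∃ δ : M →+ M, (∀ x y, δ (x * y) = δ x * y + x * δ y) ∧ ∀ a, δ (algebraMap A M a) = D a := by
  classical
  have hD1 : D 1 = 0 := by
    have h := hD 1 1
    rw [mul_one, map_one (algebraMap A M), mul_one, one_mul] at h
    have : D 1 + 0 = D 1 + D 1 := by rw [add_zero]; exact h
    exact (add_left_cancel this).symm
  let ψ : A →+* DN M :=
    { toFun := fun a => ((algebraMap A M a, D a) : M × M)
      map_one' := by
        apply TrivSqZeroExt.ext
        · change algebraMap A M 1 = 1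
          exact map_one _
        · change D 1 = 0
          exact hD1
      map_mul' := fun a b => by
        apply TrivSqZeroExt.ext
        · change algebraMap A M (a * b) = algebraMap A M a * algebraMap A M b
          exact map_mul _ _ _
        · change D (a * b) = algebraMap A M a • D b + MulOpposite.op (algebraMap A M b) • D a
          rw [hD, op_smul_eq_smul, smul_eq_mul, smul_eq_mul]
          ring
      map_zero' := by
        apply TrivSqZeroExt.ext
        · change algebraMap A M 0 = 0
          exact map_zero _
        · change D 0 = 0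
          exact map_zero _
      map_add' := fun a b => by
        apply TrivSqZeroExt.ext
        · change algebraMap A M (a + b) = algebraMap A M a + algebraMap A M b
          exact map_add _ _ _
        · change D (a + b) = D a + D b
          exact map_add _ _ _ }
  let _ : Algebra A (DN M) := ψ.toAlgebra
  have hψ1 : ∀ a, TrivSqZeroExt.fst (ψ a : TrivSqZeroExt M M) = algebraMap A M a := fun a => rfl
  have hψ2 : ∀ a, TrivSqZeroExt.snd (ψ a : TrivSqZeroExt M M) = D a := fun a => rfl
  let g : DN M →ₐ[A] M := { fstR M with commutes' := fun a => hψ1 a }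
  have hgf : ∀ x : DN M, g x = TrivSqZeroExt.fst (x : TrivSqZeroExt M M) := fun x => rfl
  have hg : Function.Surjective g := by
    intro z
    exact ⟨(TrivSqZeroExt.inl z : TrivSqZeroExt M M), hgf _⟩
  have hker : IsNilpotent (RingHom.ker (g : DN M →+* M)) := by
    refine ⟨2, ?_⟩
    rw [pow_two, Submodule.zero_eq_bot, eq_bot_iff]
    rw [Ideal.mul_le]
    intro x hx y hy
    have hx' : TrivSqZeroExt.fst (x : TrivSqZeroExt M M) = 0 := by
      rw [← hgf]
      exact hx
    have hy' : TrivSqZeroExt.fst (y : TrivSqZeroExt M M) = 0 := by
      rw [← hgf]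
      exact hy
    change x * y = 0
    apply TrivSqZeroExt.ext
    · change TrivSqZeroExt.fst (x : TrivSqZeroExt M M) * TrivSqZeroExt.fst (y : TrivSqZeroExt M M) = 0
      rw [hx', zero_mul]
    · change TrivSqZeroExt.fst (x : TrivSqZeroExt M M) • TrivSqZeroExt.snd (y : TrivSqZeroExt M M) +
        MulOpposite.op (TrivSqZeroExt.fst (y : TrivSqZeroExt M M)) •
          TrivSqZeroExt.snd (x : TrivSqZeroExt M M) = 0
      rw [hx', hy']
      simp
  let φ : M →ₐ[A] DN M := Algebra.FormallySmooth.liftOfSurjective (AlgHom.id A M) g hg hker
  have hφ : ∀ z, TrivSqZeroExt.fst (φ z : TrivSqZeroExt M M) = z := by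
    intro z
    rw [← hgf]
    exact Algebra.FormallySmooth.liftOfSurjective_apply (AlgHom.id A M) g hg hker z
  have hφA : ∀ a, φ (algebraMap A M a) = ψ a := fun a => φ.commutes a
  have hmul : ∀ a b : M, TrivSqZeroExt.snd (φ (a * b) : TrivSqZeroExt M M) =
      TrivSqZeroExt.snd (φ a : TrivSqZeroExt M M) * b +
        a * TrivSqZeroExt.snd (φ b : TrivSqZeroExt M M) := by
    intro a b
    rw [map_mul]
    change TrivSqZeroExt.fst (φ a : TrivSqZeroExt M M) • TrivSqZeroExt.snd (φ b : TrivSqZeroExt M M) +
      MulOpposite.op (TrivSqZeroExt.fst (φ b : TrivSqZeroExt M M)) •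
        TrivSqZeroExt.snd (φ a : TrivSqZeroExt M M) = _
    rw [hφ, hφ, op_smul_eq_smul, smul_eq_mul, smul_eq_mul]
    ring
  refine ⟨{ toFun := fun z => TrivSqZeroExt.snd (φ z : TrivSqZeroExt M M)
            map_zero' := by
              rw [map_zero]
              rfl
            map_add' := fun a b => by
              rw [map_add]
              rfl }, hmul, fun a => ?_⟩
  change TrivSqZeroExt.snd (φ (algebraMap A M a) : TrivSqZeroExt M M) = D a
  rw [hφA]
  exact hψ2 a

theorem smooth_field {F M : Type} [Field F] [Field M] [CharZero F] [Algebra F M] :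
    Algebra.FormallySmooth F M := by
  obtain ⟨s, hs⟩ := exists_isTranscendenceBasis F M
  have h1 : Algebra.IsAlgebraic (IntermediateField.adjoin F (Set.range ((↑) : s → M))) M :=
    hs.isAlgebraic_field
  have h2 : Algebra.IsSeparable (IntermediateField.adjoin F (Set.range ((↑) : s → M))) M :=
    inferInstance
  exact Algebra.FormallySmooth.of_algebraicIndependent_of_isSeparable hs.1

/-- Derivations extend to field extensions in characteristic zero. -/
theorem ext_der {F M : Type} [Field F] [Field M] [CharZero F] [Algebra F M]
    (D : F →+ F) (hD : ∀ a b, D (a * b) = D a * b + a * D b) :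
    ∃ δ : M →+ M, (∀ x y, δ (x * y) = δ x * y + x * δ y) ∧
      ∀ a, δ (algebraMap F M a) = algebraMap F M (D a) := by
  have := smooth_field (F := F) (M := M)
  obtain ⟨δ, h1, h2⟩ := lift_der (A := F) (M := M) ((algebraMap F M : F →+ M).comp D) (by
    intro a b
    change algebraMap F M (D (a * b)) = algebraMap F M (D a) * algebraMap F M b +
      algebraMap F M a * algebraMap F M (D b)
    rw [hD]
    simp)
  exact ⟨δ, h1, h2⟩

/-- A derivation which does not vanish on a given transcendental element. -/
theorem exists_der {K F : Type} [Field K] [CharZero K] [Field F] [Algebra K F] (a : F)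
    (ha : Transcendental K a) : ∃ δ : F →+ F, (∀ x y, δ (x * y) = δ x * y + x * δ y) ∧
      (∀ k : K, δ (algebraMap K F k) = 0) ∧ δ a = 1 := by
  let A := Polynomial K
  let _ : Algebra A F := (Polynomial.aeval a : Polynomial K →ₐ[K] F).toRingHom.toAlgebra
  have hAF : ∀ p : A, algebraMap A F p = Polynomial.aeval a p := fun p => rfl
  have hinj : Function.Injective (algebraMap A F) := by
    rw [injective_iff_map_eq_zero]
    intro p hp
    exact (transcendental_iff.mp ha) p hp
  have : FaithfulSMul A F := (faithfulSMul_iff_algebraMap_injective A F).mpr hinj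
  let _ : Algebra (FractionRing A) F := FractionRing.liftAlgebra A F
  have : IsScalarTower A (FractionRing A) F := FractionRing.isScalarTower_liftAlgebra A F
  have : CharZero (FractionRing A) :=
    charZero_of_injective_algebraMap (R := K) (algebraMap K (FractionRing A)).injective
  have h1 : Algebra.FormallySmooth A (FractionRing A) := .of_isLocalization (nonZeroDivisors _)
  have h2 : Algebra.FormallySmooth (FractionRing A) F := smooth_field
  have h3 : Algebra.FormallySmooth A F := .comp _ (FractionRing A) _
  obtain ⟨δ, h4, h5⟩ := lift_der (A := A) (M := F)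
    ((algebraMap A F : A →+ F).comp (Polynomial.derivative : Polynomial K →ₗ[K] Polynomial K)) (by
      intro p q
      change algebraMap A F (Polynomial.derivative (p * q)) = algebraMap A F
        (Polynomial.derivative p) * algebraMap A F q + algebraMap A F p * algebraMap A F
        (Polynomial.derivative q)
      rw [Polynomial.derivative_mul, map_add, map_mul, map_mul])
  refine ⟨δ, h4, fun k => ?_, ?_⟩
  · have := h5 (Polynomial.C k)
    rw [hAF, Polynomial.aeval_C] at this
    rw [this]
    change algebraMap A F (Polynomial.derivative (Polynomial.C k)) = 0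
    rw [Polynomial.derivative_C, map_zero]
  · have := h5 Polynomial.X
    rw [hAF, Polynomial.aeval_X] at this
    rw [this]
    change algebraMap A F (Polynomial.derivative Polynomial.X) = 1
    rw [Polynomial.derivative_X, map_one]

end

end Pool.Agent.Zk18.Fd
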