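import Pool.Agent.Zk18.Gn3
import Mathlib.RingTheory.AlgebraicIndependent.AlgebraicClosure
import Mathlib.Combinatorics.Matroid.Closure

/-!
# Reduction to transcendence degree one
-/

set_option autoImplicit false

attribute [-instance] HahnSeries.powerSeriesAlgebra

namespace Pool.Agent.Zk18.Md

open IntermediateField

section

variable {K Ω : Type} [Field K] [Field Ω] [Algebra K Ω]

/-- the elements algebraic over `K(s)` -/
noncomputable def KK (K : Type) {Ω : Type} [Field K] [Field Ω] [Algebra K Ω] (s : Set Ω) :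
    IntermediateField K Ω :=
  (algebraicClosure (IntermediateField.adjoin K s) Ω).restrictScalars K

theorem mem_KK (s : Set Ω) (x : Ω) :
    x ∈ KK K s ↔ x ∈ (AlgebraicIndependent.matroid K Ω).closure s := by
  rw [AlgebraicIndependent.matroid_closure_eq, SetLike.mem_coe, Subalgebra.mem_algebraicClosure]
  change x ∈ algebraicClosure (IntermediateField.adjoin K s) Ω ↔ _
  rw [mem_algebraicClosure_iff]
  exact IntermediateField.isAlgebraic_adjoin_iff

instance isAlgClosed_KK [IsAlgClosed Ω] (s : Set Ω) : IsAlgClosed (KK K s) := by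
  have h := (algebraicClosure.isAlgClosure (IntermediateField.adjoin K s) Ω).isAlgClosed
  exact h

theorem countable_KK [Countable K] (s : Set Ω) (hs : s.Countable) : Countable (KK K s) := by
  have h1 : Countable (IntermediateField.adjoin K s) := by
    rw [← Cardinal.mk_le_aleph0_iff]
    refine (IntermediateField.cardinalMk_adjoin_le _ _).trans ?_
    refine max_le (max_le ?_ ?_) le_rfl
    · exact Cardinal.mk_le_aleph0_iff.mpr inferInstance
    · exact Cardinal.mk_le_aleph0_iff.mpr hs.to_subtype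
  have h2 : {x : Ω | x ∈ algebraicClosure (IntermediateField.adjoin K s) Ω}.Countable := by
    refine (Algebraic.countable (IntermediateField.adjoin K s) Ω).mono ?_
    intro x hx
    exact mem_algebraicClosure_iff.mp hx
  exact h2.to_subtype

/-- a basis of the span over a larger field -/
theorem exists_basis_fin {F : Type} [Field F] [Algebra F Ω] {N : ℕ} (b : Fin N → Ω) :
    ∃ (N₁ : ℕ) (b₁ : Fin N₁ → Ω), LinearIndependent F b₁ ∧
      Submodule.span F (Set.range b₁) = Submodule.span F (Set.range b) ∧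
      Set.range b₁ ⊆ Set.range b := by
  classical
  obtain ⟨B, hB, hspan, hli⟩ := exists_linearIndependent F (Set.range b)
  have hfin : B.Finite := (Set.finite_range b).subset hB
  obtain ⟨G, rfl⟩ := hfin.exists_finset_coe
  let b₁ : Fin G.card → Ω := fun i => (G.equivFin.symm i : Ω)
  have hr : Set.range b₁ = (G : Set Ω) := by
    ext x
    constructor
    · rintro ⟨i, rfl⟩
      exact (G.equivFin.symm i).2
    · intro hx
      exact ⟨G.equivFin ⟨x, hx⟩, by simp [b₁]⟩
  refine ⟨G.card, b₁, ?_, ?_, ?_⟩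
  · exact hli.comp _ G.equivFin.symm.injective
  · rw [hr]
    exact hspan
  · rw [hr]
    exact hB

theorem Smooth.map {F : MvPolynomial (Fin 3) K} (hs : Smooth F) {E : Type} [Field E]
    (f : K →+* E) : Smooth (MvPolynomial.map f F) := by
  obtain ⟨n, hn⟩ := hs
  refine ⟨n, fun i => ?_⟩
  have h1 := Ideal.mem_map_of_mem (MvPolynomial.map (σ := Fin 3) f) (hn i)
  rw [Ideal.map_span, map_pow, MvPolynomial.map_X] at h1
  refine Ideal.span_mono ?_ h1
  rintro _ ⟨_, ⟨k, rfl⟩, rfl⟩
  exact ⟨k, MvPolynomial.pderiv_map⟩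

/-- the case of transcendence degree one -/
theorem finite_step [Countable K] [CharZero K] [IsAlgClosed Ω] (s : Set Ω) (hsc : s.Countable)
    (t : Ω) {N : ℕ} (b : Fin N → Ω) (hb : LinearIndependent K b)
    (hbt : ∀ j, b j ∈ (AlgebraicIndependent.matroid K Ω).closure (insert t s))
    (F : MvPolynomial (Fin 3) K) (d : ℕ) (hd : 4 ≤ d)
    (hF : F.IsHomogeneous d) (hs : Smooth F) (S : Set (Fin 3 → Fin N → K))
    (hSF : ∀ σ ∈ S, MvPolynomial.aeval (fun i => ∑ j, σ i j • b j) F = 0)
    (hprop : ∀ σ ∈ S, ∀ σ' ∈ S, (∀ i k, (∑ j, σ i j • b j) * (∑ j, σ' k j • b j) =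
      (∑ j, σ k j • b j) * (∑ j, σ' i j • b j)) → σ = σ')
    (hrat : ∀ σ ∈ S, ¬ ∃ (l : Ω) (α : Fin 3 → Ω), (∀ i, α i ∈ KK K s) ∧
      ∀ i, ∑ j, σ i j • b j = l * α i) : S.Finite := by
  classical
  by_contra hinf
  have hK₁c : Countable (KK K s) := countable_KK s hsc
  have hK₁0 : CharZero (KK K s) := charZero_of_injective_algebraMap (algebraMap K (KK K s)).injective
  obtain ⟨N₁, b₁, hb₁, hspan, hb₁b⟩ := exists_basis_fin (F := KK K s) b
  have hbt₁ : ∀ j, IsAlgebraic (KK K s)⟮t⟯ (b₁ j) := by
    intro j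
    obtain ⟨k, hk⟩ := hb₁b ⟨j, rfl⟩
    rw [← hk]
    have h1 := hbt k
    rw [AlgebraicIndependent.matroid_closure_eq, SetLike.mem_coe,
      Subalgebra.mem_algebraicClosure] at h1
    have h2 : ∀ x ∈ Algebra.adjoin K (insert t s), x ∈ (KK K s)⟮t⟯ := by
      have h3 : Algebra.adjoin K (insert t s) ≤
          ((KK K s)⟮t⟯.restrictScalars K).toSubalgebra := by
        rw [Algebra.adjoin_le_iff]
        intro x hx
        rcases Set.mem_insert_iff.mp hx with rfl | hx
        · exact IntermediateField.mem_adjoin_simple_self (KK K s) x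
        · have h4 : x ∈ KK K s := by
            rw [mem_KK]
            exact Matroid.mem_closure_of_mem _ hx (Set.subset_univ _)
          exact (KK K s)⟮t⟯.algebraMap_mem ⟨x, h4⟩
      exact fun x hx => h3 hx
    let f : Algebra.adjoin K (insert t s) →+* (KK K s)⟮t⟯ :=
      (Algebra.adjoin K (insert t s)).val.toRingHom.codRestrict ((KK K s)⟮t⟯).toSubfield
        (fun x => h2 x x.2)
    refine h1.ringHom_of_comp_eq f (RingHom.id Ω) ?_ rfl
    intro x y hxy
    exact Subtype.ext (congrArg (fun z : (KK K s)⟮t⟯ => (z : Ω)) hxy)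
  -- coordinates
  have hy : ∀ (σ : Fin 3 → Fin N → K) i, ∃ c : Fin N₁ → KK K s,
      ∑ j, c j • b₁ j = ∑ j, σ i j • b j := by
    intro σ i
    have h1 : ∑ j, σ i j • b j ∈ Submodule.span (KK K s) (Set.range b₁) := by
      rw [hspan]
      refine Submodule.sum_mem _ fun j _ => ?_
      have h2 : σ i j • b j = (algebraMap K (KK K s) (σ i j)) • b j := by
        rw [algebraMap_smul]
      rw [h2]
      exact Submodule.smul_mem _ _ (Submodule.subset_span ⟨j, rfl⟩)
    exact (Submodule.mem_span_range_iff_exists_fun _).mp h1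
  choose Ψ hΨ using hy
  have hyinj : ∀ σ σ' : Fin 3 → Fin N → K, (∀ i, ∑ j, σ i j • b j = ∑ j, σ' i j • b j) →
      σ = σ' := by
    intro σ σ' h
    funext i j
    have h2 := (Fintype.linearIndependent_iff.mp hb) (fun j => σ i j - σ' i j) (by
      simp only [sub_smul, Finset.sum_sub_distrib, h i, sub_self]) j
    exact sub_eq_zero.mp h2
  have hΨinj : Function.Injective Ψ := by
    intro σ σ' h
    apply hyinj
    intro i
    rw [← hΨ σ i, ← hΨ σ' i, h]
  refine no_family b₁ hb₁ t hbt₁ (MvPolynomial.map (algebraMap K (KK K s)) F) d hd (hF.map _)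
    (hs.map _) (Ψ '' S) (Set.Infinite.image hΨinj.injOn hinf) ?_ ?_ ?_
  · rintro _ ⟨σ, hσ, rfl⟩
    have h1 : (fun i => ∑ j, Ψ σ i j • b₁ j) = fun i => ∑ j, σ i j • b j := funext (hΨ σ)
    rw [h1, MvPolynomial.aeval_map_algebraMap]
    exact hSF σ hσ
  · rintro _ ⟨σ, hσ, rfl⟩
    by_contra hno
    push Not at hno
    apply hrat σ hσ
    by_cases h0 : ∃ a c, Ψ σ a c ≠ 0
    · obtain ⟨a, c, hac⟩ := h0
      have hac' : ((Ψ σ a c : KK K s) : Ω) ≠ 0 := fun h => hac (Subtype.ext h)
      refine ⟨(∑ j, σ a j • b j) / (Ψ σ a c : KK K s), fun i => (Ψ σ i c : KK K s),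
        fun i => (Ψ σ i c).2, fun i => ?_⟩
      rw [div_mul_eq_mul_div, eq_div_iff hac', ← hΨ σ i, ← hΨ σ a, Finset.sum_mul, Finset.sum_mul]
      apply Finset.sum_congr rfl
      intro j _
      have h1 := congrArg (fun z : KK K s => (z : Ω)) (hno i a j c)
      simp only [MulMemClass.coe_mul] at h1
      rw [Algebra.smul_def, Algebra.smul_def]
      change ((Ψ σ i j : KK K s) : Ω) * b₁ j * (Ψ σ a c : KK K s) =
        ((Ψ σ a j : KK K s) : Ω) * b₁ j * (Ψ σ i c : KK K s)
      linear_combination b₁ j * h1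
    · push Not at h0
      refine ⟨0, fun _ => 0, fun _ => (KK K s).zero_mem, fun i => ?_⟩
      rw [← hΨ σ i, zero_mul]
      apply Finset.sum_eq_zero
      intro j _
      rw [h0 i j, zero_smul]
  · rintro _ ⟨σ, hσ, rfl⟩ _ ⟨σ', hσ', rfl⟩ h
    simp only [hΨ] at h
    rw [hprop σ hσ σ' hσ' h]

/-- **Finiteness.** -/
theorem finite_all [Countable K] [CharZero K] [IsAlgClosed K] [IsAlgClosed Ω]
    {N : ℕ} (b : Fin N → Ω) (hb : LinearIndependent K b)
    (F : MvPolynomial (Fin 3) K) (d : ℕ) (hd : 4 ≤ d)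
    (hF : F.IsHomogeneous d) (hs : Smooth F) (S : Set (Fin 3 → Fin N → K))
    (hSF : ∀ σ ∈ S, MvPolynomial.aeval (fun i => ∑ j, σ i j • b j) F = 0)
    (hprop : ∀ σ ∈ S, ∀ σ' ∈ S, (∀ i k, (∑ j, σ i j • b j) * (∑ j, σ' k j • b j) =
      (∑ j, σ k j • b j) * (∑ j, σ' i j • b j)) → σ = σ')
    (hrank : ∀ σ ∈ S, ∃ i k j l, σ i j * σ k l ≠ σ k j * σ i l) : S.Finite := by
  classical
  -- not rational
  have hnr : ∀ σ ∈ S, ¬ ∃ (l : Ω) (α : Fin 3 → K), ∀ i, ∑ j, σ i j • b j =
      l * algebraMap K Ω (α i) := by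
    rintro σ hσ ⟨l, α, hα⟩
    have h1 : ∀ i k j, σ i j * α k = σ k j * α i := by
      intro i k j
      have h2 := (Fintype.linearIndependent_iff.mp hb)
        (fun j => σ i j * α k - σ k j * α i) (by
          have e1 : ∑ j, (σ i j * α k - σ k j * α i) • b j =
              (∑ j, σ i j • b j) * algebraMap K Ω (α k) -
                (∑ j, σ k j • b j) * algebraMap K Ω (α i) := by
            rw [Finset.sum_mul, Finset.sum_mul, ← Finset.sum_sub_distrib]
            apply Finset.sum_congr rfl
            intro j _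
            rw [Algebra.smul_def, Algebra.smul_def, Algebra.smul_def, map_sub, map_mul, map_mul]
            ring
          rw [e1, hα i, hα k]
          ring) j
      exact sub_eq_zero.mp h2
    obtain ⟨i, k, j, j', hne⟩ := hrank σ hσ
    apply hne
    by_cases h0 : ∃ a, α a ≠ 0
    · obtain ⟨a, ha⟩ := h0
      have e1 := h1 i a j
      have e2 := h1 k a j'
      have e3 := h1 k a j
      have e4 := h1 i a j'
      apply mul_right_cancel₀ (mul_ne_zero ha ha)
      linear_combination (σ k j' * α a) * e1 + σ a j * α i * e2 - σ i j' * α a * e3 -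
          σ a j * α k * e4
    · push Not at h0
      have h2 : ∀ i j, σ i j = 0 := by
        intro i j
        have h3 := (Fintype.linearIndependent_iff.mp hb) (fun j => σ i j) (by
          rw [hα i, h0 i, map_zero, mul_zero]) j
        exact h3
      rw [h2, h2, h2, zero_mul, zero_mul]
  let 𝔐 := AlgebraicIndependent.matroid K Ω
  obtain ⟨T, hT⟩ := 𝔐.exists_isBasis (Set.range b) (Set.subset_univ _)
  have hTfin : T.Finite := (Set.finite_range b).subset hT.subset
  have hbT : ∀ j, b j ∈ 𝔐.closure T := by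
    intro j
    rw [hT.closure_eq_closure]
    exact Matroid.mem_closure_of_mem _ ⟨j, rfl⟩ (Set.subset_univ _)
  have hKempty : ∀ x ∈ 𝔐.closure (∅ : Set Ω), ∃ k, algebraMap K Ω k = x := by
    intro x hx
    rw [AlgebraicIndependent.matroid_closure_eq, SetLike.mem_coe,
      Subalgebra.mem_algebraicClosure, Algebra.adjoin_empty] at hx
    have h1 : IsAlgebraic K x := by
      have h2 : Algebra.IsAlgebraic K (⊥ : Subalgebra K Ω) := by
        constructor
        rintro ⟨z, k, rfl⟩
        exact isAlgebraic_algebraMap (A := (⊥ : Subalgebra K Ω)) k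
      exact IsAlgebraic.restrictScalars K hx
    have h2 : IsIntegral K x := h1.isIntegral
    have h3 := IsAlgClosed.degree_eq_one_of_irreducible K (minpoly.irreducible h2)
    exact minpoly.mem_range_of_degree_eq_one K x h3
  rcases T.eq_empty_or_nonempty with hTe | hTne
  · -- all elements are constant
    have hSe : S = ∅ := by
      rw [Set.eq_empty_iff_forall_notMem]
      intro σ hσ
      apply hnr σ hσ
      have h1 : ∀ j, ∃ k, algebraMap K Ω k = b j := by
        intro j
        apply hKempty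
        rw [← hTe]
        exact hbT j
      choose β hβ using h1
      refine ⟨1, fun i => ∑ j, σ i j * β j, fun i => ?_⟩
      rw [one_mul, map_sum]
      apply Finset.sum_congr rfl
      intro j _
      rw [Algebra.smul_def, map_mul, hβ]
    rw [hSe]
    exact Set.finite_empty
  · let Si : Ω → Set (Fin 3 → Fin N → K) := fun i =>
      {σ ∈ S | ¬ ∃ (l : Ω) (α : Fin 3 → Ω), (∀ k, α k ∈ KK K (T \ {i})) ∧
        ∀ k, ∑ j, σ k j • b j = l * α k}
    have hSi : ∀ i ∈ T, (Si i).Finite := by
      intro i hi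
      apply finite_step (T \ {i}) (hTfin.subset Set.sdiff_subset).countable i b hb ?_ F d hd hF hs
      · exact fun σ hσ => hSF σ hσ.1
      · exact fun σ hσ σ' hσ' h => hprop σ hσ.1 σ' hσ'.1 h
      · exact fun σ hσ => hσ.2
      · intro j
        rw [Set.insert_sdiff_singleton, Set.insert_eq_of_mem hi]
        exact hbT j
    have hcover : S ⊆ ⋃ i ∈ T, Si i := by
      intro σ hσ
      by_contra hno
      rw [Set.mem_iUnion₂] at hno
      push Not at hno
      have h1 : ∀ i ∈ T, ∃ (l : Ω) (α : Fin 3 → Ω), (∀ k, α k ∈ KK K (T \ {i})) ∧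
        ∀ k, ∑ j, σ k j • b j = l * α k := by
        intro i hi
        by_contra h2
        exact hno i hi ⟨hσ, h2⟩
      -- a nonzero coordinate
      obtain ⟨a, ha⟩ : ∃ a, ∑ j, σ a j • b j ≠ 0 := by
        by_contra h2
        push Not at h2
        exact hnr σ hσ ⟨0, fun _ => 0, fun i => by rw [h2 i, zero_mul]⟩
      have h3 : ∀ k, (∑ j, σ k j • b j) / (∑ j, σ a j • b j) ∈ 𝔐.closure (∅ : Set Ω) := by
        intro k
        have hne : Nonempty T := hTne.to_subtype
        have h4 : 𝔐.closure (⋂ i : T, T \ {(i : Ω)}) = ⋂ i : T, 𝔐.closure (T \ {(i : Ω)}) :=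
          hT.indep.closure_iInter_eq_biInter_closure_of_forall_subset
            (fun i => Set.sdiff_subset)
        have h5 : (⋂ i : T, T \ {(i : Ω)}) = (∅ : Set Ω) := by
          rw [Set.eq_empty_iff_forall_notMem]
          intro x hx
          rw [Set.mem_iInter] at hx
          obtain ⟨i, hi⟩ := hTne
          have hxT := (hx ⟨i, hi⟩).1
          exact (hx ⟨x, hxT⟩).2 rfl
        rw [← h5, h4, Set.mem_iInter]
        intro i
        rw [← mem_KK]
        obtain ⟨l, α, hα, hy⟩ := h1 i i.2
        have hl : l ≠ 0 := by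
          rintro rfl
          rw [hy a, zero_mul] at ha
          exact ha rfl
        rw [hy k, hy a, mul_div_mul_left _ _ hl]
        exact (KK K (T \ {(i : Ω)})).div_mem (hα k) (hα a)
      choose β hβ using fun k => hKempty _ (h3 k)
      apply hnr σ hσ
      refine ⟨∑ j, σ a j • b j, β, fun i => ?_⟩
      rw [hβ i, mul_div_cancel₀ _ ha]
    exact (hTfin.biUnion hSi).subset hcover

end

end Pool.Agent.Zk18.Md
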