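import Pool.Agent.Zk18.Fd2
import Pool.Agent.Zk18.Fd3
import Pool.Agent.Zk18.Red

/-!
# Rigidity of the field generated by a point of a family
-/

set_option autoImplicit false
set_option linter.unusedSectionVars false

attribute [-instance] HahnSeries.powerSeriesAlgebra

namespace Pool.Agent.Zk18.Fd

open HahnSeries TensorProduct Pool.Agent.Zk18 Pool.Agent.Zk18.Md Pool.Agent.Helper165.P1

section

variable {K F L E : Type} [Field K] [Field F] [Field L] [Field E] [CharZero K]
  [Algebra K F] [Algebra K L] [Algebra F E] [Algebra L E] [Algebra K E]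
  [IsScalarTower K F E] [IsScalarTower K L E]

/-- the canonical map of the tensor product to the compositum -/
noncomputable def pm (K F L E : Type) [Field K] [Field F] [Field L] [Field E]
    [Algebra K F] [Algebra K L] [Algebra F E] [Algebra L E] [Algebra K E]
    [IsScalarTower K F E] [IsScalarTower K L E] : F ⊗[K] L →ₐ[K] E :=
  Algebra.TensorProduct.productMap (IsScalarTower.toAlgHom K F E) (IsScalarTower.toAlgHom K L E)

theorem pm_tmul (a : F) (l : L) : pm K F L E (a ⊗ₜ l) = algebraMap F E a * algebraMap L E l := by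
  rw [pm, Algebra.TensorProduct.productMap_apply_tmul]
  rfl

theorem aeval_pm {m : ℕ} (Y : Fin m → F ⊗[K] L) (Q : MvPolynomial (Fin m) F) :
    pm K F L E (MvPolynomial.aeval Y Q) = MvPolynomial.aeval (fun i => pm K F L E (Y i)) Q := by
  have h := MvPolynomial.eval₂_comp_left (pm K F L E : F ⊗[K] L →+* E) (algebraMap F (F ⊗[K] L)) Y Q
  rw [MvPolynomial.aeval_def, MvPolynomial.aeval_def]
  refine h.trans ?_
  congr 1
  ext a
  rw [RingHom.comp_apply, Algebra.TensorProduct.algebraMap_apply]
  change pm K F L E (a ⊗ₜ 1) = _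
  rw [pm_tmul, map_one, mul_one]

/-- the point with the coordinates `f` -/
noncomputable def lc {N : ℕ} (b : Fin N → L) (f : Fin N → F) : E :=
  ∑ j, algebraMap F E (f j) * algebraMap L E (b j)

/-- No nonconstant polynomial curve through `y` satisfies all the polynomial equations over `F` which
`y` satisfies. -/
def NA (F : Type) {E : Type} [Field F] [Field E] [Algebra F E] {m : ℕ} (y : Fin m → E) : Prop :=
  ∀ c : Fin m → Polynomial E, (∀ i, (c i).coeff 0 = y i) →
    (∀ Q : MvPolynomial (Fin m) F, MvPolynomial.aeval y Q = 0 → MvPolynomial.aeval c Q = 0) →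
    ∀ i k, k ≠ 0 → (c i).coeff k = 0

theorem rigid_step [Countable E] [IsAlgClosed E] (hdis : Function.Injective (pm K F L E))
    {m N : ℕ} (b : Fin N → L) (f : Fin m → Fin N → F)
    (hNA : NA F (fun i => (lc b (f i) : E)))
    (D : F →+ F) (hD : ∀ a b, D (a * b) = D a * b + a * D b)
    (hDK : ∀ k : K, D (algebraMap K F k) = 0) (i₀ : Fin m) :
    (lc b (fun j => D (f i₀ j)) : E) ∈ KK F (Set.range fun i => (lc b (f i) : E)) := by
  classical
  by_contra hcon
  have hcE : CharZero E := charZero_of_injective_algebraMap (algebraMap K E).injective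
  have hcF : CharZero F := charZero_of_injective_algebraMap (algebraMap K F).injective
  obtain ⟨y, hy⟩ : ∃ y : Fin m → E, y = fun i => (lc b (f i) : E) := ⟨_, rfl⟩
  rw [← hy] at hcon
  let M := KK F (Set.range y)
  have hcM : CharZero M := charZero_of_injective_algebraMap (algebraMap F M).injective
  have hMc : Countable M := inferInstance
  have hMa : IsAlgClosed M := isAlgClosed_KK _
  let _ : Algebra K M := ((algebraMap F M).comp (algebraMap K F)).toAlgebra
  have hKFM : IsScalarTower K F M := IsScalarTower.of_algebraMap_eq fun _ => rfl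
  have hKM : ∀ k : K, algebraMap M E (algebraMap K M k) = algebraMap K E k := by
    intro k
    rw [IsScalarTower.algebraMap_apply K F E]
    rfl
  obtain ⟨δ, hδ, hδF⟩ := ext_der (F := F) (M := M) D hD
  have hz : (lc b (fun j => D (f i₀ j)) : E) ∉ Set.range (algebraMap M E) := by
    rintro ⟨a, ha⟩
    apply hcon
    rw [← ha]
    exact a.2
  obtain ⟨θ, hθ⟩ := arc (K := M) (E := E) _ hz
  let r : L →+* HahnSeries ℚ M :=
    ((Pui M).subtype : Pui M →+* HQ M).comp ((θ : E →+* Pui M).comp (algebraMap L E))
  have hr : ∀ l, r l = ((θ (algebraMap L E l) : Pui M) : HQ M) := fun l => rfl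
  have hθC : ∀ a : M, ((θ (algebraMap M E a) : Pui M) : HQ M) = C a := by
    intro a
    rw [θ.commutes, coe_algebraMap_Pui]
  have hym : ∀ i, y i ∈ M := by
    intro i
    rw [mem_KK]
    exact Matroid.subset_closure _ _ (by
      rw [AlgebraicIndependent.matroid_e]
      exact Set.subset_univ _) ⟨i, rfl⟩
  have hsum : ∀ g : Fin N → F, ∑ j, C (algebraMap F M (g j)) * r (b j) =
      ((θ (lc b g : E) : Pui M) : HQ M) := by
    intro g
    rw [lc, map_sum]
    have h1 : ((∑ j, θ (algebraMap F E (g j) * algebraMap L E (b j)) : Pui M) : HQ M) =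
        ∑ j, ((θ (algebraMap F E (g j) * algebraMap L E (b j)) : Pui M) : HQ M) :=
      map_sum ((Pui M).subtype) _ _
    rw [h1]
    apply Finset.sum_congr rfl
    intro j _
    rw [map_mul, Subfield.coe_mul, ← hθC, hr]
    rfl
  obtain ⟨c, hc0, ⟨i₁, k₁, hk₁, hck⟩, hcQ⟩ := polynomial_curve (K := K) (F := F) (L := L) (M := M)
    δ hδ (fun k => by
      change δ (algebraMap F M (algebraMap K F k)) = 0
      rw [hδF, hDK, map_zero]) r (fun k => by
      rw [hr, ← hθC, hKM, ← IsScalarTower.algebraMap_apply K L E]) b f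
    (fun i => ⟨y i, hym i⟩) (fun i => by
      rw [hsum, ← hθC]
      have h1 : (lc b (f i) : E) = y i := by rw [hy]
      rw [h1]
      rfl) i₀ (by
      have h1 : ∀ j, C (δ (algebraMap F M (f i₀ j))) * r (b j) =
          C (algebraMap F M (D (f i₀ j))) * r (b j) := by
        intro j
        rw [hδF]
      rw [Finset.sum_congr rfl (fun j _ => h1 j), hsum (fun j => D (f i₀ j)), hθ]
      have h2 : ((tinv : Pui M) : HQ M).orderTop = ((-1 : ℚ) : WithTop ℚ) := by
        rw [← vP_apply]
        exact vP_tinv
      rw [h2]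
      exact_mod_cast (by norm_num : (-1 : ℚ) < 0))
  have h3 := hNA (fun i => (c i).map (algebraMap M E)) (fun i => by
      rw [Polynomial.coeff_map, hc0]
      change y i = _
      rw [hy]) (fun Q hQ => by
      have h4 : MvPolynomial.aeval (fun i => ∑ j, f i j ⊗ₜ[K] b j : Fin m → F ⊗[K] L) Q = 0 := by
        apply hdis
        rw [map_zero, aeval_pm, ← hQ]
        have h1 : (fun i => pm K F L E (∑ j, f i j ⊗ₜ[K] b j)) = fun i => (lc b (f i) : E) := by
          funext i
          rw [map_sum]
          apply Finset.sum_congr rfl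
          intro j _
          rw [pm_tmul]
        rw [h1]
      have h5 := hcQ Q h4
      have h6 := congrArg (Polynomial.mapRingHom (algebraMap M E)) h5
      rw [map_zero, MvPolynomial.aeval_def, MvPolynomial.eval₂_comp_left] at h6
      rw [MvPolynomial.aeval_def, ← h6]
      congr 1
      ext a
      rw [RingHom.comp_apply, Polynomial.coe_mapRingHom, Polynomial.algebraMap_apply,
        Polynomial.algebraMap_apply, Polynomial.map_C]
      rfl) i₁ k₁ hk₁
  apply hck
  simp only [Polynomial.coeff_map] at h3
  exact (map_eq_zero_iff _ (algebraMap M E).injective).mp h3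

end

end Pool.Agent.Zk18.Fd
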