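import Pool.Agent.Zk18.Fd4

/-!
# The space of the algebraic combinations is stable under derivations
-/

set_option autoImplicit false
set_option linter.unusedSectionVars false

attribute [-instance] HahnSeries.powerSeriesAlgebra

namespace Pool.Agent.Zk18.Fd

open TensorProduct Pool.Agent.Zk18 Pool.Agent.Zk18.Md

section

variable {F E : Type} [Field F] [Field E] [Algebra F E]

theorem mem_KK_of_mem {s : Set E} {x : E} (hx : x ∈ s) : x ∈ KK F s := by
  rw [mem_KK]
  exact Matroid.subset_closure _ _ (by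
    rw [AlgebraicIndependent.matroid_e]
    exact Set.subset_univ _) hx

theorem KK_le {s t : Set E} (h : ∀ x ∈ s, x ∈ KK F t) : KK F s ≤ KK F t := by
  intro x hx
  rw [mem_KK] at hx ⊢
  have h1 : s ⊆ (AlgebraicIndependent.matroid F E).closure t := by
    intro z hz
    rw [← mem_KK]
    exact h z hz
  exact (AlgebraicIndependent.matroid F E).closure_subset_closure_of_subset_closure h1 hx

/-- an algebraic relation -/
theorem exists_relation {m : ℕ} (y : Fin m → E) (z : E) (hz : z ∈ KK F (Set.range y)) :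
    ∃ P : Polynomial (MvPolynomial (Fin m) F),
      P.map ((MvPolynomial.aeval y : MvPolynomial (Fin m) F →ₐ[F] E) :
        MvPolynomial (Fin m) F →+* E) ≠ 0 ∧
      (P.map ((MvPolynomial.aeval y : MvPolynomial (Fin m) F →ₐ[F] E) :
        MvPolynomial (Fin m) F →+* E)).eval z = 0 := by
  classical
  rw [mem_KK, AlgebraicIndependent.matroid_closure_eq, SetLike.mem_coe,
    Subalgebra.mem_algebraicClosure] at hz
  obtain ⟨p, hp, hpz⟩ := hz
  have hsurj : ∀ a : Algebra.adjoin F (Set.range y), ∃ q : MvPolynomial (Fin m) F,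
      MvPolynomial.aeval y q = (a : E) := by
    intro a
    have h0 : ∀ x : E, x ∈ Algebra.adjoin F (Set.range y) →
        ∃ q : MvPolynomial (Fin m) F, MvPolynomial.aeval y q = x := by
      intro x hx
      rw [Algebra.adjoin_range_eq_range_aeval] at hx
      exact hx
    exact h0 _ a.2
  choose q hq using hsurj
  let P : Polynomial (MvPolynomial (Fin m) F) :=
    ∑ k ∈ Finset.range (p.natDegree + 1), Polynomial.monomial k (q (p.coeff k))
  have hP : P.map ((MvPolynomial.aeval y : MvPolynomial (Fin m) F →ₐ[F] E) :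
      MvPolynomial (Fin m) F →+* E) = p.map (algebraMap (Algebra.adjoin F (Set.range y)) E) := by
    have h1 : p = ∑ k ∈ Finset.range (p.natDegree + 1), Polynomial.monomial k (p.coeff k) :=
      p.as_sum_range
    conv_rhs => rw [h1]
    rw [Polynomial.map_sum, Polynomial.map_sum]
    apply Finset.sum_congr rfl
    intro k _
    rw [Polynomial.map_monomial, Polynomial.map_monomial]
    congr 1
    exact hq _
  refine ⟨P, ?_, ?_⟩
  · rw [hP, Ne, Polynomial.map_eq_zero_iff]
    · exact hp
    · exact Subtype.val_injective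
  · rw [hP, Polynomial.eval_map_algebraMap]
    exact hpz

theorem NA_snoc {m : ℕ} (y : Fin m → E) (z : E) (hz : z ∈ KK F (Set.range y)) (hy : NA F y) :
    NA F (Fin.snoc y z : Fin (m + 1) → E) := by
  classical
  intro c hc0 hcQ
  have h1 : ∀ i k, k ≠ 0 → (c (Fin.castSucc i)).coeff k = 0 := by
    refine hy (fun i => c (Fin.castSucc i)) (fun i => ?_) (fun Q hQ => ?_)
    · rw [hc0, Fin.snoc_castSucc]
    · have h2 := hcQ (MvPolynomial.rename Fin.castSucc Q) (by
        rw [MvPolynomial.aeval_rename, ← hQ]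
        congr 2
        funext i
        rw [Function.comp_apply, Fin.snoc_castSucc])
      rw [MvPolynomial.aeval_rename] at h2
      exact h2
  have h2 : ∀ i, c (Fin.castSucc i) = Polynomial.C (y i) := by
    intro i
    ext k
    rw [Polynomial.coeff_C]
    split_ifs with h
    · subst h
      rw [hc0, Fin.snoc_castSucc]
    · exact h1 i k h
  obtain ⟨P, hP, hPz⟩ := exists_relation y z hz
  let p := P.map ((MvPolynomial.aeval y : MvPolynomial (Fin m) F →ₐ[F] E) :
      MvPolynomial (Fin m) F →+* E)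
  let Q : MvPolynomial (Fin (m + 1)) F := P.eval₂
    ((MvPolynomial.rename Fin.castSucc : MvPolynomial (Fin m) F →ₐ[F] MvPolynomial (Fin (m + 1)) F) :
      MvPolynomial (Fin m) F →+* MvPolynomial (Fin (m + 1)) F) (MvPolynomial.X (Fin.last m))
  have hQ1 : MvPolynomial.aeval (Fin.snoc y z : Fin (m + 1) → E) Q = 0 := by
    have h3 : MvPolynomial.aeval (Fin.snoc y z : Fin (m + 1) → E) Q = p.eval z := by
      change ((MvPolynomial.aeval (Fin.snoc y z : Fin (m + 1) → E) :
        MvPolynomial (Fin (m + 1)) F →ₐ[F] E) : MvPolynomial (Fin (m + 1)) F →+* E) _ = _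
      rw [Polynomial.hom_eval₂, Polynomial.eval_map]
      congr 1
      · apply MvPolynomial.ringHom_ext
        · intro r
          simp
        · intro i
          simp
      · simp
    rw [h3]
    exact hPz
  have h4 := hcQ Q hQ1
  have h5 : MvPolynomial.aeval c Q = p.comp (c (Fin.last m)) := by
    change ((MvPolynomial.aeval c :
      MvPolynomial (Fin (m + 1)) F →ₐ[F] Polynomial E) : MvPolynomial (Fin (m + 1)) F →+*
        Polynomial E) _ = _
    rw [Polynomial.hom_eval₂, Polynomial.comp, Polynomial.eval₂_map]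
    congr 1
    · apply MvPolynomial.ringHom_ext
      · intro r
        simp [Polynomial.algebraMap_apply]
      · intro i
        simp [h2]
    · simp
  rw [h5, Polynomial.comp_eq_zero_iff] at h4
  have h6 : c (Fin.last m) = Polynomial.C ((c (Fin.last m)).coeff 0) := by
    rcases h4 with h4 | h4
    · exact absurd h4 hP
    · exact h4.2
  intro i k hk
  refine Fin.lastCases ?_ (fun i => h1 i k hk) i
  rw [h6, Polynomial.coeff_C, if_neg hk]

end

section

variable {K F L E : Type} [Field K] [Field F] [Field L] [Field E] [CharZero K]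
  [Algebra K F] [Algebra K L] [Algebra F E] [Algebra L E] [Algebra K E]
  [IsScalarTower K F E] [IsScalarTower K L E]

/-- **Stability.** -/
theorem stable [Countable E] [IsAlgClosed E] (hdis : Function.Injective (pm K F L E))
    {m N : ℕ} (b : Fin N → L) (f : Fin m → Fin N → F)
    (hNA : NA F (fun i => (lc b (f i) : E)))
    (D : F →+ F) (hD : ∀ a b, D (a * b) = D a * b + a * D b)
    (hDK : ∀ k : K, D (algebraMap K F k) = 0) (g : Fin N → F)
    (hg : (lc b g : E) ∈ KK F (Set.range fun i => (lc b (f i) : E))) :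
    (lc b (fun j => D (g j)) : E) ∈ KK F (Set.range fun i => (lc b (f i) : E)) := by
  have h1 := NA_snoc _ _ hg hNA
  have h2 : (Fin.snoc (fun i => (lc b (f i) : E)) (lc b g) : Fin (m + 1) → E) =
      fun i => (lc b ((Fin.snoc f g : Fin (m + 1) → Fin N → F) i) : E) := by
    funext i
    refine Fin.lastCases ?_ (fun i => ?_) i
    · rw [Fin.snoc_last, Fin.snoc_last]
    · rw [Fin.snoc_castSucc, Fin.snoc_castSucc]
  rw [h2] at h1
  have h3 := rigid_step hdis b (Fin.snoc f g : Fin (m + 1) → Fin N → F) h1 D hD hDK (Fin.last m)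
  rw [Fin.snoc_last] at h3
  refine KK_le ?_ h3
  rintro _ ⟨i, rfl⟩
  rw [← h2]
  refine Fin.lastCases ?_ (fun i => ?_) i
  · rw [Fin.snoc_last]
    exact hg
  · rw [Fin.snoc_castSucc]
    exact mem_KK_of_mem ⟨i, rfl⟩

end

section descent

variable {K F : Type} [Field K] [CharZero K] [IsAlgClosed K] [Field F] [Algebra K F]

/-- A subspace which is stable under the derivations is defined over the constants. -/
theorem descent {N : ℕ} (S : Submodule F (Fin N → F))
    (hS : ∀ D : F →+ F, (∀ a b, D (a * b) = D a * b + a * D b) →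
      (∀ k : K, D (algebraMap K F k) = 0) → ∀ g ∈ S, (fun j => D (g j)) ∈ S)
    (g : Fin N → F) (hg : g ∈ S) :
    g ∈ Submodule.span F {h : Fin N → F | h ∈ S ∧ ∃ k : Fin N → K, h = fun j => algebraMap K F (k j)} := by
  classical
  obtain ⟨n, hn⟩ : ∃ n, n = (Finset.univ.filter fun j => g j ≠ 0).card := ⟨_, rfl⟩
  induction n using Nat.strong_induction_on generalizing g with
  | _ n ih =>
  by_cases hg0 : g = 0
  · rw [hg0]
    exact Submodule.zero_mem _
  -- a nonzero element of minimal support inside the support of `g`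
  obtain ⟨c, ⟨hcS, hc0, hcg⟩, hmin⟩ : ∃ c : Fin N → F, (c ∈ S ∧ c ≠ 0 ∧ ∀ j, g j = 0 → c j = 0) ∧
      ∀ c' : Fin N → F, (c' ∈ S ∧ c' ≠ 0 ∧ ∀ j, g j = 0 → c' j = 0) →
        (Finset.univ.filter fun j => c j ≠ 0).card ≤ (Finset.univ.filter fun j => c' j ≠ 0).card := by
    have hex : ∃ n : ℕ, ∃ c : Fin N → F, (c ∈ S ∧ c ≠ 0 ∧ ∀ j, g j = 0 → c j = 0) ∧
        (Finset.univ.filter fun j => c j ≠ 0).card = n := ⟨_, g, ⟨hg, hg0, fun _ h => h⟩, rfl⟩
    obtain ⟨c, hc, hcn⟩ := Nat.find_spec hex
    refine ⟨c, hc, fun c' hc' => ?_⟩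
    rw [hcn]
    exact Nat.find_min' hex ⟨c', hc', rfl⟩
  obtain ⟨j₀, hj₀⟩ := Function.ne_iff.mp hc0
  rw [Pi.zero_apply] at hj₀
  -- normalise
  obtain ⟨d, hd⟩ : ∃ d : Fin N → F, d = (c j₀)⁻¹ • c := ⟨_, rfl⟩
  have hdS : d ∈ S := by
    rw [hd]
    exact S.smul_mem _ hcS
  have hd1 : d j₀ = 1 := by
    rw [hd, Pi.smul_apply, smul_eq_mul, inv_mul_cancel₀ hj₀]
  have hdz : ∀ j, c j = 0 → d j = 0 := by
    intro j hj
    rw [hd, Pi.smul_apply, hj, smul_zero]
  have hdK : ∃ k : Fin N → K, d = fun j => algebraMap K F (k j) := by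
    have h1 : ∀ j, ∃ k : K, algebraMap K F k = d j := by
      intro j
      by_contra hno
      have htr : Transcendental K (d j) := transcendental_of_not_mem (K := K) (z := d j) (by
        rintro ⟨k, hk⟩
        exact hno ⟨k, hk⟩)
      obtain ⟨D, hD1, hD2, hD3⟩ := exists_der (K := K) (F := F) (d j) htr
      have h2 := hS D hD1 hD2 d hdS
      have h3 := hmin (fun j => D (d j)) ⟨h2, fun h0 => by
        have h4 := congrFun h0 j
        simp only [hD3, Pi.zero_apply] at h4
        exact one_ne_zero h4, fun j hj => by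
          rw [hdz j (hcg j hj), map_zero]⟩
      have h4 : (Finset.univ.filter fun j => D (d j) ≠ 0).card <
          (Finset.univ.filter fun j => c j ≠ 0).card := by
        apply Finset.card_lt_card
        rw [Finset.ssubset_iff_of_subset]
        · refine ⟨j₀, ?_, ?_⟩
          · rw [Finset.mem_filter]
            exact ⟨Finset.mem_univ _, hj₀⟩
          · rw [Finset.mem_filter, hd1, map_one_zero D hD1]
            simp
        · intro i hi
          rw [Finset.mem_filter] at hi ⊢
          refine ⟨Finset.mem_univ _, fun h5 => hi.2 ?_⟩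
          rw [hdz i h5, map_zero]
      exact absurd h3 (not_le.mpr h4)
    choose k hk using h1
    exact ⟨k, funext fun j => (hk j).symm⟩
  have hsub : g - g j₀ • d ∈ S := S.sub_mem hg (S.smul_mem _ hdS)
  have hlt : (Finset.univ.filter fun j => (g - g j₀ • d) j ≠ 0).card < n := by
    rw [hn]
    apply Finset.card_lt_card
    rw [Finset.ssubset_iff_of_subset]
    · refine ⟨j₀, ?_, ?_⟩
      · rw [Finset.mem_filter]
        refine ⟨Finset.mem_univ _, fun h0 => hj₀ (hcg j₀ h0)⟩
      · rw [Finset.mem_filter]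
        simp [hd1]
    · intro i hi
      rw [Finset.mem_filter] at hi ⊢
      refine ⟨Finset.mem_univ _, fun h5 => hi.2 ?_⟩
      rw [Pi.sub_apply, Pi.smul_apply, h5, hdz i (hcg i h5), smul_zero, sub_zero]
  have h6 := ih _ hlt (g - g j₀ • d) hsub rfl
  have h7 : g = (g - g j₀ • d) + g j₀ • d := by abel
  rw [h7]
  exact Submodule.add_mem _ h6 (Submodule.smul_mem _ _ (Submodule.subset_span ⟨hdS, hdK⟩))

end descent

end Pool.Agent.Zk18.Fd
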