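import Pool.Agent.Zk18.Fd5
import Mathlib.Combinatorics.Matroid.Rank.ENat

/-!
# Specialisation and ranks
-/

set_option autoImplicit false
set_option linter.unusedSectionVars false

attribute [-instance] HahnSeries.powerSeriesAlgebra

namespace Pool.Agent.Zk18.Fd

open TensorProduct Pool.Agent.Zk18 Pool.Agent.Zk18.Md

section spec

variable {K F : Type} [Field K] [Field F] [Algebra K F]

/-- Specialisation of the coordinates of an element of a subspace defined over the constants. -/
theorem spec_mem {N : ℕ} (S : Submodule F (Fin N → F))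
    (hS : ∀ g ∈ S, g ∈ Submodule.span F {h : Fin N → F | h ∈ S ∧
      ∃ k : Fin N → K, h = fun j => algebraMap K F (k j)})
    {A : Type} [CommRing A] [Algebra K A] (ι : A →ₐ[K] F) (hι : Function.Injective ι)
    (s : A →ₐ[K] K) (a : Fin N → A) (ha : (fun j => ι (a j)) ∈ S) :
    (fun j => algebraMap K F (s (a j))) ∈ S := by
  classical
  by_contra hcon
  let SK : Submodule K (Fin N → K) :=
    { carrier := {k | (fun j => algebraMap K F (k j)) ∈ S}
      add_mem' := by
        intro x y hx hy
        have h1 := S.add_mem hx hy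
        simp only [Set.mem_ofPred_eq, Pi.add_apply, map_add]
        exact h1
      zero_mem' := by
        simp only [Set.mem_ofPred_eq, Pi.zero_apply, map_zero]
        exact S.zero_mem
      smul_mem' := by
        intro c x hx
        have h1 := S.smul_mem (algebraMap K F c) hx
        simp only [Set.mem_ofPred_eq, Pi.smul_apply, smul_eq_mul, map_mul]
        exact h1 }
  have hx : (fun j => s (a j)) ∉ SK := hcon
  obtain ⟨φ, hφ1, hφ2⟩ := SK.exists_dual_map_eq_bot_of_notMem hx inferInstance
  let Φ : (Fin N → F) →ₗ[F] F :=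
    ∑ j, (algebraMap K F (φ (Pi.single j 1))) • LinearMap.proj j
  have hΦ : ∀ x : Fin N → F, Φ x = ∑ j, algebraMap K F (φ (Pi.single j 1)) * x j := by
    intro x
    simp [Φ, LinearMap.sum_apply, Algebra.smul_def]
  have hφ : ∀ x : Fin N → K, φ x = ∑ j, φ (Pi.single j 1) * x j := by
    intro x
    conv_lhs => rw [pi_eq_sum_univ' x]
    rw [map_sum]
    apply Finset.sum_congr rfl
    intro j _
    rw [map_smul, smul_eq_mul, mul_comm]
  have h1 : S ≤ LinearMap.ker Φ := by
    intro g hg
    have h2 := hS g hg
    refine Submodule.span_le (p := LinearMap.ker Φ).mpr ?_ h2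
    rintro _ ⟨hh, k, rfl⟩
    rw [SetLike.mem_coe, LinearMap.mem_ker, hΦ]
    have h3 : φ k = 0 := by
      have h4 : φ k ∈ SK.map φ := ⟨k, hh, rfl⟩
      rw [hφ2] at h4
      exact (Submodule.mem_bot K).mp h4
    rw [hφ] at h3
    have h4 := congrArg (algebraMap K F) h3
    rw [map_sum, map_zero] at h4
    rw [← h4]
    exact Finset.sum_congr rfl fun j _ => (map_mul _ _ _).symm
  have h2 := h1 ha
  rw [LinearMap.mem_ker, hΦ] at h2
  have h3 : ι (∑ j, algebraMap K A (φ (Pi.single j 1)) * a j) = 0 := by
    rw [map_sum, ← h2]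
    apply Finset.sum_congr rfl
    intro j _
    rw [map_mul, ι.commutes]
  have h4 := hι (h3.trans (map_zero ι).symm)
  have h5 := congrArg s h4
  rw [map_zero, map_sum] at h5
  apply hφ1
  rw [hφ, ← h5]
  apply Finset.sum_congr rfl
  intro j _
  rw [map_mul, s.commutes]
  rfl

end spec

section rank

variable {K F L E : Type} [Field K] [Field F] [Field L] [Field E] [CharZero K]
  [Algebra K F] [Algebra K L] [Algebra F E] [Algebra L E] [Algebra K E]
  [IsScalarTower K F E] [IsScalarTower K L E]

/-- algebraic independence is preserved in the compositum -/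
theorem algInd_of_dis (hdis : Function.Injective (pm K F L E)) {ι : Type} (x : ι → L)
    (hx : AlgebraicIndependent K x) :
    AlgebraicIndependent F (fun i => algebraMap L E (x i)) := by
  classical
  have h1 : Function.Injective ((MvPolynomial.aeval x : MvPolynomial ι K →ₐ[K] L).toLinearMap) := hx
  have h2 : Function.Injective (LinearMap.lTensor F
      ((MvPolynomial.aeval x : MvPolynomial ι K →ₐ[K] L).toLinearMap)) :=
    Module.Flat.lTensor_preserves_injective_linearMap _ h1
  have h3 : ∀ t : F ⊗[K] MvPolynomial ι K,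
      MvPolynomial.aeval (fun i => algebraMap L E (x i)) (MvPolynomial.algebraTensorAlgEquiv K F t) =
      pm K F L E (LinearMap.lTensor F
      ((MvPolynomial.aeval x : MvPolynomial ι K →ₐ[K] L).toLinearMap) t) := by
    intro t
    induction t using TensorProduct.induction_on with
    | zero => simp
    | add t₁ t₂ h₁ h₂ => rw [map_add, map_add, map_add, map_add, h₁, h₂]
    | tmul a p =>
      rw [MvPolynomial.algebraTensorAlgEquiv_tmul, map_smul, LinearMap.lTensor_tmul, pm_tmul,
        Algebra.smul_def, MvPolynomial.aeval_map_algebraMap]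
      congr 1
      have h4 := MvPolynomial.aeval_algebraMap_apply (B := E) x p
      rw [AlgHom.toLinearMap_apply, ← h4]
      rfl
  rw [AlgebraicIndependent]
  intro P Q hPQ
  obtain ⟨t, rfl⟩ := (MvPolynomial.algebraTensorAlgEquiv K F).surjective P
  obtain ⟨u, rfl⟩ := (MvPolynomial.algebraTensorAlgEquiv K F).surjective Q
  rw [h3, h3] at hPQ
  rw [h2 (hdis hPQ)]

/-- a relation bounds the rank -/
theorem rank_le {k : ℕ} (y : Fin (k + 1) → E) (P : MvPolynomial (Fin (k + 1)) F) (hP : P ≠ 0)
    (hPy : MvPolynomial.aeval y P = 0) :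
    (AlgebraicIndependent.matroid F E).eRk (Set.range y) ≤ k := by
  classical
  have hfin : (Set.range y).Finite := Set.finite_range y
  have hcard : (Set.range y).encard ≤ (k + 1 : ℕ) := by
    have h1 := Set.encard_le_encard (Set.image_univ (f := y)).symm.subset
    refine h1.trans ((Set.encard_image_le _ _).trans ?_)
    rw [Set.encard_univ]
    simp
  by_cases hinj : Function.Injective y
  · have hdep : ¬ (AlgebraicIndependent.matroid F E).Indep (Set.range y) := by
      intro h1
      rw [AlgebraicIndependent.matroid_indep_iff] at h1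
      have h2 : AlgebraicIndependent F y := by
        have h3 := h1.comp (Set.rangeFactorization y) (Set.rangeFactorization_injective.mpr hinj)
        exact h3
      apply hP
      exact h2 (hPy.trans (map_zero _).symm)
    have h1 := (AlgebraicIndependent.matroid F E).eRk_lt_encard_of_dep_of_finite hfin
      ((Matroid.not_indep_iff (by
        rw [AlgebraicIndependent.matroid_e]
        exact Set.subset_univ _)).mp hdep)
    have h2 := lt_of_lt_of_le h1 hcard
    rw [← ENat.lt_natCast_add_one_iff]
    exact_mod_cast h2
  · refine ((AlgebraicIndependent.matroid F E).eRk_le_encard _).trans ?_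
    rw [Function.Injective] at hinj
    push Not at hinj
    obtain ⟨i, j, hij, hne⟩ := hinj
    have h1 : Set.range y ⊆ y '' (Set.univ \ {i}) := by
      rintro _ ⟨l, rfl⟩
      by_cases hl : l = i
      · subst hl
        exact ⟨j, ⟨Set.mem_univ _, fun h => hne h.symm⟩, hij.symm⟩
      · exact ⟨l, ⟨Set.mem_univ _, hl⟩, rfl⟩
    refine (Set.encard_le_encard h1).trans ((Set.encard_image_le _ _).trans ?_)
    have h2 : (Set.univ \ {i} : Set (Fin (k + 1))) = ((Finset.univ.erase i : Finset (Fin (k + 1))) :
        Set (Fin (k + 1))) := by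
      ext l
      simp
    rw [h2, Set.encard_coe_eq_coe_finsetCard, Finset.card_erase_of_mem (Finset.mem_univ _)]
    simp

/-- the rank over the constants of elements of the closure -/
theorem rank_le_of_mem (hdis : Function.Injective (pm K F L E)) {k : ℕ} {s : Set E}
    (hs : (AlgebraicIndependent.matroid F E).eRk s ≤ k) (X : Set L)
    (hX : ∀ x ∈ X, algebraMap L E x ∈ KK F s) :
    (AlgebraicIndependent.matroid K L).eRk X ≤ k := by
  rw [Matroid.eRk_le_iff]
  intro I hI hind
  rw [AlgebraicIndependent.matroid_indep_iff] at hind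
  have h1 := algInd_of_dis hdis _ hind
  have h2 : (AlgebraicIndependent.matroid F E).Indep (algebraMap L E '' I) := by
    rw [AlgebraicIndependent.matroid_indep_iff]
    have h3 : Set.range (fun i : I => algebraMap L E (id (i : L))) = algebraMap L E '' I := by
      ext z
      constructor
      · rintro ⟨i, rfl⟩
        exact ⟨i, i.2, rfl⟩
      · rintro ⟨i, hi, rfl⟩
        exact ⟨⟨i, hi⟩, rfl⟩
    rw [← h3]
    exact AlgebraicIndependent.coe_range h1
  have h3 : (algebraMap L E '' I) ⊆ (AlgebraicIndependent.matroid F E).closure s := by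
    rintro _ ⟨x, hx, rfl⟩
    rw [← mem_KK]
    exact hX x (hI hx)
  have h4 := h2.encard_le_eRk_of_subset h3
  rw [Matroid.eRk_closure_eq] at h4
  have h5 : (algebraMap L E '' I).encard = I.encard :=
    (algebraMap L E).injective.encard_image I
  rw [h5] at h4
  exact h4.trans hs

/-- Two points of rank `k` in the closure of a set of rank at most `k` generate the same field. -/
theorem closure_eq (hdis : Function.Injective (pm K F L E)) {k : ℕ} {s : Set E}
    (hs : (AlgebraicIndependent.matroid F E).eRk s ≤ k) (X Y : Set L)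
    (hX : ∀ x ∈ X, algebraMap L E x ∈ KK F s) (hY : ∀ x ∈ Y, algebraMap L E x ∈ KK F s)
    (hXk : (k : ℕ∞) ≤ (AlgebraicIndependent.matroid K L).eRk X)
    (hYk : (k : ℕ∞) ≤ (AlgebraicIndependent.matroid K L).eRk Y) :
    (AlgebraicIndependent.matroid K L).closure X = (AlgebraicIndependent.matroid K L).closure Y := by
  have h1 : (AlgebraicIndependent.matroid K L).eRk (X ∪ Y) ≤ k :=
    rank_le_of_mem hdis hs (X ∪ Y) (by
      rintro x (hx | hx)
      · exact hX x hx
      · exact hY x hx)
  have h2 : ∀ Z : Set L, Z ⊆ X ∪ Y → (k : ℕ∞) ≤ (AlgebraicIndependent.matroid K L).eRk Z →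
      (AlgebraicIndependent.matroid K L).closure Z =
        (AlgebraicIndependent.matroid K L).closure (X ∪ Y) := by
    intro Z hZ hZk
    apply Matroid.IsRkFinite.closure_eq_closure_of_subset_of_eRk_ge_eRk
    · rw [← Matroid.eRk_lt_top_iff]
      exact lt_of_le_of_lt (((AlgebraicIndependent.matroid K L).eRk_mono hZ).trans h1)
        (ENat.natCast_lt_top k)
    · exact hZ
    · exact h1.trans hZk
  rw [h2 X Set.subset_union_left hXk, h2 Y Set.subset_union_right hYk]

end rank

end Pool.Agent.Zk18.Fd
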