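import Pool.Agent.Zk18.Fd6
import Pool.Agent.Zk18.Emb
import Mathlib.RingTheory.Valuation.LocalSubring

/-!
# No polynomial curves: from a special point to the generic point
-/

set_option autoImplicit false
set_option linter.unusedSectionVars false

attribute [-instance] HahnSeries.powerSeriesAlgebra

namespace Pool.Agent.Zk18.Fd

open TensorProduct Pool.Agent.Zk18 Pool.Agent.Zk18.Md

/-- Over a point `y` of the hypersurface `P = 0` there is no nonconstant polynomial curve. -/
def NC {R κ : Type} [CommRing R] [Field κ] (φ : R →+* κ) {m : ℕ} (P : MvPolynomial (Fin m) R)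
    (y : Fin m → κ) : Prop :=
  ∀ c : Fin m → Polynomial κ, (∀ i, (c i).coeff 0 = y i) →
    MvPolynomial.eval₂ (Polynomial.C.comp φ) c P = 0 → ∀ i k, k ≠ 0 → (c i).coeff k = 0

theorem NC.of_embedding {R κ κ' : Type} [CommRing R] [Field κ] [Field κ'] (φ : R →+* κ)
    (j : κ →+* κ') {m : ℕ} (P : MvPolynomial (Fin m) R) (y : Fin m → κ)
    (h : NC (j.comp φ) P (fun i => j (y i))) : NC φ P y := by
  intro c hc hP i k hk
  have h1 := h (fun i => (c i).map j) (fun i => by rw [Polynomial.coeff_map, hc]) (by
    have h2 := congrArg (Polynomial.mapRingHom j) hP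
    rw [map_zero, MvPolynomial.eval₂_comp_left] at h2
    rw [← h2]
    congr 1
    ext a
    simp) i k hk
  rw [Polynomial.coeff_map] at h1
  exact (map_eq_zero_iff _ j.injective).mp h1

/-- countable fields embed into large ones -/
theorem exists_emb {L κ M : Type} [Field L] [Countable L] [Field κ] [Countable κ] [Algebra L κ]
    [Field M] [Algebra L M] [IsAlgClosed M] [Uncountable M] : Nonempty (κ →ₐ[L] M) := by
  classical
  obtain ⟨w, hw⟩ : ∃ w : M, Transcendental L w := by
    by_contra hno
    push Not at hno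
    have h1 := Algebraic.countable L M
    have h2 : {x : M | IsAlgebraic L x} = Set.univ := by
      ext x
      simp only [Set.mem_ofPred_eq, Set.mem_univ, iff_true]
      have h3 := hno x
      rw [Transcendental, not_not] at h3
      exact h3
    rw [h2] at h1
    exact Set.not_countable_univ h1
  have hcp : Countable (Polynomial κ) := by
    rw [← Cardinal.mk_le_aleph0_iff]
    exact Polynomial.cardinalMk_le_max.trans (max_le (Cardinal.mk_le_aleph0_iff.mpr inferInstance)
      le_rfl)
  have hcr : Countable (RatFunc κ) := by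
    have hsurj : Function.Surjective
        (fun p : Polynomial κ × Polynomial κ => algebraMap (Polynomial κ) (RatFunc κ) p.1 /
          algebraMap (Polynomial κ) (RatFunc κ) p.2) := by
      intro x
      exact ⟨(x.num, x.denom), RatFunc.num_div_denom x⟩
    exact hsurj.countable
  have hX : Transcendental L (RatFunc.X : RatFunc κ) := by
    have h1 : Transcendental κ (RatFunc.X : RatFunc κ) := by
      rw [transcendental_iff]
      intro p hp
      have h2 : Polynomial.aeval (RatFunc.X : RatFunc κ) p = algebraMap (Polynomial κ) (RatFunc κ) p := by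
        rw [← RatFunc.algebraMap_X, Polynomial.aeval_algebraMap_apply, Polynomial.aeval_X_left_apply]
      rw [h2] at hp
      exact (map_eq_zero_iff _ (RatFunc.algebraMap_injective κ)).mp hp
    have hst : IsScalarTower L κ (RatFunc κ) := inferInstance
    exact Transcendental.restrictScalars (algebraMap L κ).injective h1
  obtain ⟨φ, -⟩ := exists_embedding (K := L) (E := RatFunc κ) (M := M) RatFunc.X w hX hw
  exact ⟨φ.comp (IsScalarTower.toAlgHom L κ (RatFunc κ))⟩

section

variable {K F L E : Type} [Field K] [Field F] [Field L] [Field E] [CharZero K]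
  [Algebra K F] [Algebra K L] [Algebra F E] [Algebra L E] [Algebra K E]
  [IsScalarTower K F E] [IsScalarTower K L E]

/-- the specialisation of the tensor product -/
noncomputable def sg {A : Type} [CommRing A] [Algebra K A] (L : Type) [Field L] [Algebra K L]
    (s : A →ₐ[K] K) : A ⊗[K] L →ₐ[K] L :=
  Algebra.TensorProduct.productMap ((Algebra.ofId K L).comp s) (AlgHom.id K L)

theorem sg_tmul {A : Type} [CommRing A] [Algebra K A] (s : A →ₐ[K] K) (a : A) (l : L) :
    sg L s (a ⊗ₜ l) = algebraMap K L (s a) * l := by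
  rw [sg, Algebra.TensorProduct.productMap_apply_tmul]
  rfl

/-- **From special to generic.** -/
theorem NA_generic [IsAlgClosed E] (hdis : Function.Injective (pm K F L E))
    {A : Type} [CommRing A] [Algebra K A] (ι : A →ₐ[K] F) (hι : Function.Injective ι)
    (s : A →ₐ[K] K) {m N : ℕ} (b : Fin N → L) (a : Fin m → Fin N → A)
    (P : MvPolynomial (Fin m) A)
    (hP : MvPolynomial.aeval (fun i => (lc b (fun j => ι (a i j)) : E))
      (MvPolynomial.map (ι : A →+* F) P) = 0)
    (hsp : ∀ (κ : Type) (_ : Field κ) (_ : Algebra L κ), Cardinal.mk κ ≤ Cardinal.mk E →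
      NC (((algebraMap L κ).comp (algebraMap K L)).comp (s : A →+* K)) P
        (fun i => algebraMap L κ (∑ j, algebraMap K L (s (a i j)) * b j))) :
    NA F (fun i => (lc b (fun j => ι (a i j)) : E)) := by
  classical
  intro c hc0 hcQ i₁ k₁ hk₁
  by_contra hne
  -- the ring
  let β : A ⊗[K] L →+* E := ((pm K F L E).comp (Algebra.TensorProduct.map ι (AlgHom.id K L)) :
    A ⊗[K] L →ₐ[K] E)
  have hβt : ∀ (x : A) (l : L), β (x ⊗ₜ l) = algebraMap F E (ι x) * algebraMap L E l := by
    intro x l
    change pm K F L E (Algebra.TensorProduct.map ι (AlgHom.id K L) (x ⊗ₜ l)) = _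
    rw [Algebra.TensorProduct.map_tmul, pm_tmul]
    rfl
  have hβ : Function.Injective β := by
    have h1 : Function.Injective (LinearMap.rTensor L (ι.toLinearMap)) :=
      Module.Flat.rTensor_preserves_injective_linearMap _ hι
    intro x y hxy
    have h2 : ∀ z : A ⊗[K] L, Algebra.TensorProduct.map ι (AlgHom.id K L) z =
        LinearMap.rTensor L (ι.toLinearMap) z := by
      intro z
      rfl
    have h3 := hdis hxy
    change Algebra.TensorProduct.map ι (AlgHom.id K L) x =
      Algebra.TensorProduct.map ι (AlgHom.id K L) y at h3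
    rw [h2, h2] at h3
    exact h1 h3
  have hdom : IsDomain (A ⊗[K] L) := hβ.isDomain
  let σ : A ⊗[K] L →+* L := (sg L s : A ⊗[K] L →ₐ[K] L)
  have hσt : ∀ (x : A) (l : L), σ (x ⊗ₜ l) = algebraMap K L (s x) * l := fun x l => sg_tmul s x l
  let 𝔮 : Ideal (A ⊗[K] L) := RingHom.ker σ
  have h𝔮 : 𝔮.IsPrime := RingHom.ker_isPrime σ
  have hunit : ∀ z : 𝔮.primeCompl, IsUnit (β z) := by
    intro z
    apply IsUnit.mk0
    intro h0
    apply z.2
    have h1 : (z : A ⊗[K] L) = 0 := hβ (h0.trans (map_zero β).symm)
    rw [h1]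
    exact 𝔮.zero_mem
  let βl : Localization.AtPrime 𝔮 →+* E := IsLocalization.lift hunit
  have hβl : ∀ z, βl (algebraMap _ _ z) = β z := fun z => IsLocalization.lift_eq hunit z
  obtain ⟨O, hO, hloc⟩ := IsLocalRing.exists_factor_valuationRing βl
  let ρ : A ⊗[K] L →+* O := (βl.codRestrict O.toSubring hO).comp (algebraMap _ _)
  have hρ : ∀ z, ((ρ z : O) : E) = β z := by
    intro z
    exact hβl z
  have hρ𝔮 : ∀ z, z ∈ 𝔮 → IsLocalRing.residue O (ρ z) = 0 := by
    intro z hz
    rw [IsLocalRing.residue_eq_zero_iff, IsLocalRing.mem_maximalIdeal, mem_nonunits_iff]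
    intro hu
    have h1 : IsUnit (algebraMap (A ⊗[K] L) (Localization.AtPrime 𝔮) z) :=
      hloc.map_nonunit _ hu
    have h2 := (IsLocalization.AtPrime.isUnit_to_map_iff (Localization.AtPrime 𝔮) 𝔮 z).mp h1
    exact h2 hz
  let κ := IsLocalRing.ResidueField O
  let ρL : L →+* κ := (IsLocalRing.residue O).comp (ρ.comp
    (Algebra.TensorProduct.includeRight : L →ₐ[K] A ⊗[K] L).toRingHom)
  let _ : Algebra L κ := ρL.toAlgebra
  have hρσ : ∀ z, IsLocalRing.residue O (ρ z) = algebraMap L κ (σ z) := by
    intro z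
    have h1 : z - 1 ⊗ₜ (σ z) ∈ 𝔮 := by
      change σ _ = 0
      rw [map_sub, hσt, map_one, map_one, one_mul, sub_self]
    have h2 := hρ𝔮 _ h1
    rw [map_sub, map_sub, sub_eq_zero] at h2
    rw [h2]
    rfl
  -- rescaling
  have hroot : ∀ i k, ∃ r : E, k ≠ 0 → (c i).coeff k ≠ 0 → r ^ k * (c i).coeff k = 1 := by
    intro i k
    by_cases h : k ≠ 0 ∧ (c i).coeff k ≠ 0
    · obtain ⟨r, hr⟩ := IsAlgClosed.exists_pow_nat_eq ((c i).coeff k)⁻¹ (Nat.pos_of_ne_zero h.1)
      exact ⟨r, fun _ _ => by rw [hr, inv_mul_cancel₀ h.2]⟩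
    · exact ⟨0, fun h1 h2 => absurd ⟨h1, h2⟩ h⟩
  choose r hr using hroot
  let T : Finset (Fin m × ℕ) := (Finset.univ ×ˢ Finset.range ((Finset.univ.sup fun i =>
    (c i).natDegree) + 1)).filter fun p => p.2 ≠ 0 ∧ (c p.1).coeff p.2 ≠ 0
  have hT : ∀ i k, k ≠ 0 → (c i).coeff k ≠ 0 → (i, k) ∈ T := by
    intro i k hk hck
    simp only [T, Finset.mem_filter, Finset.mem_product, Finset.mem_univ, Finset.mem_range,
      true_and]
    refine ⟨Nat.lt_succ_of_le ((Polynomial.le_natDegree_of_ne_zero hck).trans ?_), hk, hck⟩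
    exact Finset.le_sup (f := fun i => (c i).natDegree) (Finset.mem_univ i)
  obtain ⟨⟨i₀, k₀⟩, hmem, hmin⟩ := Finset.exists_min_image T (fun p => O.valuation (r p.1 p.2))
    ⟨_, hT i₁ k₁ hk₁ hne⟩
  have hk₀ : k₀ ≠ 0 := (Finset.mem_filter.mp hmem).2.1
  have hck₀ : (c i₀).coeff k₀ ≠ 0 := (Finset.mem_filter.mp hmem).2.2
  let t := r i₀ k₀
  have hcO : ∀ i k, (c i).coeff k * t ^ k ∈ O := by
    intro i k
    by_cases hk : k = 0
    · subst hk
      rw [pow_zero, mul_one, hc0]
      have h1 : (lc b (fun j => ι (a i j)) : E) = β (∑ j, a i j ⊗ₜ b j) := by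
        rw [map_sum, lc]
        exact Finset.sum_congr rfl fun j _ => (hβt _ _).symm
      change (lc b (fun j => ι (a i j)) : E) ∈ O
      rw [h1, ← hρ]
      exact (ρ _).2
    · by_cases hck : (c i).coeff k = 0
      · rw [hck, zero_mul]
        exact O.zero_mem
      · rw [← O.valuation_le_one_iff]
        have h1 := hmin (i, k) (hT i k hk hck)
        have h2 : O.valuation t ^ k ≤ O.valuation (r i k) ^ k := pow_le_pow_left' h1 k
        have h3 := congrArg O.valuation (hr i k hk hck)
        rw [map_mul, map_pow, map_one, mul_comm] at h3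
        rw [map_mul, map_pow, ← h3]
        exact mul_le_mul_right h2 _
  let cO : Fin m → Polynomial O := fun i =>
    ∑ k ∈ Finset.range ((c i).natDegree + 1), Polynomial.monomial k
      (⟨(c i).coeff k * t ^ k, hcO i k⟩ : O)
  have hcOc : ∀ i k, (((cO i).coeff k : O) : E) = (c i).coeff k * t ^ k := by
    intro i k
    simp only [cO, Polynomial.finsetSum_coeff, Polynomial.coeff_monomial]
    rw [Finset.sum_ite_eq']
    split_ifs with h
    · rfl
    · rw [Finset.mem_range, not_lt] at h
      rw [Polynomial.coeff_eq_zero_of_natDegree_lt (by omega), zero_mul]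
      rfl
  have hcO' : ∀ i, (cO i).map (algebraMap O E) = (c i).comp (Polynomial.C t * Polynomial.X) := by
    intro i
    ext k
    rw [Polynomial.coeff_map, Polynomial.comp_C_mul_X_coeff]
    exact hcOc i k
  have hzero : MvPolynomial.eval₂ (Polynomial.C.comp (ρ.comp
      (Algebra.TensorProduct.includeLeft : A →ₐ[K] A ⊗[K] L).toRingHom)) cO P = 0 := by
    have hinj : Function.Injective (Polynomial.mapRingHom (algebraMap O E)) :=
      Polynomial.map_injective _ Subtype.val_injective
    apply hinj
    rw [map_zero, MvPolynomial.eval₂_comp_left]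
    have h1 := hcQ _ hP
    have h2 := congrArg (Polynomial.compRingHom (Polynomial.C t * Polynomial.X)) h1
    rw [map_zero, MvPolynomial.aeval_def, MvPolynomial.eval₂_map, MvPolynomial.eval₂_comp_left]
      at h2
    rw [← h2]
    congr 1
    · ext x
      simp only [RingHom.comp_apply, Polynomial.coe_mapRingHom, Polynomial.map_C,
        Polynomial.coe_compRingHom, Polynomial.algebraMap_apply, Polynomial.C_comp]
      congr 1
      have h3 := hρ (x ⊗ₜ 1)
      have h4 := hβt x (1 : L)
      rw [map_one, mul_one] at h4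
      rw [h4] at h3
      exact congrArg Polynomial.C h3
    · funext i
      rw [Function.comp_apply, Function.comp_apply, Polynomial.coe_mapRingHom, hcO']
      rfl
  have hfin := hsp κ inferInstance inferInstance (by
    have h1 : Cardinal.mk κ ≤ Cardinal.mk O := Cardinal.mk_le_of_surjective
      (IsLocalRing.residue_surjective)
    exact h1.trans (Cardinal.mk_le_of_injective (f := fun x : O => (x : E))
      Subtype.val_injective))
    (fun i => (cO i).map (IsLocalRing.residue O)) (fun i => by
      rw [Polynomial.coeff_map]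
      have h1 : (cO i).coeff 0 = ρ (∑ j, a i j ⊗ₜ b j) := by
        apply Subtype.ext
        rw [hcOc, pow_zero, mul_one, hc0, hρ, map_sum]
        exact Finset.sum_congr rfl fun j _ => (hβt _ _).symm
      rw [h1, hρσ, map_sum]
      congr 1) (by
      have h1 := congrArg (Polynomial.mapRingHom (IsLocalRing.residue O)) hzero
      rw [map_zero, MvPolynomial.eval₂_comp_left] at h1
      rw [← h1]
      congr 1
      ext x
      simp only [RingHom.comp_apply, Polynomial.coe_mapRingHom, Polynomial.map_C]
      congr 1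
      have h2 := hρσ (x ⊗ₜ 1)
      rw [hσt, mul_one] at h2
      exact congrArg Polynomial.C h2.symm) i₀ k₀ hk₀
  rw [Polynomial.coeff_map] at hfin
  have h1 : (cO i₀).coeff k₀ = 1 := by
    apply Subtype.ext
    rw [hcOc, mul_comm]
    exact hr i₀ k₀ hk₀ hck₀
  rw [h1, map_one] at hfin
  exact one_ne_zero hfin

end

end Pool.Agent.Zk18.Fd
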