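import Pool.Agent.Zk18.Fd7

/-!
# All good points of an irreducible family generate the same field
-/

set_option autoImplicit false
set_option linter.unusedSectionVars false

attribute [-instance] HahnSeries.powerSeriesAlgebra

namespace Pool.Agent.Zk18.Fd

open HahnSeries TensorProduct Pool.Agent.Zk18 Pool.Agent.Zk18.Md Pool.Agent.Helper165.P1

/-- the point with given coordinates over the constants -/
noncomputable def pt {K L : Type} [Field K] [Field L] [Algebra K L] {m N : ℕ} (b : Fin N → L)
    (x : Fin m → Fin N → K) (i : Fin m) : L :=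
  ∑ j, algebraMap K L (x i j) * b j

section

variable {K F L E : Type} [Field K] [Field F] [Field L] [Field E] [CharZero K]
  [Algebra K F] [Algebra K L] [Algebra F E] [Algebra L E] [Algebra K E]
  [IsScalarTower K F E] [IsScalarTower K L E]

/-- a good specialisation -/
structure Good {A : Type} [CommRing A] [Algebra K A] {k N : ℕ} (b : Fin N → L)
    (a : Fin (k + 1) → Fin N → A) (P : MvPolynomial (Fin (k + 1)) A) (s : A →ₐ[K] K) : Prop where
  rank : (k : ℕ∞) ≤ (AlgebraicIndependent.matroid K L).eRk (Set.range (pt b fun i j => s (a i j)))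
  nc : ∀ (κ : Type) (_ : Field κ) (_ : Algebra L κ), Countable κ →
      NC (((algebraMap L κ).comp (algebraMap K L)).comp (s : A →+* K)) P
        (fun i => algebraMap L κ (pt b (fun i j => s (a i j)) i))

/-- **Two good points of an irreducible family generate the same field.** -/
theorem same_field [IsAlgClosed K] [Countable E] [IsAlgClosed E]
    (hdis : Function.Injective (pm K F L E))
    {A : Type} [CommRing A] [Algebra K A] (ι : A →ₐ[K] F) (hι : Function.Injective ι)
    {k N : ℕ} (b : Fin N → L) (a : Fin (k + 1) → Fin N → A)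
    (P : MvPolynomial (Fin (k + 1)) A) (hP0 : P ≠ 0)
    (hP : MvPolynomial.aeval (fun i => (lc b (fun j => ι (a i j)) : E))
      (MvPolynomial.map (ι : A →+* F) P) = 0)
    (s s' : A →ₐ[K] K) (hs : Good b a P s) (hs' : Good b a P s') :
    (AlgebraicIndependent.matroid K L).closure (Set.range (pt b fun i j => s (a i j))) =
      (AlgebraicIndependent.matroid K L).closure (Set.range (pt b fun i j => s' (a i j))) := by
  classical
  have hcE : CharZero E := charZero_of_injective_algebraMap (algebraMap K E).injective
  have hcF : CharZero F := charZero_of_injective_algebraMap (algebraMap K F).injective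
  have hNA : NA F (fun i => (lc b (fun j => ι (a i j)) : E)) :=
    NA_generic hdis ι hι s b a P hP (fun κ hκ hL hcard => by
      have h1 : Countable κ := by
        rw [← Cardinal.mk_le_aleph0_iff]
        exact hcard.trans (Cardinal.mk_le_aleph0_iff.mpr inferInstance)
      exact hs.nc κ hκ hL h1)
  let G := KK F (Set.range fun i => (lc b (fun j => ι (a i j)) : E))
  let S : Submodule F (Fin N → F) :=
    { carrier := {g | (lc b g : E) ∈ G}
      add_mem' := by
        intro x y hx hy
        rw [Set.mem_ofPred_eq] at hx hy ⊢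
        have h1 : (lc b (x + y) : E) = lc b x + lc b y := by
          simp only [lc, Pi.add_apply, map_add, add_mul, Finset.sum_add_distrib]
        rw [h1]
        exact G.add_mem hx hy
      zero_mem' := by
        rw [Set.mem_ofPred_eq]
        have h1 : (lc b (0 : Fin N → F) : E) = 0 := by
          simp [lc]
        rw [h1]
        exact G.zero_mem
      smul_mem' := by
        intro c x hx
        rw [Set.mem_ofPred_eq] at hx ⊢
        have h1 : (lc b (c • x) : E) = algebraMap F E c * lc b x := by
          simp only [lc, Pi.smul_apply, smul_eq_mul, map_mul, Finset.mul_sum, mul_assoc]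
        rw [h1]
        exact G.mul_mem (G.algebraMap_mem c) hx }
  have hSmem : ∀ g, g ∈ S ↔ (lc b g : E) ∈ G := fun g => Iff.rfl
  have hspan := descent (K := K) S (fun D hD hDK g hg => by
    rw [hSmem] at hg ⊢
    exact stable hdis b (fun i j => ι (a i j)) hNA D hD hDK g hg)
  have hmem : ∀ (s : A →ₐ[K] K), ∀ x ∈ Set.range (pt b fun i j => s (a i j)),
      algebraMap L E x ∈ G := by
    rintro s _ ⟨i, rfl⟩
    have h1 := spec_mem S hspan ι hι s (a i) (by
      rw [hSmem]
      exact mem_KK_of_mem ⟨i, rfl⟩)
    rw [hSmem] at h1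
    convert h1 using 1
    rw [pt, lc, map_sum]
    apply Finset.sum_congr rfl
    intro j _
    rw [map_mul, ← IsScalarTower.algebraMap_apply K L E, ← IsScalarTower.algebraMap_apply K F E]
  have hrk := rank_le (F := F) (fun i => (lc b (fun j => ι (a i j)) : E))
    (MvPolynomial.map (ι : A →+* F) P) (by
      intro h0
      apply hP0
      apply MvPolynomial.map_injective (ι : A →+* F) hι
      rw [h0, map_zero]) hP
  exact closure_eq hdis hrk _ _ (hmem s) (hmem s') hs.rank hs'.rank

end

section compositum

variable {K : Type} [Field K] [CharZero K] [IsAlgClosed K] [Countable K]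

/-- the compositum of two countable extensions of an algebraically closed field -/
theorem exists_compositum (F L : Type) [Field F] [Field L] [Algebra K F] [Algebra K L]
    [Countable F] [Countable L] :
    ∃ (E : Type) (_ : Field E) (_ : Algebra K E) (_ : Algebra F E) (_ : Algebra L E)
      (_ : IsScalarTower K F E) (_ : IsScalarTower K L E), Countable E ∧ IsAlgClosed E ∧
      Function.Injective (pm K F L E) := by
  classical
  obtain ⟨φ⟩ := exists_emb (L := K) (κ := F) (M := Pui K)
  let f₁ : F →+* HahnSeries ℚ L := (mapR (algebraMap K L)).comp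
    (((Pui K).subtype : Pui K →+* HQ K).comp (φ : F →+* Pui K))
  let f₂ : L →+* HahnSeries ℚ L := (HahnSeries.C : L →+* HahnSeries ℚ L)
  let Ω := AlgebraicClosure (HahnSeries ℚ L)
  let g₁ : F →+* Ω := (algebraMap (HahnSeries ℚ L) Ω).comp f₁
  let g₂ : L →+* Ω := (algebraMap (HahnSeries ℚ L) Ω).comp f₂
  have hK : ∀ k : K, g₁ (algebraMap K F k) = g₂ (algebraMap K L k) := by
    intro k
    change algebraMap _ _ (f₁ (algebraMap K F k)) = algebraMap _ _ (f₂ (algebraMap K L k))
    congr 1
    change mapR (algebraMap K L) ((φ (algebraMap K F k) : Pui K) : HQ K) = _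
    rw [φ.commutes, coe_algebraMap_Pui, mapR_C]
  let _ : Algebra K Ω := (g₂.comp (algebraMap K L)).toAlgebra
  let E := KK K (Set.range g₁ ∪ Set.range g₂)
  have hg₁ : ∀ x, g₁ x ∈ E := fun x => mem_KK_of_mem (Or.inl ⟨x, rfl⟩)
  have hg₂ : ∀ x, g₂ x ∈ E := fun x => mem_KK_of_mem (Or.inr ⟨x, rfl⟩)
  let h₁ : F →+* E := g₁.codRestrict E hg₁
  let h₂ : L →+* E := g₂.codRestrict E hg₂
  let _ : Algebra F E := h₁.toAlgebra
  let _ : Algebra L E := h₂.toAlgebra
  have t₁ : IsScalarTower K F E := IsScalarTower.of_algebraMap_eq fun k => by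
    apply Subtype.ext
    change g₂ (algebraMap K L k) = g₁ (algebraMap K F k)
    exact (hK k).symm
  have t₂ : IsScalarTower K L E := IsScalarTower.of_algebraMap_eq fun k => rfl
  refine ⟨E, inferInstance, inferInstance, inferInstance, inferInstance, t₁, t₂,
    countable_KK _ ((Set.countable_range g₁).union (Set.countable_range g₂)), inferInstance, ?_⟩
  rw [injective_iff_map_eq_zero]
  intro t ht
  -- a basis of `L` over `K`
  let B := Module.Basis.ofVectorSpace K L
  let BF := B.baseChange F
  have h1 : t = ∑ i ∈ (BF.repr t).support, (BF.repr t i) ⊗ₜ[K] B i := by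
    conv_lhs => rw [← BF.linearCombination_repr t, Finsupp.linearCombination_apply, Finsupp.sum]
    apply Finset.sum_congr rfl
    intro i _
    rw [Module.Basis.baseChange_apply, TensorProduct.smul_tmul', smul_eq_mul, mul_one]
  have h2 : ∑ i ∈ (BF.repr t).support, f₁ (BF.repr t i) * f₂ (B i) = 0 := by
    apply (algebraMap (HahnSeries ℚ L) Ω).injective
    rw [map_zero, map_sum]
    have h3 := congrArg (fun x : E => (x : Ω)) ht
    rw [h1, map_sum] at h3
    have h4 : ((∑ i ∈ (BF.repr t).support, pm K F L E ((BF.repr t i) ⊗ₜ[K] B i) : E) : Ω) =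
        ∑ i ∈ (BF.repr t).support, ((pm K F L E ((BF.repr t i) ⊗ₜ[K] B i) : E) : Ω) :=
      map_sum (E.val) _ _
    rw [h4] at h3
    refine Eq.trans ?_ h3
    apply Finset.sum_congr rfl
    intro i _
    rw [pm_tmul, map_mul]
    rfl
  have h3 : BF.repr t = 0 := by
    ext i
    by_contra hne
    have hi : i ∈ (BF.repr t).support := Finsupp.mem_support_iff.mpr hne
    have h4 : (φ (BF.repr t i) : Pui K) ≠ 0 := fun h0 => hne ((map_eq_zero_iff _ φ.injective).mp h0)
    have h5 : ((φ (BF.repr t i) : Pui K) : HQ K) ≠ 0 := fun h0 => h4 (Subtype.ext h0)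
    apply h5
    ext q
    have h6 := congrArg (fun x : HahnSeries ℚ L => x.coeff q) h2
    simp only [HahnSeries.coeff_sum, HahnSeries.coeff_zero] at h6
    have h7 : ∀ i, (f₁ (BF.repr t i) * f₂ (B i)).coeff q =
        ((φ (BF.repr t i) : Pui K) : HQ K).coeff q • B i := by
      intro i
      change (f₁ (BF.repr t i) * C (B i)).coeff q = _
      rw [mul_comm, C_mul_eq_smul, HahnSeries.coeff_smul, smul_eq_mul, mul_comm, Algebra.smul_def]
      rfl
    simp only [h7] at h6
    have h8 := linearIndependent_iff'.mp B.linearIndependent _ _ h6 i hi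
    exact h8
  exact (BF.repr.map_eq_zero_iff).mp h3

end compositum

end Pool.Agent.Zk18.Fd
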