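import Pool.Agent.Zk18.Cmp

/-!
# Finitely many fields
-/

set_option autoImplicit false
set_option linter.unusedSectionVars false

attribute [-instance] HahnSeries.powerSeriesAlgebra

namespace Pool.Agent.Zk18.Fd

open TensorProduct Pool.Agent.Zk18 Pool.Agent.Zk18.Md

/-- the polynomial with given coefficients, of degree at most `D` in each variable -/
noncomputable def UP {R : Type} [CommRing R] {m D : ℕ} (c : (Fin m → Fin (D + 1)) → R) :
    MvPolynomial (Fin m) R :=
  ∑ d : Fin m → Fin (D + 1), MvPolynomial.C (c d) * ∏ i, MvPolynomial.X i ^ (d i : ℕ)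

theorem eval₂_UP {R T : Type} [CommRing R] [CommRing T] {m D : ℕ} (c : (Fin m → Fin (D + 1)) → R)
    (f : R →+* T) (g : Fin m → T) :
    MvPolynomial.eval₂ f g (UP c) = ∑ d, f (c d) * ∏ i, g i ^ (d i : ℕ) := by
  rw [UP, ← MvPolynomial.coe_eval₂Hom, map_sum]
  apply Finset.sum_congr rfl
  intro d _
  rw [map_mul, map_prod, MvPolynomial.coe_eval₂Hom, MvPolynomial.eval₂_C]
  congr 1
  apply Finset.prod_congr rfl
  intro i _
  rw [MvPolynomial.eval₂_pow, MvPolynomial.eval₂_X]

theorem map_UP {R T : Type} [CommRing R] [CommRing T] {m D : ℕ} (c : (Fin m → Fin (D + 1)) → R)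
    (f : R →+* T) : MvPolynomial.map f (UP c) = UP (fun d => f (c d)) := by
  rw [UP, map_sum, UP]
  apply Finset.sum_congr rfl
  intro d _
  rw [map_mul, map_prod, MvPolynomial.map_C]
  congr 1
  apply Finset.prod_congr rfl
  intro i _
  rw [map_pow, MvPolynomial.map_X]

theorem exists_UP {R : Type} [CommRing R] {m D : ℕ} (P : MvPolynomial (Fin m) R)
    (hP : ∀ i, P.degreeOf i ≤ D) : ∃ c : (Fin m → Fin (D + 1)) → R, P = UP c := by
  classical
  refine ⟨fun d => P.coeff (Finsupp.equivFunOnFinite.symm fun i => (d i : ℕ)), ?_⟩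
  conv_lhs => rw [P.as_sum]
  rw [UP]
  have h1 : ∀ d ∈ P.support, ∀ i, d i < D + 1 := by
    intro d hd i
    exact Nat.lt_succ_of_le ((MvPolynomial.degreeOf_le_iff.mp (hP i)) d hd)
  symm
  refine Finset.sum_bij_ne_zero (fun d _ _ => Finsupp.equivFunOnFinite.symm fun i => (d i : ℕ))
    ?_ ?_ ?_ ?_
  · intro d _ hne
    rw [MvPolynomial.mem_support_iff]
    intro h0
    apply hne
    rw [h0, map_zero, zero_mul]
  · intro d₁ _ _ d₂ _ _ h
    funext i
    apply Fin.ext
    exact congrFun (Finsupp.equivFunOnFinite.symm.injective h) i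
  · intro d hd hne
    refine ⟨fun i => ⟨d i, h1 d hd i⟩, Finset.mem_univ _, ?_, ?_⟩
    · have h2 : (Finsupp.equivFunOnFinite.symm fun i => d i) = d := by
        ext i
        rfl
      intro h0
      apply hne
      rw [h2] at h0
      rw [← h0, MvPolynomial.monomial_eq, Finsupp.prod_fintype _ _ (fun i => pow_zero _)]
    · ext i
      rfl
  · intro d _ _
    rw [MvPolynomial.monomial_eq, Finsupp.prod_fintype _ _ (fun i => pow_zero _)]
    rfl

section

variable {K L : Type} [Field K] [Field L] [CharZero K] [Algebra K L]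

/-- the parameters -/
abbrev Par (k N D : ℕ) : Type := (Fin (k + 1) × Fin N) ⊕ (Fin (k + 1) → Fin (D + 1))

/-- the coordinates of the point -/
def xx {k N D : ℕ} (z : Par k N D → K) (i : Fin (k + 1)) (j : Fin N) : K := z (Sum.inl (i, j))

/-- the coefficients of the polynomial -/
def cc {k N D : ℕ} (z : Par k N D → K) (d : Fin (k + 1) → Fin (D + 1)) : K := z (Sum.inr d)

/-- a good point of the parameter space -/
structure GoodPt {k N D : ℕ} (b : Fin N → L) (z : Par k N D → K) : Prop where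
  ne : UP (cc z) ≠ 0
  eq : MvPolynomial.aeval (pt b (xx z)) (UP (cc z)) = 0
  rank : (k : ℕ∞) ≤ (AlgebraicIndependent.matroid K L).eRk (Set.range (pt b (xx z)))
  nc : ∀ (κ : Type) (_ : Field κ) (_ : Algebra L κ), Countable κ →
      NC ((algebraMap L κ).comp (algebraMap K L)) (UP (cc z)) (fun i => algebraMap L κ (pt b (xx z) i))

/-- the universal point -/
noncomputable def YU {k N : ℕ} (D : ℕ) (b : Fin N → L) (i : Fin (k + 1)) :
    MvPolynomial (Par k N D) K ⊗[K] L :=
  ∑ j, (MvPolynomial.X (Sum.inl (i, j)) : MvPolynomial (Par k N D) K) ⊗ₜ b j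

/-- the value of the universal polynomial -/
noncomputable def UU {k N : ℕ} (D : ℕ) (b : Fin N → L) : MvPolynomial (Par k N D) K ⊗[K] L :=
  ∑ d : Fin (k + 1) → Fin (D + 1),
    ((MvPolynomial.X (Sum.inr d) : MvPolynomial (Par k N D) K) ⊗ₜ[K] (1 : L)) *
      ∏ i, YU D b i ^ (d i : ℕ)

/-- the equations of the solutions -/
noncomputable def Eqs {k N : ℕ} (K : Type) {L : Type} [Field K] [Field L] [Algebra K L] (D : ℕ)
    (b : Fin N → L) : Set (MvPolynomial (Par k N D) K) :=
  Set.range fun e => (((Module.Basis.ofVectorSpace K L).baseChange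
    (MvPolynomial (Par k N D) K)).repr (UU D b)) e

/-- the tensors of bounded degree -/
noncomputable def Wd {σ : Type} (K L : Type) [Field K] [Field L] [Algebra K L] (n : ℕ) :
    Submodule K (MvPolynomial σ K ⊗[K] L) :=
  Submodule.span K {t | ∃ (r : MvPolynomial σ K) (l : L), r.totalDegree ≤ n ∧ t = r ⊗ₜ l}

theorem Wd_tmul {σ : Type} {n : ℕ} (r : MvPolynomial σ K) (l : L) (h : r.totalDegree ≤ n) :
    r ⊗ₜ[K] l ∈ Wd (σ := σ) K L n := Submodule.subset_span ⟨r, l, h, rfl⟩

theorem Wd_mul {σ : Type} {n n' : ℕ} {t t' : MvPolynomial σ K ⊗[K] L} (h : t ∈ Wd (σ := σ) K L n)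
    (h' : t' ∈ Wd (σ := σ) K L n') : t * t' ∈ Wd (σ := σ) K L (n + n') := by
  have h1 : Wd (σ := σ) K L n * Wd (σ := σ) K L n' ≤ Wd (σ := σ) K L (n + n') := by
    rw [Wd, Wd, Submodule.span_mul_span, Submodule.span_le]
    rintro _ ⟨_, ⟨r, l, hr, rfl⟩, _, ⟨r', l', hr', rfl⟩, rfl⟩
    change r ⊗ₜ l * r' ⊗ₜ l' ∈ _
    rw [Algebra.TensorProduct.tmul_mul_tmul]
    exact Wd_tmul _ _ ((MvPolynomial.totalDegree_mul _ _).trans (Nat.add_le_add hr hr'))
  exact h1 (Submodule.mul_mem_mul h h')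

theorem Wd_one {σ : Type} : (1 : MvPolynomial σ K ⊗[K] L) ∈ Wd (σ := σ) K L 0 := by
  rw [Algebra.TensorProduct.one_def]
  exact Wd_tmul _ _ (by rw [MvPolynomial.totalDegree_one])

theorem Wd_mono {σ : Type} {n n' : ℕ} (h : n ≤ n') : Wd (σ := σ) K L n ≤ Wd (σ := σ) K L n' := by
  apply Submodule.span_mono
  rintro _ ⟨r, l, hr, rfl⟩
  exact ⟨r, l, hr.trans h, rfl⟩

theorem Wd_pow {σ : Type} {n : ℕ} {t : MvPolynomial σ K ⊗[K] L} (h : t ∈ Wd (σ := σ) K L n)
    (j : ℕ) : t ^ j ∈ Wd (σ := σ) K L (j * n) := by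
  induction j with
  | zero =>
    rw [pow_zero, Nat.zero_mul]
    exact Wd_one
  | succ j ih =>
    rw [pow_succ, Nat.succ_mul]
    exact Wd_mul ih h

theorem Wd_prod {σ ι : Type} (s : Finset ι) (n : ι → ℕ) (t : ι → MvPolynomial σ K ⊗[K] L)
    (h : ∀ i ∈ s, t i ∈ Wd (σ := σ) K L (n i)) : ∏ i ∈ s, t i ∈ Wd (σ := σ) K L (∑ i ∈ s, n i) := by
  classical
  induction s using Finset.induction_on with
  | empty =>
    rw [Finset.prod_empty, Finset.sum_empty]
    exact Wd_one
  | insert a s ha ih =>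
    rw [Finset.prod_insert ha, Finset.sum_insert ha]
    exact Wd_mul (h a (Finset.mem_insert_self a s))
      (ih fun i hi => h i (Finset.mem_insert_of_mem hi))

theorem Wd_repr {σ : Type} {n : ℕ} {κ : Type} (B : Module.Basis κ K L)
    {t : MvPolynomial σ K ⊗[K] L} (h : t ∈ Wd (σ := σ) K L n) (e : κ) :
    (((B.baseChange (MvPolynomial σ K)).repr t) e).totalDegree ≤ n := by
  classical
  rw [← MvPolynomial.mem_restrictTotalDegree]
  induction h using Submodule.span_induction with
  | mem t ht =>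
    obtain ⟨r, l, hr, rfl⟩ := ht
    rw [Module.Basis.baseChange_repr_tmul]
    exact Submodule.smul_mem _ _ ((MvPolynomial.mem_restrictTotalDegree _ _ _).mpr hr)
  | zero =>
    rw [map_zero]
    exact Submodule.zero_mem _
  | add x y _ _ hx hy =>
    rw [map_add, Finsupp.add_apply]
    exact Submodule.add_mem _ hx hy
  | smul c x _ hx =>
    have h1 : (B.baseChange (MvPolynomial σ K)).repr (c • x) =
        (algebraMap K (MvPolynomial σ K) c) • (B.baseChange (MvPolynomial σ K)).repr x := by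
      rw [← map_smul, algebraMap_smul]
    rw [h1, Finsupp.smul_apply, smul_eq_mul, ← Algebra.smul_def]
    exact Submodule.smul_mem _ _ hx

theorem Eqs_degree {k N D : ℕ} (b : Fin N → L) (f : MvPolynomial (Par k N D) K)
    (hf : f ∈ Eqs K D b) : f.totalDegree ≤ (k + 1) * D + 1 := by
  classical
  obtain ⟨e, rfl⟩ := hf
  apply Wd_repr
  rw [UU]
  apply Submodule.sum_mem
  intro d _
  rw [add_comm]
  apply Wd_mul
  · exact Wd_tmul _ _ (by rw [MvPolynomial.totalDegree_X])
  · refine Wd_mono ?_ (Wd_prod (K := K) (L := L) Finset.univ (fun i => (d i : ℕ) * 1) _ fun i _ =>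
      Wd_pow (K := K) (L := L) ?_ _)
    · calc ∑ i : Fin (k + 1), (d i : ℕ) * 1 ≤ ∑ _i : Fin (k + 1), D :=
          Finset.sum_le_sum fun i _ => by
            rw [mul_one]
            exact Nat.lt_succ_iff.mp (d i).2
        _ = (k + 1) * D := by
          rw [Finset.sum_const, Finset.card_univ, Fintype.card_fin, smul_eq_mul]
    · rw [YU]
      apply Submodule.sum_mem
      intro j _
      exact Wd_tmul _ _ (by rw [MvPolynomial.totalDegree_X])

theorem sg_UU {k N D : ℕ} (b : Fin N → L) (z : Par k N D → K) :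
    sg L (MvPolynomial.aeval z : MvPolynomial (Par k N D) K →ₐ[K] K) (UU D b) =
      MvPolynomial.aeval (pt b (xx z)) (UP (cc z)) := by
  rw [MvPolynomial.aeval_def, eval₂_UP, UU, map_sum]
  apply Finset.sum_congr rfl
  intro d _
  rw [map_mul, map_prod, sg_tmul, mul_one, MvPolynomial.aeval_X]
  congr 1
  apply Finset.prod_congr rfl
  intro i _
  rw [map_pow, YU, map_sum]
  congr 1
  rw [pt]
  apply Finset.sum_congr rfl
  intro j _
  rw [sg_tmul, MvPolynomial.aeval_X]
  rfl

theorem UU_eq {k N D : ℕ} (b : Fin N → L) {ι : Type} (B : Module.Basis ι K L) :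
    UU (k := k) D b = ∑ e ∈ ((B.baseChange (MvPolynomial (Par k N D) K)).repr (UU D b)).support,
      ((B.baseChange (MvPolynomial (Par k N D) K)).repr (UU D b) e) ⊗ₜ[K] B e := by
  conv_lhs => rw [← (B.baseChange (MvPolynomial (Par k N D) K)).linearCombination_repr (UU D b),
    Finsupp.linearCombination_apply, Finsupp.sum]
  apply Finset.sum_congr rfl
  intro e _
  rw [Module.Basis.baseChange_apply, TensorProduct.smul_tmul', smul_eq_mul, mul_one]

theorem eval_Eqs {k N D : ℕ} (b : Fin N → L) (z : Par k N D → K)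
    (hz : MvPolynomial.aeval (pt b (xx z)) (UP (cc z)) = 0) (f : MvPolynomial (Par k N D) K)
    (hf : f ∈ Eqs K D b) : MvPolynomial.aeval z f = 0 := by
  classical
  obtain ⟨e, rfl⟩ := hf
  by_cases he : e ∈ (((Module.Basis.ofVectorSpace K L).baseChange
      (MvPolynomial (Par k N D) K)).repr (UU D b)).support
  · rw [← sg_UU, UU_eq b (Module.Basis.ofVectorSpace K L), map_sum] at hz
    simp only [sg_tmul, ← Algebra.smul_def] at hz
    exact linearIndependent_iff'.mp (Module.Basis.ofVectorSpace K L).linearIndependent _ _ hz e he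
  · rw [Finsupp.notMem_support_iff] at he
    have h1 := congrArg (MvPolynomial.aeval z : MvPolynomial (Par k N D) K →ₐ[K] K) he
    rw [map_zero] at h1
    exact h1

/-- two good points of a common prime ideal -/
theorem same_of_prime [IsAlgClosed K] [Countable K] [Countable L] {k N D : ℕ} (b : Fin N → L)
    (𝔭 : Ideal (MvPolynomial (Par k N D) K)) (h𝔭 : 𝔭.IsPrime) (hI : ∀ f ∈ Eqs K D b, f ∈ 𝔭)
    (z z' : Par k N D → K) (hz : GoodPt b z) (hz' : GoodPt b z')
    (hz𝔭 : ∀ f ∈ 𝔭, MvPolynomial.aeval z f = 0) (hz'𝔭 : ∀ f ∈ 𝔭, MvPolynomial.aeval z' f = 0) :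
    (AlgebraicIndependent.matroid K L).closure (Set.range (pt b (xx z))) =
      (AlgebraicIndependent.matroid K L).closure (Set.range (pt b (xx z'))) := by
  classical
  let R := MvPolynomial (Par k N D) K
  let A := R ⧸ 𝔭
  let F := FractionRing A
  have hcR : Countable R := by
    rw [← Cardinal.mk_le_aleph0_iff]
    refine MvPolynomial.cardinalMk_le_max.trans (max_le (max_le ?_ ?_) le_rfl)
    · exact Cardinal.mk_le_aleph0_iff.mpr inferInstance
    · exact Cardinal.mk_le_aleph0_iff.mpr inferInstance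
  have hcA : Countable A := (Ideal.Quotient.mk_surjective (I := 𝔭)).countable
  have hcF : Countable F := by
    have hsurj : Function.Surjective (fun p : A × A => algebraMap A F p.1 / algebraMap A F p.2) := by
      intro x
      obtain ⟨p, q, -, hpq⟩ := IsFractionRing.div_surjective (A := A) x
      exact ⟨(p, q), hpq⟩
    exact hsurj.countable
  obtain ⟨E, hE₁, hE₂, hE₃, hE₄, hE₅, hE₆, hEc, hEa, hdis⟩ := exists_compositum (K := K) F L
  let ι : A →ₐ[K] F := IsScalarTower.toAlgHom K A F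
  have hι : Function.Injective ι := IsFractionRing.injective A F
  let mk : R →ₐ[K] A := Ideal.Quotient.mkₐ K 𝔭
  let a : Fin (k + 1) → Fin N → A := fun i j => mk (MvPolynomial.X (Sum.inl (i, j)))
  let ca : (Fin (k + 1) → Fin (D + 1)) → A := fun d => mk (MvPolynomial.X (Sum.inr d))
  let sp : ∀ z : Par k N D → K, (∀ f ∈ 𝔭, MvPolynomial.aeval z f = 0) → (A →ₐ[K] K) :=
    fun z hz => Ideal.Quotient.liftₐ 𝔭 (MvPolynomial.aeval z) hz
  have hsp : ∀ z hz f, sp z hz (mk f) = MvPolynomial.aeval z f := fun z hz f => rfl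
  have hspa : ∀ z hz, (fun i j => sp z hz (a i j)) = xx z := by
    intro z hz
    funext i j
    rw [hsp, MvPolynomial.aeval_X]
    rfl
  have hspc : ∀ z hz d, sp z hz (ca d) = cc z d := by
    intro z hz d
    rw [hsp, MvPolynomial.aeval_X]
    rfl
  -- the equation
  let χ : R ⊗[K] L →ₐ[K] E := (pm K F L E).comp
    (Algebra.TensorProduct.map (ι.comp mk) (AlgHom.id K L))
  have hχ : ∀ (r : R) (l : L), χ (r ⊗ₜ l) = algebraMap F E (ι (mk r)) * algebraMap L E l := by
    intro r l
    change pm K F L E (Algebra.TensorProduct.map (ι.comp mk) (AlgHom.id K L) (r ⊗ₜ l)) = _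
    rw [Algebra.TensorProduct.map_tmul, pm_tmul]
    rfl
  have hχU : χ (UU D b) = 0 := by
    rw [UU_eq b (Module.Basis.ofVectorSpace K L), map_sum]
    apply Finset.sum_eq_zero
    intro e _
    have h1 : mk (((Module.Basis.ofVectorSpace K L).baseChange R).repr (UU D b) e) = 0 :=
      Ideal.Quotient.eq_zero_iff_mem.mpr (hI _ ⟨e, rfl⟩)
    rw [hχ, h1, map_zero, map_zero, zero_mul]
  have hP : MvPolynomial.aeval (fun i => (lc b (fun j => ι (a i j)) : E))
      (MvPolynomial.map (ι : A →+* F) (UP ca)) = 0 := by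
    rw [map_UP, MvPolynomial.aeval_def, eval₂_UP, ← hχU, UU, map_sum]
    apply Finset.sum_congr rfl
    intro d _
    rw [map_mul, map_prod, hχ, map_one, mul_one]
    congr 1
    apply Finset.prod_congr rfl
    intro i _
    rw [map_pow, YU, map_sum]
    congr 1
  have hP0 : UP ca ≠ 0 := by
    intro h0
    have h1 := congrArg (MvPolynomial.map ((sp z hz𝔭 : A →ₐ[K] K) : A →+* K)) h0
    rw [map_UP, map_zero] at h1
    apply hz.ne
    rw [← h1]
    congr 1
    funext d
    exact (hspc z hz𝔭 d).symm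
  have hgood : ∀ (z : Par k N D → K) (hz : GoodPt b z) (h : ∀ f ∈ 𝔭, MvPolynomial.aeval z f = 0),
      Good b a (UP ca) (sp z h) := by
    intro z hz h
    constructor
    · rw [hspa z h]
      exact hz.rank
    · intro κ hκ hL hc
      rw [hspa z h]
      have h1 := hz.nc κ hκ hL hc
      intro c hc0 hcP
      apply h1 c hc0
      rw [← hcP, eval₂_UP, eval₂_UP]
      apply Finset.sum_congr rfl
      intro d _
      congr 1
      have h2 := hspc z h d
      simp only [RingHom.comp_apply]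
      rw [← h2]
      rfl
  have hfin := same_field hdis ι hι b a (UP ca) hP0 hP (sp z hz𝔭) (sp z' hz'𝔭)
    (hgood z hz hz𝔭) (hgood z' hz' hz'𝔭)
  rw [hspa, hspa] at hfin
  exact hfin

/-- **The number of the fields.** -/
theorem card_fields [IsAlgClosed K] [Countable K] [Countable L] {k N D : ℕ} (b : Fin N → L)
    (T : Finset (Set L)) (hT : ∀ s ∈ T, ∃ z : Par k N D → K, GoodPt b z ∧
      s = (AlgebraicIndependent.matroid K L).closure (Set.range (pt b (xx z)))) :
    T.card ≤ (2 * ((k + 1) * D + 1)) ^ ((k + 1) * N + (D + 1) ^ (k + 1)) := by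
  classical
  have h1 : ∀ s : Set L, ∃ (z : Par k N D → K) (𝔭 : Ideal (MvPolynomial (Par k N D) K)), s ∈ T →
      (GoodPt b z ∧ s = (AlgebraicIndependent.matroid K L).closure (Set.range (pt b (xx z)))) ∧
      𝔭 ∈ (Ideal.span (Eqs K D b)).minimalPrimes ∧ ∀ f ∈ 𝔭, MvPolynomial.aeval z f = 0 := by
    intro s
    by_cases hs : s ∈ T
    · obtain ⟨z, hz, hzs⟩ := hT s hs
      have hprime : (RingHom.ker (MvPolynomial.aeval z :
          MvPolynomial (Par k N D) K →ₐ[K] K)).IsPrime := RingHom.ker_isPrime _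
      have hle : Ideal.span (Eqs K D b) ≤ RingHom.ker (MvPolynomial.aeval z :
          MvPolynomial (Par k N D) K →ₐ[K] K) := by
        rw [Ideal.span_le]
        intro f hf
        exact eval_Eqs b z hz.eq f hf
      obtain ⟨𝔭, h𝔭, hle'⟩ := Ideal.exists_minimalPrimes_le hle
      exact ⟨z, 𝔭, fun _ => ⟨⟨hz, hzs⟩, h𝔭, fun f hf => hle' hf⟩⟩
    · exact ⟨0, ⊥, fun h => absurd h hs⟩
  choose z 𝔭 hz using h1
  have hinj : Set.InjOn 𝔭 (T : Set (Set L)) := by
    intro s hs s' hs' heq
    obtain ⟨⟨g1, e1⟩, p1, v1⟩ := hz s hs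
    obtain ⟨⟨g2, e2⟩, p2, v2⟩ := hz s' hs'
    rw [e1, e2]
    exact same_of_prime b (𝔭 s) p1.1.1 (fun f hf => p1.1.2 (Ideal.subset_span hf)) _ _ g1 g2 v1
      (heq ▸ v2)
  rw [← Finset.card_image_of_injOn hinj]
  have h2 := Cmp.count_minimalPrimes (K := K) (ι := Par k N D) ((k + 1) * D + 1) (by omega)
    (Eqs K D b) (fun f hf => Eqs_degree b f hf) (T.image 𝔭) (by
      intro q hq
      rw [Finset.mem_image] at hq
      obtain ⟨s, hs, rfl⟩ := hq
      exact (hz s hs).2.1)
  refine h2.trans (le_of_eq ?_)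
  congr 1
  simp only [Fintype.card_sum, Fintype.card_prod, Fintype.card_fin, Fintype.card_fun]

end

end Pool.Agent.Zk18.Fd
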