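import Pool.Agent.Zk18.Core

/-!
# From infinitely many points to a Laurent parametrisation
-/

set_option autoImplicit false

attribute [-instance] HahnSeries.powerSeriesAlgebra

namespace Pool.Agent.Zk18

open HahnSeries TensorProduct Filter
open scoped LaurentPolynomial

theorem countable_mvPolynomial {ι K : Type} [Finite ι] [CommRing K] [Countable K] :
    Countable (MvPolynomial ι K) := by
  have h : Function.Injective (fun p : MvPolynomial ι K => fun m : ι →₀ ℕ => p.coeff m) := by
    intro p q h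
    ext m
    exact congrFun h m
  have h2 : Function.Injective (fun p : MvPolynomial ι K =>
      (Finsupp.onFinset p.support (fun m : ι →₀ ℕ => p.coeff m)
        (fun m hm => MvPolynomial.mem_support_iff.mpr hm) : (ι →₀ ℕ) →₀ K)) := by
    intro p q hpq
    ext m
    have := congrArg (fun z : (ι →₀ ℕ) →₀ K => z m) hpq
    exact this
  exact h2.countable

variable {K L : Type} [Field K] [Countable K] [IsAlgClosed K] [CharZero K] [Field L] [Countable L]
  [Algebra K L]

/-- the value of a Laurent polynomial -/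
noncomputable def val (f : K[T;T⁻¹]) (x : L) : L :=
  ∑ k ∈ f.coeff.support, algebraMap K L (f.coeff k) * x ^ k

/-- **Infinitely many points.** -/
theorem generic2 {N : ℕ} (b : Fin (N + 1) → L) (hb : LinearIndependent K b) (hb0 : b 0 = 1)
    (P : MvPolynomial (Fin 2) K) (hP : P ≠ 0)
    (H1 : ∀ f : Fin 2 → Polynomial K, MvPolynomial.aeval f P = 0 →
      ∀ i, f i ∈ Set.range (algebraMap K (Polynomial K)))
    (S : Set (Fin 2 → Fin (N + 1) → K)) (hS : S.Infinite)
    (hSP : ∀ σ ∈ S, MvPolynomial.aeval (fun i => ∑ j, σ i j • b j) P = 0)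
    (hne : ∀ σ ∈ S, ∃ i j, j ≠ 0 ∧ σ i j ≠ 0) :
    ∃ f : Fin 2 → K[T;T⁻¹], MvPolynomial.aeval f P = 0 ∧
      (∃ i, f i ∉ Set.range (algebraMap K K[T;T⁻¹])) ∧
      ∃ τ : L, τ ∉ Set.range (algebraMap K L) ∧
        (∀ i k, (f i).coeff k ≠ 0 → τ ^ k ∈ Submodule.span K (Set.range b)) ∧
        {σ ∈ S | ∃ s : K, s ≠ 0 ∧ ∀ i, ∑ j, σ i j • b j =
          val (f i) (algebraMap K L s * τ)}.Infinite := by
  classical
  have hinf : Infinite S := hS.to_subtype
  let U : Ultrafilter S := hyperfilter S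
  let ev : S → MvPolynomial (Fin 2 × Fin (N + 1)) K →ₐ[K] K :=
    fun σ => MvPolynomial.aeval (fun p => σ.1 p.1 p.2)
  let I : Ideal (MvPolynomial (Fin 2 × Fin (N + 1)) K) :=
    { carrier := {F | ∀ᶠ σ in (U : Filter S), ev σ F = 0}
      add_mem' := by
        intro F G hF hG
        filter_upwards [hF, hG] with σ h1 h2
        rw [map_add, h1, h2, add_zero]
      zero_mem' := by
        filter_upwards with σ
        exact map_zero _
      smul_mem' := by
        intro c F hF
        filter_upwards [hF] with σ h1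
        rw [smul_eq_mul, map_mul, h1, mul_zero] }
  have hI : ∀ F, F ∈ I ↔ ∀ᶠ σ in (U : Filter S), ev σ F = 0 := fun F => Iff.rfl
  have hprime : I.IsPrime := by
    constructor
    · rw [Ne, Ideal.eq_top_iff_one, hI]
      intro h
      obtain ⟨σ, hσ⟩ := h.exists
      rw [map_one] at hσ
      exact one_ne_zero hσ
    · intro F G hFG
      rw [hI] at hFG
      simp only [hI]
      rw [← Ultrafilter.eventually_or]
      filter_upwards [hFG] with σ hσ
      rw [map_mul] at hσ
      exact mul_eq_zero.mp hσ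
  have hcM : Countable (MvPolynomial (Fin 2 × Fin (N + 1)) K) := countable_mvPolynomial
  let A := MvPolynomial (Fin 2 × Fin (N + 1)) K ⧸ I
  have hcA : Countable A := (Ideal.Quotient.mk_surjective (I := I)).countable
  let x : Fin 2 → Fin (N + 1) → A := fun i j => Ideal.Quotient.mk I (MvPolynomial.X (i, j))
  -- the equation
  let z : Fin 2 → MvPolynomial (Fin 2 × Fin (N + 1)) K ⊗[K] L :=
    fun i => ∑ j, MvPolynomial.X (i, j) ⊗ₜ[K] b j
  let β := Module.Basis.ofVectorSpace K L
  let ρ : MvPolynomial (Fin 2 × Fin (N + 1)) K ⊗[K] L →ₐ[K] A ⊗[K] L :=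
    Algebra.TensorProduct.map (Ideal.Quotient.mkₐ K I) (AlgHom.id K L)
  have hρ : ∀ F l, ρ (F ⊗ₜ l) = (Ideal.Quotient.mk I F) ⊗ₜ[K] l := by
    intro F l
    simp only [ρ, Algebra.TensorProduct.map_tmul]
    rfl
  let ε : S → MvPolynomial (Fin 2 × Fin (N + 1)) K ⊗[K] L →ₐ[K] L := fun σ =>
    Algebra.TensorProduct.productMap ((Algebra.ofId K L).comp (ev σ)) (AlgHom.id K L)
  have hε : ∀ σ F l, ε σ (F ⊗ₜ l) = ev σ F • l := by
    intro σ F l
    simp only [ε, Algebra.TensorProduct.productMap_apply_tmul]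
    rw [Algebra.smul_def]
    rfl
  have hρε : ∀ z, ρ z = 0 → ∀ᶠ σ in (U : Filter S), ε σ z = 0 := by
    intro z hz
    obtain ⟨c, rfl⟩ := (TensorProduct.equivFinsuppOfBasisRight β).symm.surjective z
    rw [TensorProduct.equivFinsuppOfBasisRight_symm_apply] at hz ⊢
    have h1 : ∀ m, c m ∈ I := by
      intro m
      rw [← Ideal.Quotient.eq_zero_iff_mem]
      let c' : _ →₀ A := c.mapRange (Ideal.Quotient.mk I) (map_zero _)
      have h2 : (TensorProduct.equivFinsuppOfBasisRight β).symm c' = 0 := by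
        rw [TensorProduct.equivFinsuppOfBasisRight_symm_apply, ← hz, Finsupp.sum_mapRange_index]
        · rw [Finsupp.sum, Finsupp.sum, map_sum]
          apply Finset.sum_congr rfl
          intro m _
          rw [hρ]
        · intro m
          rw [TensorProduct.zero_tmul]
      have h3 : c' = 0 := by
        rw [← map_zero (TensorProduct.equivFinsuppOfBasisRight β).symm] at h2
        exact (TensorProduct.equivFinsuppOfBasisRight β).symm.injective h2
      have h4 := congrArg (fun z => z m) h3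
      exact h4
    have h2 := (Filter.eventually_all_finset c.support).mpr
      (fun m _ => (hI (c m)).mp (h1 m))
    filter_upwards [h2] with σ hσ
    rw [Finsupp.sum, map_sum]
    apply Finset.sum_eq_zero
    intro m hm
    rw [hε, hσ m hm, zero_smul]
  have heq : MvPolynomial.aeval (fun i => ∑ j, x i j ⊗ₜ[K] b j : Fin 2 → A ⊗[K] L) P = 0 := by
    have h1 : (fun i => ∑ j, x i j ⊗ₜ[K] b j : Fin 2 → A ⊗[K] L) = fun i => ρ (z i) := by
      funext i
      simp only [z, map_sum, ρ, Algebra.TensorProduct.map_tmul]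
      rfl
    rw [h1, ← MvPolynomial.comp_aeval_apply]
    obtain ⟨c, hc⟩ := (TensorProduct.equivFinsuppOfBasisRight β).symm.surjective
      (MvPolynomial.aeval z P)
    rw [TensorProduct.equivFinsuppOfBasisRight_symm_apply] at hc
    rw [← hc, Finsupp.sum, map_sum]
    apply Finset.sum_eq_zero
    intro m _
    have h2 : c m ∈ I := by
      rw [hI]
      filter_upwards with σ
      have h3 : ε σ (MvPolynomial.aeval z P) = 0 := by
        rw [MvPolynomial.comp_aeval_apply]
        have h4 : (fun i => ε σ (z i)) = fun i => ∑ j, σ.1 i j • b j := by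
          funext i
          simp only [z, map_sum, hε]
          apply Finset.sum_congr rfl
          intro j _
          congr 1
          exact MvPolynomial.aeval_X _ _
        rw [h4]
        exact hSP σ.1 σ.2
      rw [← hc, Finsupp.sum, map_sum] at h3
      simp only [hε] at h3
      by_cases hm : m ∈ c.support
      · exact (linearIndependent_iff'.mp β.linearIndependent) c.support
          (fun m => ev σ (c m)) h3 m hm
      · rw [Finsupp.notMem_support_iff.mp hm, map_zero]
    rw [hρ, Ideal.Quotient.eq_zero_iff_mem.mpr h2, TensorProduct.zero_tmul]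
  have hcore := core b hb hb0 x P hP H1 heq ?_ ?_
  rotate_left
  · by_contra hno
    push Not at hno
    have h1 : ∀ i j, j ≠ 0 → ∀ᶠ σ in (U : Filter S), σ.1 i j = 0 := by
      intro i j hj
      have h2 := Ideal.Quotient.eq_zero_iff_mem.mp (hno i j hj)
      rw [hI] at h2
      filter_upwards [h2] with σ hσ
      have h3 : ev σ (MvPolynomial.X (i, j)) = σ.1 i j := MvPolynomial.aeval_X _ _
      rw [← h3]
      exact hσ
    have h2 : ∀ᶠ σ in (U : Filter S), ∀ i j, j ≠ 0 → σ.1 i j = 0 := by
      rw [Filter.eventually_all]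
      intro i
      rw [Filter.eventually_all]
      intro j
      by_cases hj : j = 0
      · filter_upwards with σ h
        exact absurd hj h
      · filter_upwards [h1 i j hj] with σ h _
        exact h
    obtain ⟨σ, hσ⟩ := h2.exists
    obtain ⟨i, j, hj, h3⟩ := hne σ.1 σ.2
    exact h3 (hσ i j hj)
  · by_contra hno
    push Not at hno
    choose c hc using hno
    have h1 : ∀ i j, ∀ᶠ σ in (U : Filter S), σ.1 i j = c i j := by
      intro i j
      have h2 : (MvPolynomial.X (i, j) - MvPolynomial.C (c i j) :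
          MvPolynomial (Fin 2 × Fin (N + 1)) K) ∈ I := by
        rw [← Ideal.Quotient.eq_zero_iff_mem, map_sub, sub_eq_zero]
        exact (hc i j).symm
      rw [hI] at h2
      filter_upwards [h2] with σ hσ
      have h3 : ev σ (MvPolynomial.X (i, j)) = σ.1 i j := MvPolynomial.aeval_X _ _
      have h4 : ev σ (MvPolynomial.C (c i j)) = c i j := MvPolynomial.aeval_C _ _
      rw [map_sub, h3, h4, sub_eq_zero] at hσ
      exact hσ
    have h2 : ∀ᶠ σ in (U : Filter S), ∀ i j, σ.1 i j = c i j := by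
      rw [Filter.eventually_all]
      intro i
      rw [Filter.eventually_all]
      intro j
      exact h1 i j
    have h3 : {σ : S | ∀ i j, σ.1 i j = c i j}.Finite := by
      apply Set.Subsingleton.finite
      intro σ hσ σ' hσ'
      apply Subtype.ext
      funext i j
      have e1 : ∀ i j, σ.1 i j = c i j := hσ
      have e2 : ∀ i j, σ'.1 i j = c i j := hσ'
      rw [e1, e2]
    exact notMem_hyperfilter_of_finite h3 h2
  obtain ⟨f, hf, hfn, τ, hτ, hτe, a, a', M, ha, ha', hM, hrel⟩ := hcore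
  refine ⟨f, hf, hfn, τ, hτ, hτe, ?_⟩
  obtain ⟨q, rfl⟩ := Ideal.Quotient.mk_surjective a
  obtain ⟨q', rfl⟩ := Ideal.Quotient.mk_surjective a'
  have hq : ∀ᶠ σ in (U : Filter S), ev σ q ≠ 0 := by
    rw [Ultrafilter.eventually_not, ← hI, ← Ideal.Quotient.eq_zero_iff_mem]
    exact ha
  have hq' : ∀ᶠ σ in (U : Filter S), ev σ q' ≠ 0 := by
    rw [Ultrafilter.eventually_not, ← hI, ← Ideal.Quotient.eq_zero_iff_mem]
    exact ha'
  have hrel' : ∀ i, ∀ᶠ σ in (U : Filter S),
      ∑ j, (ev σ q ^ M * ev σ q' ^ M * σ.1 i j) • b j =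
        ∑ k ∈ (f i).coeff.support, (ev σ q ^ (M + k).toNat * ev σ q' ^ (M - k).toNat) •
          ((f i).coeff k • τ ^ k) := by
    intro i
    have h1 := hρε (∑ j, (q ^ M * q' ^ M * MvPolynomial.X (i, j)) ⊗ₜ[K] b j -
      ∑ k ∈ (f i).coeff.support, (q ^ (M + k).toNat * q' ^ (M - k).toNat) ⊗ₜ[K]
        ((f i).coeff k • τ ^ k)) (by
        rw [map_sub, map_sum, map_sum, sub_eq_zero]
        simp only [hρ, map_mul, map_pow]
        exact hrel i)
    filter_upwards [h1] with σ hσ
    rw [map_sub, map_sum, map_sum, sub_eq_zero] at hσ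
    simp only [hε, map_mul, map_pow] at hσ
    have h2 : ∀ j, ev σ (MvPolynomial.X (i, j)) = σ.1 i j := fun j => MvPolynomial.aeval_X _ _
    simp only [h2] at hσ
    exact hσ
  have hall : ∀ᶠ σ in (U : Filter S), ∃ s : K, s ≠ 0 ∧ ∀ i, ∑ j, σ.1 i j • b j =
      val (f i) (algebraMap K L s * τ) := by
    have h1 : ∀ᶠ σ in (U : Filter S), ∀ i,
        ∑ j, (ev σ q ^ M * ev σ q' ^ M * σ.1 i j) • b j =
        ∑ k ∈ (f i).coeff.support, (ev σ q ^ (M + k).toNat * ev σ q' ^ (M - k).toNat) •
          ((f i).coeff k • τ ^ k) := by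
      rw [Filter.eventually_all]
      exact hrel'
    filter_upwards [h1, hq, hq'] with σ h1 h2 h3
    refine ⟨ev σ q / ev σ q', div_ne_zero h2 h3, fun i => ?_⟩
    have h4 : (ev σ q ^ M * ev σ q' ^ M) ≠ 0 := mul_ne_zero (pow_ne_zero _ h2) (pow_ne_zero _ h3)
    have h5 : (ev σ q ^ M * ev σ q' ^ M) • ∑ j, σ.1 i j • b j =
        (ev σ q ^ M * ev σ q' ^ M) • val (f i) (algebraMap K L (ev σ q / ev σ q') * τ) := by
      rw [Finset.smul_sum, val, Finset.smul_sum]
      simp only [smul_smul]
      rw [h1 i]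
      apply Finset.sum_congr rfl
      intro k hk
      have hkM := hM i k hk
      have h6 : ((M + k).toNat : ℤ) = M + k := Int.toNat_of_nonneg (by omega)
      have h7 : ((M - k).toNat : ℤ) = M - k := Int.toNat_of_nonneg (by omega)
      have h8 : ev σ q ^ (M + k).toNat * ev σ q' ^ (M - k).toNat =
          (ev σ q ^ M * ev σ q' ^ M) * (ev σ q / ev σ q') ^ k := by
        rw [← zpow_natCast, ← zpow_natCast, h6, h7, zpow_add₀ h2, zpow_sub₀ h3, div_zpow,
          zpow_natCast, zpow_natCast]
        field_simp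
      rw [h8, mul_zpow, ← map_zpow₀, ← mul_assoc, ← map_mul, ← Algebra.smul_def, smul_smul,
        smul_smul]
      congr 1
      ring
    have h6 := congrArg (fun z => (ev σ q ^ M * ev σ q' ^ M)⁻¹ • z) h5
    simp only [smul_smul, inv_mul_cancel₀ h4, one_smul] at h6
    exact h6
  intro hfin
  have h1 : {σ : S | ∃ s : K, s ≠ 0 ∧ ∀ i, ∑ j, σ.1 i j • b j =
      val (f i) (algebraMap K L s * τ)}.Finite := by
    apply Set.Finite.of_finite_image (f := Subtype.val) _ Subtype.val_injective.injOn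
    refine hfin.subset ?_
    rintro _ ⟨σ, hσ, rfl⟩
    exact ⟨σ.2, hσ⟩
  exact notMem_hyperfilter_of_finite h1 hall

/-- **Infinitely many points.** -/
theorem generic {N : ℕ} (b : Fin (N + 1) → L) (hb : LinearIndependent K b) (hb0 : b 0 = 1)
    (P : MvPolynomial (Fin 2) K) (hP : P ≠ 0)
    (H1 : ∀ f : Fin 2 → Polynomial K, MvPolynomial.aeval f P = 0 →
      ∀ i, f i ∈ Set.range (algebraMap K (Polynomial K)))
    (S : Set (Fin 2 → Fin (N + 1) → K)) (hS : S.Infinite)
    (hSP : ∀ σ ∈ S, MvPolynomial.aeval (fun i => ∑ j, σ i j • b j) P = 0)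
    (hne : ∀ σ ∈ S, ∃ i j, j ≠ 0 ∧ σ i j ≠ 0) :
    ∃ f : Fin 2 → K[T;T⁻¹], MvPolynomial.aeval f P = 0 ∧
      (∃ i, f i ∉ Set.range (algebraMap K K[T;T⁻¹])) ∧
      ∃ τ : L, τ ∉ Set.range (algebraMap K L) ∧
        ∀ i k, (f i).coeff k ≠ 0 → τ ^ k ∈ Submodule.span K (Set.range b) := by
  obtain ⟨f, hf, hfn, τ, hτ, hτe, -⟩ := generic2 b hb hb0 P hP H1 S hS hSP hne
  exact ⟨f, hf, hfn, τ, hτ, hτe⟩

end Pool.Agent.Zk18
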