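import Pool.Agent.Zk18.Rgd
import Pool.Agent.Zk18.Gen

/-!
# Infinite families of points on smooth plane curves
-/

set_option autoImplicit false

attribute [-instance] HahnSeries.powerSeriesAlgebra

namespace Pool.Agent.Zk18.Md

open HahnSeries Pool.Agent.Helper165.P1 IntermediateField TensorProduct Filter

section puiseux

variable {K : Type} [Field K]

theorem Eu_mem_Pui {x : HQ K} (hx : x ∈ Pui K) : Eu x ∈ Pui K := by
  obtain ⟨m, hm, y, rfl⟩ := hx
  let y' : HahnSeries ℤ K :=
    { coeff := fun n => (((n : ℚ) / m : ℚ) : K) * y.coeff n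
      isPWO_support' := y.isPWO_support.mono (by
        intro n hn h
        rw [Function.mem_support] at hn
        apply hn
        rw [h, mul_zero]) }
  refine ⟨m, hm, y', ?_⟩
  ext q
  rw [Eu_coeff]
  by_cases h : ∃ n : ℤ, (n : ℚ) / m = q
  · obtain ⟨n, rfl⟩ := h
    rw [eHom_coeff, eHom_coeff]
  · push Not at h
    rw [eHom_coeff_of_ne _ _ _ _ h, eHom_coeff_of_ne _ _ _ _ h, mul_zero]

/-- the Euler derivation on the field of Puiseux series -/
noncomputable def DP : Pui K →+ Pui K where
  toFun x := ⟨Eu x, Eu_mem_Pui x.2⟩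
  map_zero' := Subtype.ext (map_zero Eu)
  map_add' x y := Subtype.ext (map_add Eu (x : HQ K) (y : HQ K))

theorem DP_coe (x : Pui K) : ((DP x : Pui K) : HQ K) = Eu (x : HQ K) := rfl

theorem DP_mul [CharZero K] (x y : Pui K) : DP (x * y) = DP x * y + x * DP y := by
  apply Subtype.ext
  exact Eu_mul (x : HQ K) (y : HQ K)

theorem DP_algebraMap (k : K) : DP (algebraMap K (Pui K) k) = 0 := by
  apply Subtype.ext
  rw [DP_coe, coe_algebraMap_Pui, Eu_C]
  rfl

variable {Ω : Type} [Field Ω] [Algebra K Ω]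

/-- the embedding of the Puiseux series into the Hahn series with more coefficients -/
noncomputable def eps (K Ω : Type) [Field K] [Field Ω] [Algebra K Ω] :
    Pui K →+* HahnSeries ℚ Ω := (mapR (algebraMap K Ω)).comp (Pui K).subtype

theorem eps_coeff (x : Pui K) (q : ℚ) :
    (eps K Ω x).coeff q = algebraMap K Ω ((x : HQ K).coeff q) := rfl

theorem eps_algebraMap (k : K) :
    eps K Ω (algebraMap K (Pui K) k) = HahnSeries.C (algebraMap K Ω k) := by
  change mapR (algebraMap K Ω) ((algebraMap K (Pui K) k : Pui K) : HQ K) = _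
  rw [coe_algebraMap_Pui, mapR_C]

theorem Eu_eps (x : Pui K) : Eu (eps K Ω x) = eps K Ω (DP x) := by
  ext q
  rw [Eu_coeff, eps_coeff, eps_coeff, DP_coe, Eu_coeff, map_mul, map_ratCast]

theorem eq_C_of_Eu [CharZero Ω] {x : HahnSeries ℚ Ω} (hx : Eu x = 0) :
    x = HahnSeries.C (x.coeff 0) := by
  ext q
  rw [C_apply, coeff_single]
  split_ifs with h
  · rw [h]
  · have h1 := congrArg (fun z : HahnSeries ℚ Ω => z.coeff q) hx
    simp only [Eu_coeff, coeff_zero] at h1
    rcases mul_eq_zero.mp h1 with h2 | h2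
    · rw [Rat.cast_eq_zero] at h2
      exact absurd h2 h
    · exact h2

end puiseux

section rigid2

variable {K : Type} [Field K] [IsAlgClosed K] [CharZero K] {Ω : Type} [Field Ω] [Algebra K Ω]

/-- **Rigidity over the field of Puiseux series.** -/
theorem rigid2 {N : ℕ} (b : Fin N → Ω) (t : Ω) (hbt : ∀ j, IsAlgebraic K⟮t⟯ (b j))
    (F : MvPolynomial (Fin 3) K) (d : ℕ) (hd : 4 ≤ d) (hF : F.IsHomogeneous d) (hs : Smooth F)
    (x : Fin 3 → Fin N → Pui K)
    (hx : MvPolynomial.eval₂ ((eps K Ω).comp (algebraMap K (Pui K)))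
      (fun i => ∑ j, eps K Ω (x i j) * HahnSeries.C (b j)) F = 0) :
    (∃ ω : Fin 3 → Ω, ω ≠ 0 ∧ ∀ i k,
      (∑ j, eps K Ω (x i j) * HahnSeries.C (b j)) * HahnSeries.C (ω k) =
      (∑ j, eps K Ω (x k j) * HahnSeries.C (b j)) * HahnSeries.C (ω i)) ∨
      ∃ α : Fin 3 → Pui K, α ≠ 0 ∧ ∀ i k,
      (∑ j, eps K Ω (x i j) * HahnSeries.C (b j)) * eps K Ω (α k) =
      (∑ j, eps K Ω (x k j) * HahnSeries.C (b j)) * eps K Ω (α i) := by
  classical
  have hchΩ : CharZero Ω := charZero_of_injective_algebraMap (algebraMap K Ω).injective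
  have hchP : CharZero (Pui K) := charZero_of_injective_algebraMap (algebraMap K (Pui K)).injective
  set y : Fin 3 → HahnSeries ℚ Ω := fun i => ∑ j, eps K Ω (x i j) * HahnSeries.C (b j) with hy
  by_cases hy0 : y = 0
  · left
    refine ⟨1, one_ne_zero, fun i k => ?_⟩
    have h1 : ∀ i, y i = 0 := fun i => congrFun hy0 i
    change y i * _ = y k * _
    rw [h1, h1, zero_mul, zero_mul]
  let : Algebra (Pui K) (HahnSeries ℚ Ω) := (eps K Ω).toAlgebra
  have hal : ∀ e, algebraMap (Pui K) (HahnSeries ℚ Ω) e = eps K Ω e := fun e => rfl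
  let S₀ : Set (HahnSeries ℚ Ω) := {HahnSeries.C t} ∪ Set.range (fun j => HahnSeries.C (b j))
  let M : IntermediateField (Pui K) (HahnSeries ℚ Ω) := IntermediateField.adjoin (Pui K) S₀
  have hS₀ : ∀ z ∈ S₀, Eu z = 0 := by
    rintro z (rfl | ⟨j, rfl⟩)
    · exact Eu_C t
    · exact Eu_C (b j)
  -- stability
  have hinv : ∀ z : HahnSeries ℚ Ω, z ≠ 0 → Eu z⁻¹ = -(Eu z * z⁻¹ * z⁻¹) := by
    intro z hz
    have h1 := Eu_mul z z⁻¹
    have h2 : Eu (1 : HahnSeries ℚ Ω) = 0 := by
      have := Eu_C (1 : Ω)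
      rwa [map_one] at this
    rw [mul_inv_cancel₀ hz, h2] at h1
    have h3 : z * Eu z⁻¹ = -(Eu z * z⁻¹) := by
      rw [eq_neg_iff_add_eq_zero, add_comm]
      exact h1.symm
    calc Eu z⁻¹ = z⁻¹ * (z * Eu z⁻¹) := by rw [← mul_assoc, inv_mul_cancel₀ hz, one_mul]
      _ = -(Eu z * z⁻¹ * z⁻¹) := by rw [h3]; ring
  have hstab : ∀ z ∈ M, Eu z ∈ M := by
    let M' : IntermediateField (Pui K) (HahnSeries ℚ Ω) :=
      { carrier := {z | z ∈ M ∧ Eu z ∈ M}
        mul_mem' := by
          rintro a c ⟨ha, ha'⟩ ⟨hc, hc'⟩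
          refine ⟨M.mul_mem ha hc, ?_⟩
          rw [Eu_mul]
          exact M.add_mem (M.mul_mem ha' hc) (M.mul_mem ha hc')
        add_mem' := by
          rintro a c ⟨ha, ha'⟩ ⟨hc, hc'⟩
          refine ⟨M.add_mem ha hc, ?_⟩
          rw [map_add]
          exact M.add_mem ha' hc'
        algebraMap_mem' := by
          intro e
          refine ⟨M.algebraMap_mem e, ?_⟩
          rw [hal, Eu_eps]
          exact M.algebraMap_mem (DP e)
        inv_mem' := by
          rintro a ⟨ha, ha'⟩
          refine ⟨M.inv_mem ha, ?_⟩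
          by_cases h0 : a = 0
          · rw [h0, inv_zero, map_zero]
            exact M.zero_mem
          · rw [hinv a h0]
            exact M.neg_mem (M.mul_mem (M.mul_mem ha' (M.inv_mem ha)) (M.inv_mem ha)) }
    have h1 : M ≤ M' := by
      change IntermediateField.adjoin (Pui K) S₀ ≤ M'
      rw [IntermediateField.adjoin_le_iff]
      intro z hz
      refine ⟨IntermediateField.subset_adjoin _ _ hz, ?_⟩
      rw [hS₀ z hz]
      exact M.zero_mem
    intro z hz
    exact (h1 hz).2
  let DM : M →+ M :=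
    { toFun := fun z => ⟨Eu z, hstab z z.2⟩
      map_zero' := Subtype.ext (map_zero Eu)
      map_add' := fun a c => Subtype.ext (map_add Eu (a : HahnSeries ℚ Ω) (c : HahnSeries ℚ Ω)) }
  have hDMcoe : ∀ z : M, ((DM z : M) : HahnSeries ℚ Ω) = Eu (z : HahnSeries ℚ Ω) := fun z => rfl
  let tM : M := ⟨HahnSeries.C t, IntermediateField.subset_adjoin _ _ (Or.inl rfl)⟩
  let bM : Fin N → M := fun j =>
    ⟨HahnSeries.C (b j), IntermediateField.subset_adjoin _ _ (Or.inr ⟨j, rfl⟩)⟩
  -- algebraicity
  let FH : IntermediateField (Pui K) (HahnSeries ℚ Ω) := (Pui K)⟮(HahnSeries.C t : HahnSeries ℚ Ω)⟯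
  have hCt : (HahnSeries.C t : HahnSeries ℚ Ω) ∈ FH := IntermediateField.mem_adjoin_simple_self _ _
  let : Algebra K (HahnSeries ℚ Ω) := ((HahnSeries.C : Ω →+* HahnSeries ℚ Ω).comp
    (algebraMap K Ω)).toAlgebra
  have hKC : ∀ z ∈ K⟮t⟯, (HahnSeries.C z : HahnSeries ℚ Ω) ∈ FH := by
    let T : IntermediateField K Ω :=
      { carrier := {z | (HahnSeries.C z : HahnSeries ℚ Ω) ∈ FH}
        mul_mem' := by
          intro a c ha hc
          rw [Set.mem_ofPred_eq, map_mul]
          exact FH.mul_mem ha hc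
        add_mem' := by
          intro a c ha hc
          rw [Set.mem_ofPred_eq, map_add]
          exact FH.add_mem ha hc
        algebraMap_mem' := by
          intro k
          rw [Set.mem_ofPred_eq, ← eps_algebraMap]
          exact FH.algebraMap_mem _
        inv_mem' := by
          intro a ha
          rw [Set.mem_ofPred_eq, map_inv₀]
          exact FH.inv_mem ha }
    have h1 : K⟮t⟯ ≤ T := by
      rw [IntermediateField.adjoin_simple_le_iff]
      exact hCt
    exact fun z hz => h1 hz
  have hbH : ∀ j, IsAlgebraic FH (HahnSeries.C (b j) : HahnSeries ℚ Ω) := by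
    intro j
    let f : K⟮t⟯ →+* FH := ((HahnSeries.C : Ω →+* HahnSeries ℚ Ω).comp
      (K⟮t⟯.val.toRingHom)).codRestrict FH.toSubfield (fun z => hKC z z.2)
    exact (hbt j).ringHom_of_comp_eq f (HahnSeries.C : Ω →+* HahnSeries ℚ Ω) f.injective rfl
  have hM_alg : ∀ z ∈ M, IsAlgebraic FH z := by
    let A : IntermediateField FH (HahnSeries ℚ Ω) := algebraicClosure FH (HahnSeries ℚ Ω)
    have h1 : M ≤ A.restrictScalars (Pui K) := by
      change IntermediateField.adjoin (Pui K) S₀ ≤ _
      rw [IntermediateField.adjoin_le_iff]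
      rintro z (rfl | ⟨j, rfl⟩)
      · change (HahnSeries.C t : HahnSeries ℚ Ω) ∈ A
        have h2 : (HahnSeries.C t : HahnSeries ℚ Ω) = algebraMap FH (HahnSeries ℚ Ω) ⟨_, hCt⟩ := rfl
        rw [h2]
        exact A.algebraMap_mem _
      · change (HahnSeries.C (b j) : HahnSeries ℚ Ω) ∈ A
        exact mem_algebraicClosure_iff.mpr (hbH j)
    intro z hz
    exact mem_algebraicClosure_iff.mp (h1 hz)
  have hmap : ((Pui K)⟮tM⟯).map M.val = FH := by
    rw [IntermediateField.adjoin_map, Set.image_singleton]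
    rfl
  have halg : Algebra.IsAlgebraic (Pui K)⟮tM⟯ M := by
    constructor
    intro z
    let f : (Pui K)⟮tM⟯ →+* FH := (M.val.toRingHom.comp ((Pui K)⟮tM⟯.val.toRingHom)).codRestrict
      FH.toSubfield (fun w => by
        have h1 : M.val (w : M) ∈ ((Pui K)⟮tM⟯).map M.val := ⟨w, w.2, rfl⟩
        rw [hmap] at h1
        exact h1)
    refine IsAlgebraic.of_ringHom_of_comp_eq (f := f) (g := M.val.toRingHom) (hM_alg z z.2)
      ?_ M.val.toRingHom.injective rfl
    intro w
    have h1 : (w : HahnSeries ℚ Ω) ∈ ((Pui K)⟮tM⟯).map M.val := by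
      rw [hmap]
      exact w.2
    obtain ⟨v, hv, hvw⟩ := h1
    exact ⟨⟨v, hv⟩, Subtype.ext hvw⟩
  -- the point
  let u : Fin 3 → M := fun i => ∑ j, algebraMap (Pui K) M (x i j) * bM j
  have huy : ∀ i, ((u i : M) : HahnSeries ℚ Ω) = y i := by
    intro i
    have h1 : M.val (u i) = y i := by
      simp only [u, map_sum, map_mul, hy]
      rfl
    exact h1
  have hFu : MvPolynomial.aeval u (MvPolynomial.map (algebraMap K (Pui K)) F) = 0 := by
    apply M.val.toRingHom.injective
    rw [map_zero]
    have h1 := MvPolynomial.comp_aeval_apply (R := Pui K) u M.val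
      (MvPolynomial.map (algebraMap K (Pui K)) F)
    have h2 : (fun i => M.val (u i)) = y := funext huy
    rw [h2] at h1
    change M.val _ = 0
    rw [h1, MvPolynomial.aeval_def, MvPolynomial.eval₂_map]
    exact hx
  have hs' : Smooth (MvPolynomial.map (algebraMap K (Pui K)) F) := by
    obtain ⟨n, hn⟩ := hs
    refine ⟨n, fun i => ?_⟩
    have h1 := Ideal.mem_map_of_mem (MvPolynomial.map (σ := Fin 3) (algebraMap K (Pui K))) (hn i)
    rw [Ideal.map_span, map_pow, MvPolynomial.map_X] at h1
    refine Ideal.span_mono ?_ h1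
    rintro _ ⟨_, ⟨k, rfl⟩, rfl⟩
    exact ⟨k, MvPolynomial.pderiv_map⟩
  rcases rigid (E := Pui K) (M := M) DP DP_mul DM (fun a c => Subtype.ext
      (Eu_mul (a : HahnSeries ℚ Ω) (c : HahnSeries ℚ Ω))) (fun e => Subtype.ext (Eu_eps e)) tM
      (Subtype.ext (Eu_C t)) (Set.range bM) (by
        rintro _ ⟨j, rfl⟩
        exact Subtype.ext (Eu_C (b j))) u (by
        intro i
        refine Submodule.sum_mem _ fun j _ => ?_
        rw [← Algebra.smul_def]
        exact Submodule.smul_mem _ _ (Submodule.subset_span ⟨j, rfl⟩))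
      (MvPolynomial.map (algebraMap K (Pui K)) F) d hd (hF.map _) (by
        intro m
        rw [MvPolynomial.coeff_map, DP_algebraMap]) hs' hFu with hcross | ⟨c, α, hα⟩
  · left
    obtain ⟨a, ha⟩ := Function.ne_iff.mp hy0
    have hya : y a ≠ 0 := ha
    have hcr : ∀ k, y (k + 1) * Eu (y (k + 2)) = y (k + 2) * Eu (y (k + 1)) := by
      intro k
      have h1 := congrArg (fun z : M => (z : HahnSeries ℚ Ω)) (hcross k)
      simp only [MulMemClass.coe_mul, hDMcoe, huy] at h1
      exact h1
    have hcr' : ∀ i k, y i * Eu (y k) = y k * Eu (y i) := by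
      intro i k
      have h0 := hcr 0
      have h1 := hcr 1
      have h2 := hcr 2
      have e0 : y 1 * Eu (y 2) = y 2 * Eu (y 1) := h0
      have e1 : y 2 * Eu (y 0) = y 0 * Eu (y 2) := h1
      have e2 : y 0 * Eu (y 1) = y 1 * Eu (y 0) := h2
      fin_cases i <;> fin_cases k
      · rfl
      · exact e2
      · exact e1.symm
      · exact e2.symm
      · rfl
      · exact e0
      · exact e1
      · exact e0.symm
      · rfl
    have hconst : ∀ i, ∃ ω, y i = y a * HahnSeries.C ω := by
      intro i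
      have h1 : Eu (y i * (y a)⁻¹) = 0 := by
        rw [Eu_mul, hinv _ hya]
        have h2 : y a * Eu (y i) = y i * Eu (y a) := hcr' a i
        have h3 : Eu (y i) * (y a)⁻¹ + y i * -(Eu (y a) * (y a)⁻¹ * (y a)⁻¹) =
            (y a * Eu (y i) - y i * Eu (y a)) * ((y a)⁻¹ * (y a)⁻¹) := by
          field_simp
          ring
        rw [h3, h2, sub_self, zero_mul]
      refine ⟨(y i * (y a)⁻¹).coeff 0, ?_⟩
      rw [← eq_C_of_Eu h1]
      field_simp
    choose ω hω using hconst
    refine ⟨ω, ?_, ?_⟩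
    · intro h
      apply hya
      rw [hω a, congrFun h a]
      simp
    · intro i k
      change y i * _ = y k * _
      rw [hω i, hω k]
      ring
  · right
    refine ⟨α, ?_, ?_⟩
    · intro h
      apply hy0
      funext i
      rw [← huy, hα i, congrFun h i]
      simp
    · intro i k
      change y i * _ = y k * _
      have h1 : ∀ i, y i = (c : HahnSeries ℚ Ω) * eps K Ω (α i) := by
        intro i
        rw [← huy, hα i]
        rfl
      rw [h1 i, h1 k]
      ring

end rigid2

section family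

variable {K : Type} [Field K] [Countable K] [IsAlgClosed K] [CharZero K] {Ω : Type} [Field Ω]
  [Algebra K Ω]

/-- **There are no infinite families.** -/
theorem no_family {N : ℕ} (b : Fin N → Ω) (hb : LinearIndependent K b) (t : Ω)
    (hbt : ∀ j, IsAlgebraic K⟮t⟯ (b j)) (F : MvPolynomial (Fin 3) K) (d : ℕ) (hd : 4 ≤ d)
    (hF : F.IsHomogeneous d) (hs : Smooth F) (S : Set (Fin 3 → Fin N → K)) (hS : S.Infinite)
    (hSF : ∀ σ ∈ S, MvPolynomial.aeval (fun i => ∑ j, σ i j • b j) F = 0)
    (hrank : ∀ σ ∈ S, ∃ i k j l, σ i j * σ k l ≠ σ k j * σ i l)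
    (hprop : ∀ σ ∈ S, ∀ σ' ∈ S, (∀ i k, (∑ j, σ i j • b j) * (∑ j, σ' k j • b j) =
      (∑ j, σ k j • b j) * (∑ j, σ' i j • b j)) → σ = σ') : False := by
  classical
  have hinf : Infinite S := hS.to_subtype
  let U : Ultrafilter S := hyperfilter S
  let R := MvPolynomial (Fin 3 × Fin N) K
  let ev : S → R →ₐ[K] K := fun σ => MvPolynomial.aeval (fun p => σ.1 p.1 p.2)
  let I : Ideal R :=
    { carrier := {F | ∀ᶠ σ in (U : Filter S), ev σ F = 0}
      add_mem' := by
        intro F G hF hG
        filter_upwards [hF, hG] with σ h1 h2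
        rw [map_add, h1, h2, add_zero]
      zero_mem' := by
        filter_upwards with σ
        exact map_zero _
      smul_mem' := by
        intro c F hF
        filter_upwards [hF] with σ h1
        rw [smul_eq_mul, map_mul, h1, mul_zero] }
  have hI : ∀ F, F ∈ I ↔ ∀ᶠ σ in (U : Filter S), ev σ F = 0 := fun F => Iff.rfl
  have hprime : I.IsPrime := by
    constructor
    · rw [Ne, Ideal.eq_top_iff_one, hI]
      intro h
      obtain ⟨σ, hσ⟩ := h.exists
      rw [map_one] at hσ
      exact one_ne_zero hσ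
    · intro F G hFG
      rw [hI] at hFG
      simp only [hI]
      rw [← Ultrafilter.eventually_or]
      filter_upwards [hFG] with σ hσ
      rw [map_mul] at hσ
      exact mul_eq_zero.mp hσ
  have hcM : Countable R := countable_mvPolynomial
  let A := R ⧸ I
  have hcA : Countable A := (Ideal.Quotient.mk_surjective (I := I)).countable
  let Q := FractionRing A
  have hcQ : Countable Q := by
    have h1 : Function.Surjective (fun p : A × A => algebraMap A Q p.1 / algebraMap A Q p.2) := by
      intro z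
      obtain ⟨a, s, -, hz⟩ := IsFractionRing.div_surjective (A := A) z
      exact ⟨(a, s), hz⟩
    exact h1.countable
  obtain ⟨θ⟩ : Nonempty (Q →ₐ[K] Pui K) := by
    by_cases htr : ∃ z : Q, Transcendental K z
    · obtain ⟨z, hz⟩ := htr
      obtain ⟨θ, -⟩ := exists_embedding z tinv hz tinv_transcendental
      exact ⟨θ⟩
    · push Not at htr
      have halg : Algebra.IsAlgebraic K Q := by
        constructor
        intro z
        have := htr z
        rwa [Transcendental, not_not] at this
      exact ⟨IsAlgClosed.lift⟩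
  let φ : R →ₐ[K] Pui K := θ.comp ((IsScalarTower.toAlgHom K A Q).comp (Ideal.Quotient.mkₐ K I))
  have hφ : ∀ G, φ G = 0 ↔ G ∈ I := by
    intro G
    change θ (algebraMap A Q (Ideal.Quotient.mk I G)) = 0 ↔ _
    rw [map_eq_zero, map_eq_zero_iff _ (IsFractionRing.injective A Q), Ideal.Quotient.eq_zero_iff_mem]
  -- the transfer
  let β := Module.Basis.ofVectorSpace K Ω
  let e1 : R →ₐ[K] HahnSeries ℚ Ω :=
    { (eps K Ω).comp φ.toRingHom with
      commutes' := by
        intro k
        change eps K Ω (φ (algebraMap K R k)) = _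
        rw [φ.commutes, eps_algebraMap]
        rfl }
  let e2 : Ω →ₐ[K] HahnSeries ℚ Ω :=
    { (HahnSeries.C : Ω →+* HahnSeries ℚ Ω) with
      commutes' := fun k => rfl }
  let Θ : R ⊗[K] Ω →ₐ[K] HahnSeries ℚ Ω := Algebra.TensorProduct.productMap e1 e2
  have hΘ : ∀ G l, Θ (G ⊗ₜ l) = eps K Ω (φ G) * HahnSeries.C l := by
    intro G l
    simp only [Θ, Algebra.TensorProduct.productMap_apply_tmul]
    rfl
  let ε : S → R ⊗[K] Ω →ₐ[K] Ω := fun σ =>
    Algebra.TensorProduct.productMap ((Algebra.ofId K Ω).comp (ev σ)) (AlgHom.id K Ω)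
  have hε : ∀ σ F l, ε σ (F ⊗ₜ l) = ev σ F • l := by
    intro σ F l
    simp only [ε, Algebra.TensorProduct.productMap_apply_tmul]
    rw [Algebra.smul_def]
    rfl
  have transfer : ∀ z, Θ z = 0 ↔ ∀ᶠ σ in (U : Filter S), ε σ z = 0 := by
    intro z
    obtain ⟨c, rfl⟩ := (TensorProduct.equivFinsuppOfBasisRight β).symm.surjective z
    rw [TensorProduct.equivFinsuppOfBasisRight_symm_apply]
    constructor
    · intro hz
      rw [Finsupp.sum, map_sum] at hz
      simp only [hΘ] at hz
      have h1 : ∀ m, c m ∈ I := by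
        intro m
        rw [← hφ]
        by_cases hm : m ∈ c.support
        · apply Subtype.ext
          ext q
          have h2 := congrArg (fun w : HahnSeries ℚ Ω => w.coeff q) hz
          simp only [coeff_sum, coeff_zero] at h2
          have h3 : ∀ i, (eps K Ω (φ (c i)) * HahnSeries.C (β i)).coeff q =
              (((φ (c i) : Pui K) : HQ K).coeff q) • β i := by
            intro i
            rw [mul_comm, C_mul_eq_smul, coeff_smul, eps_coeff, smul_eq_mul, mul_comm,
              Algebra.smul_def]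
          simp only [h3] at h2
          exact (linearIndependent_iff'.mp β.linearIndependent) c.support _ h2 m hm
        · rw [Finsupp.notMem_support_iff.mp hm, map_zero]
      have h2 := (Filter.eventually_all_finset c.support).mpr
        (fun m _ => (hI (c m)).mp (h1 m))
      filter_upwards [h2] with σ hσ
      rw [Finsupp.sum, map_sum]
      apply Finset.sum_eq_zero
      intro m hm
      rw [hε, hσ m hm, zero_smul]
    · intro hz
      rw [Finsupp.sum, map_sum]
      apply Finset.sum_eq_zero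
      intro m hm
      have h1 : c m ∈ I := by
        rw [hI]
        filter_upwards [hz] with σ hσ
        rw [Finsupp.sum, map_sum] at hσ
        simp only [hε] at hσ
        exact (linearIndependent_iff'.mp β.linearIndependent) c.support _ hσ m hm
      rw [hΘ, (hφ _).mpr h1, map_zero, zero_mul]
  -- the point
  let x : Fin 3 → Fin N → Pui K := fun i j => φ (MvPolynomial.X (i, j))
  let z : Fin 3 → R ⊗[K] Ω := fun i => ∑ j, MvPolynomial.X (i, j) ⊗ₜ[K] b j
  have hΘz : ∀ i, Θ (z i) = ∑ j, eps K Ω (x i j) * HahnSeries.C (b j) := by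
    intro i
    simp only [z, map_sum, hΘ, x]
  have hevX : ∀ (σ : S) i j, ev σ (MvPolynomial.X (i, j)) = σ.1 i j := fun σ i j =>
    MvPolynomial.aeval_X _ _
  have hεz : ∀ σ i, ε σ (z i) = ∑ j, σ.1 i j • b j := by
    intro σ i
    simp only [z, map_sum, hε]
    apply Finset.sum_congr rfl
    intro j _
    rw [hevX]
  have hzF : Θ (MvPolynomial.aeval z F) = 0 := by
    rw [transfer]
    filter_upwards with σ
    have h1 := MvPolynomial.comp_aeval_apply (R := K) z (ε σ) F
    rw [h1]
    have h2 : (fun i => ε σ (z i)) = fun i => ∑ j, σ.1 i j • b j := funext (hεz σ)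
    rw [h2]
    exact hSF σ.1 σ.2
  have hx : MvPolynomial.eval₂ ((eps K Ω).comp (algebraMap K (Pui K)))
      (fun i => ∑ j, eps K Ω (x i j) * HahnSeries.C (b j)) F = 0 := by
    have h1 := MvPolynomial.comp_aeval_apply (R := K) z Θ F
    rw [hzF] at h1
    have h2 : (fun i => Θ (z i)) = fun i => ∑ j, eps K Ω (x i j) * HahnSeries.C (b j) :=
      funext hΘz
    rw [h2] at h1
    rw [h1, MvPolynomial.aeval_def]
    congr 1
    ext1 k
    exact eps_algebraMap k
  rcases rigid2 b t hbt F d hd hF hs x hx with ⟨ω, hω, h⟩ | ⟨α, hα, h⟩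
  · -- constant
    have h1 : ∀ i k, ∀ᶠ σ in (U : Filter S),
        (∑ j, σ.1 i j • b j) * ω k = (∑ j, σ.1 k j • b j) * ω i := by
      intro i k
      have h2 : Θ (z i * (1 ⊗ₜ ω k) - z k * (1 ⊗ₜ ω i)) = 0 := by
        rw [map_sub, map_mul, map_mul, hΘz, hΘz, hΘ, hΘ, map_one, map_one, one_mul, one_mul, h,
          sub_self]
      rw [transfer] at h2
      filter_upwards [h2] with σ hσ
      rw [map_sub, map_mul, map_mul, hεz, hεz, hε, hε, map_one, one_smul, one_smul, sub_eq_zero] at hσ
      exact hσ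
    have h2 : ∀ᶠ σ in (U : Filter S), ∀ i k,
        (∑ j, σ.1 i j • b j) * ω k = (∑ j, σ.1 k j • b j) * ω i := by
      rw [Filter.eventually_all]
      intro i
      rw [Filter.eventually_all]
      intro k
      exact h1 i k
    have h3 : {σ : S | ∀ i k, (∑ j, σ.1 i j • b j) * ω k =
        (∑ j, σ.1 k j • b j) * ω i}.Infinite := by
      intro hfin
      exact notMem_hyperfilter_of_finite hfin h2
    obtain ⟨σ, hσ⟩ := h3.nonempty
    obtain ⟨σ', hσ', hne⟩ : ∃ σ', σ' ∈ {σ : S | ∀ i k, (∑ j, σ.1 i j • b j) * ω k =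
        (∑ j, σ.1 k j • b j) * ω i} ∧ σ' ≠ σ := by
      obtain ⟨σ', h4, h5⟩ := h3.exists_notMem_finset {σ}
      exact ⟨σ', h4, fun h6 => h5 (Finset.mem_singleton.mpr h6)⟩
    apply hne
    apply Subtype.ext
    apply hprop σ'.1 σ'.2 σ.1 σ.2
    intro i k
    obtain ⟨a, ha⟩ := Function.ne_iff.mp hω
    have ha' : ω a ≠ 0 := ha
    have e1 := hσ' i a
    have e2 := hσ' k a
    have e3 := hσ i a
    have e4 := hσ k a
    apply mul_right_cancel₀ (mul_ne_zero ha' ha')
    linear_combination (∑ j, σ.1 k j • b j) * ω a * e1 + (∑ j, σ'.1 a j • b j) * ω i * e4 -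
      (∑ j, σ.1 i j • b j) * ω a * e2 - (∑ j, σ'.1 a j • b j) * ω k * e3
  · -- algebraic
    obtain ⟨a, ha⟩ := Function.ne_iff.mp hα
    have ha' : α a ≠ 0 := ha
    have hxα : ∀ i k j, x i j * α k = x k j * α i := by
      intro i k j
      have h1 := h i k
      have h2 : x i j * α k - x k j * α i = 0 := by
        apply Subtype.ext
        ext q
        have h3 := congrArg (fun w : HahnSeries ℚ Ω => w.coeff q) (sub_eq_zero.mpr h1)
        rw [Finset.sum_mul, Finset.sum_mul, ← Finset.sum_sub_distrib] at h3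
        have h4 : ∀ j, eps K Ω (x i j) * HahnSeries.C (b j) * eps K Ω (α k) -
            eps K Ω (x k j) * HahnSeries.C (b j) * eps K Ω (α i) =
            HahnSeries.C (b j) * eps K Ω (x i j * α k - x k j * α i) := by
          intro j
          rw [map_sub, map_mul, map_mul]
          ring
        simp only [h4, coeff_sum, coeff_zero, C_mul_eq_smul, coeff_smul, eps_coeff, smul_eq_mul] at h3
        have h5 := (Fintype.linearIndependent_iff.mp hb)
          (fun j => ((x i j * α k - x k j * α i : Pui K) : HQ K).coeff q) (by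
            rw [← h3]
            apply Finset.sum_congr rfl
            intro j _
            rw [Algebra.smul_def, mul_comm]) j
        exact h5
      exact sub_eq_zero.mp h2
    have hminor : ∀ i k j l, ∀ᶠ σ in (U : Filter S), σ.1 i j * σ.1 k l = σ.1 k j * σ.1 i l := by
      intro i k j l
      have h1 : φ (MvPolynomial.X (i, j) * MvPolynomial.X (k, l) -
          MvPolynomial.X (k, j) * MvPolynomial.X (i, l)) = 0 := by
        rw [map_sub, map_mul, map_mul]
        change x i j * x k l - x k j * x i l = 0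
        have e1 := hxα i a j
        have e2 := hxα k a l
        have e3 := hxα k a j
        have e4 := hxα i a l
        apply mul_right_cancel₀ (mul_ne_zero ha' ha')
        rw [zero_mul]
        linear_combination (x k l * α a) * e1 + x a j * α i * e2 - x i l * α a * e3 -
          x a j * α k * e4
      rw [hφ, hI] at h1
      filter_upwards [h1] with σ hσ
      rw [map_sub, map_mul, map_mul, hevX, hevX, hevX, hevX] at hσ
      exact sub_eq_zero.mp hσ
    have hall : ∀ᶠ σ in (U : Filter S), ∀ i k j l, σ.1 i j * σ.1 k l = σ.1 k j * σ.1 i l := by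
      rw [Filter.eventually_all]
      intro i
      rw [Filter.eventually_all]
      intro k
      rw [Filter.eventually_all]
      intro j
      rw [Filter.eventually_all]
      intro l
      exact hminor i k j l
    obtain ⟨σ, hσ⟩ := hall.exists
    obtain ⟨i, k, j, l, hne⟩ := hrank σ.1 σ.2
    exact hne (hσ i k j l)

end family

end Pool.Agent.Zk18.Md
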