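import Pool.Agent.Zk18.Rgd
import Mathlib.RingTheory.Nullstellensatz

/-!
# Smooth plane curves contain no lines
-/

set_option autoImplicit false

attribute [-instance] HahnSeries.powerSeriesAlgebra

namespace Pool.Agent.Zk18.Md

open MvPolynomial

theorem smooth_of {K : Type} [Field K] [IsAlgClosed K] (F : MvPolynomial (Fin 3) K)
    (h : ∀ x : Fin 3 → K, (∀ k, eval x (pderiv k F) = 0) → x = 0) : Smooth F := by
  have h1 : ∀ i, ∃ n : ℕ, (X i : MvPolynomial (Fin 3) K) ^ n ∈
      Ideal.span (Set.range fun k => pderiv k F) := by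
    intro i
    have h2 : (X i : MvPolynomial (Fin 3) K) ∈ vanishingIdeal K
        (zeroLocus K (Ideal.span (Set.range fun k => pderiv k F))) := by
      rw [mem_vanishingIdeal_iff]
      intro x hx
      rw [mem_zeroLocus_iff] at hx
      have h3 : x = 0 := by
        apply h
        intro k
        have h4 := hx (pderiv k F) (Ideal.subset_span ⟨k, rfl⟩)
        rwa [MvPolynomial.aeval_eq_eval] at h4
      rw [h3, aeval_X, Pi.zero_apply]
    rw [vanishingIdeal_zeroLocus_eq_radical] at h2
    exact h2
  choose n hn using h1
  refine ⟨∑ i, n i, fun i => ?_⟩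
  exact Ideal.pow_mem_of_pow_mem _ (hn i) (Finset.single_le_sum (f := n)
    (fun _ _ => Nat.zero_le _) (Finset.mem_univ i))

theorem sum3 {M : Type*} [AddCommMonoid M] (k : Fin 3) (f : Fin 3 → M) :
    ∑ i, f i = f k + f (k + 1) + f (k + 2) := by
  fin_cases k
  · rw [Fin.sum_univ_three]
    rfl
  · rw [Fin.sum_univ_three]
    change _ = f 1 + f 2 + f 0
    abel
  · rw [Fin.sum_univ_three]
    change _ = f 2 + f 0 + f 1
    abel

theorem cases3 (k i : Fin 3) : i = k ∨ i = k + 1 ∨ i = k + 2 := by
  fin_cases k <;> fin_cases i <;> simp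

theorem chain_poly {K : Type} [Field K] (F : MvPolynomial (Fin 3) K)
    (v : Fin 3 → Polynomial K) : Polynomial.derivative (aeval v F) =
      ∑ k, aeval v (pderiv k F) * Polynomial.derivative (v k) := by
  induction F using MvPolynomial.induction_on with
  | C a => simp
  | add p q hp hq =>
    rw [map_add, map_add, hp, hq, ← Finset.sum_add_distrib]
    apply Finset.sum_congr rfl
    intro k _
    rw [map_add, map_add, add_mul]
  | mul_X p i hp =>
    rw [map_mul, Polynomial.derivative_mul, hp, aeval_X, Finset.sum_mul]
    have h1 : aeval v p * Polynomial.derivative (v i) =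
        ∑ k, aeval v (p * pderiv k (X i)) * Polynomial.derivative (v k) := by
      rw [Finset.sum_eq_single i]
      · rw [pderiv_X_self, mul_one]
      · intro k _ hk
        rw [pderiv_X_of_ne hk.symm, mul_zero, map_zero, zero_mul]
      · intro h
        exact absurd (Finset.mem_univ i) h
    rw [h1, ← Finset.sum_add_distrib]
    apply Finset.sum_congr rfl
    intro k _
    rw [Derivation.leibniz, smul_eq_mul, smul_eq_mul, map_add, map_mul, map_mul, aeval_X]
    ring

/-- a smooth plane curve of degree at least two contains no line -/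
theorem no_line {K : Type} [Field K] [IsAlgClosed K] (F : MvPolynomial (Fin 3) K) (d : ℕ)
    (hd : 2 ≤ d) (hF : F.IsHomogeneous d) (hs : Smooth F) (k : Fin 3) (p q : Fin 3 → K)
    (hp1 : p (k + 1) = 1) (hp2 : p (k + 2) = 0) (hq1 : q (k + 1) = 0) (hq2 : q (k + 2) = 1)
    (hφ : aeval (fun i => Polynomial.C (p i) * Polynomial.X + Polynomial.C (q i)) F = 0) :
    False := by
  set v : Fin 3 → Polynomial K := fun i => Polynomial.C (p i) * Polynomial.X + Polynomial.C (q i)
    with hv
  set G : Fin 3 → Polynomial K := fun i => aeval v (pderiv i F) with hG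
  have h1 : ∑ i, G i * Polynomial.C (p i) = 0 := by
    have h2 := chain_poly F v
    rw [hφ, map_zero] at h2
    rw [h2]
    apply Finset.sum_congr rfl
    intro i _
    simp only [hv, hG]
    simp
  have h2 : ∑ i, G i * v i = 0 := by
    have h3 := congrArg (aeval v) hF.sum_X_mul_pderiv
    rw [map_sum, map_nsmul, hφ, nsmul_zero] at h3
    rw [← h3]
    apply Finset.sum_congr rfl
    intro i _
    rw [map_mul, aeval_X, mul_comm]
  have h3 : ∑ i, G i * Polynomial.C (q i) = 0 := by
    have h4 : ∑ i, G i * v i = (∑ i, G i * Polynomial.C (p i)) * Polynomial.X +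
        ∑ i, G i * Polynomial.C (q i) := by
      rw [Finset.sum_mul, ← Finset.sum_add_distrib]
      apply Finset.sum_congr rfl
      intro i _
      simp only [hv]
      ring
    rw [h2, h1, zero_mul, zero_add] at h4
    exact h4.symm
  rw [sum3 k, hp1, hp2, map_one, map_zero, mul_one, mul_zero, add_zero] at h1
  rw [sum3 k, hq1, hq2, map_one, map_zero, mul_one, mul_zero, add_zero] at h3
  have hGi : ∀ i, ∃ a : K, G i = Polynomial.C a * G k := by
    intro i
    rcases cases3 k i with rfl | rfl | rfl
    · exact ⟨1, by rw [map_one, one_mul]⟩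
    · refine ⟨- p k, ?_⟩
      rw [map_neg]
      linear_combination h1
    · refine ⟨- q k, ?_⟩
      rw [map_neg]
      linear_combination h3
  have hev : ∀ (t : K) (P : MvPolynomial (Fin 3) K), (aeval v P).eval t =
      aeval (fun i => p i * t + q i) P := by
    intro t P
    have h4 := MvPolynomial.comp_aeval_apply (R := K) v (Polynomial.aeval t) P
    rw [Polynomial.coe_aeval_eq_eval] at h4
    rw [h4]
    congr 2
    funext i
    simp [hv]
  by_cases hdeg : (G k).degree = 0 ∨ G k = 0
  · -- all are constant
    have hconst : ∀ i, ∃ c : K, G i = Polynomial.C c := by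
      have h5 : ∃ c : K, G k = Polynomial.C c := by
        rcases hdeg with h | h
        · exact ⟨_, Polynomial.eq_C_of_degree_eq_zero h⟩
        · exact ⟨0, by rw [h, map_zero]⟩
      obtain ⟨c, hc⟩ := h5
      intro i
      obtain ⟨a, ha⟩ := hGi i
      exact ⟨a * c, by rw [ha, hc, map_mul]⟩
    have h6 : p = 0 := by
      apply hs.eq_zero
      intro i
      obtain ⟨c, hc⟩ := hconst i
      set v' : Fin 3 → Polynomial K := fun i => Polynomial.C (p i) +
        Polynomial.C (q i) * Polynomial.X with hv'
      have hev' : ∀ (t : K) (P : MvPolynomial (Fin 3) K), (aeval v' P).eval t =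
          aeval (fun i => p i + q i * t) P := by
        intro t P
        have h4 := MvPolynomial.comp_aeval_apply (R := K) v' (Polynomial.aeval t) P
        rw [Polynomial.coe_aeval_eq_eval] at h4
        rw [h4]
        congr 2
        funext i
        simp [hv']
      have h7 : Polynomial.X * (aeval v' (pderiv i F) - Polynomial.C c * Polynomial.X ^ (d - 1)) =
          0 := by
        apply Polynomial.funext
        intro s
        rw [Polynomial.eval_mul, Polynomial.eval_X, Polynomial.eval_zero]
        by_cases hs0 : s = 0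
        · rw [hs0, zero_mul]
        · rw [Polynomial.eval_sub, hev', Polynomial.eval_mul, Polynomial.eval_C,
            Polynomial.eval_pow, Polynomial.eval_X]
          have h8 : (fun i => p i + q i * s) = fun i => s * (p i * s⁻¹ + q i) := by
            funext i
            field_simp
          rw [h8, aeval_mul_of_homogeneous _ (d - 1) hF.pderiv, ← hev]
          change s * (s ^ (d - 1) * (G i).eval s⁻¹ - _) = 0
          rw [hc, Polynomial.eval_C]
          ring
      have h9 := (mul_eq_zero.mp h7).resolve_left Polynomial.X_ne_zero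
      have h10 := congrArg (Polynomial.eval 0) h9
      rw [Polynomial.eval_sub, hev', Polynomial.eval_mul, Polynomial.eval_pow, Polynomial.eval_X,
        zero_pow (by omega), mul_zero, sub_zero, Polynomial.eval_zero] at h10
      simpa using h10
    have h7 := congrFun h6 (k + 1)
    rw [hp1] at h7
    exact one_ne_zero h7
  · push Not at hdeg
    obtain ⟨t, ht⟩ := IsAlgClosed.exists_root (G k) hdeg.1
    have h6 : (fun i => p i * t + q i) = 0 := by
      apply hs.eq_zero
      intro i
      rw [← hev]
      change (G i).eval t = 0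
      obtain ⟨a, ha⟩ := hGi i
      rw [ha, Polynomial.eval_mul, ht.eq_zero, mul_zero]
    have h7 := congrFun h6 (k + 2)
    simp only [hp2, hq2, Pi.zero_apply, zero_mul, zero_add] at h7
    exact one_ne_zero h7

/-- the coordinates of a nonconstant point of a smooth plane curve are linearly independent -/
theorem linearIndependent_of_zero {K Ω : Type} [Field K] [IsAlgClosed K] [Field Ω] [Algebra K Ω]
    (F : MvPolynomial (Fin 3) K) (d : ℕ) (hd : 2 ≤ d) (hF : F.IsHomogeneous d) (hs : Smooth F)
    (u : Fin 3 → Ω) (hu : aeval u F = 0)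
    (hr : ¬ ∃ (l : Ω) (α : Fin 3 → K), ∀ i, u i = l * algebraMap K Ω (α i)) :
    LinearIndependent K u := by
  classical
  by_contra hli
  rw [Fintype.linearIndependent_iff] at hli
  push Not at hli
  obtain ⟨g, hg, k, hk⟩ := hli
  rw [sum3 k] at hg
  set a : K := - g (k + 1) / g k with ha
  set b : K := - g (k + 2) / g k with hb
  have huk : u k = algebraMap K Ω a * u (k + 1) + algebraMap K Ω b * u (k + 2) := by
    have hk' : algebraMap K Ω (g k) ≠ 0 := by
      rw [Ne, map_eq_zero]
      exact hk
    rw [ha, hb, map_div₀, map_div₀, map_neg, map_neg]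
    rw [Algebra.smul_def, Algebra.smul_def, Algebra.smul_def] at hg
    field_simp
    linear_combination hg
  have hk12 : k + 1 ≠ k + 2 := by
    fin_cases k <;> decide
  have hk1 : k + 1 ≠ k := by
    fin_cases k <;> decide
  have hk2 : k + 2 ≠ k := by
    fin_cases k <;> decide
  let p : Fin 3 → K := fun i => if i = k then a else if i = k + 1 then 1 else 0
  let q : Fin 3 → K := fun i => if i = k then b else if i = k + 1 then 0 else 1
  have hp1 : p (k + 1) = 1 := by
    simp only [p]
    rw [if_neg hk1, if_pos trivial]
  have hp2 : p (k + 2) = 0 := by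
    simp only [p]
    rw [if_neg hk2, if_neg hk12.symm]
  have hq1 : q (k + 1) = 0 := by
    simp only [q]
    rw [if_neg hk1, if_pos trivial]
  have hq2 : q (k + 2) = 1 := by
    simp only [q]
    rw [if_neg hk2, if_neg hk12.symm]
  have hpk : p k = a := by
    simp only [p]
    rw [if_pos trivial]
  have hqk : q k = b := by
    simp only [q]
    rw [if_pos trivial]
  have huu : ∀ i, u i = u (k + 1) * algebraMap K Ω (p i) + u (k + 2) * algebraMap K Ω (q i) := by
    intro i
    rcases cases3 k i with rfl | rfl | rfl
    · rw [hpk, hqk, huk]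
      ring
    · rw [hp1, hq1, map_one, map_zero]
      ring
    · rw [hp2, hq2, map_one, map_zero]
      ring
  by_cases h2 : u (k + 2) = 0
  · apply hr
    refine ⟨u (k + 1), p, fun i => ?_⟩
    rw [huu i, h2, zero_mul, add_zero]
  set θ : Ω := u (k + 1) / u (k + 2) with hθ
  have hθu : u (k + 2) * θ = u (k + 1) := by
    rw [hθ]
    field_simp
  by_cases halg : ∃ c : K, algebraMap K Ω c = θ
  · obtain ⟨c, hc⟩ := halg
    apply hr
    refine ⟨u (k + 2), fun i => c * p i + q i, fun i => ?_⟩
    rw [huu i, map_add, map_mul, hc, ← hθu]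
    ring
  have htr : Transcendental K θ := by
    exact Pool.Agent.Zk18.transcendental_of_not_mem (fun h => halg h)
  apply no_line F d hd hF hs k p q hp1 hp2 hq1 hq2
  by_contra hne
  apply htr
  refine ⟨_, hne, ?_⟩
  have h4 := MvPolynomial.comp_aeval_apply (R := K) (fun i => Polynomial.C (p i) * Polynomial.X +
    Polynomial.C (q i)) (Polynomial.aeval θ) F
  rw [h4]
  have h5 : (fun i => Polynomial.aeval θ (Polynomial.C (p i) * Polynomial.X +
      Polynomial.C (q i))) = fun i => (u (k + 2))⁻¹ * u i := by
    funext i
    rw [map_add, map_mul, Polynomial.aeval_C, Polynomial.aeval_X, Polynomial.aeval_C, huu i, hθ]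
    field_simp
  rw [h5, aeval_mul_of_homogeneous F d hF, hu, mul_zero]

end Pool.Agent.Zk18.Md
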