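import Pool.Agent.Zk18.Str

/-!
# The structure of the set of the solutions
-/

set_option autoImplicit false

attribute [-instance] HahnSeries.powerSeriesAlgebra

namespace Pool.Agent.Zk18

open MvPolynomial
open scoped LaurentPolynomial

section coords

variable {K L : Type} [Field K] [Field L] [Algebra K L]

/-- the pair of elements with given coordinates -/
noncomputable def vec {N : ℕ} (b : Fin (N + 1) → L) (x : Fin 2 × Fin (N + 1) → K) (i : Fin 2) : L :=
  ∑ j, x (i, j) • b j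

/-- coordinates of an orbit -/
theorem exists_coords {N : ℕ} (b : Fin (N + 1) → L) (f : Fin 2 → K[T;T⁻¹]) (τ : L)
    (hτ0 : τ ≠ 0)
    (hspan : ∀ i k, (f i).coeff k ≠ 0 → τ ^ k ∈ Submodule.span K (Set.range b)) :
    ∃ X : Fin 2 × Fin (N + 1) → K[T;T⁻¹],
      (∀ (s : Kˣ) i, vec b (pt X s) i = val (f i) (algebraMap K L s * τ)) ∧
      ∀ i k, (f i).coeff k ≠ 0 → ∃ j, (X (i, j)).coeff k ≠ 0 := by
  classical
  have h1 : ∀ i k, ∃ d : Fin (N + 1) → K, (f i).coeff k ≠ 0 → ∑ j, d j • b j = τ ^ k := by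
    intro i k
    by_cases h : (f i).coeff k ≠ 0
    · obtain ⟨d, hd⟩ := (Submodule.mem_span_range_iff_exists_fun _).mp (hspan i k h)
      exact ⟨d, fun _ => hd⟩
    · exact ⟨0, fun h' => absurd h' h⟩
  choose d hd using h1
  let X : Fin 2 × Fin (N + 1) → K[T;T⁻¹] := fun p => ∑ k ∈ (f p.1).coeff.support,
    AddMonoidAlgebra.single k ((f p.1).coeff k * d p.1 k p.2)
  have hXc : ∀ i j k, (X (i, j)).coeff k = (f i).coeff k * d i k j := by
    intro i j k
    simp only [X]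
    rw [AddMonoidAlgebra.coeff_sum, Finsupp.finsetSum_apply]
    simp only [AddMonoidAlgebra.coeff_single, Finsupp.single_apply]
    rw [Finset.sum_ite_eq']
    split_ifs with h
    · rfl
    · rw [Finsupp.notMem_support_iff.mp h, zero_mul]
  refine ⟨X, ?_, ?_⟩
  · intro s i
    have h2 : ∀ j, pt X s (i, j) = ∑ k ∈ (f i).coeff.support,
        ((f i).coeff k * d i k j) * (s : K) ^ k := by
      intro j
      simp only [pt, X]
      rw [map_sum]
      apply Finset.sum_congr rfl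
      intro k _
      rw [LaurentPolynomial.single_eq_C_mul_T, map_mul, evU_C, evU_T, Units.val_zpow_eq_zpow_val]
    simp only [vec, h2, val]
    simp only [Finset.sum_smul]
    rw [Finset.sum_comm]
    apply Finset.sum_congr rfl
    intro k hk
    have h3 := hd i k (Finsupp.mem_support_iff.mp hk)
    rw [mul_zpow, ← h3, Finset.mul_sum, Finset.mul_sum]
    apply Finset.sum_congr rfl
    intro j _
    rw [Algebra.smul_def, Algebra.smul_def, map_mul, map_mul, map_zpow₀]
    ring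
  · intro i k hk
    by_contra hno
    push Not at hno
    have h3 := hd i k hk
    have h4 : ∀ j, d i k j = 0 := by
      intro j
      have h5 := hno j
      rw [hXc, mul_eq_zero] at h5
      exact h5.resolve_left hk
    simp only [h4, zero_smul, Finset.sum_const_zero] at h3
    exact zpow_ne_zero k hτ0 h3.symm

theorem exists_coeff_ne (g : K[T;T⁻¹]) (hg : g ∉ Set.range (algebraMap K K[T;T⁻¹])) :
    ∃ e : ℤ, e ≠ 0 ∧ g.coeff e ≠ 0 := by
  by_contra hno
  push Not at hno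
  apply hg
  refine ⟨g.coeff 0, ?_⟩
  ext e
  by_cases he : e = 0
  · rw [he, coeff_algebraMap_zero]
  · rw [coeff_algebraMap _ _ he, hno e he]

theorem val_eq_evF (f : K[T;T⁻¹]) (x : L) (hx : x ≠ 0) : val f x = evF x hx f := by
  rw [evF_eq_sum]
  rfl

theorem totalDegree_aeval_le {ι κ : Type*} (g : ι → MvPolynomial κ L)
    (hg : ∀ i, (g i).totalDegree ≤ 1) (P : MvPolynomial ι K) :
    (aeval g P).totalDegree ≤ P.totalDegree := by
  classical
  rw [aeval_def, eval₂_eq]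
  refine (totalDegree_finsetSum _ _).trans (Finset.sup_le fun m hm => ?_)
  refine (totalDegree_mul _ _).trans ?_
  have h1 : (algebraMap K (MvPolynomial κ L) (coeff m P)).totalDegree = 0 := by
    rw [IsScalarTower.algebraMap_apply K L (MvPolynomial κ L), MvPolynomial.algebraMap_eq]
    exact totalDegree_C _
  rw [h1, zero_add]
  refine (totalDegree_finsetProd _ _).trans ?_
  refine le_trans ?_ (le_totalDegree hm)
  rw [Finsupp.sum]
  apply Finset.sum_le_sum
  intro i _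
  refine (totalDegree_pow _ _).trans ?_
  calc m i * (g i).totalDegree ≤ m i * 1 := Nat.mul_le_mul_left _ (hg i)
    _ = m i := mul_one _

/-- the zero set is defined by polynomials of degree at most `D` -/
theorem exists_equations {N : ℕ} (b : Fin (N + 1) → L) (P : MvPolynomial (Fin 2) K) (D : ℕ)
    (hD : P.totalDegree ≤ D) : ∃ F : Set (MvPolynomial (Fin 2 × Fin (N + 1)) K),
      (∀ f ∈ F, f.totalDegree ≤ D) ∧
      ∀ x, (∀ f ∈ F, eval x f = 0) ↔ aeval (vec b x) P = 0 := by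
  classical
  let g : Fin 2 → MvPolynomial (Fin 2 × Fin (N + 1)) L := fun i => ∑ j, C (b j) * X (i, j)
  have hg : ∀ i, (g i).totalDegree ≤ 1 := by
    intro i
    refine (totalDegree_finsetSum _ _).trans (Finset.sup_le fun j _ => ?_)
    refine (totalDegree_mul _ _).trans ?_
    rw [totalDegree_C, totalDegree_X]
  let Q : MvPolynomial (Fin 2 × Fin (N + 1)) L := aeval g P
  have hQ : Q.totalDegree ≤ D := (totalDegree_aeval_le g hg P).trans hD
  let F : Module.Dual K L → MvPolynomial (Fin 2 × Fin (N + 1)) K := fun μ =>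
    ∑ m ∈ Q.support, monomial m (μ (Q.coeff m))
  have hF : ∀ μ x, eval x (F μ) = μ (aeval (vec b x) P) := by
    intro μ x
    have h1 : aeval (vec b x) P = eval (fun p => algebraMap K L (x p)) Q := by
      have h2 := MvPolynomial.comp_aeval_apply (R := K) g
        (((MvPolynomial.aeval (fun p => algebraMap K L (x p)) :
          MvPolynomial (Fin 2 × Fin (N + 1)) L →ₐ[L] L)).restrictScalars K) P
      have h3 : (fun i => ((MvPolynomial.aeval (fun p => algebraMap K L (x p)) :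
          MvPolynomial (Fin 2 × Fin (N + 1)) L →ₐ[L] L).restrictScalars K) (g i)) = vec b x := by
        funext i
        simp only [g, AlgHom.restrictScalars_apply, map_sum, map_mul, aeval_C, aeval_X, vec]
        apply Finset.sum_congr rfl
        intro j _
        rw [Algebra.smul_def, mul_comm]
        rfl
      rw [h3] at h2
      rw [← h2]
      change (MvPolynomial.aeval (fun p => algebraMap K L (x p)) :
          MvPolynomial (Fin 2 × Fin (N + 1)) L →ₐ[L] L) Q = _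
      exact congrFun (congrArg DFunLike.coe (MvPolynomial.coe_aeval_eq_eval
        (fun p => algebraMap K L (x p)))) Q
    rw [h1, eval_eq (fun p => algebraMap K L (x p)) Q, map_sum]
    simp only [F, map_sum]
    apply Finset.sum_congr rfl
    intro m _
    rw [eval_monomial, Finsupp.prod]
    have h4 : ∏ i ∈ m.support, (algebraMap K L (x i)) ^ m i =
        algebraMap K L (∏ i ∈ m.support, x i ^ m i) := by
      rw [map_prod]
      apply Finset.prod_congr rfl
      intro i _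
      rw [map_pow]
    rw [h4, mul_comm (coeff m Q), ← Algebra.smul_def, map_smul, smul_eq_mul, mul_comm]
  refine ⟨Set.range F, ?_, ?_⟩
  · rintro _ ⟨μ, rfl⟩
    refine (totalDegree_finsetSum _ _).trans (Finset.sup_le fun m hm => ?_)
    refine (totalDegree_monomial_le _ _).trans ?_
    exact (le_totalDegree hm).trans hQ
  · intro x
    rw [← Module.forall_dual_apply_eq_zero_iff K (aeval (vec b x) P)]
    constructor
    · intro h μ
      rw [← hF]
      exact h _ ⟨μ, rfl⟩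
    · rintro h _ ⟨μ, rfl⟩
      rw [hF]
      exact h μ

end coords

section structure_thm

variable {K L : Type} [Field K] [Countable K] [IsAlgClosed K] [CharZero K] [Field L] [Countable L]
  [Algebra K L]

/-- the data of a curve of solutions -/
def Valid {N : ℕ} (b : Fin (N + 1) → L) (P : MvPolynomial (Fin 2) K)
    (p : (Fin 2 → K[T;T⁻¹]) × L) : Prop :=
  MvPolynomial.aeval p.1 P = 0 ∧ (∃ i, p.1 i ∉ Set.range (algebraMap K K[T;T⁻¹])) ∧
    p.2 ∉ Set.range (algebraMap K L) ∧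
    ∀ i k, (p.1 i).coeff k ≠ 0 → p.2 ^ k ∈ Submodule.span K (Set.range b)

omit [Countable K] [CharZero K] [Countable L] in
/-- everything about one curve -/
theorem exists_curve {N : ℕ} (b : Fin (N + 1) → L) (hb : LinearIndependent K b) (hb0 : b 0 = 1)
    (P : MvPolynomial (Fin 2) K)
    (H1 : ∀ f : Fin 2 → Polynomial K, MvPolynomial.aeval f P = 0 →
      ∀ i, f i ∈ Set.range (algebraMap K (Polynomial K)))
    (p : (Fin 2 → K[T;T⁻¹]) × L) (hp : Valid b P p) :
    ∃ X : Fin 2 × Fin (N + 1) → K[T;T⁻¹], TwoSided X ∧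
      (∀ x, x ∈ Set.range (pt X) ↔
        ∃ s : K, s ≠ 0 ∧ ∀ i, vec b x i = val (p.1 i) (algebraMap K L s * p.2)) ∧
      ∀ s, aeval (vec b (pt X s)) P = 0 ∧ ∃ q : Fin 2 × Fin (N + 1), q.2 ≠ 0 ∧ pt X s q ≠ 0 := by
  classical
  obtain ⟨f, τ⟩ := p
  obtain ⟨hf, ⟨i₀, hi₀⟩, hτ, hτs⟩ := hp
  simp only at hf hi₀ hτ hτs ⊢
  have hτ0 : τ ≠ 0 := by
    rintro rfl
    exact hτ ⟨0, map_zero _⟩
  obtain ⟨X, hX, hXc⟩ := exists_coords b f τ hτ0 hτs
  have hne : ∃ i, ∃ e : ℤ, e ≠ 0 ∧ (f i).coeff e ≠ 0 := by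
    obtain ⟨e, he, hie⟩ := exists_coeff_ne (f i₀) hi₀
    exact ⟨i₀, e, he, hie⟩
  have hinj : ∀ x y : Fin 2 × Fin (N + 1) → K, (∀ i, vec b x i = vec b y i) → x = y := by
    intro x y h
    funext ⟨i, j⟩
    have h1 := h i
    simp only [vec] at h1
    have h2 := (Fintype.linearIndependent_iff.mp hb) (fun j => x (i, j) - y (i, j)) (by
      simp only [sub_smul, Finset.sum_sub_distrib, h1, sub_self]) j
    exact sub_eq_zero.mp h2
  have hs0 : ∀ s : Kˣ, algebraMap K L s * τ ≠ 0 := fun s => mul_ne_zero (by simp) hτ0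
  have hstr : ∀ s : Kˣ, Transcendental K (algebraMap K L s * τ) := by
    intro s
    apply transcendental_of_not_mem
    rintro ⟨c, hc⟩
    apply hτ
    refine ⟨(s : K)⁻¹ * c, ?_⟩
    rw [map_mul, hc, map_inv₀, ← mul_assoc, inv_mul_cancel₀ (by simp), one_mul]
  refine ⟨X, ⟨?_, ?_⟩, ?_, ?_⟩
  · obtain ⟨i, e, he, hie⟩ := signs P H1 f hf hne
    obtain ⟨j, hj⟩ := hXc i e hie
    exact ⟨(i, j), e, he, hj⟩
  · obtain ⟨i, e, he, hie⟩ := signs' P H1 f hf hne
    obtain ⟨j, hj⟩ := hXc i e hie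
    exact ⟨(i, j), e, he, hj⟩
  · intro x
    constructor
    · rintro ⟨s, rfl⟩
      exact ⟨s, s.ne_zero, fun i => hX s i⟩
    · rintro ⟨s, hs, h⟩
      refine ⟨Units.mk0 s hs, ?_⟩
      apply hinj
      intro i
      rw [hX, h]
      rfl
  · intro s
    have h1 : vec b (pt X s) = fun i => evF _ (hs0 s) (f i) := by
      funext i
      rw [hX, val_eq_evF _ _ (hs0 s)]
    refine ⟨?_, ?_⟩
    · rw [h1]
      have h2 := MvPolynomial.comp_aeval_apply (R := K) f (evF _ (hs0 s)) P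
      rw [hf, map_zero] at h2
      exact h2.symm
    · by_contra hno
      push Not at hno
      apply hi₀
      have h2 := congrFun h1 i₀
      have h3 : vec b (pt X s) i₀ = algebraMap K L (pt X s (i₀, 0)) := by
        rw [vec, Finset.sum_eq_single 0]
        · rw [hb0, Algebra.smul_def, mul_one]
        · intro j _ hj
          rw [hno (i₀, j) hj, zero_smul]
        · intro h
          exact absurd (Finset.mem_univ _) h
      rw [h3] at h2
      refine ⟨pt X s (i₀, 0), ?_⟩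
      apply evF_injective _ (hs0 s) (hstr s)
      rw [AlgHom.commutes, h2]

omit [IsAlgClosed K] [CharZero K] in
theorem countable_laurent : Countable K[T;T⁻¹] := by
  have h : Function.Injective (fun p : K[T;T⁻¹] => (p.coeff : ℤ →₀ K)) := by
    intro p q hpq
    ext e
    exact congrArg (fun z : ℤ →₀ K => z e) hpq
  exact h.countable

/-- **The structure theorem.** -/
theorem structure_theorem {N : ℕ} (b : Fin (N + 1) → L) (hb : LinearIndependent K b)
    (hb0 : b 0 = 1) (P : MvPolynomial (Fin 2) K) (hP : P ≠ 0) (D : ℕ) (hD : P.totalDegree ≤ D)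
    (H1 : ∀ f : Fin 2 → Polynomial K, MvPolynomial.aeval f P = 0 →
      ∀ i, f i ∈ Set.range (algebraMap K (Polynomial K))) :
    ∃ (Φ : Finset ((Fin 2 → K[T;T⁻¹]) × L)) (E : Finset (Fin 2 × Fin (N + 1) → K)),
      Φ.card ≤ D ^ (2 * (N + 1)) ∧ E.card ≤ D ^ (2 * (N + 1)) ∧ (∀ p ∈ Φ, Valid b P p) ∧
      (∀ x ∈ E, aeval (vec b x) P = 0 ∧ ∃ q : Fin 2 × Fin (N + 1), q.2 ≠ 0 ∧ x q ≠ 0) ∧
      ∀ x, aeval (vec b x) P = 0 → (∃ q : Fin 2 × Fin (N + 1), q.2 ≠ 0 ∧ x q ≠ 0) →
        x ∈ E ∨ ∃ p ∈ Φ, ∃ s : K, s ≠ 0 ∧ ∀ i, vec b x i = val (p.1 i) (algebraMap K L s * p.2) := by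
  classical
  rcases Nat.eq_zero_or_pos D with rfl | hDpos
  · refine ⟨∅, ∅, by simp, by simp, by simp, by simp, fun x hx => ?_⟩
    exfalso
    obtain hc := totalDegree_eq_zero_iff_eq_C.mp (Nat.le_zero.mp hD)
    rw [hc, aeval_C, map_eq_zero] at hx
    apply hP
    rw [hc, hx, map_zero]
  have hcl : Countable K[T;T⁻¹] := countable_laurent
  let O : {p : (Fin 2 → K[T;T⁻¹]) × L // Valid b P p} → Set (Fin 2 × Fin (N + 1) → K) :=
    fun p => {x | ∃ s : K, s ≠ 0 ∧ ∀ i, vec b x i = val (p.1.1 i) (algebraMap K L s * p.1.2)}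
  let Y : Set (Fin 2 × Fin (N + 1) → K) :=
    {x | aeval (vec b x) P = 0 ∧ ∃ q : Fin 2 × Fin (N + 1), q.2 ≠ 0 ∧ x q ≠ 0}
  obtain ⟨F₀, hF₀⟩ := finite_cover Y O (by
    intro S hSY hS
    let S' : Set (Fin 2 → Fin (N + 1) → K) := {σ | (fun q : Fin 2 × Fin (N + 1) => σ q.1 q.2) ∈ S}
    have hmap : ∀ x : Fin 2 × Fin (N + 1) → K, x ∈ S → (fun i j => x (i, j)) ∈ S' := fun x hx => hx
    have hS' : S'.Infinite := by
      intro hfin
      apply hS
      apply (hfin.image (fun σ => fun q : Fin 2 × Fin (N + 1) => σ q.1 q.2)).subset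
      intro x hx
      exact ⟨fun i j => x (i, j), hmap x hx, rfl⟩
    obtain ⟨f, hf, hfn, τ, hτ, hτe, hinf⟩ := generic2 b hb hb0 P hP H1 S' hS'
      (fun σ hσ => (hSY hσ).1) (fun σ hσ => by
        obtain ⟨q, hq, hq'⟩ := (hSY hσ).2
        exact ⟨q.1, q.2, hq, hq'⟩)
    refine ⟨⟨(f, τ), hf, hfn, hτ, hτe⟩, fun hfin => hinf ?_⟩
    apply (hfin.image (fun x => fun (i : Fin 2) (j : Fin (N + 1)) => x (i, j))).subset
    rintro σ ⟨hσ, s, hs, h⟩
    exact ⟨fun q => σ q.1 q.2, ⟨hσ, s, hs, h⟩, rfl⟩)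
  -- a minimal family
  have hex : ∃ n, ∃ F : Finset {p : (Fin 2 → K[T;T⁻¹]) × L // Valid b P p},
      F.card = n ∧ (Y \ ⋃ i ∈ F, O i).Finite := ⟨_, F₀, rfl, hF₀⟩
  obtain ⟨F, hFcard, hF⟩ := Nat.find_spec hex
  have hmin : ∀ a ∈ F, ¬ (Y \ ⋃ i ∈ F.erase a, O i).Finite := by
    intro a ha hfin
    refine Nat.find_min hex ?_ ⟨F.erase a, rfl, hfin⟩
    rw [← hFcard]
    exact Finset.card_erase_lt_of_mem ha
  have hsep : ∀ a ∈ F, ∀ b' ∈ F, a ≠ b' → ∃ x ∈ O a, x ∉ O b' := by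
    intro a ha b' hb' hab
    by_contra hno
    push Not at hno
    apply hmin a ha
    apply hF.subset
    rintro x ⟨hxY, hx⟩
    refine ⟨hxY, fun h => hx ?_⟩
    rw [Set.mem_iUnion₂] at h ⊢
    obtain ⟨c, hc, hxc⟩ := h
    by_cases hca : c = a
    · subst hca
      exact ⟨b', Finset.mem_erase.mpr ⟨hab.symm, hb'⟩, hno x hxc⟩
    · exact ⟨c, Finset.mem_erase.mpr ⟨hca, hc⟩, hxc⟩
  choose X hX2 hXr hXs using fun p : {p : (Fin 2 → K[T;T⁻¹]) × L // Valid b P p} =>
    exists_curve b hb hb0 P H1 p.1 p.2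
  have hXO : ∀ p x, x ∈ Set.range (pt (X p)) ↔ x ∈ O p := fun p x => hXr p x
  obtain ⟨Eq, hEqD, hEq⟩ := exists_equations b P D hD
  have hcard : Fintype.card (Fin 2 × Fin (N + 1)) = 2 * (N + 1) := by
    rw [Fintype.card_prod, Fintype.card_fin, Fintype.card_fin]
  let E : Finset (Fin 2 × Fin (N + 1) → K) := hF.toFinset
  have hEmem : ∀ x, x ∈ E ↔ x ∈ Y ∧ ∀ a ∈ F, x ∉ O a := by
    intro x
    rw [Set.Finite.mem_toFinset, Set.mem_sdiff, Set.mem_iUnion₂]
    push Not
    rfl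
  let I : Set (Fin 2 × Fin (N + 1)) := {q | q.2 ≠ 0}
  have hcov : ∀ x, (∀ f ∈ Eq, eval x f = 0) → (∃ p ∈ I, x p ≠ 0) →
      x ∈ E ∨ ∃ a : F, x ∈ Set.range (pt (X a)) := by
    intro x h1 h2
    have hxY : x ∈ Y := ⟨(hEq x).mp h1, h2⟩
    by_cases h3 : ∀ a ∈ F, x ∉ O a
    · left
      exact (hEmem x).mpr ⟨hxY, h3⟩
    · right
      push Not at h3
      obtain ⟨a, ha, hxa⟩ := h3
      exact ⟨⟨a, ha⟩, (hXO a x).mpr hxa⟩
  have hEX : ∀ x ∈ E, ∀ a : F, x ∉ Set.range (pt (X a)) := by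
    intro x hx a h
    exact ((hEmem x).mp hx).2 a a.2 ((hXO a x).mp h)
  have hc1 := count_points D Eq hEqD I (fun a : F => X a) (fun a => hX2 a) E (by
    intro x hx
    obtain ⟨h1, -⟩ := (hEmem x).mp hx
    exact ⟨(hEq x).mpr h1.1, h1.2⟩) hEX hcov
  have hc2 := count_curves D hDpos Eq hEqD I (fun a : F => X a) (fun a => hX2 a) E (by
    intro a s
    exact ⟨(hEq _).mpr (hXs a s).1, (hXs a s).2⟩) hEX hcov (by
    intro a a' haa'
    obtain ⟨x, hx, hx'⟩ := hsep a a.2 a' a'.2 (fun h => haa' (Subtype.ext h))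
    obtain ⟨s, rfl⟩ := (hXO a x).mpr hx
    exact ⟨s, fun h => hx' ((hXO a' _).mp h)⟩)
  rw [hcard] at hc1 hc2
  refine ⟨F.image Subtype.val, E, ?_, hc1, ?_, ?_, ?_⟩
  · refine Finset.card_image_le.trans ?_
    rwa [Fintype.card_coe] at hc2
  · intro p hp
    obtain ⟨q, hq, rfl⟩ := Finset.mem_image.mp hp
    exact q.2
  · intro x hx
    exact ((hEmem x).mp hx).1
  · intro x h1 h2
    rcases hcov x ((hEq x).mpr h1) h2 with h3 | ⟨a, ha⟩
    · exact Or.inl h3
    · right
      exact ⟨a.1.1, Finset.mem_image.mpr ⟨a.1, a.2, rfl⟩, (hXO a x).mp ha⟩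

end structure_thm

end Pool.Agent.Zk18
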