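import Pool.Agent.Zk18.Cnt3
import Pool.Agent.Zk18.Str2

/-!
# The points of a smooth plane curve with homogeneous coordinates in a given space
-/

set_option autoImplicit false

attribute [-instance] HahnSeries.powerSeriesAlgebra

namespace Pool.Agent.Zk18.Md

open MvPolynomial

section

variable {K Ω : Type} [Field K] [Field Ω] [Algebra K Ω]

/-- the vector with given coordinates -/
noncomputable def yv {r N : ℕ} (b : Fin N → Ω) (x : Fin r × Fin N → K) (i : Fin r) : Ω :=
  ∑ j, x (i, j) • b j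

/-- the zero set is defined by polynomials of degree at most `D` -/
theorem exists_equations' {r N : ℕ} (b : Fin N → Ω) (P : MvPolynomial (Fin r) K) (D : ℕ)
    (hD : P.totalDegree ≤ D) : ∃ F : Set (MvPolynomial (Fin r × Fin N) K),
      (∀ f ∈ F, f.totalDegree ≤ D) ∧
      ∀ x, (∀ f ∈ F, eval x f = 0) ↔ aeval (yv b x) P = 0 := by
  classical
  let g : Fin r → MvPolynomial (Fin r × Fin N) Ω := fun i => ∑ j, C (b j) * X (i, j)
  have hg : ∀ i, (g i).totalDegree ≤ 1 := by
    intro i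
    refine (totalDegree_finsetSum _ _).trans (Finset.sup_le fun j _ => ?_)
    refine (totalDegree_mul _ _).trans ?_
    rw [totalDegree_C, totalDegree_X]
  let Q : MvPolynomial (Fin r × Fin N) Ω := aeval g P
  have hQ : Q.totalDegree ≤ D := (totalDegree_aeval_le g hg P).trans hD
  let F : Module.Dual K Ω → MvPolynomial (Fin r × Fin N) K := fun μ =>
    ∑ m ∈ Q.support, monomial m (μ (Q.coeff m))
  have hF : ∀ μ x, eval x (F μ) = μ (aeval (yv b x) P) := by
    intro μ x
    have h1 : aeval (yv b x) P = eval (fun p => algebraMap K Ω (x p)) Q := by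
      have h2 := MvPolynomial.comp_aeval_apply (R := K) g
        (((MvPolynomial.aeval (fun p => algebraMap K Ω (x p)) :
          MvPolynomial (Fin r × Fin N) Ω →ₐ[Ω] Ω)).restrictScalars K) P
      have h3 : (fun i => ((MvPolynomial.aeval (fun p => algebraMap K Ω (x p)) :
          MvPolynomial (Fin r × Fin N) Ω →ₐ[Ω] Ω).restrictScalars K) (g i)) = yv b x := by
        funext i
        simp only [g, AlgHom.restrictScalars_apply, map_sum, map_mul, aeval_C, aeval_X, yv]
        apply Finset.sum_congr rfl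
        intro j _
        rw [Algebra.smul_def, mul_comm]
        rfl
      rw [h3] at h2
      rw [← h2]
      change (MvPolynomial.aeval (fun p => algebraMap K Ω (x p)) :
          MvPolynomial (Fin r × Fin N) Ω →ₐ[Ω] Ω) Q = _
      exact congrFun (congrArg DFunLike.coe (MvPolynomial.coe_aeval_eq_eval
        (fun p => algebraMap K Ω (x p)))) Q
    rw [h1, eval_eq (fun p => algebraMap K Ω (x p)) Q, map_sum]
    simp only [map_sum]
    apply Finset.sum_congr rfl
    intro m _
    rw [eval_monomial, Finsupp.prod]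
    have h4 : ∏ i ∈ m.support, (algebraMap K Ω (x i)) ^ m i =
        algebraMap K Ω (∏ i ∈ m.support, x i ^ m i) := by
      rw [map_prod]
      apply Finset.prod_congr rfl
      intro i _
      rw [map_pow]
    rw [h4, mul_comm (coeff m Q), ← Algebra.smul_def, map_smul, smul_eq_mul, mul_comm]
  refine ⟨Set.range F, ?_, ?_⟩
  · rintro _ ⟨μ, rfl⟩
    refine (totalDegree_finsetSum _ _).trans (Finset.sup_le fun m hm => ?_)
    refine (totalDegree_monomial_le _ _).trans ?_
    exact (le_totalDegree hm).trans hQ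
  · intro x
    rw [← Module.forall_dual_apply_eq_zero_iff K (aeval (yv b x) P)]
    constructor
    · intro h μ
      rw [← hF]
      exact h _ ⟨μ, rfl⟩
    · rintro h _ ⟨μ, rfl⟩
      rw [hF]
      exact h μ

theorem yv_injective {r N : ℕ} (b : Fin N → Ω) (hb : LinearIndependent K b)
    (x x' : Fin r × Fin N → K) (h : ∀ i, yv b x i = yv b x' i) : x = x' := by
  funext ⟨i, j⟩
  have h1 := h i
  simp only [yv] at h1
  have h2 := (Fintype.linearIndependent_iff.mp hb) (fun j => x (i, j) - x' (i, j)) (by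
    simp only [sub_smul, Finset.sum_sub_distrib, h1, sub_self]) j
  exact sub_eq_zero.mp h2

theorem yv_add {r N : ℕ} (b : Fin N → Ω) (x x' : Fin r × Fin N → K) (i : Fin r) :
    yv b (x + x') i = yv b x i + yv b x' i := by
  simp only [yv, Pi.add_apply, add_smul, Finset.sum_add_distrib]

theorem yv_smul {r N : ℕ} (b : Fin N → Ω) (c : K) (x : Fin r × Fin N → K) (i : Fin r) :
    yv b (c • x) i = algebraMap K Ω c * yv b x i := by
  simp only [yv, Pi.smul_apply, smul_eq_mul, mul_smul]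
  rw [← Finset.smul_sum, Algebra.smul_def]

theorem yv_zero {r N : ℕ} (b : Fin N → Ω) (i : Fin r) : yv b (0 : Fin r × Fin N → K) i = 0 := by
  simp [yv]

/-- the multiples of a point -/
noncomputable def Lam {r N : ℕ} (b : Fin N → Ω) (y : Fin r → Ω) :
    Submodule K (Fin r × Fin N → K) where
  carrier := {x | ∃ c : Ω, ∀ i, yv b x i = c * y i}
  add_mem' := by
    rintro x x' ⟨c, hc⟩ ⟨c', hc'⟩
    exact ⟨c + c', fun i => by rw [yv_add, hc, hc', add_mul]⟩
  zero_mem' := ⟨0, fun i => by rw [yv_zero, zero_mul]⟩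
  smul_mem' := by
    rintro k x ⟨c, hc⟩
    exact ⟨algebraMap K Ω k * c, fun i => by rw [yv_smul, hc, mul_assoc]⟩

theorem mem_Lam {r N : ℕ} (b : Fin N → Ω) (y : Fin r → Ω) (x : Fin r × Fin N → K) :
    x ∈ Lam b y ↔ ∃ c : Ω, ∀ i, yv b x i = c * y i := Iff.rfl

/-- the rank is at least two -/
def Rk2 {r N : ℕ} (x : Fin r × Fin N → K) : Prop :=
  ∃ i k j l, x (i, j) * x (k, l) ≠ x (k, j) * x (i, l)

theorem not_rk2 {r N : ℕ} (b : Fin N → Ω) (x : Fin r × Fin N → K)
    (h : ¬ Rk2 x) : ∃ (l : Ω) (α : Fin r → K), ∀ i, yv b x i = l * algebraMap K Ω (α i) := by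
  rw [Rk2] at h
  push Not at h
  by_cases h0 : ∃ a c, x (a, c) ≠ 0
  · obtain ⟨a, c, hac⟩ := h0
    have hac' : algebraMap K Ω (x (a, c)) ≠ 0 := by
      rw [Ne, map_eq_zero]
      exact hac
    refine ⟨yv b x a / algebraMap K Ω (x (a, c)), fun i => x (i, c), fun i => ?_⟩
    rw [div_mul_eq_mul_div, eq_div_iff hac', yv, yv, Finset.sum_mul, Finset.sum_mul]
    apply Finset.sum_congr rfl
    intro j _
    have h1 := congrArg (algebraMap K Ω) (h i a j c)
    rw [map_mul, map_mul] at h1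
    rw [Algebra.smul_def, Algebra.smul_def]
    linear_combination b j * h1
  · push Not at h0
    refine ⟨0, fun _ => 0, fun i => ?_⟩
    rw [zero_mul, yv]
    apply Finset.sum_eq_zero
    intro j _
    rw [h0 i j, zero_smul]

theorem rk2_imp {r N : ℕ} (b : Fin N → Ω) (hb : LinearIndependent K b)
    (x : Fin r × Fin N → K) (hx : Rk2 x) :
    ¬ ∃ (l : Ω) (α : Fin r → K), ∀ i, yv b x i = l * algebraMap K Ω (α i) := by
  rintro ⟨l, α, hα⟩
  have h1 : ∀ i k j, x (i, j) * α k = x (k, j) * α i := by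
    intro i k j
    have h2 := (Fintype.linearIndependent_iff.mp hb)
      (fun j => x (i, j) * α k - x (k, j) * α i) (by
        have e1 : ∑ j, (x (i, j) * α k - x (k, j) * α i) • b j =
            yv b x i * algebraMap K Ω (α k) - yv b x k * algebraMap K Ω (α i) := by
          rw [yv, yv, Finset.sum_mul, Finset.sum_mul, ← Finset.sum_sub_distrib]
          apply Finset.sum_congr rfl
          intro j _
          rw [Algebra.smul_def, Algebra.smul_def, Algebra.smul_def, map_sub, map_mul, map_mul]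
          ring
        rw [e1, hα i, hα k]
        ring) j
    exact sub_eq_zero.mp h2
  obtain ⟨i, k, j, j', hne⟩ := hx
  apply hne
  by_cases h0 : ∃ a, α a ≠ 0
  · obtain ⟨a, ha⟩ := h0
    have e1 := h1 i a j
    have e2 := h1 k a j'
    have e3 := h1 k a j
    have e4 := h1 i a j'
    apply mul_right_cancel₀ (mul_ne_zero ha ha)
    linear_combination (x (k, j') * α a) * e1 + x (a, j) * α i * e2 - x (i, j') * α a * e3 -
        x (a, j) * α k * e4
  · push Not at h0
    have h2 : ∀ i j, x (i, j) = 0 := by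
      intro i j
      have h3 := (Fintype.linearIndependent_iff.mp hb) (fun j => x (i, j)) (by
        have h4 := hα i
        rw [h0 i, map_zero, mul_zero] at h4
        exact h4) j
      exact h3
    rw [h2, h2, h2, zero_mul, zero_mul]

/-- **The points.** -/
theorem points [Countable K] [CharZero K] [IsAlgClosed K] [IsAlgClosed Ω]
    {N : ℕ} (b : Fin N → Ω) (hb : LinearIndependent K b)
    (F : MvPolynomial (Fin 3) K) (d : ℕ) (hd : 4 ≤ d) (hF : F.IsHomogeneous d) (hs : Smooth F) :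
    ∃ T : Finset (Fin 3 × Fin N → K),
      (∀ x ∈ T, aeval (yv b x) F = 0 ∧ Rk2 x) ∧
      (∀ x : Fin 3 × Fin N → K, aeval (yv b x) F = 0 → Rk2 x → ∃ τ ∈ T, ∃ c : Ω, c ≠ 0 ∧
        ∀ i, yv b x i = c * yv b τ i) ∧
      T.card ≤ N * d ^ (3 * N) ∧
      ((∀ τ ∈ T, ∀ x : Fin 3 × Fin N → K, x ∈ Lam b (yv b τ) → ∃ k : K, x = k • τ) →
        T.card ≤ d ^ (3 * N)) := by
  classical
  let Sol : Set (Fin 3 × Fin N → K) := {x | aeval (yv b x) F = 0 ∧ Rk2 x}
  have hne0 : ∀ x : Fin 3 × Fin N → K, Rk2 x → ∃ a, yv b x a ≠ 0 := by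
    intro x hx
    by_contra hno
    push Not at hno
    exact rk2_imp b hb x hx ⟨0, fun _ => 0, fun i => by rw [hno i, zero_mul]⟩
  let rel : Setoid Sol :=
    { r := fun x x' => ∃ c : Ω, c ≠ 0 ∧ ∀ i, yv b x.1 i = c * yv b x'.1 i
      iseqv :=
        { refl := fun x => ⟨1, one_ne_zero, fun i => (one_mul _).symm⟩
          symm := by
            rintro x x' ⟨c, hc, h⟩
            refine ⟨c⁻¹, inv_ne_zero hc, fun i => ?_⟩
            rw [h, ← mul_assoc, inv_mul_cancel₀ hc, one_mul]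
          trans := by
            rintro x x' x'' ⟨c, hc, h⟩ ⟨c', hc', h'⟩
            refine ⟨c * c', mul_ne_zero hc hc', fun i => ?_⟩
            rw [h, h', mul_assoc] } }
  let rep : Quotient rel → (Fin 3 × Fin N → K) := fun q => q.out.1
  have hrep : ∀ q, rep q ∈ Sol := fun q => q.out.2
  have hprop : ∀ q q', (∀ i k, yv b (rep q) i * yv b (rep q') k =
      yv b (rep q) k * yv b (rep q') i) → q = q' := by
    intro q q' h
    obtain ⟨a, ha⟩ := hne0 (rep q') (hrep q').2
    obtain ⟨a₂, ha₂⟩ := hne0 (rep q) (hrep q).2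
    have h1 : ∀ i, yv b (rep q) i = (yv b (rep q) a / yv b (rep q') a) * yv b (rep q') i := by
      intro i
      rw [div_mul_eq_mul_div, eq_div_iff ha]
      exact h i a
    have h2 : yv b (rep q) a / yv b (rep q') a ≠ 0 := by
      intro h0
      apply ha₂
      rw [h1 a₂, h0, zero_mul]
    have h3 : rel.r q.out q'.out := ⟨_, h2, h1⟩
    calc q = Quotient.mk rel q.out := (Quotient.out_eq q).symm
      _ = Quotient.mk rel q'.out := Quotient.sound h3
      _ = q' := Quotient.out_eq q'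
  have hcur : ∀ x : Fin 3 × Fin N → K, (fun i => ∑ j, (fun i j => x (i, j)) i j • b j) = yv b x :=
    fun x => rfl
  have hfin : (Set.range (fun q => fun (i : Fin 3) (j : Fin N) => rep q (i, j))).Finite := by
    apply finite_all b hb F d hd hF hs
    · rintro _ ⟨q, rfl⟩
      exact (hrep q).1
    · rintro _ ⟨q, rfl⟩ _ ⟨q', rfl⟩ h
      have h1 : q = q' := hprop q q' h
      rw [h1]
    · rintro _ ⟨q, rfl⟩
      obtain ⟨i, k, j, l, h⟩ := (hrep q).2
      exact ⟨i, k, j, l, h⟩
  have hfin' : (Set.range rep).Finite := by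
    refine (hfin.image (fun σ => fun p : Fin 3 × Fin N => σ p.1 p.2)).subset ?_
    rintro _ ⟨q, rfl⟩
    exact ⟨_, ⟨q, rfl⟩, rfl⟩
  let T : Finset (Fin 3 × Fin N → K) := hfin'.toFinset
  have hTmem : ∀ x, x ∈ T ↔ ∃ q, rep q = x := by
    intro x
    rw [Set.Finite.mem_toFinset]
    rfl
  have hTSol : ∀ x ∈ T, x ∈ Sol := by
    intro x hx
    obtain ⟨q, rfl⟩ := (hTmem x).mp hx
    exact hrep q
  have hcovT : ∀ x : Fin 3 × Fin N → K, aeval (yv b x) F = 0 → Rk2 x → ∃ τ ∈ T, ∃ c : Ω, c ≠ 0 ∧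
      ∀ i, yv b x i = c * yv b τ i := by
    intro x h1 h2
    let x' : Sol := ⟨x, h1, h2⟩
    refine ⟨rep (Quotient.mk rel x'), (hTmem _).mpr ⟨_, rfl⟩, ?_⟩
    have h3 : rel.r x' (Quotient.mk rel x').out := rel.symm (Quotient.mk_out x')
    exact h3
  -- the data for the count
  obtain ⟨Fs, hFsd, hFs⟩ := exists_equations' (r := 3) b F d hF.totalDegree_le
  let Mn : Set (MvPolynomial (Fin 3 × Fin N) K) :=
    {g | ∃ i k j l, g = X (i, j) * X (k, l) - X (k, j) * X (i, l)}
  have hMn' : ∀ x : Fin 3 × Fin N → K, (∃ g ∈ Mn, eval x g ≠ 0) ↔ Rk2 x := by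
    intro x
    constructor
    · rintro ⟨_, ⟨i, k, j, l, rfl⟩, h⟩
      refine ⟨i, k, j, l, ?_⟩
      rw [map_sub, map_mul, map_mul, eval_X, eval_X, eval_X, eval_X, sub_ne_zero] at h
      exact h
    · rintro ⟨i, k, j, l, h⟩
      refine ⟨_, ⟨i, k, j, l, rfl⟩, ?_⟩
      rw [map_sub, map_mul, map_mul, eval_X, eval_X, eval_X, eval_X, sub_ne_zero]
      exact h
  let Λ : T → Submodule K (Fin 3 × Fin N → K) := fun τ => Lam b (yv b τ.1)
  have hcne : ∀ (τ : T) x, x ∈ Λ τ → x ≠ 0 → ∃ c : Ω, c ≠ 0 ∧ ∀ i, yv b x i = c * yv b τ.1 i := by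
    rintro τ x ⟨c, hc⟩ hx
    refine ⟨c, ?_, hc⟩
    rintro rfl
    apply hx
    apply yv_injective b hb
    intro i
    rw [hc, zero_mul, yv_zero]
  have hdisj : ∀ p p' : T, p ≠ p' → ∀ x, x ∈ Λ p → x ∈ Λ p' → x = 0 := by
    intro p p' hpp' x hx hx'
    by_contra h0
    obtain ⟨c, hc, h1⟩ := hcne p x hx h0
    obtain ⟨c', hc', h2⟩ := hcne p' x hx' h0
    apply hpp'
    obtain ⟨q, hq⟩ := (hTmem p).mp p.2
    obtain ⟨q', hq'⟩ := (hTmem p').mp p'.2
    have h3 : q = q' := by
      apply hprop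
      intro i k
      rw [hq, hq']
      have e1 := h1 i
      have e2 := h1 k
      have e3 := h2 i
      have e4 := h2 k
      rw [e3] at e1
      rw [e4] at e2
      apply mul_left_cancel₀ (mul_ne_zero hc hc')
      linear_combination (c * yv b p.1 i) * e2 - (c * yv b p.1 k) * e1
    apply Subtype.ext
    rw [← hq, ← hq', h3]
  have hzero : ∀ (p : T), ∀ x ∈ Λ p, ∀ f ∈ Fs, eval x f = 0 := by
    rintro p x ⟨c, hc⟩
    rw [hFs]
    have h1 : yv b x = fun i => c * yv b p.1 i := funext hc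
    rw [h1, aeval_mul_of_homogeneous F d hF, (hTSol p p.2).1, mul_zero]
  have hMn : ∀ (p : T), ∀ x ∈ Λ p, x ≠ 0 → ∃ g ∈ Mn, eval x g ≠ 0 := by
    intro p x hx hx0
    rw [hMn']
    by_contra hno
    obtain ⟨l, α, hα⟩ := not_rk2 b x hno
    obtain ⟨c, hc, h1⟩ := hcne p x hx hx0
    apply rk2_imp b hb p.1 (hTSol p p.2).2
    refine ⟨c⁻¹ * l, α, fun i => ?_⟩
    rw [mul_assoc, ← hα, h1, ← mul_assoc, inv_mul_cancel₀ hc, one_mul]
  have hcov : ∀ x, (∀ f ∈ Fs, eval x f = 0) → (∃ g ∈ Mn, eval x g ≠ 0) → ∃ p, x ∈ Λ p := by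
    intro x h1 h2
    obtain ⟨τ, hτ, c, -, h3⟩ := hcovT x ((hFs x).mp h1) ((hMn' x).mp h2)
    exact ⟨⟨τ, hτ⟩, c, h3⟩
  have hcard : Fintype.card (Fin 3 × Fin N) = 3 * N := by
    rw [Fintype.card_prod, Fintype.card_fin, Fintype.card_fin]
  have hcount : ∀ k, 1 ≤ k → ∀ G : Finset T, (∀ p ∈ G, Module.finrank K (Λ p) = k) →
      G.card ≤ d ^ (3 * N) := by
    intro k hk G hG
    have h1 := count_subspaces d (by omega) Fs hFsd Mn Λ hdisj hzero hMn hcov k hk G hG
    rwa [hcard] at h1
  have hself : ∀ p : T, p.1 ∈ Λ p := fun p => ⟨1, fun i => (one_mul _).symm⟩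
  have hp0 : ∀ p : T, p.1 ≠ 0 := by
    intro p h
    obtain ⟨a, ha⟩ := hne0 p.1 (hTSol p p.2).2
    apply ha
    rw [h, yv_zero]
  have hpos : ∀ p : T, 1 ≤ Module.finrank K (Λ p) := by
    intro p
    rw [Nat.one_le_iff_ne_zero]
    intro h
    have h1 := Submodule.finrank_eq_zero.mp h
    apply hp0 p
    have h2 := hself p
    rw [h1] at h2
    exact (Submodule.mem_bot K).mp h2
  have hle : ∀ p : T, Module.finrank K (Λ p) ≤ N := by
    intro p
    obtain ⟨a, ha⟩ := hne0 p.1 (hTSol p p.2).2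
    let f : Λ p →ₗ[K] (Fin N → K) :=
      (LinearMap.pi (fun j => LinearMap.proj (R := K) (φ := fun _ : Fin 3 × Fin N => K) (a, j))).comp
        (Λ p).subtype
    have hf : Function.Injective f := by
      rw [injective_iff_map_eq_zero]
      rintro ⟨x, c, hc⟩ hx
      have h1 : ∀ j, x (a, j) = 0 := fun j => congrFun hx j
      have h2 : c = 0 := by
        have h3 := hc a
        rw [yv] at h3
        simp only [h1, zero_smul, Finset.sum_const_zero] at h3
        exact (mul_eq_zero.mp h3.symm).resolve_right ha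
      apply Subtype.ext
      apply yv_injective b hb
      intro i
      rw [hc, h2, zero_mul]
      exact (yv_zero b i).symm
    have h4 := LinearMap.finrank_le_finrank_of_injective hf
    rwa [Module.finrank_fin_fun] at h4
  refine ⟨T, hTSol, hcovT, ?_, ?_⟩
  · have h1 : (Finset.univ : Finset T).card = ∑ k ∈ Finset.Icc 1 N,
        ((Finset.univ : Finset T).filter (fun p => Module.finrank K (Λ p) = k)).card := by
      apply Finset.card_eq_sum_card_fiberwise
      intro p _
      rw [Finset.mem_coe, Finset.mem_Icc]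
      exact ⟨hpos p, hle p⟩
    rw [Finset.card_univ, Fintype.card_coe] at h1
    rw [h1]
    refine (Finset.sum_le_card_nsmul _ _ (d ^ (3 * N)) ?_).trans ?_
    · intro k hk
      apply hcount k (Finset.mem_Icc.mp hk).1
      intro p hp
      exact (Finset.mem_filter.mp hp).2
    · rw [Nat.card_Icc, smul_eq_mul, Nat.add_sub_cancel]
  · intro h
    have h1 := hcount 1 le_rfl Finset.univ (by
      intro p _
      rw [finrank_eq_one_iff']
      refine ⟨⟨p.1, hself p⟩, ?_, ?_⟩
      · intro h0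
        exact hp0 p (congrArg Subtype.val h0)
      · rintro ⟨x, hx⟩
        obtain ⟨k, hk⟩ := h p.1 p.2 x hx
        exact ⟨k, Subtype.ext hk.symm⟩)
    rwa [Finset.card_univ, Fintype.card_coe] at h1

end

end Pool.Agent.Zk18.Md
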