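import Pool.Agent.Zk18.Mor
import Pool.Agent.Zk18.Lin3
import Pool.Agent.Zk18.Cx

/-!
# Points of smooth plane curves with homogeneous coordinates in a space of complex numbers
-/

set_option autoImplicit false

attribute [-instance] HahnSeries.powerSeriesAlgebra

namespace Pool.Agent.Zk18.Md

open MvPolynomial

/-- **The main theorem.** -/
theorem main (V : Submodule (algebraicClosure ℚ ℂ) ℂ) [FiniteDimensional (algebraicClosure ℚ ℂ) V]
    (M : ℕ) (hM : Module.finrank (algebraicClosure ℚ ℂ) V ≤ M)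
    (F : MvPolynomial (Fin 3) (algebraicClosure ℚ ℂ)) (d : ℕ) (hd : 4 ≤ d)
    (hF : F.IsHomogeneous d)
    (hs : ∀ x : Fin 3 → algebraicClosure ℚ ℂ, (∀ k, eval x (pderiv k F) = 0) → x = 0) :
    ∃ T : Finset (Fin 3 → ℂ),
      (∀ t ∈ T, (∀ i, t i ∈ V) ∧ aeval t F = 0 ∧
        ¬ ∃ (c : ℂ) (a : Fin 3 → algebraicClosure ℚ ℂ), ∀ i, t i = c * a i) ∧
      (∀ u : Fin 3 → ℂ, (∀ i, u i ∈ V) → aeval u F = 0 →
        (¬ ∃ (c : ℂ) (a : Fin 3 → algebraicClosure ℚ ℂ), ∀ i, u i = c * a i) →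
        ∃ t ∈ T, ∃ c : ℂ, ∀ i, u i = c * t i) ∧
      T.card ≤ M * d ^ (3 * M) ∧
      ((V : Set ℂ) ⊆ Pool.Agent.H301R2.SSE.Lt → T.card ≤ d ^ (3 * M) ∧
        (∀ u : Fin 3 → ℂ, (∀ i, u i ∈ V) → aeval u F = 0 →
          (¬ ∃ (c : ℂ) (a : Fin 3 → algebraicClosure ℚ ℂ), ∀ i, u i = c * a i) →
          ∀ c : ℂ, (∀ i, c * u i ∈ V) → ∃ k : algebraicClosure ℚ ℂ, c = k)) := by
  classical
  have hcl : IsAlgClosed (algebraicClosure ℚ ℂ) := Pool.Agent.N770.isAlgClosed_QB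
  have hcou : Countable (algebraicClosure ℚ ℂ) := Pool.Agent.Zk18.Cx.countable_QB
  have hs' : Smooth F := smooth_of F hs
  set N := Module.finrank (algebraicClosure ℚ ℂ) V with hN
  let b' := Module.finBasis (algebraicClosure ℚ ℂ) V
  let b : Fin N → ℂ := fun j => (b' j : ℂ)
  have hb : LinearIndependent (algebraicClosure ℚ ℂ) b :=
    b'.linearIndependent.map' V.subtype (Submodule.ker_subtype V)
  obtain ⟨T, hT1, hT2, hT3, hT4⟩ := points b hb F d hd hF hs'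
  have hyV : ∀ (x : Fin 3 × Fin N → algebraicClosure ℚ ℂ) i, yv b x i ∈ V := by
    intro x i
    exact Submodule.sum_mem _ fun j _ => Submodule.smul_mem _ _ (b' j).2
  have hcoord : ∀ u : Fin 3 → ℂ, (∀ i, u i ∈ V) →
      ∃ x : Fin 3 × Fin N → algebraicClosure ℚ ℂ, yv b x = u := by
    intro u hu
    refine ⟨fun p => b'.repr ⟨u p.1, hu p.1⟩ p.2, ?_⟩
    funext i
    have h1 := b'.sum_repr ⟨u i, hu i⟩
    have h2 := congrArg (Subtype.val : V → ℂ) h1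
    rw [AddSubmonoidClass.coe_finsetSum] at h2
    exact h2
  have hrk : ∀ x : Fin 3 × Fin N → algebraicClosure ℚ ℂ,
      (¬ ∃ (c : ℂ) (a : Fin 3 → algebraicClosure ℚ ℂ), ∀ i, yv b x i = c * a i) → Rk2 x := by
    intro x hx
    by_contra h
    exact hx (not_rk2 b x h)
  have hrk' : ∀ x : Fin 3 × Fin N → algebraicClosure ℚ ℂ, Rk2 x →
      ¬ ∃ (c : ℂ) (a : Fin 3 → algebraicClosure ℚ ℂ), ∀ i, yv b x i = c * a i :=
    fun x hx => rk2_imp b hb x hx
  have hd0 : 1 ≤ d := by omega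
  have hpow : d ^ (3 * N) ≤ d ^ (3 * M) := Nat.pow_le_pow_right hd0 (by omega)
  refine ⟨T.image (yv b), ?_, ?_, ?_, ?_⟩
  · intro t ht
    obtain ⟨τ, hτ, rfl⟩ := Finset.mem_image.mp ht
    exact ⟨hyV τ, (hT1 τ hτ).1, hrk' τ (hT1 τ hτ).2⟩
  · intro u hu hFu hna
    obtain ⟨x, rfl⟩ := hcoord u hu
    obtain ⟨τ, hτ, c, -, hc⟩ := hT2 x hFu (hrk x hna)
    exact ⟨yv b τ, Finset.mem_image_of_mem _ hτ, c, hc⟩
  · refine Finset.card_image_le.trans (hT3.trans ?_)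
    exact Nat.mul_le_mul hM hpow
  · intro hVL
    have huniq : ∀ u : Fin 3 → ℂ, (∀ i, u i ∈ V) → aeval u F = 0 →
        (¬ ∃ (c : ℂ) (a : Fin 3 → algebraicClosure ℚ ℂ), ∀ i, u i = c * a i) →
        ∀ c : ℂ, (∀ i, c * u i ∈ V) → ∃ k : algebraicClosure ℚ ℂ, c = k := by
      intro u hu hFu hna c hc
      by_contra hno
      push Not at hno
      refine Pool.Agent.N770.six c hno u ?_ ?_ ?_
      · exact linearIndependent_of_zero F d (by omega) hF hs' u hFu hna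
      · exact fun j => hVL (hu j)
      · exact fun j => hVL (hc j)
    refine ⟨Finset.card_image_le.trans ((hT4 ?_).trans hpow), huniq⟩
    rintro τ hτ x ⟨c, hc⟩
    obtain ⟨k, rfl⟩ := huniq (yv b τ) (hyV τ) (hT1 τ hτ).1 (hrk' τ (hT1 τ hτ).2) c (by
      intro i
      rw [← hc i]
      exact hyV x i)
    refine ⟨k, ?_⟩
    apply yv_injective b hb
    intro i
    rw [yv_smul, hc i]
    rfl

end Pool.Agent.Zk18.Md
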