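import Pool.Agent.Zk18.Gen
import Pool.Agent.Zk18.Bez

/-!
# Orbits of Laurent points
-/

set_option autoImplicit false

attribute [-instance] HahnSeries.powerSeriesAlgebra

namespace Pool.Agent.Zk18

open TensorProduct Filter
open scoped LaurentPolynomial

section laurent

variable {K : Type*} [Field K]

theorem mem_range_toLaurent (z : K[T;T⁻¹]) (h : ∀ e : ℤ, e < 0 → z.coeff e = 0) :
    z ∈ Set.range (Polynomial.toLaurent (R := K)) := by
  refine ⟨∑ k ∈ z.coeff.support, Polynomial.C (z.coeff k) * Polynomial.X ^ k.toNat, ?_⟩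
  rw [map_sum]
  have h1 : z = ∑ k ∈ z.coeff.support, AddMonoidAlgebra.single k (z.coeff k) := by
    ext n
    rw [AddMonoidAlgebra.coeff_sum, Finsupp.finsetSum_apply]
    simp only [AddMonoidAlgebra.coeff_single, Finsupp.single_apply]
    rw [Finset.sum_ite_eq']
    split_ifs with h
    · rfl
    · exact Finsupp.notMem_support_iff.mp h
  conv_rhs => rw [h1]
  apply Finset.sum_congr rfl
  intro k hk
  have hk0 : 0 ≤ k := by
    by_contra hneg
    push Not at hneg
    exact (Finsupp.mem_support_iff.mp hk) (h k hneg)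
  rw [LaurentPolynomial.single_eq_C_mul_T, map_mul, Polynomial.toLaurent_C, map_pow,
    Polynomial.toLaurent_X, LaurentPolynomial.T_pow, mul_one, Int.toNat_of_nonneg hk0]

theorem toLaurent_coeff_neg (p : Polynomial K) (e : ℤ) (he : e < 0) :
    (Polynomial.toLaurent p).coeff e = 0 := by
  induction p using Polynomial.induction_on' with
  | add p q hp hq =>
    rw [map_add, AddMonoidAlgebra.coeff_add, Finsupp.add_apply, hp, hq, add_zero]
  | monomial n a =>
    have h1 : Polynomial.toLaurent (Polynomial.monomial n a) =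
        AddMonoidAlgebra.single (n : ℤ) a := by
      rw [← Polynomial.C_mul_X_pow_eq_monomial, map_mul, Polynomial.toLaurent_C, map_pow,
        Polynomial.toLaurent_X, LaurentPolynomial.T_pow, mul_one,
        LaurentPolynomial.single_eq_C_mul_T]
    rw [h1, AddMonoidAlgebra.coeff_single, Finsupp.single_apply, if_neg]
    omega

theorem notMem_range_of_neg (z : K[T;T⁻¹]) (e : ℤ) (he : e < 0) (h : z.coeff e ≠ 0) :
    z ∉ Set.range (Polynomial.toLaurent (R := K)) := by
  rintro ⟨p, rfl⟩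
  exact h (toLaurent_coeff_neg p e he)

theorem notMem_range_of_pos (z : K[T;T⁻¹]) (e : ℤ) (he : 0 < e) (h : z.coeff e ≠ 0) :
    LaurentPolynomial.invert z ∉ Set.range (Polynomial.toLaurent (R := K)) := by
  apply notMem_range_of_neg _ (-e) (by omega)
  rw [LaurentPolynomial.invert_apply, neg_neg]
  exact h

theorem signs (P : MvPolynomial (Fin 2) K)
    (H1 : ∀ f : Fin 2 → Polynomial K, MvPolynomial.aeval f P = 0 →
      ∀ i, f i ∈ Set.range (algebraMap K (Polynomial K)))
    (f : Fin 2 → K[T;T⁻¹]) (hf : MvPolynomial.aeval f P = 0)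
    (hn : ∃ i, ∃ e : ℤ, e ≠ 0 ∧ (f i).coeff e ≠ 0) : ∃ i, ∃ e : ℤ, e < 0 ∧ (f i).coeff e ≠ 0 := by
  by_contra hno
  push Not at hno
  have h1 : ∀ i, ∃ g, Polynomial.toLaurent g = f i := fun i =>
    mem_range_toLaurent (f i) (fun e he => hno i e he)
  choose g hg using h1
  have h2 : MvPolynomial.aeval g P = 0 := by
    apply Polynomial.toLaurent_injective
    rw [map_zero]
    have h3 := MvPolynomial.comp_aeval_apply (R := K) g
      (Polynomial.toLaurentAlg : Polynomial K →ₐ[K] K[T;T⁻¹]) P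
    have h4 : (fun i => (Polynomial.toLaurentAlg : Polynomial K →ₐ[K] K[T;T⁻¹]) (g i)) = f := by
      funext i
      exact hg i
    rw [h4, hf] at h3
    exact h3
  obtain ⟨i, e, he, hie⟩ := hn
  obtain ⟨k, hk⟩ := H1 g h2 i
  apply hie
  rw [← hg i, ← hk, Polynomial.algebraMap_eq, Polynomial.toLaurent_C]
  have h4 : (LaurentPolynomial.C k : K[T;T⁻¹]) = AddMonoidAlgebra.single 0 k := by
    rw [LaurentPolynomial.single_eq_C_mul_T, LaurentPolynomial.T_zero, mul_one]
  rw [h4, AddMonoidAlgebra.coeff_single, Finsupp.single_apply, if_neg (Ne.symm he)]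

theorem signs' (P : MvPolynomial (Fin 2) K)
    (H1 : ∀ f : Fin 2 → Polynomial K, MvPolynomial.aeval f P = 0 →
      ∀ i, f i ∈ Set.range (algebraMap K (Polynomial K)))
    (f : Fin 2 → K[T;T⁻¹]) (hf : MvPolynomial.aeval f P = 0)
    (hn : ∃ i, ∃ e : ℤ, e ≠ 0 ∧ (f i).coeff e ≠ 0) : ∃ i, ∃ e : ℤ, 0 < e ∧ (f i).coeff e ≠ 0 := by
  obtain ⟨i, e, he, hie⟩ := signs P H1 (fun i => LaurentPolynomial.invert (f i)) (by
    have h3 := MvPolynomial.comp_aeval_apply (R := K) f
      (LaurentPolynomial.invert (R := K) : K[T;T⁻¹] →ₐ[K] K[T;T⁻¹]) P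
    rw [hf, map_zero] at h3
    exact h3.symm) (by
    obtain ⟨i, e, he, hie⟩ := hn
    refine ⟨i, -e, by omega, ?_⟩
    rw [LaurentPolynomial.invert_apply, neg_neg]
    exact hie)
  refine ⟨i, -e, by omega, ?_⟩
  rw [LaurentPolynomial.invert_apply] at hie
  exact hie

theorem isIntegral_T1 (B : Subalgebra K K[T;T⁻¹]) {h : K[T;T⁻¹]} (hB : h ∈ B)
    (hn : LaurentPolynomial.invert h ∉ Set.range (Polynomial.toLaurent (R := K))) :
    IsIntegral B (LaurentPolynomial.T 1 : K[T;T⁻¹]) := by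
  obtain ⟨p, n, hlt, hpn⟩ := exists_rel h hn
  exact isIntegral_of_rel B hB p n hlt (by rw [← toLaurent_eq_aeval, hpn])

theorem isIntegral_T2 (B : Subalgebra K K[T;T⁻¹]) {h : K[T;T⁻¹]} (hB : h ∈ B)
    (hp : h ∉ Set.range (Polynomial.toLaurent (R := K))) :
    IsIntegral B (LaurentPolynomial.T (-1) : K[T;T⁻¹]) := by
  obtain ⟨p, n, hlt, hpn⟩ := exists_rel (LaurentPolynomial.invert h) (by
    rwa [LaurentPolynomial.involutive_invert h])
  refine isIntegral_of_rel B hB p n hlt ?_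
  have h1 := congrArg (LaurentPolynomial.invert (R := K)) hpn
  rw [map_mul, LaurentPolynomial.involutive_invert h, map_pow, LaurentPolynomial.invert_T,
    toLaurent_eq_aeval] at h1
  rw [← h1]
  have h2 := Polynomial.aeval_algHom_apply (LaurentPolynomial.invert : K[T;T⁻¹] ≃ₐ[K] K[T;T⁻¹])
    (LaurentPolynomial.T 1) p
  rw [LaurentPolynomial.invert_T] at h2
  exact h2

theorem integral_laurent (B : Subalgebra K K[T;T⁻¹])
    (h1 : IsIntegral B (LaurentPolynomial.T 1 : K[T;T⁻¹]))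
    (h2 : IsIntegral B (LaurentPolynomial.T (-1) : K[T;T⁻¹])) :
    Algebra.IsIntegral B K[T;T⁻¹] := by
  constructor
  intro x
  have hT : ∀ n : ℤ, IsIntegral B (LaurentPolynomial.T n : K[T;T⁻¹]) := by
    intro n
    rcases le_total 0 n with hn | hn
    · obtain ⟨k, rfl⟩ := Int.eq_ofNat_of_zero_le hn
      have := h1.pow k
      rw [LaurentPolynomial.T_pow, mul_one] at this
      exact this
    · obtain ⟨k, hk⟩ := Int.eq_ofNat_of_zero_le (neg_nonneg.mpr hn)
      have := h2.pow k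
      rw [LaurentPolynomial.T_pow] at this
      have h3 : n = (k : ℤ) * -1 := by rw [← hk]; ring
      rw [h3]
      exact this
  induction x using LaurentPolynomial.induction_on' with
  | add p q hp hq => exact hp.add hq
  | C_mul_T n a =>
    refine IsIntegral.mul ?_ (hT n)
    exact isIntegral_algebraMap (R := B) (x := algebraMap K B a)

/-- The image of a finite map is closed. -/
theorem closed_image [IsAlgClosed K] {ι : Type*} (X : ι → K[T;T⁻¹])
    (hneg : ∃ i, ∃ e : ℤ, e < 0 ∧ (X i).coeff e ≠ 0)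
    (hpos : ∃ i, ∃ e : ℤ, 0 < e ∧ (X i).coeff e ≠ 0) (σ : ι → K)
    (hσ : ∀ F : MvPolynomial ι K, MvPolynomial.aeval X F = 0 → MvPolynomial.eval σ F = 0) :
    ∃ s : Kˣ, ∀ i, σ i = evU s (X i) := by
  classical
  let π : MvPolynomial ι K →ₐ[K] K[T;T⁻¹] := MvPolynomial.aeval X
  have hXB : ∀ i, X i ∈ π.range := fun i => ⟨MvPolynomial.X i, MvPolynomial.aeval_X X i⟩
  obtain ⟨i₁, e₁, he₁, hie₁⟩ := hneg
  obtain ⟨i₂, e₂, he₂, hie₂⟩ := hpos
  have hint : Algebra.IsIntegral π.range K[T;T⁻¹] := integral_laurent π.range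
    (isIntegral_T1 π.range (hXB i₂) (notMem_range_of_pos _ e₂ he₂ hie₂))
    (isIntegral_T2 π.range (hXB i₁) (notMem_range_of_neg _ e₁ he₁ hie₁))
  -- the maximal ideal
  let πr : MvPolynomial ι K →ₐ[K] π.range := π.rangeRestrict
  have hπr : Function.Surjective πr := π.rangeRestrict_surjective
  let m : Ideal π.range := Ideal.map πr (Bez.mI σ)
  have hker : RingHom.ker πr ≤ Bez.mI σ := by
    intro F hF
    rw [Bez.mem_mI]
    apply hσ
    have h1 : πr F = 0 := hF
    exact congrArg Subtype.val h1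
  have hmp : m.IsPrime := Ideal.map_isPrime_of_surjective hπr hker
  obtain ⟨Q, -, hQp, hQm⟩ := Ideal.exists_ideal_over_prime_of_isIntegral m
    (⊥ : Ideal K[T;T⁻¹]) (by
      intro x hx
      rw [Ideal.mem_comap, Ideal.mem_bot] at hx
      have h1 : x = 0 := Subtype.ext hx
      rw [h1]
      exact m.zero_mem)
  have hmem : ∀ F, F ∈ Bez.mI σ → π F ∈ Q := by
    intro F hF
    have h1 : πr F ∈ m := Ideal.mem_map_of_mem _ hF
    rw [← hQm, Ideal.mem_comap] at h1
    exact h1
  have hdom : IsDomain (K[T;T⁻¹] ⧸ Q) := Ideal.Quotient.isDomain Q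
  have hintK : Algebra.IsIntegral K (K[T;T⁻¹] ⧸ Q) := by
    constructor
    intro c
    obtain ⟨c, rfl⟩ := Ideal.Quotient.mk_surjective c
    obtain ⟨p, hp, hpc⟩ := hint.isIntegral c
    let ψ : π.range →+* K[T;T⁻¹] ⧸ Q := (Ideal.Quotient.mk Q).comp (algebraMap π.range K[T;T⁻¹])
    have hlift : p.map ψ ∈ Polynomial.lifts (algebraMap K (K[T;T⁻¹] ⧸ Q)) := by
      rw [Polynomial.lifts_iff_coeff_lifts]
      intro n
      rw [Polynomial.coeff_map]
      obtain ⟨F, hF⟩ := hπr (p.coeff n)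
      refine ⟨MvPolynomial.eval σ F, ?_⟩
      rw [← hF]
      change Ideal.Quotient.mk Q (algebraMap K K[T;T⁻¹] (MvPolynomial.eval σ F)) =
        Ideal.Quotient.mk Q (π F)
      rw [Ideal.Quotient.eq]
      have h1 : (MvPolynomial.C (MvPolynomial.eval σ F) - F : MvPolynomial ι K) ∈ Bez.mI σ := by
        rw [Bez.mem_mI, map_sub, MvPolynomial.eval_C, sub_self]
      have h2 := hmem _ h1
      rw [map_sub] at h2
      have h3 : π (MvPolynomial.C (MvPolynomial.eval σ F)) =
          algebraMap K K[T;T⁻¹] (MvPolynomial.eval σ F) := π.commutes _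
      rwa [h3] at h2
    obtain ⟨q, hq, -, hqm⟩ := Polynomial.lifts_and_natDegree_eq_and_monic hlift (hp.map ψ)
    refine ⟨q, hqm, ?_⟩
    rw [← Polynomial.eval_map, hq, Polynomial.eval_map]
    have h1 : Polynomial.eval₂ ψ (Ideal.Quotient.mk Q c) p =
        Ideal.Quotient.mk Q (Polynomial.eval₂ (algebraMap π.range K[T;T⁻¹]) c p) := by
      rw [Polynomial.hom_eval₂]
    rw [h1, hpc, map_zero]
  have hbij := IsAlgClosed.algebraMap_bijective_of_isIntegral (k := K) (K := K[T;T⁻¹] ⧸ Q)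
  obtain ⟨s, hs⟩ := hbij.2 (Ideal.Quotient.mk Q (LaurentPolynomial.T 1))
  have hs0 : s ≠ 0 := by
    rintro rfl
    rw [map_zero] at hs
    have h1 : (LaurentPolynomial.T 1 : K[T;T⁻¹]) ∈ Q := Ideal.Quotient.eq_zero_iff_mem.mp hs.symm
    exact hQp.ne_top (Ideal.eq_top_of_isUnit_mem _ h1 (LaurentPolynomial.isUnit_T 1))
  let u : Kˣ := Units.mk0 s hs0
  have hall : ∀ z : K[T;T⁻¹], Ideal.Quotient.mk Q z = algebraMap K (K[T;T⁻¹] ⧸ Q) (evU u z) := by
    have hTn : ∀ n : ℤ, Ideal.Quotient.mk Q (LaurentPolynomial.T n) =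
        algebraMap K (K[T;T⁻¹] ⧸ Q) ((u ^ n : Kˣ) : K) := by
      have hnat : ∀ n : ℕ, Ideal.Quotient.mk Q (LaurentPolynomial.T (n : ℤ)) =
          algebraMap K (K[T;T⁻¹] ⧸ Q) (s ^ n) := by
        intro n
        have h1 : (LaurentPolynomial.T (n : ℤ) : K[T;T⁻¹]) = LaurentPolynomial.T 1 ^ n := by
          rw [LaurentPolynomial.T_pow, mul_one]
        rw [h1, map_pow, ← hs, map_pow]
      intro n
      rcases le_total 0 n with hn | hn
      · obtain ⟨k, rfl⟩ := Int.eq_ofNat_of_zero_le hn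
        rw [hnat, zpow_natCast, Units.val_pow_eq_pow_val]
        rfl
      · obtain ⟨k, hk⟩ := Int.eq_ofNat_of_zero_le (neg_nonneg.mpr hn)
        obtain rfl : n = -(k : ℤ) := by rw [← hk]; ring
        have h1 : Ideal.Quotient.mk Q (LaurentPolynomial.T (-(k : ℤ))) *
            algebraMap K (K[T;T⁻¹] ⧸ Q) (s ^ k) = 1 := by
          rw [← hnat, ← map_mul, ← LaurentPolynomial.T_add, neg_add_cancel,
            LaurentPolynomial.T_zero, map_one]
        have h2 : algebraMap K (K[T;T⁻¹] ⧸ Q) ((u ^ (-(k : ℤ)) : Kˣ) : K) *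
            algebraMap K (K[T;T⁻¹] ⧸ Q) (s ^ k) = 1 := by
          rw [← map_mul]
          have h3 : ((u ^ (-(k : ℤ)) : Kˣ) : K) * s ^ k = 1 := by
            rw [zpow_neg, zpow_natCast, Units.val_inv_eq_inv_val, Units.val_pow_eq_pow_val]
            exact inv_mul_cancel₀ (pow_ne_zero _ hs0)
          rw [h3, map_one]
        have h3 : algebraMap K (K[T;T⁻¹] ⧸ Q) (s ^ k) ≠ 0 := by
          intro h
          rw [h, mul_zero] at h1
          exact zero_ne_one h1
        exact mul_right_cancel₀ h3 (h1.trans h2.symm)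
    intro z
    induction z using LaurentPolynomial.induction_on' with
    | add p q hp hq => rw [map_add, map_add, hp, hq, map_add]
    | C_mul_T n a =>
      rw [map_mul, map_mul, hTn, evU_C, evU_T, map_mul]
      rfl
  refine ⟨u, fun i => ?_⟩
  have h1 : Ideal.Quotient.mk Q (X i) = algebraMap K (K[T;T⁻¹] ⧸ Q) (σ i) := by
    have h2 : (MvPolynomial.X i - MvPolynomial.C (σ i) : MvPolynomial ι K) ∈ Bez.mI σ := by
      rw [Bez.mem_mI]
      simp
    have h3 := hmem _ h2
    rw [← Ideal.Quotient.eq_zero_iff_mem, map_sub, map_sub, sub_eq_zero] at h3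
    have h4 : π (MvPolynomial.X i) = X i := MvPolynomial.aeval_X _ _
    have h5 : π (MvPolynomial.C (σ i)) = algebraMap K K[T;T⁻¹] (σ i) := π.commutes _
    rw [h4, h5] at h3
    exact h3
  rw [hall] at h1
  exact (hbij.1 h1).symm

end laurent

end Pool.Agent.Zk18
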