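import Pool.Agent.Zk18.Arc

/-!
# Places of a function field of one variable with a given pole
-/

set_option autoImplicit false

attribute [-instance] HahnSeries.powerSeriesAlgebra

namespace Pool.Agent.Zk18.Md

open HahnSeries hiding C
open Pool.Agent.Helper165.P1 Polynomial IntermediateField

section

variable {E : Type} [Field E]

/-- the uniformizer -/
noncomputable def uni : Pui E := ⟨single 1 1, single_mem_Pui 1 1⟩

theorem uni_coe : ((uni : Pui E) : HQ E) = single 1 1 := rfl

theorem vP_uni : vP E (uni : Pui E) = ((1 : ℚ) : WithTop ℚ) := by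
  rw [vP_apply]
  exact orderTop_single one_ne_zero

theorem uni_mul_tinv : (uni : Pui E) * tinv = 1 := by
  apply Subtype.ext
  change single (1 : ℚ) (1 : E) * single (-1 : ℚ) (1 : E) = 1
  rw [single_mul_single]
  norm_num

theorem uni_ne_zero : (uni : Pui E) ≠ 0 := by
  intro h
  have := uni_mul_tinv (E := E)
  rw [h, zero_mul] at this
  exact zero_ne_one this

theorem vP_aeval_nonneg (T : Pui E) (hT : 0 ≤ vP E T) (f : E[X]) : 0 ≤ vP E (aeval T f) := by
  have hpow : ∀ n : ℕ, 0 ≤ vP E (T ^ n) := by
    intro n
    induction n with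
    | zero => rw [pow_zero, AddValuation.map_one]
    | succ n ih => rw [pow_succ, AddValuation.map_mul]; exact add_nonneg ih hT
  rw [aeval_eq_sum_range]
  apply val_sum
  intro n _
  rw [Algebra.smul_def, AddValuation.map_mul]
  exact add_nonneg (vP_algebraMap_nonneg _) (hpow n)

theorem vP_algebraMap {k : E} (hk : k ≠ 0) : vP E (algebraMap E (Pui E) k) = 0 := by
  rw [vP_apply, coe_algebraMap_Pui]
  exact orderTop_single hk

/-- `t₀ + π` -/
noncomputable def fin (t₀ : E) : Pui E := algebraMap E (Pui E) t₀ + uni

theorem vP_fin_nonneg (t₀ : E) : 0 ≤ vP E (fin t₀) := by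
  refine le_trans (le_min (vP_algebraMap_nonneg t₀) ?_) ((vP E).map_add _ _)
  rw [vP_uni]
  norm_num

theorem vP_aeval_sub (t₀ : E) (f : E[X]) :
    0 < vP E (aeval (fin t₀) f - algebraMap E (Pui E) (f.eval t₀)) := by
  obtain ⟨q, hq⟩ : X - C t₀ ∣ f - C (f.eval t₀) := by
    rw [dvd_iff_isRoot, IsRoot.def, eval_sub, eval_C, sub_self]
  have h1 : aeval (fin t₀) f - algebraMap E (Pui E) (f.eval t₀) = uni * aeval (fin t₀) q := by
    have h2 := congrArg (aeval (fin t₀)) hq
    rw [map_sub, aeval_C, map_mul, map_sub, aeval_X, aeval_C, fin, add_sub_cancel_left] at h2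
    exact h2
  rw [h1, AddValuation.map_mul, vP_uni]
  have h3 := vP_aeval_nonneg (fin t₀) (vP_fin_nonneg t₀) q
  calc (0 : WithTop ℚ) < ((1 : ℚ) : WithTop ℚ) := by exact_mod_cast one_pos
    _ = ((1 : ℚ) : WithTop ℚ) + 0 := (add_zero _).symm
    _ ≤ _ := by gcongr

theorem vP_aeval_pos (t₀ : E) (f : E[X]) (hf : f.eval t₀ = 0) :
    0 < vP E (aeval (fin t₀) f) := by
  have h := vP_aeval_sub t₀ f
  rwa [hf, map_zero, sub_zero] at h

theorem vP_aeval_zero (t₀ : E) (f : E[X]) (hf : f.eval t₀ ≠ 0) :
    vP E (aeval (fin t₀) f) = 0 := by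
  have h := vP_aeval_sub t₀ f
  have h1 : aeval (fin t₀) f = algebraMap E (Pui E) (f.eval t₀) +
      (aeval (fin t₀) f - algebraMap E (Pui E) (f.eval t₀)) := by ring
  have h2 := vP_algebraMap hf
  rw [h1]
  have h3 := AddValuation.map_add_eq_of_lt_left (vP E) (x := algebraMap E (Pui E) (f.eval t₀))
    (y := aeval (fin t₀) f - algebraMap E (Pui E) (f.eval t₀)) (by rw [h2]; exact h)
  rw [h3, h2]

theorem transcendental_fin (t₀ : E) : Transcendental E (fin t₀) := by
  rw [transcendental_iff]
  intro p hp
  by_contra hp0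
  -- write `p = (X - t₀) ^ n * q`
  obtain ⟨q, hq, hq0⟩ := exists_eq_pow_rootMultiplicity_mul_and_not_dvd p hp0 t₀
  have h1 : aeval (fin t₀) q = 0 := by
    rw [hq, map_mul, map_pow, map_sub, aeval_X, aeval_C, fin, add_sub_cancel_left] at hp
    rcases mul_eq_zero.mp hp with h | h
    · exfalso
      exact pow_ne_zero _ uni_ne_zero h
    · exact h
  have h2 : q.eval t₀ ≠ 0 := by
    intro h
    exact hq0 (dvd_iff_isRoot.mpr h)
  have h3 := vP_aeval_zero t₀ q h2
  rw [h1, AddValuation.map_zero] at h3
  exact absurd h3 (by simp)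

/-- a nonconstant polynomial has a pole at infinity -/
theorem vP_aeval_tinv (f : E[X]) (hf : 0 < f.natDegree) : vP E (aeval (tinv : Pui E) f) < 0 := by
  have h1 : ∀ n : ℕ, ((tinv ^ n : Pui E) : HQ E) = single (-(n : ℚ)) 1 := by
    intro n
    rw [SubmonoidClass.coe_pow]
    change (single (-1 : ℚ) (1 : E)) ^ n = _
    rw [single_pow, one_pow]
    congr 1
    simp
  have h2 : ((Polynomial.aeval (tinv : Pui E) f : Pui E) : HQ E) =
      ∑ n ∈ Finset.range (f.natDegree + 1), single (-(n : ℚ)) (f.coeff n) := by
    rw [Polynomial.aeval_eq_sum_range, AddSubmonoidClass.coe_finsetSum]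
    apply Finset.sum_congr rfl
    intro n _
    rw [Algebra.smul_def, Subfield.coe_mul, coe_algebraMap_Pui, h1, C_mul_eq_smul]
    ext q
    simp [coeff_single]
  rw [vP_apply]
  have h3 : (((Polynomial.aeval (tinv : Pui E) f : Pui E) : HQ E)).coeff (-(f.natDegree : ℚ)) ≠ 0 := by
    rw [h2, HahnSeries.coeff_sum, Finset.sum_eq_single f.natDegree]
    · rw [HahnSeries.coeff_single, if_pos rfl]
      intro h
      rw [coeff_natDegree, Polynomial.leadingCoeff_eq_zero] at h
      rw [h, natDegree_zero] at hf
      exact lt_irrefl _ hf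
    · intro m _ hm
      rw [HahnSeries.coeff_single, if_neg]
      intro h
      apply hm
      have : (m : ℚ) = f.natDegree := by linarith
      exact_mod_cast this
    · intro h
      exact absurd (Finset.mem_range.mpr (Nat.lt_succ_self _)) h
  refine lt_of_le_of_lt (orderTop_le_of_coeff_ne_zero h3) ?_
  have : (-(f.natDegree : ℚ)) < 0 := by
    have : (0 : ℚ) < f.natDegree := by exact_mod_cast hf
    linarith
  exact_mod_cast this

/-- a monic polynomial with a nonintegral coefficient has a nonintegral root -/
theorem exists_root_neg {F : Type*} [Field F] [IsAlgClosed F] (v : AddValuation F (WithTop ℚ))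
    (q : F[X]) (hq : q.Monic) (i : ℕ) (hi : v (q.coeff i) < 0) : ∃ y, q.eval y = 0 ∧ v y < 0 := by
  by_contra hno
  push Not at hno
  have h1 : q = (q.roots.map fun a => X - C a).prod := by
    have := (IsAlgClosed.splits q).eq_prod_roots
    rwa [hq.leadingCoeff, C_1, one_mul] at this
  have h2 : ∀ s : Multiset F, (∀ a ∈ s, 0 ≤ v a) → ∀ j,
      0 ≤ v (((s.map fun a => X - C a).prod).coeff j) := by
    intro s
    induction s using Multiset.induction_on with
    | empty =>
      intro _ j
      simp only [Multiset.map_zero, Multiset.prod_zero, Polynomial.coeff_one]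
      split_ifs
      · rw [v.map_one]
      · rw [v.map_zero]; exact le_top
    | cons a s ih =>
      intro hs j
      rw [Multiset.map_cons, Multiset.prod_cons, sub_mul, Polynomial.coeff_sub, coeff_C_mul]
      have ih' := ih fun b hb => hs b (Multiset.mem_cons_of_mem hb)
      refine le_trans (le_min ?_ ?_) (v.map_sub _ _)
      · cases j with
        | zero => rw [coeff_X_mul_zero, v.map_zero]; exact le_top
        | succ j => rw [coeff_X_mul]; exact ih' j
      · rw [v.map_mul]
        exact add_nonneg (hs a (Multiset.mem_cons_self _ _)) (ih' j)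
  have h3 := h2 q.roots (by
    intro a ha
    exact hno a (by rw [mem_roots hq.ne_zero] at ha; exact ha)) i
  rw [← h1] at h3
  exact absurd hi (not_lt.mpr h3)

/-- **Places with a pole.** -/
theorem exists_place [IsAlgClosed E] [CharZero E] {M : Type*} [Field M] [Algebra E M] (t : M)
    [Algebra.IsAlgebraic E⟮t⟯ M] (h : M) (hh : h ∉ Set.range (algebraMap E M)) :
    ∃ j : M →ₐ[E] Pui E, vP E (j h) < 0 ∧ ((∃ t₀, j t = fin t₀) ∨ j t = tinv) := by
  have halg : ∀ z : M, IsAlgebraic E z → z ∈ Set.range (algebraMap E M) := by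
    intro z hz
    have h1 : IsIntegral E z := hz.isIntegral
    have h2 := IsAlgClosed.degree_eq_one_of_irreducible E (minpoly.irreducible h1)
    exact minpoly.mem_range_of_degree_eq_one E z h2
  have ht : Transcendental E t := by
    intro hta
    obtain ⟨e, he⟩ := halg t hta
    have h1 : E⟮t⟯ = ⊥ := by
      rw [← he]
      exact IntermediateField.adjoin_simple_eq_bot_iff.mpr
        ((⊥ : IntermediateField E M).algebraMap_mem e)
    have h2 : IsAlgebraic E⟮t⟯ h := Algebra.IsAlgebraic.isAlgebraic h
    apply hh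
    apply halg
    rw [h1] at h2
    exact (isAlgebraic_algebraMap_iff (R := (⊥ : IntermediateField E M))
      (algebraMap M M).injective).mp (by simpa using h2) |> fun h3 => by
        have h4 : Algebra.IsAlgebraic E (⊥ : IntermediateField E M) := inferInstance
        exact IsAlgebraic.restrictScalars E h3
  set F := E⟮t⟯ with hF
  let e := RatFunc.algEquivOfTranscendental t ht
  have hint : IsIntegral F h := (Algebra.IsAlgebraic.isAlgebraic h).isIntegral
  set p := minpoly F h with hp
  -- a coefficient which is not constant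
  obtain ⟨i, hi⟩ : ∃ i, p.coeff i ∉ Set.range (algebraMap E F) := by
    by_contra hno
    push Not at hno
    apply hh
    apply halg
    have h1 : p ∈ Polynomial.lifts (algebraMap E F) := by
      rw [Polynomial.lifts_iff_coeff_lifts]
      exact hno
    obtain ⟨q, hq⟩ := (Polynomial.mem_lifts p).mp h1
    refine ⟨q, ?_, ?_⟩
    · rintro rfl
      rw [Polynomial.map_zero] at hq
      exact minpoly.ne_zero hint hq.symm
    · have h2 := minpoly.aeval F h
      rw [← hp, ← hq, Polynomial.aeval_map_algebraMap] at h2
      exact h2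
  set u := e.symm (p.coeff i) with hu
  have hue : e u = p.coeff i := e.apply_symm_apply _
  -- the embedding
  have key : ∃ T : Pui E, Transcendental E T ∧ ((∃ t₀, T = fin t₀) ∨ T = tinv) ∧
      vP E (aeval T u.num / aeval T u.denom) < 0 := by
    by_cases hd : u.denom.natDegree = 0
    · refine ⟨tinv, tinv_transcendental, Or.inr rfl, ?_⟩
      have h1 : u.denom = 1 := u.monic_denom.natDegree_eq_zero.mp hd
      rw [h1, map_one, div_one]
      apply vP_aeval_tinv
      by_contra h0
      have h2 : u.num.natDegree = 0 := by omega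
      apply hi
      refine ⟨u.num.coeff 0, ?_⟩
      rw [← hue]
      have h3 : u = algebraMap E (RatFunc E) (u.num.coeff 0) := by
        conv_lhs => rw [← u.num_div_denom]
        rw [h1, map_one, div_one]
        conv_lhs => rw [eq_C_of_natDegree_eq_zero h2]
        rw [← Polynomial.algebraMap_eq, ← IsScalarTower.algebraMap_apply]
      conv_rhs => rw [h3]
      rw [AlgEquiv.commutes]
    · obtain ⟨t₀, ht₀⟩ := IsAlgClosed.exists_root u.denom (by
        rw [degree_eq_natDegree u.denom_ne_zero]
        exact_mod_cast hd)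
      refine ⟨fin t₀, transcendental_fin t₀, Or.inl ⟨t₀, rfl⟩, ?_⟩
      have h1 : u.num.eval t₀ ≠ 0 := by
        intro h2
        obtain ⟨a, b, hab⟩ := u.isCoprime_num_denom
        have h3 := congrArg (Polynomial.eval t₀) hab
        rw [eval_add, eval_mul, eval_mul, h2, ht₀, mul_zero, mul_zero, add_zero, eval_one] at h3
        exact zero_ne_one h3
      have h2 := vP_aeval_zero t₀ u.num h1
      have h3 := vP_aeval_pos t₀ u.denom ht₀
      have h4 : aeval (fin t₀) u.denom ≠ 0 := by
        intro h5
        exact u.denom_ne_zero ((transcendental_iff.mp (transcendental_fin t₀)) _ h5)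
      have h5 : vP E (aeval (fin t₀) u.num / aeval (fin t₀) u.denom) +
          vP E (aeval (fin t₀) u.denom) = 0 := by
        rw [← AddValuation.map_mul, div_mul_cancel₀ _ h4, h2]
      by_contra hno
      push Not at hno
      have h6 : 0 < vP E (aeval (fin t₀) u.num / aeval (fin t₀) u.denom) +
          vP E (aeval (fin t₀) u.denom) := by
        calc (0 : WithTop ℚ) < vP E (aeval (fin t₀) u.denom) := h3
          _ = 0 + vP E (aeval (fin t₀) u.denom) := (zero_add _).symm
          _ ≤ _ := by gcongr
      rw [h5] at h6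
      exact lt_irrefl _ h6
  obtain ⟨T, hT, hTt, hTv⟩ := key
  let ι : F →ₐ[E] Pui E := (E⟮T⟯.val).comp
    ((RatFunc.algEquivOfTranscendental T hT).toAlgHom.comp e.symm.toAlgHom)
  have hιt : ∀ x : F, ι x = aeval T (e.symm x).num / aeval T (e.symm x).denom := by
    intro x
    change ((RatFunc.algEquivOfTranscendental T hT (e.symm x) : E⟮T⟯) : Pui E) = _
    rw [RatFunc.algEquivOfTranscendental_apply]
  have hιgen : ι (AdjoinSimple.gen E t) = T := by
    change ((RatFunc.algEquivOfTranscendental T hT (e.symm (AdjoinSimple.gen E t)) : E⟮T⟯) :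
      Pui E) = _
    rw [RatFunc.algEquivOfTranscendental_symm_gen, RatFunc.algEquivOfTranscendental_X]
  let : Algebra F (Pui E) := ι.toRingHom.toAlgebra
  have hAlg : ∀ x, algebraMap F (Pui E) x = ι x := fun x => rfl
  have hmonic : (p.map (algebraMap F (Pui E))).Monic := (minpoly.monic hint).map _
  obtain ⟨y, hy, hyv⟩ := exists_root_neg (vP E) (p.map (algebraMap F (Pui E))) hmonic i (by
    rw [coeff_map, hAlg, hιt]
    exact hTv)
  obtain ⟨φ, hφ⟩ := IntermediateField.exists_algHom_of_splits_of_aeval (F := F) (E := M)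
    (K := Pui E) (fun s => ⟨(Algebra.IsAlgebraic.isAlgebraic s).isIntegral,
      IsAlgClosed.splits _⟩) (x := h) (y := y) (by
      rw [← eval_map_algebraMap]
      exact hy)
  let j : M →ₐ[E] Pui E :=
    { φ.toRingHom with
      commutes' := by
        intro c
        change φ (algebraMap E M c) = _
        have h1 : algebraMap E M c = algebraMap F M (algebraMap E F c) :=
          IsScalarTower.algebraMap_apply E F M c
        rw [h1, φ.commutes, hAlg, ι.commutes] }
  refine ⟨j, ?_, ?_⟩
  · change vP E (φ h) < 0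
    rw [hφ]
    exact hyv
  · have h1 : j t = T := by
      change φ t = T
      have h2 : t = algebraMap F M (AdjoinSimple.gen E t) := rfl
      rw [h2, φ.commutes, hAlg, hιgen]
    rw [h1]
    exact hTt

end

end Pool.Agent.Zk18.Md
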