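import Pool.Agent.Zk18.Wd
import Mathlib.RingTheory.MvPolynomial.EulerIdentity

/-!
# Rigidity for smooth plane curves
-/

set_option autoImplicit false

attribute [-instance] HahnSeries.powerSeriesAlgebra

namespace Pool.Agent.Zk18.Md

open HahnSeries Pool.Agent.Helper165.P1 MvPolynomial IntermediateField

/-- all partial derivatives vanish only at the origin (in every extension) -/
def Smooth {E : Type*} [Field E] (F : MvPolynomial (Fin 3) E) : Prop :=
  ∃ n : ℕ, ∀ i, (X i : MvPolynomial (Fin 3) E) ^ n ∈ Ideal.span (Set.range fun k => pderiv k F)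

theorem Smooth.eq_zero {E : Type*} [Field E] {F : MvPolynomial (Fin 3) E} (hs : Smooth F)
    {R : Type*} [CommRing R] [IsDomain R] [Algebra E R] (x : Fin 3 → R)
    (hx : ∀ k, aeval x (pderiv k F) = 0) : x = 0 := by
  obtain ⟨n, hn⟩ := hs
  funext i
  have h1 : Ideal.span (Set.range fun k => pderiv k F) ≤
      RingHom.ker (aeval x : MvPolynomial (Fin 3) E →ₐ[E] R) := by
    rw [Ideal.span_le]
    rintro _ ⟨k, rfl⟩
    exact hx k
  have h2 := h1 (hn i)
  rw [RingHom.mem_ker, map_pow, aeval_X] at h2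
  exact eq_zero_of_pow_eq_zero h2

/-- homogeneous polynomials -/
theorem aeval_mul_of_homogeneous {E R : Type*} [Field E] [CommRing R] [Algebra E R]
    (G : MvPolynomial (Fin 3) E) (n : ℕ) (hG : G.IsHomogeneous n) (P : R) (x : Fin 3 → R) :
    aeval (fun i => P * x i) G = P ^ n * aeval x G := by
  rw [aeval_def, aeval_def, eval₂_eq, eval₂_eq, Finset.mul_sum]
  apply Finset.sum_congr rfl
  intro m hm
  have h1 : ∏ i ∈ m.support, (P * x i) ^ m i = P ^ n * ∏ i ∈ m.support, x i ^ m i := by
    simp only [mul_pow]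
    rw [Finset.prod_mul_distrib, Finset.prod_pow_eq_pow_sum]
    congr 2
    have h2 := hG (mem_support_iff.mp hm)
    rw [← h2, Finsupp.weight_apply, Finsupp.sum]
    simp
  rw [h1]
  ring

section

variable {E : Type} [Field E] [CharZero E]

/-- the estimate at a place -/
theorem place_estimate (D : E →+ E) (hD : ∀ a b, D (a * b) = D a * b + a * D b) (c : E)
    (F : MvPolynomial (Fin 3) E) (d : ℕ) (hd : 4 ≤ d) (hF : F.IsHomogeneous d) (hs : Smooth F)
    (u : Fin 3 → HahnSeries ℚ E) (hu : u ≠ 0) (hcu : c ≠ 0 → ∀ i, u i ∈ Nn E)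
    (κ : HahnSeries ℚ E)
    (hκ : ∀ k, κ * aeval u (pderiv k F) =
      u (k + 1) * Dh D c (u (k + 2)) - u (k + 2) * Dh D c (u (k + 1))) (a i : Fin 3) :
    0 ≤ (u a ^ (d - 4) * u i * κ).orderTop := by
  classical
  -- the minimal order
  obtain ⟨i₀, -, hi₀⟩ := Finset.exists_min_image Finset.univ (fun i => (u i).orderTop)
    ⟨0, Finset.mem_univ 0⟩
  have hi₀0 : u i₀ ≠ 0 := by
    intro h
    apply hu
    funext i
    have h1 := hi₀ i (Finset.mem_univ i)
    rw [h, orderTop_zero, top_le_iff, orderTop_eq_top] at h1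
    exact h1
  obtain ⟨m, hm⟩ := WithTop.ne_top_iff_exists.mp (orderTop_ne_top.mpr hi₀0)
  let P : HahnSeries ℚ E := single m 1
  let Q : HahnSeries ℚ E := single (-m) 1
  have hPQ : P * Q = 1 := by
    simp only [P, Q]
    rw [single_mul_single]
    simp
  have hP0 : P ≠ 0 := left_ne_zero_of_mul_eq_one hPQ
  let u' : Fin 3 → HahnSeries ℚ E := fun i => Q * u i
  have huu' : ∀ i, u i = P * u' i := by
    intro i
    simp only [u']
    rw [← mul_assoc, hPQ, one_mul]
  have hu'c : ∀ i q, (u' i).coeff q = (u i).coeff (q + m) := by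
    intro i q
    have h2 := coeff_single_mul_add (r := (1 : E)) (x := u i) (a := q + m) (b := -m)
    rw [one_mul] at h2
    rw [← h2]
    congr 1
    ring
  have hu'O : ∀ i, 0 ≤ (u' i).orderTop := by
    intro i
    rw [le_orderTop_iff]
    intro p hp
    rw [hu'c]
    apply coeff_eq_zero_of_lt_orderTop
    refine lt_of_lt_of_le ?_ (hi₀ i (Finset.mem_univ i))
    rw [← hm]
    have h1 : p < 0 := by exact_mod_cast hp
    exact_mod_cast (by linarith : p + m < m)
  have hu'0 : (u' i₀).coeff 0 ≠ 0 := by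
    rw [hu'c, zero_add]
    exact coeff_orderTop_ne hm.symm
  have hDu' : ∀ i, 0 ≤ (Dh D c (u' i)).orderTop := by
    intro i
    by_cases hc : c = 0
    · rw [hc]
      exact (hu'O i).trans (le_orderTop_Dh D (u' i))
    · apply Nn_orderTop
      apply Dh_mem_Nn
      obtain ⟨n₀, hn₀⟩ := hcu hc i₀ m (coeff_orderTop_ne hm.symm)
      intro q hq
      have h1 : (0 : ℚ) ≤ q := by
        by_contra hneg
        push Not at hneg
        apply hq
        apply coeff_eq_zero_of_lt_orderTop
        exact lt_of_lt_of_le (by exact_mod_cast hneg) (hu'O i)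
      rw [hu'c] at hq
      obtain ⟨n, hn⟩ := hcu hc i _ hq
      refine ⟨n - n₀, ?_⟩
      have h2 : n₀ ≤ n := by
        have : (n₀ : ℚ) ≤ n := by rw [← hn, ← hn₀]; linarith
        exact_mod_cast this
      rw [Nat.cast_sub h2, ← hn, ← hn₀]
      ring
  -- the residues
  let r : Fin 3 → Ov E E := fun i => ⟨u' i, hu'O i⟩
  have hraeval : ∀ G : MvPolynomial (Fin 3) E, ((aeval r G : Ov E E) : HahnSeries ℚ E) =
      aeval u' G := by
    intro G
    have h1 := MvPolynomial.comp_aeval_apply (R := E) r (Ov E E).val G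
    exact h1
  have hrres : ∀ G : MvPolynomial (Fin 3) E, (aeval u' G).coeff 0 =
      aeval (fun i => (u' i).coeff 0) G := by
    intro G
    have h1 := MvPolynomial.comp_aeval_apply (R := E) r (resO E) G
    rw [resO_apply, hraeval] at h1
    exact h1
  obtain ⟨k, hk⟩ : ∃ k, aeval (fun i => (u' i).coeff 0) (pderiv k F) ≠ 0 := by
    by_contra hno
    push Not at hno
    have h1 := hs.eq_zero (R := E) (fun i => (u' i).coeff 0) hno
    exact hu'0 (congrFun h1 i₀)
  have hg0 : (aeval u' (pderiv k F)).orderTop = 0 := by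
    apply le_antisymm
    · exact orderTop_le_of_coeff_ne_zero (by rw [hrres]; exact hk)
    · have h1 := (aeval r (pderiv k F)).2
      rw [hraeval] at h1
      exact h1
  -- the estimate
  set g := aeval u' (pderiv k F) with hg
  set c' := u' (k + 1) * Dh D c (u' (k + 2)) - u' (k + 2) * Dh D c (u' (k + 1)) with hc'
  have h1 : aeval u (pderiv k F) = P ^ (d - 1) * g := by
    have h2 : u = fun i => P * u' i := funext huu'
    conv_lhs => rw [h2]
    exact aeval_mul_of_homogeneous _ _ hF.pderiv P u'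
  have h2 : u (k + 1) * Dh D c (u (k + 2)) - u (k + 2) * Dh D c (u (k + 1)) = P ^ 2 * c' := by
    have e1 := Dh_mul D hD c P (u' (k + 1))
    have e2 := Dh_mul D hD c P (u' (k + 2))
    rw [huu' (k + 1), huu' (k + 2), e1, e2, hc']
    ring
  have h3 : κ * (P ^ (d - 1) * g) = P ^ 2 * c' := by
    rw [← h1, ← h2]
    exact hκ k
  have h4 : (u a ^ (d - 4) * u i * κ) * g = u' a ^ (d - 4) * u' i * c' := by
    apply mul_left_cancel₀ (pow_ne_zero 2 hP0)
    have h5 : P ^ 2 * (u a ^ (d - 4) * u i * κ * g) =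
        (u' a ^ (d - 4) * u' i) * (κ * (P ^ (d - 1) * g)) := by
      rw [huu' a, huu' i, mul_pow]
      have h6 : d - 1 = (d - 4) + 3 := by omega
      rw [h6, _root_.pow_add]
      ring
    rw [h5, h3]
    ring
  have hcO : 0 ≤ c'.orderTop := by
    have h5 : ∀ x y : HahnSeries ℚ E, 0 ≤ x.orderTop → 0 ≤ y.orderTop → 0 ≤ (x * y).orderTop := by
      intro x y hx hy
      have := orderTop_mul_le hx hy
      rwa [add_zero] at this
    have h6 := h5 _ _ (hu'O (k + 1)) (hDu' (k + 2))
    have h7 := h5 _ _ (hu'O (k + 2)) (hDu' (k + 1))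
    rw [hc', sub_eq_add_neg]
    refine le_trans (le_min h6 ?_) min_orderTop_le_orderTop_add
    rw [orderTop_neg]
    exact h7
  have h5 : 0 ≤ ((u a ^ (d - 4) * u i * κ) * g).orderTop := by
    rw [h4]
    have h6 : (u' a ^ (d - 4) * u' i * c') ∈ Ov E E :=
      (Ov E E).mul_mem ((Ov E E).mul_mem ((Ov E E).pow_mem (hu'O a) _) (hu'O i)) hcO
    exact h6
  rw [orderTop_mul, hg0, add_zero] at h5
  exact h5

omit [CharZero E] in
/-- the polynomials for which the chain rule holds -/
def chain {M : Type} [Field M] [Algebra E M] (DE : E →+ E)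
    (DM : M →+ M) (hDM : ∀ a b, DM (a * b) = DM a * b + a * DM b)
    (_hcomp : ∀ e, DM (algebraMap E M e) = algebraMap E M (DE e)) (u : Fin 3 → M) :
    Subring (MvPolynomial (Fin 3) E) where
  carrier := {G | DM (aeval u G) = ∑ k, aeval u (pderiv k G) * DM (u k)}
  mul_mem' := by
    intro G H hG hH
    rw [Set.mem_ofPred_eq] at hG hH ⊢
    rw [map_mul, hDM, hG, hH, Finset.sum_mul, Finset.mul_sum, ← Finset.sum_add_distrib]
    apply Finset.sum_congr rfl
    intro k _
    rw [Derivation.leibniz, map_add, smul_eq_mul, smul_eq_mul, map_mul, map_mul]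
    ring
  one_mem' := by
    rw [Set.mem_ofPred_eq, map_one, D_one DM hDM]
    simp
  add_mem' := by
    intro G H hG hH
    rw [Set.mem_ofPred_eq] at hG hH ⊢
    rw [map_add, map_add, hG, hH, ← Finset.sum_add_distrib]
    apply Finset.sum_congr rfl
    intro k _
    rw [map_add, map_add, add_mul]
  zero_mem' := by
    rw [Set.mem_ofPred_eq]
    simp
  neg_mem' := by
    intro G hG
    rw [Set.mem_ofPred_eq] at hG ⊢
    rw [map_neg, map_neg, hG, ← Finset.sum_neg_distrib]
    apply Finset.sum_congr rfl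
    intro k _
    rw [map_neg, map_neg, neg_mul]

/-- **Rigidity.** -/
theorem rigid [IsAlgClosed E] {M : Type} [Field M] [Algebra E M]
    (DE : E →+ E) (hDE : ∀ a b, DE (a * b) = DE a * b + a * DE b)
    (DM : M →+ M) (hDM : ∀ a b, DM (a * b) = DM a * b + a * DM b)
    (hcomp : ∀ e, DM (algebraMap E M e) = algebraMap E M (DE e)) (t : M) (ht : DM t = 0)
    [Algebra.IsAlgebraic E⟮t⟯ M] (B : Set M) (hB : ∀ b ∈ B, DM b = 0) (u : Fin 3 → M)
    (hu : ∀ i, u i ∈ Submodule.span E B) (F : MvPolynomial (Fin 3) E) (d : ℕ) (hd : 4 ≤ d)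
    (hF : F.IsHomogeneous d) (hFc : ∀ m, DE (F.coeff m) = 0) (hs : Smooth F)
    (hFu : aeval u F = 0) :
    (∀ k, u (k + 1) * DM (u (k + 2)) = u (k + 2) * DM (u (k + 1))) ∨
      ∃ (c : M) (α : Fin 3 → E), ∀ i, u i = c * algebraMap E M (α i) := by
  classical
  have hchM : CharZero M := charZero_of_injective_algebraMap (algebraMap E M).injective
  by_cases hcross : ∀ k, u (k + 1) * DM (u (k + 2)) = u (k + 2) * DM (u (k + 1))
  · exact Or.inl hcross
  right
  push Not at hcross
  obtain ⟨k₀, hk₀⟩ := hcross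
  set cr : Fin 3 → M := fun k => u (k + 1) * DM (u (k + 2)) - u (k + 2) * DM (u (k + 1)) with hcr
  set g : Fin 3 → M := fun k => aeval u (pderiv k F) with hg
  have hcr0 : cr k₀ ≠ 0 := sub_ne_zero.mpr hk₀
  have hu0 : u ≠ 0 := by
    intro h
    apply hcr0
    simp [hcr, h]
  obtain ⟨a, ha⟩ : ∃ a, u a ≠ 0 := Function.ne_iff.mp hu0
  obtain ⟨k₁, hk₁⟩ : ∃ k, g k ≠ 0 := by
    by_contra hno
    push Not at hno
    exact hu0 (hs.eq_zero u hno)
  -- Euler
  have he1 : ∑ k, g k * u k = 0 := by
    have h1 := hF.sum_X_mul_pderiv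
    have h2 := congrArg (aeval u) h1
    rw [map_sum, map_nsmul, hFu, nsmul_zero] at h2
    rw [← h2]
    apply Finset.sum_congr rfl
    intro k _
    rw [map_mul, aeval_X, hg]
    ring
  -- the derivative of the equation
  have hTs : F ∈ chain DE DM hDM hcomp u := by
    rw [F.as_sum]
    refine Subring.sum_mem _ fun m _ => ?_
    rw [monomial_eq]
    refine Subring.mul_mem _ ?_ ?_
    · change DM (aeval u (C (F.coeff m))) = _
      rw [aeval_C, hcomp, hFc, map_zero]
      simp
    · rw [Finsupp.prod]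
      refine Subring.prod_mem _ fun i _ => Subring.pow_mem _ ?_ _
      change DM (aeval u (X i)) = _
      rw [aeval_X, Finset.sum_eq_single i]
      · rw [pderiv_X_self, map_one, one_mul]
      · intro k _ hk
        rw [pderiv_X_of_ne hk.symm, map_zero, zero_mul]
      · intro h
        exact absurd (Finset.mem_univ i) h
  have he2 : ∑ k, g k * DM (u k) = 0 := by
    have h1 : DM (aeval u F) = ∑ k, aeval u (pderiv k F) * DM (u k) := hTs
    rw [hFu, map_zero] at h1
    exact h1.symm
  -- proportionality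
  have hprop : ∀ i j, g i * cr j = g j * cr i := by
    intro i j
    rw [Fin.sum_univ_three] at he1 he2
    have key : ∀ (g0 g1 g2 u0 u1 u2 w0 w1 w2 : M), g0 * u0 + g1 * u1 + g2 * u2 = 0 →
        g0 * w0 + g1 * w1 + g2 * w2 = 0 →
        g0 * (u2 * w0 - u0 * w2) = g1 * (u1 * w2 - u2 * w1) ∧
        g0 * (u0 * w1 - u1 * w0) = g2 * (u1 * w2 - u2 * w1) ∧
        g1 * (u0 * w1 - u1 * w0) = g2 * (u2 * w0 - u0 * w2) := by
      intro g0 g1 g2 u0 u1 u2 w0 w1 w2 h1 h2
      refine ⟨?_, ?_, ?_⟩
      · linear_combination u2 * h2 - w2 * h1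
      · linear_combination w1 * h1 - u1 * h2
      · linear_combination u0 * h2 - w0 * h1
    obtain ⟨k1, k2, k3⟩ := key _ _ _ _ _ _ _ _ _ he1 he2
    have c0 : cr 0 = u 1 * DM (u 2) - u 2 * DM (u 1) := rfl
    have c1 : cr 1 = u 2 * DM (u 0) - u 0 * DM (u 2) := rfl
    have c2 : cr 2 = u 0 * DM (u 1) - u 1 * DM (u 0) := rfl
    rw [← c0, ← c1] at k1
    rw [← c0, ← c2] at k2
    rw [← c1, ← c2] at k3
    fin_cases i <;> fin_cases j
    · rfl
    · exact k1
    · exact k2
    · exact k1.symm
    · rfl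
    · exact k3
    · exact k2.symm
    · exact k3.symm
    · rfl
  set κ : M := cr k₁ / g k₁ with hκdef
  have hκ : ∀ k, κ * g k = cr k := by
    intro k
    rw [hκdef, div_mul_eq_mul_div, div_eq_iff hk₁, mul_comm, hprop, mul_comm]
  have hκ0 : κ ≠ 0 := by
    intro h
    apply hcr0
    rw [← hκ k₀, h, zero_mul]
  -- the main claim
  have main : ∀ i, ∃ e, algebraMap E M e = u a ^ (d - 4) * u i * κ := by
    intro i
    by_contra hno
    obtain ⟨j, hjv, hjt⟩ := exists_place t (u a ^ (d - 4) * u i * κ) hno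
    let J : M →ₐ[E] HahnSeries ℚ E :=
      { ((Pui E).subtype.comp j.toRingHom) with
        commutes' := by
          intro e
          change ((j (algebraMap E M e) : Pui E) : HQ E) = _
          rw [j.commutes, coe_algebraMap_Pui]
          rfl }
    have hJ : ∀ x, J x = ((j x : Pui E) : HQ E) := fun x => rfl
    -- the derivation
    obtain ⟨c, hc⟩ : ∃ c : E, Dh DE c (J t) = 0 := by
      rcases hjt with ⟨t₀, ht₀⟩ | hinf
      · refine ⟨-DE t₀, ?_⟩
        rw [hJ, ht₀]
        change Dh DE (-DE t₀) (HahnSeries.C t₀ + single 1 1) = 0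
        rw [map_add, Dh_C, Dh_single DE hDE, sub_self, Rat.cast_one, mul_one]
        change HahnSeries.C (DE t₀) + HahnSeries.C (-DE t₀) = 0
        rw [← map_add, add_neg_cancel, map_zero]
      · refine ⟨0, ?_⟩
        rw [hJ, hinf]
        change Dh DE 0 (single (-1) 1) = 0
        rw [Dh_single DE hDE, zero_mul]
        simp
    let δ : M →+ HahnSeries ℚ E := J.toRingHom.toAddMonoidHom.comp DM -
      (Dh DE c).comp J.toRingHom.toAddMonoidHom
    have hδ : ∀ x, δ x = J (DM x) - Dh DE c (J x) := fun x => rfl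
    have hδmul : ∀ x y, δ (x * y) = δ x * J.toRingHom y + J.toRingHom x * δ y := by
      intro x y
      have e1 := Dh_mul DE hDE c (J x) (J y)
      change δ (x * y) = δ x * J y + J x * δ y
      rw [hδ, hδ, hδ, hDM, map_mul, e1, map_add, map_mul, map_mul]
      ring
    have hδE : ∀ e, δ (algebraMap E M e) = 0 := by
      intro e
      rw [hδ, hcomp, J.commutes, J.commutes, HahnSeries.algebraMap_apply,
        HahnSeries.algebraMap_apply]
      change HahnSeries.C (DE e) - Dh DE c (HahnSeries.C e) = 0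
      rw [Dh_C, sub_self]
    have hδt : δ t = 0 := by
      rw [hδ, ht, map_zero, hc, sub_zero]
    have hδone : δ 1 = 0 := by
      rw [← map_one (algebraMap E M)]
      exact hδE 1
    have hδinv : ∀ x, δ x = 0 → δ x⁻¹ = 0 := by
      intro x hx
      by_cases hx0 : x = 0
      · rw [hx0, inv_zero, map_zero]
      · have h1 := hδmul x x⁻¹
        rw [mul_inv_cancel₀ hx0, hδone, hx, zero_mul, zero_add] at h1
        rcases mul_eq_zero.mp h1.symm with h2 | h2
        · exact absurd ((map_eq_zero J.toRingHom).mp h2) hx0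
        · exact h2
    let M₀ : IntermediateField E M :=
      { carrier := {x | δ x = 0}
        mul_mem' := by
          intro x y hx hy
          rw [Set.mem_ofPred_eq] at hx hy ⊢
          rw [hδmul, hx, hy, zero_mul, mul_zero, add_zero]
        add_mem' := by
          intro x y hx hy
          rw [Set.mem_ofPred_eq] at hx hy ⊢
          rw [map_add, hx, hy, add_zero]
        algebraMap_mem' := hδE
        inv_mem' := hδinv }
    have hM₀ : E⟮t⟯ ≤ M₀ := by
      rw [IntermediateField.adjoin_simple_le_iff]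
      exact hδt
    have hδ0 : ∀ x, δ x = 0 := by
      intro x
      refine twisted_zero (F := E⟮t⟯) J.toRingHom δ hδmul (fun a => ?_) x
        (Algebra.IsAlgebraic.isAlgebraic x)
      exact hM₀ a.2
    have hJD : ∀ x, J (DM x) = Dh DE c (J x) := by
      intro x
      have h1 := hδ0 x
      rw [hδ, sub_eq_zero] at h1
      exact h1
    have hest := place_estimate DE hDE c F d hd hF hs (fun i => J (u i)) (by
      intro h
      have h1 := congrFun h a
      exact ha ((map_eq_zero J.toRingHom).mp h1)) (by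
      intro hc0 i
      have h1 : Submodule.span E B ≤ (Nn E).toSubmodule.comap J.toLinearMap := by
        rw [Submodule.span_le]
        intro b hb
        have h2 : Dh DE c (J b) = 0 := by
          rw [← hJD, hB b hb, map_zero]
        exact mem_Nn_of_Dh DE c hc0 h2
      exact h1 (hu i)) (J κ) (by
      intro k
      have h1 := MvPolynomial.comp_aeval_apply (R := E) u J (pderiv k F)
      rw [← h1, ← map_mul]
      have h2 := hκ k
      change κ * aeval u (pderiv k F) = cr k at h2
      rw [h2, ← hJD, ← hJD, ← map_mul, ← map_mul, ← map_sub]) a i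
    have h1 : (J (u a ^ (d - 4) * u i * κ)).orderTop < 0 := by
      rw [hJ, ← vP_apply]
      exact hjv
    rw [map_mul, map_mul, map_pow] at h1
    exact absurd h1 (not_lt.mpr hest)
  choose α hα using main
  refine ⟨(u a ^ (d - 4) * κ)⁻¹, α, fun i => ?_⟩
  have h1 : u a ^ (d - 4) * κ ≠ 0 := mul_ne_zero (pow_ne_zero _ ha) hκ0
  rw [hα]
  field_simp

end

end Pool.Agent.Zk18.Md
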