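import Pool.Agent.Zk18.Disc

/-!
# Laurent points from points over products

`R` is an algebra over a countable algebraically closed field `K` of characteristic zero which is
integral over `K[ω]`. A homomorphism from `R` into `A ⊗ L` for which the image of `ω` is not in `A ⊗ K`
and not in `K ⊗ L` gives rise to a nonconstant homomorphism from `R` into `K[T, T⁻¹]`.
-/

set_option autoImplicit false

attribute [-instance] HahnSeries.powerSeriesAlgebra

namespace Pool.Agent.Zk18

open HahnSeries Pool.Agent.Helper165.P1 TensorProduct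
open scoped LaurentPolynomial

section

variable {K : Type} [Field K]

theorem exists_pole_order {n : ℕ} (x : Fin n → HahnSeries ℤ K) (j₁ : Fin n) (m : ℕ) (hm : 0 < m)
    (h : (x j₁).coeff (-(m : ℤ)) ≠ 0) : ∃ a : ℕ, 1 ≤ a ∧ (∃ j, (x j).coeff (-(a : ℤ)) ≠ 0) ∧
      ∀ j, ∀ i : ℤ, i < -(a : ℤ) → (x j).coeff i = 0 := by
  classical
  let Bd : ℕ := ∑ j, (x j).order.natAbs
  have hB : ∀ j, ∀ i : ℤ, i < -(Bd : ℤ) → (x j).coeff i = 0 := by
    intro j i hi
    by_cases hx : x j = 0
    · rw [hx]; rfl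
    · apply coeff_eq_zero_of_lt_order
      have h1 : (x j).order.natAbs ≤ Bd :=
        Finset.single_le_sum (f := fun j => (x j).order.natAbs) (fun _ _ => Nat.zero_le _)
          (Finset.mem_univ j)
      omega
  let P : ℕ → Prop := fun a => ∃ j, (x j).coeff (-(a : ℤ)) ≠ 0
  have hmB : m ≤ Bd := by
    by_contra hcon
    exact h (hB j₁ _ (by omega))
  have hPm : P m := ⟨j₁, h⟩
  refine ⟨Nat.findGreatest P Bd, ?_, Nat.findGreatest_spec hmB hPm, ?_⟩
  · have := Nat.le_findGreatest hmB hPm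
    omega
  · intro j i hi
    by_contra hne
    have hi0 : i ≤ 0 := by omega
    obtain ⟨b, rfl⟩ : ∃ b : ℕ, i = -(b : ℤ) := ⟨(-i).toNat, by omega⟩
    have hb : b ≤ Bd := by
      by_contra hcon
      exact hne (hB j _ (by omega))
    have := Nat.findGreatest_is_greatest (P := P) (n := Bd) (k := b) (by omega) hb
    exact this ⟨j, hne⟩

theorem vP_const {k : K} (hk : k ≠ 0) : vP K (algebraMap K (Pui K) k) = 0 := by
  rw [vP_apply, coe_algebraMap_Pui, C_apply, orderTop_single hk]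
  rfl

/-- a constant which is not the residue -/
theorem exists_shift (y : Pui K) : ∃ t : K, vP K (y - algebraMap K (Pui K) t) ≤ 0 ∧
    (vP K y < 0 → vP K (y - algebraMap K (Pui K) t) < 0) := by
  by_cases hy : vP K y < 0
  · refine ⟨0, ?_, ?_⟩
    · rw [map_zero, sub_zero]; exact hy.le
    · intro _; rw [map_zero, sub_zero]; exact hy
  · refine ⟨((y : Pui K) : HQ K).coeff 0 + 1, ?_, fun h => absurd h hy⟩
    push Not at hy
    have h1 := vP_sub_coeff y hy
    have h2 : vP K (algebraMap K (Pui K) 1) = 0 := vP_const one_ne_zero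
    have h3 : y - algebraMap K (Pui K) (((y : Pui K) : HQ K).coeff 0 + 1) =
      (y - algebraMap K (Pui K) (((y : Pui K) : HQ K).coeff 0)) - algebraMap K (Pui K) 1 := by
      rw [map_add]; ring
    rw [h3]
    by_contra hcon
    push Not at hcon
    have h4 : algebraMap K (Pui K) 1 = (y - algebraMap K (Pui K) (((y : Pui K) : HQ K).coeff 0)) -
      ((y - algebraMap K (Pui K) (((y : Pui K) : HQ K).coeff 0)) - algebraMap K (Pui K) 1) := by
      ring
    have h5 : (0 : WithTop ℚ) < vP K (algebraMap K (Pui K) 1) := by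
      rw [h4]
      exact lt_of_lt_of_le (lt_min h1 hcon) ((vP K).map_sub _ _)
    rw [h2] at h5
    exact lt_irrefl _ h5

end

variable {K A L R : Type} [Field K] [Countable K] [IsAlgClosed K] [CharZero K]
  [CommRing A] [IsDomain A] [Countable A] [Algebra K A] [Algebra.FiniteType K A]
  [Field L] [Countable L] [Algebra K L] [CommRing R] [Algebra K R]

/-- choice of the specialisation -/
theorem exists_theta {N : ℕ} (b : Fin (N + 1) → L) (hb : LinearIndependent K b) (hb0 : b 0 = 1)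
    (x : Fin (N + 1) → HahnSeries ℤ K) (a : ℕ) (ha0 : 1 ≤ a)
    (ha1 : ∃ j, (x j).coeff (-(a : ℤ)) ≠ 0)
    (ha2 : ∀ j, ∀ i : ℤ, i < -(a : ℤ) → (x j).coeff i = 0) (h1 : ∃ j ≠ 0, x j ≠ 0) :
    ∃ (θ : L →ₐ[K] Pui K) (t : K) (j₀ : ℕ), 1 ≤ j₀ ∧
      θ (∑ j, (x j).coeff (-(a : ℤ)) • b j) ≠ 0 ∧
      vP K (θ (∑ j, (x j).coeff 0 • b j) - algebraMap K (Pui K) t) ≤ 0 ∧
      vP K (θ (∑ j, (x j).coeff ((j₀ : ℤ) - a) • b j) -
        (if j₀ = a then algebraMap K (Pui K) t else 0)) <
      vP K (θ (∑ j, (x j).coeff (-(a : ℤ)) • b j)) := by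
  classical
  set W : ℤ → L := fun n => ∑ j, (x j).coeff n • b j with hW
  have hW0 : W (-(a : ℤ)) ≠ 0 := by
    intro h
    obtain ⟨j, hj⟩ := ha1
    exact hj (Fintype.linearIndependent_iff.mp hb _ h j)
  have hconst : ∀ n, W n ∈ Set.range (algebraMap K L) → ∀ j ≠ 0, (x j).coeff n = 0 := by
    rintro n ⟨k, hk⟩ j hj
    have h2 : ∑ j, ((x j).coeff n - if j = 0 then k else 0) • b j = 0 := by
      have h3 : ∑ j, (if j = (0 : Fin (N + 1)) then k else 0) • b j = algebraMap K L k := by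
        rw [Finset.sum_eq_single 0]
        · rw [if_pos rfl, hb0, Algebra.smul_def, mul_one]
        · intro i _ hi
          rw [if_neg hi, zero_smul]
        · intro h; exact absurd (Finset.mem_univ _) h
      simp only [sub_smul, Finset.sum_sub_distrib]
      rw [h3, hk]
      exact sub_self _
    have h4 := Fintype.linearIndependent_iff.mp hb _ h2 j
    simpa [hj] using h4
  by_cases hcase : W (-(a : ℤ)) ∈ Set.range (algebraMap K L)
  · -- the leading coefficient is constant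
    obtain ⟨j, hj, hxj⟩ := h1
    obtain ⟨n, hn⟩ : ∃ n, (x j).coeff n ≠ 0 := by
      by_contra hcon
      push Not at hcon
      apply hxj
      ext n
      rw [hcon n, HahnSeries.coeff_zero]
    have hWn : W n ∉ Set.range (algebraMap K L) := fun h => hn (hconst n h j hj)
    obtain ⟨θ, hθ⟩ := arc (W n) hWn
    have hθn : vP K (θ (W n)) = ((-1 : ℚ) : WithTop ℚ) := by rw [hθ, vP_tinv]
    have hna : -(a : ℤ) < n := by
      rcases lt_trichotomy n (-(a : ℤ)) with h | h | h
      · exact absurd (ha2 j n h) hn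
      · rw [h] at hWn
        exact absurd hcase hWn
      · exact h
    obtain ⟨t, ht1, ht2⟩ := exists_shift (θ (W 0))
    obtain ⟨k, hk⟩ := hcase
    have hk0 : k ≠ 0 := by
      rintro rfl
      rw [map_zero] at hk
      exact hW0 hk.symm
    have hv0 : vP K (θ (W (-(a : ℤ)))) = 0 := by
      rw [← hk, θ.commutes]
      exact vP_const hk0
    refine ⟨θ, t, (n + a).toNat, by omega, ?_, ht1, ?_⟩
    · intro h
      exact hW0 ((map_eq_zero θ).mp h)
    · have h5 : (((n + a).toNat : ℤ) - a) = n := by omega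
      change vP K (θ (W (((n + a).toNat : ℤ) - a)) - _) < vP K (θ (W (-(a : ℤ))))
      rw [h5, hv0]
      by_cases hn0 : (n + a).toNat = a
      · have h6 : n = 0 := by omega
        rw [if_pos hn0, h6]
        apply ht2
        rw [h6] at hθn
        rw [hθn]
        exact_mod_cast (by norm_num : (-1 : ℚ) < 0)
      · rw [if_neg hn0, sub_zero, hθn]
        exact_mod_cast (by norm_num : (-1 : ℚ) < 0)
  · -- the leading coefficient is not constant
    have hinv : (W (-(a : ℤ)))⁻¹ ∉ Set.range (algebraMap K L) := by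
      rintro ⟨k, hk⟩
      apply hcase
      exact ⟨k⁻¹, by rw [map_inv₀, hk, inv_inv]⟩
    obtain ⟨θ, hθ⟩ := arc _ hinv
    have hv0 : vP K (θ (W (-(a : ℤ)))) = ((1 : ℚ) : WithTop ℚ) := by
      have h2 : θ (W (-(a : ℤ))) * tinv = 1 := by
        rw [← hθ, ← map_mul, mul_inv_cancel₀ hW0, map_one]
      have h3 := congrArg (vP K) h2
      have h4 : θ (W (-(a : ℤ))) ≠ 0 := fun h => hW0 ((map_eq_zero θ).mp h)
      obtain ⟨q, hq⟩ := val_exists (vP K) h4
      rw [(vP K).map_mul, (vP K).map_one, vP_tinv, hq, ← WithTop.coe_add, ← WithTop.coe_zero,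
        WithTop.coe_eq_coe] at h3
      rw [hq]
      congr 1
      linarith
    obtain ⟨t, ht1, ht2⟩ := exists_shift (θ (W 0))
    refine ⟨θ, t, a, ha0, ?_, ht1, ?_⟩
    · intro h
      exact hW0 ((map_eq_zero θ).mp h)
    · have h5 : ((a : ℤ) - a) = 0 := by ring
      change vP K (θ (W ((a : ℤ) - a)) - _) < vP K (θ (W (-(a : ℤ))))
      rw [h5, if_pos rfl, hv0]
      exact lt_of_le_of_lt ht1 (by exact_mod_cast (by norm_num : (0 : ℚ) < 1))

omit [CharZero K] [Countable K] [IsAlgClosed K] [IsDomain A] [Countable A]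
  [Algebra.FiniteType K A] [Countable L] in
/-- the evaluation of `A ⊗ L` -/
theorem exists_eval (φ₀ : A →+* HahnSeries ℤ K) (hφ₀ : ∀ k, φ₀ (algebraMap K A k) = C k)
    (θ : L →ₐ[K] Pui K) (x : (HahnSeries ℚ K[T;T⁻¹])ˣ)
    (hx : 0 < (x : HahnSeries ℚ K[T;T⁻¹]).orderTop) :
    ∃ Φ : A ⊗[K] L →ₐ[K] HahnSeries ℚ K[T;T⁻¹],
      ∀ a l, Φ (a ⊗ₜ l) = evL K x hx (φ₀ a) * iot (θ l) := by
  let f1 : A →ₐ[K] HahnSeries ℚ K[T;T⁻¹] :=
    { (evL K x hx).comp φ₀ with
      commutes' := by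
        intro k
        change evL K x hx (φ₀ (algebraMap K A k)) = _
        rw [hφ₀, evL_C, HahnSeries.algebraMap_apply] }
  let f2 : L →ₐ[K] HahnSeries ℚ K[T;T⁻¹] :=
    { iot.comp (θ : L →+* Pui K) with
      commutes' := by
        intro k
        change iot (θ (algebraMap K L k)) = _
        rw [θ.commutes, iot_algebraMap, HahnSeries.algebraMap_apply] }
  refine ⟨Algebra.TensorProduct.productMap f1 f2, fun a l => ?_⟩
  rw [Algebra.TensorProduct.productMap_apply_tmul]
  rfl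

omit [Countable K] [IsAlgClosed K] [CharZero K] [Field K] in
theorem sum_identity {S : Type*} [CommRing S] {n : ℕ} (u : S) (a M : ℕ) (haM : a < M)
    (y β ρ : Fin n → S) (cc : Fin n → ℕ → S) (τ : S) (G : ℕ → S)
    (h : ∀ j, u ^ a * y j = ∑ i ∈ Finset.range M, cc j i * u ^ i + u ^ M * ρ j)
    (hG : ∀ i, G i = ∑ j, cc j i * β j - if i = a then τ else 0) :
    u ^ a * (∑ j, y j * β j - τ) = ∑ i ∈ Finset.range M, G i * u ^ i +
      u ^ M * ∑ j, ρ j * β j := by
  have h1 : u ^ a * ∑ j, y j * β j = ∑ i ∈ Finset.range M, (∑ j, cc j i * β j) * u ^ i +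
      u ^ M * ∑ j, ρ j * β j := by
    rw [Finset.mul_sum, Finset.mul_sum]
    simp only [Finset.sum_mul]
    rw [Finset.sum_comm, ← Finset.sum_add_distrib]
    apply Finset.sum_congr rfl
    intro j _
    rw [← mul_assoc, h j, add_mul, Finset.sum_mul]
    congr 1
    · apply Finset.sum_congr rfl
      intro i _
      ring
    · ring
  have h2 : ∑ i ∈ Finset.range M, G i * u ^ i =
      ∑ i ∈ Finset.range M, (∑ j, cc j i * β j) * u ^ i - τ * u ^ a := by
    simp only [hG, sub_mul, Finset.sum_sub_distrib]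
    congr 1
    rw [Finset.sum_eq_single a]
    · rw [if_pos rfl]
    · intro i _ hi
      rw [if_neg hi, zero_mul]
    · intro h
      exact absurd (Finset.mem_range.mpr haM) h
  rw [mul_sub, h1, h2]
  ring

/-- **Laurent points from points over products.** -/
theorem exists_laurent_point (Y : R →ₐ[K] A ⊗[K] L) (ω : R)
    (hR : ∀ r : R, IsIntegral (Algebra.adjoin K {ω}) r) {N : ℕ} (b : Fin (N + 1) → L)
    (hb : LinearIndependent K b) (hb0 : b 0 = 1) (w : Fin (N + 1) → A)
    (hω : Y ω = ∑ j, w j ⊗ₜ[K] b j) (h1 : ∃ j ≠ 0, w j ≠ 0)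
    (h2 : ∃ j, w j ∉ Set.range (algebraMap K A)) :
    ∃ f : R →ₐ[K] K[T;T⁻¹], f ω ∉ Set.range (algebraMap K K[T;T⁻¹]) ∧ ∀ r, Y r = 0 → f r = 0 := by
  classical
  -- the arc in the first factor
  obtain ⟨j₁, hj₁⟩ := h2
  have hcE : Countable (FractionRing A) := by
    have : Function.Surjective (fun p : A × (nonZeroDivisors A) =>
        IsLocalization.mk' (FractionRing A) p.1 p.2) := by
      intro z
      obtain ⟨a, s, h⟩ := IsLocalization.exists_mk'_eq (nonZeroDivisors A) z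
      exact ⟨(a, s), h⟩
    exact this.countable
  have hz : algebraMap A (FractionRing A) (w j₁) ∉
      Set.range (algebraMap K (FractionRing A)) := by
    rintro ⟨k, hk⟩
    apply hj₁
    refine ⟨k, ?_⟩
    apply IsFractionRing.injective A (FractionRing A)
    rw [← hk, ← IsScalarTower.algebraMap_apply]
  obtain ⟨θA, hθA⟩ := arc _ hz
  obtain ⟨m, hm, φ₀, hφ₀, hφ₀C⟩ := exists_laurent
    (θA.comp (IsScalarTower.toAlgHom K A (FractionRing A)))
  have hφinj : Function.Injective φ₀ := by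
    intro a a' h
    have h3 := congrArg (eHom (E := K) m hm) h
    rw [hφ₀, hφ₀] at h3
    have h4 := θA.toRingHom.injective (Subtype.ext h3)
    exact IsFractionRing.injective A (FractionRing A) h4
  set x : Fin (N + 1) → HahnSeries ℤ K := fun j => φ₀ (w j) with hx
  have hxm : (x j₁).coeff (-(m : ℤ)) ≠ 0 := by
    have h3 := eHom_coeff (E := K) m hm (x j₁) (-(m : ℤ))
    have h4 : eHom (E := K) m hm (x j₁) = single (-1 : ℚ) 1 := by
      rw [hx, hφ₀]
      exact congrArg Subtype.val hθA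
    have hm' : (m : ℚ) ≠ 0 := by exact_mod_cast hm.ne'
    have h5 : (((-(m : ℤ) : ℤ) : ℚ) / m) = -1 := by
      push_cast
      rw [neg_div, div_self hm']
    rw [h4, h5, coeff_single, if_pos rfl] at h3
    rw [← h3]
    exact one_ne_zero
  obtain ⟨a, ha0, ha1, ha2⟩ := exists_pole_order x j₁ m hm hxm
  have hx1 : ∃ j ≠ 0, x j ≠ 0 := by
    obtain ⟨j, hj, hwj⟩ := h1
    refine ⟨j, hj, fun h => hwj (hφinj ?_)⟩
    rw [map_zero]
    exact h
  obtain ⟨θ, t, j₀, hj₀, hg0, hga, hlt⟩ := exists_theta b hb hb0 x a ha0 ha1 ha2 hx1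
  set W : ℤ → L := fun n => ∑ j, (x j).coeff n • b j with hW
  set g : ℕ → Pui K := fun j => θ (W ((j : ℤ) - a)) -
    (if j = a then algebraMap K (Pui K) t else 0) with hg
  have hg0' : g 0 = θ (W (-(a : ℤ))) := by
    simp only [hg]
    rw [if_neg (by omega), sub_zero]
    congr 2
    push_cast
    ring
  have hga' : g a = θ (W 0) - algebraMap K (Pui K) t := by
    simp only [hg]
    rw [sub_self, if_true]
  -- bound for the valuations of the `θ (b j)`
  obtain ⟨B, hB⟩ : ∃ B : ℚ, ∀ j, ((-B : ℚ) : WithTop ℚ) ≤ vP K (θ (b j)) := by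
    have h3 : ∀ j, ∃ q : ℚ, vP K (θ (b j)) = (q : WithTop ℚ) := by
      intro j
      apply val_exists
      intro h
      exact hb.ne_zero j ((map_eq_zero θ).mp h)
    choose q hq using h3
    refine ⟨∑ j, |q j|, fun j => ?_⟩
    rw [hq, WithTop.coe_le_coe]
    have h4 : |q j| ≤ ∑ j, |q j| :=
      Finset.single_le_sum (f := fun j => |q j|) (fun _ _ => abs_nonneg _) (Finset.mem_univ j)
    have h5 := neg_abs_le (q j)
    linarith
  obtain ⟨M, u, hMa, hu, hpt⟩ := disc_point g a j₀ hj₀ (by rw [hg0']; exact hg0)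
    (by rw [hga']; exact hga) (by rw [hg0']; exact hlt) B
  obtain ⟨Φ, hΦ⟩ := exists_eval φ₀ hφ₀C θ u hu
  -- the value at `ω`
  have hval : Φ (Y ω) = ∑ j, evL K u hu (x j) * iot (θ (b j)) := by
    rw [hω, map_sum]
    apply Finset.sum_congr rfl
    intro j _
    rw [hΦ]
  choose ρ hρ0 hρ using fun j => evL_approx K hu (x j) a (ha2 j) M
  have hiW : ∀ n : ℤ, iot (θ (W n)) = ∑ j, C (algebraMap K K[T;T⁻¹] ((x j).coeff n)) *
      iot (θ (b j)) := by
    intro n
    simp only [hW]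
    rw [map_sum, map_sum]
    apply Finset.sum_congr rfl
    intro j _
    rw [Algebra.smul_def, map_mul, θ.commutes, map_mul, iot_algebraMap]
  have hG : ∀ i, iot (g i) = ∑ j, C (algebraMap K K[T;T⁻¹] ((x j).coeff ((i : ℤ) - a))) *
      iot (θ (b j)) - if i = a then C (algebraMap K K[T;T⁻¹] t) else 0 := by
    intro i
    simp only [hg]
    rw [map_sub, hiW]
    congr 1
    split_ifs
    · rw [iot_algebraMap]
    · rw [map_zero]
  have hkey := sum_identity (u : HahnSeries ℚ K[T;T⁻¹]) a M hMa (fun j => evL K u hu (x j))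
    (fun j => iot (θ (b j))) ρ
    (fun j i => C (algebraMap K K[T;T⁻¹] ((x j).coeff ((i : ℤ) - a))))
    (C (algebraMap K K[T;T⁻¹] t)) (fun i => iot (g i)) hρ hG
  rw [← hval] at hkey
  have hρB : ((-B : ℚ) : WithTop ℚ) ≤ (∑ j, ρ j * iot (θ (b j))).orderTop := by
    apply orderTop_sum
    intro j _
    have h3 := orderTop_mul_le (hρ0 j) (le_of_eq (orderTop_iot (θ (b j))).symm)
    rw [zero_add] at h3
    exact (hB j).trans h3
  obtain ⟨hy0, hyc⟩ := hpt _ _ hρB hkey
  set T₀ : HahnSeries ℚ K[T;T⁻¹] := C (algebraMap K K[T;T⁻¹] t) with hT₀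
  have hYω : 0 ≤ (Φ (Y ω)).orderTop := by
    have h3 : Φ (Y ω) = (Φ (Y ω) - T₀) + T₀ := (sub_add_cancel _ _).symm
    rw [h3]
    have h4 : (0 : WithTop ℚ) ≤ min (Φ (Y ω) - T₀).orderTop T₀.orderTop :=
      le_min hy0 (orderTop_C_nonneg _)
    exact h4.trans min_orderTop_le_orderTop_add
  -- the homomorphism
  let Y' : R →ₐ[K] HahnSeries ℚ K[T;T⁻¹] := Φ.comp Y
  have hadj : ∀ z : Algebra.adjoin K {ω}, 0 ≤ (Y' (z : R)).orderTop := by
    intro z
    have h3 : Algebra.adjoin K {ω} ≤ (Ov K K[T;T⁻¹]).comap Y' := by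
      rw [Algebra.adjoin_le_iff]
      rintro _ rfl
      exact hYω
    exact h3 z.2
  have hall : ∀ r : R, 0 ≤ (Y' r).orderTop := by
    intro r
    refine mem_Ov_of_isIntegral (Y'.toRingHom.comp (algebraMap (Algebra.adjoin K {ω}) R)) hadj ?_
    obtain ⟨p, hp, hpr⟩ := hR r
    refine ⟨p, hp, ?_⟩
    change Polynomial.eval₂ (Y'.toRingHom.comp (algebraMap (Algebra.adjoin K {ω}) R))
      (Y'.toRingHom r) p = 0
    rw [← Polynomial.hom_eval₂, hpr, map_zero]
  let f : R →ₐ[K] K[T;T⁻¹] := (resO K).comp (Y'.codRestrict (Ov K K[T;T⁻¹]) hall)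
  have hf : ∀ r, f r = (Y' r).coeff 0 := fun r => rfl
  refine ⟨f, ?_, ?_⟩
  · rintro ⟨κ, hκ⟩
    apply hyc
    refine ⟨κ - t, ?_⟩
    rw [coeff_sub, map_sub, hκ, hf, hT₀, C_apply, coeff_single, if_pos rfl]
    rfl
  · intro r hr
    rw [hf]
    change (Φ (Y r)).coeff 0 = 0
    rw [hr, map_zero, coeff_zero]

end Pool.Agent.Zk18
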