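import Pool.Agent.Zk18.Fd8

/-!
# Poles at places produce polynomial curves
-/

set_option autoImplicit false
set_option linter.unusedSectionVars false

attribute [-instance] HahnSeries.powerSeriesAlgebra

namespace Pool.Agent.Zk18.Rr

open HahnSeries Pool.Agent.Zk18 Pool.Agent.Zk18.Md Pool.Agent.Zk18.Fd

section

variable {F : Type} [Field F] [CharZero F]

/-- Homomorphisms to power series with integral coefficients. -/
theorem lift_ov {R : Type} [CommRing R] (Ψ : R →+* PowerSeries (HahnSeries ℚ F))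
    (h : ∀ a k, 0 ≤ (PowerSeries.coeff k (Ψ a)).orderTop) :
    ∃ φ : R →+* PowerSeries (Ov F F), (PowerSeries.map (inc F)).comp φ = Ψ := by
  have hι : Function.Injective (PowerSeries.map (inc F)) := by
    intro a a' h
    ext1 k
    have := congrArg (PowerSeries.coeff k) h
    rw [PowerSeries.coeff_map, PowerSeries.coeff_map] at this
    exact Subtype.ext this
  let f : R → PowerSeries (Ov F F) := fun a => PowerSeries.mk fun k =>
    (⟨PowerSeries.coeff k (Ψ a), h a k⟩ : Ov F F)
  have hf : ∀ a, PowerSeries.map (inc F) (f a) = Ψ a := by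
    intro a
    ext1 k
    rw [PowerSeries.coeff_map, PowerSeries.coeff_mk]
    rfl
  refine ⟨{ toFun := f
            map_one' := hι (by rw [hf, map_one, map_one])
            map_mul' := fun a b => hι (by rw [map_mul, hf, hf, hf, map_mul])
            map_zero' := hι (by rw [hf, map_zero, map_zero])
            map_add' := fun a b => hι (by rw [map_add, hf, hf, hf, map_add]) }, ?_⟩
  ext1 a
  exact hf a

variable {M : Type} [Field M] [CharZero M] [Algebra F M]

/-- the twisted exponential of a derivation at a place -/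
noncomputable def Ex (τ : M →+* HahnSeries ℚ F) (δ : M →+ M)
    (hδ : ∀ a b, δ (a * b) = δ a * b + a * δ b) (s : HahnSeries ℚ F) :
    M →+* PowerSeries (HahnSeries ℚ F) :=
  (PowerSeries.rescale s).comp ((PowerSeries.map τ).comp (expD δ hδ))

theorem coeff_Ex (τ : M →+* HahnSeries ℚ F) (δ : M →+ M)
    (hδ : ∀ a b, δ (a * b) = δ a * b + a * δ b) (s : HahnSeries ℚ F) (x : M) (k : ℕ) :
    PowerSeries.coeff k (Ex τ δ hδ s x) = s ^ k * (C ((k.factorial : F)⁻¹) * τ (δ^[k] x)) := by
  rw [Ex, RingHom.comp_apply, RingHom.comp_apply, PowerSeries.coeff_rescale, PowerSeries.coeff_map,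
    coeff_expD, map_mul, map_inv₀, map_natCast]
  congr 2
  rw [map_inv₀, map_natCast]

theorem orderTop_fac (k : ℕ) (z : HahnSeries ℚ F) :
    (C ((k.factorial : F)⁻¹) * z).orderTop = z.orderTop := by
  rw [orderTop_mul]
  have h1 : (C ((k.factorial : F)⁻¹) : HahnSeries ℚ F).orderTop = 0 := by
    have h2 : ((k.factorial : F)⁻¹) ≠ 0 := by
      apply inv_ne_zero
      exact_mod_cast k.factorial_ne_zero
    exact orderTop_single h2
  rw [h1, zero_add]

/-- **Poles at a place produce polynomial curves.** -/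
theorem curve_at_place {m : ℕ} (τ : M →+* HahnSeries ℚ F) (hτ : ∀ a, τ (algebraMap F M a) = C a)
    (δ : M →+ M) (hδ : ∀ a b, δ (a * b) = δ a * b + a * δ b) (D : F →+ F)
    (hD : ∀ a, δ (algebraMap F M a) = algebraMap F M (D a)) (y : Fin m → M)
    (hreg : ∀ i, 0 ≤ (τ (y i)).orderTop) (q₀ : ℚ)
    (hq₀ : ∀ i k, ((q₀ : ℚ) : WithTop ℚ) ≤ (τ (δ^[k] (y i))).orderTop) (i₀ : Fin m) (k₀ : ℕ)
    (hpole : (τ (δ^[k₀] (y i₀))).orderTop < 0) :
    ∃ c : Fin m → Polynomial F, (∃ i, ∃ k, k ≠ 0 ∧ (c i).coeff k ≠ 0) ∧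
      ∀ Q : MvPolynomial (Fin m) F, MvPolynomial.aeval y Q = 0 → MvPolynomial.aeval c Q = 0 := by
  classical
  obtain ⟨Y, hY⟩ : ∃ Y : Fin m → ℕ → HahnSeries ℚ F, Y = fun i k =>
    C ((k.factorial : F)⁻¹) * τ (δ^[k] (y i)) := ⟨_, rfl⟩
  have hYo : ∀ i k, (Y i k).orderTop = (τ (δ^[k] (y i))).orderTop := by
    intro i k
    rw [hY]
    exact orderTop_fac k _
  have hk₀ : k₀ ≠ 0 := by
    rintro rfl
    exact absurd hpole (not_lt.mpr (hreg i₀))
  have hYk : (Y i₀ k₀).orderTop < 0 := by rw [hYo]; exact hpole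
  -- the maximal slope
  have hval : ∀ i k, (Y i k).orderTop < 0 → ∃ q : ℚ, (Y i k).orderTop = (q : WithTop ℚ) ∧ q < 0 := by
    intro i k h
    have h1 : (Y i k).orderTop ≠ ⊤ := fun h2 => by
      rw [h2] at h
      exact absurd h (not_lt.mpr le_top)
    obtain ⟨q, hq⟩ := WithTop.ne_top_iff_exists.mp h1
    refine ⟨q, hq.symm, ?_⟩
    rw [← hq] at h
    exact_mod_cast h
  obtain ⟨v, hv⟩ : ∃ v : Fin m → ℕ → ℚ, ∀ i k, (Y i k).orderTop < 0 →
      (Y i k).orderTop = ((v i k : ℚ) : WithTop ℚ) ∧ v i k < 0 := by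
    refine ⟨fun i k => if h : (Y i k).orderTop < 0 then (hval i k h).choose else 0, ?_⟩
    intro i k h
    simp only [dif_pos h]
    exact (hval i k h).choose_spec
  have hkpos₀ : (0 : ℚ) < k₀ := by exact_mod_cast Nat.pos_of_ne_zero hk₀
  obtain ⟨K₀, hK₀⟩ := exists_nat_gt (-q₀ / (-v i₀ k₀ / k₀))
  have hα : 0 < -v i₀ k₀ / k₀ := div_pos (by linarith [(hv i₀ k₀ hYk).2]) hkpos₀
  have hmem₀ : ((i₀, k₀) : Fin m × ℕ) ∈ ((Finset.univ ×ˢ Finset.Icc 1 (K₀ + k₀)).filter
      fun p : Fin m × ℕ => (Y p.1 p.2).orderTop < 0) := by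
    rw [Finset.mem_filter, Finset.mem_product, Finset.mem_Icc]
    exact ⟨⟨Finset.mem_univ _, Nat.one_le_iff_ne_zero.mpr hk₀, by simp⟩, hYk⟩
  obtain ⟨⟨i₁, k₁⟩, hmem, hmax⟩ := Finset.exists_max_image
    ((Finset.univ ×ˢ Finset.Icc 1 (K₀ + k₀)).filter fun p : Fin m × ℕ => (Y p.1 p.2).orderTop < 0)
    (fun p => -v p.1 p.2 / (p.2 : ℚ)) ⟨(i₀, k₀), hmem₀⟩
  rw [Finset.mem_filter, Finset.mem_product, Finset.mem_Icc] at hmem
  obtain ⟨⟨-, hk1, hk2⟩, hneg⟩ := hmem
  simp only at hk1 hk2 hneg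
  obtain ⟨μ, hμ⟩ : ∃ μ : ℚ, μ = -v i₁ k₁ / k₁ := ⟨_, rfl⟩
  have hk1' : (0 : ℚ) < k₁ := by exact_mod_cast hk1
  have hμα : -v i₀ k₀ / k₀ ≤ μ := by
    have h1 := hmax (i₀, k₀) hmem₀
    simp only at h1
    rw [hμ]
    exact h1
  have hμ0 : 0 < μ := lt_of_lt_of_le hα hμα
  have hge : ∀ (i : Fin m) (k : ℕ), ((-(k * μ) : ℚ) : WithTop ℚ) ≤ (Y i k).orderTop := by
    intro i k
    by_cases h0 : (Y i k).orderTop < 0
    · have hk : k ≠ 0 := by
        rintro rfl
        rw [hYo] at h0
        exact absurd h0 (not_lt.mpr (hreg i))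
      obtain ⟨h1, h2⟩ := hv i k h0
      rw [h1, WithTop.coe_le_coe]
      have hkpos : (0 : ℚ) < k := by exact_mod_cast Nat.pos_of_ne_zero hk
      by_cases hkK : k ≤ K₀ + k₀
      · have h3 := hmax (i, k) (by
          rw [Finset.mem_filter, Finset.mem_product, Finset.mem_Icc]
          exact ⟨⟨Finset.mem_univ _, Nat.one_le_iff_ne_zero.mpr hk, hkK⟩, h0⟩)
        simp only at h3
        rw [← hμ, div_le_iff₀ hkpos] at h3
        linarith
      · push Not at hkK
        have h3 : q₀ ≤ v i k := by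
          have := hq₀ i k
          rw [← hYo, h1, WithTop.coe_le_coe] at this
          exact this
        have h4 : (K₀ : ℚ) < k := by
          have : K₀ < k := by omega
          exact_mod_cast this
        rw [div_lt_iff₀ hα] at hK₀
        nlinarith
    · push Not at h0
      refine le_trans ?_ h0
      have : -(k * μ : ℚ) ≤ 0 := by
        have : (0 : ℚ) ≤ k * μ := by positivity
        linarith
      exact_mod_cast this
  obtain ⟨s, hs⟩ : ∃ s : HahnSeries ℚ F, s = single μ 1 := ⟨_, rfl⟩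
  have hsord : ∀ k : ℕ, (s ^ k).orderTop = ((k * μ : ℚ) : WithTop ℚ) := by
    intro k
    rw [hs, single_pow, one_pow, nsmul_eq_mul]
    exact orderTop_single one_ne_zero
  have hint : ∀ i k, (0 : WithTop ℚ) ≤ (s ^ k * Y i k).orderTop := by
    intro i k
    have h1 := orderTop_mul_le (hsord k).ge (hge i k)
    refine le_trans ?_ h1
    rw [← WithTop.coe_add]
    have : (k : ℚ) * μ + -(k * μ) = 0 := by ring
    rw [this]
    rfl
  have hcE : ∀ i k, PowerSeries.coeff k (Ex τ δ hδ s (y i)) = s ^ k * Y i k := by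
    intro i k
    rw [coeff_Ex, hY]
  -- the constants
  have hDk : ∀ (a : F) (k : ℕ), δ^[k] (algebraMap F M a) = algebraMap F M (D^[k] a) := by
    intro a k
    induction k with
    | zero => rfl
    | succ k ih => rw [Function.iterate_succ_apply', ih, hD, Function.iterate_succ_apply']
  have hcF : ∀ (a : F) (k : ℕ), ((k * μ : ℚ) : WithTop ℚ) ≤
      (PowerSeries.coeff k (Ex τ δ hδ s (algebraMap F M a))).orderTop := by
    intro a k
    rw [coeff_Ex, hDk, hτ]
    have h1 := orderTop_mul_le (hsord k).ge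
      (orderTop_mul_le (orderTop_C_nonneg ((k.factorial : F)⁻¹)) (orderTop_C_nonneg (D^[k] a)))
    rw [add_zero, add_zero] at h1
    exact h1
  have hcF0 : ∀ (a : F) (k : ℕ), (0 : WithTop ℚ) ≤
      (PowerSeries.coeff k (Ex τ δ hδ s (algebraMap F M a))).orderTop := by
    intro a k
    refine le_trans ?_ (hcF a k)
    have : (0 : ℚ) ≤ k * μ := by positivity
    exact_mod_cast this
  obtain ⟨φ, hφ⟩ := lift_ov ((Ex τ δ hδ s).comp (algebraMap F M)) hcF0
  obtain ⟨yt, hyt⟩ : ∃ yt : Fin m → PowerSeries (Ov F F),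
      yt = fun i => PowerSeries.mk fun k => (⟨s ^ k * Y i k, hint i k⟩ : Ov F F) := ⟨_, rfl⟩
  have hyt' : ∀ i, PowerSeries.map (inc F) (yt i) = Ex τ δ hδ s (y i) := by
    intro i
    ext1 k
    rw [PowerSeries.coeff_map, hyt, PowerSeries.coeff_mk, hcE]
    rfl
  have hfin : ∀ i, ∃ n₀ : ℕ, ∀ k, n₀ ≤ k → rs F (⟨s ^ k * Y i k, hint i k⟩ : Ov F F) = 0 := by
    intro i
    obtain ⟨n₀, hn₀⟩ := exists_nat_gt (-q₀ / μ)
    refine ⟨n₀, fun k hk => ?_⟩
    rw [rs_apply]
    apply coeff_eq_zero_of_lt_orderTop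
    have h0 : ((q₀ : ℚ) : WithTop ℚ) ≤ (Y i k).orderTop := by
      rw [hYo]
      exact hq₀ i k
    have h1 := orderTop_mul_le (hsord k).ge h0
    refine lt_of_lt_of_le ?_ h1
    rw [← WithTop.coe_add]
    have h2 : (0 : ℚ) < k * μ + q₀ := by
      rw [div_lt_iff₀ hμ0] at hn₀
      have h3 : (n₀ : ℚ) ≤ k := by exact_mod_cast hk
      nlinarith
    exact_mod_cast h2
  choose n₀ hn₀ using hfin
  obtain ⟨c, hc⟩ : ∃ c : Fin m → Polynomial F, ∀ i k, (c i).coeff k =
      rs F (⟨s ^ k * Y i k, hint i k⟩ : Ov F F) := by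
    refine ⟨fun i => PowerSeries.trunc (n₀ i) (PowerSeries.map (rs F) (yt i)),
      fun i k => ?_⟩
    rw [PowerSeries.coeff_trunc, PowerSeries.coeff_map, hyt, PowerSeries.coeff_mk]
    split_ifs with h
    · rfl
    · push Not at h
      exact (hn₀ i k h).symm
  refine ⟨c, ⟨i₁, k₁, by omega, ?_⟩, fun Q hQ => ?_⟩
  · rw [hc, rs_apply]
    simp only
    obtain ⟨h1, h2⟩ := hv i₁ k₁ hneg
    have h3 : (s ^ k₁ * Y i₁ k₁).orderTop = ((0 : ℚ) : WithTop ℚ) := by
      rw [orderTop_mul, hsord, h1, ← WithTop.coe_add]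
      congr 1
      rw [hμ]
      field_simp
      ring
    intro h4
    exact coeff_orderTop_ne h3 h4
  · have hι : Function.Injective (PowerSeries.map (inc F)) := by
      intro a a' h
      ext1 k
      have := congrArg (PowerSeries.coeff k) h
      rw [PowerSeries.coeff_map, PowerSeries.coeff_map] at this
      exact Subtype.ext this
    have h1 : MvPolynomial.eval₂ φ yt Q = 0 := by
      apply hι
      rw [map_zero, MvPolynomial.eval₂_comp_left, hφ]
      have h3 : (PowerSeries.map (inc F)) ∘ yt = (Ex τ δ hδ s) ∘ y := by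
        funext i
        exact hyt' i
      rw [h3, ← MvPolynomial.eval₂_comp_left]
      have h4 : MvPolynomial.eval₂ (algebraMap F M) y Q = 0 := hQ
      rw [h4, map_zero]
    have h5 : Function.Injective (Polynomial.coeToPowerSeries.ringHom (R := F)) :=
      Polynomial.coe_injective F
    apply h5
    rw [map_zero]
    have h6 := congrArg (PowerSeries.map (rs F)) h1
    rw [map_zero, MvPolynomial.eval₂_comp_left] at h6
    rw [MvPolynomial.aeval_def, MvPolynomial.eval₂_comp_left, ← h6]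
    congr 1
    · ext1 a
      rw [RingHom.comp_apply, RingHom.comp_apply, Polynomial.coeToPowerSeries.ringHom_apply,
        Polynomial.algebraMap_apply, Polynomial.coe_C]
      ext1 k
      rw [PowerSeries.coeff_map, PowerSeries.coeff_C, rs_apply]
      have h7 : ((PowerSeries.coeff k (φ a) : Ov F F) : HahnSeries ℚ F) =
          PowerSeries.coeff k (Ex τ δ hδ s (algebraMap F M a)) := by
        have h8 := congrArg (fun g : F →+* PowerSeries (HahnSeries ℚ F) =>
          PowerSeries.coeff k (g a)) hφ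
        simp only [RingHom.comp_apply, PowerSeries.coeff_map] at h8
        exact h8
      rw [h7]
      split_ifs with hk
      · subst hk
        rw [coeff_Ex]
        simp [hτ]
      · symm
        apply coeff_eq_zero_of_lt_orderTop
        refine lt_of_lt_of_le ?_ (hcF a k)
        have : (0 : ℚ) < k * μ := by
          have : (0 : ℚ) < k := by exact_mod_cast Nat.pos_of_ne_zero hk
          positivity
        exact_mod_cast this
    · funext i
      ext1 k
      rw [Function.comp_apply, Function.comp_apply, Polynomial.coeToPowerSeries.ringHom_apply,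
        Polynomial.coeff_coe, hc, PowerSeries.coeff_map, hyt, PowerSeries.coeff_mk]

end

end Pool.Agent.Zk18.Rr
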