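import Pool.Agent.Zk18.Rr9

/-!
# Rationality of derivations: conclusion
-/

set_option autoImplicit false
set_option linter.unusedSectionVars false

attribute [-instance] HahnSeries.powerSeriesAlgebra

namespace Pool.Agent.Zk18.Rr

open HahnSeries hiding C
open Pool.Agent.Helper165.P1 Pool.Agent.Zk18 Pool.Agent.Zk18.Md Pool.Agent.Zk18.Fd Polynomial
  IntermediateField

section

variable {F E M : Type} [Field F] [CharZero F] [IsAlgClosed F] [Field E] [CharZero E] [Algebra F E]
  [Field M] [CharZero M] [Algebra F M] [Algebra E M] [IsScalarTower F E M]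

theorem transc_iff (x : E) : Transcendental F (algebraMap E M x) ↔ Transcendental F x := by
  constructor
  · intro h h'
    exact h (h'.algebraMap (A := M))
  · intro h h'
    exact h ((isAlgebraic_algebraMap_iff (algebraMap E M).injective).mp h')

/-- algebraicity over the two copies of the rational function field -/
theorem alg_copy (x : E) [Algebra.IsAlgebraic F⟮algebraMap E M x⟯ M] :
    Algebra.IsAlgebraic F⟮x⟯ M := by
  let φ : E →ₐ[F] M := IsScalarTower.toAlgHom F E M
  have hmap : F⟮x⟯.map φ = F⟮algebraMap E M x⟯ := by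
    rw [adjoin_map, Set.image_singleton]
    rfl
  let f : F⟮x⟯ →+* F⟮algebraMap E M x⟯ :=
    ((algebraMap E M).comp (algebraMap F⟮x⟯ E)).codRestrict F⟮algebraMap E M x⟯ (by
      intro c
      rw [← hmap]
      exact ⟨c, c.2, rfl⟩)
  have hf : ∀ c : F⟮x⟯, ((f c : F⟮algebraMap E M x⟯) : M) = algebraMap E M (c : E) := fun c => rfl
  refine Algebra.IsAlgebraic.of_ringHom_of_comp_eq (S := F⟮algebraMap E M x⟯) (B := M) f
    (RingHom.id M) ?_ Function.injective_id ?_
  · rintro ⟨c, hc⟩
    rw [← hmap] at hc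
    obtain ⟨c', hc', hcc⟩ := hc
    exact ⟨⟨c', hc'⟩, Subtype.ext hcc⟩
  · ext c
    rfl

theorem finite_over (x : E) [Algebra.IsAlgebraic F⟮x⟯ E] {m : ℕ} (y : Fin m → E)
    (htop : adjoin F (Set.range y) = ⊤) : FiniteDimensional F⟮x⟯ E := by
  have h1 : FiniteDimensional F⟮x⟯ (adjoin F⟮x⟯ (Set.range y)) :=
    finiteDimensional_adjoin fun u _ => Algebra.IsIntegral.isIntegral u
  have h2 : adjoin F⟮x⟯ (Set.range y) = ⊤ := by
    rw [eq_top_iff]
    intro u _
    have h3 : u ∈ adjoin F (Set.range y) := by rw [htop]; exact mem_top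
    have h4 : adjoin F (Set.range y) ≤ (adjoin F⟮x⟯ (Set.range y)).restrictScalars F := by
      rw [adjoin_le_iff]
      exact subset_adjoin _ _
    exact h4 h3
  rw [h2] at h1
  exact Module.Finite.equiv (topEquiv (F := F⟮x⟯) (E := E)).toLinearEquiv

/-- a derivation which vanishes at a coordinate vanishes -/
theorem der_zero (X : M) [Algebra.IsAlgebraic F⟮X⟯ M] (Δ : M →+ M)
    (hΔ : ∀ a b, Δ (a * b) = Δ a * b + a * Δ b) (hΔF : ∀ a : F, Δ (algebraMap F M a) = 0)
    (hX : Δ X = 0) (u : M) : Δ u = 0 := by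
  have h1 : Δ 1 = 0 := by rw [← map_one (algebraMap F M)]; exact hΔF 1
  have h2 : ∀ c : F⟮X⟯, Δ (algebraMap F⟮X⟯ M c) = 0 := by
    rintro ⟨c, hc⟩
    change Δ c = 0
    induction hc using IntermediateField.adjoin_induction with
    | mem c hc =>
      rw [Set.mem_singleton_iff] at hc
      rw [hc]
      exact hX
    | algebraMap a => exact hΔF a
    | add u v _ _ hu hv => rw [map_add, hu, hv, add_zero]
    | inv u hu0 hu =>
      by_cases h0 : u = 0
      · rw [h0, inv_zero, map_zero]
      · have h1' := hΔ u u⁻¹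
        rw [mul_inv_cancel₀ h0, h1, hu, zero_mul, zero_add] at h1'
        rcases mul_eq_zero.mp h1'.symm with h2 | h2
        · exact absurd h2 h0
        · exact h2
    | mul u v _ _ hu hv => rw [hΔ, hu, hv, zero_mul, mul_zero, add_zero]
  exact twisted_zero (F := F⟮X⟯) (RingHom.id M) Δ (by
    intro a b
    exact hΔ a b) h2 u (Algebra.IsAlgebraic.isAlgebraic u)

variable [IsAlgClosed M]

/-- **Rationality.** -/
theorem rational (htd : TrOne F M) {m N : ℕ} (δ : M →+ M)
    (hδ : ∀ a b, δ (a * b) = δ a * b + a * δ b) (D : F →+ F)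
    (hDD : ∀ a b, D (a * b) = D a * b + a * D b)
    (hD : ∀ a, δ (algebraMap F M a) = algebraMap F M (D a)) (b : Fin N → M) (hb : ∀ j, δ (b j) = 0)
    (f : Fin m → Fin N → F) (y : Fin m → E)
    (hy : ∀ i, algebraMap E M (y i) = ∑ j, algebraMap F M (f i j) * b j)
    (htop : adjoin F (Set.range y) = ⊤)
    (hNA : NA F (fun i => algebraMap E M (y i)))
    (hyF : ∃ i, algebraMap E M (y i) ∉ Set.range (algebraMap F M)) (w : E) :
    ∃ w' : E, δ (algebraMap E M w) = algebraMap E M w' := by
  classical
  obtain ⟨i₀, hi₀⟩ := hyF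
  have hNA' : NA F (fun i => ∑ j, algebraMap F M (f i j) * b j) := by
    have h1 : (fun i => ∑ j, algebraMap F M (f i j) * b j) = fun i => algebraMap E M (y i) := by
      funext i
      rw [hy]
    rw [h1]
    exact hNA
  -- algebraicity
  have halgM : ∀ x : E, Transcendental F x → Algebra.IsAlgebraic F⟮algebraMap E M x⟯ M := by
    intro x hx
    apply htd
    rintro ⟨a, ha⟩
    have h1 : Transcendental F (algebraMap E M x) := (transc_iff x).mpr hx
    rw [← ha] at h1
    exact h1 (isAlgebraic_algebraMap a)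
  have halgE : ∀ x : E, Transcendental F x → Algebra.IsAlgebraic F⟮x⟯ E := by
    intro x hx
    have := halgM x hx
    have := alg_copy (F := F) (M := M) x
    exact Algebra.IsAlgebraic.tower_bot F⟮x⟯ E M
  have hfd : ∀ x : E, Transcendental F x → FiniteDimensional F⟮x⟯ E := by
    intro x hx
    have := halgE x hx
    exact finite_over x y htop
  have hy0 : Transcendental F (y i₀) := (transc_iff (y i₀)).mp (transc_of_notMem hi₀)
  have halgEM : Algebra.IsAlgebraic E M := by
    have := halgM (y i₀) hy0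
    have := alg_copy (F := F) (M := M) (y i₀)
    exact Algebra.IsAlgebraic.tower_top (K := F⟮y i₀⟯) E
  have hAC : IsAlgClosure E M := ⟨inferInstance, halgEM⟩
  have hGal : IsGalois E M := { }
  -- finite places
  have hreg : ∀ τ : M →ₐ[F] Pui F, (∀ i, 0 ≤ vP F (τ (algebraMap E M (y i)))) →
      ∀ i k, 0 ≤ vP F (τ (δ^[k] (algebraMap E M (y i)))) := by
    intro τ hτ i k
    have h1 := finite_regular htd (tc τ) (tc_C τ) δ hδ D hD b hb f hNA' (by
      intro i
      rw [tc_ord, ← hy]
      exact hτ i) i k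
    rw [tc_ord, ← hy] at h1
    exact h1
  have hmem : ∀ w : E, algebraMap E M w ∈ adjoin F (Set.range fun i => algebraMap E M (y i)) := by
    intro w
    have h1 : w ∈ adjoin F (Set.range y) := by rw [htop]; exact mem_top
    have h2 : (adjoin F (Set.range y)).map (IsScalarTower.toAlgHom F E M) =
        adjoin F (Set.range fun i => algebraMap E M (y i)) := by
      rw [adjoin_map, ← Set.range_comp]
      rfl
    rw [← h2]
    exact ⟨w, h1, rfl⟩
  have hfin : ∀ τ : M →ₐ[F] Pui F, (∀ i, 0 ≤ vP F (τ (algebraMap E M (y i)))) → ∀ w : E,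
      0 ≤ vP F (τ (algebraMap E M w)) → 0 ≤ vP F (τ (δ (algebraMap E M w))) := by
    intro τ hτ w hw
    have := halgM (y i₀) hy0
    exact der_finite τ δ hδ D hD (fun i => algebraMap E M (y i)) (hreg τ hτ)
      (x := algebraMap E M (y i₀)) ((transc_iff _).mpr hy0)
      (Algebra.subset_adjoin ⟨i₀, rfl⟩) (hmem w) hw
  have hinf : ∀ τ : M →ₐ[F] Pui F, (¬ ∀ i, 0 ≤ vP F (τ (algebraMap E M (y i)))) → ∀ w : M,
      vP F (τ w) ≤ vP F (τ (δ w)) := by
    intro τ hτ w
    obtain ⟨j, hj⟩ : ∃ j, vP F (τ (b j)) < 0 := by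
      by_contra hno
      push Not at hno
      apply hτ
      intro i
      rw [hy, map_sum]
      apply val_sum
      intro j _
      rw [map_mul, AddValuation.map_mul, τ.commutes]
      exact add_nonneg (vP_algebraMap_nonneg _) (hno j)
    exact der_infinite htd τ δ hδ D hDD hD (b j) (hb j) hj w
  -- the differences
  let Δ : (M ≃ₐ[E] M) → (M →+ M) := fun ς =>
    δ - (ς.toRingEquiv.toAddMonoidHom).comp (δ.comp ς.symm.toRingEquiv.toAddMonoidHom)
  have hΔ : ∀ ς u, Δ ς u = δ u - ς (δ (ς.symm u)) := fun ς u => rfl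
  have hΔmul : ∀ ς a b, Δ ς (a * b) = Δ ς a * b + a * Δ ς b := by
    intro ς a b
    rw [hΔ, hΔ, hΔ, hδ, map_mul, hδ, map_add, map_mul, map_mul, ς.apply_symm_apply,
      ς.apply_symm_apply]
    ring
  have hςF : ∀ (ς : M ≃ₐ[E] M) (a : F), ς (algebraMap F M a) = algebraMap F M a := by
    intro ς a
    rw [IsScalarTower.algebraMap_apply F E M, ς.commutes]
  have hΔF : ∀ ς (a : F), Δ ς (algebraMap F M a) = 0 := by
    intro ς a
    rw [hΔ, hςF ς.symm, hD, hςF, sub_self]
  have hΔE : ∀ ς (w : E), Δ ς (algebraMap E M w) = δ (algebraMap E M w) -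
      ς (δ (algebraMap E M w)) := by
    intro ς w
    rw [hΔ, ς.symm.commutes]
  -- conjugate places
  let cj : (M ≃ₐ[E] M) → (M →ₐ[F] Pui F) → (M →ₐ[F] Pui F) := fun ς τ =>
    τ.comp (ς.restrictScalars F).toAlgHom
  have hcj : ∀ ς τ u, cj ς τ u = τ (ς u) := fun ς τ u => rfl
  have hcjE : ∀ ς τ (u : E), cj ς τ (algebraMap E M u) = τ (algebraMap E M u) := by
    intro ς τ u
    rw [hcj, ς.commutes]
  have h3 : ∀ ς (τ : M →ₐ[F] Pui F) (w : E), 0 ≤ vP F (τ (algebraMap E M w)) →
      0 ≤ vP F (τ (Δ ς (algebraMap E M w))) := by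
    intro ς τ w hw
    rw [hΔE, map_sub, ← hcj]
    refine le_trans (le_min ?_ ?_) (AddValuation.map_sub _ _ _)
    · by_cases hτ : ∀ i, 0 ≤ vP F (τ (algebraMap E M (y i)))
      · exact hfin τ hτ w hw
      · exact hw.trans (hinf τ hτ _)
    · have hw' : 0 ≤ vP F (cj ς τ (algebraMap E M w)) := by rw [hcjE]; exact hw
      by_cases hτ : ∀ i, 0 ≤ vP F (cj ς τ (algebraMap E M (y i)))
      · exact hfin _ hτ w hw'
      · exact hw'.trans (hinf _ hτ _)
  have h4 : ∀ ς (τ : M →ₐ[F] Pui F), (¬ ∀ i, 0 ≤ vP F (τ (algebraMap E M (y i)))) → ∀ w : E,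
      vP F (τ (algebraMap E M w)) ≤ vP F (τ (Δ ς (algebraMap E M w))) := by
    intro ς τ hτ w
    rw [hΔE, map_sub, ← hcj]
    refine le_trans (le_min (hinf τ hτ _) ?_) (AddValuation.map_sub _ _ _)
    have h5 := hinf (cj ς τ) (by
      intro h
      apply hτ
      intro i
      rw [← hcjE ς τ]
      exact h i) (algebraMap E M w)
    rw [hcjE] at h5
    exact h5
  -- a coordinate of minimal degree
  let S : Set E := {w | ∀ τ : M →ₐ[F] Pui F, (∀ i, 0 ≤ vP F (τ (algebraMap E M (y i)))) →
    0 ≤ vP F (τ (algebraMap E M w))}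
  have hex : ∃ d : ℕ, ∃ x ∈ S, Transcendental F x ∧ Module.finrank F⟮x⟯ E = d :=
    ⟨_, y i₀, fun τ hτ => hτ i₀, hy0, rfl⟩
  obtain ⟨x, hxS, hx, hxd⟩ := Nat.find_spec hex
  have hmin : ∀ g ∈ S, Transcendental F g → Module.finrank F⟮x⟯ E ≤ Module.finrank F⟮g⟯ E := by
    intro g hg hgt
    rw [hxd]
    exact Nat.find_min' hex ⟨g, hg, hgt, rfl⟩
  have hfx := hfd x hx
  have haM := halgM x hx
  set X : M := algebraMap E M x with hX
  have hXt : Transcendental F X := (transc_iff x).mpr hx
  have hXinf : ∀ τ : M →ₐ[F] Pui F, τ X = tinv → ¬ ∀ i, 0 ≤ vP F (τ (algebraMap E M (y i))) := by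
    intro τ hτ h
    have h1 := hxS τ h
    rw [← hX, hτ, vP_tinv'] at h1
    have h2 : (0 : ℚ) ≤ -1 := by exact_mod_cast h1
    norm_num at h2
  have hVS : ∀ g ∈ VV (F := F) x 1, g ∈ S := by
    intro g hg τ hτ
    have h1 := itg_of_regular x g hx hg.1
    exact regular_of_itg h1 (rst τ) (hxS τ hτ)
  -- it suffices to treat the coordinate
  suffices hsuff : ∀ ς, Δ ς X = 0 by
    have h1 : ∀ ς : M ≃ₐ[E] M, ς (δ (algebraMap E M w)) = δ (algebraMap E M w) := by
      intro ς
      have h2 := der_zero X (Δ ς) (hΔmul ς) (hΔF ς) (hsuff ς) (algebraMap E M w)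
      rw [hΔE, sub_eq_zero] at h2
      exact h2.symm
    obtain ⟨w', hw'⟩ := (InfiniteGalois.mem_range_algebraMap_iff_fixed _).mpr h1
    exact ⟨w', hw'.symm⟩
  by_cases hN : 2 ≤ Module.finrank F⟮x⟯ E
  · obtain ⟨z, hz0, hz⟩ := dual_form x hx hN (minimal_coord S hfd x hx hVS hmin)
    intro ς
    exact zero_of_form x hXt (Δ ς) (hΔmul ς) (hΔF ς) (h3 ς) (fun τ hτ => by
      have h5 := h4 ς τ (hXinf τ hτ) x
      rw [← hX, hτ, vP_tinv'] at h5
      exact h5) z hz0 (fun a τ hτ => form_fin x hx z hz a τ hτ)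
      (fun τ hτ => form_inf x hx z hz τ hτ)
  · -- the rational case
    have hN1 : Module.finrank F⟮x⟯ E = 1 := by
      have : 0 < Module.finrank F⟮x⟯ E := Module.finrank_pos
      omega
    have hxtop : F⟮x⟯ = ⊤ := by
      have h5 := Module.finrank_mul_finrank F F⟮x⟯ E
      have h6 : ∀ u : E, u ∈ F⟮x⟯ := by
        intro u
        obtain ⟨c, hc⟩ := (finrank_eq_one_iff_of_nonzero' (1 : E) one_ne_zero).mp hN1 u
        rw [← hc, Algebra.smul_def, mul_one]
        exact c.2
      rw [eq_top_iff]
      exact fun u _ => h6 u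
    have hxt : ∀ u : E, u ∈ F⟮x⟯ := fun u => by rw [hxtop]; exact mem_top
    have hagree : ∀ (τ τ' : M →ₐ[F] Pui F), τ X = τ' X → ∀ u : E,
        τ (algebraMap E M u) = τ' (algebraMap E M u) := by
      intro τ τ' h u
      exact agree x (rst τ) (rst τ') h (hxt u)
    obtain ⟨ρ, τ₁, hτ₁, hτ₁'⟩ : ∃ (ρ : F) (τ₁ : M →ₐ[F] Pui F), τ₁ X = fin ρ ∧
        ¬ ∀ i, 0 ≤ vP F (τ₁ (algebraMap E M (y i))) := by
      by_contra hno
      push Not at hno
      have h5 : ∀ i, ∃ p : F[X], y i = aeval x p := by
        intro i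
        have := halgE x hx
        apply poly_of_regular x hx (hxt (y i))
        intro a σ hσ
        obtain ⟨τ, hτ⟩ := exists_tau X hXt (fin a) (transcendental_fin a)
        have h6 := hno a τ hτ i
        have h7 : σ (y i) = rst τ (y i) := agree x σ (rst τ) (by rw [hσ, rst_apply]; exact hτ.symm)
          (hxt (y i))
        rw [h7]
        exact h6
      choose p hp using h5
      have hk : ∃ k, k ≠ 0 ∧ (p i₀).coeff k ≠ 0 := by
        by_contra h6
        push Not at h6
        apply hi₀
        refine ⟨(p i₀).coeff 0, ?_⟩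
        have h7 : p i₀ = C ((p i₀).coeff 0) := by
          ext k
          rw [coeff_C]
          split_ifs with hk
          · rw [hk]
          · exact h6 k hk
        rw [hp i₀, h7, aeval_C, coeff_C_zero, ← IsScalarTower.algebraMap_apply]
      obtain ⟨k, hk, hpk⟩ := hk
      refine no_curve htd _ hNA p i₀ k hk hpk ?_
      intro Q hQ
      have h6 : aeval x (MvPolynomial.aeval p Q) = 0 := by
        have h7 : algebraMap E M (aeval x (MvPolynomial.aeval p Q)) =
            MvPolynomial.aeval (fun i => algebraMap E M (y i)) Q := by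
          have h8 := MvPolynomial.comp_aeval_apply (f := p)
            (φ := ((IsScalarTower.toAlgHom F E M).comp (aeval x : F[X] →ₐ[F] E))) Q
          have h9 : (fun i => ((IsScalarTower.toAlgHom F E M).comp (aeval x : F[X] →ₐ[F] E)) (p i)) =
              fun i => algebraMap E M (y i) := by
            funext i
            rw [hp i]
            rfl
          rw [h9] at h8
          exact h8
        rw [hQ] at h7
        exact (map_eq_zero _).mp h7
      exact (transcendental_iff.mp hx) _ h6
    have hXρ : ∀ τ : M →ₐ[F] Pui F, τ X = fin ρ → ¬ ∀ i, 0 ≤ vP F (τ (algebraMap E M (y i))) := by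
      intro τ hτ h
      apply hτ₁'
      intro i
      rw [hagree τ₁ τ (by rw [hτ₁, hτ]) (y i)]
      exact h i
    have hne : X - algebraMap F M ρ ≠ 0 := by
      intro h0
      apply hXt
      rw [sub_eq_zero] at h0
      rw [h0]
      exact isAlgebraic_algebraMap ρ
    have hxρM : algebraMap E M (x - algebraMap F E ρ) = X - algebraMap F M ρ := by
      rw [map_sub, ← IsScalarTower.algebraMap_apply]
    have hΔρ : ∀ ς, Δ ς (algebraMap E M (x - algebraMap F E ρ)) = Δ ς X := by
      intro ς
      rw [hxρM, map_sub, hΔF, sub_zero]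
    have hdivv : ∀ {u v : Pui F}, v ≠ 0 → vP F v ≤ vP F u → 0 ≤ vP F (u / v) := by
      intro u v hv huv
      have h5 := AddValuation.map_mul (vP F) (u / v) v
      rw [div_mul_cancel₀ _ hv] at h5
      obtain ⟨g, hg⟩ := val_exists (vP F) hv
      rw [h5, hg] at huv
      by_contra hno
      rw [not_le] at hno
      obtain ⟨h, hh⟩ := WithTop.ne_top_iff_exists.mp (ne_of_lt (lt_of_lt_of_le hno le_top))
      rw [← hh] at huv hno
      rw [← WithTop.coe_add, WithTop.coe_le_coe] at huv
      have h6 : h < 0 := by exact_mod_cast hno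
      linarith
    have hconst : ∀ ς, ∃ c : F, Δ ς X = algebraMap F M c * (X - algebraMap F M ρ) := by
      intro ς
      obtain ⟨c, hc⟩ := const_of_regular (F := F) X (Δ ς X / (X - algebraMap F M ρ)) (by
        intro a τ hτ
        have hτne : τ (X - algebraMap F M ρ) ≠ 0 := by
          rw [ne_eq, map_eq_zero]; exact hne
        rw [map_div₀]
        apply hdivv hτne
        by_cases ha : a = ρ
        · subst ha
          have h5 := h4 ς τ (hXρ τ hτ) (x - algebraMap F E a)
          rw [hΔρ, hxρM] at h5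
          exact h5
        · have h5 : vP F (τ (X - algebraMap F M ρ)) = 0 := by
            have h6 : X - algebraMap F M ρ = aeval X (Polynomial.X - C ρ : F[X]) := by
              rw [map_sub, aeval_X, aeval_C]
            rw [h6]
            apply vP_poly_zero τ hτ
            rw [eval_sub, eval_X, eval_C]
            exact sub_ne_zero.mpr ha
          rw [h5]
          apply h3 ς τ x
          rw [← hX, hτ]
          exact vP_fin_nonneg a) (by
        intro τ hτ
        have hτne : τ (X - algebraMap F M ρ) ≠ 0 := by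
          rw [ne_eq, map_eq_zero]; exact hne
        rw [map_div₀]
        apply hdivv hτne
        have h5 := h4 ς τ (hXinf τ hτ) (x - algebraMap F E ρ)
        rw [hΔρ, hxρM] at h5
        exact h5)
      exact ⟨c, by rw [hc, div_mul_cancel₀ _ hne]⟩
    intro ς
    obtain ⟨c, hc⟩ := hconst ς
    by_cases hc0 : c = 0
    · rw [hc, hc0, map_zero, zero_mul]
    · exfalso
      set ω : M := δ X / (X - algebraMap F M ρ) with hω
      have hςX : ς (X - algebraMap F M ρ) = X - algebraMap F M ρ := by
        rw [← hxρM, ς.commutes]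
      have hςω : ς ω = ω - algebraMap F M c := by
        have h5 := hΔE ς x
        rw [← hX, hc] at h5
        rw [hω, map_div₀, hςX, eq_sub_iff_add_eq, div_add' _ _ _ hne, div_left_inj' hne, h5]
        ring
      have hroot : ∀ k : ℕ, aeval (ω - (k : M) * algebraMap F M c) (minpoly E ω) = 0 := by
        intro k
        induction k with
        | zero => rw [Nat.cast_zero, zero_mul, sub_zero, minpoly.aeval]
        | succ k ih =>
          have h5 := congrArg ς ih
          rw [map_zero, ← aeval_algHom_apply] at h5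
          have h6 : ς (ω - (k : M) * algebraMap F M c) = ω - ((k + 1 : ℕ) : M) * algebraMap F M c := by
            rw [map_sub, map_mul, map_natCast, hςF, hςω]
            push_cast
            ring
          rw [h6] at h5
          exact h5
      have hint : IsIntegral E ω := Algebra.IsIntegral.isIntegral ω
      have hfinite : ((minpoly E ω).rootSet M).Finite := Set.toFinite _
      have hinj : Function.Injective fun k : ℕ => ω - (k : M) * algebraMap F M c := by
        intro k l h
        have h5 : (k : M) * algebraMap F M c = (l : M) * algebraMap F M c := by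
          have h6 : ω - (k : M) * algebraMap F M c = ω - (l : M) * algebraMap F M c := h
          exact sub_right_injective h6
        have h6 : algebraMap F M c ≠ 0 := by rw [ne_eq, map_eq_zero]; exact hc0
        exact_mod_cast mul_right_cancel₀ h6 h5
      apply Set.infinite_range_of_injective hinj
      apply hfinite.subset
      rintro _ ⟨k, rfl⟩
      rw [mem_rootSet]
      exact ⟨minpoly.ne_zero hint, hroot k⟩

end

end Pool.Agent.Zk18.Rr
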