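import Pool.Agent.Zk18.Rr10
import Pool.Agent.Zk18.Fd9

/-!
# The field of a generic point
-/

set_option autoImplicit false
set_option linter.unusedSectionVars false

attribute [-instance] HahnSeries.powerSeriesAlgebra

namespace Pool.Agent.Zk18.Rr

open Pool.Agent.Zk18 Pool.Agent.Zk18.Md Pool.Agent.Zk18.Fd IntermediateField

theorem alg_copy' {F E M : Type} [Field F] [Field E] [Field M] [Algebra F E] [Algebra F M]
    [Algebra E M] [IsScalarTower F E M] (x u : E)
    (h : IsAlgebraic F⟮algebraMap E M x⟯ (algebraMap E M u)) : IsAlgebraic F⟮x⟯ u := by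
  let φ : E →ₐ[F] M := IsScalarTower.toAlgHom F E M
  have hmap : F⟮x⟯.map φ = F⟮algebraMap E M x⟯ := by
    rw [adjoin_map, Set.image_singleton]
    rfl
  let f : F⟮x⟯ →+* F⟮algebraMap E M x⟯ :=
    ((algebraMap E M).comp (algebraMap F⟮x⟯ E)).codRestrict F⟮algebraMap E M x⟯ (by
      intro c
      rw [← hmap]
      exact ⟨c, c.2, rfl⟩)
  refine IsAlgebraic.of_ringHom_of_comp_eq f (algebraMap E M) h ?_ (algebraMap E M).injective ?_
  · rintro ⟨c, hc⟩
    rw [← hmap] at hc
    obtain ⟨c', hc', hcc⟩ := hc
    exact ⟨⟨c', hc'⟩, Subtype.ext hcc⟩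
  · ext c
    rfl

theorem trOne_KK {F Ω : Type} [Field F] [IsAlgClosed F] [Field Ω] [Algebra F Ω]
    (y : Fin 2 → Ω) (P : MvPolynomial (Fin 2) F) (hP : P ≠ 0) (hPy : MvPolynomial.aeval y P = 0) :
    TrOne F (KK F (Set.range y)) := by
  intro w hw
  refine ⟨fun u => ?_⟩
  have hwt : Transcendental F (w : Ω) := by
    intro h
    have h1 : IsAlgebraic F w := by
      have h2 : algebraMap (KK F (Set.range y)) Ω w = (w : Ω) := rfl
      rw [← h2] at h
      exact (isAlgebraic_algebraMap_iff (algebraMap (KK F (Set.range y)) Ω).injective).mp h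
    exact (transc_of_notMem hw) h1
  have hrk : (AlgebraicIndependent.matroid F Ω).eRk (Set.range y) ≤ 1 := by
    have h := rank_le (k := 1) y P hP hPy
    exact_mod_cast h
  have h1 : (AlgebraicIndependent.matroid F Ω).eRk {(w : Ω), (u : Ω)} ≤ 1 := by
    rw [← Matroid.eRk_closure_eq] at hrk
    refine ((AlgebraicIndependent.matroid F Ω).eRk_mono ?_).trans hrk
    rintro z (rfl | rfl)
    · rw [← mem_KK]; exact w.2
    · rw [← mem_KK]; exact u.2
  have h2 : (1 : ℕ∞) ≤ (AlgebraicIndependent.matroid F Ω).eRk {(w : Ω)} := by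
    have h3 : (AlgebraicIndependent.matroid F Ω).Indep {(w : Ω)} := by
      rw [AlgebraicIndependent.matroid_indep_iff]
      change AlgebraicIndependent F (fun i : ({(w : Ω)} : Set Ω) => id (i : Ω))
      rw [algebraicIndependent_unique_type_iff]
      exact hwt
    rw [h3.eRk_eq_encard, Set.encard_singleton]
  have h4 : (AlgebraicIndependent.matroid F Ω).closure {(w : Ω)} =
      (AlgebraicIndependent.matroid F Ω).closure {(w : Ω), (u : Ω)} := by
    apply Matroid.IsRkFinite.closure_eq_closure_of_subset_of_eRk_ge_eRk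
    · rw [← Matroid.eRk_lt_top_iff]
      refine lt_of_le_of_lt (((AlgebraicIndependent.matroid F Ω).eRk_mono ?_).trans h1)
        (by exact_mod_cast ENat.natCast_lt_top 1)
      exact Set.singleton_subset_iff.mpr (Set.mem_insert _ _)
    · exact Set.singleton_subset_iff.mpr (Set.mem_insert _ _)
    · exact h1.trans h2
  have h5 : (u : Ω) ∈ KK F {(w : Ω)} := by
    rw [mem_KK, h4, ← mem_KK]
    exact mem_KK_of_mem (Set.mem_insert_of_mem _ rfl)
  have h6 : IsAlgebraic F⟮(w : Ω)⟯ (u : Ω) := by
    have h7 : (u : Ω) ∈ algebraicClosure (IntermediateField.adjoin F {(w : Ω)}) Ω := h5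
    rwa [mem_algebraicClosure_iff] at h7
  exact alg_copy' (M := Ω) w u h6

/-- twisted derivations which vanish at `w` vanish at the elements algebraic over `w` -/
theorem twisted_zero' {K L M : Type} [Field K] [Field L] [CharZero L] [Field M] [Algebra K L]
    (j : L →+* M) (ψ : L →+ M) (hψ : ∀ x y, ψ (x * y) = ψ x * j y + j x * ψ y)
    (h0 : ∀ a : K, ψ (algebraMap K L a) = 0) (w : L) (hw : ψ w = 0) (l : L)
    (hl : IsAlgebraic K⟮w⟯ l) : ψ l = 0 := by
  have h1 : ψ 1 = 0 := by rw [← map_one (algebraMap K L)]; exact h0 1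
  have h2 : ∀ c : K⟮w⟯, ψ (algebraMap K⟮w⟯ L c) = 0 := by
    rintro ⟨c, hc⟩
    change ψ c = 0
    induction hc using IntermediateField.adjoin_induction with
    | mem c hc =>
      rw [Set.mem_singleton_iff] at hc
      rw [hc]
      exact hw
    | algebraMap a => exact h0 a
    | add u v _ _ hu hv => rw [map_add, hu, hv, add_zero]
    | inv u hu0 hu =>
      by_cases h0 : u = 0
      · rw [h0, inv_zero, map_zero]
      · have h1' := hψ u u⁻¹
        rw [mul_inv_cancel₀ h0, h1, hu, zero_mul, zero_add] at h1'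
        rcases mul_eq_zero.mp h1'.symm with h2 | h2
        · exact absurd ((map_eq_zero j).mp h2) h0
        · exact h2
    | mul u v _ _ hu hv => rw [hψ, hu, hv, zero_mul, mul_zero, add_zero]
  exact twisted_zero (F := K⟮w⟯) j ψ hψ h2 l hl

section

variable {K F L Ω : Type} [Field K] [Field F] [Field L] [Field Ω] [CharZero K]
  [Algebra K F] [Algebra K L] [Algebra F Ω] [Algebra L Ω] [Algebra K Ω]
  [IsScalarTower K F Ω] [IsScalarTower K L Ω]

theorem alg_of_mem (hdis : Function.Injective (pm K F L Ω)) (s : Set Ω)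
    (hs : (AlgebraicIndependent.matroid F Ω).eRk s ≤ 1) (w l : L)
    (hw : algebraMap L Ω w ∈ KK F s) (hl : algebraMap L Ω l ∈ KK F s) (hwt : Transcendental K w) :
    IsAlgebraic K⟮w⟯ l := by
  have h1 : (AlgebraicIndependent.matroid K L).eRk {w, l} ≤ 1 := by
    have h := rank_le_of_mem (k := 1) hdis (by exact_mod_cast hs) {w, l} (by
      rintro x (rfl | rfl)
      · exact hw
      · exact hl)
    exact_mod_cast h
  have h2 : (1 : ℕ∞) ≤ (AlgebraicIndependent.matroid K L).eRk {w} := by
    have h3 : (AlgebraicIndependent.matroid K L).Indep {w} := by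
      rw [AlgebraicIndependent.matroid_indep_iff]
      change AlgebraicIndependent K (fun i : ({w} : Set L) => id (i : L))
      rw [algebraicIndependent_unique_type_iff]
      exact hwt
    rw [h3.eRk_eq_encard, Set.encard_singleton]
  have h4 : (AlgebraicIndependent.matroid K L).closure {w} =
      (AlgebraicIndependent.matroid K L).closure {w, l} := by
    apply Matroid.IsRkFinite.closure_eq_closure_of_subset_of_eRk_ge_eRk
    · rw [← Matroid.eRk_lt_top_iff]
      refine lt_of_le_of_lt (((AlgebraicIndependent.matroid K L).eRk_mono ?_).trans h1)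
        (by exact_mod_cast ENat.natCast_lt_top 1)
      exact Set.singleton_subset_iff.mpr (Set.mem_insert _ _)
    · exact Set.singleton_subset_iff.mpr (Set.mem_insert _ _)
    · exact h1.trans h2
  have h5 : l ∈ KK K {w} := by
    rw [mem_KK, h4, ← mem_KK]
    exact mem_KK_of_mem (Set.mem_insert_of_mem _ rfl)
  have h7 : l ∈ algebraicClosure (IntermediateField.adjoin K {w}) L := h5
  rwa [mem_algebraicClosure_iff] at h7

/-- **The derivation of the algebraic closure of `F(y)` which is trivial on the constants.** -/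
theorem exists_delta (hdis : Function.Injective (pm K F L Ω)) (s : Set Ω)
    (hs : (AlgebraicIndependent.matroid F Ω).eRk s ≤ 1) (w : L)
    (hw : algebraMap L Ω w ∈ KK F s) (hwt : Transcendental F (algebraMap L Ω w))
    (D : F →+ F) (hD : ∀ a b, D (a * b) = D a * b + a * D b)
    (hDK : ∀ k : K, D (algebraMap K F k) = 0) :
    ∃ δ : KK F s →+ KK F s, (∀ a b, δ (a * b) = δ a * b + a * δ b) ∧
      (∀ a, δ (algebraMap F (KK F s) a) = algebraMap F (KK F s) (D a)) ∧
      ∀ (l : L) (hl : algebraMap L Ω l ∈ KK F s), δ ⟨algebraMap L Ω l, hl⟩ = 0 := by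
  classical
  have hcE : CharZero Ω := charZero_of_injective_algebraMap (algebraMap K Ω).injective
  have hcF : CharZero F := charZero_of_injective_algebraMap (algebraMap K F).injective
  have hcL : CharZero L := charZero_of_injective_algebraMap (algebraMap K L).injective
  let M := KK F s
  have hcM : CharZero M := charZero_of_injective_algebraMap (algebraMap F M).injective
  let wM : M := ⟨algebraMap L Ω w, hw⟩
  have hwM : Transcendental F wM := by
    intro h
    exact hwt (h.algebraMap (A := Ω))
  have hwK : Transcendental K w := by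
    intro h
    apply hwt
    have h1 : IsAlgebraic K (algebraMap L Ω w) := h.algebraMap (A := Ω)
    exact h1.tower_top F
  obtain ⟨δ₁, hδ₁, hδ₁F⟩ := ext_der (F := F) (M := M) D hD
  obtain ⟨dd, hq, hqF, hqw⟩ := exists_der (K := F) (F := M) wM hwM
  let δ : M →+ M := δ₁ - (AddMonoidHom.mulLeft (δ₁ wM)).comp dd
  have hδa : ∀ u, δ u = δ₁ u - δ₁ wM * dd u := fun u => rfl
  have hδ : ∀ a b, δ (a * b) = δ a * b + a * δ b := by
    intro a b
    rw [hδa, hδa, hδa, hδ₁, hq]
    ring
  refine ⟨δ, hδ, fun a => by rw [hδa, hδ₁F, hqF, mul_zero, sub_zero], fun l hl => ?_⟩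
  -- the constants
  let LM : IntermediateField K L :=
    { carrier := {l | algebraMap L Ω l ∈ KK F s}
      mul_mem' := by
        intro a b ha hb
        rw [Set.mem_ofPred_eq] at ha hb ⊢
        rw [map_mul]
        exact mul_mem ha hb
      add_mem' := by
        intro a b ha hb
        rw [Set.mem_ofPred_eq] at ha hb ⊢
        rw [map_add]
        exact add_mem ha hb
      algebraMap_mem' := by
        intro k
        rw [Set.mem_ofPred_eq, ← IsScalarTower.algebraMap_apply K L Ω,
          IsScalarTower.algebraMap_apply K F Ω]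
        exact (KK F s).algebraMap_mem _
      inv_mem' := by
        intro a ha
        rw [Set.mem_ofPred_eq] at ha ⊢
        rw [map_inv₀]
        exact inv_mem ha }
  let j : LM →+* M := ((algebraMap L Ω).comp LM.val.toRingHom).codRestrict M (fun l => l.2)
  let ψ : LM →+ M := δ.comp j.toAddMonoidHom
  have hψ : ∀ u, ψ u = δ (j u) := fun u => rfl
  have hcLM : CharZero LM := charZero_of_injective_algebraMap (algebraMap K LM).injective
  refine twisted_zero' (K := K) (L := LM) (M := M) j ψ (fun a b => by rw [hψ, hψ, hψ, map_mul, hδ])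
    (fun k => ?_) ⟨w, hw⟩ ?_ ⟨l, hl⟩ ?_
  · rw [hψ]
    have h1 : j (algebraMap K LM k) = algebraMap F M (algebraMap K F k) := by
      apply Subtype.ext
      change algebraMap L Ω (algebraMap K L k) = algebraMap F Ω (algebraMap K F k)
      rw [← IsScalarTower.algebraMap_apply K L Ω, ← IsScalarTower.algebraMap_apply K F Ω]
    rw [h1, hδa, hδ₁F, hqF, hDK, map_zero, mul_zero, sub_zero]
  · change δ wM = 0
    rw [hδa, hqw, mul_one, sub_self]
  · apply alg_copy' (M := L)
    exact alg_of_mem hdis s hs w l hw hl hwK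

theorem NA_sub (M : IntermediateField F Ω) {m : ℕ} (y : Fin m → M)
    (h : NA F (fun i => (y i : Ω))) : NA F y := by
  intro c hc hQ i k hk
  have h1 := h (fun i => (c i).map (algebraMap M Ω)) (fun i => by
    rw [Polynomial.coeff_map, hc]
    rfl) (fun Q hQy => by
    have h2 : MvPolynomial.aeval y Q = 0 := by
      apply (algebraMap M Ω).injective
      rw [map_zero]
      have h3 := MvPolynomial.comp_aeval_apply (f := y) (φ := M.val) Q
      have h4 : M.val (MvPolynomial.aeval y Q) = 0 := by
        rw [h3]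
        exact hQy
      exact h4
    have h3 := hQ Q h2
    have h4 := congrArg (Polynomial.mapRingHom (algebraMap M Ω)) h3
    rw [map_zero, MvPolynomial.aeval_def, MvPolynomial.eval₂_comp_left] at h4
    rw [MvPolynomial.aeval_def, ← h4]
    congr 1
    ext a
    rw [RingHom.comp_apply, Polynomial.coe_mapRingHom, Polynomial.algebraMap_apply,
      Polynomial.algebraMap_apply, Polynomial.map_C]
    rfl) i k hk
  rw [Polynomial.coeff_map] at h1
  exact (map_eq_zero_iff _ (algebraMap M Ω).injective).mp h1

end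

end Pool.Agent.Zk18.Rr
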