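import Pool.Agent.Zk18.Rr11

/-!
# Degrees of plane curves and dimensions
-/

set_option autoImplicit false
set_option linter.unusedSectionVars false

attribute [-instance] HahnSeries.powerSeriesAlgebra

namespace Pool.Agent.Zk18.Rr

open HahnSeries hiding C
open Pool.Agent.Helper165.P1 Pool.Agent.Zk18 Pool.Agent.Zk18.Md Pool.Agent.Zk18.Fd Polynomial
  IntermediateField

section weights

variable {F : Type} [Field F]

/-- the polynomial has weight at most `n` -/
def Wt (n : ℕ) (p : F[X][X]) : Prop := ∀ i, p.coeff i ≠ 0 → (p.coeff i).natDegree + i ≤ n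

theorem Wt.mono {n n' : ℕ} {p : F[X][X]} (h : Wt n p) (hn : n ≤ n') : Wt n' p :=
  fun i hi => (h i hi).trans hn

theorem Wt.sum {ι : Type*} {n : ℕ} (s : Finset ι) (f : ι → F[X][X]) (h : ∀ i ∈ s, Wt n (f i)) :
    Wt n (∑ i ∈ s, f i) := by
  intro i hi
  rw [Polynomial.finsetSum_coeff] at hi ⊢
  have h1 : i ≤ n := by
    obtain ⟨j, hj, hne⟩ := Finset.exists_ne_zero_of_sum_ne_zero hi
    have := h j hj i hne
    omega
  have h2 : (∑ j ∈ s, (f j).coeff i).natDegree ≤ n - i := by
    apply natDegree_sum_le_of_forall_le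
    intro j hj
    by_cases h0 : (f j).coeff i = 0
    · rw [h0, natDegree_zero]
      exact Nat.zero_le _
    · have := h j hj i h0
      omega
  omega

theorem Wt.mul {n n' : ℕ} {p q : F[X][X]} (hp : Wt n p) (hq : Wt n' q) : Wt (n + n') (p * q) := by
  intro i hi
  rw [Polynomial.coeff_mul] at hi ⊢
  have h1 : i ≤ n + n' := by
    obtain ⟨j, hj, hne⟩ := Finset.exists_ne_zero_of_sum_ne_zero hi
    rw [Finset.HasAntidiagonal.mem_antidiagonal] at hj
    have h3 := hp j.1 (left_ne_zero_of_mul hne)
    have h4 := hq j.2 (right_ne_zero_of_mul hne)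
    omega
  have h2 : (∑ j ∈ Finset.HasAntidiagonal.antidiagonal i, p.coeff j.1 * q.coeff j.2).natDegree ≤ n + n' - i := by
    apply natDegree_sum_le_of_forall_le
    intro j hj
    rw [Finset.HasAntidiagonal.mem_antidiagonal] at hj
    by_cases h0 : p.coeff j.1 = 0
    · rw [h0, zero_mul, natDegree_zero]
      exact Nat.zero_le _
    by_cases h0' : q.coeff j.2 = 0
    · rw [h0', mul_zero, natDegree_zero]
      exact Nat.zero_le _
    have h3 := hp j.1 h0
    have h4 := hq j.2 h0'
    refine natDegree_mul_le.trans ?_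
    omega
  omega

theorem Wt.pow {n : ℕ} {p : F[X][X]} (hp : Wt n p) (k : ℕ) : Wt (k * n) (p ^ k) := by
  induction k with
  | zero =>
    intro i hi
    rw [pow_zero, Polynomial.coeff_one] at hi ⊢
    split_ifs at hi ⊢ with h
    · rw [natDegree_one, h]
      exact Nat.zero_le _
    · exact absurd rfl hi
  | succ k ih =>
    rw [pow_succ, Nat.succ_mul]
    exact ih.mul hp

theorem Wt_X : Wt 1 (X : F[X][X]) := by
  intro i hi
  rw [Polynomial.coeff_X] at hi ⊢
  split_ifs at hi ⊢ with h
  · rw [natDegree_one, ← h]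
  · exact absurd rfl hi

theorem Wt_CC (c : F) : Wt 0 (C (C c) : F[X][X]) := by
  intro i hi
  rw [coeff_C] at hi ⊢
  split_ifs at hi ⊢ with h
  · rw [natDegree_C, h]
  · exact absurd rfl hi

theorem Wt_CX : Wt 1 (C X : F[X][X]) := by
  intro i hi
  rw [coeff_C] at hi ⊢
  split_ifs at hi ⊢ with h
  · rw [h]
    exact natDegree_X_le
  · exact absurd rfl hi

theorem Wt.neg {n : ℕ} {p : F[X][X]} (hp : Wt n p) : Wt n (-p) := by
  intro i hi
  rw [Polynomial.coeff_neg] at hi ⊢
  rw [natDegree_neg]
  exact hp i (fun h => hi (by rw [h, neg_zero]))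

theorem Wt.add {n : ℕ} {p q : F[X][X]} (hp : Wt n p) (hq : Wt n q) : Wt n (p + q) := by
  have h := Wt.sum (n := n) (Finset.univ : Finset (Fin 2)) ![p, q] (by
    intro i _
    fin_cases i
    · exact hp
    · exact hq)
  rwa [Fin.sum_univ_two] at h

/-- **The weighted equation.** -/
theorem weighted {M : Type} [Field M] [Algebra F M] (P : MvPolynomial (Fin 2) F) (x y : M)
    (hP : MvPolynomial.aeval ![x, y] P = 0) (l : F) (hl : (topf P).eval l ≠ 0) :
    ∃ p : F[X][X], p.Monic ∧ Wt P.totalDegree p ∧ p.natDegree = P.totalDegree ∧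
      p.eval₂ (aeval (x + l • y) : F[X] →ₐ[F] M).toRingHom y = 0 := by
  classical
  let q : F[X][X] := C X + -(C (C l) * X)
  have hqW : Wt 1 q := by
    apply Wt_CX.add
    apply Wt.neg
    have := (Wt_CC l).mul (Wt_X (F := F))
    rwa [zero_add] at this
  have hq : q.natDegree ≤ 1 := by
    refine (Polynomial.natDegree_add_le _ _).trans ?_
    rw [Polynomial.natDegree_C, natDegree_neg]
    exact max_le (Nat.zero_le _) ((Polynomial.natDegree_C_mul_le _ _).trans Polynomial.natDegree_X_le)
  have hq1 : q.coeff 1 = -C l := by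
    simp [q, Polynomial.coeff_C]
  have hdeg : ∀ m : Fin 2 →₀ ℕ, m.degree = m 0 + m 1 := by
    intro m
    rw [Finsupp.degree_eq_sum, Fin.sum_univ_two]
  let Q : F[X][X] := ∑ m ∈ P.support,
    C (C (P.coeff m)) * (q ^ (m 0) * X ^ (m 1))
  have hQW : Wt P.totalDegree Q := by
    apply Wt.sum
    intro m hm
    have h1 := (Wt_CC (P.coeff m)).mul ((hqW.pow (m 0)).mul ((Wt_X (F := F)).pow (m 1)))
    refine h1.mono ?_
    have h2 := MvPolynomial.le_totalDegree hm
    have h3 := hdeg m
    have h4 : (m.sum fun _ e => e) = m.degree := rfl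
    omega
  have hQc : Q.coeff P.totalDegree = C ((topf P).eval l) := by
    rw [Polynomial.finsetSum_coeff, topf, Polynomial.eval_finsetSum, map_sum]
    apply Finset.sum_congr rfl
    intro m hm
    have h2 := MvPolynomial.le_totalDegree hm
    have h3 := hdeg m
    have h4 : (m.sum fun _ e => e) = m.degree := rfl
    rw [Polynomial.coeff_C_mul, Polynomial.coeff_mul_X_pow', if_pos (by omega)]
    split_ifs with h
    · have h5 : P.totalDegree - m 1 = m 0 * 1 := by omega
      rw [h5, Polynomial.coeff_pow_of_natDegree_le hq, hq1]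
      simp
    · have h6 : (q ^ (m 0)).coeff (P.totalDegree - m 1) = 0 := by
        apply Polynomial.coeff_eq_zero_of_natDegree_lt
        refine (Polynomial.natDegree_pow_le_of_le _ hq).trans_lt ?_
        omega
      rw [Polynomial.eval_zero, h6, mul_zero, map_zero]
  have hQd : Q.natDegree ≤ P.totalDegree := by
    rw [natDegree_le_iff_coeff_eq_zero]
    intro i hi
    by_contra h0
    have := hQW i h0
    omega
  have hQY : Q.eval₂ (aeval (x + l • y) : F[X] →ₐ[F] M).toRingHom y = 0 := by
    have h1 : q.eval₂ (aeval (x + l • y) : F[X] →ₐ[F] M).toRingHom y = x := by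
      simp only [q, eval₂_add, eval₂_neg, eval₂_mul, eval₂_C, eval₂_X]
      change aeval (x + l • y) (X : F[X]) + -(aeval (x + l • y) (C l : F[X]) * y) = x
      rw [aeval_X, aeval_C, Algebra.smul_def]
      ring
    rw [← hP, MvPolynomial.aeval_def, MvPolynomial.eval₂_eq', eval₂_finsetSum]
    apply Finset.sum_congr rfl
    intro m _
    rw [eval₂_mul, eval₂_mul, eval₂_pow, eval₂_pow, h1, eval₂_X, eval₂_C, Fin.prod_univ_two]
    change aeval (x + l • y) (C (P.coeff m) : F[X]) * _ = _
    rw [aeval_C]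
    rfl
  have hmon : (C (C ((topf P).eval l)⁻¹) * Q).Monic := by
    apply Polynomial.monic_of_natDegree_le_of_coeff_eq_one P.totalDegree
    · exact (Polynomial.natDegree_C_mul_le _ _).trans hQd
    · rw [Polynomial.coeff_C_mul, hQc, ← map_mul, inv_mul_cancel₀ hl, C_1]
  refine ⟨C (C ((topf P).eval l)⁻¹) * Q, hmon, ?_, ?_, ?_⟩
  · have := (Wt_CC ((topf P).eval l)⁻¹).mul hQW
    rwa [zero_add] at this
  · apply le_antisymm
    · exact (Polynomial.natDegree_C_mul_le _ _).trans hQd
    · apply le_natDegree_of_ne_zero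
      rw [Polynomial.coeff_C_mul, hQc, ← map_mul, inv_mul_cancel₀ hl, C_1]
      exact one_ne_zero
  · rw [eval₂_mul, hQY, mul_zero]

end weights

section

variable {F E : Type} [Field F] [CharZero F] [IsAlgClosed F] [Field E] [CharZero E] [Algebra F E]

/-- the poles of the coordinates -/
theorem pole_bound (x w : E) (p : F[X][X]) (hp : p.Monic) (hW : Wt p.natDegree p)
    (hpw : p.eval₂ (aeval x : F[X] →ₐ[F] E).toRingHom w = 0) (τ : E →ₐ[F] Pui F)
    (hτ : τ x = tinv) : ((-1 : ℚ) : WithTop ℚ) ≤ vP F (τ w) := by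
  by_contra hno
  rw [not_le] at hno
  have hn0 : p.natDegree ≠ 0 := by
    intro h0
    have h1 := hp.natDegree_eq_zero.mp h0
    rw [h1, eval₂_one] at hpw
    exact one_ne_zero hpw
  have hw0 : τ w ≠ 0 := by
    intro h0
    rw [h0, AddValuation.map_zero] at hno
    exact absurd hno (not_lt.mpr le_top)
  obtain ⟨e, he⟩ := val_exists (vP F) hw0
  have he0 : e < -1 := by
    rw [he] at hno
    exact_mod_cast hno
  rw [eval₂_eq_sum_range, Finset.sum_range_succ, hp.coeff_natDegree, map_one, one_mul] at hpw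
  have h1 := congrArg τ hpw
  rw [map_add, map_zero, map_pow, map_sum] at h1
  have h2 : vP F (∑ i ∈ Finset.range p.natDegree, τ ((aeval x : F[X] →ₐ[F] E).toRingHom (p.coeff i) *
      w ^ i)) = vP F (τ w ^ p.natDegree) := by
    rw [eq_neg_of_add_eq_zero_left h1, AddValuation.map_neg]
  have h3 : vP F (τ w ^ p.natDegree) < vP F (∑ i ∈ Finset.range p.natDegree,
      τ ((aeval x : F[X] →ₐ[F] E).toRingHom (p.coeff i) * w ^ i)) := by
    rw [val_pow (vP F) he]
    apply val_sum_lt
    · exact WithTop.coe_ne_top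
    · intro i hi
      rw [Finset.mem_range] at hi
      rw [map_mul, AddValuation.map_mul, map_pow, val_pow (vP F) he]
      by_cases h0 : p.coeff i = 0
      · rw [h0, map_zero, map_zero, AddValuation.map_zero, top_add]
        exact WithTop.coe_lt_top _
      · have h4 : vP F (τ ((aeval x : F[X] →ₐ[F] E).toRingHom (p.coeff i))) =
            ((-((p.coeff i).natDegree : ℚ) : ℚ) : WithTop ℚ) := vP_poly_inf τ hτ _ h0
        rw [h4, ← WithTop.coe_add, WithTop.coe_lt_coe]
        have h5 := hW i h0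
        have h6 : ((p.coeff i).natDegree : ℚ) + i ≤ p.natDegree := by exact_mod_cast h5
        have h7 : (i : ℚ) < p.natDegree := by exact_mod_cast hi
        nlinarith
  rw [h2] at h3
  exact lt_irrefl _ h3

theorem VV_mul (x : E) {m m' : ℤ} {w w' : E} (h : w ∈ VV (F := F) x m)
    (h' : w' ∈ VV (F := F) x m') : w * w' ∈ VV (F := F) x (m + m') := by
  refine ⟨fun a τ hτ => ?_, fun τ hτ => ?_⟩
  · rw [map_mul, AddValuation.map_mul]
    exact add_nonneg (h.1 a τ hτ) (h'.1 a τ hτ)
  · rw [map_mul, AddValuation.map_mul]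
    have h3 : ((-((m + m' : ℤ) : ℚ) : ℚ) : WithTop ℚ) = ((-(m : ℚ) : ℚ) : WithTop ℚ) +
        ((-(m' : ℚ) : ℚ) : WithTop ℚ) := by
      rw [← WithTop.coe_add]
      congr 1
      push_cast
      ring
    rw [h3]
    exact add_le_add (h.2 τ hτ) (h'.2 τ hτ)

theorem VV_one (x : E) : (1 : E) ∈ VV (F := F) x 0 := by
  refine ⟨fun a τ hτ => ?_, fun τ hτ => ?_⟩
  · rw [map_one, AddValuation.map_one]
  · rw [map_one, AddValuation.map_one]
    simp

/-- **The dimension of the spaces of functions.** -/
theorem VV_dim (x : E) [FiniteDimensional F⟮x⟯ E] (hx : Transcendental F x) (m : ℕ) :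
    FiniteDimensional F (VV (F := F) x m) ∧
      Module.finrank F (VV (F := F) x m) ≤ Module.finrank F⟮x⟯ E * (m + 1) := by
  classical
  obtain ⟨b, e, -, hrep⟩ := reduced_VV x hx
  choose! p hp hpd using hrep
  have hinj : ∀ p q : F[X], aeval x p = aeval x q → p = q := by
    intro p q h
    rw [← sub_eq_zero]
    exact (transcendental_iff.mp hx) _ (by rw [map_sub, h, sub_self])
  let T : VV (F := F) x m →ₗ[F] (Fin (Module.finrank F⟮x⟯ E) → degreeLT F (m + 1)) :=
    { toFun := fun v i => ⟨p m v i, by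
        rw [mem_degreeLT]
        by_cases h0 : p m v i = 0
        · rw [h0, degree_zero]
          exact WithBot.bot_lt_coe _
        · rw [degree_eq_natDegree h0]
          have h1 := hpd m v v.2 i h0
          have h2 : (p m v i).natDegree < m + 1 := by omega
          exact_mod_cast h2⟩
      map_add' := by
        intro u v
        funext i
        apply Subtype.ext
        apply hinj
        change aeval x (p m (u + v : VV (F := F) x m) i) = aeval x (p m u i + p m v i)
        rw [map_add, ← hp m _ (u + v).2 i, ← hp m _ u.2 i, ← hp m _ v.2 i]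
        rw [Submodule.coe_add, map_add, Finsupp.add_apply]
        rfl
      map_smul' := by
        intro c u
        funext i
        apply Subtype.ext
        apply hinj
        change aeval x (p m (c • u : VV (F := F) x m) i) = aeval x (c • p m u i)
        rw [map_smul, ← hp m _ (c • u).2 i, ← hp m _ u.2 i]
        have h1 : ((c • u : VV (F := F) x m) : E) = (algebraMap F F⟮x⟯ c) • (u : E) := by
          rw [Submodule.coe_smul, algebraMap_smul]
        rw [h1, map_smul, Finsupp.smul_apply, smul_eq_mul, IntermediateField.coe_mul,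
          Algebra.smul_def]
        rfl }
  have hT : Function.Injective T := by
    rw [injective_iff_map_eq_zero]
    intro u hu
    apply Subtype.ext
    have h1 : b.repr (u : E) = 0 := by
      ext i
      have h2 := congrArg (fun t => ((t i : degreeLT F (m + 1)) : F[X])) hu
      change p m u i = 0 at h2
      rw [hp m _ u.2 i, h2, map_zero]
      rfl
    exact (LinearEquiv.map_eq_zero_iff _).mp h1
  have hfd : FiniteDimensional F (degreeLT F (m + 1)) := by
    exact Module.Finite.equiv (degreeLTEquiv F (m + 1)).symm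
  have hrank : Module.finrank F (degreeLT F (m + 1)) = m + 1 := by
    rw [(degreeLTEquiv F (m + 1)).finrank_eq, Module.finrank_fin_fun]
  refine ⟨FiniteDimensional.of_injective T hT, ?_⟩
  refine (LinearMap.finrank_le_finrank_of_injective hT).trans ?_
  rw [Module.finrank_pi_fintype, Finset.sum_const, Finset.card_univ, Fintype.card_fin, hrank,
    smul_eq_mul]

/-- the degree over the coordinate -/
theorem finrank_coord (x y₀ y₁ : E) (l : F) (hxy : x = y₀ + l • y₁)
    (htop : adjoin F (Set.range ![y₀, y₁]) = ⊤) (p : F[X][X]) (hp : p.Monic)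
    (hpw : p.eval₂ (aeval x : F[X] →ₐ[F] E).toRingHom y₁ = 0) :
    Module.finrank F⟮x⟯ E ≤ p.natDegree := by
  let f : F[X] →+* F⟮x⟯ := (aeval (AdjoinSimple.gen F x) : F[X] →ₐ[F] F⟮x⟯).toRingHom
  have hf : ∀ q, ((f q : F⟮x⟯) : E) = aeval x q := by
    intro q
    have h1 := aeval_algHom_apply F⟮x⟯.val (AdjoinSimple.gen F x) q
    exact h1.symm
  have hpm : (p.map f).Monic := hp.map f
  have h1 : aeval y₁ (p.map f) = 0 := by
    have h5 : (algebraMap F⟮x⟯ E).comp f = (aeval x : F[X] →ₐ[F] E).toRingHom :=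
      RingHom.ext fun q => hf q
    rw [aeval_def, eval₂_map, h5, hpw]
  have hint : IsIntegral F⟮x⟯ y₁ := ⟨p.map f, hpm, h1⟩
  have h2 : F⟮x⟯⟮y₁⟯ = ⊤ := by
    rw [eq_top_iff]
    intro u _
    have h3 : u ∈ adjoin F (Set.range ![y₀, y₁]) := by rw [htop]; exact mem_top
    have h4 : adjoin F (Set.range ![y₀, y₁]) ≤ F⟮x⟯⟮y₁⟯.restrictScalars F := by
      rw [adjoin_le_iff]
      rintro _ ⟨i, rfl⟩
      have hy1 : y₁ ∈ F⟮x⟯⟮y₁⟯ := mem_adjoin_simple_self _ _
      have hx : x ∈ F⟮x⟯⟮y₁⟯ := F⟮x⟯⟮y₁⟯.algebraMap_mem (AdjoinSimple.gen F x)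
      fin_cases i
      · have h5 : y₀ = x - l • y₁ := by rw [hxy]; ring
        change y₀ ∈ F⟮x⟯⟮y₁⟯
        rw [h5]
        apply sub_mem hx
        rw [Algebra.smul_def]
        apply mul_mem _ hy1
        exact F⟮x⟯⟮y₁⟯.algebraMap_mem (algebraMap F F⟮x⟯ l)
      · exact hy1
    exact h4 h3
  have h3 : Module.finrank F⟮x⟯ E = (minpoly F⟮x⟯ y₁).natDegree := by
    rw [← adjoin.finrank hint, h2, finrank_top']
  rw [h3]
  refine (natDegree_le_natDegree (minpoly.min F⟮x⟯ y₁ hpm h1)).trans ?_
  exact natDegree_map_le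

end

end Pool.Agent.Zk18.Rr
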