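import Pool.Agent.Zk18.Rr12

/-!
# The space of a generic point
-/

set_option autoImplicit false
set_option linter.unusedSectionVars false

attribute [-instance] HahnSeries.powerSeriesAlgebra

namespace Pool.Agent.Zk18.Rr

open HahnSeries hiding C
open Pool.Agent.Helper165.P1 Pool.Agent.Zk18 Pool.Agent.Zk18.Md Pool.Agent.Zk18.Fd Polynomial
  IntermediateField TensorProduct

section

variable {F E M : Type} [Field F] [CharZero F] [IsAlgClosed F] [Field E] [CharZero E] [Algebra F E]
  [Field M] [CharZero M] [Algebra F M] [Algebra E M] [IsScalarTower F E M] [IsAlgClosed M]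

/-- the bounds at finite and at infinite places -/
theorem bounds (htd : TrOne F M) {m N : ℕ} (δ : M →+ M)
    (hδ : ∀ a b, δ (a * b) = δ a * b + a * δ b) (D : F →+ F)
    (hDD : ∀ a b, D (a * b) = D a * b + a * D b)
    (hD : ∀ a, δ (algebraMap F M a) = algebraMap F M (D a)) (b : Fin N → M) (hb : ∀ j, δ (b j) = 0)
    (f : Fin m → Fin N → F) (y : Fin m → E)
    (hy : ∀ i, algebraMap E M (y i) = ∑ j, algebraMap F M (f i j) * b j)
    (htop : adjoin F (Set.range y) = ⊤)
    (hNA : NA F (fun i => algebraMap E M (y i)))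
    (hyF : ∃ i, algebraMap E M (y i) ∉ Set.range (algebraMap F M)) :
    (∀ τ : M →ₐ[F] Pui F, (∀ i, 0 ≤ vP F (τ (algebraMap E M (y i)))) → ∀ w : E,
      0 ≤ vP F (τ (algebraMap E M w)) → 0 ≤ vP F (τ (δ (algebraMap E M w)))) ∧
    (∀ τ : M →ₐ[F] Pui F, (¬ ∀ i, 0 ≤ vP F (τ (algebraMap E M (y i)))) → ∀ w : M,
      vP F (τ w) ≤ vP F (τ (δ w))) := by
  classical
  obtain ⟨i₀, hi₀⟩ := hyF
  have hNA' : NA F (fun i => ∑ j, algebraMap F M (f i j) * b j) := by
    have h1 : (fun i => ∑ j, algebraMap F M (f i j) * b j) = fun i => algebraMap E M (y i) := by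
      funext i
      rw [hy]
    rw [h1]
    exact hNA
  have hy0 : Transcendental F (algebraMap E M (y i₀)) := transc_of_notMem hi₀
  have halgM : Algebra.IsAlgebraic F⟮algebraMap E M (y i₀)⟯ M := htd _ hi₀
  have hreg : ∀ τ : M →ₐ[F] Pui F, (∀ i, 0 ≤ vP F (τ (algebraMap E M (y i)))) →
      ∀ i k, 0 ≤ vP F (τ (δ^[k] (algebraMap E M (y i)))) := by
    intro τ hτ i k
    have h1 := finite_regular htd (tc τ) (tc_C τ) δ hδ D hD b hb f hNA' (by
      intro i
      rw [tc_ord, ← hy]
      exact hτ i) i k
    rw [tc_ord, ← hy] at h1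
    exact h1
  have hmem : ∀ w : E, algebraMap E M w ∈ adjoin F (Set.range fun i => algebraMap E M (y i)) := by
    intro w
    have h1 : w ∈ adjoin F (Set.range y) := by rw [htop]; exact mem_top
    have h2 : (adjoin F (Set.range y)).map (IsScalarTower.toAlgHom F E M) =
        adjoin F (Set.range fun i => algebraMap E M (y i)) := by
      rw [adjoin_map, ← Set.range_comp]
      rfl
    rw [← h2]
    exact ⟨w, h1, rfl⟩
  refine ⟨?_, ?_⟩
  · intro τ hτ w hw
    exact der_finite τ δ hδ D hD (fun i => algebraMap E M (y i)) (hreg τ hτ)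
      (x := algebraMap E M (y i₀)) hy0
      (Algebra.subset_adjoin ⟨i₀, rfl⟩) (hmem w) hw
  · intro τ hτ w
    obtain ⟨j, hj⟩ : ∃ j, vP F (τ (b j)) < 0 := by
      by_contra hno
      push Not at hno
      apply hτ
      intro i
      rw [hy, map_sum]
      apply val_sum
      intro j _
      rw [map_mul, AddValuation.map_mul, τ.commutes]
      exact add_nonneg (vP_algebraMap_nonneg _) (hno j)
    exact der_infinite htd τ δ hδ D hDD hD (b j) (hb j) hj w

omit [IsAlgClosed M] in
/-- extension of places -/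
theorem extend_place [Algebra.IsAlgebraic E M] (σ : E →ₐ[F] Pui F) :
    ∃ τ : M →ₐ[F] Pui F, ∀ u : E, τ (algebraMap E M u) = σ u := by
  let _ : Algebra E (Pui F) := σ.toRingHom.toAlgebra
  have hAlg : ∀ c, algebraMap E (Pui F) c = σ c := fun c => rfl
  let φ : M →ₐ[E] Pui F := IsAlgClosed.lift
  refine ⟨{ φ.toRingHom with
      commutes' := by
        intro c
        change φ (algebraMap F M c) = _
        rw [IsScalarTower.algebraMap_apply F E M, φ.commutes, hAlg, σ.commutes] }, fun u => ?_⟩
  change φ (algebraMap E M u) = _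
  rw [φ.commutes, hAlg]

end

section

variable {K F L Ω : Type} [Field K] [Field F] [Field L] [Field Ω] [CharZero K]
  [Algebra K F] [Algebra K L] [Algebra F Ω] [Algebra L Ω] [Algebra K Ω]
  [IsScalarTower K F Ω] [IsScalarTower K L Ω]

theorem lc_K {N : ℕ} (b : Fin N → L) (k : Fin N → K) :
    (lc b (fun j => algebraMap K F (k j)) : Ω) = algebraMap L Ω (∑ j, algebraMap K L (k j) * b j) := by
  rw [lc, map_sum]
  apply Finset.sum_congr rfl
  intro j _
  rw [map_mul, ← IsScalarTower.algebraMap_apply K L Ω, ← IsScalarTower.algebraMap_apply K F Ω]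

theorem lc_add {N : ℕ} (b : Fin N → L) (g g' : Fin N → F) :
    (lc b (g + g') : Ω) = lc b g + lc b g' := by
  simp only [lc, Pi.add_apply, map_add, add_mul, Finset.sum_add_distrib]

theorem lc_smul {N : ℕ} (b : Fin N → L) (c : F) (g : Fin N → F) :
    (lc b (c • g) : Ω) = algebraMap F Ω c * lc b g := by
  simp only [lc, Pi.smul_apply, smul_eq_mul, map_mul, Finset.mul_sum, mul_assoc]

theorem lc_zero {N : ℕ} (b : Fin N → L) : (lc b (0 : Fin N → F) : Ω) = 0 := by
  simp [lc]

/-- linear independence in the compositum -/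
theorem linInd_of_dis (hdis : Function.Injective (pm K F L Ω)) {ι : Type} (c : ι → L)
    (hc : LinearIndependent K c) : LinearIndependent F (fun i => algebraMap L Ω (c i)) := by
  have h1 := Module.Flat.linearIndependent_one_tmul (S := F) hc
  have h2 : (fun i => algebraMap L Ω (c i)) = fun i =>
      pm K F L Ω ((1 : F) ⊗ₜ[K] c i) := by
    funext i
    rw [pm_tmul, map_one, one_mul]
  rw [h2]
  let T : F ⊗[K] L →ₗ[F] Ω :=
    { toFun := pm K F L Ω
      map_add' := map_add _
      map_smul' := by
        intro a t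
        rw [Algebra.smul_def, map_mul, Algebra.smul_def]
        congr 1
        change pm K F L Ω (a ⊗ₜ 1) = _
        rw [pm_tmul, map_one, mul_one]
        rfl }
  exact h1.map' T (LinearMap.ker_eq_bot.mpr hdis)

set_option maxHeartbeats 8000000 in
/-- **The space of a generic point.** -/
theorem space [IsAlgClosed K] [IsAlgClosed F] [IsAlgClosed Ω] [Countable Ω]
    (hdis : Function.Injective (pm K F L Ω)) {N : ℕ} (b : Fin N → L) (f : Fin 2 → Fin N → F)
    (hNA : NA F (fun i => (lc b (f i) : Ω))) (P : MvPolynomial (Fin 2) F) (hP : P ≠ 0)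
    (hPy : MvPolynomial.aeval (fun i => (lc b (f i) : Ω)) P = 0) (i₀ : Fin 2)
    (hi₀ : (lc b (f i₀) : Ω) ∉ Set.range (algebraMap F Ω)) :
    ∃ S : Submodule F (Fin N → F),
      (∀ g ∈ S, g ∈ Submodule.span F {h : Fin N → F | h ∈ S ∧
        ∃ k : Fin N → K, h = fun j => algebraMap K F (k j)}) ∧
      (∀ i, f i ∈ S) ∧ (∀ g, (lc b g : Ω) = 1 → g ∈ S) ∧
      (AlgebraicIndependent.matroid K L).eRk {l | ∃ k : Fin N → K,
        (fun j => algebraMap K F (k j)) ∈ S ∧ l = ∑ j, algebraMap K L (k j) * b j} ≤ 1 ∧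
      ∀ W : Submodule K L, (∀ w ∈ W, ∃ k : Fin N → K, (fun j => algebraMap K F (k j)) ∈ S ∧
        w = ∑ j, algebraMap K L (k j) * b j) → FiniteDimensional K W →
        ∀ m : ℕ, Module.finrank K (W ^ m : Submodule K L) ≤ P.totalDegree * (m + 1) := by
  classical
  have hcE : CharZero Ω := charZero_of_injective_algebraMap (algebraMap K Ω).injective
  have hcF : CharZero F := charZero_of_injective_algebraMap (algebraMap K F).injective
  have hcL : CharZero L := charZero_of_injective_algebraMap (algebraMap K L).injective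
  set s : Set Ω := Set.range fun i => (lc b (f i) : Ω) with hs
  have hrk : (AlgebraicIndependent.matroid F Ω).eRk s ≤ 1 := by
    have h := rank_le (k := 1) (fun i => (lc b (f i) : Ω)) P hP hPy
    exact_mod_cast h
  have htd : TrOne F (KK F s) := trOne_KK (fun i => (lc b (f i) : Ω)) P hP hPy
  let M := KK F s
  have hcM : CharZero M := charZero_of_injective_algebraMap (algebraMap F M).injective
  have hMa : IsAlgClosed M := isAlgClosed_KK _
  have hMO : ∀ u : M, algebraMap M Ω u = (u : Ω) := fun _ => rfl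
  -- the constants of the closure
  let S₀ : Submodule F (Fin N → F) :=
    { carrier := {g | (lc b g : Ω) ∈ M}
      add_mem' := by
        intro x y hx hy
        rw [Set.mem_ofPred_eq] at hx hy ⊢
        rw [lc_add]
        exact M.add_mem hx hy
      zero_mem' := by
        rw [Set.mem_ofPred_eq, lc_zero]
        exact M.zero_mem
      smul_mem' := by
        intro c x hx
        rw [Set.mem_ofPred_eq] at hx ⊢
        rw [lc_smul]
        exact M.mul_mem (M.algebraMap_mem c) hx }
  have hS₀ : ∀ g, g ∈ S₀ ↔ (lc b g : Ω) ∈ M := fun g => Iff.rfl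
  have hspan₀ := descent (K := K) S₀ (fun D hD hDK g hg => by
    rw [hS₀] at hg ⊢
    exact stable hdis b f hNA D hD hDK g hg)
  let SK : Submodule K (Fin N → K) :=
    { carrier := {k | (fun j => algebraMap K F (k j)) ∈ S₀}
      add_mem' := by
        intro x y hx hy
        have h1 := S₀.add_mem hx hy
        simp only [Set.mem_ofPred_eq, Pi.add_apply, map_add]
        exact h1
      zero_mem' := by
        simp only [Set.mem_ofPred_eq, Pi.zero_apply, map_zero]
        exact S₀.zero_mem
      smul_mem' := by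
        intro c x hx
        have h1 := S₀.smul_mem (algebraMap K F c) hx
        simp only [Set.mem_ofPred_eq, Pi.smul_apply, smul_eq_mul, map_mul]
        exact h1 }
  let BK := Module.finBasis K SK
  obtain ⟨n, hn⟩ : ∃ n, n = Module.finrank K SK := ⟨_, rfl⟩
  let kk : Fin (Module.finrank K SK) → (Fin N → K) := fun j => (BK j : Fin N → K)
  let lb : Fin (Module.finrank K SK) → L := fun j => ∑ r, algebraMap K L (kk j r) * b r
  have hlb : ∀ j, algebraMap L Ω (lb j) ∈ M := by
    intro j
    have h1 : (fun r => algebraMap K F (kk j r)) ∈ S₀ := (BK j).2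
    rw [hS₀, lc_K] at h1
    exact h1
  have hcoef : ∀ g ∈ S₀, ∃ c : Fin (Module.finrank K SK) → F,
      g = ∑ j, c j • (fun r => algebraMap K F (kk j r)) := by
    intro g hg
    have h1 := hspan₀ g hg
    have h2 : Submodule.span F {h : Fin N → F | h ∈ S₀ ∧
        ∃ k : Fin N → K, h = fun j => algebraMap K F (k j)} ≤
        Submodule.span F (Set.range fun j : Fin (Module.finrank K SK) =>
          (fun r => algebraMap K F (kk j r) : Fin N → F)) := by
      rw [Submodule.span_le]
      rintro _ ⟨hh, k, rfl⟩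
      have h3 := congrArg (fun v : SK => (v : Fin N → K)) (BK.sum_repr ⟨k, hh⟩)
      simp only [Submodule.coe_sum, Submodule.coe_smul] at h3
      have h4 : (fun j => algebraMap K F (k j)) =
          ∑ j, algebraMap K F (BK.repr ⟨k, hh⟩ j) • (fun r => algebraMap K F (kk j r) : Fin N → F) := by
        funext r
        refine (congrArg (algebraMap K F) (congrFun h3 r).symm).trans ?_
        rw [Finset.sum_apply, Finset.sum_apply, map_sum]
        apply Finset.sum_congr rfl
        intro j _
        rw [Pi.smul_apply, Pi.smul_apply, smul_eq_mul, smul_eq_mul, map_mul]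
      rw [SetLike.mem_coe, h4]
      apply Submodule.sum_mem
      intro j _
      exact Submodule.smul_mem _ _ (Submodule.subset_span ⟨j, rfl⟩)
    obtain ⟨c, hc⟩ := (Submodule.mem_span_range_iff_exists_fun F).mp (h2 h1)
    exact ⟨c, hc.symm⟩
  let bM : Fin (Module.finrank K SK) → M := fun j => ⟨algebraMap L Ω (lb j), hlb j⟩
  have hlcsum : ∀ c : Fin (Module.finrank K SK) → F,
      (lc b (∑ j, c j • (fun r => algebraMap K F (kk j r) : Fin N → F)) : Ω) =
        ((∑ j, algebraMap F M (c j) * bM j : M) : Ω) := by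
    intro c
    have h1 : ((∑ j, algebraMap F M (c j) * bM j : M) : Ω) =
        ∑ j, ((algebraMap F M (c j) * bM j : M) : Ω) := map_sum M.val _ _
    rw [h1]
    have h2 : ∀ t : Finset (Fin (Module.finrank K SK)),
        (lc b (∑ j ∈ t, c j • (fun r => algebraMap K F (kk j r) : Fin N → F)) : Ω) =
          ∑ j ∈ t, ((algebraMap F M (c j) * bM j : M) : Ω) := by
      intro t
      induction t using Finset.induction_on with
      | empty => rw [Finset.sum_empty, Finset.sum_empty, lc_zero]
      | insert j t hj ih =>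
        rw [Finset.sum_insert hj, Finset.sum_insert hj, lc_add, ih, lc_smul, lc_K]
        rfl
    exact h2 _
  have hfS₀ : ∀ i, f i ∈ S₀ := fun i => mem_KK_of_mem ⟨i, rfl⟩
  choose fM hfM using fun i => hcoef (f i) (hfS₀ i)
  let yM : Fin 2 → M := fun i => ⟨lc b (f i), mem_KK_of_mem ⟨i, rfl⟩⟩
  have hyM : ∀ i, yM i = ∑ j, algebraMap F M (fM i j) * bM j := by
    intro i
    apply Subtype.ext
    rw [← hlcsum, ← hfM]
  have hi₀M : yM i₀ ∉ Set.range (algebraMap F M) := by
    rintro ⟨a, ha⟩
    apply hi₀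
    exact ⟨a, congrArg (fun u : M => (u : Ω)) ha⟩
  -- a transcendental constant
  obtain ⟨j₀, hj₀⟩ : ∃ j, algebraMap L Ω (lb j) ∉ Set.range (algebraMap F Ω) := by
    by_contra hno
    push Not at hno
    choose a ha using hno
    apply hi₀
    refine ⟨∑ j, fM i₀ j * a j, ?_⟩
    have h1 := congrArg (fun u : M => (u : Ω)) (hyM i₀)
    change (lc b (f i₀) : Ω) = _ at h1
    rw [h1, map_sum]
    have h2 : ((∑ j, algebraMap F M (fM i₀ j) * bM j : M) : Ω) =
        ∑ j, ((algebraMap F M (fM i₀ j) * bM j : M) : Ω) := map_sum M.val _ _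
    rw [h2]
    apply Finset.sum_congr rfl
    intro j _
    rw [map_mul, ha j]
    rfl
  have hj₀t : Transcendental F (algebraMap L Ω (lb j₀)) := transc_of_notMem hj₀
  have hj₀K : Transcendental K (lb j₀) := by
    intro h
    apply hj₀t
    have h1 : IsAlgebraic K (algebraMap L Ω (lb j₀)) := h.algebraMap (A := Ω)
    exact h1.tower_top F
  -- the field generated by the point
  let E : IntermediateField F M := adjoin F (Set.range yM)
  have hcE' : CharZero E := charZero_of_injective_algebraMap (algebraMap F E).injective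
  have hEM : ∀ u : E, algebraMap E M u = (u : M) := fun _ => rfl
  let yE : Fin 2 → E := fun i => ⟨yM i, subset_adjoin _ _ ⟨i, rfl⟩⟩
  have htop : adjoin F (Set.range yE) = ⊤ := by
    apply lift_injective E
    rw [lift_adjoin, lift_top, ← Set.range_comp]
    rfl
  have hyEM : ∀ i, algebraMap E M (yE i) = ∑ j, algebraMap F M (fM i j) * bM j := fun i => hyM i
  have hNAM : NA F (fun i => algebraMap E M (yE i)) := NA_sub M yM hNA
  have hyF : ∃ i, algebraMap E M (yE i) ∉ Set.range (algebraMap F M) := ⟨i₀, hi₀M⟩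
  -- the coordinate
  have hPE : MvPolynomial.aeval ![yE 0, yE 1] P = 0 := by
    have h0 : (![yE 0, yE 1] : Fin 2 → E) = yE := by
      funext i
      fin_cases i <;> rfl
    rw [h0]
    apply (algebraMap E M).injective
    apply (algebraMap M Ω).injective
    rw [map_zero, map_zero, ← hPy]
    have h1 := MvPolynomial.comp_aeval_apply (f := yE) (φ := M.val.comp E.val) P
    exact h1
  obtain ⟨l, hl, -, hlF⟩ := exists_good (K := F) (A := M) P hP 1 0 (yM 0) (yM 1)
    (Or.inl one_ne_zero) (by
      fin_cases i₀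
      · exact Or.inl hi₀M
      · exact Or.inr hi₀M)
  let x : E := yE 0 + l • yE 1
  have hxM : algebraMap E M x = yM 0 + l • yM 1 := by
    change algebraMap E M (yE 0 + l • yE 1) = _
    rw [map_add, Algebra.smul_def, Algebra.smul_def, map_mul]
    rfl
  have hxMt : Transcendental F (algebraMap E M x) := by
    apply transc_of_notMem
    rw [hxM]
    exact hlF
  have hxt : Transcendental F x := (transc_iff x).mp hxMt
  have halgM : Algebra.IsAlgebraic F⟮algebraMap E M x⟯ M := htd _ (by rw [hxM]; exact hlF)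
  have halgxM : Algebra.IsAlgebraic F⟮x⟯ M := alg_copy (F := F) (M := M) x
  have halgE : Algebra.IsAlgebraic F⟮x⟯ E := Algebra.IsAlgebraic.tower_bot F⟮x⟯ E M
  have halgEM : Algebra.IsAlgebraic E M := Algebra.IsAlgebraic.tower_top (K := F⟮x⟯) E
  have hfdE : FiniteDimensional F⟮x⟯ E := finite_over x yE htop
  obtain ⟨p, hpm, hpW, hpd, hpr⟩ := weighted P (yE 0) (yE 1) hPE l hl
  have hfinrank : Module.finrank F⟮x⟯ E ≤ P.totalDegree := by
    rw [← hpd]
    refine finrank_coord x (yE 0) (yE 1) l rfl ?_ p hpm hpr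
    have h0 : (![yE 0, yE 1] : Fin 2 → E) = yE := by
      funext i
      fin_cases i <;> rfl
    rw [h0]
    exact htop
  have hItg1 : Itg (F := F) x (yE 1) := ⟨p, hpm, hpr⟩
  have hy0x : yE 0 = x - l • yE 1 := by
    change _ = yE 0 + l • yE 1 - l • yE 1
    rw [add_sub_cancel_right]
  have hxVV : x ∈ VV (F := F) x 1 := by
    refine ⟨fun a σ hσ => by rw [hσ]; exact vP_fin_nonneg a, fun σ hσ => ?_⟩
    rw [hσ, vP_tinv']
    simp
  have hy1VV : yE 1 ∈ VV (F := F) x 1 := by
    refine ⟨fun a σ hσ => regular_of_itg hItg1 σ (by rw [hσ]; exact vP_fin_nonneg a),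
      fun σ hσ => ?_⟩
    have h1 := pole_bound x (yE 1) p hpm (by rw [hpd]; exact hpW) hpr σ hσ
    simpa using h1
  have hyVV : ∀ i, yE i ∈ VV (F := F) x 1 := by
    intro i
    fin_cases i
    · change yE 0 ∈ _
      rw [hy0x]
      exact Submodule.sub_mem _ hxVV (Submodule.smul_mem _ _ hy1VV)
    · exact hy1VV
  -- the space
  let S : Submodule F (Fin N → F) :=
    { carrier := {g | ∃ w : E, w ∈ VV (F := F) x 1 ∧ ((w : M) : Ω) = lc b g}
      add_mem' := by
        rintro g g' ⟨w, hw, hwg⟩ ⟨w', hw', hwg'⟩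
        refine ⟨w + w', Submodule.add_mem _ hw hw', ?_⟩
        rw [lc_add, ← hwg, ← hwg']
        rfl
      zero_mem' := ⟨0, Submodule.zero_mem _, by rw [lc_zero]; rfl⟩
      smul_mem' := by
        rintro c g ⟨w, hw, hwg⟩
        refine ⟨c • w, Submodule.smul_mem _ c hw, ?_⟩
        rw [lc_smul, ← hwg, Algebra.smul_def]
        rfl }
  have hS : ∀ g, g ∈ S ↔ ∃ w : E, w ∈ VV (F := F) x 1 ∧ ((w : M) : Ω) = lc b g := fun g => Iff.rfl
  have hstab : ∀ D : F →+ F, (∀ a b, D (a * b) = D a * b + a * D b) →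
      (∀ k : K, D (algebraMap K F k) = 0) → ∀ g ∈ S, (fun j => D (g j)) ∈ S := by
    intro D hD hDK g hg
    rw [hS] at hg ⊢
    obtain ⟨w, hw, hwg⟩ := hg
    obtain ⟨δ, hδ, hδF, hδL⟩ := exists_delta hdis s hrk (lb j₀) (hlb j₀) hj₀t D hD hDK
    have hδb : ∀ j, δ (bM j) = 0 := fun j => hδL (lb j) (hlb j)
    obtain ⟨hfin, hinf⟩ := bounds htd δ hδ D hD hδF bM hδb fM yE hyEM htop hNAM hyF
    obtain ⟨w', hw'⟩ := rational htd δ hδ D hD hδF bM hδb fM yE hyEM htop hNAM hyF w
    have hgS₀ : g ∈ S₀ := by
      rw [hS₀, ← hwg]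
      exact (w : M).2
    obtain ⟨c, hc⟩ := hcoef g hgS₀
    have hwc : (w : M) = ∑ j, algebraMap F M (c j) * bM j := by
      apply Subtype.ext
      rw [← hlcsum, ← hc]
      exact hwg
    have hδw : δ (w : M) = ∑ j, algebraMap F M (D (c j)) * bM j := by
      rw [hwc, map_sum]
      apply Finset.sum_congr rfl
      intro j _
      rw [hδ, hδb, mul_zero, add_zero, hδF]
    have hDg : (fun j => D (g j)) = ∑ j, D (c j) • (fun r => algebraMap K F (kk j r) : Fin N → F) := by
      funext r
      rw [hc, Finset.sum_apply, Finset.sum_apply, map_sum]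
      apply Finset.sum_congr rfl
      intro j _
      rw [Pi.smul_apply, Pi.smul_apply, smul_eq_mul, smul_eq_mul, hD, hDK, mul_zero, add_zero]
    refine ⟨w', ?_, ?_⟩
    · refine ⟨fun a σ hσ => ?_, fun σ hσ => ?_⟩
      · obtain ⟨τ, hτ⟩ := extend_place (M := M) σ
        have h1 : ∀ i, 0 ≤ vP F (τ (algebraMap E M (yE i))) := by
          intro i
          rw [hτ]
          exact (hyVV i).1 a σ hσ
        have h2 := hfin τ h1 w (by rw [hτ]; exact hw.1 a σ hσ)
        rw [hw', hτ] at h2
        exact h2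
      · obtain ⟨τ, hτ⟩ := extend_place (M := M) σ
        have h1 : ¬ ∀ i, 0 ≤ vP F (τ (algebraMap E M (yE i))) := by
          intro h
          have h2 : 0 ≤ vP F (σ x) := by
            change 0 ≤ vP F (σ (yE 0 + l • yE 1))
            rw [map_add, Algebra.smul_def, map_mul, σ.commutes]
            refine le_trans (le_min ?_ ?_) (AddValuation.map_add _ _ _)
            · rw [← hτ]; exact h 0
            · rw [AddValuation.map_mul]
              refine add_nonneg (vP_algebraMap_nonneg l) ?_
              rw [← hτ]; exact h 1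
          rw [hσ, vP_tinv'] at h2
          have h3 : (0 : ℚ) ≤ -1 := by exact_mod_cast h2
          norm_num at h3
        have h2 := hinf τ h1 (algebraMap E M w)
        rw [hw', hτ, hτ] at h2
        exact (hw.2 σ hσ).trans h2
    · rw [hDg, hlcsum, ← hδw]
      exact congrArg (fun u : M => (u : Ω)) hw'.symm
  have hspan := descent (K := K) S hstab
  have hSM : ∀ k : Fin N → K, (fun j => algebraMap K F (k j)) ∈ S →
      algebraMap L Ω (∑ j, algebraMap K L (k j) * b j) ∈ M := by
    intro k hk
    obtain ⟨w, hw, hwg⟩ := (hS _).mp hk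
    rw [← lc_K (F := F), ← hwg]
    exact (w : M).2
  refine ⟨S, hspan, fun i => ⟨yE i, hyVV i, rfl⟩, fun g hg => ⟨1, ?_, ?_⟩, ?_, ?_⟩
  · exact VV_mono x (by norm_num) (VV_one x)
  · rw [hg]
    rfl
  · have h1 := rank_le_of_mem (k := 1) hdis (s := s) (by exact_mod_cast hrk)
      {l | ∃ k : Fin N → K, (fun j => algebraMap K F (k j)) ∈ S ∧
        l = ∑ j, algebraMap K L (k j) * b j} (by
      rintro _ ⟨k, hk, rfl⟩
      exact hSM k hk)
    exact_mod_cast h1
  · intro W hW hWfd m
    -- the spaces of constants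
    let U : ℕ → Submodule K L := fun m =>
      { carrier := {l | ∃ w : E, w ∈ VV (F := F) x m ∧ ((w : M) : Ω) = algebraMap L Ω l}
        add_mem' := by
          rintro g g' ⟨w, hw, hwg⟩ ⟨w', hw', hwg'⟩
          refine ⟨w + w', Submodule.add_mem _ hw hw', ?_⟩
          rw [map_add, ← hwg, ← hwg']
          rfl
        zero_mem' := ⟨0, Submodule.zero_mem _, by rw [map_zero]; rfl⟩
        smul_mem' := by
          rintro c g ⟨w, hw, hwg⟩
          refine ⟨algebraMap K F c • w, Submodule.smul_mem _ _ hw, ?_⟩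
          rw [Algebra.smul_def, Algebra.smul_def, map_mul, ← hwg,
            ← IsScalarTower.algebraMap_apply K L Ω, IsScalarTower.algebraMap_apply K F Ω]
          rfl }
    have hU : ∀ m l, l ∈ U m ↔ ∃ w : E, w ∈ VV (F := F) x m ∧ ((w : M) : Ω) = algebraMap L Ω l :=
      fun m l => Iff.rfl
    have hWU : W ≤ U 1 := by
      intro w hw
      obtain ⟨k, hk, rfl⟩ := hW w hw
      obtain ⟨w', hw', hwg⟩ := (hS _).mp hk
      refine ⟨w', by exact_mod_cast hw', ?_⟩
      rw [hwg, lc_K]
    have hUmul : ∀ m m', U m * U m' ≤ U (m + m') := by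
      intro m m'
      rw [Submodule.mul_le]
      rintro u ⟨w, hw, hwu⟩ u' ⟨w', hw', hwu'⟩
      refine ⟨w * w', ?_, ?_⟩
      · have := VV_mul x hw hw'
        push_cast
        exact this
      · rw [map_mul, ← hwu, ← hwu']
        rfl
    have hpow : ∀ m : ℕ, W ^ m ≤ U m := by
      intro m
      induction m with
      | zero =>
        rw [pow_zero, Submodule.one_le]
        exact ⟨1, VV_one x, by rw [map_one]; rfl⟩
      | succ m ih =>
        rw [pow_succ]
        exact (mul_le_mul' ih hWU).trans (hUmul m 1)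
    have hfdm : FiniteDimensional K (W ^ m : Submodule K L) :=
      Module.Finite.iff_fg.mpr (Submodule.FG.pow (Module.Finite.iff_fg.mp hWfd) m)
    obtain ⟨hVfd, hVdim⟩ := VV_dim x hxt m
    let Bm := Module.finBasis K (W ^ m : Submodule K L)
    have hli : LinearIndependent K (fun i => ((Bm i : (W ^ m : Submodule K L)) : L)) :=
      Bm.linearIndependent.map' (Submodule.subtype _) (Submodule.ker_subtype _)
    have hliΩ := linInd_of_dis hdis _ hli
    choose w hw hwl using fun i => (hU m _).mp (hpow m (Bm i).2)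
    have hliV : LinearIndependent F (fun i => (⟨w i, hw i⟩ : VV (F := F) x m)) := by
      have h1 : LinearIndependent F (fun i => (((w i : E) : M) : Ω)) := by
        have h2 : (fun i => (((w i : E) : M) : Ω)) = fun i =>
            algebraMap L Ω ((Bm i : (W ^ m : Submodule K L)) : L) := funext hwl
        rw [h2]
        exact hliΩ
      exact LinearIndependent.of_comp ((M.val.comp E.val).toLinearMap.comp
        (VV (F := F) x m).subtype) h1
    have h1 := hliV.fintype_card_le_finrank
    rw [Fintype.card_fin] at h1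
    exact (h1.trans hVdim).trans (Nat.mul_le_mul_right _ hfinrank)

end

end Pool.Agent.Zk18.Rr
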