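import Pool.Agent.Zk18.Rr13

/-!
# The spaces of the components
-/

set_option autoImplicit false
set_option linter.unusedSectionVars false

attribute [-instance] HahnSeries.powerSeriesAlgebra

namespace Pool.Agent.Zk18.Rr

open TensorProduct Pool.Agent.Zk18 Pool.Agent.Zk18.Md Pool.Agent.Zk18.Fd

theorem countable_closure (F : Type) [Field F] [Countable F] : Countable (AlgebraicClosure F) := by
  rw [← Cardinal.mk_le_aleph0_iff]
  refine (Algebra.IsAlgebraic.cardinalMk_le_max F (AlgebraicClosure F)).trans (max_le ?_ le_rfl)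
  exact Cardinal.mk_le_aleph0_iff.mpr inferInstance

theorem totalDegree_UP {R : Type} [CommRing R] {m D n : ℕ} (c : (Fin m → Fin (D + 1)) → R)
    (hc : ∀ d, n < ∑ i, (d i : ℕ) → c d = 0) : (UP c).totalDegree ≤ n := by
  rw [UP]
  refine (MvPolynomial.totalDegree_finsetSum _ _).trans (Finset.sup_le fun d _ => ?_)
  by_cases h : n < ∑ i, (d i : ℕ)
  · rw [hc d h, MvPolynomial.C_0, zero_mul, MvPolynomial.totalDegree_zero]
    exact Nat.zero_le _
  · push Not at h
    refine (MvPolynomial.totalDegree_mul _ _).trans ?_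
    rw [MvPolynomial.totalDegree_C, zero_add]
    refine (MvPolynomial.totalDegree_finsetProd _ _).trans (le_trans ?_ h)
    apply Finset.sum_le_sum
    intro i _
    refine (MvPolynomial.totalDegree_pow _ _).trans ?_
    have h1 : (MvPolynomial.X i : MvPolynomial (Fin m) R).totalDegree ≤ 1 := by
      rw [MvPolynomial.X]
      refine (MvPolynomial.totalDegree_monomial_le _ _).trans ?_
      rw [Finsupp.sum_single_index rfl]
      exact le_rfl
    calc (d i : ℕ) * (MvPolynomial.X i : MvPolynomial (Fin m) R).totalDegree ≤ (d i : ℕ) * 1 :=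
          Nat.mul_le_mul_left _ h1
      _ = (d i : ℕ) := mul_one _

section

variable {K L : Type} [Field K] [Field L] [CharZero K] [Algebra K L]

set_option maxHeartbeats 8000000 in
/-- **The space of a component.** -/
theorem comp_space [IsAlgClosed K] [Countable K] [Countable L] {N D : ℕ} (b : Fin N → L)
    (𝔭 : Ideal (MvPolynomial (Par 1 N D) K)) (h𝔭 : 𝔭.IsPrime) (hI : ∀ f ∈ Eqs K D b, f ∈ 𝔭)
    (hdg : ∀ d : Fin 2 → Fin (D + 1), D < ∑ i, (d i : ℕ) →
      (MvPolynomial.X (Sum.inr d) : MvPolynomial (Par 1 N D) K) ∈ 𝔭)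
    (z : Par 1 N D → K) (hz : GoodPt b z) (hz𝔭 : ∀ f ∈ 𝔭, MvPolynomial.aeval z f = 0) :
    ∃ SK : Submodule K (Fin N → K),
      (∀ z' : Par 1 N D → K, (∀ f ∈ 𝔭, MvPolynomial.aeval z' f = 0) → ∀ i, xx z' i ∈ SK) ∧
      (∀ k : Fin N → K, ∑ j, algebraMap K L (k j) * b j = 1 → k ∈ SK) ∧
      (AlgebraicIndependent.matroid K L).eRk {l | ∃ k ∈ SK, l = ∑ j, algebraMap K L (k j) * b j} ≤ 1 ∧
      ∀ W : Submodule K L, (∀ w ∈ W, ∃ k ∈ SK, w = ∑ j, algebraMap K L (k j) * b j) →
        FiniteDimensional K W → ∀ m : ℕ, Module.finrank K (W ^ m : Submodule K L) ≤ D * (m + 1) := by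
  classical
  let R := MvPolynomial (Par 1 N D) K
  let A := R ⧸ 𝔭
  let F₀ := FractionRing A
  have hcR : Countable R := by
    rw [← Cardinal.mk_le_aleph0_iff]
    refine MvPolynomial.cardinalMk_le_max.trans (max_le (max_le ?_ ?_) le_rfl)
    · exact Cardinal.mk_le_aleph0_iff.mpr inferInstance
    · exact Cardinal.mk_le_aleph0_iff.mpr inferInstance
  have hcA : Countable A := (Ideal.Quotient.mk_surjective (I := 𝔭)).countable
  have hcF₀ : Countable F₀ := by
    have hsurj : Function.Surjective
        (fun p : A × A => algebraMap A F₀ p.1 / algebraMap A F₀ p.2) := by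
      intro x
      obtain ⟨p, q, -, hpq⟩ := IsFractionRing.div_surjective (A := A) x
      exact ⟨(p, q), hpq⟩
    exact hsurj.countable
  let F := AlgebraicClosure F₀
  have hcF : Countable F := countable_closure F₀
  obtain ⟨Ω, hE₁, hE₂, hE₃, hE₄, hE₅, hE₆, hEc, hEa, hdis⟩ := exists_compositum (K := K) F L
  let ι₀ : A →ₐ[K] F₀ := IsScalarTower.toAlgHom K A F₀
  let ι : A →ₐ[K] F := (IsScalarTower.toAlgHom K F₀ F).comp ι₀
  have hι : Function.Injective ι := by
    intro a a' h
    have h1 : algebraMap F₀ F (ι₀ a) = algebraMap F₀ F (ι₀ a') := h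
    exact IsFractionRing.injective A F₀ ((algebraMap F₀ F).injective h1)
  let mk : R →ₐ[K] A := Ideal.Quotient.mkₐ K 𝔭
  let a : Fin 2 → Fin N → A := fun i j => mk (MvPolynomial.X (Sum.inl (i, j)))
  let ca : (Fin 2 → Fin (D + 1)) → A := fun d => mk (MvPolynomial.X (Sum.inr d))
  let sp : ∀ z : Par 1 N D → K, (∀ f ∈ 𝔭, MvPolynomial.aeval z f = 0) → (A →ₐ[K] K) :=
    fun z hz => Ideal.Quotient.liftₐ 𝔭 (MvPolynomial.aeval z) hz
  have hsp : ∀ z hz f, sp z hz (mk f) = MvPolynomial.aeval z f := fun z hz f => rfl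
  have hspa : ∀ z hz, (fun i j => sp z hz (a i j)) = xx z := by
    intro z hz
    funext i j
    rw [hsp, MvPolynomial.aeval_X]
    rfl
  have hspc : ∀ z hz d, sp z hz (ca d) = cc z d := by
    intro z hz d
    rw [hsp, MvPolynomial.aeval_X]
    rfl
  -- the equation
  let χ : R ⊗[K] L →ₐ[K] Ω := (pm K F L Ω).comp
    (Algebra.TensorProduct.map (ι.comp mk) (AlgHom.id K L))
  have hχ : ∀ (r : R) (l : L), χ (r ⊗ₜ l) = algebraMap F Ω (ι (mk r)) * algebraMap L Ω l := by
    intro r l
    change pm K F L Ω (Algebra.TensorProduct.map (ι.comp mk) (AlgHom.id K L) (r ⊗ₜ l)) = _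
    rw [Algebra.TensorProduct.map_tmul, pm_tmul]
    rfl
  have hχU : χ (UU D b) = 0 := by
    rw [UU_eq b (Module.Basis.ofVectorSpace K L), map_sum]
    apply Finset.sum_eq_zero
    intro e _
    have h1 : mk (((Module.Basis.ofVectorSpace K L).baseChange R).repr (UU D b) e) = 0 :=
      Ideal.Quotient.eq_zero_iff_mem.mpr (hI _ ⟨e, rfl⟩)
    rw [hχ, h1, map_zero, map_zero, zero_mul]
  have hP : MvPolynomial.aeval (fun i => (lc b (fun j => ι (a i j)) : Ω))
      (MvPolynomial.map (ι : A →+* F) (UP ca)) = 0 := by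
    rw [map_UP, MvPolynomial.aeval_def, eval₂_UP, ← hχU, UU, map_sum]
    apply Finset.sum_congr rfl
    intro d _
    rw [map_mul, map_prod, hχ, map_one, mul_one]
    congr 1
    apply Finset.prod_congr rfl
    intro i _
    rw [map_pow, YU, map_sum]
    congr 1
  have hP0 : UP ca ≠ 0 := by
    intro h0
    have h1 := congrArg (MvPolynomial.map ((sp z hz𝔭 : A →ₐ[K] K) : A →+* K)) h0
    rw [map_UP, map_zero] at h1
    apply hz.ne
    rw [← h1]
    congr 1
    funext d
    exact (hspc z hz𝔭 d).symm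
  have hPF0 : MvPolynomial.map (ι : A →+* F) (UP ca) ≠ 0 := by
    intro h0
    apply hP0
    apply MvPolynomial.map_injective (ι : A →+* F) hι
    rw [h0, map_zero]
  have hPd : (MvPolynomial.map (ι : A →+* F) (UP ca)).totalDegree ≤ D := by
    rw [map_UP]
    apply totalDegree_UP
    intro d hd
    have h1 : ca d = 0 := Ideal.Quotient.eq_zero_iff_mem.mpr (hdg d hd)
    rw [h1, map_zero]
  -- the generic point
  have hNA : NA F (fun i => (lc b (fun j => ι (a i j)) : Ω)) :=
    NA_generic hdis ι hι (sp z hz𝔭) b a (UP ca) hP (fun κ hκ hL hcard => by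
      have h1 : Countable κ := by
        rw [← Cardinal.mk_le_aleph0_iff]
        exact hcard.trans (Cardinal.mk_le_aleph0_iff.mpr inferInstance)
      have h2 := hz.nc κ hκ hL h1
      intro c hc0 hcP
      apply h2 c
      · intro i
        have h4 : (∑ j, algebraMap K L (sp z hz𝔭 (a i j)) * b j) = Fd.pt b (xx z) i := by
          rw [← hspa z hz𝔭]
          rfl
        exact (hc0 i).trans (congrArg (algebraMap L κ) h4)
      · rw [← hcP, eval₂_UP, eval₂_UP]
        apply Finset.sum_congr rfl
        intro d _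
        congr 1
        have h3 := hspc z hz𝔭 d
        simp only [RingHom.comp_apply]
        rw [← h3]
        rfl)
  -- the special points are algebraic over the generic point
  let G := KK F (Set.range fun i => (lc b (fun j => ι (a i j)) : Ω))
  let S₁ : Submodule F (Fin N → F) :=
    { carrier := {g | (lc b g : Ω) ∈ G}
      add_mem' := by
        intro x y hx hy
        rw [Set.mem_ofPred_eq] at hx hy ⊢
        rw [lc_add]
        exact G.add_mem hx hy
      zero_mem' := by
        rw [Set.mem_ofPred_eq, lc_zero]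
        exact G.zero_mem
      smul_mem' := by
        intro c x hx
        rw [Set.mem_ofPred_eq] at hx ⊢
        rw [lc_smul]
        exact G.mul_mem (G.algebraMap_mem c) hx }
  have hS₁ : ∀ g, g ∈ S₁ ↔ (lc b g : Ω) ∈ G := fun g => Iff.rfl
  have hspan₁ := descent (K := K) S₁ (fun D hD hDK g hg => by
    rw [hS₁] at hg ⊢
    exact stable hdis b (fun i j => ι (a i j)) hNA D hD hDK g hg)
  have hi₀ : ∃ i₀ : Fin 2, (lc b (fun j => ι (a i₀ j)) : Ω) ∉ Set.range (algebraMap F Ω) := by
    by_contra hno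
    push Not at hno
    have hrk0 : (AlgebraicIndependent.matroid F Ω).eRk
        (Set.range fun i => (lc b (fun j => ι (a i j)) : Ω)) ≤ (0 : ℕ) := by
      rw [Matroid.eRk_le_iff]
      intro I hI' hind
      have hIe : I = ∅ := by
        rw [Set.eq_empty_iff_forall_notMem]
        intro u hu
        have h1 := hind.subset (Set.singleton_subset_iff.mpr hu)
        rw [AlgebraicIndependent.matroid_indep_iff] at h1
        change AlgebraicIndependent F (fun i : ({u} : Set Ω) => id (i : Ω)) at h1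
        rw [algebraicIndependent_unique_type_iff] at h1
        obtain ⟨i, hi⟩ := hI' hu
        obtain ⟨c, hc⟩ := hno i
        have h2 : algebraMap F Ω c = u := hc.trans hi
        apply h1
        change IsAlgebraic F u
        rw [← h2]
        exact isAlgebraic_algebraMap c
      rw [hIe, Set.encard_empty]
      exact_mod_cast le_rfl
    have h1 := rank_le_of_mem hdis hrk0 (Set.range (Fd.pt b (xx z))) (by
      rintro _ ⟨i, rfl⟩
      have h1 := spec_mem S₁ hspan₁ ι hι (sp z hz𝔭) (a i) (by
        rw [hS₁]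
        exact mem_KK_of_mem ⟨i, rfl⟩)
      rw [hS₁, lc_K] at h1
      have h3 := congrFun (hspa z hz𝔭) i
      rw [Fd.pt, ← h3]
      exact h1)
    have h2 := hz.rank.trans h1
    norm_num at h2
  obtain ⟨i₀, hi₀⟩ := hi₀
  obtain ⟨S, hS1, hS2, hS3, hS4, hS5⟩ := space hdis b (fun i j => ι (a i j)) hNA
    (MvPolynomial.map (ι : A →+* F) (UP ca)) hPF0 hP i₀ hi₀
  let SK : Submodule K (Fin N → K) :=
    { carrier := {k | (fun j => algebraMap K F (k j)) ∈ S}
      add_mem' := by
        intro x y hx hy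
        have h1 := S.add_mem hx hy
        simp only [Set.mem_ofPred_eq, Pi.add_apply, map_add]
        exact h1
      zero_mem' := by
        simp only [Set.mem_ofPred_eq, Pi.zero_apply, map_zero]
        exact S.zero_mem
      smul_mem' := by
        intro c x hx
        have h1 := S.smul_mem (algebraMap K F c) hx
        simp only [Set.mem_ofPred_eq, Pi.smul_apply, smul_eq_mul, map_mul]
        exact h1 }
  have hSK : ∀ k, k ∈ SK ↔ (fun j => algebraMap K F (k j)) ∈ S := fun k => Iff.rfl
  refine ⟨SK, ?_, ?_, ?_, ?_⟩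
  · intro z' hz' i
    rw [hSK]
    have h1 := spec_mem S hS1 ι hι (sp z' hz') (a i) (hS2 i)
    have h3 := congrFun (hspa z' hz') i
    rw [← h3]
    exact h1
  · intro k hk
    rw [hSK]
    apply hS3
    rw [lc_K, hk, map_one]
  · refine le_trans ((AlgebraicIndependent.matroid K L).eRk_mono ?_) hS4
    rintro l ⟨k, hk, rfl⟩
    exact ⟨k, hk, rfl⟩
  · intro W hW hWfd m
    refine (hS5 W (fun w hw => ?_) hWfd m).trans (Nat.mul_le_mul_right _ hPd)
    obtain ⟨k, hk, rfl⟩ := hW w hw
    exact ⟨k, hk, rfl⟩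

end

end Pool.Agent.Zk18.Rr
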