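import Pool.Agent.Zk18.Rr14
import Pool.Agent.Zk18.Fd10

/-!
# Finitely many spaces
-/

set_option autoImplicit false
set_option linter.unusedSectionVars false

attribute [-instance] HahnSeries.powerSeriesAlgebra

namespace Pool.Agent.Zk18.Rr

open Pool.Agent.Zk18 Pool.Agent.Zk18.Md Pool.Agent.Zk18.Fd

theorem exists_UP' {R : Type} [CommRing R] {m D : ℕ} (P : MvPolynomial (Fin m) R)
    (hP : P.totalDegree ≤ D) : ∃ c : (Fin m → Fin (D + 1)) → R, P = UP c ∧
      ∀ d, D < ∑ i, (d i : ℕ) → c d = 0 := by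
  classical
  have hdeg : ∀ i, P.degreeOf i ≤ D := fun i => (MvPolynomial.degreeOf_le_totalDegree P i).trans hP
  refine ⟨fun d => P.coeff (Finsupp.equivFunOnFinite.symm fun i => (d i : ℕ)), ?_, ?_⟩
  · conv_lhs => rw [P.as_sum]
    rw [UP]
    have h1 : ∀ d ∈ P.support, ∀ i, d i < D + 1 := by
      intro d hd i
      exact Nat.lt_succ_of_le ((MvPolynomial.degreeOf_le_iff.mp (hdeg i)) d hd)
    symm
    refine Finset.sum_bij_ne_zero (fun d _ _ => Finsupp.equivFunOnFinite.symm fun i => (d i : ℕ))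
      ?_ ?_ ?_ ?_
    · intro d _ hne
      rw [MvPolynomial.mem_support_iff]
      intro h0
      apply hne
      rw [h0, map_zero, zero_mul]
    · intro d₁ _ _ d₂ _ _ h
      funext i
      apply Fin.ext
      exact congrFun (Finsupp.equivFunOnFinite.symm.injective h) i
    · intro d hd hne
      refine ⟨fun i => ⟨d i, h1 d hd i⟩, Finset.mem_univ _, ?_, ?_⟩
      · have h2 : (Finsupp.equivFunOnFinite.symm fun i => d i) = d := by
          ext i
          rfl
        intro h0
        apply hne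
        rw [h2] at h0
        rw [← h0, MvPolynomial.monomial_eq, Finsupp.prod_fintype _ _ (fun i => pow_zero _)]
      · ext i
        rfl
    · intro d _ _
      rw [MvPolynomial.monomial_eq, Finsupp.prod_fintype _ _ (fun i => pow_zero _)]
      rfl
  · intro d hd
    apply MvPolynomial.coeff_eq_zero_of_totalDegree_lt
    refine lt_of_le_of_lt hP (lt_of_lt_of_eq hd ?_)
    have h2 : (Finsupp.equivFunOnFinite.symm fun i => (d i : ℕ)).degree = ∑ i, (d i : ℕ) := by
      rw [Finsupp.degree_eq_sum]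
      rfl
    rw [← h2]
    rfl

set_option maxHeartbeats 8000000 in
/-- **Finitely many spaces.** -/
theorem planes (V : Submodule (algebraicClosure ℚ ℂ) ℂ)
    (hV : FiniteDimensional (algebraicClosure ℚ ℂ) V) (M : ℕ)
    (hM : Module.finrank (algebraicClosure ℚ ℂ) V ≤ M) (D : ℕ) :
    ∃ 𝒲 : Set (Submodule (algebraicClosure ℚ ℂ) ℂ),
      𝒲.encard ≤ ((2 * (2 * D + 1)) ^ (2 * M + (D + 1) ^ 2) : ℕ) ∧
      (∀ W ∈ 𝒲, W ≤ V ∧ ((1 : ℂ) ∈ V → (1 : ℂ) ∈ W) ∧
        (∀ m : ℕ, Module.finrank (algebraicClosure ℚ ℂ) (W ^ m : Submodule _ ℂ) ≤ D * (m + 1)) ∧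
        ∀ x ∈ W, ∀ y ∈ W, ¬ AlgebraicIndependent (algebraicClosure ℚ ℂ) ![x, y]) ∧
      ∀ y : Fin 2 → ℂ, (∀ i, y i ∈ V) →
        (∃ i, y i ∉ Set.range (algebraMap (algebraicClosure ℚ ℂ) ℂ)) →
        ∀ P : MvPolynomial (Fin 2) (algebraicClosure ℚ ℂ), P ≠ 0 → P.totalDegree ≤ D →
        MvPolynomial.aeval y P = 0 →
        (∀ c : Fin 2 → Polynomial ℂ, (∀ i, (c i).coeff 0 = y i) →
          MvPolynomial.aeval c P = 0 → ∀ i, c i = Polynomial.C (y i)) →
        ∃ W ∈ 𝒲, ∀ i, y i ∈ W := by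
  classical
  let K := algebraicClosure ℚ ℂ
  have hKa : IsAlgClosed K := (algebraicClosure.isAlgClosure ℚ ℂ).isAlgClosed
  have hKc : Countable K := Cx.countable_QB
  have hCu : Uncountable ℂ := by
    have h1 : ¬ (Set.univ : Set ℂ).Countable := not_countable_complex
    rw [Set.countable_univ_iff, not_countable_iff] at h1
    exact h1
  obtain ⟨N, hN⟩ : ∃ N, N = Module.finrank K V := ⟨_, rfl⟩
  let B : Module.Basis (Fin N) K V := (Module.finBasisOfFinrankEq K V hN.symm)
  let L : IntermediateField K ℂ := KK K (Set.range fun j => (B j : ℂ))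
  have hLc : Countable L := countable_KK _ (Set.countable_range _)
  let b : Fin N → L := fun j => ⟨B j, mem_KK_of_mem ⟨j, rfl⟩⟩
  -- the linear maps
  let ΦL : (Fin N → K) →ₗ[K] L :=
    { toFun := fun k => ∑ j, algebraMap K L (k j) * b j
      map_add' := by
        intro k k'
        simp only [Pi.add_apply, map_add, add_mul, Finset.sum_add_distrib]
      map_smul' := by
        intro c k
        simp only [Pi.smul_apply, smul_eq_mul, map_mul, mul_assoc, RingHom.id_apply,
          Algebra.smul_def, Finset.mul_sum] }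
  have hΦL : ∀ k, ΦL k = ∑ j, algebraMap K L (k j) * b j := fun k => rfl
  let val : L →ₗ[K] ℂ := L.val.toLinearMap
  have hval : ∀ u : L, val u = (u : ℂ) := fun u => rfl
  have hvalinj : Function.Injective val := Subtype.val_injective
  have hΦ : ∀ k : Fin N → K, val (ΦL k) = ∑ j, k j • (B j : ℂ) := by
    intro k
    rw [hΦL, map_sum]
    apply Finset.sum_congr rfl
    intro j _
    rw [Algebra.smul_def]
    rfl
  -- the primes
  let I : Ideal (MvPolynomial (Par 1 N D) K) := Ideal.span (Eqs K D b ∪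
    {f | ∃ d : Fin 2 → Fin (D + 1), D < ∑ i, (d i : ℕ) ∧ f = MvPolynomial.X (Sum.inr d)})
  let Q : Set (Ideal (MvPolynomial (Par 1 N D) K)) :=
    {𝔭 | 𝔭 ∈ I.minimalPrimes ∧ ∃ z : Par 1 N D → K, GoodPt b z ∧
      ∀ f ∈ 𝔭, MvPolynomial.aeval z f = 0}
  have hQfin : Q.Finite := (Ideal.finite_minimalPrimes_of_isNoetherianRing _ I).subset
    fun 𝔭 h => h.1
  have hQcard : Q.encard ≤ ((2 * (2 * D + 1)) ^ (2 * M + (D + 1) ^ 2) : ℕ) := by
    rw [hQfin.encard_eq_coe_toFinset_card]
    have h2 := Cmp.count_minimalPrimes (K := K) (ι := Par 1 N D) (2 * D + 1) (by omega)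
      (Eqs K D b ∪ {f | ∃ d : Fin 2 → Fin (D + 1), D < ∑ i, (d i : ℕ) ∧
        f = MvPolynomial.X (Sum.inr d)}) (by
        rintro f (hf | ⟨d, -, rfl⟩)
        · refine (Eqs_degree b f hf).trans ?_
          omega
        · rw [MvPolynomial.totalDegree_X]
          omega) hQfin.toFinset (by
        intro q hq
        rw [Set.Finite.mem_toFinset] at hq
        exact hq.1)
    have h3 : Fintype.card (Par 1 N D) = 2 * N + (D + 1) ^ 2 := by
      simp only [Fintype.card_sum, Fintype.card_prod, Fintype.card_fin, Fintype.card_fun]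
    rw [h3] at h2
    have h4 : (2 * (2 * D + 1)) ^ (2 * N + (D + 1) ^ 2) ≤
        (2 * (2 * D + 1)) ^ (2 * M + (D + 1) ^ 2) := by
      apply Nat.pow_le_pow_right (by omega)
      have h5 : N ≤ M := hN ▸ hM
      omega
    exact_mod_cast h2.trans h4
  have hcomp : ∀ 𝔭 ∈ Q, ∃ SK : Submodule K (Fin N → K),
      (∀ z' : Par 1 N D → K, (∀ f ∈ 𝔭, MvPolynomial.aeval z' f = 0) → ∀ i, xx z' i ∈ SK) ∧
      (∀ k : Fin N → K, ∑ j, algebraMap K L (k j) * b j = 1 → k ∈ SK) ∧
      (AlgebraicIndependent.matroid K L).eRk {l | ∃ k ∈ SK, l = ∑ j, algebraMap K L (k j) * b j} ≤ 1 ∧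
      ∀ W : Submodule K L, (∀ w ∈ W, ∃ k ∈ SK, w = ∑ j, algebraMap K L (k j) * b j) →
        FiniteDimensional K W → ∀ m : ℕ, Module.finrank K (W ^ m : Submodule K L) ≤ D * (m + 1) := by
    rintro 𝔭 ⟨h𝔭, z, hz, hz𝔭⟩
    exact comp_space b 𝔭 h𝔭.1.1 (fun f hf => h𝔭.1.2 (Ideal.subset_span (Or.inl hf)))
      (fun d hd => h𝔭.1.2 (Ideal.subset_span (Or.inr ⟨d, hd, rfl⟩))) z hz hz𝔭
  choose! SK hSK using hcomp
  refine ⟨(fun 𝔭 => ((SK 𝔭).map ΦL).map val) '' Q, (Set.encard_image_le _ _).trans hQcard, ?_, ?_⟩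
  · rintro _ ⟨𝔭, h𝔭, rfl⟩
    obtain ⟨h1, h2, h3, h4⟩ := hSK 𝔭 h𝔭
    refine ⟨?_, ?_, ?_, ?_⟩
    · rintro _ ⟨_, ⟨k, hk, rfl⟩, rfl⟩
      rw [hΦ]
      exact Submodule.sum_mem _ fun j _ => Submodule.smul_mem _ _ (B j).2
    · intro h1V
      let k : Fin N → K := fun j => B.repr ⟨1, h1V⟩ j
      have h5 : val (ΦL k) = 1 := by
        rw [hΦ]
        have h6 := congrArg (fun v : V => (v : ℂ)) (B.sum_repr ⟨1, h1V⟩)
        simp only [Submodule.coe_sum, Submodule.coe_smul] at h6
        exact h6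
      refine ⟨ΦL k, ⟨k, h2 k ?_, rfl⟩, h5⟩
      apply hvalinj
      rw [← hΦL, h5]
      rfl
    · intro m
      have hfdW : FiniteDimensional K ((SK 𝔭).map ΦL : Submodule K L) := inferInstance
      have h5 := h4 ((SK 𝔭).map ΦL) (by
        rintro _ ⟨k, hk, rfl⟩
        exact ⟨k, hk, rfl⟩) hfdW m
      have h6 : ∀ m : ℕ, (((SK 𝔭).map ΦL).map val) ^ m = (((SK 𝔭).map ΦL) ^ m).map val := by
        intro m
        exact (Submodule.map_pow _ L.val m).symm
      rw [h6]
      rw [← (Submodule.equivMapOfInjective val hvalinj _).finrank_eq]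
      exact h5
    · rintro _ ⟨_, ⟨k, hk, rfl⟩, rfl⟩ _ ⟨_, ⟨k', hk', rfl⟩, rfl⟩ hind
      have h5 : AlgebraicIndependent K ![ΦL k, ΦL k'] := by
        have h6 : (![val (ΦL k), val (ΦL k')] : Fin 2 → ℂ) = (L.val : L →ₐ[K] ℂ) ∘ ![ΦL k, ΦL k'] := by
          funext i
          fin_cases i <;> rfl
        rw [h6] at hind
        exact AlgebraicIndependent.of_comp _ hind
      have h6 : (AlgebraicIndependent.matroid K L).Indep (Set.range ![ΦL k, ΦL k']) := by
        rw [AlgebraicIndependent.matroid_indep_iff]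
        exact AlgebraicIndependent.coe_range h5
      have h7 := h6.encard_le_eRk_of_subset (X := {l | ∃ k ∈ SK 𝔭,
          l = ∑ j, algebraMap K L (k j) * b j}) (by
        rintro _ ⟨i, rfl⟩
        fin_cases i
        · exact ⟨k, hk, rfl⟩
        · exact ⟨k', hk', rfl⟩)
      have h8 := h7.trans h3
      rw [← Set.image_univ, (h5.injective).encard_image, Set.encard_univ] at h8
      simp at h8
  · intro y hyV hyt P hP hPD hPy hNC
    obtain ⟨c, hc, hcd⟩ := exists_UP' P hPD
    have hrep : ∀ i, ∃ x : Fin N → K, (∑ j, x j • (B j : ℂ)) = y i := by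
      intro i
      refine ⟨fun j => B.repr ⟨y i, hyV i⟩ j, ?_⟩
      have h2 := congrArg (fun v : V => (v : ℂ)) (B.sum_repr ⟨y i, hyV i⟩)
      simp only [Submodule.coe_sum, Submodule.coe_smul] at h2
      exact h2
    choose x hx using hrep
    let z : Par 1 N D → K := Sum.elim (fun p => x p.1 p.2) c
    have hxx : xx z = x := rfl
    have hcc : cc z = c := rfl
    have hpt : ∀ i, ((Fd.pt b (xx z) i : L) : ℂ) = y i := by
      intro i
      have h3 := hΦ (x i)
      rw [hx] at h3
      exact h3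
    have hyeq : (fun i => ((Fd.pt b (xx z) i : L) : ℂ)) = y := funext hpt
    have hgood : GoodPt b z := by
      constructor
      · rw [hcc, ← hc]
        exact hP
      · rw [hcc, ← hc]
        apply Subtype.ext
        have h2 := MvPolynomial.aeval_algebraMap_apply (B := ℂ) (Fd.pt b (xx z)) P
        have h3 : ((MvPolynomial.aeval (Fd.pt b (xx z)) P : L) : ℂ) =
            MvPolynomial.aeval y P := by
          rw [← hyeq]
          exact h2.symm
        rw [h3, hPy]
        rfl
      · obtain ⟨i₀, hi₀⟩ := hyt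
        have h2 : Transcendental K (Fd.pt b (xx z) i₀) := by
          intro h
          have h3 : IsAlgebraic K (((Fd.pt b (xx z) i₀ : L)) : ℂ) := h.algebraMap (A := ℂ)
          rw [hpt] at h3
          exact transc_of_notMem hi₀ h3
        have h3 : (AlgebraicIndependent.matroid K L).Indep {Fd.pt b (xx z) i₀} := by
          rw [AlgebraicIndependent.matroid_indep_iff]
          change AlgebraicIndependent K (fun i : ({Fd.pt b (xx z) i₀} : Set L) => id (i : L))
          rw [algebraicIndependent_unique_type_iff]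
          exact h2
        have h4 := h3.encard_le_eRk_of_subset (X := Set.range (Fd.pt b (xx z))) (by
          rintro _ rfl
          exact ⟨_, rfl⟩)
        rw [Set.encard_singleton] at h4
        exact_mod_cast h4
      · intro κ hκ hLκ hκc
        obtain ⟨j⟩ := exists_emb (L := L) (κ := κ) (M := ℂ)
        apply NC.of_embedding _ (j : κ →+* ℂ)
        intro cu hcu hcuP i r hr
        have hcu' : ∀ i, (cu i).coeff 0 = y i := by
          intro i
          rw [hcu]
          have h2 := j.commutes (Fd.pt b (xx z) i)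
          refine Eq.trans h2 ?_
          exact hpt i
        have h2 := hNC cu hcu' (by
          rw [hc, ← hcc, MvPolynomial.aeval_def, eval₂_UP]
          rw [eval₂_UP] at hcuP
          rw [← hcuP]
          apply Finset.sum_congr rfl
          intro d _
          congr 1
          simp only [RingHom.comp_apply]
          rw [Polynomial.algebraMap_apply]
          congr 1
          have h3 := j.commutes (algebraMap K L (cc z d))
          exact h3.symm) i
        rw [h2, Polynomial.coeff_C, if_neg hr]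
    have hprime : (RingHom.ker (MvPolynomial.aeval z :
        MvPolynomial (Par 1 N D) K →ₐ[K] K)).IsPrime := RingHom.ker_isPrime _
    have hle : I ≤ RingHom.ker (MvPolynomial.aeval z : MvPolynomial (Par 1 N D) K →ₐ[K] K) := by
      rw [Ideal.span_le]
      rintro f (hf | ⟨d, hd, rfl⟩)
      · exact eval_Eqs b z hgood.eq f hf
      · change MvPolynomial.aeval z (MvPolynomial.X (Sum.inr d)) = 0
        rw [MvPolynomial.aeval_X]
        exact hcd d hd
    obtain ⟨𝔭, h𝔭, hle'⟩ := Ideal.exists_minimalPrimes_le hle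
    have h𝔭Q : 𝔭 ∈ Q := ⟨h𝔭, z, hgood, fun f hf => hle' hf⟩
    refine ⟨_, ⟨𝔭, h𝔭Q, rfl⟩, fun i => ?_⟩
    refine ⟨ΦL (x i), ⟨x i, ?_, rfl⟩, ?_⟩
    · exact (hSK 𝔭 h𝔭Q).1 z (fun f hf => hle' hf) i
    · rw [hΦ, hx]

end Pool.Agent.Zk18.Rr
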