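import Pool.Agent.Zk18.Rr1

/-!
# Regularity at finite places
-/

set_option autoImplicit false
set_option linter.unusedSectionVars false

attribute [-instance] HahnSeries.powerSeriesAlgebra

namespace Pool.Agent.Zk18.Rr

open HahnSeries Pool.Agent.Zk18 Pool.Agent.Zk18.Md Pool.Agent.Zk18.Fd IntermediateField

section

variable {F M : Type} [Field F] [Field M] [Algebra F M]

/-- `M` has transcendence degree at most one over `F` -/
def TrOne (F M : Type) [Field F] [Field M] [Algebra F M] : Prop :=
  ∀ w : M, w ∉ Set.range (algebraMap F M) → Algebra.IsAlgebraic F⟮w⟯ M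

theorem poly_transc (c : Polynomial F) (k : ℕ) (hk : k ≠ 0) (hc : c.coeff k ≠ 0)
    (p : MvPolynomial (Fin 1) F) (hp : MvPolynomial.aeval (fun _ => c) p = 0) : p = 0 := by
  classical
  have htr : Transcendental F c := by
    intro halg
    obtain ⟨q, hq0, hq⟩ := halg
    have h1 : q.comp c = 0 := by
      rw [Polynomial.aeval_def] at hq
      rw [Polynomial.comp, ← hq]
      rfl
    rw [Polynomial.comp_eq_zero_iff] at h1
    rcases h1 with h1 | h1
    · exact hq0 h1
    · rw [h1.2, Polynomial.coeff_C, if_neg hk] at hc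
      exact hc rfl
  have h2 : AlgebraicIndependent F (fun _ : Fin 1 => c) := by
    rw [algebraicIndependent_unique_type_iff]
    exact htr
  exact h2 (hp.trans (map_zero _).symm)

/-- The relations of a nonconstant polynomial curve are the relations of the point. -/
theorem kernel_eq [IsAlgClosed F] (htd : TrOne F M) {m : ℕ} (y : Fin m → M)
    (c : Fin m → Polynomial F) (i : Fin m) (k : ℕ) (hk : k ≠ 0) (hc : (c i).coeff k ≠ 0)
    (hQ : ∀ Q : MvPolynomial (Fin m) F, MvPolynomial.aeval y Q = 0 → MvPolynomial.aeval c Q = 0) :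
    (y i ∉ Set.range (algebraMap F M)) ∧
    ∀ Q : MvPolynomial (Fin m) F, MvPolynomial.aeval c Q = 0 → MvPolynomial.aeval y Q = 0 := by
  classical
  have hyi : y i ∉ Set.range (algebraMap F M) := by
    rintro ⟨a, ha⟩
    have h1 := hQ (MvPolynomial.X i - MvPolynomial.C a) (by
      rw [map_sub, MvPolynomial.aeval_X, MvPolynomial.aeval_C, ha, sub_self])
    rw [map_sub, MvPolynomial.aeval_X, MvPolynomial.aeval_C, sub_eq_zero] at h1
    rw [h1, Polynomial.algebraMap_apply, Polynomial.coeff_C, if_neg hk] at hc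
    exact hc rfl
  refine ⟨hyi, fun Q hQc => ?_⟩
  by_contra hz
  have halg := htd (y i) hyi
  obtain ⟨P, hP, hPz⟩ := exists_relation (F := F) (fun _ : Fin 1 => y i)
    (MvPolynomial.aeval y Q)⁻¹ (by
      change _ ∈ algebraicClosure (IntermediateField.adjoin F (Set.range fun _ : Fin 1 => y i)) M
      rw [mem_algebraicClosure_iff, Set.range_const]
      exact halg.isAlgebraic _)
  have hP0 : P ≠ 0 := by
    rintro rfl
    exact hP (Polynomial.map_zero _)
  set n := P.natDegree with hn
  let Q' : MvPolynomial (Fin m) F := ∑ j ∈ Finset.range (n + 1),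
    MvPolynomial.aeval (fun _ : Fin 1 => MvPolynomial.X i) (P.coeff j) * Q ^ (n - j)
  have hQ' : MvPolynomial.aeval y Q' = 0 := by
    rw [Polynomial.eval_map, Polynomial.eval₂_eq_sum_range] at hPz
    have h1 : MvPolynomial.aeval y Q' = MvPolynomial.aeval y Q ^ n *
        ∑ j ∈ Finset.range (P.natDegree + 1),
          MvPolynomial.aeval (fun _ : Fin 1 => y i) (P.coeff j) * ((MvPolynomial.aeval y Q)⁻¹) ^ j := by
      rw [map_sum, Finset.mul_sum]
      apply Finset.sum_congr rfl
      intro j hj
      rw [Finset.mem_range] at hj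
      rw [map_mul, map_pow, MvPolynomial.comp_aeval_apply]
      simp only [MvPolynomial.aeval_X]
      have h2 : MvPolynomial.aeval y Q ^ (n - j) =
          MvPolynomial.aeval y Q ^ n * ((MvPolynomial.aeval y Q)⁻¹) ^ j := by
        rw [inv_pow, ← div_eq_mul_inv, eq_div_iff (pow_ne_zero _ hz), ← _root_.pow_add]
        congr 1
        omega
      rw [h2]
      ring
    rw [h1]
    have h2 : ∑ j ∈ Finset.range (P.natDegree + 1),
          MvPolynomial.aeval (fun _ : Fin 1 => y i) (P.coeff j) * ((MvPolynomial.aeval y Q)⁻¹) ^ j =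
          0 := hPz
    rw [h2, mul_zero]
  have h1 := hQ Q' hQ'
  rw [map_sum, Finset.sum_range_succ, Finset.sum_eq_zero] at h1
  · rw [zero_add, map_mul, MvPolynomial.comp_aeval_apply, Nat.sub_self, pow_zero, map_one,
      mul_one] at h1
    simp only [MvPolynomial.aeval_X] at h1
    have h2 := poly_transc (c i) k hk hc _ h1
    exact hP0 (Polynomial.leadingCoeff_eq_zero.mp h2)
  · intro j hj
    rw [Finset.mem_range] at hj
    rw [map_mul, map_pow, hQc, zero_pow (by omega), mul_zero]

/-- a nonconstant polynomial curve on the closure of a point, over the ground field, gives a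
polynomial curve through the point -/
theorem no_curve [IsAlgClosed F] [IsAlgClosed M] (htd : TrOne F M) {m : ℕ} (y : Fin m → M)
    (hNA : NA F y) (c : Fin m → Polynomial F) (i : Fin m) (k : ℕ) (hk : k ≠ 0)
    (hc : (c i).coeff k ≠ 0)
    (hQ : ∀ Q : MvPolynomial (Fin m) F, MvPolynomial.aeval y Q = 0 → MvPolynomial.aeval c Q = 0) :
    False := by
  classical
  obtain ⟨hyi, hker⟩ := kernel_eq htd y c i k hk hc hQ
  let I : Ideal (MvPolynomial (Fin m) F) := RingHom.ker
    ((MvPolynomial.aeval y : MvPolynomial (Fin m) F →ₐ[F] M) : MvPolynomial (Fin m) F →+* M)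
  have hI : I.IsPrime := RingHom.ker_isPrime _
  let R := MvPolynomial (Fin m) F ⧸ I
  let Fr := FractionRing R
  let g : MvPolynomial (Fin m) F →+* RatFunc F := (algebraMap (Polynomial F) (RatFunc F)).comp
    ((MvPolynomial.aeval c : MvPolynomial (Fin m) F →ₐ[F] Polynomial F) :
      MvPolynomial (Fin m) F →+* Polynomial F)
  have hg : ∀ Q, g Q = algebraMap (Polynomial F) (RatFunc F) (MvPolynomial.aeval c Q) := fun _ => rfl
  have hgI : ∀ Q ∈ I, g Q = 0 := by
    intro Q hQI
    rw [hg, hQ Q hQI, map_zero]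
  let f1 : R →+* M := Ideal.Quotient.lift I ((MvPolynomial.aeval y :
    MvPolynomial (Fin m) F →ₐ[F] M) : MvPolynomial (Fin m) F →+* M) (fun Q hQI => hQI)
  let f2 : R →+* RatFunc F := Ideal.Quotient.lift I g hgI
  have hf1 : Function.Injective f1 := by
    rw [injective_iff_map_eq_zero]
    intro r hr
    obtain ⟨Q, rfl⟩ := Ideal.Quotient.mk_surjective r
    exact Ideal.Quotient.eq_zero_iff_mem.mpr hr
  have hf2 : Function.Injective f2 := by
    rw [injective_iff_map_eq_zero]
    intro r hr
    obtain ⟨Q, rfl⟩ := Ideal.Quotient.mk_surjective r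
    apply Ideal.Quotient.eq_zero_iff_mem.mpr
    have h1 : g Q = 0 := hr
    rw [hg] at h1
    exact hker Q ((map_eq_zero_iff _ (RatFunc.algebraMap_injective F)).mp h1)
  let φ1 : Fr →+* M := IsFractionRing.lift (A := R) (K := Fr) hf1
  let φ2 : Fr →+* RatFunc F := IsFractionRing.lift (A := R) (K := Fr) hf2
  have hφ1 : ∀ Q, φ1 (algebraMap R Fr (Ideal.Quotient.mk I Q)) = MvPolynomial.aeval y Q := by
    intro Q
    exact IsFractionRing.lift_algebraMap hf1 _
  have hφ2 : ∀ Q, φ2 (algebraMap R Fr (Ideal.Quotient.mk I Q)) = g Q := by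
    intro Q
    exact IsFractionRing.lift_algebraMap hf2 _
  let _ : Algebra Fr M := φ1.toAlgebra
  let _ : Algebra Fr (RatFunc F) := φ2.toAlgebra
  have hcs : ∀ a : F, algebraMap (Polynomial F) (RatFunc F) (Polynomial.C a) =
      algebraMap Fr (RatFunc F) (algebraMap R Fr (Ideal.Quotient.mk I (MvPolynomial.C a))) := by
    intro a
    have h1 := hφ2 (MvPolynomial.C a)
    rw [hg, MvPolynomial.aeval_C, Polynomial.algebraMap_apply] at h1
    exact h1.symm
  have hX : IsAlgebraic Fr (algebraMap (Polynomial F) (RatFunc F) Polynomial.X) := by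
    let p : Polynomial Fr := (c i).map ((algebraMap R Fr).comp ((Ideal.Quotient.mk I).comp
      MvPolynomial.C)) - Polynomial.C (algebraMap R Fr (Ideal.Quotient.mk I (MvPolynomial.X i)))
    refine ⟨p, ?_, ?_⟩
    · intro h0
      have h1 := congrArg (fun q => Polynomial.coeff q k) h0
      simp only [p, Polynomial.coeff_sub, Polynomial.coeff_map, Polynomial.coeff_C, if_neg hk,
        sub_zero, Polynomial.coeff_zero] at h1
      apply hc
      have h2 := congrArg φ2 h1
      rw [map_zero, RingHom.comp_apply, RingHom.comp_apply, hφ2, hg, MvPolynomial.aeval_C] at h2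
      have h3 := (map_eq_zero_iff _ (RatFunc.algebraMap_injective F)).mp h2
      rw [Polynomial.algebraMap_apply] at h3
      exact Polynomial.C_eq_zero.mp h3
    · have h1 : Polynomial.aeval (algebraMap (Polynomial F) (RatFunc F) Polynomial.X)
          ((c i).map ((algebraMap R Fr).comp ((Ideal.Quotient.mk I).comp MvPolynomial.C))) =
          algebraMap (Polynomial F) (RatFunc F) (c i) := by
        rw [Polynomial.aeval_def, Polynomial.eval₂_map]
        have h2 := Polynomial.hom_eval₂ (c i) Polynomial.C (algebraMap (Polynomial F) (RatFunc F))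
          Polynomial.X
        rw [Polynomial.eval₂_C_X] at h2
        rw [h2]
        congr 1
        ext a
        rw [RingHom.comp_apply, RingHom.comp_apply, RingHom.comp_apply, RingHom.comp_apply]
        exact (hcs a).symm
      have h2 := hφ2 (MvPolynomial.X i)
      rw [hg, MvPolynomial.aeval_X] at h2
      rw [map_sub, Polynomial.aeval_C, h1, sub_eq_zero]
      exact h2.symm
  have halgF : ∀ r : RatFunc F, IsAlgebraic Fr r := by
    have h1 : ∀ q : Polynomial F, algebraMap (Polynomial F) (RatFunc F) q ∈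
        algebraicClosure Fr (RatFunc F) := by
      intro q
      induction q using Polynomial.induction_on' with
      | add p q hp hq =>
        rw [map_add]
        exact (algebraicClosure Fr (RatFunc F)).add_mem hp hq
      | monomial n a =>
        rw [← Polynomial.C_mul_X_pow_eq_monomial, map_mul, map_pow, hcs]
        apply (algebraicClosure Fr (RatFunc F)).mul_mem
        · exact (algebraicClosure Fr (RatFunc F)).algebraMap_mem _
        · refine _root_.pow_mem ?_ n
          rw [mem_algebraicClosure_iff]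
          exact hX
    intro r
    rw [← mem_algebraicClosure_iff, ← RatFunc.num_div_denom r]
    exact (algebraicClosure Fr (RatFunc F)).div_mem (h1 _) (h1 _)
  have halg' : Algebra.IsAlgebraic Fr (RatFunc F) := ⟨halgF⟩
  let Λ : RatFunc F →ₐ[Fr] M := IsAlgClosed.lift
  let T₀ : M := Λ (algebraMap (Polynomial F) (RatFunc F) Polynomial.X)
  have hΛF : ∀ a : F, Λ (algebraMap (Polynomial F) (RatFunc F) (Polynomial.C a)) =
      algebraMap F M a := by
    intro a
    rw [hcs, Λ.commutes]
    have h1 := hφ1 (MvPolynomial.C a)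
    rw [MvPolynomial.aeval_C] at h1
    exact h1
  have hΛc : ∀ q : Polynomial F, Λ (algebraMap (Polynomial F) (RatFunc F) q) =
      Polynomial.aeval T₀ q := by
    intro q
    induction q using Polynomial.induction_on' with
    | add p q hp hq => rw [map_add, map_add, hp, hq, map_add]
    | monomial n a =>
      rw [← Polynomial.C_mul_X_pow_eq_monomial, map_mul, map_mul, hΛF, map_pow, map_pow, map_mul,
        map_pow, Polynomial.aeval_X, Polynomial.aeval_C]
  have hyc : ∀ j, y j = Polynomial.aeval T₀ (c j) := by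
    intro j
    rw [← hΛc]
    have h1 := hφ2 (MvPolynomial.X j)
    have h2 := hφ1 (MvPolynomial.X j)
    rw [hg, MvPolynomial.aeval_X] at h1
    rw [MvPolynomial.aeval_X] at h2
    rw [← h1, ← h2]
    exact (Λ.commutes _).symm
  -- the curve through the point
  let c' : Fin m → Polynomial M := fun j =>
    ((c j).map (algebraMap F M)).comp (Polynomial.C T₀ + Polynomial.X)
  have hc'0 : ∀ j, (c' j).coeff 0 = y j := by
    intro j
    rw [Polynomial.coeff_zero_eq_eval_zero, Polynomial.eval_comp, Polynomial.eval_add,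
      Polynomial.eval_C, Polynomial.eval_X, add_zero, Polynomial.eval_map_algebraMap, hyc]
  have hc'Q : ∀ Q : MvPolynomial (Fin m) F, MvPolynomial.aeval y Q = 0 →
      MvPolynomial.aeval c' Q = 0 := by
    intro Q hQy
    have h1 := hQ Q hQy
    have h2 := congrArg (Polynomial.compRingHom (Polynomial.C T₀ + Polynomial.X))
      (congrArg (Polynomial.mapRingHom (algebraMap F M)) h1)
    rw [map_zero, map_zero, MvPolynomial.aeval_def, MvPolynomial.eval₂_comp_left,
      MvPolynomial.eval₂_comp_left] at h2
    rw [MvPolynomial.aeval_def, ← h2]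
    congr 1
    ext a
    simp [Polynomial.algebraMap_apply]
  have h1 := hNA c' hc'0 hc'Q i
  have h2 : c' i = Polynomial.C ((c' i).coeff 0) := by
    ext n
    rw [Polynomial.coeff_C]
    split_ifs with hn
    · rw [hn]
    · exact h1 n hn
  have h3 : (c i).map (algebraMap F M) = Polynomial.C ((c' i).coeff 0) := by
    have h4 := congrArg (fun p : Polynomial M => p.comp (Polynomial.X - Polynomial.C T₀)) h2
    simp only [c', Polynomial.comp_assoc, Polynomial.add_comp, Polynomial.C_comp,
      Polynomial.X_comp, add_sub_cancel, Polynomial.comp_X] at h4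
    exact h4
  have h5 := congrArg (fun p : Polynomial M => p.coeff k) h3
  simp only [Polynomial.coeff_map, Polynomial.coeff_C, if_neg hk] at h5
  exact hc ((map_eq_zero_iff _ (algebraMap F M).injective).mp h5)

/-- **Regularity at finite places.** -/
theorem finite_regular [CharZero F] [IsAlgClosed F] [IsAlgClosed M] (htd : TrOne F M) {m N : ℕ}
    (τ : M →+* HahnSeries ℚ F) (hτ : ∀ a, τ (algebraMap F M a) = C a)
    (δ : M →+ M) (hδ : ∀ a b, δ (a * b) = δ a * b + a * δ b) (D : F →+ F)
    (hD : ∀ a, δ (algebraMap F M a) = algebraMap F M (D a)) (b : Fin N → M) (hb : ∀ j, δ (b j) = 0)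
    (f : Fin m → Fin N → F)
    (hNA : NA F (fun i => ∑ j, algebraMap F M (f i j) * b j))
    (hreg : ∀ i, 0 ≤ (τ (∑ j, algebraMap F M (f i j) * b j)).orderTop) (i : Fin m) (k : ℕ) :
    0 ≤ (τ (δ^[k] (∑ j, algebraMap F M (f i j) * b j))).orderTop := by
  classical
  have hcM : CharZero M := charZero_of_injective_algebraMap (algebraMap F M).injective
  have hit : ∀ (g : Fin N → F) (k : ℕ), δ^[k] (∑ j, algebraMap F M (g j) * b j) =
      ∑ j, algebraMap F M (D^[k] (g j)) * b j := by
    intro g k
    induction k with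
    | zero => rfl
    | succ k ih =>
      rw [Function.iterate_succ_apply', ih, map_sum]
      apply Finset.sum_congr rfl
      intro j _
      rw [hδ, hb, mul_zero, add_zero, hD, Function.iterate_succ_apply']
  obtain ⟨q₀, hq₀⟩ : ∃ q₀ : ℚ, ∀ j, ((q₀ : ℚ) : WithTop ℚ) ≤ (τ (b j)).orderTop := by
    have h1 : ∀ j, ∃ q : ℚ, ((q : ℚ) : WithTop ℚ) ≤ (τ (b j)).orderTop := by
      intro j
      by_cases h : (τ (b j)).orderTop = ⊤
      · exact ⟨0, by rw [h]; exact le_top⟩
      · obtain ⟨q, hq⟩ := WithTop.ne_top_iff_exists.mp h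
        exact ⟨q, hq.le⟩
    choose q hq using h1
    obtain ⟨q₀, hq₀⟩ : ∃ q₀ : ℚ, ∀ j, q₀ ≤ q j := by
      obtain ⟨q₀, hq₀⟩ := (Set.finite_range q).bddBelow
      exact ⟨q₀, fun j => hq₀ ⟨j, rfl⟩⟩
    exact ⟨q₀, fun j => le_trans (by exact_mod_cast hq₀ j) (hq j)⟩
  by_contra hcon
  rw [not_le] at hcon
  obtain ⟨c, ⟨i₁, k₁, hk₁, hc⟩, hQ⟩ := curve_at_place τ hτ δ hδ D hD
    (fun i => ∑ j, algebraMap F M (f i j) * b j) hreg q₀ (by
      intro i k
      rw [hit, map_sum]
      apply orderTop_sum
      intro j _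
      rw [map_mul, hτ]
      have := orderTop_mul_le (orderTop_C_nonneg (D^[k] (f i j))) (hq₀ j)
      rwa [zero_add] at this) i k hcon
  exact no_curve htd _ hNA c i₁ k₁ hk₁ hc hQ

end

end Pool.Agent.Zk18.Rr
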