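import Pool.Agent.Zk18.Rr2

/-!
# Places of function fields of one variable over a coordinate
-/

set_option autoImplicit false
set_option linter.unusedSectionVars false

attribute [-instance] HahnSeries.powerSeriesAlgebra

namespace Pool.Agent.Zk18.Rr

open HahnSeries hiding C
open Pool.Agent.Helper165.P1 Pool.Agent.Zk18 Pool.Agent.Zk18.Md Pool.Agent.Zk18.Fd Polynomial
  IntermediateField

section

variable {F M : Type} [Field F] [Field M] [Algebra F M]

theorem transc_of_notMem [IsAlgClosed F] {x : M} (hx : x ∉ Set.range (algebraMap F M)) :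
    Transcendental F x := by
  intro hz
  apply hx
  have h1 : IsIntegral F x := hz.isIntegral
  have h2 := IsAlgClosed.degree_eq_one_of_irreducible F (minpoly.irreducible h1)
  exact minpoly.mem_range_of_degree_eq_one F x h2

theorem exists_base (x : M) (hx : Transcendental F x) (T : Pui F) (hT : Transcendental F T) :
    ∃ ι : F⟮x⟯ →ₐ[F] Pui F, ι (AdjoinSimple.gen F x) = T := by
  let e := RatFunc.algEquivOfTranscendental x hx
  refine ⟨(F⟮T⟯.val).comp
    ((RatFunc.algEquivOfTranscendental T hT).toAlgHom.comp e.symm.toAlgHom), ?_⟩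
  change ((RatFunc.algEquivOfTranscendental T hT (e.symm (AdjoinSimple.gen F x)) : F⟮T⟯) :
      Pui F) = _
  rw [RatFunc.algEquivOfTranscendental_symm_gen, RatFunc.algEquivOfTranscendental_X]

/-- elements of the rational function field -/
theorem ratio (x : M) {c : M} (hc : c ∈ F⟮x⟯) :
    ∃ p q : F[X], aeval x q ≠ 0 ∧ c = aeval x p / aeval x q := by
  rw [IntermediateField.mem_adjoin_simple_iff] at hc
  obtain ⟨p, q, h⟩ := hc
  by_cases hq : aeval x q = 0
  · refine ⟨0, 1, by rw [map_one]; exact one_ne_zero, ?_⟩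
    rw [h, hq, div_zero, map_zero, zero_div]
  · exact ⟨p, q, hq, h⟩

theorem agree (x : M) (τ τ' : M →ₐ[F] Pui F) (h : τ x = τ' x) {c : M} (hc : c ∈ F⟮x⟯) :
    τ c = τ' c := by
  obtain ⟨p, q, hq, rfl⟩ := ratio x hc
  rw [map_div₀, map_div₀, ← aeval_algHom_apply, ← aeval_algHom_apply, ← aeval_algHom_apply,
    ← aeval_algHom_apply, h]

variable [IsAlgClosed F] [CharZero F]

theorem root_place (x : M) [Algebra.IsAlgebraic F⟮x⟯ M] (ι : F⟮x⟯ →ₐ[F] Pui F) (w : M) (y : Pui F)
    (hy : ((minpoly F⟮x⟯ w).map ι.toRingHom).eval y = 0) :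
    ∃ τ : M →ₐ[F] Pui F, (∀ c : F⟮x⟯, τ c = ι c) ∧ τ w = y := by
  let _ : Algebra F⟮x⟯ (Pui F) := ι.toRingHom.toAlgebra
  have hAlg : ∀ c, algebraMap F⟮x⟯ (Pui F) c = ι c := fun c => rfl
  obtain ⟨φ, hφ⟩ := IntermediateField.exists_algHom_of_splits_of_aeval (F := F⟮x⟯) (E := M)
    (K := Pui F) (fun s => ⟨(Algebra.IsAlgebraic.isAlgebraic s).isIntegral,
      IsAlgClosed.splits _⟩) (x := w) (y := y) (by
      rw [← eval_map_algebraMap]
      exact hy)
  refine ⟨{ φ.toRingHom with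
      commutes' := by
        intro c
        change φ (algebraMap F M c) = _
        have h1 : algebraMap F M c = algebraMap F⟮x⟯ M (algebraMap F F⟮x⟯ c) :=
          IsScalarTower.algebraMap_apply F F⟮x⟯ M c
        rw [h1, φ.commutes, hAlg, ι.commutes] }, fun c => ?_, hφ⟩
  have h2 : (c : M) = algebraMap F⟮x⟯ M c := rfl
  change φ (c : M) = _
  rw [h2, φ.commutes, hAlg]

theorem exists_tau (x : M) [Algebra.IsAlgebraic F⟮x⟯ M] (hx : Transcendental F x) (T : Pui F)
    (hT : Transcendental F T) : ∃ τ : M →ₐ[F] Pui F, τ x = T := by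
  obtain ⟨ι, hι⟩ := exists_base x hx T hT
  obtain ⟨y, hy⟩ := IsAlgClosed.exists_root ((minpoly F⟮x⟯ (0 : M)).map ι.toRingHom) (by
    rw [minpoly.zero, Polynomial.map_X, degree_X]
    exact one_ne_zero)
  obtain ⟨τ, hτ, -⟩ := root_place x ι 0 y hy
  exact ⟨τ, by rw [← hι, ← hτ]; rfl⟩

/-- coefficients of the minimal polynomial of an element which is regular over a point -/
theorem coeff_val (x w : M) [Algebra.IsAlgebraic F⟮x⟯ M] (τ : M →ₐ[F] Pui F)
    (h : ∀ σ : M →ₐ[F] Pui F, σ x = τ x → 0 ≤ vP F (σ w)) (i : ℕ) :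
    0 ≤ vP F (τ ((minpoly F⟮x⟯ w).coeff i : F⟮x⟯)) := by
  by_contra hno
  rw [not_le] at hno
  let ι : F⟮x⟯ →ₐ[F] Pui F := τ.comp F⟮x⟯.val
  have hint : IsIntegral F⟮x⟯ w := (Algebra.IsAlgebraic.isAlgebraic w).isIntegral
  obtain ⟨y, hy, hyv⟩ := exists_root_neg (vP F) ((minpoly F⟮x⟯ w).map ι.toRingHom)
    ((minpoly.monic hint).map _) i (by
      rw [coeff_map]
      exact hno)
  obtain ⟨σ, hσ, hσw⟩ := root_place x ι w y hy
  have h1 := h σ (hσ (AdjoinSimple.gen F x))
  rw [hσw] at h1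
  exact absurd hyv (not_lt.mpr h1)

/-- the values over a point are finitely many -/
theorem finite_values (x w : M) [Algebra.IsAlgebraic F⟮x⟯ M] (T : Pui F) :
    {u : Pui F | ∃ σ : M →ₐ[F] Pui F, σ x = T ∧ σ w = u}.Finite := by
  classical
  by_cases h : ∃ τ : M →ₐ[F] Pui F, τ x = T
  · obtain ⟨τ, hτ⟩ := h
    let ι : F⟮x⟯ →ₐ[F] Pui F := τ.comp F⟮x⟯.val
    have hint : IsIntegral F⟮x⟯ w := (Algebra.IsAlgebraic.isAlgebraic w).isIntegral
    have hne : (minpoly F⟮x⟯ w).map ι.toRingHom ≠ 0 := ((minpoly.monic hint).map _).ne_zero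
    apply (Polynomial.finite_setOfPred_isRoot hne).subset
    rintro u ⟨σ, hσ, rfl⟩
    change ((minpoly F⟮x⟯ w).map ι.toRingHom).eval (σ w) = 0
    have h1 := congrArg σ (minpoly.aeval F⟮x⟯ w)
    rw [map_zero, aeval_def] at h1
    change (σ : M →+* Pui F) _ = 0 at h1
    rw [hom_eval₂] at h1
    rw [eval_map, ← h1]
    congr 1
    ext1 c
    exact agree x τ σ (by rw [hτ, hσ]) c.2
  · convert Set.finite_empty
    ext u
    simp only [Set.mem_ofPred_eq, Set.mem_empty_iff_false, iff_false]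
    rintro ⟨σ, hσ, -⟩
    exact h ⟨σ, hσ⟩

theorem vP_poly_zero {x : M} {a : F} (τ : M →ₐ[F] Pui F) (hτ : τ x = fin a) (q : F[X])
    (hq : q.eval a ≠ 0) : vP F (τ (aeval x q)) = 0 := by
  rw [← aeval_algHom_apply, hτ]
  exact vP_aeval_zero a q hq

theorem vP_poly_pos {x : M} {a : F} (τ : M →ₐ[F] Pui F) (hτ : τ x = fin a) (q : F[X])
    (hq : q.eval a = 0) : 0 < vP F (τ (aeval x q)) := by
  rw [← aeval_algHom_apply, hτ]
  exact vP_aeval_pos a q hq

theorem vP_poly_nonneg {x : M} (τ : M →ₐ[F] Pui F) (hτ : 0 ≤ vP F (τ x)) (q : F[X]) :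
    0 ≤ vP F (τ (aeval x q)) := by
  rw [← aeval_algHom_apply]
  exact vP_aeval_nonneg _ hτ q

theorem tinv_pow (n : ℕ) : ((tinv ^ n : Pui F) : HQ F) = single (-(n : ℚ)) 1 := by
  rw [SubmonoidClass.coe_pow]
  change (single (-1 : ℚ) (1 : F)) ^ n = _
  rw [single_pow, one_pow]
  congr 1
  simp

theorem vP_tinv_pow (n : ℕ) : vP F (tinv ^ n : Pui F) = ((-(n : ℚ) : ℚ) : WithTop ℚ) := by
  rw [vP_apply, tinv_pow]
  exact orderTop_single one_ne_zero

/-- the order of a polynomial at infinity -/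
theorem vP_poly_inf {x : M} (τ : M →ₐ[F] Pui F) (hτ : τ x = tinv) (q : F[X]) (hq : q ≠ 0) :
    vP F (τ (aeval x q)) = ((-(q.natDegree : ℚ) : ℚ) : WithTop ℚ) := by
  rw [← aeval_algHom_apply, hτ, ← q.eraseLead_add_C_mul_X_pow, map_add, add_comm, map_mul, map_pow,
    aeval_X, aeval_C]
  have h1 : vP F (algebraMap F (Pui F) q.leadingCoeff * tinv ^ q.natDegree) =
      ((-(q.natDegree : ℚ) : ℚ) : WithTop ℚ) := by
    rw [AddValuation.map_mul, vP_algebraMap (leadingCoeff_ne_zero.mpr hq), zero_add, vP_tinv_pow]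
  have h2 : (q.eraseLead + C q.leadingCoeff * X ^ q.natDegree).natDegree = q.natDegree := by
    rw [q.eraseLead_add_C_mul_X_pow]
  rw [h2]
  rw [AddValuation.map_add_eq_of_lt_left, h1]
  rw [h1]
  by_cases h0 : q.eraseLead = 0
  · rw [h0, map_zero, AddValuation.map_zero]
    exact WithTop.coe_lt_top _
  · rw [aeval_eq_sum_range]
    apply val_sum_lt
    · exact WithTop.coe_ne_top
    · intro n hn
      rw [Finset.mem_range] at hn
      by_cases hc : q.eraseLead.coeff n = 0
      · rw [hc, zero_smul, AddValuation.map_zero]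
        exact WithTop.coe_lt_top _
      · rw [Algebra.smul_def, AddValuation.map_mul, vP_algebraMap hc, zero_add, vP_tinv_pow,
          WithTop.coe_lt_coe]
        have h3 : n ≤ q.eraseLead.natDegree := by omega
        have h4 : q.eraseLead.natDegree < q.natDegree := by
          rcases q.eraseLead_natDegree_lt_or_eraseLead_eq_zero with h5 | h5
          · exact h5
          · exact absurd h5 h0
        have h5 : (n : ℚ) < q.natDegree := by exact_mod_cast lt_of_le_of_lt h3 h4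
        linarith

theorem le_div {u v : Pui F} (hv : vP F v = 0) : vP F (u / v) = vP F u := by
  have hv0 : v ≠ 0 := by
    rintro rfl
    rw [AddValuation.map_zero] at hv
    exact absurd hv (by simp)
  have h1 := AddValuation.map_mul (vP F) (u / v) v
  rw [div_mul_cancel₀ _ hv0, hv, add_zero] at h1
  exact h1.symm

theorem coprime_ratio (x : M) (hx : Transcendental F x) {c : M} (hc : c ∈ F⟮x⟯) :
    ∃ p q : F[X], q.Monic ∧ IsCoprime p q ∧ aeval x q * c = aeval x p := by
  have h2 : ∃ r : RatFunc F, (RatFunc.algEquivOfTranscendental x hx r : M) = c := by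
    refine ⟨(RatFunc.algEquivOfTranscendental x hx).symm ⟨c, hc⟩, ?_⟩
    rw [AlgEquiv.apply_symm_apply]
  obtain ⟨r, hr⟩ := h2
  refine ⟨r.num, r.denom, r.monic_denom, r.isCoprime_num_denom, ?_⟩
  rw [← hr, RatFunc.algEquivOfTranscendental_apply]
  have h3 : aeval x r.denom ≠ 0 := by
    intro h5
    exact r.denom_ne_zero ((transcendental_iff.mp hx) _ h5)
  field_simp

/-- regular elements over a point of the rational function field -/
theorem denom_at (x : M) [Algebra.IsAlgebraic F⟮x⟯ M] (hx : Transcendental F x) {c : M}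
    (hc : c ∈ F⟮x⟯) (a : F) (h : ∀ τ : M →ₐ[F] Pui F, τ x = fin a → 0 ≤ vP F (τ c)) :
    ∃ p q : F[X], q.eval a ≠ 0 ∧ aeval x q * c = aeval x p := by
  obtain ⟨p, q, hq, hpq, hcq⟩ := coprime_ratio x hx hc
  refine ⟨p, q, fun h0 => ?_, hcq⟩
  obtain ⟨τ, hτ⟩ := exists_tau x hx (fin a) (transcendental_fin a)
  have hp : p.eval a ≠ 0 := by
    intro h2
    obtain ⟨b, d, hab⟩ := hpq
    have h3 := congrArg (Polynomial.eval a) hab
    rw [eval_add, eval_mul, eval_mul, h2, h0, mul_zero, mul_zero, add_zero, eval_one] at h3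
    exact zero_ne_one h3
  have h1 := congrArg (fun u => vP F (τ u)) hcq
  simp only [map_mul, AddValuation.map_mul] at h1
  rw [vP_poly_zero τ hτ p hp] at h1
  have h2 := vP_poly_pos τ hτ q h0
  have h3 := h τ hτ
  have h4 : 0 < vP F (τ (aeval x q)) + vP F (τ c) := by
    calc (0 : WithTop ℚ) < vP F (τ (aeval x q)) := h2
      _ = vP F (τ (aeval x q)) + 0 := (add_zero _).symm
      _ ≤ _ := by gcongr
  rw [h1] at h4
  exact lt_irrefl _ h4

theorem poly_of_regular (x : M) [Algebra.IsAlgebraic F⟮x⟯ M] (hx : Transcendental F x) {c : M}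
    (hc : c ∈ F⟮x⟯) (h : ∀ (a : F) (τ : M →ₐ[F] Pui F), τ x = fin a → 0 ≤ vP F (τ c)) :
    ∃ p : F[X], c = aeval x p := by
  obtain ⟨p, q, hq, hpq, hcq⟩ := coprime_ratio x hx hc
  have hq1 : q = 1 := by
    by_contra hne
    have hd : q.natDegree ≠ 0 := fun h0 => hne (hq.natDegree_eq_zero.mp h0)
    obtain ⟨a, ha⟩ := IsAlgClosed.exists_root q (by
      rw [degree_eq_natDegree hq.ne_zero]
      exact_mod_cast hd)
    obtain ⟨p', q', hq', hcq'⟩ := denom_at x hx hc a (h a)
    have h1 : q' * p = q * p' := by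
      have h2 : aeval x (q' * p - q * p') = 0 := by
        rw [map_sub, map_mul, map_mul, ← hcq, ← hcq']
        ring
      exact sub_eq_zero.mp ((transcendental_iff.mp hx) _ h2)
    have h2 := congrArg (Polynomial.eval a) h1
    have ha' : q.eval a = 0 := ha
    rw [eval_mul, eval_mul, ha', zero_mul] at h2
    rcases mul_eq_zero.mp h2 with h3 | h3
    · exact hq' h3
    · obtain ⟨b, d, hab⟩ := hpq
      have h4 := congrArg (Polynomial.eval a) hab
      rw [eval_add, eval_mul, eval_mul, h3, ha', mul_zero, mul_zero, add_zero, eval_one] at h4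
      exact zero_ne_one h4
  refine ⟨p, ?_⟩
  rw [← hcq, hq1, map_one, one_mul]

/-- integrality over the polynomial ring in `x` -/
def Itg (x w : M) : Prop := ∃ p : F[X][X], p.Monic ∧ p.eval₂ (aeval x : F[X] →ₐ[F] M).toRingHom w = 0

/-- denominators -/
theorem den (x w : M) [Algebra.IsAlgebraic F⟮x⟯ M] (q : F[X])
    (h : ∀ i, ∃ p : F[X], aeval x q * ((minpoly F⟮x⟯ w).coeff i : F⟮x⟯) = aeval x p) :
    Itg (F := F) x (aeval x q * w) := by
  classical
  have hint : IsIntegral F⟮x⟯ w := (Algebra.IsAlgebraic.isAlgebraic w).isIntegral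
  choose p hp using h
  set n := (minpoly F⟮x⟯ w).natDegree with hn
  have hmon := minpoly.monic hint
  let P : F[X][X] := X ^ n + ∑ i ∈ Finset.range n, C (p i * q ^ (n - i - 1)) * X ^ i
  refine ⟨P, ?_, ?_⟩
  · apply Polynomial.monic_X_pow_add
    rw [Polynomial.degree_lt_iff_coeff_zero]
    intro m hm
    rw [Polynomial.finsetSum_coeff]
    apply Finset.sum_eq_zero
    intro i hi
    rw [Finset.mem_range] at hi
    rw [coeff_C_mul, coeff_X_pow, if_neg (by omega), mul_zero]
  · have h1 := minpoly.aeval F⟮x⟯ w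
    rw [aeval_eq_sum_range, ← hn, Finset.sum_range_succ, hn, hmon.coeff_natDegree, one_smul, ← hn]
      at h1
    have h2 : P.eval₂ (aeval x : F[X] →ₐ[F] M).toRingHom (aeval x q * w) = (aeval x q) ^ n *
        (∑ i ∈ Finset.range n, (minpoly F⟮x⟯ w).coeff i • w ^ i + w ^ n) := by
      simp only [P, eval₂_add, eval₂_finsetSum, eval₂_mul, eval₂_C, eval₂_X_pow]
      rw [mul_add, Finset.mul_sum, mul_pow, add_comm]
      congr 1
      apply Finset.sum_congr rfl
      intro i hi
      rw [Finset.mem_range] at hi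
      have h3 : (aeval x q) ^ n = aeval x q * (aeval x q) ^ (n - i - 1) * (aeval x q) ^ i := by
        rw [mul_comm (aeval x q) _, ← pow_succ, ← _root_.pow_add]
        congr 1
        omega
      rw [h3]
      change (aeval x : F[X] →ₐ[F] M) (p i * q ^ (n - i - 1)) * _ = _
      rw [map_mul, ← hp i, map_pow, Algebra.smul_def]
      change _ = _ * (((minpoly F⟮x⟯ w).coeff i : M) * w ^ i)
      ring
    rw [h2, h1, mul_zero]

theorem common_denom {ι : Type*} (x : M) (P : F[X] → Prop) (hP1 : P 1)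
    (hPm : ∀ q q', P q → P q' → P (q * q')) (s : Finset ι) (c : ι → M)
    (h : ∀ i ∈ s, ∃ p q : F[X], P q ∧ aeval x q * c i = aeval x p) :
    ∃ q : F[X], P q ∧ ∀ i ∈ s, ∃ p : F[X], aeval x q * c i = aeval x p := by
  classical
  induction s using Finset.induction_on with
  | empty => exact ⟨1, hP1, by simp⟩
  | insert j s hj ih =>
    obtain ⟨q, hq, hqs⟩ := ih fun i hi => h i (Finset.mem_insert_of_mem hi)
    obtain ⟨p', q', hq', hqp'⟩ := h j (Finset.mem_insert_self _ _)
    refine ⟨q * q', hPm _ _ hq hq', fun i hi => ?_⟩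
    rcases Finset.mem_insert.mp hi with rfl | hi
    · exact ⟨q * p', by rw [map_mul, map_mul, mul_assoc, hqp']⟩
    · obtain ⟨p, hp⟩ := hqs i hi
      exact ⟨q' * p, by rw [map_mul, map_mul, ← hp]; ring⟩

/-- elements regular over a point have denominators prime to the point -/
theorem den_at (x w : M) [Algebra.IsAlgebraic F⟮x⟯ M] (hx : Transcendental F x) (a : F)
    (h : ∀ τ : M →ₐ[F] Pui F, τ x = fin a → 0 ≤ vP F (τ w)) :
    ∃ q : F[X], q.eval a ≠ 0 ∧ Itg (F := F) x (aeval x q * w) := by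
  obtain ⟨q, hq, hqs⟩ := common_denom x (fun q => q.eval a ≠ 0) (by simp)
    (fun q q' h h' => by rw [eval_mul]; exact mul_ne_zero h h')
    (Finset.range ((minpoly F⟮x⟯ w).natDegree + 1))
    (fun i => (((minpoly F⟮x⟯ w).coeff i : F⟮x⟯) : M)) (by
      intro i _
      exact denom_at x hx ((minpoly F⟮x⟯ w).coeff i).2 a fun τ hτ =>
        coeff_val x w τ (fun σ hσ => h σ (by rw [hσ, hτ])) i)
  refine ⟨q, hq, den x w q fun i => ?_⟩
  by_cases hi : i ∈ Finset.range ((minpoly F⟮x⟯ w).natDegree + 1)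
  · exact hqs i hi
  · refine ⟨0, ?_⟩
    rw [Finset.mem_range, not_lt] at hi
    rw [coeff_eq_zero_of_natDegree_lt (by omega), map_zero]
    simp

theorem exists_den (x w : M) [Algebra.IsAlgebraic F⟮x⟯ M] (hx : Transcendental F x) :
    ∃ q : F[X], q ≠ 0 ∧ Itg (F := F) x (aeval x q * w) := by
  obtain ⟨q, hq, hqs⟩ := common_denom x (fun q => q ≠ 0) one_ne_zero
    (fun q q' h h' => mul_ne_zero h h')
    (Finset.range ((minpoly F⟮x⟯ w).natDegree + 1))
    (fun i => (((minpoly F⟮x⟯ w).coeff i : F⟮x⟯) : M)) (by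
      intro i _
      obtain ⟨p, q, hq, -, h⟩ := coprime_ratio x hx ((minpoly F⟮x⟯ w).coeff i).2
      exact ⟨p, q, hq.ne_zero, h⟩)
  refine ⟨q, hq, den x w q fun i => ?_⟩
  by_cases hi : i ∈ Finset.range ((minpoly F⟮x⟯ w).natDegree + 1)
  · exact hqs i hi
  · refine ⟨0, ?_⟩
    rw [Finset.mem_range, not_lt] at hi
    rw [coeff_eq_zero_of_natDegree_lt (by omega), map_zero]
    simp

theorem itg_of_regular (x w : M) [Algebra.IsAlgebraic F⟮x⟯ M] (hx : Transcendental F x)
    (h : ∀ (a : F) (τ : M →ₐ[F] Pui F), τ x = fin a → 0 ≤ vP F (τ w)) : Itg (F := F) x w := by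
  have h1 := den x w 1 fun i => by
    obtain ⟨p, hp⟩ := poly_of_regular x hx ((minpoly F⟮x⟯ w).coeff i).2 fun a τ hτ =>
        coeff_val x w τ (fun σ hσ => h a σ (by rw [hσ, hτ])) i
    exact ⟨p, by rw [map_one, one_mul, hp]⟩
  rwa [map_one, one_mul] at h1

/-- integral elements are regular -/
theorem regular_of_itg {x w : M} (hw : Itg (F := F) x w) (τ : M →ₐ[F] Pui F)
    (hτ : 0 ≤ vP F (τ x)) : 0 ≤ vP F (τ w) := by
  obtain ⟨p, hp, hpw⟩ := hw
  by_contra hno
  rw [not_le] at hno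
  have hn0 : p.natDegree ≠ 0 := by
    intro h0
    have h1 := hp.natDegree_eq_zero.mp h0
    rw [h1, eval₂_one] at hpw
    exact one_ne_zero hpw
  have hw0 : τ w ≠ 0 := by
    intro h0
    rw [h0, AddValuation.map_zero] at hno
    exact absurd hno (not_lt.mpr le_top)
  obtain ⟨e, he⟩ := val_exists (vP F) hw0
  have he0 : e < 0 := by
    rw [he] at hno
    exact_mod_cast hno
  rw [eval₂_eq_sum_range, Finset.sum_range_succ, hp.coeff_natDegree, map_one, one_mul] at hpw
  have h1 := congrArg τ hpw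
  rw [map_add, map_zero, map_pow, map_sum] at h1
  have h2 : vP F (∑ i ∈ Finset.range p.natDegree, τ ((aeval x : F[X] →ₐ[F] M).toRingHom (p.coeff i) *
      w ^ i)) = vP F (τ w ^ p.natDegree) := by
    rw [eq_neg_of_add_eq_zero_left h1, AddValuation.map_neg]
  have h3 : vP F (τ w ^ p.natDegree) < vP F (∑ i ∈ Finset.range p.natDegree,
      τ ((aeval x : F[X] →ₐ[F] M).toRingHom (p.coeff i) * w ^ i)) := by
    rw [val_pow (vP F) he]
    apply val_sum_lt
    · exact WithTop.coe_ne_top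
    · intro i hi
      rw [Finset.mem_range] at hi
      rw [map_mul, AddValuation.map_mul, map_pow, val_pow (vP F) he]
      have h4 := vP_poly_nonneg τ hτ (p.coeff i)
      have h5 : ((((i : ℕ) : ℚ) * e : ℚ) : WithTop ℚ) ≤
          vP F (τ ((aeval x : F[X] →ₐ[F] M).toRingHom (p.coeff i))) + (((i : ℚ) * e : ℚ) : WithTop ℚ) := by
        calc ((((i : ℕ) : ℚ) * e : ℚ) : WithTop ℚ) = 0 + (((i : ℚ) * e : ℚ) : WithTop ℚ) :=
              (zero_add _).symm
          _ ≤ _ := by
            gcongr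
            exact h4
      refine lt_of_lt_of_le ?_ h5
      rw [WithTop.coe_lt_coe]
      have h6 : (i : ℚ) < p.natDegree := by exact_mod_cast hi
      nlinarith
  rw [h2] at h3
  exact lt_irrefl _ h3

end

end Pool.Agent.Zk18.Rr
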