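import Pool.Agent.Zk18.Rr3

/-!
# Regularity of derivations at finite and at infinite places
-/

set_option autoImplicit false
set_option linter.unusedSectionVars false

attribute [-instance] HahnSeries.powerSeriesAlgebra

namespace Pool.Agent.Zk18.Rr

open HahnSeries hiding C
open Pool.Agent.Helper165.P1 Pool.Agent.Zk18 Pool.Agent.Zk18.Md Pool.Agent.Zk18.Fd Polynomial
  IntermediateField

section

variable {F : Type} [Field F]

/-- power series with integral coefficients -/
def OO (F : Type) [Field F] : Subring (PowerSeries (HahnSeries ℚ F)) where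
  carrier := {u | ∀ k, 0 ≤ (PowerSeries.coeff k u).orderTop}
  mul_mem' := by
    intro u v hu hv k
    rw [PowerSeries.coeff_mul]
    apply orderTop_sum
    intro p _
    have := orderTop_mul_le (hu p.1) (hv p.2)
    rwa [add_zero] at this
  one_mem' := by
    intro k
    rw [PowerSeries.coeff_one]
    split_ifs
    · rw [orderTop_one]
    · rw [orderTop_zero]; exact le_top
  add_mem' := by
    intro u v hu hv k
    rw [map_add]
    exact le_trans (le_min (hu k) (hv k)) min_orderTop_le_orderTop_add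
  zero_mem' := by
    intro k
    rw [map_zero, orderTop_zero]
    exact le_top
  neg_mem' := by
    intro u hu k
    rw [map_neg, orderTop_neg]
    exact hu k

theorem mem_OO {u : PowerSeries (HahnSeries ℚ F)} :
    u ∈ OO F ↔ ∀ k, 0 ≤ (PowerSeries.coeff k u).orderTop := Iff.rfl

/-- **The ring of power series with integral coefficients is completely integrally closed.** -/
theorem almost_integral (c t : PowerSeries (HahnSeries ℚ F)) (hc : c ≠ 0)
    (h : ∀ n : ℕ, c * t ^ n ∈ OO F) : t ∈ OO F := by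
  classical
  intro k
  induction k using Nat.strong_induction_on with
  | _ k₀ ih =>
  by_contra hno
  rw [not_le] at hno
  let g : PowerSeries (HahnSeries ℚ F) := PowerSeries.mk fun k =>
    if k < k₀ then PowerSeries.coeff k t else 0
  have hg : g ∈ OO F := by
    intro k
    rw [PowerSeries.coeff_mk]
    split_ifs with hk
    · exact ih k hk
    · rw [orderTop_zero]; exact le_top
  have hu : ∀ n : ℕ, c * (t - g) ^ n ∈ OO F := by
    intro n
    rw [sub_eq_add_neg, (Commute.all t (-g)).add_pow, Finset.mul_sum]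
    apply (OO F).sum_mem
    intro m _
    rw [← mul_assoc, ← mul_assoc]
    exact (OO F).mul_mem ((OO F).mul_mem (h m) ((OO F).pow_mem ((OO F).neg_mem hg) _))
      (natCast_mem (OO F) _)
  obtain ⟨u', hu'⟩ : (PowerSeries.X : PowerSeries (HahnSeries ℚ F)) ^ k₀ ∣ t - g := by
    rw [PowerSeries.X_pow_dvd_iff]
    intro m hm
    rw [map_sub, PowerSeries.coeff_mk, if_pos hm, sub_self]
  obtain ⟨c', hc'⟩ : (PowerSeries.X : PowerSeries (HahnSeries ℚ F)) ^ (c.order.toNat) ∣ c := by
    exact PowerSeries.X_pow_order_dvd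
  have hc0 : PowerSeries.coeff 0 c' ≠ 0 := by
    have h1 := PowerSeries.coeff_order hc
    rw [hc'] at h1
    intro h2
    apply h1
    have h3 : PowerSeries.coeff (c.order.toNat) (PowerSeries.X ^ c.order.toNat * c') =
        PowerSeries.coeff 0 c' := by
      have := PowerSeries.coeff_X_pow_mul c' c.order.toNat 0
      rwa [zero_add] at this
    rw [← hc'] at h3 ⊢
    rw [h3, h2]
  have hu0 : PowerSeries.coeff 0 u' = PowerSeries.coeff k₀ t := by
    have h1 := congrArg (PowerSeries.coeff k₀) hu'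
    have h3 := PowerSeries.coeff_X_pow_mul u' k₀ 0
    rw [zero_add] at h3
    rw [h3, map_sub, PowerSeries.coeff_mk, if_neg (lt_irrefl _), sub_zero] at h1
    exact h1.symm
  have hval : ∀ n : ℕ, 0 ≤ (PowerSeries.coeff 0 c' * PowerSeries.coeff k₀ t ^ n).orderTop := by
    intro n
    have h1 := hu n (c.order.toNat + k₀ * n)
    have h2 : c * (t - g) ^ n = PowerSeries.X ^ (c.order.toNat + k₀ * n) * (c' * u' ^ n) := by
      rw [hu', mul_pow, ← pow_mul, _root_.pow_add]
      conv_lhs => rw [hc']
      ring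
    rw [h2] at h1
    have h3 := PowerSeries.coeff_X_pow_mul (c' * u' ^ n) (c.order.toNat + k₀ * n) 0
    rw [zero_add] at h3
    rw [h3] at h1
    rw [PowerSeries.coeff_zero_eq_constantCoeff_apply, map_mul, map_pow,
      ← PowerSeries.coeff_zero_eq_constantCoeff_apply,
      ← PowerSeries.coeff_zero_eq_constantCoeff_apply, hu0] at h1
    exact h1
  have ht0 : (PowerSeries.coeff k₀ t).orderTop ≠ ⊤ := fun h => by
    rw [h] at hno
    exact absurd hno (not_lt.mpr le_top)
  obtain ⟨e, he⟩ := WithTop.ne_top_iff_exists.mp ht0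
  have hc1 : (PowerSeries.coeff 0 c').orderTop ≠ ⊤ := by
    rwa [ne_eq, orderTop_eq_top]
  obtain ⟨f, hf⟩ := WithTop.ne_top_iff_exists.mp hc1
  have he0 : e < 0 := by
    rw [← he] at hno
    exact_mod_cast hno
  have hpow : ∀ n : ℕ, (PowerSeries.coeff k₀ t ^ n).orderTop = ((n * e : ℚ) : WithTop ℚ) := by
    intro n
    induction n with
    | zero => rw [pow_zero, orderTop_one]; simp
    | succ n ih =>
      rw [pow_succ, orderTop_mul, ih, ← he, ← WithTop.coe_add]
      congr 1
      push_cast
      ring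
  obtain ⟨n, hn⟩ := exists_nat_gt (f / (-e))
  have h1 := hval n
  rw [orderTop_mul, hpow, ← hf, ← WithTop.coe_add] at h1
  have h2 : 0 ≤ f + n * e := by exact_mod_cast h1
  rw [div_lt_iff₀ (by linarith)] at hn
  linarith

variable {M : Type} [Field M] [CharZero M] [Algebra F M] [CharZero F]

theorem mem_OO_Ex (τ : M →+* HahnSeries ℚ F) (δ : M →+ M)
    (hδ : ∀ a b, δ (a * b) = δ a * b + a * δ b) (w : M) :
    Ex τ δ hδ 1 w ∈ OO F ↔ ∀ k, 0 ≤ (τ (δ^[k] w)).orderTop := by
  rw [mem_OO]
  apply forall_congr'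
  intro k
  rw [coeff_Ex, one_pow, one_mul, orderTop_fac]

theorem Ex_injective (τ : M →+* HahnSeries ℚ F) (δ : M →+ M)
    (hδ : ∀ a b, δ (a * b) = δ a * b + a * δ b) (w : M) (h : Ex τ δ hδ 1 w = 0) : w = 0 := by
  have h1 := congrArg (PowerSeries.coeff 0) h
  rw [coeff_Ex, map_zero, pow_zero, one_mul, Function.iterate_zero, id] at h1
  have h2 : (HahnSeries.C ((Nat.factorial 0 : F)⁻¹) : HahnSeries ℚ F) = 1 := by
    rw [Nat.factorial_zero, Nat.cast_one, inv_one, map_one]
  rw [h2, one_mul] at h1
  exact (map_eq_zero τ).mp h1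

/-- the ring of a finite family -/
theorem adjoin_mem_OO (τ : M →+* HahnSeries ℚ F) (hτ : ∀ a, τ (algebraMap F M a) = HahnSeries.C a)
    (δ : M →+ M)
    (hδ : ∀ a b, δ (a * b) = δ a * b + a * δ b) (D : F →+ F)
    (hD : ∀ a, δ (algebraMap F M a) = algebraMap F M (D a)) {m : ℕ} (y : Fin m → M)
    (hy : ∀ i k, 0 ≤ (τ (δ^[k] (y i))).orderTop) {w : M}
    (hw : w ∈ Algebra.adjoin F (Set.range y)) : Ex τ δ hδ 1 w ∈ OO F := by
  induction hw using Algebra.adjoin_induction with
  | mem w hw =>
    obtain ⟨i, rfl⟩ := hw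
    rw [mem_OO_Ex]
    exact hy i
  | algebraMap a =>
    rw [mem_OO_Ex]
    intro k
    have hDk : ∀ (a : F) (k : ℕ), δ^[k] (algebraMap F M a) = algebraMap F M (D^[k] a) := by
      intro a k
      induction k with
      | zero => rfl
      | succ k ih => rw [Function.iterate_succ_apply', ih, hD, Function.iterate_succ_apply']
    rw [hDk, hτ]
    exact orderTop_C_nonneg _
  | add u v _ _ hu hv =>
    rw [map_add]
    exact (OO F).add_mem hu hv
  | mul u v _ _ hu hv =>
    rw [map_mul]
    exact (OO F).mul_mem hu hv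

/-- **Seidenberg.** -/
theorem seidenberg (τ : M →+* HahnSeries ℚ F) (hτ : ∀ a, τ (algebraMap F M a) = HahnSeries.C a)
    (δ : M →+ M)
    (hδ : ∀ a b, δ (a * b) = δ a * b + a * δ b) (D : F →+ F)
    (hD : ∀ a, δ (algebraMap F M a) = algebraMap F M (D a)) {m : ℕ} (y : Fin m → M)
    (hy : ∀ i k, 0 ≤ (τ (δ^[k] (y i))).orderTop) {x t : M}
    (hx : x ∈ Algebra.adjoin F (Set.range y)) (ht : t ∈ adjoin F (Set.range y))
    (hxt : Itg (F := F) x t) (k : ℕ) : 0 ≤ (τ (δ^[k] t)).orderTop := by
  obtain ⟨a, ha, b, hb, hab⟩ := IntermediateField.mem_adjoin_iff_div.mp ht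
  obtain ⟨p, hp, hpt⟩ := hxt
  set B := Algebra.adjoin F (Set.range y) with hB
  by_cases hb0 : b = 0
  · rw [hb0, div_zero] at hab
    have h1 : δ^[k] t = 0 := by
      rw [hab]
      exact iterate_map_zero δ k
    rw [h1, map_zero, orderTop_zero]
    exact le_top
  have hpx : ∀ i, (aeval x : F[X] →ₐ[F] M) (p.coeff i) ∈ B := by
    intro i
    have h1 := aeval_mem_adjoin_singleton F x (p := p.coeff i)
    exact (Algebra.adjoin_le (Set.singleton_subset_iff.mpr hx)) h1
  have hmem : ∀ n : ℕ, b ^ p.natDegree * t ^ n ∈ B := by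
    intro n
    induction n using Nat.strong_induction_on with
    | _ n ih =>
    by_cases hn : n < p.natDegree
    · have h1 : b ^ p.natDegree * t ^ n = b ^ (p.natDegree - n) * a ^ n := by
        have h2 : b ^ p.natDegree = b ^ (p.natDegree - n) * b ^ n := by
          rw [← _root_.pow_add]
          congr 1
          omega
        rw [h2, hab, div_pow]
        field_simp
      rw [h1]
      exact B.mul_mem (B.pow_mem hb _) (B.pow_mem ha _)
    · push Not at hn
      have h1 : t ^ n = -∑ i ∈ Finset.range p.natDegree,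
          (aeval x : F[X] →ₐ[F] M) (p.coeff i) * t ^ (i + (n - p.natDegree)) := by
        rw [eval₂_eq_sum_range, Finset.sum_range_succ, hp.coeff_natDegree, map_one, one_mul] at hpt
        have h2 : t ^ n = t ^ p.natDegree * t ^ (n - p.natDegree) := by
          rw [← _root_.pow_add]
          congr 1
          omega
        rw [h2, eq_neg_of_add_eq_zero_right hpt, neg_mul, Finset.sum_mul]
        congr 1
        apply Finset.sum_congr rfl
        intro i _
        rw [_root_.pow_add, mul_assoc]
        rfl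
      rw [h1, mul_neg, Finset.mul_sum]
      apply B.neg_mem
      apply B.sum_mem
      intro i hi
      rw [Finset.mem_range] at hi
      have h3 := ih (i + (n - p.natDegree)) (by omega)
      have h4 : b ^ p.natDegree * ((aeval x : F[X] →ₐ[F] M) (p.coeff i) *
          t ^ (i + (n - p.natDegree))) = (aeval x : F[X] →ₐ[F] M) (p.coeff i) *
          (b ^ p.natDegree * t ^ (i + (n - p.natDegree))) := by ring
      rw [h4]
      exact B.mul_mem (hpx i) h3
  have h2 := almost_integral (Ex τ δ hδ 1 (b ^ p.natDegree)) (Ex τ δ hδ 1 t) (by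
    intro h0
    exact pow_ne_zero _ hb0 (Ex_injective τ δ hδ _ h0)) (by
    intro n
    rw [← map_pow, ← map_mul]
    exact adjoin_mem_OO τ hτ δ hδ D hD y hy (hmem n))
  exact (mem_OO_Ex τ δ hδ t).mp h2 k

/-- avoiding finitely many residues -/
theorem exists_shift (S : Set (Pui F)) (hS : S.Finite) :
    ∃ c : F, c ≠ 0 ∧ ∀ u ∈ S, u + algebraMap F (Pui F) c ≠ 0 ∧
      vP F (u + algebraMap F (Pui F) c) ≤ 0 := by
  have hfin : ((fun u : Pui F => -(u : HQ F).coeff 0) '' S ∪ {0}).Finite :=
    (hS.image _).union (Set.finite_singleton _)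
  obtain ⟨c, hc⟩ := hfin.infinite_compl.nonempty
  rw [Set.mem_compl_iff, Set.mem_union, not_or] at hc
  refine ⟨c, fun h => hc.2 h, fun u hu => ?_⟩
  have h1 : ((u + algebraMap F (Pui F) c : Pui F) : HQ F).coeff 0 ≠ 0 := by
    change ((u : HQ F) + ((algebraMap F (Pui F) c : Pui F) : HQ F)).coeff 0 ≠ 0
    rw [coe_algebraMap_Pui, HahnSeries.coeff_add, C_apply, coeff_single_same]
    intro h0
    apply hc.1
    exact ⟨u, hu, (eq_neg_of_add_eq_zero_right h0).symm⟩
  refine ⟨?_, ?_⟩
  · intro h0
    rw [h0] at h1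
    exact h1 rfl
  · rw [vP_apply]
    exact orderTop_le_of_coeff_ne_zero h1

end

end Pool.Agent.Zk18.Rr
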