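import Pool.Agent.Zk18.Rr4

/-!
# Derivations at finite and at infinite places
-/

set_option autoImplicit false
set_option linter.unusedSectionVars false

attribute [-instance] HahnSeries.powerSeriesAlgebra

namespace Pool.Agent.Zk18.Rr

open HahnSeries hiding C
open Pool.Agent.Helper165.P1 Pool.Agent.Zk18 Pool.Agent.Zk18.Md Pool.Agent.Zk18.Fd Polynomial
  IntermediateField

section

variable {F M : Type} [Field F] [CharZero F] [IsAlgClosed F] [Field M] [CharZero M] [Algebra F M]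

theorem der_one (δ : M →+ M) (hδ : ∀ a b, δ (a * b) = δ a * b + a * δ b) : δ 1 = 0 := by
  have h := hδ 1 1
  rw [mul_one, mul_one, one_mul] at h
  exact left_eq_add.mp h

theorem der_inv (δ : M →+ M) (hδ : ∀ a b, δ (a * b) = δ a * b + a * δ b) {u : M} (hu : u ≠ 0) :
    δ u⁻¹ = -δ u * u⁻¹ * u⁻¹ := by
  have h := hδ u u⁻¹
  rw [mul_inv_cancel₀ hu, der_one δ hδ] at h
  have h1 : u * δ u⁻¹ = -(δ u * u⁻¹) := by
    rw [eq_neg_iff_add_eq_zero, add_comm]
    exact h.symm
  have h2 : δ u⁻¹ = u⁻¹ * (u * δ u⁻¹) := by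
    rw [← mul_assoc, inv_mul_cancel₀ hu, one_mul]
  rw [h2, h1]
  ring

/-- `τ` as a homomorphism to the field of Hahn series -/
noncomputable def tc (τ : M →ₐ[F] Pui F) : M →+* HahnSeries ℚ F :=
  (Subfield.subtype (Pui F)).comp τ.toRingHom

theorem tc_apply (τ : M →ₐ[F] Pui F) (w : M) : tc τ w = (τ w : HahnSeries ℚ F) := rfl

theorem tc_C (τ : M →ₐ[F] Pui F) (a : F) : tc τ (algebraMap F M a) = HahnSeries.C a := by
  rw [tc_apply, τ.commutes, coe_algebraMap_Pui]

theorem tc_ord (τ : M →ₐ[F] Pui F) (w : M) : (tc τ w).orderTop = vP F (τ w) := by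
  rw [vP_apply]
  rfl

/-- **Derivations at finite places.** -/
theorem der_finite (τ : M →ₐ[F] Pui F) (δ : M →+ M)
    (hδ : ∀ a b, δ (a * b) = δ a * b + a * δ b) (D : F →+ F)
    (hD : ∀ a, δ (algebraMap F M a) = algebraMap F M (D a)) {m : ℕ} (y : Fin m → M)
    (hy : ∀ i k, 0 ≤ vP F (τ (δ^[k] (y i)))) {x w : M} [Algebra.IsAlgebraic F⟮x⟯ M]
    (hx : Transcendental F x)
    (hxy : x ∈ Algebra.adjoin F (Set.range y)) (hw : w ∈ adjoin F (Set.range y))
    (hτw : 0 ≤ vP F (τ w)) : 0 ≤ vP F (τ (δ w)) := by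
  classical
  have hyO : ∀ i k, 0 ≤ (tc τ (δ^[k] (y i))).orderTop := fun i k => by
    rw [tc_ord]; exact hy i k
  have hB : ∀ {u : M}, u ∈ Algebra.adjoin F (Set.range y) → ∀ k, 0 ≤ vP F (τ (δ^[k] u)) := by
    intro u hu k
    have h1 := (mem_OO_Ex (tc τ) δ hδ u).mp
      (adjoin_mem_OO (tc τ) (tc_C τ) δ hδ D hD y hyO hu) k
    rwa [tc_ord] at h1
  -- the residue of `x`
  set a : F := (τ x : HQ F).coeff 0 with ha
  have hτx : 0 ≤ vP F (τ x) := hB hxy 0
  obtain ⟨c, hc0, hc⟩ := exists_shift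
    ({u : Pui F | ∃ σ : M →ₐ[F] Pui F, σ x = fin a ∧ σ w = u} ∪ {τ w})
    ((finite_values x w (fin a)).union (Set.finite_singleton _))
  set u : M := w + algebraMap F M c with hu
  have hτu : ∀ σ : M →ₐ[F] Pui F, σ u = σ w + algebraMap F (Pui F) c := by
    intro σ
    rw [hu, map_add, σ.commutes]
  have hu0 : u ≠ 0 := by
    intro h0
    have h1 := (hc (τ w) (Or.inr rfl)).1
    rw [← hτu τ, h0, map_zero] at h1
    exact h1 rfl
  have hu1 : vP F (τ u) = 0 := by
    apply le_antisymm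
    · rw [hτu]; exact (hc (τ w) (Or.inr rfl)).2
    · rw [hτu]
      exact le_trans (le_min hτw (vP_algebraMap_nonneg c)) (AddValuation.map_add _ _ _)
  have hinv : ∀ (z : Pui F), z ≠ 0 → vP F z ≤ 0 → 0 ≤ vP F z⁻¹ := by
    intro z hz hz0
    obtain ⟨e, he⟩ := val_exists (vP F) hz
    have h1 := AddValuation.map_mul (vP F) z z⁻¹
    rw [mul_inv_cancel₀ hz, AddValuation.map_one] at h1
    by_contra hno
    rw [not_le] at hno
    have h2 : vP F z + vP F z⁻¹ < 0 := by
      calc vP F z + vP F z⁻¹ ≤ 0 + vP F z⁻¹ := by gcongr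
        _ = vP F z⁻¹ := zero_add _
        _ < 0 := hno
    rw [← h1] at h2
    exact lt_irrefl _ h2
  obtain ⟨q, hq, hqt⟩ := den_at x u⁻¹ hx a (by
    intro σ hσ
    rw [map_inv₀]
    have h1 := hc (σ w) (Or.inl ⟨σ, hσ, rfl⟩)
    rw [← hτu σ] at h1
    exact hinv _ h1.1 h1.2)
  set t : M := aeval x q * u⁻¹ with ht
  have hxE : x ∈ adjoin F (Set.range y) := algebra_adjoin_le_adjoin F _ hxy
  have hqB : aeval x q ∈ Algebra.adjoin F (Set.range y) := by
    have h1 := aeval_mem_adjoin_singleton F x (p := q)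
    exact (Algebra.adjoin_le (Set.singleton_subset_iff.mpr hxy)) h1
  have htE : t ∈ adjoin F (Set.range y) := by
    apply mul_mem
    · exact algebra_adjoin_le_adjoin F _ hqB
    · exact inv_mem (add_mem hw (IntermediateField.algebraMap_mem _ c))
  have hst : 0 ≤ vP F (τ (δ t)) := by
    have h1 := seidenberg (tc τ) (tc_C τ) δ hδ D hD y hyO hxy htE hqt 1
    rwa [tc_ord] at h1
  have hq1 : vP F (τ (aeval x q)) = 0 := by
    -- the residue of `q (x)` is `q (a) ≠ 0`
    have h1 : aeval x q = algebraMap F M (q.eval a) +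
        (aeval x (q /ₘ (X - C a))) * (x - algebraMap F M a) := by
      conv_lhs => rw [← q.modByMonic_add_div (X - C a)]
      rw [map_add, map_mul, map_sub, aeval_X, aeval_C, modByMonic_X_sub_C_eq_C_eval, aeval_C]
      ring
    have h2 : 0 < vP F (τ (x - algebraMap F M a)) := by
      rw [map_sub, τ.commutes, vP_apply]
      have h3 : 0 ≤ ((τ x - algebraMap F (Pui F) a : Pui F) : HQ F).orderTop := by
        rw [← vP_apply]
        exact le_trans (le_min hτx (vP_algebraMap_nonneg a)) (AddValuation.map_sub _ _ _)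
      refine lt_of_le_of_ne h3 fun h4 => ?_
      have h5 := coeff_orderTop_ne h4.symm
      apply h5
      change ((τ x : HQ F) - ((algebraMap F (Pui F) a : Pui F) : HQ F)).coeff 0 = 0
      rw [coe_algebraMap_Pui, HahnSeries.coeff_sub, C_apply, coeff_single_same, ha, sub_self]
    have h3 : 0 < vP F (τ ((aeval x (q /ₘ (X - C a))) * (x - algebraMap F M a))) := by
      rw [map_mul, AddValuation.map_mul]
      calc (0 : WithTop ℚ) < vP F (τ (x - algebraMap F M a)) := h2
        _ = 0 + vP F (τ (x - algebraMap F M a)) := (zero_add _).symm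
        _ ≤ _ := by
          gcongr
          exact vP_poly_nonneg τ hτx _
    rw [h1, map_add, τ.commutes]
    rw [AddValuation.map_add_eq_of_lt_left, vP_algebraMap hq]
    rwa [vP_algebraMap hq]
  have hq0 : aeval x q ≠ 0 := by
    intro h0
    rw [h0, map_zero, AddValuation.map_zero] at hq1
    exact absurd hq1 (by simp)
  have hnn : ∀ {z z' : M}, 0 ≤ vP F (τ z) → 0 ≤ vP F (τ z') → 0 ≤ vP F (τ (z * z')) := by
    intro z z' h h'
    rw [map_mul, AddValuation.map_mul]
    exact add_nonneg h h'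
  have hqinv : 0 ≤ vP F (τ (aeval x q)⁻¹) := by
    rw [map_inv₀]
    exact hinv _ (by rw [ne_eq, map_eq_zero]; exact hq0) hq1.le
  have huinv : 0 ≤ vP F (τ u⁻¹) := by
    rw [map_inv₀]
    exact hinv _ (by rw [ne_eq, map_eq_zero]; exact hu0) hu1.le
  have hdq : 0 ≤ vP F (τ (δ (aeval x q))) := hB hqB 1
  have hdc : 0 ≤ vP F (τ (δ (algebraMap F M c))) := by
    rw [hD, τ.commutes]
    exact vP_algebraMap_nonneg _
  -- `u = q / t`
  have ht0 : t ≠ 0 := mul_ne_zero hq0 (inv_ne_zero hu0)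
  have hut : u * t = aeval x q := by
    rw [ht, mul_comm (aeval x q), ← mul_assoc, mul_inv_cancel₀ hu0, one_mul]
  have h1 := hδ u t
  rw [hut] at h1
  have h2 : δ u = (δ (aeval x q) - u * δ t) * ((aeval x q)⁻¹ * u) := by
    have h3 : δ u * t = δ (aeval x q) - u * δ t := by rw [h1]; ring
    rw [← h3, ht]
    field_simp
  have h3 : 0 ≤ vP F (τ (δ u)) := by
    rw [h2]
    apply hnn
    · rw [map_sub]
      refine le_trans (le_min hdq ?_) (AddValuation.map_sub _ _ _)
      exact hnn hu1.ge hst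
    · exact hnn hqinv hu1.ge
  have h4 : δ w = δ u - δ (algebraMap F M c) := by
    rw [hu, map_add]
    ring
  rw [h4, map_sub]
  exact le_trans (le_min h3 hdc) (AddValuation.map_sub _ _ _)

/-- **Derivations at infinite places.** -/
theorem der_infinite (htd : TrOne F M) (τ : M →ₐ[F] Pui F) (δ : M →+ M)
    (hδ : ∀ a b, δ (a * b) = δ a * b + a * δ b) (D : F →+ F)
    (hDD : ∀ a b, D (a * b) = D a * b + a * D b)
    (hD : ∀ a, δ (algebraMap F M a) = algebraMap F M (D a)) (b : M) (hb : δ b = 0)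
    (hbv : vP F (τ b) < 0) (w : M) : vP F (τ w) ≤ vP F (τ (δ w)) := by
  classical
  have hbF : b ∉ Set.range (algebraMap F M) := by
    rintro ⟨a, rfl⟩
    rw [τ.commutes] at hbv
    exact absurd hbv (not_lt.mpr (vP_algebraMap_nonneg a))
  have halg := htd b hbF
  have hb0 : τ b ≠ 0 := by
    intro h0
    rw [h0, AddValuation.map_zero] at hbv
    exact absurd hbv (not_lt.mpr le_top)
  obtain ⟨e, he⟩ := val_exists (vP F) hb0
  have he0 : e < 0 := by
    rw [he] at hbv
    exact_mod_cast hbv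
  have heo : (tc τ b).orderTop = ((e : ℚ) : WithTop ℚ) := by rw [tc_ord, he]
  have hEu : (Eu (tc τ b)).orderTop = ((e : ℚ) : WithTop ℚ) := by
    apply le_antisymm
    · apply orderTop_le_of_coeff_ne_zero
      rw [Eu_coeff]
      apply mul_ne_zero
      · rw [Rat.cast_ne_zero]; exact he0.ne
      · exact coeff_orderTop_ne heo
    · rw [← heo]
      exact le_orderTop_W _ _
  have hEu0 : Eu (tc τ b) ≠ 0 := by
    intro h0
    rw [h0, orderTop_zero] at hEu
    exact absurd hEu.symm (WithTop.coe_ne_top)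
  obtain ⟨g, hg⟩ : ∃ g : HahnSeries ℚ F, g * Eu (tc τ b) = -(W (fun _ => D) (tc τ b)) :=
    ⟨-(W (fun _ => D) (tc τ b)) / Eu (tc τ b), by rw [div_mul_cancel₀ _ hEu0]⟩
  have hg0 : 0 ≤ g.orderTop := by
    by_contra hno
    rw [not_le] at hno
    have h1 := congrArg HahnSeries.orderTop hg
    rw [orderTop_mul, orderTop_neg, hEu] at h1
    have h2 := le_orderTop_W (fun _ => D) (tc τ b)
    rw [← h1, heo] at h2
    obtain ⟨f, hf⟩ := WithTop.ne_top_iff_exists.mp (ne_of_lt (lt_of_lt_of_le hno le_top))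
    rw [← hf] at h2 hno
    rw [← WithTop.coe_add, WithTop.coe_le_coe] at h2
    have h3 : f < 0 := by exact_mod_cast hno
    linarith
  let D' : HahnSeries ℚ F →+ HahnSeries ℚ F :=
    W (fun _ => D) + (AddMonoidHom.mulLeft g).comp Eu
  have hD' : ∀ u, D' u = W (fun _ => D) u + g * Eu u := fun u => rfl
  have hD'mul : ∀ u v, D' (u * v) = D' u * v + u * D' v := by
    intro u v
    rw [hD', hD', hD', Eu_mul, W_mul _ (fun _ _ a b => hDD a b)]
    ring
  have hD'C : ∀ a, D' (HahnSeries.C a) = HahnSeries.C (D a) := by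
    intro a
    rw [hD', Eu_C, mul_zero, add_zero]
    ext q
    rw [W_coeff, C_apply, C_apply, coeff_single, coeff_single]
    split_ifs with h
    · rfl
    · rw [map_zero]
  have hD'ord : ∀ u, u.orderTop ≤ (D' u).orderTop := by
    intro u
    rw [hD']
    refine le_trans (le_min (le_orderTop_W _ _) ?_) min_orderTop_le_orderTop_add
    have h1 := orderTop_mul_le hg0 (le_orderTop_W (fun q => AddMonoidHom.mulLeft ((q : ℚ) : F)) u)
    rw [zero_add] at h1
    exact h1
  let ψ : M →+ HahnSeries ℚ F := (tc τ).toAddMonoidHom.comp δ - D'.comp (tc τ).toAddMonoidHom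
  have hψ : ∀ u, ψ u = tc τ (δ u) - D' (tc τ u) := fun u => rfl
  have hψmul : ∀ u v, ψ (u * v) = ψ u * tc τ v + tc τ u * ψ v := by
    intro u v
    rw [hψ, hψ, hψ, hδ, map_add, map_mul, map_mul, map_mul, hD'mul]
    ring
  have hψF : ∀ a : F, ψ (algebraMap F M a) = 0 := by
    intro a
    rw [hψ, hD, tc_C, tc_C, hD'C, sub_self]
  have hψb : ψ b = 0 := by
    rw [hψ, hb, map_zero, hD', hg, add_neg_cancel, sub_zero]
  have hψ1 : ψ 1 = 0 := by
    rw [← map_one (algebraMap F M)]
    exact hψF 1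
  have hψFb : ∀ c : F⟮b⟯, ψ (algebraMap F⟮b⟯ M c) = 0 := by
    rintro ⟨c, hc⟩
    change ψ c = 0
    induction hc using IntermediateField.adjoin_induction with
    | mem c hc =>
      rw [Set.mem_singleton_iff] at hc
      rw [hc]
      exact hψb
    | algebraMap a => exact hψF a
    | add u v _ _ hu hv => rw [map_add, hu, hv, add_zero]
    | inv u hu0 hu =>
      by_cases h0 : u = 0
      · rw [h0, inv_zero, map_zero]
      · have h1 := hψmul u u⁻¹
        rw [mul_inv_cancel₀ h0, hψ1, hu, zero_mul, zero_add] at h1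
        rcases mul_eq_zero.mp h1.symm with h2 | h2
        · exact absurd ((map_eq_zero (tc τ)).mp h2) h0
        · exact h2
    | mul u v _ _ hu hv => rw [hψmul, hu, hv, zero_mul, mul_zero, add_zero]
  have hz := twisted_zero (F := F⟮b⟯) (tc τ) ψ hψmul hψFb w (Algebra.IsAlgebraic.isAlgebraic w)
  rw [hψ, sub_eq_zero] at hz
  rw [← tc_ord, ← tc_ord, hz]
  exact hD'ord _

end

end Pool.Agent.Zk18.Rr
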