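import Pool.Agent.Zk18.Rr5

/-!
# Reduced bases
-/

set_option autoImplicit false
set_option linter.unusedSectionVars false

namespace Pool.Agent.Zk18.Rr

open Polynomial

section

variable {F K E : Type} [Field F] [IsAlgClosed F] [Field K] [Algebra F K] [AddCommGroup E]
  [Module K E] [Module F E] [IsScalarTower F K E] [FiniteDimensional K E]

/-- **Reduced bases.** -/
theorem reduced_basis (x : K) (hx : Transcendental F x)
    (hfr : ∀ c : K, ∃ p q : F[X], q ≠ 0 ∧ aeval x q * c = aeval x p)
    (V : ℤ → Submodule F E) (hmono : ∀ m m', m ≤ m' → V m ≤ V m') (hneg : V (-1) = ⊥)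
    (hmul : ∀ m w, w ∈ V m → x • w ∈ V (m + 1))
    (hdiv : ∀ (a : F) (m m' : ℤ) (w : E), w ∈ V m' → (x - algebraMap F K a) • w ∈ V m →
      w ∈ V (m - 1))
    (hspan : ∀ w : E, ∃ q : F[X], q ≠ 0 ∧ ∃ m, aeval x q • w ∈ V m) :
    ∃ (b : Module.Basis (Fin (Module.finrank K E)) K E) (e : Fin (Module.finrank K E) → ℕ),
      (∀ i, b i ∈ V (e i)) ∧ ∀ m, ∀ v ∈ V m, ∀ i, ∃ p : F[X], b.repr v i = aeval x p ∧
        (p ≠ 0 → (p.natDegree : ℤ) + e i ≤ m) := by
  classical
  set N := Module.finrank K E with hN
  have hne : ∀ q : F[X], q ≠ 0 → aeval x q ≠ 0 := fun q hq h => hq ((transcendental_iff.mp hx) q h)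
  have hinj : ∀ p q : F[X], aeval x p = aeval x q → p = q := by
    intro p q h
    rw [← sub_eq_zero]
    exact (transcendental_iff.mp hx) _ (by rw [map_sub, h, sub_self])
  -- existence of an admissible basis
  have hex : ∃ s : ℕ, ∃ (b : Module.Basis (Fin N) K E) (e : Fin N → ℕ), (∀ i, b i ∈ V (e i)) ∧
      ∑ i, e i = s := by
    let b₀ : Module.Basis (Fin N) K E := Module.finBasis K E
    choose q hq m hm using fun i => hspan (b₀ i)
    let u : Fin N → Kˣ := fun i => Units.mk0 (aeval x (q i)) (hne _ (hq i))
    refine ⟨_, b₀.unitsSMul u, fun i => (m i).toNat, fun i => ?_, rfl⟩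
    rw [Module.Basis.unitsSMul_apply]
    exact hmono _ _ (Int.self_le_toNat _) (hm i)
  obtain ⟨b, e, hbe, hsum⟩ := Nat.find_spec hex
  have hmin : ∀ (b' : Module.Basis (Fin N) K E) (e' : Fin N → ℕ), (∀ i, b' i ∈ V (e' i)) →
      ∑ i, e i ≤ ∑ i, e' i := by
    intro b' e' h
    rw [hsum]
    exact Nat.find_min' hex ⟨b', e', h, rfl⟩
  have hnegm : ∀ m : ℤ, m < 0 → ∀ v ∈ V m, v = 0 := by
    intro m hm v hv
    have h1 := hmono m (-1) (by omega) hv
    rw [hneg] at h1
    exact (Submodule.mem_bot F).mp h1
  -- exchange
  have hexch : ∀ m, ∀ v ∈ V m, ∀ i, b.repr v i ≠ 0 → (e i : ℤ) ≤ m := by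
    intro m v hv i hi
    by_contra hno
    rw [not_le] at hno
    have hm0 : 0 ≤ m := by
      by_contra hm
      rw [not_le] at hm
      rw [hnegm m hm v hv, map_zero] at hi
      exact hi rfl
    have hli : LinearIndependent K (Function.update b i v) := by
      rw [Fintype.linearIndependent_iff]
      intro g hg
      have hg' : g i • v + ∑ k ∈ Finset.univ.erase i, g k • b k = 0 := by
        rw [← hg, ← Finset.add_sum_erase _ _ (Finset.mem_univ i), Function.update_self]
        congr 1
        apply Finset.sum_congr rfl
        intro k hk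
        rw [Function.update_of_ne (Finset.ne_of_mem_erase hk)]
      have h1 : g i * b.repr v i = 0 := by
        have h2 := congrArg (fun u => b.repr u i) hg'
        simp only [map_add, map_smul, map_sum, Finsupp.add_apply, Finsupp.smul_apply,
          Finsupp.finsetSum_apply, map_zero, Finsupp.zero_apply, smul_eq_mul] at h2
        rw [Finset.sum_eq_zero, add_zero] at h2
        · exact h2
        · intro k hk
          rw [Module.Basis.repr_self, Finsupp.single_eq_of_ne (Finset.ne_of_mem_erase hk).symm,
            mul_zero]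
      have h2 : g i = 0 := (mul_eq_zero.mp h1).resolve_right hi
      rw [h2, zero_smul, zero_add] at hg'
      intro k
      by_cases hk : k = i
      · rw [hk, h2]
      · have h3 := congrArg (fun u => b.repr u k) hg'
        simp only [map_smul, map_sum, Finsupp.smul_apply,
          Finsupp.finsetSum_apply, map_zero, Finsupp.zero_apply, smul_eq_mul] at h3
        rw [Finset.sum_eq_single k] at h3
        · rw [Module.Basis.repr_self, Finsupp.single_eq_same, mul_one] at h3
          exact h3
        · intro j _ hj
          rw [Module.Basis.repr_self, Finsupp.single_eq_of_ne hj.symm, mul_zero]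
        · intro h4
          exact absurd (Finset.mem_erase.mpr ⟨hk, Finset.mem_univ k⟩) h4
    haveI : Nonempty (Fin N) := ⟨i⟩
    let b' : Module.Basis (Fin N) K E := basisOfLinearIndependentOfCardEqFinrank hli (by
      rw [Fintype.card_fin])
    have h1 := hmin b' (Function.update e i m.toNat) (by
      intro k
      change (basisOfLinearIndependentOfCardEqFinrank hli _) k ∈ _
      rw [coe_basisOfLinearIndependentOfCardEqFinrank]
      by_cases hk : k = i
      · subst hk
        rw [Function.update_self, Function.update_self, Int.toNat_of_nonneg hm0]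
        exact hv
      · rw [Function.update_of_ne hk, Function.update_of_ne hk]
        exact hbe k)
    rw [← Finset.add_sum_erase _ _ (Finset.mem_univ i), ← Finset.add_sum_erase _
      (Function.update e i m.toNat) (Finset.mem_univ i), Function.update_self] at h1
    have h2 : ∑ k ∈ Finset.univ.erase i, Function.update e i m.toNat k =
        ∑ k ∈ Finset.univ.erase i, e k := by
      apply Finset.sum_congr rfl
      intro k hk
      rw [Function.update_of_ne (Finset.ne_of_mem_erase hk)]
    rw [h2] at h1
    omega
  have hsmul : ∀ (p : F[X]) (m : ℤ) (w : E), w ∈ V m → ∀ n : ℤ, (∀ k, p.coeff k ≠ 0 →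
      m + k ≤ n) → aeval x p • w ∈ V n := by
    intro p m w hw n hn
    rw [aeval_eq_sum_range, Finset.sum_smul]
    apply Submodule.sum_mem
    intro k _
    by_cases hk : p.coeff k = 0
    · rw [hk, zero_smul, zero_smul]
      exact Submodule.zero_mem _
    · rw [smul_assoc]
      apply Submodule.smul_mem
      have hpow : ∀ k : ℕ, x ^ k • w ∈ V (m + k) := by
        intro k
        induction k with
        | zero => rw [pow_zero, one_smul, Nat.cast_zero, add_zero]; exact hw
        | succ k ih =>
          rw [pow_succ', mul_smul, Nat.cast_succ, ← add_assoc]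
          exact hmul _ _ ih
      exact hmono _ _ (hn k hk) (hpow k)
  have hsmul' : ∀ (p : F[X]) (m : ℤ) (w : E), w ∈ V m → aeval x p • w ∈ V (m + p.natDegree) := by
    intro p m w hw
    apply hsmul p m w hw
    intro k hk
    have := le_natDegree_of_ne_zero hk
    omega
  have hsumrepr : ∀ v : E, v = ∑ i, b.repr v i • b i := fun v => (b.sum_repr v).symm
  -- coordinates are polynomials
  have hpol : ∀ m, ∀ v ∈ V m, ∀ i, ∃ p : F[X], b.repr v i = aeval x p := by
    intro m v hv
    have hexq : ∃ d : ℕ, ∃ q : F[X], q ≠ 0 ∧ q.natDegree = d ∧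
        ∀ i, ∃ p : F[X], aeval x q * b.repr v i = aeval x p := by
      choose p q hq hpq using fun i => hfr (b.repr v i)
      refine ⟨_, ∏ i, q i, Finset.prod_ne_zero_iff.mpr fun i _ => hq i, rfl, fun i => ?_⟩
      refine ⟨(∏ k ∈ Finset.univ.erase i, q k) * p i, ?_⟩
      rw [← Finset.mul_prod_erase _ _ (Finset.mem_univ i), map_mul, map_mul, ← hpq i]
      ring
    obtain ⟨q, hq, hqd, hqp⟩ := Nat.find_spec hexq
    have hmin' : ∀ q' : F[X], q' ≠ 0 → (∀ i, ∃ p : F[X], aeval x q' * b.repr v i = aeval x p) →
        q.natDegree ≤ q'.natDegree := by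
      intro q' hq' h
      rw [hqd]
      exact Nat.find_min' hexq ⟨q', hq', rfl, h⟩
    by_cases hd0 : q.natDegree = 0
    · intro i
      obtain ⟨p, hp⟩ := hqp i
      rw [eq_C_of_natDegree_eq_zero hd0, aeval_C] at hp
      have hc : q.coeff 0 ≠ 0 := by
        intro h0
        apply hq
        rw [eq_C_of_natDegree_eq_zero hd0, h0, C_0]
      refine ⟨C (q.coeff 0)⁻¹ * p, ?_⟩
      rw [map_mul, aeval_C, ← hp, ← mul_assoc, ← map_mul, inv_mul_cancel₀ hc, map_one, one_mul]
    · exfalso
      obtain ⟨a, ha⟩ := IsAlgClosed.exists_root q (by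
        rw [degree_eq_natDegree hq]
        exact_mod_cast hd0)
      obtain ⟨q₁, hq₁⟩ := dvd_iff_isRoot.mpr ha
      have hq₁0 : q₁ ≠ 0 := by
        rintro rfl
        rw [mul_zero] at hq₁
        exact hq hq₁
      choose p hp using hqp
      have hxa : aeval x (X - C a) = x - algebraMap F K a := by
        rw [map_sub, aeval_X, aeval_C]
      have hxa0 : x - algebraMap F K a ≠ 0 := by
        rw [← hxa]
        exact hne _ (X_sub_C_ne_zero a)
      set v₁ : E := aeval x q₁ • v with hv₁
      obtain ⟨v₂, hv₂⟩ : ∃ v₂ : E, v₂ = v₁ - ∑ i, aeval x (p i /ₘ (X - C a)) • b i := ⟨_, rfl⟩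
      have hrep : (x - algebraMap F K a) • v₂ = ∑ i, algebraMap F K ((p i).eval a) • b i := by
        have h1 : (x - algebraMap F K a) • v₁ = ∑ i, aeval x (p i) • b i := by
          rw [hv₁, smul_smul, ← hxa, ← map_mul, ← hq₁]
          conv_lhs => rw [hsumrepr v]
          rw [Finset.smul_sum]
          apply Finset.sum_congr rfl
          intro i _
          rw [smul_smul, hp i]
        rw [hv₂, smul_sub, h1, Finset.smul_sum, ← Finset.sum_sub_distrib]
        apply Finset.sum_congr rfl
        intro i _
        rw [smul_smul, ← sub_smul]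
        congr 1
        have h2 := (p i).modByMonic_add_div (X - C a)
        rw [modByMonic_X_sub_C_eq_C_eval] at h2
        have h3 : aeval x (p i) = algebraMap F K ((p i).eval a) +
            (x - algebraMap F K a) * aeval x (p i /ₘ (X - C a)) := by
          conv_lhs => rw [← h2]
          rw [map_add, map_mul, aeval_C, hxa]
        rw [h3]
        ring
      obtain ⟨m₂, hm₂⟩ : ∃ m₂, v₂ ∈ V m₂ := by
        have h1 : ∀ i, aeval x (p i /ₘ (X - C a)) • b i ∈
            V ((e i : ℤ) + (p i /ₘ (X - C a)).natDegree) := fun i => hsmul' _ _ _ (hbe i)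
        refine ⟨(m + q₁.natDegree).natAbs + ∑ i, ((e i : ℤ) + (p i /ₘ (X - C a)).natDegree), ?_⟩
        rw [hv₂]
        apply Submodule.sub_mem
        · refine hmono _ _ ?_ (hsmul' q₁ m v hv)
          have h2 : (0 : ℤ) ≤ ∑ i, ((e i : ℤ) + (p i /ₘ (X - C a)).natDegree) :=
            Finset.sum_nonneg fun i _ => by positivity
          have h3 := Int.le_natAbs (a := m + q₁.natDegree)
          omega
        · apply Submodule.sum_mem
          intro i _
          refine hmono _ _ ?_ (h1 i)
          have h2 := Finset.single_le_sum (f := fun i => ((e i : ℤ) +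
            (p i /ₘ (X - C a)).natDegree)) (fun i _ => by positivity) (Finset.mem_univ i)
          omega
      by_cases hall : ∀ i, (p i).eval a = 0
      · have h1 : v₂ = 0 := by
          have h2 : (x - algebraMap F K a) • v₂ = 0 := by
            rw [hrep]
            apply Finset.sum_eq_zero
            intro i _
            rw [hall i, map_zero, zero_smul]
          exact (smul_eq_zero.mp h2).resolve_left hxa0
        have h2 := hmin' q₁ hq₁0 (by
          intro i
          refine ⟨p i /ₘ (X - C a), ?_⟩
          rw [h1, eq_comm, sub_eq_zero] at hv₂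
          have h3 := congrArg (fun u => b.repr u i) hv₂
          simp only [hv₁, map_smul, map_sum, Finsupp.smul_apply,
            Finsupp.finsetSum_apply, smul_eq_mul] at h3
          rw [h3, Finset.sum_eq_single i]
          · rw [Module.Basis.repr_self, Finsupp.single_eq_same, mul_one]
          · intro j _ hj
            rw [Module.Basis.repr_self, Finsupp.single_eq_of_ne hj.symm, mul_zero]
          · intro h4
            exact absurd (Finset.mem_univ i) h4)
        rw [hq₁, natDegree_mul (X_sub_C_ne_zero a) hq₁0, natDegree_X_sub_C] at h2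
        omega
      · push Not at hall
        obtain ⟨i₁, hi₁⟩ := hall
        obtain ⟨i₀, hi₀, hmax⟩ := Finset.exists_max_image
          (Finset.univ.filter fun i => (p i).eval a ≠ 0) e
          ⟨i₁, Finset.mem_filter.mpr ⟨Finset.mem_univ _, hi₁⟩⟩
        rw [Finset.mem_filter] at hi₀
        have h1 : (x - algebraMap F K a) • v₂ ∈ V (e i₀) := by
          rw [hrep]
          apply Submodule.sum_mem
          intro i _
          by_cases h0 : (p i).eval a = 0
          · rw [h0, map_zero, zero_smul]
            exact Submodule.zero_mem _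
          · rw [algebraMap_smul]
            apply Submodule.smul_mem
            refine hmono _ _ ?_ (hbe i)
            exact_mod_cast hmax i (Finset.mem_filter.mpr ⟨Finset.mem_univ _, h0⟩)
        have h2 := hdiv a _ _ v₂ hm₂ h1
        have h3 : b.repr v₂ i₀ ≠ 0 := by
          intro h0
          have h4 := congrArg (fun u => b.repr u i₀) hrep
          simp only [map_smul, map_sum, Finsupp.smul_apply,
            Finsupp.finsetSum_apply, smul_eq_mul] at h4
          rw [h0, mul_zero, Finset.sum_eq_single i₀] at h4
          · rw [Module.Basis.repr_self, Finsupp.single_eq_same, mul_one] at h4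
            exact hi₀.2 ((map_eq_zero _).mp h4.symm)
          · intro j _ hj
            rw [Module.Basis.repr_self, Finsupp.single_eq_of_ne hj.symm, mul_zero]
          · intro h5
            exact absurd (Finset.mem_univ _) h5
        have h4 := hexch _ v₂ h2 i₀ h3
        omega
  refine ⟨b, e, hbe, fun m v hv => ?_⟩
  choose p hp using hpol m v hv
  -- degrees
  have hdeg : ∀ i, p i ≠ 0 → ((p i).natDegree : ℤ) + e i ≤ m := by
    by_contra hno
    push Not at hno
    obtain ⟨i₁, hi₁, hi₁'⟩ := hno
    obtain ⟨i₂, hi₂, hmax₂⟩ := Finset.exists_max_image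
          (Finset.univ.filter fun i => p i ≠ 0) (fun i => (p i).natDegree + e i)
          ⟨i₁, Finset.mem_filter.mpr ⟨Finset.mem_univ _, hi₁⟩⟩
    set L := (p i₂).natDegree + e i₂ with hL
    rw [Finset.mem_filter] at hi₂
    have hLm : m < L := by
      have h1 := hmax₂ i₁ (Finset.mem_filter.mpr ⟨Finset.mem_univ _, hi₁⟩)
      have h2 : (((p i₁).natDegree + e i₁ : ℕ) : ℤ) ≤ (L : ℤ) := by exact_mod_cast h1
      push_cast at h2
      omega
    let I := Finset.univ.filter fun i => p i ≠ 0 ∧ (p i).natDegree + e i = L
    have hI : i₂ ∈ I := Finset.mem_filter.mpr ⟨Finset.mem_univ _, hi₂.2, rfl⟩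
    obtain ⟨i₀, hi₀, hmax⟩ := Finset.exists_max_image I e ⟨i₂, hI⟩
    have hi₀' := (Finset.mem_filter.mp hi₀).2
    set k₀ := (p i₀).natDegree with hk₀
    have hk : ∀ i ∈ I, (p i).natDegree = k₀ + (e i₀ - e i) := by
      intro i hi
      have h1 := hmax i hi
      have h2 := (Finset.mem_filter.mp hi).2
      omega
    obtain ⟨u, hu⟩ : ∃ u : E, u = ∑ i ∈ I, aeval x (C (p i).leadingCoeff *
      X ^ (e i₀ - e i)) • b i := ⟨_, rfl⟩
    have hxu : x ^ k₀ • u = v - ∑ i, aeval x (if i ∈ I then (p i).eraseLead else p i) • b i := by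
      have h1 : x ^ k₀ • u = ∑ i, aeval x (if i ∈ I then C (p i).leadingCoeff *
          X ^ (p i).natDegree else 0) • b i := by
        rw [hu, Finset.smul_sum, ← Finset.sum_subset (Finset.subset_univ I)]
        · apply Finset.sum_congr rfl
          intro i hi
          rw [if_pos hi, smul_smul]
          congr 1
          rw [map_mul, map_mul, map_pow, map_pow, aeval_X, hk i hi, pow_add]
          ring
        · intro i _ hi
          rw [if_neg hi, map_zero, zero_smul]
      rw [h1, eq_sub_iff_add_eq, ← Finset.sum_add_distrib]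
      conv_rhs => rw [hsumrepr v]
      apply Finset.sum_congr rfl
      intro i _
      rw [← add_smul, ← map_add, hp i]
      congr 2
      split_ifs
      · rw [add_comm, (p i).eraseLead_add_C_mul_X_pow]
      · rw [zero_add]
    have hxuV : x ^ k₀ • u ∈ V (L - 1) := by
      rw [hxu]
      apply Submodule.sub_mem
      · exact hmono _ _ (by omega) hv
      · apply Submodule.sum_mem
        intro i _
        apply hsmul _ _ _ (hbe i)
        intro k hk'
        by_cases hi : i ∈ I
        · rw [if_pos hi] at hk'
          have h1 := (Finset.mem_filter.mp hi).2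
          have h2 := le_natDegree_of_ne_zero hk'
          have h3 : k < (p i).natDegree := by
            by_cases h4 : (p i).natDegree = 0
            · exfalso
              apply hk'
              rw [eq_C_of_natDegree_eq_zero h4, eraseLead_C, coeff_zero]
            · exact lt_of_le_of_lt h2 (eraseLead_natDegree_lt_or_eraseLead_eq_zero (p i) |>.elim id
                (fun h5 => by rw [h5, coeff_zero] at hk'; exact absurd rfl hk'))
          have h4 := h1.2
          omega
        · rw [if_neg hi] at hk'
          have h0 : p i ≠ 0 := by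
            intro h0
            rw [h0, coeff_zero] at hk'
            exact hk' rfl
          have h1 := hmax₂ i (Finset.mem_filter.mpr ⟨Finset.mem_univ _, h0⟩)
          have h2 : (p i).natDegree + e i ≠ L := fun h => hi (Finset.mem_filter.mpr
            ⟨Finset.mem_univ _, h0, h⟩)
          have h3 := le_natDegree_of_ne_zero hk'
          omega
    obtain ⟨m', hm'⟩ : ∃ m', u ∈ V m' := by
      refine ⟨∑ i, (e i : ℤ) + e i₀, ?_⟩
      rw [hu]
      apply Submodule.sum_mem
      intro i _
      apply hsmul _ _ _ (hbe i)
      intro k hk'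
      have h1 : k = e i₀ - e i := by
        rw [coeff_C_mul, coeff_X_pow] at hk'
        by_contra hne'
        rw [if_neg hne', mul_zero] at hk'
        exact hk' rfl
      have h2 := Finset.single_le_sum (f := fun i => (e i : ℤ)) (fun i _ => by positivity)
        (Finset.mem_univ i)
      omega
    have hpow : ∀ k : ℕ, ∀ w : E, ∀ m' n : ℤ, w ∈ V m' → x ^ k • w ∈ V n → w ∈ V (n - k) := by
      intro k
      induction k with
      | zero =>
        intro w m' n _ h
        rw [pow_zero, one_smul] at h
        rw [Nat.cast_zero, sub_zero]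
        exact h
      | succ k ih =>
        intro w m' n hw h
        rw [pow_succ, mul_smul] at h
        have h1 := ih (x • w) (m' + 1) n (hmul _ _ hw) h
        have h2 := hdiv 0 _ _ w hw (by rw [map_zero, sub_zero]; exact h1)
        rw [Nat.cast_succ]
        convert h2 using 1
        ring
    have hufin := hpow k₀ u m' (L - 1) hm' hxuV
    have hru : b.repr u i₀ ≠ 0 := by
      rw [hu]
      simp only [map_sum, map_smul, Finsupp.finsetSum_apply, Finsupp.smul_apply, smul_eq_mul]
      rw [Finset.sum_eq_single i₀]
      · rw [Module.Basis.repr_self, Finsupp.single_eq_same, mul_one, Nat.sub_self, pow_zero, mul_one,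
          aeval_C]
        rw [ne_eq, map_eq_zero, leadingCoeff_eq_zero]
        exact hi₀'.1
      · intro j _ hj
        rw [Module.Basis.repr_self, Finsupp.single_eq_of_ne hj.symm, mul_zero]
      · intro h
        exact absurd hi₀ h
    have h1 := hexch _ u hufin i₀ hru
    have h2 := hi₀'.2
    omega
  intro i
  exact ⟨p i, hp i, hdeg i⟩

end

end Pool.Agent.Zk18.Rr
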