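import Pool.Agent.Zk18.Rr6

/-!
# Forms dual to reduced bases
-/

set_option autoImplicit false
set_option linter.unusedSectionVars false

attribute [-instance] HahnSeries.powerSeriesAlgebra

namespace Pool.Agent.Zk18.Rr

open HahnSeries hiding C
open Pool.Agent.Helper165.P1 Pool.Agent.Zk18 Pool.Agent.Zk18.Md Pool.Agent.Zk18.Fd Polynomial
  IntermediateField

/-- vanishing power sums -/
theorem power_sums {F ι : Type*} [Field F] [CharZero F] [Fintype ι] (r : ι → F)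
    (h : ∀ k : ℕ, ∑ i, r i ^ (k + 1) = 0) (i : ι) : r i = 0 := by
  classical
  by_contra hi
  let S : Finset F := (Finset.univ.image r).erase (r i)
  let p : F[X] := X * ∏ a ∈ S, (X - C a)
  have h1 : ∑ j, p.eval (r j) = 0 := by
    have h2 : ∀ j, p.eval (r j) = ∑ k ∈ Finset.range (p.natDegree + 1), p.coeff k * r j ^ k :=
      fun j => eval_eq_sum_range (r j)
    simp only [h2]
    rw [Finset.sum_comm]
    apply Finset.sum_eq_zero
    intro k _
    rw [← Finset.mul_sum]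
    cases k with
    | zero =>
      have h3 : p.coeff 0 = 0 := by
        simp only [p]
        rw [coeff_X_mul_zero]
      rw [h3, zero_mul]
    | succ k => rw [h k, mul_zero]
  have h2 : ∀ j, p.eval (r j) = if r j = r i then p.eval (r i) else 0 := by
    intro j
    split_ifs with hj
    · rw [hj]
    · simp only [p]
      rw [eval_mul, eval_prod, Finset.prod_eq_zero (i := r j), mul_zero]
      · exact Finset.mem_erase.mpr ⟨hj, Finset.mem_image_of_mem _ (Finset.mem_univ j)⟩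
      · rw [eval_sub, eval_X, eval_C, sub_self]
  rw [Finset.sum_congr rfl fun j _ => h2 j] at h1
  rw [← Finset.sum_filter, Finset.sum_const, nsmul_eq_mul] at h1
  rcases mul_eq_zero.mp h1 with h3 | h3
  · rw [Nat.cast_eq_zero, Finset.card_eq_zero] at h3
    have : i ∈ (Finset.univ.filter fun j => r j = r i) := Finset.mem_filter.mpr
      ⟨Finset.mem_univ _, rfl⟩
    rw [h3] at this
    exact absurd this (Finset.notMem_empty _)
  · simp only [p] at h3
    rw [eval_mul, eval_X, eval_prod] at h3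
    rcases mul_eq_zero.mp h3 with h4 | h4
    · exact hi h4
    · rw [Finset.prod_eq_zero_iff] at h4
      obtain ⟨a, ha, ha'⟩ := h4
      rw [eval_sub, eval_X, eval_C, sub_eq_zero] at ha'
      exact (Finset.ne_of_mem_erase ha) ha'.symm

section

variable {F E : Type} [Field F] [CharZero F] [IsAlgClosed F] [Field E] [CharZero E] [Algebra F E]

theorem inv_nonneg' {z : Pui F} (hz : z ≠ 0) (hz0 : vP F z ≤ 0) : 0 ≤ vP F z⁻¹ := by
  have h1 := AddValuation.map_mul (vP F) z z⁻¹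
  rw [mul_inv_cancel₀ hz, AddValuation.map_one] at h1
  by_contra hno
  rw [not_le] at hno
  have h2 : vP F z + vP F z⁻¹ < 0 := by
    calc vP F z + vP F z⁻¹ ≤ 0 + vP F z⁻¹ := by gcongr
      _ = vP F z⁻¹ := zero_add _
      _ < 0 := hno
  rw [← h1] at h2
  exact lt_irrefl _ h2

theorem pos_of_coeff {z : Pui F} (hz : 0 ≤ vP F z) (h0 : (z : HQ F).coeff 0 = 0) : 0 < vP F z := by
  rw [vP_apply] at hz ⊢
  exact lt_of_le_of_ne hz fun h4 => coeff_orderTop_ne h4.symm h0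

theorem coeff_of_pos {z : Pui F} (hz : 0 < vP F z) : (z : HQ F).coeff 0 = 0 := by
  rw [vP_apply] at hz
  exact coeff_eq_zero_of_lt_orderTop hz

theorem coeff_pow {z : Pui F} (hz : 0 ≤ vP F z) (n : ℕ) :
    ((z ^ n : Pui F) : HQ F).coeff 0 = (z : HQ F).coeff 0 ^ n := by
  rw [SubmonoidClass.coe_pow]
  rw [vP_apply] at hz
  induction n with
  | zero => rw [pow_zero, pow_zero, HahnSeries.coeff_one, if_pos rfl]
  | succ n ih => rw [pow_succ, pow_succ, coeff_zero_mul (orderTop_pow_nonneg hz n) hz, ih]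

/-- **Positivity from traces.** -/
theorem trace_pos (x : E) [FiniteDimensional F⟮x⟯ E] (τ : E →ₐ[F] Pui F) (y : E)
    (H : ∀ w : E, (∀ σ : E →ₐ[F] Pui F, σ x = τ x → 0 ≤ vP F (σ w)) →
      0 < vP F (τ ((Algebra.trace F⟮x⟯ E (y * w) : F⟮x⟯) : E)))
    (σ₀ : E →ₐ[F] Pui F) (hσ₀ : σ₀ x = τ x) : 0 < vP F (σ₀ y) := by
  classical
  let ι : F⟮x⟯ →ₐ[F] Pui F := τ.comp F⟮x⟯.val
  let _ : Algebra F⟮x⟯ (Pui F) := ι.toRingHom.toAlgebra
  have hAlg : ∀ c, algebraMap F⟮x⟯ (Pui F) c = τ c := fun c => rfl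
  have hst : IsScalarTower F F⟮x⟯ (Pui F) := IsScalarTower.of_algebraMap_eq fun a => by
    rw [hAlg]
    change _ = τ (algebraMap F E a)
    rw [τ.commutes]
  have hres : ∀ σ : E →ₐ[F⟮x⟯] Pui F, (σ.restrictScalars F) x = τ x := by
    intro σ
    have h1 := σ.commutes (AdjoinSimple.gen F x)
    rw [hAlg] at h1
    exact h1
  obtain ⟨c, hc0, hc⟩ := exists_shift {u : Pui F | ∃ σ : E →ₐ[F] Pui F, σ x = τ x ∧ σ y = u}
    (finite_values x y (τ x))
  set u : E := y + algebraMap F E c with hu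
  have hτu : ∀ σ : E →ₐ[F] Pui F, σ u = σ y + algebraMap F (Pui F) c := by
    intro σ
    rw [hu, map_add, σ.commutes]
  have hu1 : ∀ σ : E →ₐ[F] Pui F, σ x = τ x → σ u ≠ 0 ∧ vP F (σ u) ≤ 0 := by
    intro σ hσ
    rw [hτu]
    exact hc (σ y) ⟨σ, hσ, rfl⟩
  have hu0 : u ≠ 0 := by
    intro h0
    have h1 := (hu1 σ₀ hσ₀).1
    rw [h0, map_zero] at h1
    exact h1 rfl
  have huinv : ∀ σ : E →ₐ[F] Pui F, σ x = τ x → 0 ≤ vP F (σ u⁻¹) := by
    intro σ hσ
    rw [map_inv₀]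
    exact inv_nonneg' (hu1 σ hσ).1 (hu1 σ hσ).2
  set s : E := y * u⁻¹ with hs
  have hs1 : s = 1 - algebraMap F E c * u⁻¹ := by
    rw [hs, eq_sub_iff_add_eq, ← add_mul, ← hu, mul_inv_cancel₀ hu0]
  have hsv : ∀ σ : E →ₐ[F] Pui F, σ x = τ x → 0 ≤ vP F (σ s) := by
    intro σ hσ
    rw [hs1, map_sub, map_one, map_mul, σ.commutes]
    refine le_trans (le_min ?_ ?_) (AddValuation.map_sub _ _ _)
    · rw [AddValuation.map_one]
    · rw [AddValuation.map_mul]
      exact add_nonneg (vP_algebraMap_nonneg c) (huinv σ hσ)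
  have hsum : ∀ k : ℕ, ∑ σ : E →ₐ[F⟮x⟯] Pui F, ((σ s : Pui F) : HQ F).coeff 0 ^ (k + 1) = 0 := by
    intro k
    have h1 := H (s ^ k * u⁻¹) (by
      intro σ hσ
      rw [map_mul, map_pow, AddValuation.map_mul]
      refine add_nonneg ?_ (huinv σ hσ)
      rw [AddValuation.map_pow]
      exact nsmul_nonneg (hsv σ hσ) k)
    have h2 : y * (s ^ k * u⁻¹) = s ^ (k + 1) := by
      rw [pow_succ, hs]
      ring
    rw [h2, ← hAlg, trace_eq_sum_embeddings (Pui F)] at h1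
    have h3 := coeff_of_pos h1
    rw [AddSubmonoidClass.coe_finsetSum, HahnSeries.coeff_sum] at h3
    rw [← h3]
    apply Finset.sum_congr rfl
    intro σ _
    have h4 := coeff_pow (z := σ s) (hsv (σ.restrictScalars F) (hres σ)) (k + 1)
    rw [map_pow]
    exact h4.symm
  have hzero := power_sums _ hsum
  let σ₁ : E →ₐ[F⟮x⟯] Pui F :=
    { σ₀.toRingHom with
      commutes' := fun c => by
        change σ₀ (c : E) = _
        rw [hAlg]
        exact agree x σ₀ τ hσ₀ c.2 }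
  have h1 : 0 < vP F (σ₀ s) := pos_of_coeff (hsv σ₀ hσ₀) (hzero σ₁)
  have h2 : vP F (1 - σ₀ s) = 0 := by
    rw [AddValuation.map_sub_eq_of_lt_left, AddValuation.map_one]
    rwa [AddValuation.map_one]
  have h3 : σ₀ y * (1 - σ₀ s) = algebraMap F (Pui F) c * σ₀ s := by
    have h4 : y * (1 - s) = algebraMap F E c * s := by
      have h5 : 1 - s = algebraMap F E c * u⁻¹ := by rw [hs1]; ring
      rw [h5, hs]
      ring
    have h5 := congrArg σ₀ h4
    rw [map_mul σ₀ y (1 - s), map_sub, map_one, map_mul σ₀ (algebraMap F E c) s,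
      σ₀.commutes] at h5
    exact h5
  have h4 := congrArg (vP F) h3
  rw [AddValuation.map_mul, AddValuation.map_mul, h2, add_zero, vP_algebraMap hc0, zero_add] at h4
  rw [h4]
  exact h1

/-- the functions with poles of order at most `m` at the poles of `x` -/
def VV (x : E) (m : ℤ) : Submodule F E where
  carrier := {w | (∀ (a : F) (τ : E →ₐ[F] Pui F), τ x = fin a → 0 ≤ vP F (τ w)) ∧
    ∀ τ : E →ₐ[F] Pui F, τ x = tinv → ((-(m : ℚ) : ℚ) : WithTop ℚ) ≤ vP F (τ w)}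
  add_mem' := by
    rintro u v ⟨h1, h2⟩ ⟨h3, h4⟩
    refine ⟨fun a τ hτ => ?_, fun τ hτ => ?_⟩
    · rw [map_add]
      exact le_trans (le_min (h1 a τ hτ) (h3 a τ hτ)) (AddValuation.map_add _ _ _)
    · rw [map_add]
      exact le_trans (le_min (h2 τ hτ) (h4 τ hτ)) (AddValuation.map_add _ _ _)
  zero_mem' := by
    refine ⟨fun a τ hτ => ?_, fun τ hτ => ?_⟩
    · rw [map_zero, AddValuation.map_zero]; exact le_top
    · rw [map_zero, AddValuation.map_zero]; exact le_top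
  smul_mem' := by
    rintro c u ⟨h1, h2⟩
    refine ⟨fun a τ hτ => ?_, fun τ hτ => ?_⟩
    · rw [Algebra.smul_def, map_mul, τ.commutes, AddValuation.map_mul]
      exact add_nonneg (vP_algebraMap_nonneg c) (h1 a τ hτ)
    · rw [Algebra.smul_def, map_mul, τ.commutes, AddValuation.map_mul]
      calc ((-(m : ℚ) : ℚ) : WithTop ℚ) = 0 + ((-(m : ℚ) : ℚ) : WithTop ℚ) := (zero_add _).symm
        _ ≤ _ := add_le_add (vP_algebraMap_nonneg c) (h2 τ hτ)

theorem mem_VV {x : E} {m : ℤ} {w : E} : w ∈ VV (F := F) x m ↔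
    (∀ (a : F) (τ : E →ₐ[F] Pui F), τ x = fin a → 0 ≤ vP F (τ w)) ∧
    ∀ τ : E →ₐ[F] Pui F, τ x = tinv → ((-(m : ℚ) : ℚ) : WithTop ℚ) ≤ vP F (τ w) := Iff.rfl

theorem VV_mono (x : E) {m m' : ℤ} (h : m ≤ m') : VV (F := F) x m ≤ VV x m' := by
  rintro w ⟨h1, h2⟩
  refine ⟨h1, fun τ hτ => le_trans ?_ (h2 τ hτ)⟩
  have h3 : (m : ℚ) ≤ m' := by exact_mod_cast h
  have h4 : -(m' : ℚ) ≤ -(m : ℚ) := by linarith
  exact_mod_cast h4

theorem vP_tinv' : vP F (tinv : Pui F) = ((-1 : ℚ) : WithTop ℚ) := by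
  have h := vP_tinv_pow (F := F) 1
  rw [pow_one] at h
  rw [h]
  norm_num

theorem vP_sub_inf (x : E) (τ : E →ₐ[F] Pui F) (hτ : τ x = tinv) (a : F) :
    vP F (τ (x - algebraMap F E a)) = ((-1 : ℚ) : WithTop ℚ) := by
  rw [map_sub, hτ, τ.commutes, AddValuation.map_sub_eq_of_lt_left, vP_tinv']
  rw [vP_tinv']
  refine lt_of_lt_of_le ?_ (vP_algebraMap_nonneg a)
  exact_mod_cast (by norm_num : (-1 : ℚ) < 0)

theorem VV_neg (x : E) [Algebra.IsAlgebraic F⟮x⟯ E] (hx : Transcendental F x) :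
    VV (F := F) x (-1) = ⊥ := by
  rw [eq_bot_iff]
  rintro w ⟨h1, h2⟩
  obtain ⟨τ, hτ⟩ := exists_tau x hx tinv tinv_transcendental
  by_cases hw : w ∈ Set.range (algebraMap F E)
  · obtain ⟨c, rfl⟩ := hw
    have h3 := h2 τ hτ
    rw [τ.commutes] at h3
    by_cases hc : c = 0
    · rw [hc, map_zero]
      exact Submodule.zero_mem _
    · rw [vP_algebraMap hc] at h3
      exfalso
      have h4 : (-((-1 : ℤ) : ℚ)) ≤ 0 := by exact_mod_cast h3
      norm_num at h4
  · obtain ⟨j, hj, hjx⟩ := exists_place x w hw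
    exfalso
    rcases hjx with ⟨a, ha⟩ | hjx
    · exact absurd hj (not_lt.mpr (h1 a j ha))
    · have h3 := h2 j hjx
      refine absurd hj (not_lt.mpr (le_trans ?_ h3))
      exact_mod_cast (by norm_num : (0 : ℚ) ≤ -((-1 : ℤ) : ℚ))

theorem mul_mem_VV (x : E) {m : ℤ} {w : E} (hw : w ∈ VV (F := F) x m) :
    x * w ∈ VV (F := F) x (m + 1) := by
  obtain ⟨h1, h2⟩ := hw
  refine ⟨fun a τ hτ => ?_, fun τ hτ => ?_⟩
  · rw [map_mul, AddValuation.map_mul, hτ]
    exact add_nonneg (vP_fin_nonneg a) (h1 a τ hτ)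
  · rw [map_mul, AddValuation.map_mul, hτ, vP_tinv']
    have h3 : ((-((m + 1 : ℤ) : ℚ) : ℚ) : WithTop ℚ) = ((-1 : ℚ) : WithTop ℚ) +
        ((-(m : ℚ) : ℚ) : WithTop ℚ) := by
      rw [← WithTop.coe_add]
      congr 1
      push_cast
      ring
    rw [h3]
    exact add_le_add le_rfl (h2 τ hτ)

theorem div_mem_VV (x : E) (a : F) {m m' : ℤ} {w : E} (hw : w ∈ VV (F := F) x m')
    (h : (x - algebraMap F E a) * w ∈ VV (F := F) x m) : w ∈ VV (F := F) x (m - 1) := by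
  refine ⟨hw.1, fun τ hτ => ?_⟩
  have h1 := h.2 τ hτ
  rw [map_mul, AddValuation.map_mul, vP_sub_inf x τ hτ a] at h1
  have h3 : ((-((m - 1 : ℤ) : ℚ) : ℚ) : WithTop ℚ) + ((-1 : ℚ) : WithTop ℚ) =
      ((-(m : ℚ) : ℚ) : WithTop ℚ) := by
    rw [← WithTop.coe_add]
    congr 1
    push_cast
    ring
  rw [← h3, add_comm ((-1 : ℚ) : WithTop ℚ)] at h1
  exact (WithTop.add_le_add_iff_right WithTop.coe_ne_top).mp h1

theorem exists_VV (x w : E) [Algebra.IsAlgebraic F⟮x⟯ E]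
    (h : ∀ (a : F) (τ : E →ₐ[F] Pui F), τ x = fin a → 0 ≤ vP F (τ w)) :
    ∃ m : ℤ, w ∈ VV (F := F) x m := by
  classical
  have hfin := finite_values x w (tinv : Pui F)
  obtain ⟨m, hm⟩ : ∃ m : ℕ, ∀ u ∈ hfin.toFinset, ((-(m : ℚ) : ℚ) : WithTop ℚ) ≤ vP F u := by
    have h1 : ∀ u : Pui F, ∃ m : ℕ, ((-(m : ℚ) : ℚ) : WithTop ℚ) ≤ vP F u := by
      intro u
      by_cases hu : u = 0
      · exact ⟨0, by rw [hu, AddValuation.map_zero]; exact le_top⟩
      · obtain ⟨e, he⟩ := val_exists (vP F) hu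
        obtain ⟨m, hm⟩ := exists_nat_ge (-e)
        refine ⟨m, ?_⟩
        rw [he, WithTop.coe_le_coe]
        linarith
    choose f hf using h1
    refine ⟨hfin.toFinset.sup f, fun u hu => le_trans ?_ (hf u)⟩
    rw [WithTop.coe_le_coe]
    have h2 : f u ≤ hfin.toFinset.sup f := Finset.le_sup hu
    have h3 : (f u : ℚ) ≤ (hfin.toFinset.sup f : ℕ) := by exact_mod_cast h2
    linarith
  refine ⟨m, h, fun τ hτ => ?_⟩
  have h1 := hm (τ w) (by
    rw [Set.Finite.mem_toFinset]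
    exact ⟨τ, hτ, rfl⟩)
  exact_mod_cast h1

/-- **Reduced bases of function fields.** -/
theorem reduced_VV (x : E) [FiniteDimensional F⟮x⟯ E] (hx : Transcendental F x) :
    ∃ (b : Module.Basis (Fin (Module.finrank F⟮x⟯ E)) F⟮x⟯ E)
      (e : Fin (Module.finrank F⟮x⟯ E) → ℕ),
      (∀ i, b i ∈ VV (F := F) x (e i)) ∧ ∀ m, ∀ v ∈ VV (F := F) x m, ∀ i, ∃ p : F[X],
        ((b.repr v i : F⟮x⟯) : E) = aeval x p ∧ (p ≠ 0 → (p.natDegree : ℤ) + e i ≤ m) := by
  have hg : ∀ p : F[X], ((aeval (AdjoinSimple.gen F x) p : F⟮x⟯) : E) = aeval x p := by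
    intro p
    have h1 := aeval_algHom_apply F⟮x⟯.val (AdjoinSimple.gen F x) p
    exact h1.symm
  have hinj : ∀ c d : F⟮x⟯, (c : E) = d → c = d := fun c d h => Subtype.ext h
  obtain ⟨b, e, h1, h2⟩ := reduced_basis (F := F) (K := F⟮x⟯) (E := E) (AdjoinSimple.gen F x)
    (by
      intro h
      apply hx
      have h1 := h.algebraMap (A := E)
      exact h1)
    (by
      intro c
      obtain ⟨p, q, hq, -, hc⟩ := coprime_ratio x hx c.2
      refine ⟨p, q, hq.ne_zero, hinj _ _ ?_⟩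
      rw [IntermediateField.coe_mul, hg, hg, hc])
    (fun m => VV (F := F) x m) (fun m m' h => VV_mono x h) (VV_neg x hx)
    (fun m w hw => mul_mem_VV x hw)
    (fun a m m' w hw h => div_mem_VV x a hw h)
    (by
      intro w
      obtain ⟨q, hq, hqw⟩ := exists_den x w hx
      obtain ⟨m, hm⟩ := exists_VV x (aeval x q * w) (by
        intro a τ hτ
        exact regular_of_itg hqw τ (by rw [hτ]; exact vP_fin_nonneg a))
      refine ⟨q, hq, m, ?_⟩
      have h1 : (aeval (AdjoinSimple.gen F x) q : F⟮x⟯) • w = aeval x q * w := by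
        rw [Algebra.smul_def]
        congr 1
        exact hg q
      rw [h1]
      exact hm)
  refine ⟨b, e, h1, fun m v hv i => ?_⟩
  obtain ⟨p, hp, hp'⟩ := h2 m v hv i
  exact ⟨p, by rw [hp, hg], hp'⟩

end

end Pool.Agent.Zk18.Rr
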