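import Pool.Agent.Zk18.Rr7

/-!
# Dual forms and coordinates of minimal degree
-/

set_option autoImplicit false
set_option linter.unusedSectionVars false

attribute [-instance] HahnSeries.powerSeriesAlgebra

namespace Pool.Agent.Zk18.Rr

open HahnSeries hiding C
open Pool.Agent.Helper165.P1 Pool.Agent.Zk18 Pool.Agent.Zk18.Md Pool.Agent.Zk18.Fd Polynomial
  IntermediateField

section

variable {F E : Type} [Field F] [CharZero F] [IsAlgClosed F] [Field E] [CharZero E] [Algebra F E]

/-- **The form dual to a vector of large degree of a reduced basis.** -/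
theorem dual_form (x : E) [FiniteDimensional F⟮x⟯ E] (hx : Transcendental F x)
    (h2 : 2 ≤ Module.finrank F⟮x⟯ E)
    (h1 : ∀ w ∈ VV (F := F) x 1, ∃ c d : F, w = algebraMap F E c + algebraMap F E d * x) :
    ∃ z : E, z ≠ 0 ∧ ∀ m, ∀ w ∈ VV (F := F) x m, ∃ p : F[X],
      ((Algebra.trace F⟮x⟯ E (z * w) : F⟮x⟯) : E) = aeval x p ∧
        (p ≠ 0 → (p.natDegree : ℤ) + 2 ≤ m) := by
  classical
  obtain ⟨b, e, hbe, hrep⟩ := reduced_VV x hx
  obtain ⟨i₀, hi₀⟩ : ∃ i, 2 ≤ e i := by
    by_contra hno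
    push Not at hno
    have hb1 : ∀ i, ∃ k : F⟮x⟯, b i = algebraMap F⟮x⟯ E k := by
      intro i
      obtain ⟨c, d, hcd⟩ := h1 (b i) (VV_mono x (m := (e i : ℤ)) (m' := 1)
        (by have := hno i; omega) (hbe i))
      refine ⟨algebraMap F F⟮x⟯ c + algebraMap F F⟮x⟯ d * AdjoinSimple.gen F x, ?_⟩
      rw [hcd, map_add, map_mul]
      rfl
    obtain ⟨k, hk⟩ := hb1 ⟨0, by omega⟩
    obtain ⟨l, hl⟩ := hb1 ⟨1, by omega⟩
    have hne : (⟨0, by omega⟩ : Fin (Module.finrank F⟮x⟯ E)) ≠ ⟨1, by omega⟩ := by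
      intro h
      have := congrArg Fin.val h
      simp at this
    have h3 : l • b ⟨0, by omega⟩ - k • b ⟨1, by omega⟩ = 0 := by
      rw [hk, hl, Algebra.smul_def, Algebra.smul_def]
      ring
    have h4 := congrArg (fun u => b.repr u ⟨0, by omega⟩) h3
    simp only [map_sub, map_smul, Finsupp.sub_apply, Finsupp.smul_apply, map_zero,
      Finsupp.zero_apply, smul_eq_mul, Module.Basis.repr_self, Finsupp.single_eq_same,
      mul_one] at h4
    rw [Finsupp.single_eq_of_ne hne, mul_zero, sub_zero] at h4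
    have h5 := b.ne_zero ⟨1, by omega⟩
    rw [hl, h4, map_zero] at h5
    exact h5 rfl
  let B := Algebra.traceForm F⟮x⟯ E
  have hB : B.Nondegenerate := traceForm_nondegenerate F⟮x⟯ E
  let z : E := B.dualBasis hB b i₀
  have hz : ∀ w, Algebra.trace F⟮x⟯ E (z * w) = b.repr w i₀ := by
    intro w
    have h3 : ∀ j, B z (b j) = if j = i₀ then 1 else 0 := fun j =>
      LinearMap.BilinForm.apply_dualBasis_left hB b i₀ j
    have h4 : Algebra.trace F⟮x⟯ E (z * w) = B z w := rfl
    rw [h4]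
    conv_lhs => rw [← b.sum_repr w]
    rw [map_sum]
    simp only [map_smul, h3, smul_eq_mul, mul_ite, mul_one, mul_zero]
    rw [Finset.sum_ite_eq' Finset.univ i₀, if_pos (Finset.mem_univ _)]
  refine ⟨z, (B.dualBasis hB b).ne_zero i₀, fun m w hw => ?_⟩
  obtain ⟨p, hp, hp'⟩ := hrep m w hw i₀
  refine ⟨p, by rw [hz, hp], fun h => ?_⟩
  have := hp' h
  omega

theorem trace_mul_poly (x : E) (q : F[X]) (u : E) :
    aeval x q * ((Algebra.trace F⟮x⟯ E u : F⟮x⟯) : E) =
      ((Algebra.trace F⟮x⟯ E (aeval x q * u) : F⟮x⟯) : E) := by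
  have hg : ((aeval (AdjoinSimple.gen F x) q : F⟮x⟯) : E) = aeval x q := by
    have h1 := aeval_algHom_apply F⟮x⟯.val (AdjoinSimple.gen F x) q
    exact h1.symm
  have h1 : aeval x q * u = (aeval (AdjoinSimple.gen F x) q : F⟮x⟯) • u := by
    rw [Algebra.smul_def]
    congr 1
    exact hg.symm
  rw [h1, map_smul, smul_eq_mul, IntermediateField.coe_mul, hg]

/-- the dual form at finite places -/
theorem form_fin (x : E) [FiniteDimensional F⟮x⟯ E] (hx : Transcendental F x) (z : E)
    (hz : ∀ m, ∀ w ∈ VV (F := F) x m, ∃ p : F[X],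
      ((Algebra.trace F⟮x⟯ E (z * w) : F⟮x⟯) : E) = aeval x p ∧
        (p ≠ 0 → (p.natDegree : ℤ) + 2 ≤ m)) (a : F) (τ : E →ₐ[F] Pui F) (hτ : τ x = fin a) :
    0 < vP F (τ ((x - algebraMap F E a) * z)) := by
  apply trace_pos x τ _ _ τ rfl
  intro w hw
  obtain ⟨q, hq, hqw⟩ := den_at x w hx a (fun σ hσ => hw σ (by rw [hσ, hτ]))
  obtain ⟨m, hm⟩ := exists_VV x (aeval x q * w) (by
    intro a' σ hσ
    exact regular_of_itg hqw σ (by rw [hσ]; exact vP_fin_nonneg a'))
  obtain ⟨p, hp, -⟩ := hz m _ hm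
  have h1 : aeval x q * ((Algebra.trace F⟮x⟯ E ((x - algebraMap F E a) * z * w) : F⟮x⟯) : E) =
      (x - algebraMap F E a) * aeval x p := by
    have h2 : x - algebraMap F E a = aeval x (X - C a) := by rw [map_sub, aeval_X, aeval_C]
    have h5 : aeval x q * ((x - algebraMap F E a) * z * w) =
        aeval x (X - C a) * (z * (aeval x q * w)) := by
      rw [← h2]
      ring
    rw [trace_mul_poly, h5, ← trace_mul_poly, hp, ← h2]
  have h2 := congrArg (fun u => vP F (τ u)) h1
  simp only [map_mul, AddValuation.map_mul] at h2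
  rw [vP_poly_zero τ hτ q hq, zero_add] at h2
  rw [h2]
  have h3 : 0 < vP F (τ (x - algebraMap F E a)) := by
    rw [map_sub, hτ, τ.commutes, fin, add_sub_cancel_left, vP_uni]
    exact_mod_cast (zero_lt_one : (0 : ℚ) < 1)
  calc (0 : WithTop ℚ) < vP F (τ (x - algebraMap F E a)) := h3
    _ = vP F (τ (x - algebraMap F E a)) + 0 := (add_zero _).symm
    _ ≤ _ := by
      gcongr
      exact vP_poly_nonneg τ (by rw [hτ]; exact vP_fin_nonneg a) p

/-- the dual form at infinity -/
theorem form_inf (x : E) [FiniteDimensional F⟮x⟯ E] (hx : Transcendental F x) (z : E)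
    (hz : ∀ m, ∀ w ∈ VV (F := F) x m, ∃ p : F[X],
      ((Algebra.trace F⟮x⟯ E (z * w) : F⟮x⟯) : E) = aeval x p ∧
        (p ≠ 0 → (p.natDegree : ℤ) + 2 ≤ m)) (τ : E →ₐ[F] Pui F) (hτ : τ x = tinv) :
    0 < vP F (τ (x * z)) := by
  apply trace_pos x τ _ _ τ rfl
  intro w hw
  obtain ⟨q, hq, hqw⟩ := exists_den x w hx
  have hm : aeval x q * w ∈ VV (F := F) x q.natDegree := by
    refine ⟨fun a' σ hσ => regular_of_itg hqw σ (by rw [hσ]; exact vP_fin_nonneg a'),
      fun σ hσ => ?_⟩
    rw [map_mul, AddValuation.map_mul, vP_poly_inf σ hσ q hq]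
    calc ((-((q.natDegree : ℤ) : ℚ) : ℚ) : WithTop ℚ) =
        ((-(q.natDegree : ℚ) : ℚ) : WithTop ℚ) + 0 := by rw [add_zero, Int.cast_natCast]
      _ ≤ _ := by
        gcongr
        exact hw σ (by rw [hσ, hτ])
  obtain ⟨p, hp, hp'⟩ := hz _ _ hm
  have h1 : aeval x q * ((Algebra.trace F⟮x⟯ E (x * z * w) : F⟮x⟯) : E) = x * aeval x p := by
    have h5 : aeval x q * (x * z * w) = aeval x (X : F[X]) * (z * (aeval x q * w)) := by
      rw [aeval_X]
      ring
    rw [trace_mul_poly, h5, ← trace_mul_poly, hp, aeval_X]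
  have h2 := congrArg (fun u => vP F (τ u)) h1
  simp only [map_mul, AddValuation.map_mul] at h2
  rw [vP_poly_inf τ hτ q hq, hτ, vP_tinv'] at h2
  by_cases hp0 : p = 0
  · rw [hp0, map_zero, map_zero, AddValuation.map_zero, add_top] at h2
    have h3 := (WithTop.add_eq_top.mp h2).resolve_left WithTop.coe_ne_top
    rw [h3]
    exact WithTop.coe_lt_top _
  · have h3 := hp' hp0
    rw [vP_poly_inf τ hτ p hp0] at h2
    set V := vP F (τ ((Algebra.trace F⟮x⟯ E (x * z * w) : F⟮x⟯) : E)) with hV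
    have hVt : V ≠ ⊤ := by
      intro h
      rw [h, add_top, ← WithTop.coe_add] at h2
      exact WithTop.coe_ne_top h2.symm
    obtain ⟨g, hg⟩ := WithTop.ne_top_iff_exists.mp hVt
    rw [← hg, ← WithTop.coe_add, ← WithTop.coe_add, WithTop.coe_eq_coe] at h2
    rw [← hg]
    have h4 : (p.natDegree : ℚ) + 2 ≤ q.natDegree := by exact_mod_cast h3
    have h5 : 0 < g := by linarith
    exact_mod_cast h5

/-- coefficients of a product of linear factors with roots of order at least `-1` -/
theorem prod_coeff {L : Type*} [Field L] (v : AddValuation L (WithTop ℚ)) (s : Multiset L)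
    (hs : ∀ a ∈ s, ((-1 : ℚ) : WithTop ℚ) ≤ v a) (j : ℕ) :
    (((j : ℚ) - s.card : ℚ) : WithTop ℚ) ≤ v (((s.map fun a => X - C a).prod).coeff j) := by
  induction s using Multiset.induction_on generalizing j with
  | empty =>
    simp only [Multiset.map_zero, Multiset.prod_zero, Polynomial.coeff_one, Multiset.card_zero,
      Nat.cast_zero, sub_zero]
    split_ifs with h
    · rw [v.map_one, h, Nat.cast_zero]
      exact le_rfl
    · rw [v.map_zero]; exact le_top
  | cons a s ih =>
    rw [Multiset.map_cons, Multiset.prod_cons, sub_mul, Polynomial.coeff_sub, coeff_C_mul]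
    have ih' := ih fun b hb => hs b (Multiset.mem_cons_of_mem hb)
    refine le_trans (le_min ?_ ?_) (v.map_sub _ _)
    · cases j with
      | zero => rw [coeff_X_mul_zero, v.map_zero]; exact le_top
      | succ j =>
        rw [coeff_X_mul]
        refine le_trans ?_ (ih' j)
        rw [WithTop.coe_le_coe, Multiset.card_cons]
        push_cast
        linarith
    · rw [v.map_mul]
      have h1 : (((j : ℚ) - (a ::ₘ s).card : ℚ) : WithTop ℚ) =
          ((-1 : ℚ) : WithTop ℚ) + (((j : ℚ) - s.card : ℚ) : WithTop ℚ) := by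
        rw [← WithTop.coe_add, Multiset.card_cons]
        congr 1
        push_cast
        ring
      rw [h1]
      exact add_le_add (hs a (Multiset.mem_cons_self _ _)) (ih' j)

/-- **The degree drops.** -/
theorem degree_drop (x f : E) [FiniteDimensional F⟮x⟯ E] (hx : Transcendental F x)
    (hf : f ∈ VV (F := F) x 1) (hfF : Transcendental F f) (τ : E →ₐ[F] Pui F) (hτ : τ x = tinv)
    (hτf : ((-1 : ℚ) : WithTop ℚ) < vP F (τ f)) :
    Module.finrank F⟮f⟯ E < Module.finrank F⟮x⟯ E := by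
  classical
  have hint : IsIntegral F⟮x⟯ f := Algebra.IsIntegral.isIntegral f
  have hmon := minpoly.monic hint
  set n := (minpoly F⟮x⟯ f).natDegree with hn
  have hn0 : 0 < n := minpoly.natDegree_pos hint
  -- the coefficients are polynomials
  have hpol : ∀ i, ∃ p : F[X], (((minpoly F⟮x⟯ f).coeff i : F⟮x⟯) : E) = aeval x p := by
    intro i
    exact poly_of_regular x hx ((minpoly F⟮x⟯ f).coeff i).2 fun a σ hσ =>
      coeff_val x f σ (fun σ' hσ' => hf.1 a σ' (by rw [hσ', hσ])) i
  choose P hP using hpol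
  let ι : F⟮x⟯ →ₐ[F] Pui F := τ.comp F⟮x⟯.val
  have hroot : ∀ u : Pui F, ((minpoly F⟮x⟯ f).map ι.toRingHom).eval u = 0 →
      ((-1 : ℚ) : WithTop ℚ) ≤ vP F u := by
    intro u hu
    obtain ⟨σ, hσ, hσf⟩ := root_place x ι f u hu
    have h1 := hf.2 σ (by
      have h2 := hσ (AdjoinSimple.gen F x)
      change σ x = τ x at h2
      rw [h2, hτ])
    rw [hσf] at h1
    simpa using h1
  set Q := (minpoly F⟮x⟯ f).map ι.toRingHom with hQ
  have hQm : Q.Monic := hmon.map _
  have hQn : Q.natDegree = n := by rw [hQ, hmon.natDegree_map]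
  have hQroot : Q.eval (τ f) = 0 := by
    have h1 := congrArg τ (minpoly.aeval F⟮x⟯ f)
    rw [map_zero, aeval_def] at h1
    change (τ : E →+* Pui F) _ = 0 at h1
    rw [hom_eval₂] at h1
    rw [hQ, eval_map, ← h1]
    rfl
  have hQs := (IsAlgClosed.splits Q).eq_prod_roots
  rw [hQm.leadingCoeff, C_1, one_mul] at hQs
  have hcard : Q.roots.card = n := by
    have h1 := (IsAlgClosed.splits Q).natDegree_eq_card_roots
    rw [← h1, hQn]
  have hcoeff : ∀ i, Q.coeff i = τ (aeval x (P i)) := by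
    intro i
    rw [hQ, coeff_map, ← hP i]
    rfl
  have hdeg : ∀ i, P i ≠ 0 → (P i).natDegree + i ≤ n := by
    intro i hi
    have h1 := prod_coeff (vP F) Q.roots (by
      intro a ha
      rw [mem_roots hQm.ne_zero] at ha
      exact hroot a ha) i
    rw [← hQs, hcoeff, vP_poly_inf τ hτ _ hi, hcard, WithTop.coe_le_coe] at h1
    have h2 : ((P i).natDegree : ℚ) + i ≤ n := by linarith
    exact_mod_cast h2
  have hdeg0 : P 0 ≠ 0 → (P 0).natDegree < n := by
    intro hi
    have hmem : τ f ∈ Q.roots := by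
      rw [mem_roots hQm.ne_zero]
      exact hQroot
    obtain ⟨t, ht⟩ := Multiset.exists_cons_of_mem hmem
    have h1 := prod_coeff (vP F) t (by
      intro a ha
      have : a ∈ Q.roots := by rw [ht]; exact Multiset.mem_cons_of_mem ha
      rw [mem_roots hQm.ne_zero] at this
      exact hroot a this) 0
    have hct : t.card + 1 = n := by rw [← hcard, ht, Multiset.card_cons]
    have h2 : Q.coeff 0 = -(τ f * ((t.map fun a => X - C a).prod).coeff 0) := by
      conv_lhs => rw [hQs, ht]
      rw [Multiset.map_cons, Multiset.prod_cons, sub_mul, Polynomial.coeff_sub, coeff_X_mul_zero,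
        coeff_C_mul, zero_sub]
    have h3 : vP F (Q.coeff 0) = vP F (τ f) + vP F (((t.map fun a => X - C a).prod).coeff 0) := by
      rw [h2, AddValuation.map_neg, AddValuation.map_mul]
    rw [hcoeff, vP_poly_inf τ hτ _ hi] at h3
    have h4 : ((-1 : ℚ) : WithTop ℚ) + (((0 : ℕ) : ℚ) - t.card : ℚ) <
        vP F (τ f) + vP F (((t.map fun a => X - C a).prod).coeff 0) :=
      WithTop.add_lt_add_of_lt_of_le WithTop.coe_ne_top hτf h1
    rw [← h3, ← WithTop.coe_add, WithTop.coe_lt_coe] at h4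
    have h5 : ((P 0).natDegree : ℚ) < t.card + 1 := by
      push_cast at h4
      linarith
    have h6 : (P 0).natDegree < t.card + 1 := by exact_mod_cast h5
    omega
  -- the polynomial for `x`
  let gf := AdjoinSimple.gen F f
  let G : F⟮f⟯[X] := ∑ i ∈ Finset.range (n + 1), (P i).map (algebraMap F F⟮f⟯) * C (gf ^ i)
  have hGdeg : G.natDegree ≤ n - 1 := by
    apply natDegree_sum_le_of_forall_le
    intro i hi
    rw [Finset.mem_range] at hi
    by_cases h0 : P i = 0
    · rw [h0, Polynomial.map_zero, zero_mul, natDegree_zero]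
      exact Nat.zero_le _
    · refine (natDegree_mul_C_le _ _).trans ((natDegree_map_le).trans ?_)
      rcases Nat.eq_zero_or_pos i with h1 | h1
      · subst h1
        have := hdeg0 h0
        omega
      · have := hdeg i h0
        omega
  have hGcoeff : ∀ k, G.coeff k = aeval gf (∑ i ∈ Finset.range (n + 1), C ((P i).coeff k) * X ^ i) := by
    intro k
    simp only [G]
    rw [Polynomial.finsetSum_coeff, map_sum]
    apply Finset.sum_congr rfl
    intro i _
    rw [coeff_mul_C, coeff_map, map_mul, aeval_C, map_pow, aeval_X]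
  have hgft : Transcendental F gf := by
    intro h
    apply hfF
    exact h.algebraMap (A := E)
  have hG0 : G ≠ 0 := by
    intro h0
    have h1 := hGcoeff 0
    rw [h0, Polynomial.coeff_zero] at h1
    have h2 := (transcendental_iff.mp hgft) _ h1.symm
    have h3 := congrArg (fun q => q.coeff n) h2
    simp only [Polynomial.finsetSum_coeff, coeff_C_mul, coeff_X_pow, Polynomial.coeff_zero] at h3
    rw [Finset.sum_eq_single n, if_pos rfl, mul_one] at h3
    · have h4 := hP n
      rw [hn, hmon.coeff_natDegree, ← hn] at h4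
      have h5 : aeval x (P n) = aeval x (1 : F[X]) := by
        rw [← h4, map_one]
        rfl
      have h6 : P n = 1 := by
        rw [← sub_eq_zero]
        exact (transcendental_iff.mp hx) _ (by rw [map_sub, h5, sub_self])
      rw [h6, coeff_one_zero] at h3
      exact one_ne_zero h3
    · intro j _ hj
      rw [if_neg hj.symm, mul_zero]
    · intro h4
      exact absurd (Finset.mem_range.mpr (Nat.lt_succ_self n)) h4
  have hGx : aeval x G = 0 := by
    have h1 := minpoly.aeval F⟮x⟯ f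
    rw [aeval_eq_sum_range, ← hn] at h1
    simp only [G]
    rw [map_sum, ← h1]
    apply Finset.sum_congr rfl
    intro i _
    rw [map_mul, aeval_C, aeval_map_algebraMap, ← hP i, Algebra.smul_def, map_pow]
    rfl
  have hintx : IsIntegral F⟮f⟯ x := by
    have : IsAlgebraic F⟮f⟯ x := ⟨G, hG0, hGx⟩
    exact this.isIntegral
  have h1 : Module.finrank F⟮f⟯ F⟮f⟯⟮x⟯ ≤ n - 1 := by
    rw [adjoin.finrank hintx]
    exact (natDegree_le_natDegree (minpoly.degree_le_of_ne_zero F⟮f⟯ x hG0 hGx)).trans hGdeg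
  have h2 : Module.finrank F⟮x⟯ F⟮x⟯⟮f⟯ = n := adjoin.finrank hint
  have h3 : Module.finrank F⟮f⟯⟮x⟯ E = Module.finrank F⟮x⟯⟮f⟯ E := by
    have h4 : F⟮f⟯⟮x⟯.restrictScalars F = F⟮x⟯⟮f⟯.restrictScalars F :=
      adjoin_simple_comm F f x
    have h5 : Module.finrank (F⟮f⟯⟮x⟯.restrictScalars F) E =
        Module.finrank (F⟮x⟯⟮f⟯.restrictScalars F) E := by rw [h4]
    exact h5
  have h4 := Module.finrank_mul_finrank F⟮x⟯ F⟮x⟯⟮f⟯ E
  have h5 := Module.finrank_mul_finrank F⟮f⟯ F⟮f⟯⟮x⟯ E
  rw [h2] at h4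
  rw [h3] at h5
  have h6 : 0 < Module.finrank F⟮x⟯⟮f⟯ E := by
    have h7 : 0 < Module.finrank F⟮x⟯ E := Module.finrank_pos
    rw [← h4] at h7
    exact Nat.pos_of_mul_pos_left h7 |> fun h8 => by
      rcases Nat.eq_zero_or_pos (Module.finrank F⟮x⟯⟮f⟯ E) with h9 | h9
      · rw [h9, mul_zero] at h7
        exact absurd h7 (lt_irrefl 0)
      · exact h9
  rw [← h4, ← h5]
  apply Nat.mul_lt_mul_of_pos_right _ h6
  omega

/-- **Coordinates of minimal degree.** -/
theorem minimal_coord (S : Set E) (hfd : ∀ x : E, Transcendental F x → FiniteDimensional F⟮x⟯ E)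
    (x : E) (hx : Transcendental F x) (hVS : ∀ f ∈ VV (F := F) x 1, f ∈ S)
    (hmin : ∀ f ∈ S, Transcendental F f → Module.finrank F⟮x⟯ E ≤ Module.finrank F⟮f⟯ E) :
    ∀ w ∈ VV (F := F) x 1, ∃ c d : F, w = algebraMap F E c + algebraMap F E d * x := by
  intro w hw
  have hfx := hfd x hx
  obtain ⟨τ, hτ⟩ := exists_tau x hx tinv tinv_transcendental
  let d : F := (τ w : HQ F).coeff (-1)
  have hx1 : x ∈ VV (F := F) x 1 := by
    refine ⟨fun a σ hσ => by rw [hσ]; exact vP_fin_nonneg a, fun σ hσ => ?_⟩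
    rw [hσ, vP_tinv']
    simp
  have hf : w - d • x ∈ VV (F := F) x 1 := Submodule.sub_mem _ hw (Submodule.smul_mem _ d hx1)
  have hv : ((-1 : ℚ) : WithTop ℚ) < vP F (τ (w - d • x)) := by
    rw [vP_apply, lt_orderTop_iff]
    intro p hp
    have h1 : ((τ (w - d • x) : Pui F) : HQ F) = (τ w : HQ F) - HahnSeries.C d * single (-1) 1 := by
      rw [map_sub, Algebra.smul_def, map_mul, τ.commutes, hτ]
      change (τ w : HQ F) - ((algebraMap F (Pui F) d : Pui F) : HQ F) * single (-1) 1 = _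
      rw [coe_algebraMap_Pui]
    rw [h1, HahnSeries.coeff_sub, C_mul_eq_smul, HahnSeries.coeff_smul, coeff_single]
    rcases hp.lt_or_eq with h2 | h2
    · rw [if_neg h2.ne, smul_zero, sub_zero]
      have h3 := hw.2 τ hτ
      rw [vP_apply] at h3
      apply coeff_eq_zero_of_lt_orderTop
      refine lt_of_lt_of_le ?_ h3
      have h4 : p < -((1 : ℤ) : ℚ) := by push_cast; exact h2
      exact_mod_cast h4
    · rw [if_pos h2, h2, smul_eq_mul, mul_one]
      exact sub_self _
  by_cases hft : Transcendental F (w - d • x)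
  · have h1 := degree_drop x _ hx hf hft τ hτ hv
    have h2 := hmin _ (hVS _ hf) hft
    omega
  · have h1 : w - d • x ∈ Set.range (algebraMap F E) := by
      by_contra h
      exact hft (transc_of_notMem h)
    obtain ⟨c, hc⟩ := h1
    refine ⟨c, d, ?_⟩
    rw [hc, Algebra.smul_def]
    ring

end

end Pool.Agent.Zk18.Rr
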