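import Pool.Agent.Zk18.Rr8

/-!
# Rationality of derivations
-/

set_option autoImplicit false
set_option linter.unusedSectionVars false

attribute [-instance] HahnSeries.powerSeriesAlgebra

namespace Pool.Agent.Zk18.Rr

open HahnSeries hiding C
open Pool.Agent.Helper165.P1 Pool.Agent.Zk18 Pool.Agent.Zk18.Md Pool.Agent.Zk18.Fd Polynomial
  IntermediateField

section

variable {F E M : Type} [Field F] [CharZero F] [IsAlgClosed F] [Field E] [CharZero E] [Algebra F E]
  [Field M] [CharZero M] [Algebra F M] [Algebra E M] [IsScalarTower F E M]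

/-- restriction of places -/
noncomputable def rst (τ : M →ₐ[F] Pui F) : E →ₐ[F] Pui F :=
  τ.comp (IsScalarTower.toAlgHom F E M)

theorem rst_apply (τ : M →ₐ[F] Pui F) (w : E) : rst τ w = τ (algebraMap E M w) := rfl

theorem der_pow (Δ : M →+ M) (hΔ : ∀ a b, Δ (a * b) = Δ a * b + a * Δ b) (u : M) (n : ℕ) :
    Δ (u ^ (n + 1)) = ((n + 1 : ℕ) : M) * u ^ n * Δ u := by
  induction n with
  | zero => simp
  | succ n ih =>
    rw [pow_succ, hΔ, ih]
    push_cast
    ring

/-- elements regular everywhere are constant -/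
theorem const_of_regular (x : M) [Algebra.IsAlgebraic F⟮x⟯ M] (α : M)
    (h1 : ∀ (a : F) (τ : M →ₐ[F] Pui F), τ x = fin a → 0 ≤ vP F (τ α))
    (h2 : ∀ τ : M →ₐ[F] Pui F, τ x = tinv → 0 ≤ vP F (τ α)) : α ∈ Set.range (algebraMap F M) := by
  by_contra hno
  obtain ⟨j, hj, hjx⟩ := exists_place x α hno
  rcases hjx with ⟨a, ha⟩ | hjx
  · exact absurd hj (not_lt.mpr (h1 a j ha))
  · exact absurd hj (not_lt.mpr (h2 j hjx))

/-- the case of degree at least two -/
theorem zero_of_form (x : E) (hx : Transcendental F (algebraMap E M x))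
    [Algebra.IsAlgebraic F⟮algebraMap E M x⟯ M]
    (Δ : M →+ M) (hΔ : ∀ a b, Δ (a * b) = Δ a * b + a * Δ b)
    (hΔF : ∀ a : F, Δ (algebraMap F M a) = 0)
    (h3 : ∀ (τ : M →ₐ[F] Pui F) (w : E), 0 ≤ vP F (τ (algebraMap E M w)) →
      0 ≤ vP F (τ (Δ (algebraMap E M w))))
    (h4 : ∀ (τ : M →ₐ[F] Pui F), τ (algebraMap E M x) = tinv →
      ((-1 : ℚ) : WithTop ℚ) ≤ vP F (τ (Δ (algebraMap E M x))))
    (z : E) (hz0 : z ≠ 0)
    (hzf : ∀ (a : F) (τ : E →ₐ[F] Pui F), τ x = fin a → 0 < vP F (τ ((x - algebraMap F E a) * z)))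
    (hzi : ∀ τ : E →ₐ[F] Pui F, τ x = tinv → 0 < vP F (τ (x * z))) :
    Δ (algebraMap E M x) = 0 := by
  classical
  set X : M := algebraMap E M x with hX
  have hfin : ∀ (a : F) (τ : M →ₐ[F] Pui F), τ X = fin a →
      0 ≤ vP F (τ (algebraMap E M z * Δ X)) := by
    intro a τ hτ
    set u : E := (x - algebraMap F E a) * z with hu
    have hxa : τ (algebraMap E M (x - algebraMap F E a)) = uni := by
      rw [map_sub, ← hX, ← IsScalarTower.algebraMap_apply F E M, map_sub, hτ, τ.commutes, fin,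
        add_sub_cancel_left]
    have hxa0 : x - algebraMap F E a ≠ 0 := by
      intro h0
      rw [h0, map_zero, map_zero] at hxa
      exact uni_ne_zero hxa.symm
    have hu0 : u ≠ 0 := mul_ne_zero hxa0 hz0
    have huv : 0 < vP F (τ (algebraMap E M u)) := hzf a (rst τ) (by rw [rst_apply]; exact hτ)
    have hτu0 : τ (algebraMap E M u) ≠ 0 := by
      rw [ne_eq, map_eq_zero, map_eq_zero]
      exact hu0
    obtain ⟨ε, hε⟩ := val_exists (vP F) hτu0
    have hε0 : 0 < ε := by
      rw [hε] at huv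
      exact_mod_cast huv
    obtain ⟨P, hP⟩ : ∃ P : ℕ, ε.num = ((P + 1 : ℕ) : ℤ) := by
      have h5 : 0 < ε.num := Rat.num_pos.mpr hε0
      refine ⟨(ε.num - 1).toNat, ?_⟩
      push_cast
      rw [Int.toNat_of_nonneg (by omega)]
      ring
    obtain ⟨Q, hQ⟩ : ∃ Q : ℕ, ε.den = Q + 1 := ⟨ε.den - 1, by have := ε.den_pos; omega⟩
    have hεPQ : ((Q + 1 : ℕ) : ℚ) * ε = ((P + 1 : ℕ) : ℚ) := by
      have h5 := Rat.den_mul_eq_num ε
      rw [hQ, hP] at h5
      exact_mod_cast h5
    -- the unit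
    set U : E := u ^ (Q + 1) / (x - algebraMap F E a) ^ (P + 1) with hU
    have hUu : U * (x - algebraMap F E a) ^ (P + 1) = u ^ (Q + 1) := by
      rw [hU, div_mul_cancel₀]
      exact pow_ne_zero _ hxa0
    have hU0 : U ≠ 0 := by
      rw [hU]
      exact div_ne_zero (pow_ne_zero _ hu0) (pow_ne_zero _ hxa0)
    have hvU : vP F (τ (algebraMap E M U)) = 0 := by
      have h5 := congrArg (fun w => vP F (τ (algebraMap E M w))) hUu
      simp only [map_mul, map_pow] at h5
      rw [AddValuation.map_mul, hxa, val_pow (vP F) vP_uni, val_pow (vP F) hε, hεPQ, mul_one] at h5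
      have h6 : τ (algebraMap E M U) ≠ 0 := by
        rw [ne_eq, map_eq_zero, map_eq_zero]
        exact hU0
      obtain ⟨g, hg⟩ := val_exists (vP F) h6
      rw [hg, ← WithTop.coe_add, WithTop.coe_eq_coe] at h5
      rw [hg]
      have h7 : g = 0 := by linarith
      rw [h7]
      rfl
    have hdU := h3 τ U hvU.ge
    have hdu := h3 τ u (by rw [hε]; exact_mod_cast hε0.le)
    have hdxa : Δ (algebraMap E M (x - algebraMap F E a)) = Δ X := by
      rw [map_sub, ← IsScalarTower.algebraMap_apply F E M, map_sub, hΔF, sub_zero]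
    have hleib := congrArg (fun w => Δ (algebraMap E M w)) hUu
    simp only [map_mul, map_pow] at hleib
    rw [hΔ, der_pow Δ hΔ, der_pow Δ hΔ, hdxa] at hleib
    set xa : M := algebraMap E M (x - algebraMap F E a) with hxadef
    set uM : M := algebraMap E M u with huM
    set UM : M := algebraMap E M U with hUM
    by_cases hΔX : Δ X = 0
    · rw [hΔX, mul_zero, map_zero, AddValuation.map_zero]
      exact le_top
    have hne : τ (Δ X) ≠ 0 := by
      rw [ne_eq, map_eq_zero]
      exact hΔX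
    obtain ⟨g, hg⟩ := val_exists (vP F) hne
    -- valuations in the Leibniz identity
    have hcast : ∀ n : ℕ, vP F (τ ((n + 1 : ℕ) : M)) = 0 := by
      intro n
      have h5 : ((n + 1 : ℕ) : M) = algebraMap F M ((n + 1 : ℕ) : F) := by rw [map_natCast]
      rw [h5, τ.commutes]
      exact vP_algebraMap (by exact_mod_cast Nat.succ_ne_zero n)
    have hL : UM * (((P + 1 : ℕ) : M) * xa ^ P * Δ X) =
        ((Q + 1 : ℕ) : M) * uM ^ Q * Δ uM - Δ UM * xa ^ (P + 1) := by
      rw [← hleib]
      ring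
    have hLv := congrArg (fun w => vP F (τ w)) hL
    simp only [map_mul, map_pow, map_sub] at hLv
    rw [AddValuation.map_mul, AddValuation.map_mul, AddValuation.map_mul, hvU, hcast, hxa,
      val_pow (vP F) vP_uni, hg, zero_add, zero_add, ← WithTop.coe_add, mul_one] at hLv
    have hR : ((min ((Q : ℚ) * ε) ((P : ℚ) + 1) : ℚ) : WithTop ℚ) ≤
        vP F (τ ((Q + 1 : ℕ) : M) * τ uM ^ Q * τ (Δ uM) - τ (Δ UM) * uni ^ (P + 1)) := by
      refine le_trans ?_ (AddValuation.map_sub _ _ _)
      rw [WithTop.coe_min]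
      apply min_le_min
      · rw [AddValuation.map_mul, AddValuation.map_mul, hcast, val_pow (vP F) hε, zero_add]
        calc (((Q : ℚ) * ε : ℚ) : WithTop ℚ) = (((Q : ℚ) * ε : ℚ) : WithTop ℚ) + 0 :=
              (add_zero _).symm
          _ ≤ _ := by
            gcongr
      · rw [AddValuation.map_mul, val_pow (vP F) vP_uni]
        calc (((P : ℚ) + 1 : ℚ) : WithTop ℚ) = 0 + (((P : ℚ) + 1 : ℚ) : WithTop ℚ) :=
              (zero_add _).symm
          _ ≤ _ := by
            apply add_le_add hdU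
            rw [WithTop.coe_le_coe]
            push_cast
            linarith
    rw [← hLv, WithTop.coe_le_coe] at hR
    have hzv : vP F (τ (algebraMap E M z)) = ((ε - 1 : ℚ) : WithTop ℚ) := by
      have h5 : τ uM = τ xa * τ (algebraMap E M z) := by
        rw [huM, hu, map_mul, map_mul]
      have h6 := hε
      rw [h5, AddValuation.map_mul, hxa, vP_uni] at h6
      have h7 : τ (algebraMap E M z) ≠ 0 := by
        rw [ne_eq, map_eq_zero, map_eq_zero]
        exact hz0
      obtain ⟨k, hk⟩ := val_exists (vP F) h7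
      rw [hk, ← WithTop.coe_add, WithTop.coe_eq_coe] at h6
      rw [hk, WithTop.coe_eq_coe]
      linarith
    rw [map_mul, AddValuation.map_mul, hzv, hg, ← WithTop.coe_add]
    have hfinal : 0 ≤ ε - 1 + g := by
      push_cast at hεPQ
      rcases min_le_iff.mp hR with h5 | h5
      · linarith
      · linarith
    exact_mod_cast hfinal
  have hinf : ∀ τ : M →ₐ[F] Pui F, τ X = tinv → 0 < vP F (τ (algebraMap E M z * Δ X)) := by
    intro τ hτ
    have h5 := hzi (rst τ) (by rw [rst_apply]; exact hτ)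
    rw [rst_apply, map_mul, map_mul, AddValuation.map_mul, ← hX, hτ, vP_tinv'] at h5
    have h6 := h4 τ hτ
    rw [map_mul, AddValuation.map_mul, add_comm]
    calc (0 : WithTop ℚ) < ((-1 : ℚ) : WithTop ℚ) + vP F (τ (algebraMap E M z)) := h5
      _ ≤ _ := by gcongr
  obtain ⟨c, hc⟩ := const_of_regular X _ hfin fun τ hτ => (hinf τ hτ).le
  obtain ⟨τ, hτ⟩ := exists_tau X hx tinv tinv_transcendental
  have h5 := hinf τ hτ
  rw [← hc, τ.commutes] at h5
  have hc0 : c = 0 := by
    by_contra h6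
    rw [vP_algebraMap h6] at h5
    exact lt_irrefl _ h5
  rw [hc0, map_zero] at hc
  rcases mul_eq_zero.mp hc.symm with h6 | h6
  · exact absurd ((map_eq_zero _).mp h6) hz0
  · exact h6

end

end Pool.Agent.Zk18.Rr
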