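import Pool.Agent.Zk18.Rig

/-!
# Evaluation of Laurent series on circles of arbitrary radius
-/

set_option autoImplicit false

attribute [-instance] HahnSeries.powerSeriesAlgebra

namespace Pool.Agent.Zk18

open HahnSeries Pool.Agent.Helper165.P1 TensorProduct
open scoped LaurentPolynomial

section tw

variable {K : Type} [Field K]

theorem CT_ne_zero {k : K} (n : ℤ) :
    LaurentPolynomial.C k * LaurentPolynomial.T n ≠ 0 ↔ k ≠ 0 := by
  rw [not_iff_not]
  constructor
  · intro h
    have h1 : (AddMonoidAlgebra.single n k : K[T;T⁻¹]).coeff n = 0 := by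
      rw [LaurentPolynomial.single_eq_C_mul_T, h]
      rfl
    rwa [AddMonoidAlgebra.coeff_single, Finsupp.single_eq_same] at h1
  · rintro rfl
    rw [map_zero, zero_mul]

/-- `∑ x_n π ^ n ↦ ∑ x_n T ^ n π ^ n` -/
noncomputable def twFun (x : HahnSeries ℤ K) : HahnSeries ℤ K[T;T⁻¹] where
  coeff n := LaurentPolynomial.C (x.coeff n) * LaurentPolynomial.T n
  isPWO_support' := x.isPWO_support.mono fun n hn => (CT_ne_zero n).mp hn

theorem twFun_coeff (x : HahnSeries ℤ K) (n : ℤ) :
    (twFun x).coeff n = LaurentPolynomial.C (x.coeff n) * LaurentPolynomial.T n := rfl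

theorem twFun_support (x : HahnSeries ℤ K) : (twFun x).support = x.support := by
  ext n
  rw [mem_support, mem_support, twFun_coeff]
  exact CT_ne_zero n

/-- `∑ x_n π ^ n ↦ ∑ x_n T ^ n π ^ n` -/
noncomputable def tw : HahnSeries ℤ K →+* HahnSeries ℤ K[T;T⁻¹] where
  toFun := twFun
  map_one' := by
    ext1
    funext n
    rw [twFun_coeff, coeff_one, coeff_one]
    split_ifs with h
    · rw [h, map_one, one_mul, LaurentPolynomial.T_zero]
    · rw [map_zero, zero_mul]
  map_zero' := by
    ext1
    funext n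
    rw [twFun_coeff, HahnSeries.coeff_zero, HahnSeries.coeff_zero, map_zero, zero_mul]
  map_add' x y := by
    ext1
    funext n
    rw [HahnSeries.coeff_add, twFun_coeff, twFun_coeff, twFun_coeff, HahnSeries.coeff_add, map_add,
      add_mul]
  map_mul' x y := by
    ext1
    funext n
    rw [twFun_coeff, coeff_mul, coeff_mul, map_sum, Finset.sum_mul]
    apply Finset.sum_congr
    · ext ij
      simp only [Finset.mem_antidiagonal]
      rw [twFun_support, twFun_support]
    · intro ij hij
      rw [twFun_coeff, twFun_coeff, map_mul]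
      have h1 : ij.1 + ij.2 = n := by
        rw [Finset.mem_antidiagonal] at hij
        exact hij.2.2
      rw [← h1, LaurentPolynomial.T_add]
      ring

theorem tw_coeff (x : HahnSeries ℤ K) (n : ℤ) :
    (tw x).coeff n = LaurentPolynomial.C (x.coeff n) * LaurentPolynomial.T n := rfl

/-- multiplication by `r` from the integers to the rationals -/
noncomputable def mulHom (r : ℚ) : ℤ →+ ℚ where
  toFun n := r * n
  map_zero' := by simp
  map_add' a b := by push_cast; ring

theorem mulHom_injective {r : ℚ} (hr : 0 < r) : Function.Injective (mulHom r) := by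
  intro a b h
  have h1 : r * a = r * b := h
  exact_mod_cast mul_left_cancel₀ hr.ne' h1

theorem mulHom_le {r : ℚ} (hr : 0 < r) (a b : ℤ) : mulHom r a ≤ mulHom r b ↔ a ≤ b := by
  change r * (a : ℚ) ≤ r * (b : ℚ) ↔ a ≤ b
  rw [mul_le_mul_iff_right₀ hr]
  exact_mod_cast Iff.rfl

/-- change of the variable `π = t ^ r` -/
noncomputable def emb {R : Type*} [CommRing R] (r : ℚ) (hr : 0 < r) :
    HahnSeries ℤ R →+* HahnSeries ℚ R :=
  embDomainRingHom (mulHom r) (mulHom_injective hr) (mulHom_le hr)

theorem emb_coeff {R : Type*} [CommRing R] (r : ℚ) (hr : 0 < r) (x : HahnSeries ℤ R) (n : ℤ) :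
    (emb r hr x).coeff (r * n) = x.coeff n := by
  unfold emb
  rw [embDomainRingHom_apply]
  exact embDomain_coeff (a := n)

theorem emb_coeff_of_ne {R : Type*} [CommRing R] (r : ℚ) (hr : 0 < r) (x : HahnSeries ℤ R) (q : ℚ)
    (h : ∀ n : ℤ, r * n ≠ q) : (emb r hr x).coeff q = 0 := by
  unfold emb
  rw [embDomainRingHom_apply]
  apply embDomain_of_notMem_range
  rintro ⟨a, ha⟩
  exact h a ha

/-- evaluation of Laurent series at `T t ^ r` -/
noncomputable def evr (r : ℚ) (hr : 0 < r) : HahnSeries ℤ K →+* HahnSeries ℚ K[T;T⁻¹] :=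
  (emb r hr).comp tw

theorem evr_C (r : ℚ) (hr : 0 < r) (k : K) :
    evr r hr (C k) = C (algebraMap K K[T;T⁻¹] k) := by
  have h1 : tw (C k) = C (algebraMap K K[T;T⁻¹] k) := by
    ext n
    rw [tw_coeff, C_apply, C_apply, coeff_single, coeff_single]
    split_ifs with h
    · rw [h, LaurentPolynomial.T_zero, mul_one]
      rfl
    · rw [map_zero, zero_mul]
  unfold evr
  rw [RingHom.comp_apply, h1]
  unfold emb
  exact embDomainRingHom_C

theorem evr_orderTop (r : ℚ) (hr : 0 < r) (x : HahnSeries ℤ K) (n₀ : ℤ)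
    (h : ∀ n < n₀, x.coeff n = 0) : ((r * n₀ : ℚ) : WithTop ℚ) ≤ (evr r hr x).orderTop := by
  rw [le_orderTop_iff]
  intro p hp
  rw [WithTop.coe_lt_coe] at hp
  change (emb r hr (tw x)).coeff p = 0
  by_cases h1 : ∃ n : ℤ, r * n = p
  · obtain ⟨n, rfl⟩ := h1
    rw [emb_coeff, tw_coeff, h n, map_zero, zero_mul]
    have h2 : (n : ℚ) < n₀ := lt_of_mul_lt_mul_left hp hr.le
    exact_mod_cast h2
  · push Not at h1
    exact emb_coeff_of_ne r hr _ p h1

/-- the part of degree `n` in `T` -/
noncomputable def part (n : ℤ) (s : HahnSeries ℚ K[T;T⁻¹]) : HahnSeries ℚ K where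
  coeff q := (s.coeff q).coeff n
  isPWO_support' := s.isPWO_support.mono (by
    intro q hq h
    apply hq
    change (s.coeff q).coeff n = 0
    have h1 : s.coeff q = 0 := h
    rw [h1]
    rfl)

theorem part_coeff (n : ℤ) (s : HahnSeries ℚ K[T;T⁻¹]) (q : ℚ) :
    (part n s).coeff q = (s.coeff q).coeff n := rfl

theorem part_add (n : ℤ) (s s' : HahnSeries ℚ K[T;T⁻¹]) :
    part n (s + s') = part n s + part n s' := by
  ext q
  rfl

theorem part_zero (n : ℤ) : part n (0 : HahnSeries ℚ K[T;T⁻¹]) = 0 := by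
  ext q
  rfl

theorem orderTop_le_part (n : ℤ) (s : HahnSeries ℚ K[T;T⁻¹]) :
    s.orderTop ≤ (part n s).orderTop := by
  rw [le_orderTop_iff]
  intro p hp
  rw [part_coeff, coeff_eq_zero_of_lt_orderTop hp]
  rfl

theorem part_mul (n : ℤ) (s : HahnSeries ℚ K[T;T⁻¹]) (β : HahnSeries ℚ K) :
    part n (s * mapR (algebraMap K K[T;T⁻¹]) β) = part n s * β := by
  ext q
  rw [part_coeff, coeff_mul, coeff_mul_left' (x := part n s) s.isPWO_support (by
    intro q hq h
    apply hq
    rw [part_coeff, h]
    rfl)]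
  rw [AddMonoidAlgebra.coeff_sum, Finsupp.finsetSum_apply]
  apply Finset.sum_congr
  · ext ij
    simp only [Finset.mem_antidiagonal]
    have h1 : (mapR (algebraMap K K[T;T⁻¹]) β).support = β.support := by
      ext q
      rw [mem_support, mem_support, mapR_coeff]
      exact (map_ne_zero_iff _ (algebraMap K K[T;T⁻¹]).injective)
    rw [h1]
  · intro ij _
    rw [part_coeff, mapR_coeff, mul_comm, ← Algebra.smul_def, mul_comm]
    rfl

theorem part_evr (n : ℤ) (r : ℚ) (hr : 0 < r) (x : HahnSeries ℤ K) :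
    part n (evr r hr x) = single (r * n) (x.coeff n) := by
  ext q
  rw [part_coeff]
  change ((emb r hr (tw x)).coeff q).coeff n = _
  by_cases h1 : ∃ m : ℤ, r * m = q
  · obtain ⟨m, rfl⟩ := h1
    rw [emb_coeff, tw_coeff, ← LaurentPolynomial.single_eq_C_mul_T, AddMonoidAlgebra.coeff_single,
      Finsupp.single_apply, coeff_single]
    by_cases hmn : m = n
    · subst hmn
      rw [if_pos rfl, if_pos rfl]
    · rw [if_neg hmn, if_neg]
      intro h
      apply hmn
      have := mul_left_cancel₀ hr.ne' h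
      exact_mod_cast this
  · push Not at h1
    rw [emb_coeff_of_ne r hr _ q h1, coeff_single, if_neg]
    · rfl
    · intro h
      exact h1 n h.symm

end tw

section ten

variable {K L : Type} [Field K] [Field L] [Algebra K L]

/-- coefficientwise inclusion of Laurent series -/
noncomputable def mapZ : HahnSeries ℤ K →+* HahnSeries ℤ L where
  toFun x := x.map (algebraMap K L)
  map_one' := by
    ext q
    simp only [HahnSeries.map_coeff, HahnSeries.coeff_one]
    split_ifs <;> simp
  map_mul' x y := HahnSeries.map_mul ((algebraMap K L) : K →ₙ+* L)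
  map_zero' := by ext; simp
  map_add' x y := by ext; simp

theorem mapZ_coeff (x : HahnSeries ℤ K) (n : ℤ) :
    ((mapZ x : HahnSeries ℤ L)).coeff n = algebraMap K L (x.coeff n) := rfl

theorem mapZ_C (k : K) : (mapZ (C k) : HahnSeries ℤ L) = C (algebraMap K L k) := by
  ext n
  rw [mapZ_coeff, C_apply, C_apply, coeff_single, coeff_single]
  split_ifs <;> simp

variable (K L) in
/-- `∑ x_i ⊗ b_i ↦ ∑ x_i b_i` -/
noncomputable def J : HahnSeries ℤ K ⊗[K] L →ₐ[K] HahnSeries ℤ L :=
  Algebra.TensorProduct.productMap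
    { (mapZ : HahnSeries ℤ K →+* HahnSeries ℤ L) with
      commutes' := fun k => by
        change mapZ (algebraMap K (HahnSeries ℤ K) k) = _
        rw [HahnSeries.algebraMap_apply, HahnSeries.algebraMap_apply]
        exact mapZ_C k }
    { (C : L →+* HahnSeries ℤ L) with
      commutes' := fun k => by
        change C (algebraMap K L k) = _
        rw [HahnSeries.algebraMap_apply] }

theorem J_tmul (x : HahnSeries ℤ K) (l : L) : J K L (x ⊗ₜ[K] l) = mapZ x * C l := by
  unfold J
  rw [Algebra.TensorProduct.productMap_apply_tmul]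
  rfl

theorem J_tmul_coeff (x : HahnSeries ℤ K) (l : L) (n : ℤ) :
    (J K L (x ⊗ₜ[K] l)).coeff n = x.coeff n • l := by
  rw [J_tmul, C_apply, coeff_mul_single_zero, mapZ_coeff, Algebra.smul_def]

theorem J_injective : Function.Injective (J K L) := by
  classical
  rw [injective_iff_map_eq_zero]
  intro z hz
  let b := Module.Basis.ofVectorSpace K L
  obtain ⟨c, rfl⟩ := (TensorProduct.equivFinsuppOfBasisRight b).symm.surjective z
  rw [TensorProduct.equivFinsuppOfBasisRight_symm_apply] at hz ⊢
  have h1 : ∀ n : ℤ, c.sum (fun i x => x.coeff n • b i) = 0 := by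
    intro n
    have h2 := congrArg (fun y : HahnSeries ℤ L => y.coeff n) hz
    simp only [Finsupp.sum, map_sum, HahnSeries.coeff_sum, J_tmul_coeff,
      HahnSeries.coeff_zero] at h2
    exact h2
  have h3 : c = 0 := by
    ext i n
    have h4 := (linearIndependent_iff'.mp b.linearIndependent) c.support
      (fun i => (c i).coeff n) (h1 n)
    by_cases hi : i ∈ c.support
    · exact h4 i hi
    · rw [Finsupp.notMem_support_iff.mp hi]
      rfl
  rw [h3, Finsupp.sum_zero_index]

variable (θ : L →ₐ[K] Pui K)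

/-- evaluation of tensors -/
noncomputable def evT (r : ℚ) (hr : 0 < r) : HahnSeries ℤ K ⊗[K] L →ₐ[K] HahnSeries ℚ K[T;T⁻¹] :=
  Algebra.TensorProduct.productMap
    { (evr r hr : HahnSeries ℤ K →+* HahnSeries ℚ K[T;T⁻¹]) with
      commutes' := fun k => by
        change evr r hr (algebraMap K (HahnSeries ℤ K) k) = _
        rw [HahnSeries.algebraMap_apply, HahnSeries.algebraMap_apply]
        exact evr_C r hr k }
    { iot.comp (θ : L →+* Pui K) with
      commutes' := fun k => by
        change iot (θ (algebraMap K L k)) = _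
        rw [θ.commutes, iot_algebraMap, HahnSeries.algebraMap_apply] }

theorem evT_tmul (r : ℚ) (hr : 0 < r) (x : HahnSeries ℤ K) (l : L) :
    evT θ r hr (x ⊗ₜ[K] l) = evr r hr x * iot (θ l) := by
  unfold evT
  rw [Algebra.TensorProduct.productMap_apply_tmul]
  rfl

theorem part_evT (r : ℚ) (hr : 0 < r) (n : ℤ) (z : HahnSeries ℤ K ⊗[K] L) :
    part n (evT θ r hr z) = single (r * n) 1 * ((θ ((J K L z).coeff n) : Pui K) : HQ K) := by
  induction z using TensorProduct.induction_on with
  | zero => simp [part_zero]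
  | add z z' h h' =>
    rw [map_add, part_add, h, h', map_add, HahnSeries.coeff_add, map_add, Subfield.coe_add]
    ring
  | tmul x l =>
    rw [evT_tmul, J_tmul_coeff]
    change part n (evr r hr x * mapR (algebraMap K K[T;T⁻¹]) ((θ l : Pui K) : HQ K)) = _
    rw [part_mul, part_evr, Algebra.smul_def, map_mul, θ.commutes, Subfield.coe_mul,
      coe_algebraMap_Pui, ← mul_assoc]
    congr 1
    rw [C_apply, single_mul_single, add_zero, one_mul]

/-- **Upper bound for the order.** -/
theorem evT_orderTop_le (r : ℚ) (hr : 0 < r) (n : ℤ) (z : HahnSeries ℤ K ⊗[K] L) :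
    (evT θ r hr z).orderTop ≤ ((r * n : ℚ) : WithTop ℚ) + vP K (θ ((J K L z).coeff n)) := by
  refine (orderTop_le_part n _).trans ?_
  rw [part_evT, orderTop_mul, orderTop_single one_ne_zero, vP_apply]

end ten

end Pool.Agent.Zk18
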