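import Mathlib

/-!
# Ultrapowers of fields
-/

set_option autoImplicit false

namespace Pool.Agent.Zk18

open Filter Polynomial
open scoped LaurentPolynomial

section ultra

variable (U : Ultrafilter ℕ) (k : Type) [Field k]

/-- the ultrapower -/
abbrev Ult : Type := Germ (U : Filter ℕ) k

/-- classes of sequences -/
noncomputable def gm : (ℕ → k) →+* Ult U k := Germ.coeRingHom (U : Filter ℕ)

variable {U k}

theorem gm_eq (f g : ℕ → k) : gm U k f = gm U k g ↔ ∀ᶠ c in (U : Filter ℕ), f c = g c :=
  Germ.coe_eq

theorem gm_zero (f : ℕ → k) : gm U k f = 0 ↔ ∀ᶠ c in (U : Filter ℕ), f c = 0 := by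
  rw [← map_zero (gm U k), gm_eq]
  rfl

theorem gm_surj (x : Ult U k) : ∃ f, gm U k f = x := by
  induction x using Germ.inductionOn with
  | h f => exact ⟨f, rfl⟩

theorem gm_zpow (f : ℕ → k) (n : ℤ) : gm U k (fun c => f c ^ n) = (gm U k f) ^ n :=
  Germ.coe_pow f n

/-- evaluation at an index -/
def evc (k : Type) [Field k] (c : ℕ) : (ℕ → k) →+* k := Pi.evalRingHom (fun _ => k) c

theorem evc_apply (c : ℕ) (f : ℕ → k) : evc k c f = f c := rfl

instance [CharZero k] : CharZero (Ult U k) := by
  have h : Function.Injective ((gm U k).comp (Pi.constRingHom ℕ k)) := RingHom.injective _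
  exact charZero_of_injective_ringHom h

instance [IsAlgClosed k] : IsAlgClosed (Ult U k) := by
  apply IsAlgClosed.of_exists_root
  intro p hp hirr
  have hlift : p ∈ Polynomial.lifts (gm U k) := by
    rw [Polynomial.lifts_iff_coeff_lifts]
    intro n
    obtain ⟨f, hf⟩ := gm_surj (p.coeff n)
    exact ⟨f, hf⟩
  obtain ⟨q, hq, hqd, hqm⟩ := Polynomial.lifts_and_natDegree_eq_and_monic hlift hp
  have hpd : p.natDegree ≠ 0 := by
    have := hirr.natDegree_pos
    omega
  have h1 : ∀ c, ∃ x, (q.map (evc k c)).eval x = 0 := by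
    intro c
    apply IsAlgClosed.exists_root
    rw [degree_eq_natDegree (hqm.map _).ne_zero, hqm.natDegree_map, hqd]
    exact_mod_cast hpd
  choose x hx using h1
  refine ⟨gm U k x, ?_⟩
  rw [← hq, eval_map, eval₂_at_apply, gm_zero]
  filter_upwards with c
  have h2 := hx c
  have h3 : x c = evc k c x := rfl
  rw [h3, eval_map, eval₂_at_apply] at h2
  exact h2

/-- the inclusion of ultrapowers -/
noncomputable def inc (U : Ultrafilter ℕ) {k l : Type} [Field k] [Field l] (φ : k →+* l) :
    Ult U k →+* Ult U l where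
  toFun := Germ.map φ
  map_one' := by
    change gm U l (fun c => φ ((1 : ℕ → k) c)) = 1
    rw [← map_one (gm U l)]
    congr 1
    funext c
    exact map_one φ
  map_zero' := by
    change gm U l (fun c => φ ((0 : ℕ → k) c)) = 0
    rw [← map_zero (gm U l)]
    congr 1
    funext c
    exact map_zero φ
  map_add' x y := by
    obtain ⟨f, rfl⟩ := gm_surj x
    obtain ⟨g, rfl⟩ := gm_surj y
    rw [← map_add]
    change gm U l (fun c => φ ((f + g) c)) = gm U l (fun c => φ (f c)) + gm U l (fun c => φ (g c))
    rw [← map_add]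
    congr 1
    funext c
    exact map_add φ _ _
  map_mul' x y := by
    obtain ⟨f, rfl⟩ := gm_surj x
    obtain ⟨g, rfl⟩ := gm_surj y
    rw [← map_mul]
    change gm U l (fun c => φ ((f * g) c)) = gm U l (fun c => φ (f c)) * gm U l (fun c => φ (g c))
    rw [← map_mul]
    congr 1
    funext c
    exact map_mul φ _ _

theorem inc_gm {l : Type} [Field l] (φ : k →+* l) (f : ℕ → k) :
    inc U φ (gm U k f) = gm U l (fun c => φ (f c)) := rfl

end ultra

/-- Countable algebraically closed subfields. -/
theorem exists_countable_subfield {F : Type} [Field F] [IsAlgClosed F] (s : Set F)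
    (hs : s.Countable) : ∃ F₁ : Subfield F, s ⊆ F₁ ∧ Countable F₁ ∧ IsAlgClosed F₁ := by
  have hE : Countable (Subfield.closure s) := by
    rw [← Cardinal.mk_le_aleph0_iff]
    refine (Subfield.cardinalMk_closure_le_max s).trans ?_
    exact max_le (Cardinal.le_aleph0_iff_set_countable.mpr hs) le_rfl
  let E := Subfield.closure s
  have hal : IsAlgClosure E (algebraicClosure E F) := inferInstance
  have hcl : IsAlgClosed (algebraicClosure E F) := hal.isAlgClosed
  have hc : Countable (algebraicClosure E F) := by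
    rw [← Cardinal.mk_le_aleph0_iff]
    have halg : Algebra.IsAlgebraic E (algebraicClosure E F) := hal.isAlgebraic
    refine (Algebra.IsAlgebraic.cardinalMk_le_max E (algebraicClosure E F)).trans ?_
    exact max_le (Cardinal.mk_le_aleph0_iff.mpr hE) le_rfl
  refine ⟨(algebraicClosure E F).toSubfield, ?_, hc, hcl⟩
  intro x hx
  exact (algebraicClosure E F).algebraMap_mem ⟨x, Subfield.subset_closure hx⟩

end Pool.Agent.Zk18
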