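import Pool.Agent.Zk18.Gen
import Pool.Agent.Zk18.Ul1

/-!
# Uniformity
-/

set_option autoImplicit false

attribute [-instance] HahnSeries.powerSeriesAlgebra

namespace Pool.Agent.Zk18

open Filter
open scoped LaurentPolynomial

section seq

variable {k : Type} [Field k]

/-- exponents bounded by `D` -/
noncomputable def box (D : ℕ) : Finset (Fin 2 →₀ ℕ) :=
  Finset.Iic (Finsupp.equivFunOnFinite.symm (fun _ => D))

theorem mem_box (D : ℕ) (m : Fin 2 →₀ ℕ) : m ∈ box D ↔ ∀ i, m i ≤ D := by
  unfold box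
  rw [Finset.mem_Iic]
  rfl

theorem coeff_eq_zero_of_notMem_box {P : MvPolynomial (Fin 2) k} {D : ℕ}
    (hP : P.totalDegree ≤ D) {m : Fin 2 →₀ ℕ} (hm : m ∉ box D) : P.coeff m = 0 := by
  by_contra h
  apply hm
  rw [mem_box]
  intro i
  have h1 := MvPolynomial.le_totalDegree (MvPolynomial.mem_support_iff.mpr h)
  have h2 : (m.sum fun _ e => e) = m.degree := rfl
  have h3 : m i ≤ m.degree := Finsupp.le_degree i m
  omega

/-- a sequence of polynomials as a polynomial over sequences -/
noncomputable def hatP (P : ℕ → MvPolynomial (Fin 2) k) (D : ℕ) :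
    MvPolynomial (Fin 2) (ℕ → k) :=
  ∑ m ∈ box D, MvPolynomial.monomial m (fun c => (P c).coeff m)

theorem map_hatP (P : ℕ → MvPolynomial (Fin 2) k) (D : ℕ) (hP : ∀ c, (P c).totalDegree ≤ D)
    (c : ℕ) : MvPolynomial.map (evc k c) (hatP P D) = P c := by
  classical
  ext m
  rw [hatP, map_sum, MvPolynomial.coeff_sum]
  simp only [MvPolynomial.map_monomial, MvPolynomial.coeff_monomial, evc_apply]
  rw [Finset.sum_ite_eq']
  split_ifs with h
  · rfl
  · exact (coeff_eq_zero_of_notMem_box (hP c) h).symm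

theorem coeff_hatP (P : ℕ → MvPolynomial (Fin 2) k) (D : ℕ) (hP : ∀ c, (P c).totalDegree ≤ D)
    (m : Fin 2 →₀ ℕ) (c : ℕ) : (hatP P D).coeff m c = (P c).coeff m := by
  rw [← map_hatP P D hP c, MvPolynomial.coeff_map]
  rfl

/-- image of Laurent polynomials under a surjective homomorphism -/
theorem lift_laurent {R S : Type} [CommRing R] [CommRing S] (φ : R →+* S)
    (hφ : Function.Surjective φ) (z : S[T;T⁻¹]) :
    ∃ y : R[T;T⁻¹], AddMonoidAlgebra.mapRingHom ℤ φ y = z := by
  classical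
  choose ψ hψ using hφ
  refine ⟨∑ n ∈ z.coeff.support, AddMonoidAlgebra.single n (ψ (z.coeff n)), ?_⟩
  rw [map_sum]
  ext n
  rw [AddMonoidAlgebra.coeff_sum, Finsupp.finsetSum_apply]
  simp only [AddMonoidAlgebra.coeff_mapRingHom, AddMonoidAlgebra.coeff_single,
    Finsupp.single_apply, apply_ite φ, map_zero, hψ]
  rw [Finset.sum_ite_eq']
  split_ifs with h
  · rfl
  · exact (Finsupp.notMem_support_iff.mp h).symm

theorem hom_aeval {R S : Type} [CommRing R] [CommRing S] {R' S' : Type} [CommRing R']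
    [CommRing S'] [Algebra R R'] [Algebra S S'] (φ : R →+* S) (ψ : R' →+* S')
    (h : ψ.comp (algebraMap R R') = (algebraMap S S').comp φ) (f : Fin 2 → R')
    (P : MvPolynomial (Fin 2) R) :
    ψ (MvPolynomial.aeval f P) = MvPolynomial.aeval (fun i => ψ (f i)) (MvPolynomial.map φ P) := by
  rw [MvPolynomial.aeval_def, MvPolynomial.aeval_def, MvPolynomial.eval₂_map,
    MvPolynomial.hom_eval₂, h]

end seq

section main

variable {k 𝕃 : Type} [Field k] [Field 𝕃] [Algebra k 𝕃]

/-- The curve `P = 0` has no nonconstant polynomial points. -/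
def NoPoly (P : MvPolynomial (Fin 2) k) : Prop :=
  ∀ f : Fin 2 → Polynomial k, MvPolynomial.aeval f P = 0 →
    ∀ i, f i ∈ Set.range (algebraMap k (Polynomial k))

/-- The curve `P = 0` has a Laurent point `f` such that all `τ ^ e`, `e` an exponent of `f`, are in
`V` for some transcendental `τ`. -/
def HasLaurent (P : MvPolynomial (Fin 2) k) (V : Submodule k 𝕃) : Prop :=
  ∃ f : Fin 2 → k[T;T⁻¹], MvPolynomial.aeval f P = 0 ∧
    (∃ i, f i ∉ Set.range (algebraMap k k[T;T⁻¹])) ∧
    ∃ τ : 𝕃, τ ∉ Set.range (algebraMap k 𝕃) ∧ ∀ i e, (f i).coeff e ≠ 0 → τ ^ e ∈ V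

theorem eventually_ge_hyper (r : ℕ) : ∀ᶠ c in (hyperfilter ℕ : Filter ℕ), r ≤ c :=
  Nat.hyperfilter_le_atTop (eventually_ge_atTop r)

theorem coeff_zero_of_map {R : Type} [CommRing R] (Z : R[T;T⁻¹]) {S : Type} [CommRing S]
    (φ : R →+* S) (h : ∀ n ∈ Z.coeff.support, φ (Z.coeff n) = 0) :
    AddMonoidAlgebra.mapRingHom ℤ φ Z = 0 := by
  ext n
  rw [AddMonoidAlgebra.coeff_mapRingHom]
  by_cases hn : n ∈ Z.coeff.support
  · exact h n hn
  · rw [Finsupp.notMem_support_iff.mp hn, map_zero]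
    rfl

theorem uniform [IsAlgClosed k] [CharZero k] (m D : ℕ) : ∃ c : ℕ, ∀ b : Fin (m + 1) → 𝕃,
    LinearIndependent k b → b 0 = 1 →
    ∀ P : MvPolynomial (Fin 2) k, P ≠ 0 → P.totalDegree ≤ D → NoPoly P →
    (∀ S : Finset (Fin 2 → Fin (m + 1) → k),
      (∀ σ ∈ S, MvPolynomial.aeval (fun i => ∑ j, σ i j • b j) P = 0 ∧
        ∃ i j, j ≠ 0 ∧ σ i j ≠ 0) → S.card ≤ c) ∨
    HasLaurent P (Submodule.span k (Set.range b)) := by
  classical
  by_contra hno
  push Not at hno
  choose b hb hb0 P hP hPd hPN hS hL using hno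
  choose S hS hSc using hS
  set U : Ultrafilter ℕ := hyperfilter ℕ with hU
  let ι : Ult U k →+* Ult U 𝕃 := inc U (algebraMap k 𝕃)
  -- the points
  let pt : ℕ → ℕ → (Fin 2 → Fin (m + 1) → k) := fun c r =>
    if h : r < (S c).card then ((S c).equivFin.symm ⟨r, h⟩ : S c).1 else 0
  have hpt : ∀ c r, r ≤ c → pt c r ∈ S c := by
    intro c r hr
    have h : r < (S c).card := hr.trans_lt (hSc c)
    simp only [pt]
    rw [dif_pos h]
    exact ((S c).equivFin.symm ⟨r, h⟩ : S c).2
  have hptne : ∀ c r r', r ≤ c → r' ≤ c → pt c r = pt c r' → r = r' := by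
    intro c r r' hr hr' heq
    have h : r < (S c).card := hr.trans_lt (hSc c)
    have h' : r' < (S c).card := hr'.trans_lt (hSc c)
    simp only [pt] at heq
    rw [dif_pos h, dif_pos h'] at heq
    have h2 := (S c).equivFin.symm.injective (Subtype.ext heq)
    exact congrArg Fin.val h2
  let σ : ℕ → Fin 2 → Fin (m + 1) → Ult U k := fun r i j => gm U k (fun c => pt c r i j)
  let bs : Fin (m + 1) → Ult U 𝕃 := fun j => gm U 𝕃 (fun c => b c j)
  -- sums
  have hsum : ∀ d : Fin (m + 1) → ℕ → k, ∑ j, ι (gm U k (d j)) * bs j =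
      gm U 𝕃 (fun c => ∑ j, d j c • b c j) := by
    intro d
    have h1 : (fun c => ∑ j, d j c • b c j) =
        ∑ j, ((fun c => algebraMap k 𝕃 (d j c)) * (fun c => b c j) : ℕ → 𝕃) := by
      funext c
      rw [Finset.sum_apply]
      apply Finset.sum_congr rfl
      intro j _
      rw [Pi.mul_apply, Algebra.smul_def]
    rw [h1, map_sum]
    apply Finset.sum_congr rfl
    intro j _
    rw [map_mul]
    rfl
  have hlin : ∀ d : Fin (m + 1) → Ult U k, ∑ j, ι (d j) * bs j = 0 → ∀ j, d j = 0 := by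
    intro d hd j
    choose d' hd' using fun j => gm_surj (d j)
    have h1 : ∑ j, ι (gm U k (d' j)) * bs j = 0 := by
      rw [← hd]
      apply Finset.sum_congr rfl
      intro j _
      rw [hd']
    rw [hsum, gm_zero] at h1
    rw [← hd' j, gm_zero]
    filter_upwards [h1] with c hc
    exact (Fintype.linearIndependent_iff.mp (hb c)) _ hc j
  -- the countable fields
  let cf : (Fin 2 →₀ ℕ) → Ult U k := fun e => gm U k (fun c => (P c).coeff e)
  obtain ⟨K₁, hK₁, hcount, hacl⟩ := exists_countable_subfield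
    (Set.range (fun p : ℕ × Fin 2 × Fin (m + 1) => σ p.1 p.2.1 p.2.2) ∪ Set.range cf)
    ((Set.countable_range _).union (Set.countable_range _))
  have hσK : ∀ r i j, σ r i j ∈ K₁ := fun r i j => hK₁ (Or.inl ⟨(r, i, j), rfl⟩)
  have hcK : ∀ e, cf e ∈ K₁ := fun e => hK₁ (Or.inr ⟨e, rfl⟩)
  let L₁ : Subfield (Ult U 𝕃) := Subfield.closure (ι '' K₁ ∪ Set.range bs)
  have hcL : Countable L₁ := by
    rw [← Cardinal.mk_le_aleph0_iff]
    refine (Subfield.cardinalMk_closure_le_max _).trans (max_le ?_ le_rfl)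
    rw [Cardinal.le_aleph0_iff_set_countable]
    refine Set.Countable.union (Set.Countable.image ?_ _) (Set.countable_range _)
    exact (Set.countable_coe_iff (s := (K₁ : Set (Ult U k)))).mp hcount
  have hιL : ∀ x : K₁, ι x ∈ L₁ := fun x => Subfield.subset_closure (Or.inl ⟨x, x.2, rfl⟩)
  have hbL : ∀ j, bs j ∈ L₁ := fun j => Subfield.subset_closure (Or.inr ⟨j, rfl⟩)
  let κ₁ : K₁ →+* L₁ := (ι.comp K₁.subtype).codRestrict L₁ hιL
  let _ : Algebra K₁ L₁ := κ₁.toAlgebra
  let _ : Algebra (Ult U k) (Ult U 𝕃) := ι.toAlgebra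
  let _ : Algebra (ℕ → k) (ℕ → 𝕃) := (RingHom.compLeft (algebraMap k 𝕃) ℕ).toAlgebra
  have hsm : ∀ (x : K₁) (y : L₁), ((x • y : L₁) : Ult U 𝕃) = ι x * y := fun x y => rfl
  let b₁ : Fin (m + 1) → L₁ := fun j => ⟨bs j, hbL j⟩
  have hb₁ : LinearIndependent K₁ b₁ := by
    rw [Fintype.linearIndependent_iff]
    intro g hg j
    have h1 : ∑ j, ι (g j) * bs j = 0 := by
      have h2 := congrArg (L₁.subtype) hg
      rw [map_sum, map_zero] at h2
      exact h2
    exact Subtype.ext (hlin (fun j => g j) h1 j)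
  have hbs0 : bs 0 = 1 := by
    have h1 : (fun c => b c 0) = (1 : ℕ → 𝕃) := by
      funext c
      exact hb0 c
    change gm U 𝕃 (fun c => b c 0) = 1
    rw [h1, map_one]
  have hb₁0 : b₁ 0 = 1 := Subtype.ext hbs0
  -- the polynomial
  let P₁ : MvPolynomial (Fin 2) K₁ := ∑ e ∈ box D, MvPolynomial.monomial e ⟨cf e, hcK e⟩
  have hP₁ : MvPolynomial.map K₁.subtype P₁ = MvPolynomial.map (gm U k) (hatP P D) := by
    simp only [P₁, hatP, map_sum, MvPolynomial.map_monomial]
    rfl
  have hP₁0 : P₁ ≠ 0 := by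
    intro h
    rw [h, map_zero] at hP₁
    have h1 : ∀ e ∈ box D, ∀ᶠ c in (U : Filter ℕ), (P c).coeff e = 0 := by
      intro e _
      have h2 := congrArg (MvPolynomial.coeff e) hP₁
      rw [MvPolynomial.coeff_map, MvPolynomial.coeff_zero] at h2
      have h3 := (gm_zero _).mp h2.symm
      filter_upwards [h3] with c hc
      rw [← coeff_hatP P D hPd, hc]
    have h2 := (Filter.eventually_all_finset (box D)).mpr h1
    obtain ⟨c, hc⟩ := h2.exists
    apply hP c
    ext e
    rw [MvPolynomial.coeff_zero]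
    by_cases he : e ∈ box D
    · exact hc e he
    · exact coeff_eq_zero_of_notMem_box (hPd c) he
  -- the curve has no polynomial points
  have H1 : ∀ f : Fin 2 → Polynomial K₁, MvPolynomial.aeval f P₁ = 0 →
      ∀ i, f i ∈ Set.range (algebraMap K₁ (Polynomial K₁)) := by
    intro f hf i
    have hlift : ∀ i, ∃ g : Polynomial (ℕ → k), g.map (gm U k) = (f i).map K₁.subtype :=
      fun i => Polynomial.map_surjective (gm U k) gm_surj _
    choose g hg using hlift
    have h1 : Polynomial.mapRingHom (gm U k) (MvPolynomial.aeval g (hatP P D)) = 0 := by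
      rw [hom_aeval (gm U k) (Polynomial.mapRingHom (gm U k))
        (by ext x <;> simp [Polynomial.algebraMap_eq]) g, ← hP₁]
      have h2 : (fun i => Polynomial.mapRingHom (gm U k) (g i)) =
          fun i => Polynomial.mapRingHom K₁.subtype (f i) := by
        funext i
        exact hg i
      rw [h2, ← hom_aeval K₁.subtype (Polynomial.mapRingHom K₁.subtype)
        (by ext x <;> simp [Polynomial.algebraMap_eq]) f, hf, map_zero]
    set Z := MvPolynomial.aeval g (hatP P D) with hZ
    have h2 : ∀ n, ∀ᶠ c in (U : Filter ℕ), Z.coeff n c = 0 := by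
      intro n
      rw [← gm_zero]
      have h3 := congrArg (fun q => Polynomial.coeff q n) h1
      simp only [Polynomial.coe_mapRingHom, Polynomial.coeff_map, Polynomial.coeff_zero] at h3
      exact h3
    have h3 := (Filter.eventually_all_finset Z.support).mpr (fun n _ => h2 n)
    have h4 : ∀ᶠ c in (U : Filter ℕ), ∀ i n, n ≠ 0 → (g i).coeff n c = 0 := by
      filter_upwards [h3] with c hc
      have h5 : Polynomial.mapRingHom (evc k c) Z = 0 := by
        ext n
        rw [Polynomial.coe_mapRingHom, Polynomial.coeff_map, Polynomial.coeff_zero]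
        by_cases hn : n ∈ Z.support
        · exact hc n hn
        · rw [Polynomial.notMem_support_iff.mp hn, map_zero]
      rw [hZ, hom_aeval (evc k c) (Polynomial.mapRingHom (evc k c))
        (by ext x <;> simp [Polynomial.algebraMap_eq]) g, map_hatP P D hPd] at h5
      intro i n hn
      obtain ⟨x, hx⟩ := hPN c _ h5 i
      have h6 := congrArg (fun q => Polynomial.coeff q n) hx
      simp only [Polynomial.coe_mapRingHom, Polynomial.coeff_map, Polynomial.algebraMap_eq,
        Polynomial.coeff_C] at h6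
      rw [if_neg hn] at h6
      exact h6.symm
    refine ⟨(f i).coeff 0, ?_⟩
    ext n
    rw [Polynomial.algebraMap_eq, Polynomial.coeff_C]
    split_ifs with hn
    · rw [hn]
    · have h5 : K₁.subtype ((f i).coeff n) = gm U k ((g i).coeff n) := by
        rw [← Polynomial.coeff_map, ← hg i, Polynomial.coeff_map]
      have h6 : gm U k ((g i).coeff n) = 0 := by
        rw [gm_zero]
        filter_upwards [h4] with c hc
        exact hc i n hn
      rw [h6] at h5
      exact congrArg Subtype.val (Subtype.ext h5 : (f i).coeff n = 0).symm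
  -- the infinite set of points
  let σ₁ : ℕ → Fin 2 → Fin (m + 1) → K₁ := fun r i j => ⟨σ r i j, hσK r i j⟩
  have hinf : (Set.range σ₁).Infinite := by
    apply Set.infinite_range_of_injective
    intro r r' h
    have h1 : ∀ i j, ∀ᶠ c in (U : Filter ℕ), pt c r i j = pt c r' i j := by
      intro i j
      rw [← gm_eq]
      exact congrArg Subtype.val (congrFun (congrFun h i) j)
    have h2 : ∀ᶠ c in (U : Filter ℕ), ∀ i j, pt c r i j = pt c r' i j := by
      rw [Filter.eventually_all]
      intro i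
      rw [Filter.eventually_all]
      intro j
      exact h1 i j
    obtain ⟨c, ⟨hc1, hc2⟩, hc3⟩ :=
      ((h2.and (eventually_ge_hyper r)).and (eventually_ge_hyper r')).exists
    exact hptne c r r' hc2 hc3 (by funext i j; exact hc1 i j)
  have hgen := generic b₁ hb₁ hb₁0 P₁ hP₁0 H1 (Set.range σ₁) hinf ?_ ?_
  rotate_left
  · rintro _ ⟨r, rfl⟩
    apply L₁.subtype.injective
    rw [map_zero, hom_aeval K₁.subtype L₁.subtype rfl, hP₁]
    have h1 : (fun i => L₁.subtype (∑ j, σ₁ r i j • b₁ j)) =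
        fun i => gm U 𝕃 (fun c => ∑ j, pt c r i j • b c j) := by
      funext i
      rw [← hsum, map_sum]
      rfl
    rw [h1, ← hom_aeval (gm U k) (gm U 𝕃) rfl
      (fun i => ((fun c => ∑ j, pt c r i j • b c j) : ℕ → 𝕃)), gm_zero]
    filter_upwards [eventually_ge_hyper r] with c hc
    have h2 := hom_aeval (evc k c) (evc 𝕃 c) rfl
      (fun i => ((fun c => ∑ j, pt c r i j • b c j) : ℕ → 𝕃)) (hatP P D)
    rw [map_hatP P D hPd] at h2
    have h3 := (hS c (pt c r) (hpt c r hc)).1
    exact h2.trans h3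
  · rintro _ ⟨r, rfl⟩
    by_contra hno
    push Not at hno
    have h1 : ∀ᶠ c in (U : Filter ℕ), ∀ i j, j ≠ 0 → pt c r i j = 0 := by
      rw [Filter.eventually_all]
      intro i
      rw [Filter.eventually_all]
      intro j
      by_cases hj : j = 0
      · filter_upwards with c h
        exact absurd hj h
      · have h2 : gm U k (fun c => pt c r i j) = 0 := congrArg Subtype.val (hno i j hj)
        rw [gm_zero] at h2
        filter_upwards [h2] with c h _
        exact h
    obtain ⟨c, hc, hcr⟩ := (h1.and (eventually_ge_hyper r)).exists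
    obtain ⟨i, j, hj, h2⟩ := (hS c (pt c r) (hpt c r hcr)).2
    exact h2 (hc i j hj)
  obtain ⟨f, hfP, ⟨i₀, hi₀⟩, τ, hτ, hτe⟩ := hgen
  -- back to the indices
  choose g hg using fun i => lift_laurent (gm U k) gm_surj
    (AddMonoidAlgebra.mapRingHom ℤ K₁.subtype (f i))
  have hcomp : ∀ {R S : Type} [CommRing R] [CommRing S] (φ : R →+* S),
      (AddMonoidAlgebra.mapRingHom ℤ φ).comp (algebraMap R R[T;T⁻¹]) =
        (algebraMap S S[T;T⁻¹]).comp φ := by
    intro R S _ _ φ
    exact AddMonoidAlgebra.mapRingHom_comp_algebraMap (M := ℤ) φ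
  have h1 : AddMonoidAlgebra.mapRingHom ℤ (gm U k) (MvPolynomial.aeval g (hatP P D)) = 0 := by
    rw [hom_aeval (gm U k) (AddMonoidAlgebra.mapRingHom ℤ (gm U k)) (hcomp _) g, ← hP₁]
    have h2 : (fun i => AddMonoidAlgebra.mapRingHom ℤ (gm U k) (g i)) =
        fun i => AddMonoidAlgebra.mapRingHom ℤ K₁.subtype (f i) := by
      funext i
      exact hg i
    rw [h2, ← hom_aeval K₁.subtype (AddMonoidAlgebra.mapRingHom ℤ K₁.subtype) (hcomp _) f, hfP,
      map_zero]
  set Z := MvPolynomial.aeval g (hatP P D) with hZ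
  have h2 : ∀ n, ∀ᶠ c in (U : Filter ℕ), Z.coeff n c = 0 := by
    intro n
    rw [← gm_zero]
    have h3 := congrArg (fun q : (Ult U k)[T;T⁻¹] => q.coeff n) h1
    simp only [AddMonoidAlgebra.coeff_mapRingHom] at h3
    exact h3
  have E1 : ∀ᶠ c in (U : Filter ℕ), MvPolynomial.aeval
      (fun i => AddMonoidAlgebra.mapRingHom ℤ (evc k c) (g i)) (P c) = 0 := by
    filter_upwards [(Filter.eventually_all_finset Z.coeff.support).mpr (fun n _ => h2 n)] with c hc
    have h5 := coeff_zero_of_map Z (evc k c) (fun n hn => hc n hn)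
    rw [hZ, hom_aeval (evc k c) (AddMonoidAlgebra.mapRingHom ℤ (evc k c)) (hcomp _) g,
      map_hatP P D hPd] at h5
    exact h5
  have hgf : ∀ i e, gm U k ((g i).coeff e) = ((f i).coeff e : K₁) := by
    intro i e
    have h3 := congrArg (fun q : (Ult U k)[T;T⁻¹] => q.coeff e) (hg i)
    simp only [AddMonoidAlgebra.coeff_mapRingHom] at h3
    exact h3
  obtain ⟨e₀, he₀, hfe⟩ : ∃ e : ℤ, e ≠ 0 ∧ (f i₀).coeff e ≠ 0 := by
    by_contra hno
    push Not at hno
    apply hi₀
    refine ⟨(f i₀).coeff 0, ?_⟩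
    have h3 : algebraMap K₁ K₁[T;T⁻¹] ((f i₀).coeff 0) =
        AddMonoidAlgebra.single 0 ((f i₀).coeff 0) := by
      rw [LaurentPolynomial.single_eq_C_mul_T, LaurentPolynomial.T_zero, mul_one]
      rfl
    rw [h3]
    ext n
    rw [AddMonoidAlgebra.coeff_single, Finsupp.single_apply]
    split_ifs with hn
    · rw [hn]
    · rw [hno n (fun h => hn h.symm)]
  have E2 : ∀ᶠ c in (U : Filter ℕ), (g i₀).coeff e₀ c ≠ 0 := by
    rw [Ultrafilter.eventually_not, ← gm_zero, hgf]
    intro h
    exact hfe (Subtype.ext h)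
  obtain ⟨τ', hτ'⟩ := gm_surj (τ : Ult U 𝕃)
  -- coordinates of the powers
  have hcoord : ∀ i e, (f i).coeff e ≠ 0 → ∃ d : Fin (m + 1) → K₁,
      ((τ : Ult U 𝕃)) ^ e = ∑ j, ι (d j) * bs j := by
    intro i e hie
    obtain ⟨d, hd⟩ := (Submodule.mem_span_range_iff_exists_fun K₁).mp (hτe i e hie)
    refine ⟨d, ?_⟩
    have h3 := congrArg L₁.subtype hd
    rw [map_sum, map_zpow₀] at h3
    exact h3.symm
  have E3 : ∀ᶠ c in (U : Filter ℕ), ∀ i, ∀ e ∈ (g i).coeff.support, (g i).coeff e c ≠ 0 →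
      τ' c ^ e ∈ Submodule.span k (Set.range (b c)) := by
    rw [Filter.eventually_all]
    intro i
    rw [Filter.eventually_all_finset]
    intro e _
    by_cases hie : (f i).coeff e = 0
    · have h3 : gm U k ((g i).coeff e) = 0 := by
        rw [hgf, hie]
        rfl
      rw [gm_zero] at h3
      filter_upwards [h3] with c hc hne
      exact absurd hc hne
    · obtain ⟨d, hd⟩ := hcoord i e hie
      choose d' hd' using fun j => gm_surj ((d j : K₁) : Ult U k)
      have h3 : gm U 𝕃 (fun c => τ' c ^ e) = gm U 𝕃 (fun c => ∑ j, d' j c • b c j) := by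
        rw [gm_zpow, hτ', hd, ← hsum]
        apply Finset.sum_congr rfl
        intro j _
        rw [hd' j]
      rw [gm_eq] at h3
      filter_upwards [h3] with c hc _
      rw [hc]
      exact Submodule.sum_mem _ fun j _ =>
        Submodule.smul_mem _ _ (Submodule.subset_span ⟨j, rfl⟩)
  have E4 : ∀ᶠ c in (U : Filter ℕ), τ' c ∉ Set.range (algebraMap k 𝕃) := by
    rw [Ultrafilter.eventually_not]
    intro hev
    let t' : ℕ → k := fun c => if h : τ' c ∈ Set.range (algebraMap k 𝕃) then h.choose else 0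
    set t : Ult U k := gm U k t' with ht
    have h3 : ι t = τ := by
      rw [← hτ']
      change gm U 𝕃 (fun c => algebraMap k 𝕃 (t' c)) = _
      rw [gm_eq]
      filter_upwards [hev] with c hc
      simp only [t']
      rw [dif_pos hc]
      exact hc.choose_spec
    obtain ⟨d, hd⟩ := hcoord i₀ e₀ hfe
    have h4 : ∑ j, ι ((d j : Ult U k) - if j = 0 then t ^ e₀ else 0) * bs j = 0 := by
      simp only [map_sub, sub_mul, Finset.sum_sub_distrib]
      rw [← hd, ← h3, ← map_zpow₀, Finset.sum_eq_single (0 : Fin (m + 1))]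
      · rw [if_pos rfl, hbs0, mul_one, sub_self]
      · intro j _ hj
        rw [if_neg hj, map_zero, zero_mul]
      · intro h
        exact absurd (Finset.mem_univ _) h
    have h5 := hlin _ h4 0
    rw [if_pos rfl, sub_eq_zero] at h5
    have h6 : t ^ e₀.natAbs ∈ K₁ := by
      rcases le_total 0 e₀ with h | h
      · rw [← zpow_natCast, Int.natAbs_of_nonneg h, ← h5]
        exact (d 0).2
      · rw [← zpow_natCast, Int.ofNat_natAbs_of_nonpos h, zpow_neg, ← h5]
        exact K₁.inv_mem (d 0).2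
    have h7 : IsIntegral K₁ t := by
      apply IsIntegral.of_pow (Int.natAbs_pos.mpr he₀)
      exact isIntegral_algebraMap (R := K₁) (x := (⟨_, h6⟩ : K₁))
    have h8 := IsAlgClosed.degree_eq_one_of_irreducible K₁ (minpoly.irreducible h7)
    obtain ⟨t₁, ht₁⟩ := minpoly.mem_range_of_degree_eq_one K₁ _ h8
    apply hτ
    refine ⟨t₁, Subtype.ext ?_⟩
    rw [← h3, ← ht₁]
    rfl
  obtain ⟨c, ⟨⟨hc1, hc2⟩, hc3⟩, hc4⟩ := (((E1.and E2).and E3).and E4).exists
  apply hL c
  refine ⟨_, hc1, ⟨i₀, ?_⟩, τ' c, hc4, ?_⟩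
  · rintro ⟨x, hx⟩
    apply hc2
    have h3 := congrArg (fun q : k[T;T⁻¹] => q.coeff e₀) hx
    simp only [AddMonoidAlgebra.coeff_mapRingHom] at h3
    have h4 : algebraMap k k[T;T⁻¹] x = AddMonoidAlgebra.single 0 x := by
      rw [LaurentPolynomial.single_eq_C_mul_T, LaurentPolynomial.T_zero, mul_one]
      rfl
    rw [h4, AddMonoidAlgebra.coeff_single, Finsupp.single_apply, if_neg (Ne.symm he₀)] at h3
    exact h3.symm
  · intro i e hie
    rw [AddMonoidAlgebra.coeff_mapRingHom] at hie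
    have h3 : (g i).coeff e c ≠ 0 := hie
    apply hc3 i e _ h3
    rw [Finsupp.mem_support_iff]
    intro h4
    apply h3
    rw [h4]
    rfl

end main

end Pool.Agent.Zk18
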